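import Pool.Agent.Lib_helper99.HB.Defs

/-! Hardy over imaginary quadratic fields, block KB: basic properties of `K_ν` -/

namespace Pool.Agent.HB

open Complex MeasureTheory Set Filter Topology

theorem kb_norm_cosh (z : ℂ) : ‖Complex.cosh z‖ ≤ Real.cosh z.re := by
  rw [Complex.cosh, Real.cosh_eq, norm_div, Complex.norm_ofNat]
  apply div_le_div_of_nonneg_right _ (by norm_num)
  calc ‖cexp z + cexp (-z)‖ ≤ ‖cexp z‖ + ‖cexp (-z)‖ := norm_add_le _ _
    _ = Real.exp z.re + Real.exp (-z.re) := by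
      rw [Complex.norm_exp, Complex.norm_exp, Complex.neg_re]

theorem kb_norm (ν : ℂ) (x u : ℝ) :
    ‖cexp (-((x * Real.cosh u : ℝ) : ℂ)) * Complex.cosh (ν * (u : ℂ))‖ ≤
      Real.exp (-(x * Real.cosh u)) * Real.cosh (ν.re * u) := by
  rw [norm_mul, Complex.norm_exp]
  have h1 : (-((x * Real.cosh u : ℝ) : ℂ)).re = -(x * Real.cosh u) := by
    rw [Complex.neg_re, Complex.ofReal_re]
  have h2 : (ν * (u : ℂ)).re = ν.re * u := by
    simp [Complex.mul_re]
  rw [h1]
  apply mul_le_mul_of_nonneg_left _ (Real.exp_pos _).le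
  rw [← h2]
  exact kb_norm_cosh _

theorem kb_dom (ν : ℂ) {x₀ : ℝ} (hx₀ : 0 < x₀) {x : ℝ} (hx : x₀ ≤ x) {u : ℝ} (hu : 0 < u) :
    ‖cexp (-((x * Real.cosh u : ℝ) : ℂ)) * Complex.cosh (ν * (u : ℂ))‖ ≤
      Real.exp ((|ν.re| + 1) ^ 2 / x₀) * Real.exp (-1 * u) := by
  refine (kb_norm ν x u).trans ?_
  have h1 : Real.cosh (ν.re * u) ≤ Real.exp (|ν.re| * u) := by
    rw [← Real.cosh_abs, abs_mul, abs_of_pos hu, Real.cosh_eq]
    have h : Real.exp (-(|ν.re| * u)) ≤ Real.exp (|ν.re| * u) := by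
      apply Real.exp_le_exp.mpr
      have : 0 ≤ |ν.re| * u := by positivity
      linarith
    linarith
  have h2 : u ^ 2 / 4 ≤ Real.cosh u := by
    rw [Real.cosh_eq]
    have h3 := Real.quadratic_le_exp_of_nonneg hu.le
    have h4 := Real.exp_pos (-u)
    nlinarith
  have h3 : x₀ * (u ^ 2 / 4) ≤ x * Real.cosh u := by
    apply mul_le_mul hx h2 (by positivity) (by linarith)
  calc Real.exp (-(x * Real.cosh u)) * Real.cosh (ν.re * u)
      ≤ Real.exp (-(x₀ * (u ^ 2 / 4))) * Real.exp (|ν.re| * u) := by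
        apply mul_le_mul _ h1 (Real.cosh_pos _).le (Real.exp_pos _).le
        apply Real.exp_le_exp.mpr
        linarith
    _ = Real.exp (-(x₀ * (u ^ 2 / 4)) + |ν.re| * u) := (Real.exp_add _ _).symm
    _ ≤ Real.exp ((|ν.re| + 1) ^ 2 / x₀ + -1 * u) := by
        apply Real.exp_le_exp.mpr
        have h4 : (|ν.re| + 1) * u ≤ (|ν.re| + 1) ^ 2 / x₀ + x₀ * (u ^ 2 / 4) := by
          have h5 : 0 ≤ ((|ν.re| + 1) / Real.sqrt x₀ - Real.sqrt x₀ * (u / 2)) ^ 2 := sq_nonneg _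
          have h6 : Real.sqrt x₀ ≠ 0 := (Real.sqrt_pos.mpr hx₀).ne'
          have h7 : Real.sqrt x₀ ^ 2 = x₀ := Real.sq_sqrt hx₀.le
          have h8 : ((|ν.re| + 1) / Real.sqrt x₀ - Real.sqrt x₀ * (u / 2)) ^ 2 =
              (|ν.re| + 1) ^ 2 / Real.sqrt x₀ ^ 2 - (|ν.re| + 1) * u +
                Real.sqrt x₀ ^ 2 * (u ^ 2 / 4) := by
            field_simp
            ring
          rw [h8, h7] at h5
          linarith
        linarith
    _ = _ := Real.exp_add _ _

theorem kb_cts (ν : ℂ) (x : ℝ) : Continuous (fun u : ℝ =>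
    cexp (-((x * Real.cosh u : ℝ) : ℂ)) * Complex.cosh (ν * (u : ℂ))) := by
  have h1 : Continuous Real.cosh := Real.continuous_cosh
  have h2 : Continuous Complex.cosh := Complex.continuous_cosh
  fun_prop

theorem kb_exp_int (c : ℝ) : IntegrableOn (fun u : ℝ => c * Real.exp (-1 * u)) (Ioi 0) :=
  (exp_neg_integrableOn_Ioi 0 one_pos).const_mul c

theorem kb_integrable (ν : ℂ) {x : ℝ} (hx : 0 < x) : IntegrableOn (fun u : ℝ =>
    cexp (-((x * Real.cosh u : ℝ) : ℂ)) * Complex.cosh (ν * (u : ℂ))) (Ioi 0) := by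
  refine Integrable.mono' (kb_exp_int (Real.exp ((|ν.re| + 1) ^ 2 / x)))
    (kb_cts ν x).aestronglyMeasurable ?_
  rw [ae_restrict_iff' measurableSet_Ioi]
  exact Eventually.of_forall fun u hu => kb_dom ν hx le_rfl hu

theorem kb_sinh_int {x : ℝ} (hx : 0 < x) :
    IntegrableOn (fun u : ℝ => Real.exp (-(x / 2) * Real.sinh u) * Real.cosh u) (Ioi 0) ∧
    ∫ u in Ioi (0 : ℝ), Real.exp (-(x / 2) * Real.sinh u) * Real.cosh u = 2 / x := by
  have hd : ∀ u ∈ Ici (0 : ℝ), HasDerivAt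
      (fun u : ℝ => -(2 / x) * Real.exp (-(x / 2) * Real.sinh u))
      (Real.exp (-(x / 2) * Real.sinh u) * Real.cosh u) u := by
    intro u _
    have h1 := ((Real.hasDerivAt_sinh u).const_mul (-(x / 2))).exp.const_mul (-(2 / x))
    have e : -(2 / x) * (Real.exp (-(x / 2) * Real.sinh u) * (-(x / 2) * Real.cosh u)) =
        Real.exp (-(x / 2) * Real.sinh u) * Real.cosh u := by
      have e1 : (2 / x) * (x / 2) = 1 := by field_simp
      linear_combination Real.exp (-(x / 2) * Real.sinh u) * Real.cosh u * e1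
    rw [← e]
    exact h1
  have hp : ∀ u ∈ Ioi (0 : ℝ), 0 ≤ Real.exp (-(x / 2) * Real.sinh u) * Real.cosh u :=
    fun u _ => mul_nonneg (Real.exp_pos _).le (Real.cosh_pos _).le
  have ht : Tendsto (fun u : ℝ => -(2 / x) * Real.exp (-(x / 2) * Real.sinh u)) atTop (𝓝 0) := by
    have h1 : Tendsto Real.sinh atTop atTop := by
      refine tendsto_atTop_mono' atTop ?_ tendsto_id
      filter_upwards [eventually_ge_atTop (0 : ℝ)] with u hu
      exact Real.self_le_sinh_iff.mpr hu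
    have h2 : Tendsto (fun u : ℝ => -(x / 2) * Real.sinh u) atTop atBot :=
      h1.const_mul_atTop_of_neg (by linarith [half_pos hx])
    have h3 := (Real.tendsto_exp_atBot.comp h2).const_mul (-(2 / x))
    rw [mul_zero] at h3
    exact h3
  refine ⟨integrableOn_Ioi_deriv_of_nonneg' hd hp ht, ?_⟩
  rw [integral_Ioi_of_hasDerivAt_of_nonneg' hd hp ht]
  simp

theorem kb_bd {ν : ℂ} (hν : |ν.re| ≤ 1) {x : ℝ} (hx : 0 < x) :
    ‖Kb ν x‖ ≤ 2 / x * Real.exp (-(x / 2)) := by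
  obtain ⟨h1, h2⟩ := kb_sinh_int hx
  unfold Kb
  rw [← h2, mul_comm, ← integral_const_mul]
  apply norm_integral_le_of_norm_le (h1.const_mul _)
  rw [ae_restrict_iff' measurableSet_Ioi]
  refine Eventually.of_forall fun u hu => (kb_norm ν x u).trans ?_
  have hu' : (0 : ℝ) < u := hu
  have h3 : Real.cosh (ν.re * u) ≤ Real.cosh u := by
    rw [Real.cosh_le_cosh, abs_mul]
    calc |ν.re| * |u| ≤ 1 * |u| := mul_le_mul_of_nonneg_right hν (abs_nonneg _)
      _ = |u| := one_mul _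
  rw [← mul_assoc, ← Real.exp_add]
  apply mul_le_mul _ h3 (Real.cosh_pos _).le (Real.exp_pos _).le
  apply Real.exp_le_exp.mpr
  have h4 := Real.one_le_cosh u
  have h5 := (Real.sinh_lt_cosh u).le
  nlinarith

theorem kb_cont (ν : ℂ) : ContinuousOn (Kb ν) (Ioi 0) := by
  intro x₀ hx₀
  have hx₀' : (0 : ℝ) < x₀ := hx₀
  apply ContinuousAt.continuousWithinAt
  unfold Kb
  refine continuousAt_of_dominated (bound := fun u : ℝ =>
    Real.exp ((|ν.re| + 1) ^ 2 / (x₀ / 2)) * Real.exp (-1 * u)) ?_ ?_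
    (kb_exp_int _) ?_
  · exact Eventually.of_forall fun x => (kb_cts ν x).aestronglyMeasurable
  · filter_upwards [eventually_ge_nhds (half_lt_self hx₀')] with x hx
    rw [ae_restrict_iff' measurableSet_Ioi]
    exact Eventually.of_forall fun u hu => kb_dom ν (half_pos hx₀') hx hu
  · refine Eventually.of_forall fun u => ?_
    apply Continuous.continuousAt
    fun_prop

theorem kb_real {ν : ℂ} (hν : Adm ν) (x : ℝ) : Kb ν x = ((Kr ν x : ℝ) : ℂ) := by
  have h : (starRingEnd ℂ) (Kb ν x) = Kb ν x := by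
    unfold Kb
    rw [← integral_conj]
    congr 1
    funext u
    rw [map_mul, ← Complex.exp_conj, map_neg, Complex.conj_ofReal, ← Complex.cosh_conj, map_mul,
      Complex.conj_ofReal]
    congr 1
    rcases hν with h | ⟨h, -⟩
    · have : (starRingEnd ℂ) ν = -ν := by
        apply Complex.ext
        · simp [h]
        · simp
      rw [this, neg_mul, Complex.cosh_neg]
    · rw [Complex.conj_eq_iff_im.mpr h]
  unfold Kr
  exact (Complex.conj_eq_iff_re.mp h).symm

theorem kb_adm {ν : ℂ} (hν : Adm ν) : |ν.re| ≤ 1 := by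
  rcases hν with h | ⟨-, h⟩
  · rw [h]
    simp
  · exact h.le

theorem kr_bd {ν : ℂ} (hν : Adm ν) {x : ℝ} (hx : 0 < x) :
    |Kr ν x| ≤ 2 / x * Real.exp (-(x / 2)) :=
  (Complex.abs_re_le_norm _).trans (kb_bd (kb_adm hν) hx)

theorem kr_cont (ν : ℂ) : ContinuousOn (Kr ν) (Ioi 0) :=
  Complex.continuous_re.comp_continuousOn (kb_cont ν)

end Pool.Agent.HB
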