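import Pool.Agent.Lib_helper99.HB.Defs
import Pool.Agent.Lib_helper99.HBF.KB

/-!
# HB, block KH: `K_ν` as an integral over the half line, the Mellin transform of `K_ν`
-/

namespace Pool.Agent.HB

open Complex MeasureTheory Set Filter Topology

/-- the integrand on the line -/
theorem kh_exp_norm (ν : ℂ) (x u : ℝ) :
    ‖cexp (ν * (u : ℂ)) * cexp (-((x * Real.cosh u : ℝ) : ℂ))‖ =
      Real.exp (ν.re * u) * Real.exp (-(x * Real.cosh u)) := by
  rw [norm_mul, Complex.norm_exp, Complex.norm_exp]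
  congr 2
  simp

theorem kh_cosh_le (ρ x u : ℝ) :
    Real.exp (ρ * u) * Real.exp (-(x * Real.cosh u)) ≤
      2 * ‖cexp (-((x * Real.cosh u : ℝ) : ℂ)) * Complex.cosh ((ρ : ℂ) * (u : ℂ))‖ := by
  rw [norm_mul, ← Complex.ofReal_neg, ← Complex.ofReal_exp, ← Complex.ofReal_mul,
    ← Complex.ofReal_cosh, Complex.norm_real, Complex.norm_real, Real.norm_eq_abs,
    Real.norm_eq_abs, Real.abs_exp, abs_of_pos (Real.cosh_pos _), Real.cosh_eq (ρ * u)]
  have h1 := Real.exp_pos (ρ * u)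
  have h2 := Real.exp_pos (-(ρ * u))
  have h3 := Real.exp_pos (-(x * Real.cosh u))
  nlinarith [mul_pos h2 h3]

theorem kh_int_Ioi (ρ : ℝ) {x : ℝ} (hx : 0 < x) : IntegrableOn (fun u : ℝ =>
    Real.exp (ρ * u) * Real.exp (-(x * Real.cosh u))) (Ioi 0) := by
  refine Integrable.mono' ((kb_integrable (ρ : ℂ) hx).norm.const_mul 2) ?_ ?_
  · exact (Continuous.aestronglyMeasurable (by fun_prop))
  · refine Eventually.of_forall fun u => ?_
    rw [Real.norm_eq_abs, abs_of_pos (by positivity)]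
    exact kh_cosh_le ρ x u

theorem kh_int_line (ρ : ℝ) {x : ℝ} (hx : 0 < x) : Integrable (fun u : ℝ =>
    Real.exp (ρ * u) * Real.exp (-(x * Real.cosh u))) := by
  rw [← integrableOn_univ, ← Iic_union_Ioi (a := (0 : ℝ))]
  refine IntegrableOn.union ?_ (kh_int_Ioi ρ hx)
  have h : IntegrableOn (fun u : ℝ => Real.exp (-ρ * u) * Real.exp (-(x * Real.cosh u)))
      (Ici 0) := by
    rw [integrableOn_Ici_iff_integrableOn_Ioi]
    exact kh_int_Ioi (-ρ) hx
  have h' : IntegrableOn (fun u : ℝ => Real.exp (-ρ * (-u)) * Real.exp (-(x * Real.cosh (-u))))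
      (Iic 0) := by
    apply IntegrableOn.comp_neg_Iic (c := (0 : ℝ)) (f := fun u : ℝ =>
      Real.exp (-ρ * u) * Real.exp (-(x * Real.cosh u)))
    simpa using h
  refine h'.congr_fun (fun u _ => ?_) measurableSet_Iic
  simp

theorem kh_intC_line (ν : ℂ) {x : ℝ} (hx : 0 < x) : Integrable (fun u : ℝ =>
    cexp (ν * (u : ℂ)) * cexp (-((x * Real.cosh u : ℝ) : ℂ))) := by
  refine Integrable.mono' (kh_int_line ν.re hx) ?_ ?_
  · exact (Continuous.aestronglyMeasurable (by fun_prop))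
  · exact Eventually.of_forall fun u => (kh_exp_norm ν x u).le

/-- the integral over the line -/
theorem kh_line (ν : ℂ) {x : ℝ} (hx : 0 < x) :
    ∫ u : ℝ, cexp (ν * (u : ℂ)) * cexp (-((x * Real.cosh u : ℝ) : ℂ)) = 2 * Kb ν x := by
  have hI := kh_intC_line ν hx
  rw [← integral_add_compl (measurableSet_Iic (a := (0 : ℝ))) hI, compl_Iic]
  have h1 : ∫ u in Iic (0 : ℝ), cexp (ν * (u : ℂ)) * cexp (-((x * Real.cosh u : ℝ) : ℂ)) =
      ∫ u in Ioi (0 : ℝ), cexp (-ν * (u : ℂ)) * cexp (-((x * Real.cosh u : ℝ) : ℂ)) := by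
    have := integral_comp_neg_Iic (0 : ℝ)
      (fun u : ℝ => cexp (-ν * (u : ℂ)) * cexp (-((x * Real.cosh u : ℝ) : ℂ)))
    rw [neg_zero] at this
    rw [← this]
    refine setIntegral_congr_fun measurableSet_Iic fun u _ => ?_
    simp
  rw [h1, ← integral_add ((kh_intC_line (-ν) hx).integrableOn) hI.integrableOn]
  unfold Kb
  rw [← integral_const_mul]
  refine setIntegral_congr_fun measurableSet_Ioi fun u _ => ?_
  change cexp (-ν * (u : ℂ)) * cexp (-((x * Real.cosh u : ℝ) : ℂ)) +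
    cexp (ν * (u : ℂ)) * cexp (-((x * Real.cosh u : ℝ) : ℂ)) =
    2 * (cexp (-((x * Real.cosh u : ℝ) : ℂ)) * Complex.cosh (ν * (u : ℂ)))
  rw [Complex.cosh, neg_mul]
  ring

theorem kh_image : Real.exp '' (univ : Set ℝ) = Ioi 0 := by
  rw [image_univ, Real.range_exp]

theorem kh_half_real (ρ : ℝ) (x u : ℝ) :
    |Real.exp u| • ((Real.exp u) ^ (ρ - 1) *
      Real.exp (-(x / 2 * (Real.exp u + (Real.exp u)⁻¹)))) =
      Real.exp (ρ * u) * Real.exp (-(x * Real.cosh u)) := by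
  rw [Real.abs_exp, smul_eq_mul, ← Real.exp_mul, ← mul_assoc, ← Real.exp_add,
    ← Real.exp_neg, Real.cosh_eq]
  congr 2
  · ring
  · ring

theorem kb_half (ν : ℂ) {x : ℝ} (hx : 0 < x) :
    IntegrableOn (fun v : ℝ => v ^ (ν.re - 1) * Real.exp (-(x / 2 * (v + v⁻¹)))) (Ioi 0) ∧
      ∫ v in Ioi (0 : ℝ), (v : ℂ) ^ (ν - 1) * ((Real.exp (-(x / 2 * (v + v⁻¹))) : ℝ) : ℂ) =
        2 * Kb ν x := by
  constructor
  · rw [← kh_image, integrableOn_image_iff_integrableOn_abs_deriv_smul MeasurableSet.univ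
      (fun u _ => (Real.hasDerivAt_exp u).hasDerivWithinAt) (Real.exp_injective.injOn)]
    rw [integrableOn_univ]
    exact (kh_int_line ν.re hx).congr (Eventually.of_forall fun u => (kh_half_real ν.re x u).symm)
  · rw [← kh_image, integral_image_eq_integral_abs_deriv_smul MeasurableSet.univ
      (fun u _ => (Real.hasDerivAt_exp u).hasDerivWithinAt) (Real.exp_injective.injOn)]
    rw [← kh_line ν hx, setIntegral_univ]
    refine integral_congr_ae (Eventually.of_forall fun u => ?_)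
    change |Real.exp u| • (((Real.exp u : ℝ) : ℂ) ^ (ν - 1) *
      ((Real.exp (-(x / 2 * (Real.exp u + (Real.exp u)⁻¹))) : ℝ) : ℂ)) =
      cexp (ν * (u : ℂ)) * cexp (-((x * Real.cosh u : ℝ) : ℂ))
    rw [Real.abs_exp, Complex.real_smul, Complex.cpow_def_of_ne_zero
      (by exact_mod_cast (Real.exp_pos u).ne'), ← Complex.ofReal_log (Real.exp_pos u).le,
      Real.log_exp, ← mul_assoc, Complex.ofReal_exp u, ← Complex.exp_add, Complex.ofReal_exp,
      ← Real.exp_neg, Real.cosh_eq]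
    congr 2
    · ring
    · push_cast
      ring

theorem kh_cpow {x : ℝ} (hx : 0 < x) (s : ℂ) :
    (x : ℂ) ^ s = cexp (s * ((Real.log x : ℝ) : ℂ)) := by
  rw [Complex.cpow_def_of_ne_zero (by exact_mod_cast hx.ne'), ← Complex.ofReal_log hx.le,
    mul_comm]

/-- the Mellin transform of a Gaussian, complex exponent -/
theorem kh_gauss {s : ℂ} (hs : 0 < s.re) {r : ℝ} (hr : 0 < r) :
    ∫ x in Ioi (0 : ℝ), (x : ℂ) ^ (s - 1) * ((Real.exp (-(r * x ^ 2)) : ℝ) : ℂ) =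
      1 / 2 * ((1 / r : ℂ) ^ (s / 2) * Gamma (s / 2)) := by
  have hs2 : 0 < (s / 2).re := by
    rw [show s / 2 = s / (2 : ℝ) by norm_num, Complex.div_ofReal_re]; positivity
  have h1 := Complex.integral_cpow_mul_exp_neg_mul_Ioi hs2 hr
  have h2 := integral_comp_rpow_Ioi_of_pos (g := fun t : ℝ => (t : ℂ) ^ (s / 2 - 1) *
    cexp (-(r * t))) (p := 2) (by norm_num)
  rw [h1] at h2
  rw [← h2, ← integral_const_mul]
  refine setIntegral_congr_fun measurableSet_Ioi fun x hx => ?_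
  have hx0 : (0 : ℝ) < x := hx
  rw [show (2 : ℝ) - 1 = 1 by norm_num, Real.rpow_one, Complex.real_smul, Real.rpow_two,
    kh_cpow hx0, kh_cpow (by positivity : (0 : ℝ) < x ^ 2), Real.log_pow]
  have h3 : (x : ℂ) = cexp ((Real.log x : ℝ) : ℂ) := by
    rw [← Complex.ofReal_exp, Real.exp_log hx0]
  have h4 : (((2 : ℝ) * x : ℝ) : ℂ) = 2 * cexp ((Real.log x : ℝ) : ℂ) := by
    rw [← h3]; push_cast; ring
  rw [h4, Complex.ofReal_exp]
  have h5 : cexp ((s - 1) * ((Real.log x : ℝ) : ℂ)) = cexp ((Real.log x : ℝ) : ℂ) *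
      cexp ((s / 2 - 1) * ((((2 : ℕ) : ℝ) * Real.log x : ℝ) : ℂ)) := by
    rw [← Complex.exp_add]
    congr 1
    push_cast
    ring
  rw [h5]
  push_cast
  ring

theorem kh_gauss_int {s r : ℝ} (hs : 0 < s) (hr : 0 < r) :
    IntegrableOn (fun x : ℝ => x ^ (s - 1) * Real.exp (-(r * x ^ 2))) (Ioi 0) := by
  have := integrableOn_rpow_mul_exp_neg_mul_sq (b := r) hr (s := s - 1) (by linarith)
  refine this.congr_fun (fun x _ => ?_) measurableSet_Ioi
  simp only
  ring_nf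

theorem kh_gauss_real {s r : ℝ} (hs : 0 < s) (hr : 0 < r) :
    ∫ x in Ioi (0 : ℝ), x ^ (s - 1) * Real.exp (-(r * x ^ 2)) =
      1 / 2 * ((1 / r) ^ (s / 2) * Real.Gamma (s / 2)) := by
  have := kh_gauss (s := (s : ℂ)) (by simpa using hs) hr
  rw [← Complex.ofReal_inj, ← integral_complex_ofReal]
  have h2 : (s : ℂ) / 2 = ((s / 2 : ℝ) : ℂ) := by push_cast; ring
  have h3 : (1 / r : ℂ) = ((1 / r : ℝ) : ℂ) := by push_cast; ring
  rw [h2, h3, Complex.Gamma_ofReal, ← Complex.ofReal_cpow (by positivity)] at this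
  convert this using 1
  · refine setIntegral_congr_fun measurableSet_Ioi fun x hx => ?_
    have hx0 : (0 : ℝ) < x := hx
    rw [Complex.ofReal_mul, Complex.ofReal_cpow hx0.le]
    push_cast
    rfl
  · push_cast
    rfl

/-- the function for Fubini -/
noncomputable def khF (ν z : ℂ) (p : ℝ × ℝ) : ℂ :=
  (p.1 : ℂ) ^ (2 * z - ν - 1) * ((Real.exp (-((4 * p.2)⁻¹ * p.1 ^ 2)) : ℝ) : ℂ) *
    ((p.2 : ℂ) ^ (ν - 1) * ((Real.exp (-p.2) : ℝ) : ℂ))

theorem khF_norm (ν z : ℂ) {x a : ℝ} (hx : 0 < x) (ha : 0 < a) :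
    ‖khF ν z (x, a)‖ = x ^ (2 * z.re - ν.re - 1) * Real.exp (-((4 * a)⁻¹ * x ^ 2)) *
      (a ^ (ν.re - 1) * Real.exp (-a)) := by
  unfold khF
  simp only
  rw [norm_mul, norm_mul, norm_mul, Complex.norm_cpow_eq_rpow_re_of_pos hx,
    Complex.norm_cpow_eq_rpow_re_of_pos ha, Complex.norm_real, Complex.norm_real,
    Real.norm_eq_abs, Real.norm_eq_abs, Real.abs_exp, Real.abs_exp]
  simp

theorem khF_meas (ν z : ℂ) : Measurable (khF ν z) := by
  unfold khF
  fun_prop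

theorem khF_inner (ν z : ℂ) (hz : |ν.re| / 2 < z.re) {a : ℝ} (ha : 0 < a) :
    IntegrableOn (fun x : ℝ => khF ν z (x, a)) (Ioi 0) ∧
    (∫ x in Ioi (0 : ℝ), khF ν z (x, a) = 1 / 2 * ((4 : ℂ) ^ (z - ν / 2) * Gamma (z - ν / 2)) *
      (cexp (-a) * (a : ℂ) ^ (z + ν / 2 - 1))) ∧
    (∫ x in Ioi (0 : ℝ), ‖khF ν z (x, a)‖ =
      1 / 2 * ((4 : ℝ) ^ (z.re - ν.re / 2) * Real.Gamma (z.re - ν.re / 2)) *
      (Real.exp (-a) * a ^ (z.re + ν.re / 2 - 1))) := by
  have h0 : 0 < 2 * z.re - ν.re := by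
    have := le_abs_self ν.re; linarith
  have ha4 : 0 < (4 * a)⁻¹ := by positivity
  have hs : 0 < (2 * z - ν).re := by simpa using h0
  refine ⟨?_, ?_, ?_⟩
  · have h1 := (kh_gauss_int h0 ha4).mul_const (a ^ (ν.re - 1) * Real.exp (-a))
    refine Integrable.mono' h1 ?_ ?_
    · exact ((khF_meas ν z).comp (by fun_prop)).aestronglyMeasurable
    · refine (ae_restrict_iff' measurableSet_Ioi).2 (Eventually.of_forall fun x hx => ?_)
      exact (khF_norm ν z hx ha).le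
  · unfold khF
    simp only
    rw [integral_mul_const, kh_gauss hs ha4]
    have e1 : (1 : ℂ) / (((4 * a)⁻¹ : ℝ) : ℂ) = ((4 * a : ℝ) : ℂ) := by
      push_cast
      rw [one_div, inv_inv]
    have e2 : (2 * z - ν) / 2 = z - ν / 2 := by ring
    have e3 : (4 : ℂ) = ((4 : ℝ) : ℂ) := by norm_num
    rw [e1, e2, kh_cpow (by positivity : (0 : ℝ) < 4 * a), Real.log_mul (by norm_num) ha.ne', e3,
      kh_cpow (by norm_num : (0 : ℝ) < 4), kh_cpow ha, kh_cpow ha, Complex.ofReal_exp]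
    have e4 : cexp ((z - ν / 2) * ((Real.log 4 + Real.log a : ℝ) : ℂ)) *
        cexp ((ν - 1) * ((Real.log a : ℝ) : ℂ)) =
        cexp ((z - ν / 2) * ((Real.log 4 : ℝ) : ℂ)) *
          cexp ((z + ν / 2 - 1) * ((Real.log a : ℝ) : ℂ)) := by
      rw [← Complex.exp_add, ← Complex.exp_add]
      congr 1
      push_cast
      ring
    push_cast at e4 ⊢
    linear_combination (1 / 2 * Gamma (z - ν / 2) * cexp (-a)) * e4
  · rw [setIntegral_congr_fun measurableSet_Ioi (fun x hx => khF_norm ν z hx ha),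
      integral_mul_const, kh_gauss_real h0 ha4]
    rw [one_div (4 * a)⁻¹, inv_inv, show (2 * z.re - ν.re) / 2 = z.re - ν.re / 2 by ring,
      Real.mul_rpow (by norm_num) ha.le]
    have e4 : a ^ (z.re - ν.re / 2) * a ^ (ν.re - 1) = a ^ (z.re + ν.re / 2 - 1) := by
      rw [← Real.rpow_add ha]
      congr 1
      ring
    rw [← e4]
    ring

theorem khF_integrable (ν z : ℂ) (hz : |ν.re| / 2 < z.re) :
    Integrable (khF ν z) ((volume.restrict (Ioi (0 : ℝ))).prod (volume.restrict (Ioi (0 : ℝ)))) := by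
  rw [integrable_prod_iff' (khF_meas ν z).aestronglyMeasurable]
  constructor
  · refine (ae_restrict_iff' measurableSet_Ioi).2 (Eventually.of_forall fun a ha => ?_)
    exact (khF_inner ν z hz ha).1
  · have h0 : 0 < z.re + ν.re / 2 := by
      have := neg_abs_le ν.re; linarith
    have h1 : IntegrableOn (fun a : ℝ => 1 / 2 * ((4 : ℝ) ^ (z.re - ν.re / 2) *
        Real.Gamma (z.re - ν.re / 2)) * (Real.exp (-a) * a ^ (z.re + ν.re / 2 - 1))) (Ioi 0) :=
      (Real.GammaIntegral_convergent h0).const_mul _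
    refine h1.congr_fun (fun a ha => ?_) measurableSet_Ioi
    exact ((khF_inner ν z hz ha).2.2).symm

theorem khF_outer (ν z : ℂ) {x : ℝ} (hx : 0 < x) :
    ∫ a in Ioi (0 : ℝ), khF ν z (x, a) =
      (2 : ℂ) ^ (1 - ν) * ((x : ℂ) ^ (2 * z - 1) * Kb ν x) := by
  have hx2 : 0 < x / 2 := by positivity
  have h1 := integral_comp_mul_left_Ioi' (fun a : ℝ => khF ν z (x, a)) 0 hx2
  rw [mul_zero] at h1
  rw [← h1, ← mul_assoc]
  have h2 : (2 : ℂ) ^ (1 - ν) * (x : ℂ) ^ (2 * z - 1) * Kb ν x =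
      (2 : ℂ) ^ (-ν) * (x : ℂ) ^ (2 * z - 1) * (2 * Kb ν x) := by
    rw [sub_eq_add_neg, Complex.cpow_add _ _ (by norm_num), Complex.cpow_one]
    ring
  rw [h2, ← (kb_half ν hx).2, Complex.real_smul, ← integral_const_mul, ← integral_const_mul]
  refine setIntegral_congr_fun measurableSet_Ioi fun v hv => ?_
  have hv0 : (0 : ℝ) < v := hv
  unfold khF
  simp only
  have e3 : (2 : ℂ) = ((2 : ℝ) : ℂ) := by norm_num
  have e5 : (((x / 2 : ℝ) : ℝ) : ℂ) = cexp (((Real.log x - Real.log 2 : ℝ) : ℝ) : ℂ) := by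
    rw [← Real.log_div hx.ne' (by norm_num), ← Complex.ofReal_exp, Real.exp_log hx2]
  have e6 : -((4 * (x / 2 * v))⁻¹ * x ^ 2) + -(x / 2 * v) = -(x / 2 * (v + v⁻¹)) := by
    field_simp
    ring
  rw [← e6, Real.exp_add, kh_cpow hx, kh_cpow hx, e5,
    kh_cpow (by positivity : (0 : ℝ) < x / 2 * v), Real.log_mul hx2.ne' hv0.ne',
    Real.log_div hx.ne' (by norm_num), kh_cpow hv0]
  rw [show (2 : ℂ) ^ (-ν) = cexp (-ν * ((Real.log 2 : ℝ) : ℂ)) by
    rw [← kh_cpow (by norm_num : (0 : ℝ) < 2)]; norm_num]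
  have e4 : cexp ((Real.log x - Real.log 2 : ℝ) : ℂ) *
      (cexp ((2 * z - ν - 1) * ((Real.log x : ℝ) : ℂ)) *
        cexp ((ν - 1) * ((Real.log x - Real.log 2 + Real.log v : ℝ) : ℂ))) =
      cexp (-ν * ((Real.log 2 : ℝ) : ℂ)) * cexp ((2 * z - 1) * ((Real.log x : ℝ) : ℂ)) *
        cexp ((ν - 1) * ((Real.log v : ℝ) : ℂ)) := by
    simp only [← Complex.exp_add]
    congr 1
    push_cast
    ring
  rw [Complex.ofReal_mul]
  linear_combination (((Real.exp (-((4 * (x / 2 * v))⁻¹ * x ^ 2)) : ℝ) : ℂ) *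
    ((Real.exp (-(x / 2 * v)) : ℝ) : ℂ)) * e4

theorem kb_mellin {ν z : ℂ} (hz : |ν.re| / 2 < z.re) :
    IntegrableOn (fun x : ℝ => x ^ (2 * z.re - 1) * ‖Kb ν x‖) (Ioi 0) ∧
      ∫ x in Ioi (0 : ℝ), (x : ℂ) ^ (2 * z - 1) * Kb ν x =
        (2 : ℂ) ^ (2 * z - 2) * (Gamma (z + ν / 2) * Gamma (z - ν / 2)) := by
  have hI := khF_integrable ν z hz
  have h2 : (2 : ℂ) ^ (1 - ν) ≠ 0 := by
    rw [show (2 : ℂ) = ((2 : ℝ) : ℂ) by norm_num, kh_cpow (by norm_num : (0 : ℝ) < 2)]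
    exact Complex.exp_ne_zero _
  have hint : IntegrableOn (fun x : ℝ => (2 : ℂ) ^ (1 - ν) * ((x : ℂ) ^ (2 * z - 1) * Kb ν x))
      (Ioi 0) := by
    refine (hI.integral_prod_left).congr ?_
    refine (ae_restrict_iff' measurableSet_Ioi).2 (Eventually.of_forall fun x hx => ?_)
    exact khF_outer ν z hx
  have hint2 : IntegrableOn (fun x : ℝ => ((x : ℂ) ^ (2 * z - 1) * Kb ν x)) (Ioi 0) := by
    have := hint.const_mul ((2 : ℂ) ^ (1 - ν))⁻¹
    refine this.congr (Eventually.of_forall fun x => ?_)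
    simp only
    rw [← mul_assoc, inv_mul_cancel₀ h2, one_mul]
  constructor
  · have hint3 : IntegrableOn (fun x : ℝ => ‖(x : ℂ) ^ (2 * z - 1) * Kb ν x‖) (Ioi 0) :=
      hint2.norm
    refine hint3.congr_fun (fun x hx => ?_) measurableSet_Ioi
    have hx0 : (0 : ℝ) < x := hx
    simp only
    rw [norm_mul, Complex.norm_cpow_eq_rpow_re_of_pos hx0]
    simp
  · have h3 := integral_integral_swap (f := fun x a => khF ν z (x, a)) hI
    rw [setIntegral_congr_fun measurableSet_Ioi (fun x hx => khF_outer ν z hx),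
      setIntegral_congr_fun measurableSet_Ioi (fun a ha => (khF_inner ν z hz ha).2.1),
      integral_const_mul, integral_const_mul] at h3
    have h0 : 0 < (z + ν / 2).re := by
      have := neg_abs_le ν.re
      rw [Complex.add_re, show ν / 2 = ν / (2 : ℝ) by norm_num, Complex.div_ofReal_re]
      linarith
    have h4 := Complex.Gamma_eq_integral h0
    unfold Complex.GammaIntegral at h4
    simp only [Complex.ofReal_exp, Complex.ofReal_neg] at h4
    rw [← h4] at h3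
    have e1 : (2 : ℂ) ^ (1 - ν) * (2 : ℂ) ^ (2 * z - 2) =
        1 / 2 * (4 : ℂ) ^ (z - ν / 2) := by
      rw [show (4 : ℂ) = ((4 : ℝ) : ℂ) by norm_num, show (2 : ℂ) = ((2 : ℝ) : ℂ) by norm_num,
        kh_cpow (by norm_num : (0 : ℝ) < 2), kh_cpow (by norm_num : (0 : ℝ) < 2),
        kh_cpow (by norm_num : (0 : ℝ) < 4), ← Complex.exp_add,
        show (4 : ℝ) = 2 ^ 2 by norm_num, Real.log_pow]
      have e2 : (1 : ℂ) / ((2 : ℝ) : ℂ) = cexp (-((Real.log 2 : ℝ) : ℂ)) := by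
        rw [← Complex.ofReal_neg, ← Complex.ofReal_exp, Real.exp_neg,
          Real.exp_log (by norm_num)]
        push_cast
        rw [one_div]
      rw [e2, ← Complex.exp_add]
      congr 1
      push_cast
      ring
    have h5 : (2 : ℂ) ^ (1 - ν) * ∫ (a : ℝ) in Ioi 0, (a : ℂ) ^ (2 * z - 1) * Kb ν a =
        (2 : ℂ) ^ (1 - ν) * ((2 : ℂ) ^ (2 * z - 2) * (Gamma (z + ν / 2) * Gamma (z - ν / 2))) := by
      rw [h3]
      linear_combination (-(Gamma (z + ν / 2) * Gamma (z - ν / 2))) * e1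
    exact mul_left_cancel₀ h2 h5

theorem kr_ne {ν : ℂ} (hν : Adm ν) : ∃ x : ℝ, 0 < x ∧ Kr ν x ≠ 0 := by
  by_contra hcon
  push Not at hcon
  have hz : |ν.re| / 2 < (1 : ℂ).re := by
    rcases hν with h | ⟨_, h⟩
    · rw [h]; norm_num
    · rw [Complex.one_re]; linarith
  have h1 := (kb_mellin hz).2
  have h2 : ∫ x in Ioi (0 : ℝ), (x : ℂ) ^ (2 * (1 : ℂ) - 1) * Kb ν x = 0 := by
    rw [setIntegral_congr_fun (g := fun _ => (0 : ℂ)) measurableSet_Ioi, integral_zero]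
    intro x hx
    simp only
    rw [kb_real hν x, hcon x hx]
    simp
  rw [h2] at h1
  have h3 : 0 < ((1 : ℂ) + ν / 2).re := by
    have := neg_abs_le ν.re
    rw [Complex.add_re, show ν / 2 = ν / (2 : ℝ) by norm_num, Complex.div_ofReal_re]
    linarith
  have h4 : 0 < ((1 : ℂ) - ν / 2).re := by
    have := le_abs_self ν.re
    rw [Complex.sub_re, show ν / 2 = ν / (2 : ℝ) by norm_num, Complex.div_ofReal_re]
    linarith
  have h5 : (2 : ℂ) ^ (2 * (1 : ℂ) - 2) = 1 := by norm_num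
  rw [h5, one_mul] at h1
  exact mul_ne_zero (Complex.Gamma_ne_zero_of_re_pos h3) (Complex.Gamma_ne_zero_of_re_pos h4)
    h1.symm

end Pool.Agent.HB
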