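import Pool.Agent.Lib_helper99.HB.Defs
import Pool.Agent.Lib_helper99.HBF.KH

/-!
# HB, block FV: the Fourier transform of `(1 + |v|²)^{-β}` on `ℂ`
-/

namespace Pool.Agent.HB

open Complex MeasureTheory Set Filter Topology

theorem fv_cpow {x : ℝ} (hx : 0 < x) (s : ℂ) :
    (x : ℂ) ^ s = cexp (s * ((Real.log x : ℝ) : ℂ)) := by
  rw [Complex.cpow_def_of_ne_zero (by exact_mod_cast hx.ne'), ← Complex.ofReal_log hx.le,
    mul_comm]

theorem fv_normSq (v : ℂ) : normSq v = ‖v‖ ^ 2 := Complex.normSq_eq_norm_sq v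

theorem fv_int {b : ℝ} (hb : 1 < b) : Integrable (fun v : ℂ => (1 + normSq v) ^ (-b)) := by
  have h := integrable_rpow_neg_one_add_norm_sq (E := ℂ) (μ := volume) (r := 2 * b)
    (by rw [Complex.finrank_real_complex]; push_cast; linarith)
  refine h.congr (Eventually.of_forall fun v => ?_)
  simp only
  rw [fv_normSq]
  congr 1
  ring

/-- the Gaussian integral -/
theorem fv_gauss {u : ℝ} (hu : 0 < u) (x : ℝ) {ω : ℂ} (hω : ‖ω‖ = 1) :
    ∫ v : ℂ, ((Real.exp (-(u * normSq v)) : ℝ) : ℂ) * cexp (I * ((x * (ω * v).re : ℝ) : ℂ)) =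
      ((Real.pi / u * Real.exp (-(x ^ 2 / (4 * u))) : ℝ) : ℂ) := by
  have h := GaussianFourier.integral_cexp_neg_mul_sq_norm_add (V := ℂ) (b := (u : ℂ))
    (by simpa using hu) (I * x) ((starRingEnd ℂ) ω)
  have hn : ‖(starRingEnd ℂ) ω‖ = 1 := by simpa using hω
  rw [hn, Complex.finrank_real_complex] at h
  have h2 : ((2 : ℕ) : ℂ) / 2 = 1 := by norm_num
  rw [h2, Complex.cpow_one] at h
  have h3 : ∀ v : ℂ, ((Real.exp (-(u * normSq v)) : ℝ) : ℂ) *
      cexp (I * ((x * (ω * v).re : ℝ) : ℂ)) =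
      cexp (-(u : ℂ) * (‖v‖ : ℂ) ^ 2 + I * x * ((inner ℝ ((starRingEnd ℂ) ω) v : ℝ) : ℂ)) := by
    intro v
    rw [Complex.exp_add, Complex.inner, Complex.conj_conj, fv_normSq]
    congr 1
    · push_cast
      ring_nf
    · push_cast
      ring_nf
  simp only [h3]
  rw [h]
  push_cast
  congr 2
  rw [mul_pow, Complex.I_sq]
  ring

/-- the function for Fubini -/
noncomputable def fvF (β : ℂ) (x : ℝ) (ω : ℂ) (p : ℂ × ℝ) : ℂ :=
  (p.2 : ℂ) ^ (β - 1) * ((Real.exp (-(p.2 * (1 + normSq p.1))) : ℝ) : ℂ) *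
    cexp (I * ((x * (ω * p.1).re : ℝ) : ℂ))

theorem fvF_meas (β : ℂ) (x : ℝ) (ω : ℂ) : Measurable (fvF β x ω) := by
  unfold fvF
  have : Measurable normSq := Complex.continuous_normSq.measurable
  fun_prop

theorem fvF_norm (β : ℂ) (x : ℝ) (ω v : ℂ) {u : ℝ} (hu : 0 < u) :
    ‖fvF β x ω (v, u)‖ = u ^ (β.re - 1) * Real.exp (-((1 + normSq v) * u)) := by
  unfold fvF
  simp only
  rw [norm_mul, norm_mul, Complex.norm_cpow_eq_rpow_re_of_pos hu, Complex.norm_real,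
    Real.norm_eq_abs, Real.abs_exp, Complex.norm_exp]
  have : (I * ((x * (ω * v).re : ℝ) : ℂ)).re = 0 := by
    rw [Complex.mul_re, Complex.ofReal_re, Complex.ofReal_im]; simp
  rw [this, Real.exp_zero, mul_one, Complex.sub_re, Complex.one_re]
  ring_nf

theorem fv_exp_int {b r : ℝ} (hb : 0 < b) (hr : 0 < r) :
    IntegrableOn (fun u : ℝ => u ^ (b - 1) * Real.exp (-(r * u))) (Ioi 0) := by
  have h := (integrableOn_Ioi_comp_mul_left_iff (fun u : ℝ => Real.exp (-u) * u ^ (b - 1)) 0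
    hr).2 (by rw [mul_zero]; exact Real.GammaIntegral_convergent hb)
  have h2 := h.const_mul ((r ^ (b - 1))⁻¹)
  refine IntegrableOn.congr_fun h2 (fun u hu => ?_) measurableSet_Ioi
  have hu0 : (0 : ℝ) < u := hu
  rw [Real.mul_rpow hr.le hu0.le]
  have : r ^ (b - 1) ≠ 0 := (Real.rpow_pos_of_pos hr _).ne'
  field_simp

theorem fvF_inner (β : ℂ) (hβ : 1 < β.re) (x : ℝ) (ω v : ℂ) :
    IntegrableOn (fun u : ℝ => fvF β x ω (v, u)) (Ioi 0) ∧
    (∫ u in Ioi (0 : ℝ), fvF β x ω (v, u) =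
      Gamma β * (((1 + normSq v : ℝ) : ℂ) ^ (-β) * cexp (I * ((x * (ω * v).re : ℝ) : ℂ)))) ∧
    (∫ u in Ioi (0 : ℝ), ‖fvF β x ω (v, u)‖ =
      Real.Gamma β.re * (1 + normSq v) ^ (-β.re)) := by
  have hb : 0 < β.re := by linarith
  have hr : 0 < 1 + normSq v := by have := normSq_nonneg v; linarith
  refine ⟨?_, ?_, ?_⟩
  · refine Integrable.mono' (fv_exp_int hb hr) ?_ ?_
    · exact ((fvF_meas β x ω).comp (by fun_prop)).aestronglyMeasurable
    · refine (ae_restrict_iff' measurableSet_Ioi).2 (Eventually.of_forall fun u hu => ?_)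
      exact (fvF_norm β x ω v hu).le
  · unfold fvF
    simp only
    rw [integral_mul_const, ← mul_assoc]
    congr 1
    have h := Complex.integral_cpow_mul_exp_neg_mul_Ioi hb hr
    have h2 : (1 / ((1 + normSq v : ℝ) : ℂ)) ^ β = ((1 + normSq v : ℝ) : ℂ) ^ (-β) := by
      rw [one_div, ← Complex.ofReal_inv, fv_cpow (inv_pos.2 hr), fv_cpow hr, Real.log_inv]
      congr 1
      push_cast
      ring
    rw [h2] at h
    rw [mul_comm (Gamma β), ← h]
    refine setIntegral_congr_fun measurableSet_Ioi fun u _ => ?_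
    congr 1
    rw [Complex.ofReal_exp]
    congr 1
    push_cast
    ring
  · rw [setIntegral_congr_fun measurableSet_Ioi (fun u hu => fvF_norm β x ω v hu),
      Real.integral_rpow_mul_exp_neg_mul_Ioi hb hr, one_div, Real.inv_rpow hr.le,
      ← Real.rpow_neg hr.le, mul_comm]

theorem fvF_integrable (β : ℂ) (hβ : 1 < β.re) (x : ℝ) (ω : ℂ) :
    Integrable (fvF β x ω) ((volume : Measure ℂ).prod (volume.restrict (Ioi (0 : ℝ)))) := by
  rw [integrable_prod_iff (fvF_meas β x ω).aestronglyMeasurable]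
  constructor
  · exact Eventually.of_forall fun v => (fvF_inner β hβ x ω v).1
  · refine ((fv_int hβ).const_mul (Real.Gamma β.re)).congr (Eventually.of_forall fun v => ?_)
    exact ((fvF_inner β hβ x ω v).2.2).symm

theorem fvF_outer (β : ℂ) {x : ℝ} (ω : ℂ) (hω : ‖ω‖ = 1) {u : ℝ} (hu : 0 < u) :
    ∫ v : ℂ, fvF β x ω (v, u) =
      Real.pi * ((u : ℂ) ^ (β - 2) * ((Real.exp (-(u + x ^ 2 / (4 * u))) : ℝ) : ℂ)) := by
  have h1 : ∀ v : ℂ, fvF β x ω (v, u) = ((u : ℂ) ^ (β - 1) * ((Real.exp (-u) : ℝ) : ℂ)) *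
      (((Real.exp (-(u * normSq v)) : ℝ) : ℂ) * cexp (I * ((x * (ω * v).re : ℝ) : ℂ))) := by
    intro v
    unfold fvF
    simp only
    rw [show -(u * (1 + normSq v)) = -u + -(u * normSq v) by ring, Real.exp_add]
    push_cast
    ring
  simp only [h1]
  rw [integral_const_mul, fv_gauss hu x hω]
  rw [show -(u + x ^ 2 / (4 * u)) = -u + -(x ^ 2 / (4 * u)) by ring, Real.exp_add]
  have h2 : (u : ℂ) ^ (β - 1) = (u : ℂ) ^ (β - 2) * u := by
    rw [show β - 1 = (β - 2) + 1 by ring, Complex.cpow_add _ _ (by exact_mod_cast hu.ne'),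
      Complex.cpow_one]
  rw [h2]
  have hu' : (u : ℂ) ≠ 0 := by exact_mod_cast hu.ne'
  push_cast
  field_simp

theorem fourier_v {β : ℂ} (hβ : 1 < β.re) {x : ℝ} (hx : 0 < x) {ω : ℂ} (hω : ‖ω‖ = 1) :
    Integrable (fun v : ℂ => (1 + normSq v) ^ (-β.re)) ∧
    ∫ v : ℂ, ((1 + normSq v : ℝ) : ℂ) ^ (-β) * cexp (I * ((x * (ω * v).re : ℝ) : ℂ)) =
      2 * Real.pi / Gamma β * (((x / 2 : ℝ) : ℂ) ^ (β - 1) * Kb (β - 1) x) := by
  refine ⟨fv_int hβ, ?_⟩
  have hx2 : 0 < x / 2 := by positivity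
  have h1 := integral_integral_swap (f := fun v u => fvF β x ω (v, u)) (fvF_integrable β hβ x ω)
  simp only [(fvF_inner β hβ x ω _).2.1] at h1
  rw [integral_const_mul, setIntegral_congr_fun measurableSet_Ioi
    (fun u hu => fvF_outer β (x := x) ω hω hu), integral_const_mul] at h1
  have h2 := integral_comp_mul_left_Ioi' (fun u : ℝ => (u : ℂ) ^ (β - 2) *
    ((Real.exp (-(u + x ^ 2 / (4 * u))) : ℝ) : ℂ)) 0 hx2
  rw [mul_zero] at h2
  have h3 : (x / 2) • ∫ v in Ioi (0 : ℝ), (((x / 2 * v : ℝ) : ℝ) : ℂ) ^ (β - 2) *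
      ((Real.exp (-(x / 2 * v + x ^ 2 / (4 * (x / 2 * v)))) : ℝ) : ℂ) =
      ((x / 2 : ℝ) : ℂ) ^ (β - 1) * (2 * Kb (β - 1) x) := by
    rw [← (kb_half (β - 1) hx).2, Complex.real_smul, ← integral_const_mul,
      ← integral_const_mul]
    refine setIntegral_congr_fun measurableSet_Ioi fun v hv => ?_
    have hv0 : (0 : ℝ) < v := hv
    have e1 : x / 2 * v + x ^ 2 / (4 * (x / 2 * v)) = x / 2 * (v + v⁻¹) := by
      field_simp
      ring
    have e5 : (((x / 2 : ℝ) : ℝ) : ℂ) = cexp (((Real.log (x / 2) : ℝ) : ℝ) : ℂ) := by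
      rw [← Complex.ofReal_exp, Real.exp_log hx2]
    have e2 : ((x / 2 : ℝ) : ℂ) * (((x / 2 * v : ℝ) : ℝ) : ℂ) ^ (β - 2) =
        ((x / 2 : ℝ) : ℂ) ^ (β - 1) * (v : ℂ) ^ (β - 1 - 1) := by
      rw [fv_cpow (by positivity : (0 : ℝ) < x / 2 * v), fv_cpow hx2, fv_cpow hv0,
        Real.log_mul hx2.ne' hv0.ne', ← Complex.exp_add]
      nth_rewrite 1 [e5]
      rw [← Complex.exp_add]
      congr 1
      push_cast
      ring
    rw [e1, ← mul_assoc, e2, mul_assoc]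
  have h4 : Gamma β ≠ 0 := Complex.Gamma_ne_zero_of_re_pos (by linarith)
  rw [← h2, h3] at h1
  have h5 : 2 * Real.pi / Gamma β * (((x / 2 : ℝ) : ℂ) ^ (β - 1) * Kb (β - 1) x) =
      (Gamma β)⁻¹ * (Real.pi * (((x / 2 : ℝ) : ℂ) ^ (β - 1) * (2 * Kb (β - 1) x))) := by
    rw [div_eq_mul_inv]
    ring
  rw [h5, ← h1, ← mul_assoc, inv_mul_cancel₀ h4, one_mul]

end Pool.Agent.HB
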