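import Pool.Agent.Lib_helper98.H4F.GG
import Pool.Agent.Lib_helper99.HB.Defs

/-! HB, block LF: the entire L-function. -/

namespace Pool.Agent.HB

open Complex MeasureTheory Filter Topology
open Pool.Agent.H4 (ml atl FunBd vcf)

theorem lf_pow {q : ℝ} (hq : 0 < q) (x y : ℝ) {s : ℂ} (h1 : x ≤ s.re) (h2 : s.re ≤ y) :
    ‖(q : ℂ) ^ (-s)‖ ≤ q ^ (-x) + q ^ (-y) := by
  rw [norm_cpow_eq_rpow_re_of_pos hq, neg_re]
  rcases le_total 1 q with h | h
  · have : q ^ (-s.re) ≤ q ^ (-x) := Real.rpow_le_rpow_of_exponent_le h (by linarith)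
    have h3 : 0 < q ^ (-y) := Real.rpow_pos_of_pos hq _
    linarith
  · have : q ^ (-s.re) ≤ q ^ (-y) := Real.rpow_le_rpow_of_exponent_ge hq h (by linarith)
    have h3 : 0 < q ^ (-x) := Real.rpow_pos_of_pos hq _
    linarith

theorem lf_adm {ν : ℂ} (hν : Adm ν) : |ν.re| < 1 := by
  rcases hν with h | h
  · rw [h]; simp
  · exact h.2

theorem lf_re (ν : ℂ) : (ν / 2).re = ν.re / 2 := by
  have : ν / 2 = ((1 / 2 : ℝ) : ℂ) * ν := by push_cast; ring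
  rw [this, re_ofReal_mul]; ring

theorem lf_im (ν : ℂ) : (ν / 2).im = ν.im / 2 := by
  have : ν / 2 = ((1 / 2 : ℝ) : ℂ) * ν := by push_cast; ring
  rw [this, im_ofReal_mul]; ring

theorem lf_gam {ν : ℂ} (hν : Adm ν) {z : ℂ} (hz : 1 / 2 ≤ z.re) :
    Gamma (z + ν / 2) ≠ 0 ∧ Gamma (z - ν / 2) ≠ 0 := by
  have h := abs_lt.1 (lf_adm hν)
  constructor
  · refine Gamma_ne_zero_of_re_pos ?_
    rw [add_re, lf_re]; linarith [h.1]
  · refine Gamma_ne_zero_of_re_pos ?_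
    rw [sub_re, lf_re]; linarith [h.2]

theorem l_exists {ν : ℂ} (hν : Adm ν) {a : ℕ → ℂ} {Λ : ℂ → ℂ} (h : Pk ν a Λ) :
    ∃ (Lf : ℂ → ℂ) (A q : ℝ) (c₀ : ℂ), 0 < q ∧ c₀ ≠ 0 ∧ 1 / 2 < A ∧ Differentiable ℂ Lf ∧
      LSeriesSummable a A ∧ (∀ z : ℂ, A ≤ z.re → Lf z = LSeries a z) ∧
      (∀ z : ℂ, 1 / 2 ≤ z.re → Λ z = c₀ * (q : ℂ) ^ z *
        (Gamma (z + ν / 2) * Gamma (z - ν / 2)) * Lf z) ∧
      ∀ η x y : ℝ, 0 < η → ∃ C : ℝ, ∀ z : ℂ, x ≤ z.re → z.re ≤ y →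
        ‖Lf z‖ ≤ C * Real.exp (η * |z.im|) := by
  obtain ⟨A0, q, c₀, hq, hc, hsum, hser⟩ := h.ser
  have hqc : (q : ℂ) ≠ 0 := by exact_mod_cast hq.ne'
  have hpow : ∀ s : ℂ, (q : ℂ) ^ (-s) * (q : ℂ) ^ s = 1 := by
    intro s
    rw [← cpow_add _ _ hqc]; simp
  have hν1 := abs_lt.1 (lf_adm hν)
  set Lf : ℂ → ℂ := fun s => c₀⁻¹ * (q : ℂ) ^ (-s) * Λ s *
    ((Gamma (s + ν / 2))⁻¹ * (Gamma (s - ν / 2))⁻¹)
    with hLf
  have key : ∀ s : ℂ, 1 / 2 ≤ s.re → Λ s = c₀ * (q : ℂ) ^ s *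
        (Gamma (s + ν / 2) * Gamma (s - ν / 2)) * Lf s := by
    intro s hs
    obtain ⟨g1, g2⟩ := lf_gam hν hs
    rw [hLf]
    simp only
    set G1 := Gamma (s + ν / 2)
    set G2 := Gamma (s - ν / 2)
    have e1 : c₀ * (q : ℂ) ^ s * (G1 * G2) * (c₀⁻¹ * (q : ℂ) ^ (-s) * Λ s * (G1⁻¹ * G2⁻¹)) =
        (c₀ * c₀⁻¹) * ((q : ℂ) ^ (-s) * (q : ℂ) ^ s) * (G1 * G1⁻¹) * (G2 * G2⁻¹) * Λ s := by ring
    rw [e1, hpow, mul_inv_cancel₀ hc, mul_inv_cancel₀ g1, mul_inv_cancel₀ g2]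
    ring
  refine ⟨Lf, max A0 1, q, c₀, hq, hc, ?_, ?_, ?_, ?_, key, ?_⟩
  · have := le_max_right A0 (1 : ℝ)
    linarith
  · have d1 : Differentiable ℂ (fun s : ℂ => (q : ℂ) ^ (-s)) := fun s =>
      (differentiableAt_id.neg).const_cpow (Or.inl hqc)
    have d2 : Differentiable ℂ (fun s : ℂ => (Gamma (s + ν / 2))⁻¹) :=
      differentiable_one_div_Gamma.comp (differentiable_id.add_const _)
    have d3 : Differentiable ℂ (fun s : ℂ => (Gamma (s - ν / 2))⁻¹) :=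
      differentiable_one_div_Gamma.comp (differentiable_id.sub_const _)
    exact (((differentiable_const _).mul d1).mul h.diff).mul (d2.mul d3)
  · refine hsum.of_re_le_re ?_
    simp
  · intro s hs
    have hs1 : A0 ≤ s.re := (le_max_left _ _).trans hs
    have hs2 : 1 ≤ s.re := (le_max_right _ _).trans hs
    have hpos : 1 / 2 ≤ s.re := by linarith
    obtain ⟨g1, g2⟩ := lf_gam hν hpos
    have e1 := key s hpos
    rw [hser s hs1] at e1
    have hq0 : (q : ℂ) ^ s ≠ 0 := by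
      intro h0
      have := hpow s
      rw [h0, mul_zero] at this
      exact zero_ne_one this
    exact (mul_left_cancel₀ (mul_ne_zero (mul_ne_zero hc hq0) (mul_ne_zero g1 g2)) e1).symm
  · intro η x y hη
    set θ : ℝ := max 0 (Real.pi / 2 - η / 4) with hθ
    have hθ0 : 0 ≤ θ := le_max_left _ _
    have hθ1 : θ < Real.pi / 2 := by
      rw [hθ]
      refine max_lt (by have := Real.pi_pos; linarith) (by linarith)
    have hθ2 : 2 * Real.pi - 4 * θ ≤ η := by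
      have := le_max_right (0 : ℝ) (Real.pi / 2 - η / 4)
      rw [← hθ] at this
      linarith
    obtain ⟨C1, h1⟩ := h.dec θ x y hθ0 hθ1
    obtain ⟨C2, h2⟩ := Pool.Agent.H4.inv_Gamma_bd hθ0 hθ1 (x - 1 / 2) (y + 1 / 2)
    have hQ : 0 ≤ q ^ (-x) + q ^ (-y) := by positivity
    refine ⟨‖c₀⁻¹‖ * (q ^ (-x) + q ^ (-y)) * |C1| * (|C2| * |C2|) *
      Real.exp (2 * (Real.pi - θ) * |ν.im / 2|), fun s hx hy => ?_⟩
    have hπθ : 0 ≤ Real.pi - θ := by have := Real.pi_pos; linarith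
    have b1 : ‖Λ s‖ ≤ |C1| * Real.exp (-(2 * θ * |s.im|)) :=
      (h1 s hx hy).trans (mul_le_mul_of_nonneg_right (le_abs_self _) (Real.exp_nonneg _))
    have b2 : ‖(Gamma (s + ν / 2))⁻¹‖ ≤
        |C2| * Real.exp ((Real.pi - θ) * (|s.im| + |ν.im / 2|)) := by
      have r1 : (s + ν / 2).re = s.re + ν.re / 2 := by
        rw [add_re, lf_re]
      have r2 : (s + ν / 2).im = s.im + ν.im / 2 := by
        rw [add_im, lf_im]
      have := h2 (s + ν / 2) (by rw [r1]; linarith [hν1.1]) (by rw [r1]; linarith [hν1.2])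
      rw [r2] at this
      refine this.trans (mul_le_mul (le_abs_self _) (Real.exp_le_exp.2 ?_) (Real.exp_nonneg _)
        (abs_nonneg _))
      exact mul_le_mul_of_nonneg_left (abs_add_le _ _) hπθ
    have b3 : ‖(Gamma (s - ν / 2))⁻¹‖ ≤
        |C2| * Real.exp ((Real.pi - θ) * (|s.im| + |ν.im / 2|)) := by
      have r1 : (s - ν / 2).re = s.re - ν.re / 2 := by
        rw [sub_re, lf_re]
      have r2 : (s - ν / 2).im = s.im - ν.im / 2 := by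
        rw [sub_im, lf_im]
      have := h2 (s - ν / 2) (by rw [r1]; linarith [hν1.2]) (by rw [r1]; linarith [hν1.1])
      rw [r2] at this
      refine this.trans (mul_le_mul (le_abs_self _) (Real.exp_le_exp.2 ?_) (Real.exp_nonneg _)
        (abs_nonneg _))
      exact mul_le_mul_of_nonneg_left (abs_sub _ _) hπθ
    have b4 := lf_pow hq x y hx hy
    have e1 : ‖Lf s‖ = ‖c₀⁻¹‖ * ‖(q : ℂ) ^ (-s)‖ * ‖Λ s‖ *
        (‖(Gamma (s + ν / 2))⁻¹‖ * ‖(Gamma (s - ν / 2))⁻¹‖) := by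
      rw [hLf]; simp only [norm_mul]
    rw [e1]
    have e2 : ‖c₀⁻¹‖ * ‖(q : ℂ) ^ (-s)‖ * ‖Λ s‖ *
        (‖(Gamma (s + ν / 2))⁻¹‖ * ‖(Gamma (s - ν / 2))⁻¹‖) ≤
        ‖c₀⁻¹‖ * (q ^ (-x) + q ^ (-y)) * (|C1| * Real.exp (-(2 * θ * |s.im|))) *
        ((|C2| * Real.exp ((Real.pi - θ) * (|s.im| + |ν.im / 2|))) *
          (|C2| * Real.exp ((Real.pi - θ) * (|s.im| + |ν.im / 2|)))) := by
      gcongr
    refine e2.trans ?_
    have e3 : ‖c₀⁻¹‖ * (q ^ (-x) + q ^ (-y)) * (|C1| * Real.exp (-(2 * θ * |s.im|))) *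
        ((|C2| * Real.exp ((Real.pi - θ) * (|s.im| + |ν.im / 2|))) *
          (|C2| * Real.exp ((Real.pi - θ) * (|s.im| + |ν.im / 2|)))) =
        ‖c₀⁻¹‖ * (q ^ (-x) + q ^ (-y)) * |C1| * (|C2| * |C2|) *
          Real.exp (2 * (Real.pi - θ) * |ν.im / 2|) *
          Real.exp ((2 * Real.pi - 4 * θ) * |s.im|) := by
      have : Real.exp (-(2 * θ * |s.im|)) * (Real.exp ((Real.pi - θ) * (|s.im| + |ν.im / 2|)) *
          Real.exp ((Real.pi - θ) * (|s.im| + |ν.im / 2|))) =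
          Real.exp (2 * (Real.pi - θ) * |ν.im / 2|) *
            Real.exp ((2 * Real.pi - 4 * θ) * |s.im|) := by
        rw [← Real.exp_add, ← Real.exp_add, ← Real.exp_add]
        congr 1
        ring
      linear_combination (‖c₀⁻¹‖ * (q ^ (-x) + q ^ (-y)) * |C1| * (|C2| * |C2|)) * this
    rw [e3]
    refine mul_le_mul_of_nonneg_left (Real.exp_le_exp.2 ?_) (by positivity)
    exact mul_le_mul_of_nonneg_right hθ2 (abs_nonneg _)

example : type_of% @l_exists := @l_exists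

end Pool.Agent.HB
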