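import Pool.Agent.Lib_helper99.HB.Defs

/-! HB, block GR: bounds for the Gamma function -/

namespace Pool.Agent.HB

open Complex MeasureTheory Filter Topology
open Pool.Agent.H4 (ml atl FunBd vcf)

theorem gr_sin_le (z : ℂ) : ‖Complex.sin z‖ ≤ Real.exp |z.im| := by
  unfold Complex.sin
  rw [norm_div, norm_mul, norm_I, mul_one]
  have h1 : ‖cexp (-z * I)‖ ≤ Real.exp |z.im| := by
    rw [Complex.norm_exp]
    refine Real.exp_le_exp.2 ?_
    simp
    exact le_abs_self _
  have h2 : ‖cexp (z * I)‖ ≤ Real.exp |z.im| := by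
    rw [Complex.norm_exp]
    refine Real.exp_le_exp.2 ?_
    simp
    exact neg_le_abs _
  have h3 := norm_sub_le (cexp (-z * I)) (cexp (z * I))
  have h4 : ‖(2 : ℂ)‖ = 2 := by simp
  rw [h4, div_le_iff₀ (by norm_num)]
  linarith

/-- lower bound from the reflection formula -/
theorem gr_refl {z : ℂ} (h0 : 0 < z.re) (h1 : z.re < 1) :
    Real.pi * Real.exp (-(Real.pi * |z.im|)) ≤ ‖Gamma z‖ * ‖Gamma (1 - z)‖ := by
  have hG1 : Gamma z ≠ 0 := Gamma_ne_zero_of_re_pos h0
  have hG2 : Gamma (1 - z) ≠ 0 := Gamma_ne_zero_of_re_pos (by simp; linarith)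
  have hr := Complex.Gamma_mul_Gamma_one_sub z
  have hs : Complex.sin (Real.pi * z) ≠ 0 := by
    intro h
    rw [h, div_zero] at hr
    exact mul_ne_zero hG1 hG2 hr
  rw [← norm_mul, hr, norm_div, Complex.norm_real, Real.norm_of_nonneg Real.pi_pos.le]
  have h2 := gr_sin_le (Real.pi * z)
  have h3 : (Real.pi * z : ℂ).im = Real.pi * z.im := by simp
  rw [h3, abs_mul, abs_of_pos Real.pi_pos] at h2
  rw [Real.exp_neg, ← div_eq_mul_inv]
  exact div_le_div_of_nonneg_left Real.pi_pos.le (norm_pos_iff.2 hs) h2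

theorem gr_conj (x y : ℝ) : ‖Gamma (x - y * I)‖ = ‖Gamma (x + y * I)‖ := by
  have h1 : (x - y * I : ℂ) = (starRingEnd ℂ) (x + y * I) := by
    simp [Complex.ext_iff]
  rw [h1, Complex.Gamma_conj, RCLike.norm_conj]

theorem gamma_low {ν : ℂ} (hν : Adm ν) {t : ℝ} (ht : |ν.im| ≤ t) :
    Real.pi * Real.exp (-(Real.pi * t)) ≤
      ‖Gamma (1 / 2 + t * I + ν / 2) * Gamma (1 / 2 + t * I - ν / 2)‖ := by
  have ht0 : 0 ≤ t := (abs_nonneg _).trans ht
  rcases hν with h | ⟨him, hre⟩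
  · -- imaginary
    have hhalf : ∀ y : ℝ, Real.pi * Real.exp (-(Real.pi * |y|)) ≤
        ‖Gamma (1 / 2 + y * I)‖ ^ 2 := by
      intro y
      have h1 := gr_refl (z := 1 / 2 + y * I) (by simp) (by simp; norm_num)
      have h2 : (1 - (1 / 2 + y * I) : ℂ) = ((1 / 2 : ℝ) : ℂ) - y * I := by
        push_cast; ring
      have h3 : (1 / 2 + y * I : ℂ) = ((1 / 2 : ℝ) : ℂ) + y * I := by push_cast; ring
      have h4 : (1 / 2 + y * I : ℂ).im = y := by simp
      rw [h4, h2, gr_conj, ← h3, ← pow_two] at h1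
      exact h1
    set τ : ℝ := ν.im with hτ
    have hνe : ν = τ * I := by
      rw [Complex.ext_iff]; simp [h, hτ]
    have e1 : (1 / 2 + t * I + ν / 2 : ℂ) = 1 / 2 + ((t + τ / 2 : ℝ) : ℂ) * I := by
      rw [hνe]; push_cast; ring
    have e2 : (1 / 2 + t * I - ν / 2 : ℂ) = 1 / 2 + ((t - τ / 2 : ℝ) : ℂ) * I := by
      rw [hνe]; push_cast; ring
    have hab := abs_le.1 ht
    have h5 := hhalf (t + τ / 2)
    have h6 := hhalf (t - τ / 2)
    rw [abs_of_nonneg (by linarith)] at h5 h6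
    rw [e1, e2, norm_mul]
    have h7 : (Real.pi * Real.exp (-(Real.pi * t))) ^ 2 ≤
        (‖Gamma (1 / 2 + ((t + τ / 2 : ℝ) : ℂ) * I)‖ *
          ‖Gamma (1 / 2 + ((t - τ / 2 : ℝ) : ℂ) * I)‖) ^ 2 := by
      rw [mul_pow (‖Gamma (1 / 2 + ((t + τ / 2 : ℝ) : ℂ) * I)‖)]
      have e3 : (Real.pi * Real.exp (-(Real.pi * t))) ^ 2 =
          (Real.pi * Real.exp (-(Real.pi * (t + τ / 2)))) *
            (Real.pi * Real.exp (-(Real.pi * (t - τ / 2)))) := by
        rw [mul_pow, ← Real.exp_nat_mul]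
        have : Real.exp (-(Real.pi * (t + τ / 2))) * Real.exp (-(Real.pi * (t - τ / 2))) =
            Real.exp ((2 : ℕ) * (-(Real.pi * t))) := by
          rw [← Real.exp_add]; congr 1; push_cast; ring
        rw [← this]; ring
      rw [e3]
      exact mul_le_mul h5 h6 (by positivity) (by positivity)
    exact (pow_le_pow_iff_left₀ (by positivity) (by positivity) (by norm_num)).1 h7
  · -- real
    set r : ℝ := ν.re with hr
    have hνe : ν = r := by
      rw [Complex.ext_iff]; simp [him, hr]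
    have hab := abs_lt.1 hre
    have e1 : (1 / 2 + t * I + ν / 2 : ℂ) = ((1 / 2 + r / 2 : ℝ) : ℂ) + t * I := by
      rw [hνe]; push_cast; ring
    have e2 : (1 / 2 + t * I - ν / 2 : ℂ) = ((1 / 2 - r / 2 : ℝ) : ℂ) + t * I := by
      rw [hνe]; push_cast; ring
    rw [e1, e2, norm_mul]
    have h1 := gr_refl (z := ((1 / 2 + r / 2 : ℝ) : ℂ) + t * I) (by simp; linarith)
      (by simp; linarith)
    have h2 : (1 - (((1 / 2 + r / 2 : ℝ) : ℂ) + t * I) : ℂ) = ((1 / 2 - r / 2 : ℝ) : ℂ) - t * I := by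
      push_cast; ring
    have h4 : (((1 / 2 + r / 2 : ℝ) : ℂ) + t * I : ℂ).im = t := by simp
    rw [h4, h2, gr_conj, abs_of_nonneg ht0] at h1
    exact h1

/-- `|Γ(2+it)|² ≤ 8π t³ e^{-πt}` -/
theorem gr_two {t : ℝ} (ht : 1 ≤ t) :
    ‖Gamma (2 + t * I)‖ ^ 2 ≤ 8 * Real.pi * t ^ 3 * Real.exp (-(Real.pi * t)) := by
  have ht0 : 0 < t := by linarith
  have hpi := Real.pi_pos
  have hti : (t * I : ℂ) ≠ 0 := by
    simp [ht0.ne']
  have h1ti : (1 + t * I : ℂ) ≠ 0 := by
    intro h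
    have := congrArg Complex.re h
    simp at this
  have e1 : Gamma (1 + t * I) = t * I * Gamma (t * I) := by
    rw [add_comm, Gamma_add_one _ hti]
  have e2 : Gamma (2 + t * I) = (1 + t * I) * Gamma (1 + t * I) := by
    have : (2 + t * I : ℂ) = (1 + t * I) + 1 := by ring
    rw [this, Gamma_add_one _ h1ti]
  have hr := Complex.Gamma_mul_Gamma_one_sub (t * I)
  have e3 : Complex.sin (Real.pi * (t * I)) = Complex.sinh (Real.pi * t) * I := by
    rw [← mul_assoc, Complex.sin_mul_I]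
  have e4 : ‖Gamma (1 + t * I)‖ ^ 2 = t * (Real.pi / Real.sinh (Real.pi * t)) := by
    have h1 : ‖Gamma (1 - t * I)‖ = ‖Gamma (1 + t * I)‖ := by
      have := gr_conj 1 t
      simpa using this
    have hsinh : 0 < Real.sinh (Real.pi * t) := Real.sinh_pos_iff.2 (by positivity)
    have h2 : ‖Gamma (t * I)‖ * ‖Gamma (1 - t * I)‖ = Real.pi / Real.sinh (Real.pi * t) := by
      rw [← norm_mul, hr, e3, norm_div, norm_mul, norm_I, mul_one, Complex.norm_real,
        Real.norm_of_nonneg hpi.le]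
      have : Complex.sinh (Real.pi * t) = ((Real.sinh (Real.pi * t) : ℝ) : ℂ) := by
        push_cast; rfl
      rw [this, Complex.norm_real, Real.norm_of_nonneg hsinh.le]
    calc ‖Gamma (1 + t * I)‖ ^ 2 = ‖Gamma (1 + t * I)‖ * ‖Gamma (1 - t * I)‖ := by
          rw [h1, pow_two]
      _ = t * (‖Gamma (t * I)‖ * ‖Gamma (1 - t * I)‖) := by
          rw [e1, norm_mul, norm_mul, norm_I, Complex.norm_real, Real.norm_of_nonneg ht0.le]
          ring
      _ = _ := by rw [h2]
  have hsinh : Real.exp (Real.pi * t) / 4 ≤ Real.sinh (Real.pi * t) := by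
    rw [Real.sinh_eq]
    have h1 : (2 : ℝ) ≤ Real.exp (Real.pi * t) := by
      have h2 := Real.add_one_le_exp (Real.pi * t)
      have h3 := Real.pi_gt_three
      nlinarith
    have h4 : Real.exp (-(Real.pi * t)) ≤ 1 / 2 := by
      rw [Real.exp_neg, inv_eq_one_div]
      exact one_div_le_one_div_of_le (by norm_num) h1
    linarith
  rw [e2, norm_mul, mul_pow, e4]
  have h5 : ‖(1 + t * I : ℂ)‖ ^ 2 = 1 + t ^ 2 := by
    rw [← Complex.normSq_eq_norm_sq, Complex.normSq_apply]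
    simp
    ring
  have h6 : Real.pi / Real.sinh (Real.pi * t) ≤ 4 * Real.pi * Real.exp (-(Real.pi * t)) := by
    have hE : 0 < Real.exp (Real.pi * t) := Real.exp_pos _
    calc Real.pi / Real.sinh (Real.pi * t) ≤ Real.pi / (Real.exp (Real.pi * t) / 4) :=
          div_le_div_of_nonneg_left hpi.le (by positivity) hsinh
      _ = 4 * Real.pi * Real.exp (-(Real.pi * t)) := by
          rw [Real.exp_neg]; field_simp
  rw [h5]
  have h7 : 0 ≤ Real.exp (-(Real.pi * t)) := Real.exp_nonneg _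
  calc (1 + t ^ 2) * (t * (Real.pi / Real.sinh (Real.pi * t)))
      ≤ (2 * t ^ 2) * (t * (4 * Real.pi * Real.exp (-(Real.pi * t)))) := by
        refine mul_le_mul (by nlinarith) (mul_le_mul_of_nonneg_left h6 ht0.le) ?_ (by positivity)
        have : 0 < Real.sinh (Real.pi * t) := Real.sinh_pos_iff.2 (by positivity)
        positivity
    _ = 8 * Real.pi * t ^ 3 * Real.exp (-(Real.pi * t)) := by ring

/-- the Beta integral -/
theorem gr_beta {ε t : ℝ} (hε : 0 < ε) (hε1 : ε ≤ 1 / 2) (ht : 1 ≤ t) :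
    ‖betaIntegral (1 + ε + t * I) (1 - ε)‖ ≤ 4 * t ^ (ε - 1) := by
  have ht0 : 0 < t := by linarith
  set b : ℝ := 1 - 1 / t with hb
  have hb0 : 0 ≤ b := by
    rw [hb, sub_nonneg, div_le_one ht0]; exact ht
  have hb1 : b < 1 := by
    rw [hb]; have : 0 < 1 / t := by positivity
    linarith
  set F : ℝ → ℂ := fun x => (x : ℂ) ^ ((1 + ε + t * I : ℂ) - 1) * (1 - (x : ℂ)) ^ ((1 - ε : ℂ) - 1)
    with hF
  have hconv : IntervalIntegrable F volume 0 1 :=
    betaIntegral_convergent (u := 1 + ε + t * I) (v := 1 - ε) (by simp; linarith)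
      (by simp; linarith)
  have hI0 : IntervalIntegrable F volume 0 b := hconv.mono_set (by
    rw [Set.uIcc_of_le hb0, Set.uIcc_of_le zero_le_one]
    exact Set.Icc_subset_Icc_right hb1.le)
  have hI1 : IntervalIntegrable F volume b 1 := hconv.mono_set (by
    rw [Set.uIcc_of_le hb1.le, Set.uIcc_of_le zero_le_one]
    exact Set.Icc_subset_Icc_left hb0)
  have hsplit : betaIntegral (1 + ε + t * I) (1 - ε) = (∫ x in (0 : ℝ)..b, F x) +
      ∫ x in b..1, F x := by
    rw [intervalIntegral.integral_add_adjacent_intervals hI0 hI1]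
    rfl
  -- the norm of the integrand
  have hnorm1 : ∀ x : ℝ, 0 < x → x < 1 → ‖(x : ℂ) ^ ((1 + ε + t * I : ℂ) - 1)‖ ≤ 1 := by
    intro x hx hx1
    rw [norm_cpow_eq_rpow_re_of_pos hx]
    have : ((1 + ε + t * I : ℂ) - 1).re = ε := by simp
    rw [this]
    exact Real.rpow_le_one hx.le hx1.le hε.le
  have hnorm2 : ∀ x : ℝ, x < 1 → (1 - (x : ℂ)) ^ ((1 - ε : ℂ) - 1) = (((1 - x) ^ (-ε) : ℝ) : ℂ) := by
    intro x hx
    have h1 : (1 - (x : ℂ)) = ((1 - x : ℝ) : ℂ) := by push_cast; ring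
    have h2 : ((1 - ε : ℂ) - 1) = ((-ε : ℝ) : ℂ) := by push_cast; ring
    rw [h1, h2, ← ofReal_cpow (by linarith)]
  -- integrals of powers of `1 - x`
  have hderiv : ∀ x : ℝ, x < 1 → HasDerivAt (fun x : ℝ => -((1 - x) ^ (1 - ε) / (1 - ε)))
      ((1 - x) ^ (-ε)) x := by
    intro x hx
    have h1 : HasDerivAt (fun x : ℝ => 1 - x) (-1) x := by
      simpa using (hasDerivAt_id x).const_sub 1
    have h2 := (h1.rpow_const (p := 1 - ε) (Or.inl (by linarith))).div_const (1 - ε)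
    refine h2.fun_neg.congr_deriv ?_
    have : (1 - ε) ≠ 0 := by linarith
    rw [show (1 - ε - 1) = -ε by ring]
    field_simp
  -- the part near 1
  have hp1 : ‖∫ x in b..1, F x‖ ≤ 2 * t ^ (ε - 1) := by
    have h1b : (1 - b) = 1 / t := by rw [hb]; ring
    have hle : ∀ x ∈ Set.Ioo b 1, ‖F x‖ ≤ (1 - x) ^ (-ε) := by
      intro x hx
      have hx0 : 0 < x := hb0.trans_lt hx.1
      simp only [hF]
      rw [norm_mul, hnorm2 x hx.2, Complex.norm_real,
        Real.norm_of_nonneg (Real.rpow_nonneg (by linarith [hx.2]) _)]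
      exact mul_le_of_le_one_left (Real.rpow_nonneg (by linarith [hx.2]) _) (hnorm1 x hx0 hx.2)
    have hcont : ContinuousOn (fun x : ℝ => -((1 - x) ^ (1 - ε) / (1 - ε))) (Set.Icc b 1) := by
      refine ContinuousOn.neg (ContinuousOn.div_const ?_ _)
      exact (continuousOn_const.sub continuousOn_id).rpow_const fun x _ => Or.inr (by linarith)
    have hint : IntervalIntegrable (fun x : ℝ => (1 - x) ^ (-ε)) volume b 1 := by
      refine intervalIntegral.integrableOn_deriv_of_nonneg (g := fun x : ℝ =>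
        -((1 - x) ^ (1 - ε) / (1 - ε))) hcont (fun x hx => hderiv x hx.2)
        (fun x hx => Real.rpow_nonneg (by linarith [hx.2]) _) |> fun h => ?_
      rw [intervalIntegrable_iff_integrableOn_Ioc_of_le hb1.le]
      exact h
    have hval : ∫ x in b..1, (1 - x) ^ (-ε) = (1 - b) ^ (1 - ε) / (1 - ε) := by
      rw [intervalIntegral.integral_eq_sub_of_hasDerivAt_of_le hb1.le hcont
        (fun x hx => hderiv x hx.2) hint]
      rw [sub_self, Real.zero_rpow (by linarith)]
      ring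
    have h3 : ‖∫ x in b..1, F x‖ ≤ ∫ x in b..1, (1 - x) ^ (-ε) := by
      rw [intervalIntegral.integral_of_le hb1.le, intervalIntegral.integral_of_le hb1.le]
      refine norm_integral_le_of_norm_le (hint.1) ?_
      rw [← restrict_Ioo_eq_restrict_Ioc]
      exact (ae_restrict_iff' measurableSet_Ioo).2 (Eventually.of_forall hle)
    rw [hval, h1b] at h3
    refine h3.trans ?_
    have e1 : (1 / t) ^ (1 - ε) = t ^ (ε - 1) := by
      rw [one_div, Real.inv_rpow ht0.le, ← Real.rpow_neg ht0.le]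
      congr 1; ring
    rw [e1, div_le_iff₀ (by linarith)]
    have : 0 < t ^ (ε - 1) := Real.rpow_pos_of_pos ht0 _
    nlinarith
  -- the part away from 1
  have hp0 : ‖∫ x in (0 : ℝ)..b, F x‖ ≤ 2 * t ^ (ε - 1) := by
    set s : ℂ := 1 + ε + t * I with hs
    have hs0 : s ≠ 0 := by
      intro h
      have := congrArg Complex.im h
      simp [hs] at this
      linarith
    have hst : t ≤ ‖s‖ := by
      have h1 := Complex.abs_im_le_norm s
      have h2 : s.im = t := by simp [hs]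
      rw [h2, abs_of_pos ht0] at h1
      exact h1
    have hspos : 0 < ‖s‖ := by linarith
    -- integration by parts
    have hu : ∀ x ∈ Set.uIcc 0 b, HasDerivAt (fun x : ℝ => (((1 - x) ^ (-ε) : ℝ) : ℂ))
        (((ε * (1 - x) ^ (-ε - 1) : ℝ) : ℂ)) x := by
      intro x hx
      rw [Set.uIcc_of_le hb0] at hx
      have h1 : HasDerivAt (fun x : ℝ => 1 - x) (-1) x := by
        simpa using (hasDerivAt_id x).const_sub 1
      have h2 := h1.rpow_const (p := -ε) (Or.inl (by linarith [hx.2]))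
      have h3 : HasDerivAt (fun x : ℝ => (1 - x) ^ (-ε)) (ε * (1 - x) ^ (-ε - 1)) x :=
        h2.congr_deriv (by ring)
      exact h3.ofReal_comp
    have hsre : s.re = 1 + ε := by simp [hs]
    have hcontv : ContinuousOn (fun x : ℝ => (x : ℂ) ^ s / s) (Set.uIcc 0 b) := by
      refine ContinuousOn.div_const ?_ _
      intro x hx
      exact (continuousAt_ofReal_cpow_const x s (Or.inl (by rw [hsre]; linarith))).continuousWithinAt
    have hcontu' : ContinuousOn (fun x : ℝ => (((ε * (1 - x) ^ (-ε - 1) : ℝ) : ℂ)))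
        (Set.uIcc 0 b) := by
      refine Complex.continuous_ofReal.comp_continuousOn ?_
      refine continuousOn_const.mul ?_
      refine (continuousOn_const.sub continuousOn_id).rpow_const fun x hx => Or.inl ?_
      rw [Set.uIcc_of_le hb0] at hx
      have := hx.2
      exact (by linarith : (0 : ℝ) < 1 - x).ne'
    have hcontv' : ContinuousOn (fun x : ℝ => (x : ℂ) ^ (s - 1)) (Set.uIcc 0 b) := by
      intro x hx
      exact (continuousAt_ofReal_cpow_const x (s - 1)
        (Or.inl (by simp [hsre]; linarith))).continuousWithinAt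
    have hv : ∀ x ∈ Set.Ioo (min 0 b) (max 0 b), HasDerivAt (fun x : ℝ => (x : ℂ) ^ s / s)
        ((x : ℂ) ^ (s - 1)) x := by
      intro x hx
      rw [min_eq_left hb0, max_eq_right hb0] at hx
      have h1 := (hasDerivAt_ofReal_cpow_const (x := x) (r := s) hx.1.ne' hs0).div_const s
      refine h1.congr_deriv ?_
      field_simp
    have hibp := intervalIntegral.integral_mul_deriv_eq_deriv_mul_of_hasDerivAt
      (u := fun x : ℝ => (((1 - x) ^ (-ε) : ℝ) : ℂ)) (v := fun x : ℝ => (x : ℂ) ^ s / s)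
      (u' := fun x : ℝ => (((ε * (1 - x) ^ (-ε - 1) : ℝ) : ℂ))) (v' := fun x : ℝ => (x : ℂ) ^ (s - 1))
      (a := 0) (b := b) (fun x hx => (hu x hx).continuousAt.continuousWithinAt) hcontv
      (fun x hx => hu x (Set.Ioo_subset_Icc_self hx)) hv hcontu'.intervalIntegrable
      hcontv'.intervalIntegrable
    have hF' : ∫ x in (0 : ℝ)..b, F x = ∫ x in (0 : ℝ)..b, (((1 - x) ^ (-ε) : ℝ) : ℂ) *
        (x : ℂ) ^ (s - 1) := by
      refine intervalIntegral.integral_congr fun x hx => ?_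
      rw [Set.uIcc_of_le hb0] at hx
      simp only [hF]
      rw [hnorm2 x (by linarith [hx.2]), mul_comm]
    have hvb : ∀ x : ℝ, 0 ≤ x → x ≤ 1 → ‖(x : ℂ) ^ s / s‖ ≤ 1 / t := by
      intro x hx hx1
      rw [norm_div]
      have h1 : ‖(x : ℂ) ^ s‖ ≤ 1 := by
        rcases hx.eq_or_lt with h | h
        · rw [← h]
          simp [hs0]
        · rw [norm_cpow_eq_rpow_re_of_pos h, hsre]
          exact Real.rpow_le_one h.le hx1 (by linarith)
      exact div_le_div₀ zero_le_one h1 ht0 hst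
    have h1b : (1 - b) = 1 / t := by rw [hb]; ring
    have hpow : (1 - b) ^ (-ε) = t ^ ε := by
      rw [h1b, one_div, Real.inv_rpow ht0.le, ← Real.rpow_neg ht0.le, neg_neg]
    have hu'int : ∫ x in (0 : ℝ)..b, ε * (1 - x) ^ (-ε - 1) = t ^ ε - 1 := by
      have hd : ∀ x ∈ Set.uIcc 0 b, HasDerivAt (fun x : ℝ => (1 - x) ^ (-ε))
          (ε * (1 - x) ^ (-ε - 1)) x := by
        intro x hx
        rw [Set.uIcc_of_le hb0] at hx
        have h1 : HasDerivAt (fun x : ℝ => 1 - x) (-1) x := by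
          simpa using (hasDerivAt_id x).const_sub 1
        have h2 := h1.rpow_const (p := -ε) (Or.inl (by linarith [hx.2]))
        exact h2.congr_deriv (by ring)
      have hci : ContinuousOn (fun x : ℝ => ε * (1 - x) ^ (-ε - 1)) (Set.uIcc 0 b) := by
        refine continuousOn_const.mul ?_
        refine (continuousOn_const.sub continuousOn_id).rpow_const fun x hx => Or.inl ?_
        rw [Set.uIcc_of_le hb0] at hx
        have := hx.2
        exact (by linarith : (0 : ℝ) < 1 - x).ne'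
      rw [intervalIntegral.integral_eq_sub_of_hasDerivAt hd hci.intervalIntegrable, hpow]
      simp
    have hint2 : ‖∫ x in (0 : ℝ)..b, (((ε * (1 - x) ^ (-ε - 1) : ℝ) : ℂ)) *
        ((x : ℂ) ^ s / s)‖ ≤ (t ^ ε - 1) * (1 / t) := by
      rw [← hu'int, ← intervalIntegral.integral_mul_const]
      have hci : ContinuousOn (fun x : ℝ => ε * (1 - x) ^ (-ε - 1) * (1 / t)) (Set.uIcc 0 b) := by
        refine ContinuousOn.mul (continuousOn_const.mul ?_) continuousOn_const
        refine (continuousOn_const.sub continuousOn_id).rpow_const fun x hx => Or.inl ?_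
        rw [Set.uIcc_of_le hb0] at hx
        have := hx.2
        exact (by linarith : (0 : ℝ) < 1 - x).ne'
      refine intervalIntegral.norm_integral_le_of_norm_le hb0 ?_ hci.intervalIntegrable
      refine Eventually.of_forall fun x hx => ?_
      have hx1 : 0 < 1 - x := by linarith [hx.2]
      rw [norm_mul, Complex.norm_real, Real.norm_of_nonneg
        (mul_nonneg hε.le (Real.rpow_nonneg hx1.le _))]
      exact mul_le_mul_of_nonneg_left (hvb x hx.1.le (by linarith))
        (mul_nonneg hε.le (Real.rpow_nonneg hx1.le _))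
    rw [hF', hibp]
    have h0 : (((0 : ℝ) : ℂ)) ^ s / s = 0 := by simp [hs0]
    rw [h0, mul_zero, sub_zero]
    refine (norm_sub_le _ _).trans ?_
    have h5 : ‖(((1 - b) ^ (-ε) : ℝ) : ℂ) * ((b : ℂ) ^ s / s)‖ ≤ t ^ ε * (1 / t) := by
      rw [norm_mul, hpow, Complex.norm_real, Real.norm_of_nonneg (Real.rpow_nonneg ht0.le _)]
      exact mul_le_mul_of_nonneg_left (hvb b hb0 hb1.le) (Real.rpow_nonneg ht0.le _)
    have h6 : t ^ (ε - 1) = t ^ ε * (1 / t) := by
      rw [Real.rpow_sub ht0, Real.rpow_one]; ring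
    rw [h6]
    have h7 : 0 < 1 / t := by positivity
    nlinarith [h5, hint2]
  rw [hsplit]
  refine (norm_add_le _ _).trans ?_
  linarith

/-- `|Γ(1+ε+it)|² ≤ C t^{1+2ε} e^{-πt}`, uniformly in `0 < ε ≤ 1/2` -/
theorem gamma_up : ∃ C : ℝ, 0 < C ∧ ∀ ε t : ℝ, 0 < ε → ε ≤ 1 / 2 → 1 ≤ t →
    ‖Gamma (1 + ε + t * I)‖ ^ 2 ≤ C * t ^ (1 + 2 * ε) * Real.exp (-(Real.pi * t)) := by
  -- a positive lower bound for `Γ` on `[1/2, 1]`
  obtain ⟨c, hc0, hc⟩ : ∃ c : ℝ, 0 < c ∧ ∀ ε : ℝ, 0 ≤ ε → ε ≤ 1 / 2 → c ≤ Real.Gamma (1 - ε) := by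
    have hcont : ContinuousOn (fun ε : ℝ => Real.Gamma (1 - ε)) (Set.Icc 0 (1 / 2)) := by
      intro ε hε
      have h1 : ContinuousAt Real.Gamma (1 - ε) := by
        refine (Real.differentiableAt_Gamma fun m => ?_).continuousAt
        have h2 := hε.2
        have h3 : (0 : ℝ) ≤ m := Nat.cast_nonneg m
        intro h
        linarith
      exact (h1.comp_of_eq (by fun_prop) rfl).continuousWithinAt
    obtain ⟨ε₀, hε₀, hmin⟩ := isCompact_Icc.exists_isMinOn (Set.nonempty_Icc.2 (by norm_num)) hcont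
    refine ⟨Real.Gamma (1 - ε₀), Real.Gamma_pos_of_pos (by linarith [hε₀.2]), fun ε h0 h1 => ?_⟩
    exact hmin ⟨h0, h1⟩
  refine ⟨128 * Real.pi / c ^ 2, by positivity, fun ε t hε hε1 ht => ?_⟩
  have ht0 : 0 < t := by linarith
  have hB := Complex.Gamma_mul_Gamma_eq_betaIntegral (s := 1 + ε + t * I) (t := 1 - ε)
    (by simp; linarith) (by simp; linarith)
  have h1 : (1 + ε + t * I + (1 - ε) : ℂ) = 2 + t * I := by ring
  rw [h1] at hB
  have h2 : ‖Gamma (1 - ε : ℂ)‖ = Real.Gamma (1 - ε) := by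
    have : (1 - ε : ℂ) = ((1 - ε : ℝ) : ℂ) := by push_cast; ring
    rw [this, Complex.Gamma_ofReal, Complex.norm_real,
      Real.norm_of_nonneg (Real.Gamma_pos_of_pos (by linarith)).le]
  have h3 := congrArg norm hB
  rw [norm_mul, norm_mul, h2] at h3
  have h4 := hc ε hε.le hε1
  have h5 : ‖Gamma (1 + ε + t * I)‖ * c ≤ ‖Gamma (2 + t * I)‖ * (4 * t ^ (ε - 1)) := by
    calc ‖Gamma (1 + ε + t * I)‖ * c ≤ ‖Gamma (1 + ε + t * I)‖ * Real.Gamma (1 - ε) :=
          mul_le_mul_of_nonneg_left h4 (norm_nonneg _)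
      _ = ‖Gamma (2 + t * I)‖ * ‖betaIntegral (1 + ε + t * I) (1 - ε)‖ := h3
      _ ≤ _ := mul_le_mul_of_nonneg_left (gr_beta hε hε1 ht) (norm_nonneg _)
  have h6 : ‖Gamma (1 + ε + t * I)‖ ^ 2 * c ^ 2 ≤
      (8 * Real.pi * t ^ 3 * Real.exp (-(Real.pi * t))) * (16 * t ^ (2 * ε - 2)) := by
    have e1 : (‖Gamma (1 + ε + t * I)‖ * c) ^ 2 ≤
        (‖Gamma (2 + t * I)‖ * (4 * t ^ (ε - 1))) ^ 2 :=
      pow_le_pow_left₀ (mul_nonneg (norm_nonneg _) hc0.le) h5 2
    have e2 : (4 * t ^ (ε - 1)) ^ 2 = 16 * t ^ (2 * ε - 2) := by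
      rw [mul_pow, ← Real.rpow_natCast (t ^ (ε - 1)) 2, ← Real.rpow_mul ht0.le]
      norm_num
      congr 1; ring
    rw [mul_pow, mul_pow, e2] at e1
    refine e1.trans (mul_le_mul_of_nonneg_right (gr_two ht) ?_)
    have := Real.rpow_pos_of_pos ht0 (2 * ε - 2)
    positivity
  have h7 : t ^ 3 * t ^ (2 * ε - 2) = t ^ (1 + 2 * ε) := by
    rw [← Real.rpow_natCast t 3, ← Real.rpow_add ht0]
    congr 1; push_cast; ring
  have h8 : (8 * Real.pi * t ^ 3 * Real.exp (-(Real.pi * t))) * (16 * t ^ (2 * ε - 2)) =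
      128 * Real.pi * t ^ (1 + 2 * ε) * Real.exp (-(Real.pi * t)) := by
    rw [← h7]; ring
  rw [h8] at h6
  have h9 : 128 * Real.pi / c ^ 2 * t ^ (1 + 2 * ε) * Real.exp (-(Real.pi * t)) =
      (128 * Real.pi * t ^ (1 + 2 * ε) * Real.exp (-(Real.pi * t))) / c ^ 2 := by ring
  rw [h9, le_div_iff₀ (by positivity)]
  exact h6

end Pool.Agent.HB
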