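import Pool.Agent.Lib_helper99.HB.Defs
import Pool.Agent.Lib_helper99.HBF.KB
import Pool.Agent.Lib_helper99.HBF.KH

/-!
# HB, block KK: the Mellin transform of a product of two Bessel functions
-/

namespace Pool.Agent.HB

open Complex MeasureTheory Set Filter Topology

/-- the integrand on the line -/
theorem kk_exp_norm (ν : ℂ) (x u : ℝ) :
    ‖cexp (ν * (u : ℂ)) * cexp (-((x * Real.cosh u : ℝ) : ℂ))‖ =
      Real.exp (ν.re * u) * Real.exp (-(x * Real.cosh u)) := by
  rw [norm_mul, Complex.norm_exp, Complex.norm_exp]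
  congr 2
  simp

theorem kk_cosh_le (ρ x u : ℝ) :
    Real.exp (ρ * u) * Real.exp (-(x * Real.cosh u)) ≤
      2 * ‖cexp (-((x * Real.cosh u : ℝ) : ℂ)) * Complex.cosh ((ρ : ℂ) * (u : ℂ))‖ := by
  rw [norm_mul, ← Complex.ofReal_neg, ← Complex.ofReal_exp, ← Complex.ofReal_mul,
    ← Complex.ofReal_cosh, Complex.norm_real, Complex.norm_real, Real.norm_eq_abs,
    Real.norm_eq_abs, Real.abs_exp, abs_of_pos (Real.cosh_pos _), Real.cosh_eq (ρ * u)]
  have h1 := Real.exp_pos (ρ * u)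
  have h2 := Real.exp_pos (-(ρ * u))
  have h3 := Real.exp_pos (-(x * Real.cosh u))
  nlinarith [mul_pos h2 h3]

theorem kk_int_Ioi (ρ : ℝ) {x : ℝ} (hx : 0 < x) : IntegrableOn (fun u : ℝ =>
    Real.exp (ρ * u) * Real.exp (-(x * Real.cosh u))) (Ioi 0) := by
  refine Integrable.mono' ((kb_integrable (ρ : ℂ) hx).norm.const_mul 2) ?_ ?_
  · exact (Continuous.aestronglyMeasurable (by fun_prop))
  · refine Eventually.of_forall fun u => ?_
    rw [Real.norm_eq_abs, abs_of_pos (by positivity)]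
    exact kk_cosh_le ρ x u

theorem kk_int_line (ρ : ℝ) {x : ℝ} (hx : 0 < x) : Integrable (fun u : ℝ =>
    Real.exp (ρ * u) * Real.exp (-(x * Real.cosh u))) := by
  rw [← integrableOn_univ, ← Iic_union_Ioi (a := (0 : ℝ))]
  refine IntegrableOn.union ?_ (kk_int_Ioi ρ hx)
  have h : IntegrableOn (fun u : ℝ => Real.exp (-ρ * u) * Real.exp (-(x * Real.cosh u)))
      (Ici 0) := by
    rw [integrableOn_Ici_iff_integrableOn_Ioi]
    exact kk_int_Ioi (-ρ) hx
  have h' : IntegrableOn (fun u : ℝ => Real.exp (-ρ * (-u)) * Real.exp (-(x * Real.cosh (-u))))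
      (Iic 0) := by
    apply IntegrableOn.comp_neg_Iic (c := (0 : ℝ)) (f := fun u : ℝ =>
      Real.exp (-ρ * u) * Real.exp (-(x * Real.cosh u)))
    simpa using h
  refine h'.congr_fun (fun u _ => ?_) measurableSet_Iic
  simp

theorem kk_intC_line (ν : ℂ) {x : ℝ} (hx : 0 < x) : Integrable (fun u : ℝ =>
    cexp (ν * (u : ℂ)) * cexp (-((x * Real.cosh u : ℝ) : ℂ))) := by
  refine Integrable.mono' (kk_int_line ν.re hx) ?_ ?_
  · exact (Continuous.aestronglyMeasurable (by fun_prop))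
  · exact Eventually.of_forall fun u => (kk_exp_norm ν x u).le

/-- the integral over the line -/
theorem kk_line (ν : ℂ) {x : ℝ} (hx : 0 < x) :
    ∫ u : ℝ, cexp (ν * (u : ℂ)) * cexp (-((x * Real.cosh u : ℝ) : ℂ)) = 2 * Kb ν x := by
  have hI := kk_intC_line ν hx
  rw [← integral_add_compl (measurableSet_Iic (a := (0 : ℝ))) hI, compl_Iic]
  have h1 : ∫ u in Iic (0 : ℝ), cexp (ν * (u : ℂ)) * cexp (-((x * Real.cosh u : ℝ) : ℂ)) =
      ∫ u in Ioi (0 : ℝ), cexp (-ν * (u : ℂ)) * cexp (-((x * Real.cosh u : ℝ) : ℂ)) := by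
    have := integral_comp_neg_Iic (0 : ℝ)
      (fun u : ℝ => cexp (-ν * (u : ℂ)) * cexp (-((x * Real.cosh u : ℝ) : ℂ)))
    rw [neg_zero] at this
    rw [← this]
    refine setIntegral_congr_fun measurableSet_Iic fun u _ => ?_
    simp
  rw [h1, ← integral_add ((kk_intC_line (-ν) hx).integrableOn) hI.integrableOn]
  unfold Kb
  rw [← integral_const_mul]
  refine setIntegral_congr_fun measurableSet_Ioi fun u _ => ?_
  change cexp (-ν * (u : ℂ)) * cexp (-((x * Real.cosh u : ℝ) : ℂ)) +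
    cexp (ν * (u : ℂ)) * cexp (-((x * Real.cosh u : ℝ) : ℂ)) =
    2 * (cexp (-((x * Real.cosh u : ℝ) : ℂ)) * Complex.cosh (ν * (u : ℂ)))
  rw [Complex.cosh, neg_mul]
  ring

theorem kk_line_real (ρ : ℝ) {x : ℝ} (hx : 0 < x) :
    ∫ u : ℝ, Real.exp (ρ * u) * Real.exp (-(x * Real.cosh u)) = 2 * ‖Kb (ρ : ℂ) x‖ := by
  have h1 := kk_line (ρ : ℂ) hx
  have h2 : ∫ u : ℝ, cexp ((ρ : ℂ) * (u : ℂ)) * cexp (-((x * Real.cosh u : ℝ) : ℂ)) =
      ((∫ u : ℝ, Real.exp (ρ * u) * Real.exp (-(x * Real.cosh u)) : ℝ) : ℂ) := by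
    rw [← integral_complex_ofReal]
    congr 1
    funext u
    push_cast
    rfl
  rw [h2] at h1
  have h3 := congrArg norm h1
  rw [norm_mul, Complex.norm_real, Real.norm_of_nonneg
    (integral_nonneg (fun u => by positivity))] at h3
  rw [h3]
  simp

/-! ## The one dimensional integral -/

/-- the function for the first use of Fubini -/
noncomputable def kkF (m W : ℂ) (p : ℝ × ℝ) : ℂ :=
  (p.1 : ℂ) ^ (W - 1) * (cexp (m * (p.2 : ℂ)) * cexp (-((p.1 * Real.cosh p.2 : ℝ) : ℂ)))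

theorem kkF_meas (m W : ℂ) : Measurable (kkF m W) := by
  unfold kkF
  fun_prop

theorem kkF_integrable {m W : ℂ} (h : |m.re| < W.re) :
    Integrable (kkF m W) ((volume.restrict (Ioi (0 : ℝ))).prod volume) := by
  rw [integrable_prod_iff (kkF_meas m W).aestronglyMeasurable]
  constructor
  · refine (ae_restrict_iff' measurableSet_Ioi).2 (Eventually.of_forall fun x hx => ?_)
    have := (kk_intC_line m hx).const_mul ((x : ℂ) ^ (W - 1))
    exact this
  · have hz : |((m.re : ℝ) : ℂ).re| / 2 < (((W.re / 2 : ℝ) : ℂ)).re := by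
      rw [Complex.ofReal_re, Complex.ofReal_re]; linarith
    have h1 := (kb_mellin hz).1
    have h2 : IntegrableOn (fun x : ℝ => 2 * (x ^ (2 * (((W.re / 2 : ℝ) : ℂ)).re - 1) *
      ‖Kb ((m.re : ℝ) : ℂ) x‖)) (Ioi 0) := h1.const_mul 2
    refine h2.congr_fun (fun x hx => ?_) measurableSet_Ioi
    have hx0 : (0 : ℝ) < x := hx
    simp only
    have h3 : ∀ b : ℝ, ‖kkF m W (x, b)‖ = x ^ (W.re - 1) *
        (Real.exp (m.re * b) * Real.exp (-(x * Real.cosh b))) := by
      intro b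
      unfold kkF
      simp only
      rw [norm_mul, kk_exp_norm, Complex.norm_cpow_eq_rpow_re_of_pos hx0]
      simp
    simp only [h3]
    rw [integral_const_mul, kk_line_real m.re hx0, Complex.ofReal_re]
    have e : 2 * (W.re / 2) - 1 = W.re - 1 := by ring
    rw [e]
    ring

theorem kkF_inner {m W : ℂ} (hW : 0 < W.re) (b : ℝ) :
    ∫ x in Ioi (0 : ℝ), kkF m W (x, b) =
      Gamma W * (cexp (m * (b : ℂ)) * (1 / ((Real.cosh b : ℝ) : ℂ)) ^ W) := by
  have h1 := Complex.integral_cpow_mul_exp_neg_mul_Ioi hW (Real.cosh_pos b)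
  have h2 : ∀ x : ℝ, kkF m W (x, b) = cexp (m * (b : ℂ)) *
      ((x : ℂ) ^ (W - 1) * cexp (-(((Real.cosh b : ℝ) : ℂ) * (x : ℂ)))) := by
    intro x
    unfold kkF
    simp only
    push_cast
    ring_nf
  simp only [h2]
  rw [integral_const_mul, h1]
  ring

theorem kk_beta_int {m W : ℂ} (h : |m.re| < W.re) :
    Integrable (fun b : ℝ => cexp (m * (b : ℂ)) * (1 / ((Real.cosh b : ℝ) : ℂ)) ^ W) := by
  have hW : 0 < W.re := lt_of_le_of_lt (abs_nonneg _) h
  have h1 := (kkF_integrable h).integral_prod_right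
  have h2 : Integrable (fun b : ℝ => Gamma W *
      (cexp (m * (b : ℂ)) * (1 / ((Real.cosh b : ℝ) : ℂ)) ^ W)) :=
    h1.congr (Eventually.of_forall fun b => kkF_inner hW b)
  have hG : Gamma W ≠ 0 := Complex.Gamma_ne_zero_of_re_pos hW
  have h3 := h2.const_mul (Gamma W)⁻¹
  refine h3.congr (Eventually.of_forall fun b => ?_)
  simp only
  rw [← mul_assoc, inv_mul_cancel₀ hG, one_mul]

theorem kk_beta {m W : ℂ} (h : |m.re| < W.re) :
    Gamma W * ∫ b : ℝ, cexp (m * (b : ℂ)) * (1 / ((Real.cosh b : ℝ) : ℂ)) ^ W =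
      (2 : ℂ) ^ (W - 1) * (Gamma ((W + m) / 2) * Gamma ((W - m) / 2)) := by
  have hW : 0 < W.re := lt_of_le_of_lt (abs_nonneg _) h
  have hI := kkF_integrable h
  have h1 := integral_integral_swap (f := fun x b => kkF m W (x, b)) hI
  have h2 : ∀ b : ℝ, ∫ x in Ioi (0 : ℝ), kkF m W (x, b) =
      Gamma W * (cexp (m * (b : ℂ)) * (1 / ((Real.cosh b : ℝ) : ℂ)) ^ W) :=
    fun b => kkF_inner hW b
  simp only [h2] at h1
  rw [integral_const_mul] at h1
  rw [← h1]
  have h3 : ∫ x in Ioi (0 : ℝ), ∫ b : ℝ, kkF m W (x, b) =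
      ∫ x in Ioi (0 : ℝ), 2 * ((x : ℂ) ^ (2 * (W / 2) - 1) * Kb m x) := by
    refine setIntegral_congr_fun measurableSet_Ioi fun x hx => ?_
    unfold kkF
    simp only
    rw [integral_const_mul, kk_line m hx]
    have e : 2 * (W / 2) - 1 = W - 1 := by ring
    rw [e]
    ring
  have hz : |m.re| / 2 < (W / 2).re := by
    rw [show W / 2 = W / (2 : ℝ) by norm_num, Complex.div_ofReal_re]; linarith
  rw [h3, integral_const_mul, (kb_mellin hz).2]
  have e1 : 2 * (W / 2) - 2 = (W - 1) - 1 := by ring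
  have e2 : W / 2 + m / 2 = (W + m) / 2 := by ring
  have e3 : W / 2 - m / 2 = (W - m) / 2 := by ring
  rw [e1, e2, e3, Complex.cpow_sub (W - 1) 1 (by norm_num : (2 : ℂ) ≠ 0),
    Complex.cpow_one]
  ring

/-! ## The product formula -/

theorem kk_prod (μ₁ μ₂ : ℂ) {x : ℝ} (hx : 0 < x) :
    ∫ b : ℝ, cexp ((μ₁ - μ₂) * (b : ℂ)) * Kb (μ₁ + μ₂) (2 * x * Real.cosh b) =
      Kb μ₁ x * Kb μ₂ x := by
  obtain ⟨e, he⟩ : ∃ e : ℂ → ℝ → ℂ, e = fun (ν : ℂ) (u : ℝ) =>
    cexp (ν * (u : ℂ)) * cexp (-((x * Real.cosh u : ℝ) : ℂ)) := ⟨_, rfl⟩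
  have hint : ∀ ν, Integrable (e ν) := fun ν => by rw [he]; exact kk_intC_line ν hx
  have hval : ∀ ν, ∫ u, e ν u = 2 * Kb ν x := fun ν => by rw [he]; exact kk_line ν hx
  have hcont : ∀ ν, Continuous (e ν) := fun ν => by rw [he]; fun_prop
  have hsub : ∀ (f : ℝ → ℂ) (u : ℝ), ∫ b : ℝ, f (u - 2 * b) = (1 / 2 : ℂ) * ∫ v, f v := by
    intro f u
    rw [Measure.integral_comp_mul_left (fun y : ℝ => f (u - y)) 2,
      integral_sub_left_eq_self f volume u]
    rw [Complex.real_smul]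
    norm_num
  have hsubr : ∀ (f : ℝ → ℝ) (u : ℝ), ∫ b : ℝ, f (u - 2 * b) = (1 / 2 : ℝ) * ∫ v, f v := by
    intro f u
    rw [Measure.integral_comp_mul_left (fun y : ℝ => f (u - y)) 2,
      integral_sub_left_eq_self f volume u]
    rw [smul_eq_mul]
    norm_num
  have hsubi : ∀ (f : ℝ → ℂ) (u : ℝ), Integrable f → Integrable (fun b : ℝ => f (u - 2 * b)) := by
    intro f u hf
    have h1 : Integrable (fun y : ℝ => f (u - y)) := hf.comp_sub_left u
    exact (h1.comp_mul_left' (by norm_num : (2 : ℝ) ≠ 0))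
  -- Fubini
  have hFub : Integrable (fun p : ℝ × ℝ => e μ₁ p.1 * e μ₂ (p.1 - 2 * p.2))
      ((volume : Measure ℝ).prod (volume : Measure ℝ)) := by
    rw [integrable_prod_iff]
    · constructor
      · refine Eventually.of_forall fun u => ?_
        have := (hsubi (e μ₂) u (hint μ₂)).const_mul (e μ₁ u)
        exact this
      · have h1 : ∀ u : ℝ, ∫ b : ℝ, ‖e μ₁ u * e μ₂ (u - 2 * b)‖ =
            ‖e μ₁ u‖ * ((1 / 2 : ℝ) * ∫ v, ‖e μ₂ v‖) := by
          intro u
          simp only [norm_mul]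
          rw [integral_const_mul, hsubr (fun v => ‖e μ₂ v‖) u]
        simp only [h1]
        exact (hint μ₁).norm.mul_const _
    · apply Continuous.aestronglyMeasurable
      have := hcont μ₁
      have := hcont μ₂
      fun_prop
  have hswap := integral_integral_swap (f := fun u b => e μ₁ u * e μ₂ (u - 2 * b)) hFub
  have hl : ∀ u : ℝ, ∫ b : ℝ, e μ₁ u * e μ₂ (u - 2 * b) = e μ₁ u * (Kb μ₂ x) := by
    intro u
    rw [integral_const_mul, hsub (e μ₂) u, hval]
    ring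
  simp only [hl] at hswap
  rw [integral_mul_const, hval] at hswap
  have hr : ∀ b : ℝ, ∫ u : ℝ, e μ₁ u * e μ₂ (u - 2 * b) =
      2 * (cexp ((μ₁ - μ₂) * (b : ℂ)) * Kb (μ₁ + μ₂) (2 * x * Real.cosh b)) := by
    intro b
    have hxb : 0 < 2 * x * Real.cosh b := by have := Real.cosh_pos b; positivity
    rw [← integral_add_right_eq_self (fun u : ℝ => e μ₁ u * e μ₂ (u - 2 * b)) b]
    have h1 : ∀ a : ℝ, e μ₁ (a + b) * e μ₂ (a + b - 2 * b) =
        cexp ((μ₁ - μ₂) * (b : ℂ)) * (cexp ((μ₁ + μ₂) * (a : ℂ)) *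
          cexp (-((2 * x * Real.cosh b * Real.cosh a : ℝ) : ℂ))) := by
      intro a
      rw [he]
      simp only
      rw [← Complex.exp_add, ← Complex.exp_add, ← Complex.exp_add, ← Complex.exp_add,
        ← Complex.exp_add]
      congr 1
      have h2 : Real.cosh (a + b) + Real.cosh (a + b - 2 * b) =
          2 * (Real.cosh a * Real.cosh b) := by
        rw [show a + b - 2 * b = a - b by ring, Real.cosh_add, Real.cosh_sub]
        ring
      have h3 : (x * Real.cosh (a + b)) + (x * Real.cosh (a + b - 2 * b)) =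
          2 * x * Real.cosh b * Real.cosh a := by
        rw [← mul_add, h2]; ring
      rw [← h3]
      push_cast
      ring
    simp only [h1]
    rw [integral_const_mul, kk_line (μ₁ + μ₂) hxb]
    ring
  simp only [hr] at hswap
  rw [integral_const_mul] at hswap
  have h2 : (2 : ℂ) ≠ 0 := by norm_num
  exact mul_left_cancel₀ h2 (by rw [← hswap]; ring)

/-! ## The Mellin transform of the product -/

/-- the function for the last use of Fubini -/
noncomputable def kkH (M m W : ℂ) (p : ℝ × ℝ) : ℂ :=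
  (p.1 : ℂ) ^ (W - 1) * (cexp (m * (p.2 : ℂ)) * Kb M (2 * p.1 * Real.cosh p.2))

theorem kkH_meas (M m W : ℂ) :
    AEStronglyMeasurable (kkH M m W) ((volume.restrict (Ioi (0 : ℝ))).prod volume) := by
  have h1 : (volume.restrict (Ioi (0 : ℝ))).prod (volume : Measure ℝ) =
      ((volume : Measure ℝ).prod (volume : Measure ℝ)).restrict (Ioi 0 ×ˢ univ) := by
    rw [← Measure.prod_restrict, Measure.restrict_univ]
  rw [h1]
  apply ContinuousOn.aestronglyMeasurable _ (measurableSet_Ioi.prod MeasurableSet.univ)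
  unfold kkH
  apply ContinuousOn.mul
  · intro p hp
    apply ContinuousAt.continuousWithinAt
    have hp0 : (0 : ℝ) < p.1 := hp.1
    apply ContinuousAt.cpow (by fun_prop) continuousAt_const
    left
    simpa using hp0
  · apply ContinuousOn.mul (by fun_prop)
    apply (kb_cont M).comp (by fun_prop)
    intro p hp
    have hp0 : (0 : ℝ) < p.1 := hp.1
    have := Real.cosh_pos p.2
    show (0 : ℝ) < 2 * p.1 * Real.cosh p.2
    positivity

theorem kk_norm_cosh {m W : ℂ} (b : ℝ) :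
    ‖cexp (m * (b : ℂ)) * (1 / ((Real.cosh b : ℝ) : ℂ)) ^ W‖ =
      Real.exp (m.re * b) * (Real.cosh b) ^ (-W.re) := by
  have hb := Real.cosh_pos b
  have e : (1 / ((Real.cosh b : ℝ) : ℂ)) = (((Real.cosh b)⁻¹ : ℝ) : ℂ) := by push_cast; rw [one_div]
  rw [e, norm_mul, Complex.norm_exp, Complex.norm_cpow_eq_rpow_re_of_pos (inv_pos.2 hb),
    Real.inv_rpow hb.le, ← Real.rpow_neg hb.le]
  congr 2
  simp

theorem kkH_integrable {M m W : ℂ} (hM : |M.re| < W.re) (hm : |m.re| < W.re) :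
    Integrable (kkH M m W) ((volume.restrict (Ioi (0 : ℝ))).prod volume) := by
  have hz : |M.re| / 2 < (W / 2).re := by
    rw [show W / 2 = W / (2 : ℝ) by norm_num, Complex.div_ofReal_re]; linarith
  have hK := (kb_mellin hz).1
  have eW : 2 * (W / 2).re - 1 = W.re - 1 := by
    rw [show W / 2 = W / (2 : ℝ) by norm_num, Complex.div_ofReal_re]; ring
  rw [eW] at hK
  have hnorm : ∀ x ∈ Ioi (0 : ℝ), ∀ b : ℝ, ‖kkH M m W (x, b)‖ =
      (Real.exp (m.re * b) * (2 * Real.cosh b) ^ (-(W.re - 1))) *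
        ((2 * Real.cosh b * x) ^ (W.re - 1) * ‖Kb M (2 * Real.cosh b * x)‖) := by
    intro x hx b
    have hx0 : (0 : ℝ) < x := hx
    have hb : 0 < 2 * Real.cosh b := by have := Real.cosh_pos b; positivity
    unfold kkH
    simp only
    rw [norm_mul, norm_mul, Complex.norm_cpow_eq_rpow_re_of_pos hx0, Complex.norm_exp,
      Real.mul_rpow hb.le hx0.le]
    have e1 : 2 * x * Real.cosh b = 2 * Real.cosh b * x := by ring
    have e2 : (m * (b : ℂ)).re = m.re * b := by simp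
    have e3 : (2 * Real.cosh b) ^ (-(W.re - 1)) * (2 * Real.cosh b) ^ (W.re - 1) = 1 := by
      rw [← Real.rpow_add hb]; simp
    rw [e1, e2, Complex.sub_re, Complex.one_re]
    calc x ^ (W.re - 1) * (Real.exp (m.re * b) * ‖Kb M (2 * Real.cosh b * x)‖)
        = ((2 * Real.cosh b) ^ (-(W.re - 1)) * (2 * Real.cosh b) ^ (W.re - 1)) *
          (x ^ (W.re - 1) * (Real.exp (m.re * b) * ‖Kb M (2 * Real.cosh b * x)‖)) := by
          rw [e3, one_mul]
      _ = _ := by ring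
  rw [integrable_prod_iff' (kkH_meas M m W)]
  constructor
  · refine Eventually.of_forall fun b => ?_
    have hb : 0 < 2 * Real.cosh b := by have := Real.cosh_pos b; positivity
    have h1 : IntegrableOn (fun x : ℝ => (2 * Real.cosh b * x) ^ (W.re - 1) *
        ‖Kb M (2 * Real.cosh b * x)‖) (Ioi 0) := by
      have := (integrableOn_Ioi_comp_mul_left_iff (fun y : ℝ => y ^ (W.re - 1) * ‖Kb M y‖) 0 hb).2
        (by rw [mul_zero]; exact hK)
      exact this
    have h2 := h1.const_mul (Real.exp (m.re * b) * (2 * Real.cosh b) ^ (-(W.re - 1)))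
    refine Integrable.mono' h2 ?_ ?_
    · have hc : ContinuousOn (fun x : ℝ => kkH M m W (x, b)) (Ioi 0) := by
        unfold kkH
        simp only
        apply ContinuousOn.mul
        · intro x hx
          apply ContinuousAt.continuousWithinAt
          have hx0 : (0 : ℝ) < x := hx
          apply ContinuousAt.cpow (by fun_prop) continuousAt_const
          left
          simpa using hx0
        · apply ContinuousOn.mul (by fun_prop)
          apply (kb_cont M).comp (by fun_prop)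
          intro x hx
          have hx0 : (0 : ℝ) < x := hx
          have := Real.cosh_pos b
          show (0 : ℝ) < 2 * x * Real.cosh b
          positivity
      exact hc.aestronglyMeasurable measurableSet_Ioi
    · refine (ae_restrict_iff' measurableSet_Ioi).2 (Eventually.of_forall fun x hx => ?_)
      exact (hnorm x hx b).le
  · have h1 : ∀ b : ℝ, ∫ x in Ioi (0 : ℝ), ‖kkH M m W (x, b)‖ =
        ‖cexp (m * (b : ℂ)) * (1 / ((Real.cosh b : ℝ) : ℂ)) ^ W‖ *
          ((2 : ℝ) ^ (-W.re) * ∫ y in Ioi (0 : ℝ), y ^ (W.re - 1) * ‖Kb M y‖) := by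
      intro b
      have hb : 0 < 2 * Real.cosh b := by have := Real.cosh_pos b; positivity
      rw [setIntegral_congr_fun measurableSet_Ioi (fun x hx => hnorm x hx b), integral_const_mul,
        integral_comp_mul_left_Ioi (fun y : ℝ => y ^ (W.re - 1) * ‖Kb M y‖) 0 hb, mul_zero,
        kk_norm_cosh, smul_eq_mul]
      have e1 : (2 * Real.cosh b) ^ (-(W.re - 1)) * (2 * Real.cosh b)⁻¹ =
          (2 : ℝ) ^ (-W.re) * (Real.cosh b) ^ (-W.re) := by
        rw [← Real.mul_rpow (by norm_num) (Real.cosh_pos b).le, ← Real.rpow_neg_one,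
          ← Real.rpow_add hb]
        congr 1
        ring
      linear_combination (Real.exp (m.re * b) *
        ∫ y in Ioi (0 : ℝ), y ^ (W.re - 1) * ‖Kb M y‖) * e1
    simp only [h1]
    exact (kk_beta_int hm).norm.mul_const _

theorem kkH_inner {M m W : ℂ} (hM : |M.re| < W.re) (b : ℝ) :
    ∫ x in Ioi (0 : ℝ), kkH M m W (x, b) =
      (2 : ℂ) ^ (-W) * ((2 : ℂ) ^ (W - 2) * (Gamma ((W + M) / 2) * Gamma ((W - M) / 2))) *
        (cexp (m * (b : ℂ)) * (1 / ((Real.cosh b : ℝ) : ℂ)) ^ W) := by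
  have hz : |M.re| / 2 < (W / 2).re := by
    rw [show W / 2 = W / (2 : ℝ) by norm_num, Complex.div_ofReal_re]; linarith
  have hK := (kb_mellin hz).2
  have hb1 : 0 < Real.cosh b := Real.cosh_pos b
  have hb : 0 < 2 * Real.cosh b := by positivity
  have h1 := mellin_comp_mul_left (Kb M) W hb
  unfold mellin at h1
  simp only [smul_eq_mul] at h1
  have e0 : 2 * (W / 2) = W := by ring
  have e2 : W / 2 + M / 2 = (W + M) / 2 := by ring
  have e3 : W / 2 - M / 2 = (W - M) / 2 := by ring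
  rw [e0, e2, e3] at hK
  rw [hK] at h1
  have h2 : ∀ x : ℝ, kkH M m W (x, b) = cexp (m * (b : ℂ)) *
      ((x : ℂ) ^ (W - 1) * Kb M (2 * Real.cosh b * x)) := by
    intro x
    unfold kkH
    simp only
    rw [show 2 * x * Real.cosh b = 2 * Real.cosh b * x by ring]
    ring
  simp only [h2]
  rw [integral_const_mul, h1]
  have e4 : (((2 * Real.cosh b : ℝ) : ℂ)) ^ (-W) =
      (2 : ℂ) ^ (-W) * (1 / ((Real.cosh b : ℝ) : ℂ)) ^ W := by
    rw [Complex.ofReal_mul, Complex.mul_cpow_ofReal_nonneg (by norm_num) hb1.le, one_div,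
      Complex.inv_cpow, Complex.cpow_neg ((Real.cosh b : ℝ) : ℂ) W]
    · norm_num
    · rw [Complex.arg_ofReal_of_nonneg hb1.le]
      exact Real.pi_pos.ne
  rw [e4]
  ring

theorem kk_mellin {μ₁ μ₂ W : ℂ} (h : |μ₁.re| + |μ₂.re| < W.re) :
    IntegrableOn (fun x : ℝ => x ^ (W.re - 1) * (‖Kb μ₁ x‖ * ‖Kb μ₂ x‖)) (Ioi 0) ∧
      ∫ x in Ioi (0 : ℝ), (x : ℂ) ^ (W - 1) * (Kb μ₁ x * Kb μ₂ x) =
        (2 : ℂ) ^ (W - 3) * (Gamma ((W + μ₁ + μ₂) / 2) * Gamma ((W + μ₁ - μ₂) / 2) *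
          (Gamma ((W - μ₁ + μ₂) / 2) * Gamma ((W - μ₁ - μ₂) / 2))) / Gamma W := by
  have hM : |(μ₁ + μ₂).re| < W.re := by
    rw [Complex.add_re]; exact lt_of_le_of_lt (abs_add_le _ _) h
  have hm : |(μ₁ - μ₂).re| < W.re := by
    rw [Complex.sub_re]; exact lt_of_le_of_lt (abs_sub _ _) h
  have hW : 0 < W.re := lt_of_le_of_lt (abs_nonneg _) hM
  have hI := kkH_integrable hM hm
  have houter : ∀ x ∈ Ioi (0 : ℝ), ∫ b : ℝ, kkH (μ₁ + μ₂) (μ₁ - μ₂) W (x, b) =
      (x : ℂ) ^ (W - 1) * (Kb μ₁ x * Kb μ₂ x) := by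
    intro x hx
    unfold kkH
    simp only
    rw [integral_const_mul, kk_prod μ₁ μ₂ hx]
  have hint : IntegrableOn (fun x : ℝ => (x : ℂ) ^ (W - 1) * (Kb μ₁ x * Kb μ₂ x)) (Ioi 0) := by
    refine (hI.integral_prod_left).congr ?_
    refine (ae_restrict_iff' measurableSet_Ioi).2 (Eventually.of_forall fun x hx => ?_)
    exact houter x hx
  constructor
  · have hint3 : IntegrableOn (fun x : ℝ => ‖(x : ℂ) ^ (W - 1) * (Kb μ₁ x * Kb μ₂ x)‖) (Ioi 0) :=
      hint.norm
    refine hint3.congr_fun (fun x hx => ?_) measurableSet_Ioi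
    have hx0 : (0 : ℝ) < x := hx
    simp only
    rw [norm_mul, norm_mul, Complex.norm_cpow_eq_rpow_re_of_pos hx0]
    simp
  · have h3 := integral_integral_swap (f := fun x b => kkH (μ₁ + μ₂) (μ₁ - μ₂) W (x, b)) hI
    rw [setIntegral_congr_fun measurableSet_Ioi houter] at h3
    rw [h3]
    simp only [kkH_inner hM]
    rw [integral_const_mul]
    have h4 := kk_beta hm
    have hG : Gamma W ≠ 0 := Complex.Gamma_ne_zero_of_re_pos hW
    rw [eq_div_iff hG]
    have e1 : (2 : ℂ) ^ (-W) * (2 : ℂ) ^ (W - 2) * (2 : ℂ) ^ (W - 1) = (2 : ℂ) ^ (W - 3) := by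
      rw [← Complex.cpow_add _ _ (by norm_num), ← Complex.cpow_add _ _ (by norm_num)]
      congr 1
      ring
    have a1 : (W + (μ₁ + μ₂)) / 2 = (W + μ₁ + μ₂) / 2 := by ring
    have a2 : (W - (μ₁ + μ₂)) / 2 = (W - μ₁ - μ₂) / 2 := by ring
    have a3 : (W + (μ₁ - μ₂)) / 2 = (W + μ₁ - μ₂) / 2 := by ring
    have a4 : (W - (μ₁ - μ₂)) / 2 = (W - μ₁ + μ₂) / 2 := by ring
    rw [a3, a4] at h4
    rw [a1, a2]
    obtain ⟨I₀, hI₀⟩ : ∃ I₀ : ℂ, I₀ = ∫ b : ℝ, cexp ((μ₁ - μ₂) * (b : ℂ)) *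
      (1 / ((Real.cosh b : ℝ) : ℂ)) ^ W := ⟨_, rfl⟩
    rw [← hI₀] at h4 ⊢
    rw [← e1]
    linear_combination ((2 : ℂ) ^ (-W) * (2 : ℂ) ^ (W - 2) *
      (Gamma ((W + μ₁ + μ₂) / 2) * Gamma ((W - μ₁ - μ₂) / 2))) * h4

end Pool.Agent.HB
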