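import Pool.Agent.Lib_helper99.HB.Defs
import Pool.Agent.Lib_helper99.HBF.FV
import Pool.Agent.Lib_helper99.HBF.KB
import Pool.Agent.Lib_helper99.HBF.KK

/-!
# HB, block XI: the basic integral
-/

namespace Pool.Agent.HB

open Complex MeasureTheory Set Filter Topology

theorem xi_norm {x : ℝ} (hx : 0 < x) (w : ℂ) : ‖(x : ℂ) ^ w‖ = x ^ w.re :=
  Complex.norm_cpow_eq_rpow_re_of_pos hx w

theorem xi_one_pos (v : ℂ) : 0 < 1 + normSq v := by
  have := normSq_nonneg v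
  linarith

/-- the factor in `v` -/
theorem xi_intF {β : ℂ} (hβ : 1 < β.re) :
    Integrable (fun v : ℂ => ((1 + normSq v : ℝ) : ℂ) ^ (-β)) := by
  have h1 := (fourier_v hβ (x := 1) one_pos (ω := 1) (by simp)).1
  refine h1.mono ?_ ?_
  · have hc : Continuous (fun v : ℂ => ((1 + normSq v : ℝ) : ℂ) ^ (-β)) := by
      refine Continuous.cpow ?_ continuous_const ?_
      · exact continuous_ofReal.comp (continuous_const.add continuous_normSq)
      · intro v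
        exact Or.inl (by simpa using xi_one_pos v)
    exact hc.aestronglyMeasurable
  · refine Filter.Eventually.of_forall fun v => ?_
    rw [xi_norm (xi_one_pos v), Complex.neg_re, Real.norm_of_nonneg
      (Real.rpow_nonneg (xi_one_pos v).le _)]

/-- the factor in `x` -/
theorem xi_intG {ν z : ℂ} (hν : Adm ν) (h1 : 1 / 2 < z.re) :
    IntegrableOn (fun x : ℝ => (x : ℂ) ^ (2 * z - 1) * ((Kr ν x : ℝ) : ℂ)) (Ioi 0) := by
  have hb : IntegrableOn (fun x : ℝ => 2 * (x ^ (2 * z.re - 2) * Real.exp (-(1 / 2) * x)))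
      (Ioi 0) := by
    have := integrableOn_rpow_mul_exp_neg_mul_rpow (s := 2 * z.re - 2) (p := 1) (b := 1 / 2)
      (by linarith) one_pos (by norm_num)
    simp only [Real.rpow_one] at this
    exact this.const_mul 2
  refine hb.mono' ?_ ?_
  · refine ContinuousOn.aestronglyMeasurable ?_ measurableSet_Ioi
    refine ContinuousOn.mul ?_ ?_
    · refine ContinuousOn.cpow continuous_ofReal.continuousOn continuousOn_const ?_
      intro x hx
      exact Or.inl (by simpa using hx)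
    · exact continuous_ofReal.comp_continuousOn (kr_cont ν)
  · refine (ae_restrict_iff' measurableSet_Ioi).2 (Filter.Eventually.of_forall fun x hx => ?_)
    have hx : 0 < x := hx
    rw [norm_mul, xi_norm hx, Complex.norm_real, Real.norm_eq_abs]
    have he : (2 * z - 1).re = 2 * z.re - 1 := by simp
    rw [he]
    have hk := kr_bd hν hx
    have hp : 0 ≤ x ^ (2 * z.re - 1) := Real.rpow_nonneg hx.le _
    calc x ^ (2 * z.re - 1) * |Kr ν x|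
        ≤ x ^ (2 * z.re - 1) * (2 / x * Real.exp (-(x / 2))) := mul_le_mul_of_nonneg_left hk hp
      _ = 2 * (x ^ (2 * z.re - 2) * Real.exp (-(1 / 2) * x)) := by
        have h2 : x ^ (2 * z.re - 2) = x ^ (2 * z.re - 1) / x := by
          rw [show 2 * z.re - 2 = (2 * z.re - 1) - 1 by ring, Real.rpow_sub_one hx.ne']
        rw [h2, show -(x / 2) = -(1 / 2) * x by ring]
        ring

theorem xi_int {ν : ℂ} (hν : Adm ν) {β z : ℂ} (h1 : 1 / 2 < z.re) (h2 : 1 < β.re)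
    (ω : ℂ) :
    Integrable (fun p : ℂ × ℝ => ((1 + normSq p.1 : ℝ) : ℂ) ^ (-β) *
      ((p.2 : ℂ) ^ (2 * z - 1) * ((Kr ν p.2 : ℝ) : ℂ) *
        cexp (I * ((p.2 * (ω * p.1).re : ℝ) : ℂ))))
        ((volume : Measure ℂ).prod (volume.restrict (Ioi (0 : ℝ)))) := by
  have hF := xi_intF h2
  have hG := xi_intG hν h1
  have hP : Integrable (fun p : ℂ × ℝ => ((1 + normSq p.1 : ℝ) : ℂ) ^ (-β) *
      ((p.2 : ℂ) ^ (2 * z - 1) * ((Kr ν p.2 : ℝ) : ℂ)))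
        ((volume : Measure ℂ).prod (volume.restrict (Ioi (0 : ℝ)))) := hF.mul_prod hG
  have hE : Continuous (fun p : ℂ × ℝ => cexp (I * ((p.2 * (ω * p.1).re : ℝ) : ℂ))) := by
    fun_prop
  have := hP.mul_bdd (c := 1) hE.aestronglyMeasurable (Filter.Eventually.of_forall fun p => by
    rw [mul_comm I, Complex.norm_exp_ofReal_mul_I])
  refine this.congr (Filter.Eventually.of_forall fun p => ?_)
  simp only
  ring

theorem xi_inner {ν : ℂ} {β z : ℂ} (h2 : 1 < β.re) {ω : ℂ} (hω : ‖ω‖ = 1) {x : ℝ} (hx : 0 < x) :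
    ∫ v : ℂ, ((1 + normSq v : ℝ) : ℂ) ^ (-β) *
      ((x : ℂ) ^ (2 * z - 1) * ((Kr ν x : ℝ) : ℂ) * cexp (I * ((x * (ω * v).re : ℝ) : ℂ))) =
      (2 * Real.pi / Gamma β * (2 : ℂ) ^ (1 - β)) *
        ((x : ℂ) ^ (2 * z + β - 1 - 1) * (((Kr ν x : ℝ) : ℂ) * Kb (β - 1) x)) := by
  have h := (fourier_v h2 hx hω).2
  have e1 : ∀ v : ℂ, ((1 + normSq v : ℝ) : ℂ) ^ (-β) *
      ((x : ℂ) ^ (2 * z - 1) * ((Kr ν x : ℝ) : ℂ) * cexp (I * ((x * (ω * v).re : ℝ) : ℂ))) =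
      ((x : ℂ) ^ (2 * z - 1) * ((Kr ν x : ℝ) : ℂ)) * (((1 + normSq v : ℝ) : ℂ) ^ (-β) *
        cexp (I * ((x * (ω * v).re : ℝ) : ℂ))) := fun v => by ring
  rw [integral_congr_ae (Filter.Eventually.of_forall e1), integral_const_mul, h]
  have hx' : (x : ℂ) ≠ 0 := by exact_mod_cast hx.ne'
  have e2 : (((x / 2 : ℝ) : ℂ)) ^ (β - 1) = (x : ℂ) ^ (β - 1) * (2 : ℂ) ^ (1 - β) := by
    have h3 : (((x / 2 : ℝ) : ℂ)) = ((x : ℝ) : ℂ) * (((2 : ℝ)⁻¹ : ℝ) : ℂ) := by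
      push_cast
      ring
    rw [h3, Complex.mul_cpow_ofReal_nonneg hx.le (by norm_num)]
    congr 1
    rw [Complex.ofReal_inv, Complex.inv_cpow _ _ (by
      rw [Complex.arg_ofReal_of_nonneg (by norm_num)]
      exact Real.pi_pos.ne), ← Complex.cpow_neg]
    congr 1
    ring
  have e3 : (x : ℂ) ^ (2 * z + β - 1 - 1) = (x : ℂ) ^ (2 * z - 1) * (x : ℂ) ^ (β - 1) := by
    rw [← Complex.cpow_add _ _ hx']
    congr 1
    ring
  rw [e2, e3]
  ring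

theorem xint {ν : ℂ} (hν : Adm ν) {σ : ℝ} {z : ℂ} (h1 : 1 / 2 < z.re) (h2 : z.re < σ - 1 / 2)
    {ω : ℂ} (hω : ‖ω‖ = 1) :
    Integrable (fun p : ℂ × ℝ => ((1 + normSq p.1 : ℝ) : ℂ) ^ (z - 1 / 2 - σ) *
      ((p.2 : ℂ) ^ (2 * z - 1) * ((Kr ν p.2 : ℝ) : ℂ) *
        cexp (I * ((p.2 * (ω * p.1).re : ℝ) : ℂ))))
        ((volume : Measure ℂ).prod (volume.restrict (Ioi (0 : ℝ)))) ∧
    ∫ p : ℂ × ℝ, ((1 + normSq p.1 : ℝ) : ℂ) ^ (z - 1 / 2 - σ) *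
      ((p.2 : ℂ) ^ (2 * z - 1) * ((Kr ν p.2 : ℝ) : ℂ) *
        cexp (I * ((p.2 * (ω * p.1).re : ℝ) : ℂ)))
        ∂((volume : Measure ℂ).prod (volume.restrict (Ioi (0 : ℝ)))) =
      Real.pi * (2 : ℂ) ^ (2 * z - 2) * (Gamma (z + ν / 2) * Gamma (z - ν / 2)) *
        (Gs ν σ / (Gamma (σ + 1 / 2 - z) * Gamma (σ - 1 / 2 + z))) := by
  set β : ℂ := σ + 1 / 2 - z with hβ
  have hβr : β.re = σ + 1 / 2 - z.re := by
    simp [hβ]
  have hβ1 : 1 < β.re := by rw [hβr]; linarith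
  have hneg : z - 1 / 2 - σ = -β := by rw [hβ]; ring
  have hνr : |ν.re| < 1 := by
    rcases hν with h | h
    · rw [h]; simp
    · exact h.2
  rw [hneg]
  refine ⟨xi_int hν h1 hβ1 ω, ?_⟩
  rw [integral_prod_symm _ (xi_int hν h1 hβ1 ω)]
  have hin : ∀ x ∈ Ioi (0 : ℝ), (∫ v : ℂ, ((1 + normSq (v, x).1 : ℝ) : ℂ) ^ (-β) *
      ((((v, x) : ℂ × ℝ).2 : ℂ) ^ (2 * z - 1) * ((Kr ν ((v, x) : ℂ × ℝ).2 : ℝ) : ℂ) *
        cexp (I * ((((v, x) : ℂ × ℝ).2 * (ω * ((v, x) : ℂ × ℝ).1).re : ℝ) : ℂ)))) =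
      (2 * Real.pi / Gamma β * (2 : ℂ) ^ (1 - β)) *
        ((x : ℂ) ^ (2 * z + β - 1 - 1) * (Kb ν x * Kb (β - 1) x)) := by
    intro x hx
    rw [kb_real hν x]
    exact xi_inner hβ1 hω hx
  rw [setIntegral_congr_fun measurableSet_Ioi hin, integral_const_mul]
  have hW : (2 * z + β - 1).re = σ - 1 / 2 + z.re := by
    simp [hβ]
    ring
  have hk := (kk_mellin (μ₁ := ν) (μ₂ := β - 1) (W := 2 * z + β - 1) (by
    rw [hW, Complex.sub_re, Complex.one_re, abs_of_pos (by linarith : 0 < β.re - 1), hβr]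
    linarith)).2
  rw [hk]
  have g1 : (2 * z + β - 1 + ν + (β - 1)) / 2 = σ - 1 / 2 + ν / 2 := by rw [hβ]; ring
  have g2 : (2 * z + β - 1 + ν - (β - 1)) / 2 = z + ν / 2 := by ring
  have g3 : (2 * z + β - 1 - ν + (β - 1)) / 2 = σ - 1 / 2 - ν / 2 := by rw [hβ]; ring
  have g4 : (2 * z + β - 1 - ν - (β - 1)) / 2 = z - ν / 2 := by ring
  have g5 : 2 * z + β - 1 = σ - 1 / 2 + z := by rw [hβ]; ring
  rw [g1, g2, g3, g4, g5]
  have p2 : (2 : ℂ) ^ (2 * z - 2) = 2 * (2 : ℂ) ^ (1 - β) * (2 : ℂ) ^ (σ - 1 / 2 + z - 3) := by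
    have h20 : (2 : ℂ) ≠ 0 := two_ne_zero
    have : (2 : ℂ) * (2 : ℂ) ^ (1 - β) = (2 : ℂ) ^ (1 + (1 - β)) := by
      rw [Complex.cpow_add _ _ h20, Complex.cpow_one]
    rw [this, ← Complex.cpow_add _ _ h20]
    congr 1
    rw [hβ]
    ring
  rw [p2]
  unfold Gs
  field_simp

end Pool.Agent.HB
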