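import Pool.Agent.Lib_helper99.HB.Defs
import Pool.Agent.Lib_helper99.HBF.GR

/-! HB, block MB: the bound for the first moment -/

namespace Pool.Agent.HB

open Complex MeasureTheory Filter Topology
open Pool.Agent.H4 (ml atl FunBd vcf)

/-- the inner integral -/
theorem mb_inner {ε t δ₁ c : ℝ} (hε : 0 < ε) (ht : 0 < t) (hc : 0 ≤ c) :
    ∫⁻ δ in Set.Ioo 0 δ₁, ENNReal.ofReal (δ ^ (2 * ε) * (c * Real.exp (-(2 * δ * t)))) ≤
      ENNReal.ofReal (Real.Gamma (1 + 2 * ε) * 2 ^ (-(1 + 2 * ε)) * (c * t ^ (-(1 + 2 * ε)))) := by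
  have h1 : ∫ δ : ℝ in Set.Ioi 0, δ ^ ((1 + 2 * ε) - 1) * Real.exp (-((2 * t) * δ)) =
      (1 / (2 * t)) ^ (1 + 2 * ε) * Real.Gamma (1 + 2 * ε) :=
    Real.integral_rpow_mul_exp_neg_mul_Ioi (by linarith) (by linarith)
  have hG : 0 < Real.Gamma (1 + 2 * ε) := Real.Gamma_pos_of_pos (by linarith)
  have hpos : 0 < (1 / (2 * t)) ^ (1 + 2 * ε) * Real.Gamma (1 + 2 * ε) :=
    mul_pos (Real.rpow_pos_of_pos (by positivity) _) hG
  have hint : IntegrableOn (fun δ : ℝ => δ ^ ((1 + 2 * ε) - 1) * Real.exp (-((2 * t) * δ)))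
      (Set.Ioi 0) := by
    by_contra hn
    rw [integral_undef hn] at h1
    exact hpos.ne h1
  have hint2 : IntegrableOn (fun δ : ℝ => δ ^ (2 * ε) * (c * Real.exp (-(2 * δ * t))))
      (Set.Ioi 0) := by
    have := Integrable.const_mul hint c
    refine this.congr (ae_of_all _ fun δ => ?_)
    simp only
    rw [show (1 + 2 * ε) - 1 = 2 * ε by ring, show -((2 * t) * δ) = -(2 * δ * t) by ring]
    ring
  have hval : ∫ δ : ℝ in Set.Ioi 0, δ ^ (2 * ε) * (c * Real.exp (-(2 * δ * t))) =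
      Real.Gamma (1 + 2 * ε) * 2 ^ (-(1 + 2 * ε)) * (c * t ^ (-(1 + 2 * ε))) := by
    have e1 : ∀ δ : ℝ, δ ^ (2 * ε) * (c * Real.exp (-(2 * δ * t))) =
        c * (δ ^ ((1 + 2 * ε) - 1) * Real.exp (-((2 * t) * δ))) := by
      intro δ
      rw [show (1 + 2 * ε) - 1 = 2 * ε by ring, show -((2 * t) * δ) = -(2 * δ * t) by ring]
      ring
    simp_rw [e1]
    rw [integral_const_mul, h1, one_div, Real.inv_rpow (by positivity),
      ← Real.rpow_neg (by positivity), Real.mul_rpow (by norm_num) ht.le]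
    ring
  rw [← hval, ofReal_integral_eq_lintegral_ofReal hint2
    ((ae_restrict_iff' measurableSet_Ioi).2 (ae_of_all _ fun δ hδ => ?_))]
  · exact lintegral_mono_set Set.Ioo_subset_Ioi_self
  · have : (0 : ℝ) < δ := hδ
    positivity

theorem moment_freq {g : ℝ → ℝ} {C t₀ : ℝ} (ht₀ : 0 < t₀) (hg : ∀ t, 0 ≤ g t)
    (hc : ContinuousOn g (Set.Ioi t₀))
    (hi : ∀ δ : ℝ, 0 < δ → IntegrableOn (fun t : ℝ => g t * Real.exp (-(2 * δ * t))) (Set.Ioi t₀))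
    (h : ∀ ε : ℝ, 0 < ε → ε ≤ 1 / 2 → IntegrableOn (fun t : ℝ => g t * t ^ (-(1 + 2 * ε)))
      (Set.Ioi t₀) ∧ ∫ t in Set.Ioi t₀, g t * t ^ (-(1 + 2 * ε)) ≤ C / ε) :
    ∃ C' : ℝ, ∀ δ₁ : ℝ, 0 < δ₁ → ∃ δ : ℝ, 0 < δ ∧ δ < δ₁ ∧
      δ * ∫ t in Set.Ioi t₀, g t * Real.exp (-(2 * δ * t)) ≤ C' := by
  refine ⟨|C| + 1, fun δ₁ hδ₁ => ?_⟩
  by_contra hcon
  push Not at hcon
  have hC0 : 0 ≤ |C| := abs_nonneg _
  -- the main inequality
  have hmain : ∀ ε : ℝ, 0 < ε → ε ≤ 1 / 2 →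
      (|C| + 1) * δ₁ ^ (2 * ε) ≤ 2 * (Real.Gamma (1 + 2 * ε) * 2 ^ (-(1 + 2 * ε)) * |C|) := by
    intro ε hε hε1
    obtain ⟨hint, hle⟩ := h ε hε hε1
    have hG : 0 < Real.Gamma (1 + 2 * ε) := Real.Gamma_pos_of_pos (by linarith)
    have h2 : (0 : ℝ) < 2 ^ (-(1 + 2 * ε)) := Real.rpow_pos_of_pos (by norm_num) _
    -- measurability
    have hgm : AEMeasurable g (volume.restrict (Set.Ioi t₀)) :=
      hc.aemeasurable measurableSet_Ioi
    have hmeas : AEMeasurable (Function.uncurry fun (δ t : ℝ) =>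
        ENNReal.ofReal (δ ^ (2 * ε) * (g t * Real.exp (-(2 * δ * t)))))
        ((volume.restrict (Set.Ioo 0 δ₁)).prod (volume.restrict (Set.Ioi t₀))) := by
      have h1 : AEMeasurable (fun p : ℝ × ℝ => g p.2)
          ((volume.restrict (Set.Ioo 0 δ₁)).prod (volume.restrict (Set.Ioi t₀))) :=
        (hgm.aestronglyMeasurable.comp_snd).aemeasurable
      have h2 : AEMeasurable (fun p : ℝ × ℝ => p.1 ^ (2 * ε))
          ((volume.restrict (Set.Ioo 0 δ₁)).prod (volume.restrict (Set.Ioi t₀))) := by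
        fun_prop
      have h3 : AEMeasurable (fun p : ℝ × ℝ => Real.exp (-(2 * p.1 * p.2)))
          ((volume.restrict (Set.Ioo 0 δ₁)).prod (volume.restrict (Set.Ioi t₀))) := by
        fun_prop
      exact (h2.mul (h1.mul h3)).ennreal_ofReal
    have hswap := lintegral_lintegral_swap hmeas
    -- the upper bound
    have hup : ∫⁻ δ in Set.Ioo 0 δ₁, ∫⁻ t in Set.Ioi t₀,
        ENNReal.ofReal (δ ^ (2 * ε) * (g t * Real.exp (-(2 * δ * t)))) ≤
        ENNReal.ofReal (Real.Gamma (1 + 2 * ε) * 2 ^ (-(1 + 2 * ε)) * (C / ε)) := by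
      rw [hswap]
      calc ∫⁻ t in Set.Ioi t₀, ∫⁻ δ in Set.Ioo 0 δ₁,
            ENNReal.ofReal (δ ^ (2 * ε) * (g t * Real.exp (-(2 * δ * t))))
          ≤ ∫⁻ t in Set.Ioi t₀, ENNReal.ofReal (Real.Gamma (1 + 2 * ε) * 2 ^ (-(1 + 2 * ε)) *
              (g t * t ^ (-(1 + 2 * ε)))) := by
            refine setLIntegral_mono' measurableSet_Ioi fun t ht => ?_
            exact mb_inner hε (ht₀.trans ht) (hg t)
        _ = ENNReal.ofReal (∫ t in Set.Ioi t₀, Real.Gamma (1 + 2 * ε) * 2 ^ (-(1 + 2 * ε)) *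
              (g t * t ^ (-(1 + 2 * ε)))) := by
            rw [ofReal_integral_eq_lintegral_ofReal (Integrable.const_mul hint _)]
            refine (ae_restrict_iff' measurableSet_Ioi).2 (ae_of_all _ fun t ht => ?_)
            have h4 : 0 < t := ht₀.trans ht
            have h5 := hg t
            simp only [Pi.zero_apply]
            positivity
        _ ≤ _ := by
            refine ENNReal.ofReal_le_ofReal ?_
            rw [integral_const_mul]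
            exact mul_le_mul_of_nonneg_left hle (by positivity)
    -- the lower bound
    have hlow : ENNReal.ofReal ((|C| + 1) * (δ₁ ^ (2 * ε) / (2 * ε))) ≤
        ∫⁻ δ in Set.Ioo 0 δ₁, ∫⁻ t in Set.Ioi t₀,
        ENNReal.ofReal (δ ^ (2 * ε) * (g t * Real.exp (-(2 * δ * t)))) := by
      have hii : IntervalIntegrable (fun δ : ℝ => δ ^ (2 * ε - 1)) volume 0 δ₁ :=
        intervalIntegral.intervalIntegrable_rpow' (by linarith)
      have hval : ∫ δ in (0 : ℝ)..δ₁, δ ^ (2 * ε - 1) = δ₁ ^ (2 * ε) / (2 * ε) := by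
        rw [integral_rpow (Or.inl (by linarith)), show 2 * ε - 1 + 1 = 2 * ε by ring,
          Real.zero_rpow (by linarith), sub_zero]
      rw [← hval, intervalIntegral.integral_of_le hδ₁.le, ← integral_const_mul,
        ofReal_integral_eq_lintegral_ofReal (Integrable.const_mul hii.1 _), 
        ← restrict_Ioo_eq_restrict_Ioc]
      · refine setLIntegral_mono' measurableSet_Ioo fun δ hδ => ?_
        have hδ0 : 0 < δ := hδ.1
        rw [← ofReal_integral_eq_lintegral_ofReal]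
        · refine ENNReal.ofReal_le_ofReal ?_
          rw [integral_const_mul]
          have h6 := (hcon δ hδ.1 hδ.2).le
          have h7 : δ ^ (2 * ε) = δ ^ (2 * ε - 1) * δ := by
            rw [← Real.rpow_add_one hδ0.ne']; congr 1; ring
          rw [h7]
          have h8 : 0 < δ ^ (2 * ε - 1) := Real.rpow_pos_of_pos hδ0 _
          calc (|C| + 1) * δ ^ (2 * ε - 1) = δ ^ (2 * ε - 1) * (|C| + 1) := by ring
            _ ≤ δ ^ (2 * ε - 1) * (δ * ∫ t in Set.Ioi t₀, g t * Real.exp (-(2 * δ * t))) :=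
              mul_le_mul_of_nonneg_left h6 h8.le
            _ = _ := by ring
        · exact Integrable.const_mul (hi δ hδ0) _
        · refine ae_of_all _ fun t => ?_
          have h5 := hg t
          simp only [Pi.zero_apply]
          positivity
      · refine (ae_restrict_iff' measurableSet_Ioc).2 (ae_of_all _ fun δ hδ => ?_)
        have hδ0 : 0 < δ := hδ.1
        simp only [Pi.zero_apply]
        positivity
    have hfin := hlow.trans hup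
    have hCe : Real.Gamma (1 + 2 * ε) * 2 ^ (-(1 + 2 * ε)) * (C / ε) ≤
        Real.Gamma (1 + 2 * ε) * 2 ^ (-(1 + 2 * ε)) * (|C| / ε) :=
      mul_le_mul_of_nonneg_left (div_le_div_of_nonneg_right (le_abs_self C) hε.le) (by positivity)
    have hfin2 := (ENNReal.ofReal_le_ofReal_iff (by positivity)).1
      (hfin.trans (ENNReal.ofReal_le_ofReal hCe))
    have e1 : (|C| + 1) * (δ₁ ^ (2 * ε) / (2 * ε)) = ((|C| + 1) * δ₁ ^ (2 * ε) / 2) / ε := by
      field_simp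
    have e2 : Real.Gamma (1 + 2 * ε) * 2 ^ (-(1 + 2 * ε)) * (|C| / ε) =
        (Real.Gamma (1 + 2 * ε) * 2 ^ (-(1 + 2 * ε)) * |C|) / ε := by ring
    rw [e1, e2, div_le_div_iff_of_pos_right hε] at hfin2
    linarith
  -- the limit
  have hl : Tendsto (fun ε : ℝ => (|C| + 1) * δ₁ ^ (2 * ε)) (𝓝[>] 0) (𝓝 ((|C| + 1) * 1)) := by
    have h1 : ContinuousAt (fun ε : ℝ => (|C| + 1) * δ₁ ^ (2 * ε)) 0 := by
      refine ContinuousAt.mul continuousAt_const ?_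
      exact ContinuousAt.rpow continuousAt_const (by fun_prop) (Or.inl hδ₁.ne')
    have h2 := h1.tendsto.mono_left (nhdsWithin_le_nhds (s := Set.Ioi 0))
    simpa using h2
  have hr : Tendsto (fun ε : ℝ => 2 * (Real.Gamma (1 + 2 * ε) * 2 ^ (-(1 + 2 * ε)) * |C|))
      (𝓝[>] 0) (𝓝 (2 * (1 * 2⁻¹ * |C|))) := by
    have h1 : ContinuousAt (fun ε : ℝ => 2 * (Real.Gamma (1 + 2 * ε) * 2 ^ (-(1 + 2 * ε)) * |C|))
        0 := by
      refine ContinuousAt.mul continuousAt_const (ContinuousAt.mul (ContinuousAt.mul ?_ ?_)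
        continuousAt_const)
      · have h3 : ContinuousAt Real.Gamma (1 + 2 * 0) := by
          refine (Real.differentiableAt_Gamma fun m => ?_).continuousAt
          have h3 : (0 : ℝ) ≤ m := Nat.cast_nonneg m
          intro h
          linarith
        exact h3.comp_of_eq (f := fun ε : ℝ => 1 + 2 * ε) (by fun_prop) rfl
      · exact ContinuousAt.rpow continuousAt_const (by fun_prop) (Or.inl (by norm_num))
    have h2 := h1.tendsto.mono_left (nhdsWithin_le_nhds (s := Set.Ioi 0))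
    have h4 : (2 : ℝ) ^ (-(1 + 2 * (0 : ℝ))) = 2⁻¹ := by
      rw [mul_zero, add_zero, Real.rpow_neg_one]
    have h5 : Real.Gamma (1 + 2 * (0 : ℝ)) = 1 := by
      rw [mul_zero, add_zero, Real.Gamma_one]
    rw [h4, h5] at h2
    exact h2
  have hfin := le_of_tendsto_of_tendsto hl hr (by
    filter_upwards [Ioo_mem_nhdsGT (show (0 : ℝ) < 1 / 2 by norm_num)] with ε hε
    exact hmain ε hε.1 hε.2.le)
  linarith

theorem moment_bd {ν : ℂ} (hν : Adm ν) {a : ℕ → ℂ} {Λ Lf : ℂ → ℂ} (h : Pk ν a Λ) {q : ℝ} {c₀ : ℂ}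
    (hq : 0 < q) (hc : c₀ ≠ 0) (hd : Differentiable ℂ Lf)
    (hL : ∀ z : ℂ, 1 / 2 ≤ z.re → Λ z = c₀ * (q : ℂ) ^ z *
        (Gamma (z + ν / 2) * Gamma (z - ν / 2)) * Lf z)
    (hg : ∀ η x y : ℝ, 0 < η → ∃ C : ℝ, ∀ z : ℂ, x ≤ z.re → z.re ≤ y →
        ‖Lf z‖ ≤ C * Real.exp (η * |z.im|))
    {T : ℝ} {w : ℂ} (hw : ‖w‖ = 1)
    (hT : ∀ t : ℝ, T < |t| → (‖Λ (1 / 2 + t * I)‖ : ℂ) = w * Λ (1 / 2 + t * I)) :
    ∃ t₀ C : ℝ, 0 < t₀ ∧ ∀ δ₁ : ℝ, 0 < δ₁ → ∃ δ : ℝ, 0 < δ ∧ δ < δ₁ ∧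
      IntegrableOn (fun t : ℝ => ‖Lf (1 / 2 + t * I)‖ * Real.exp (-(2 * δ * t)))
        (Set.Ioi t₀) ∧
      δ * ∫ t in Set.Ioi t₀, ‖Lf (1 / 2 + t * I)‖ * Real.exp (-(2 * δ * t)) ≤ C := by
  obtain ⟨C, t₁, ht₁, hstar⟩ := h.star T w hw hT
  obtain ⟨Cg, hCg0, hCg⟩ := gamma_up
  set t₀ : ℝ := max (max t₁ |ν.im|) 1 with ht₀
  have h01 : t₁ ≤ t₀ := (le_max_left _ _).trans (le_max_left _ _)
  have h0ν : |ν.im| ≤ t₀ := (le_max_right _ _).trans (le_max_left _ _)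
  have h0one : 1 ≤ t₀ := le_max_right _ _
  have ht₀0 : 0 < t₀ := by linarith
  have hpi := Real.pi_pos
  have hcont : Continuous (fun t : ℝ => ‖Lf (1 / 2 + t * I)‖) := by
    have := hd.continuous
    fun_prop
  -- integrability
  have hi : ∀ δ : ℝ, 0 < δ → IntegrableOn (fun t : ℝ => ‖Lf (1 / 2 + t * I)‖ *
      Real.exp (-(2 * δ * t))) (Set.Ioi t₀) := by
    intro δ hδ
    obtain ⟨B, hB⟩ := hg δ (1 / 2) (1 / 2) hδ
    have h1 : IntegrableOn (fun t : ℝ => B * Real.exp (-δ * t)) (Set.Ioi t₀) :=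
      Integrable.const_mul (exp_neg_integrableOn_Ioi t₀ hδ) B
    refine Integrable.mono' h1 ?_ ?_
    · exact (hcont.mul (by fun_prop)).aestronglyMeasurable
    · refine (ae_restrict_iff' measurableSet_Ioi).2 (ae_of_all _ fun t ht => ?_)
      have ht0 : 0 < t := ht₀0.trans ht
      have h2 := hB (1 / 2 + t * I) (by simp) (by simp)
      have h3 : (1 / 2 + t * I : ℂ).im = t := by simp
      rw [h3, abs_of_pos ht0] at h2
      rw [norm_mul, norm_norm, Real.norm_of_nonneg (Real.exp_pos _).le]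
      calc ‖Lf (1 / 2 + t * I)‖ * Real.exp (-(2 * δ * t))
          ≤ (B * Real.exp (δ * t)) * Real.exp (-(2 * δ * t)) :=
            mul_le_mul_of_nonneg_right h2 (Real.exp_pos _).le
        _ = B * Real.exp (-δ * t) := by
            rw [mul_assoc, ← Real.exp_add]; congr 2; ring
  -- the pointwise bound
  set c₁ : ℝ := ‖c₀‖ * q ^ ((1 : ℝ) / 2) * Real.pi with hc₁
  have hc₁0 : 0 < c₁ := by
    have := norm_pos_iff.2 hc
    have := Real.rpow_pos_of_pos hq ((1 : ℝ) / 2)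
    positivity
  have hpt : ∀ ε t : ℝ, 0 < ε → ε ≤ 1 / 2 → t₀ < t →
      ‖Lf (1 / 2 + t * I)‖ * t ^ (-(1 + 2 * ε)) ≤
        (Cg / c₁) * (‖Λ (1 / 2 + t * I)‖ / ‖Gamma (1 + ε + t * I)‖ ^ 2) := by
    intro ε t hε hε1 ht
    have ht1 : 1 ≤ t := by linarith
    have ht0 : 0 < t := by linarith
    have hG : 0 < ‖Gamma (1 + ε + t * I)‖ :=
      norm_pos_iff.2 (Gamma_ne_zero_of_re_pos (by simp; linarith))
    have h1 := hCg ε t hε hε1 ht1
    have h2 := gamma_low hν (t := t) (by linarith)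
    have h3 : ‖Λ (1 / 2 + t * I)‖ = ‖c₀‖ * q ^ ((1 : ℝ) / 2) *
        ‖Gamma (1 / 2 + t * I + ν / 2) * Gamma (1 / 2 + t * I - ν / 2)‖ *
        ‖Lf (1 / 2 + t * I)‖ := by
      rw [hL (1 / 2 + t * I) (by simp), norm_mul, norm_mul, norm_mul,
        norm_cpow_eq_rpow_re_of_pos hq]
      simp
    have h4 : c₁ * Real.exp (-(Real.pi * t)) * ‖Lf (1 / 2 + t * I)‖ ≤ ‖Λ (1 / 2 + t * I)‖ := by
      rw [h3, hc₁]
      have hx : 0 ≤ ‖c₀‖ * q ^ ((1 : ℝ) / 2) :=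
        mul_nonneg (norm_nonneg _) (Real.rpow_nonneg hq.le _)
      have := mul_le_mul_of_nonneg_left h2 hx
      have := mul_le_mul_of_nonneg_right this (norm_nonneg (Lf (1 / 2 + t * I)))
      calc _ = ‖c₀‖ * q ^ ((1 : ℝ) / 2) * (Real.pi * Real.exp (-(Real.pi * t))) *
            ‖Lf (1 / 2 + t * I)‖ := by ring
        _ ≤ _ := this
    have h5 : t ^ (-(1 + 2 * ε)) * ‖Gamma (1 + ε + t * I)‖ ^ 2 ≤
        Cg * Real.exp (-(Real.pi * t)) := by
      have h6 := mul_le_mul_of_nonneg_left h1 (Real.rpow_nonneg ht0.le (-(1 + 2 * ε)))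
      refine h6.trans (le_of_eq ?_)
      have h7 : t ^ (-(1 + 2 * ε)) * t ^ (1 + 2 * ε) = 1 := by
        rw [← Real.rpow_add ht0]; simp
      calc _ = Cg * (t ^ (-(1 + 2 * ε)) * t ^ (1 + 2 * ε)) * Real.exp (-(Real.pi * t)) := by ring
        _ = _ := by rw [h7]; ring
    have h8 : Cg / c₁ * (‖Λ (1 / 2 + t * I)‖ / ‖Gamma (1 + ε + t * I)‖ ^ 2) =
        (Cg * ‖Λ (1 / 2 + t * I)‖) / (c₁ * ‖Gamma (1 + ε + t * I)‖ ^ 2) := by
      field_simp
    rw [h8, le_div_iff₀ (by positivity)]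
    calc ‖Lf (1 / 2 + t * I)‖ * t ^ (-(1 + 2 * ε)) * (c₁ * ‖Gamma (1 + ε + t * I)‖ ^ 2)
        = (t ^ (-(1 + 2 * ε)) * ‖Gamma (1 + ε + t * I)‖ ^ 2) * (c₁ * ‖Lf (1 / 2 + t * I)‖) := by
          ring
      _ ≤ (Cg * Real.exp (-(Real.pi * t))) * (c₁ * ‖Lf (1 / 2 + t * I)‖) :=
          mul_le_mul_of_nonneg_right h5 (by positivity)
      _ = Cg * (c₁ * Real.exp (-(Real.pi * t)) * ‖Lf (1 / 2 + t * I)‖) := by ring
      _ ≤ Cg * ‖Λ (1 / 2 + t * I)‖ := mul_le_mul_of_nonneg_left h4 hCg0.le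
  have hlog : ∀ ε : ℝ, 0 < ε → ε ≤ 1 / 2 →
      IntegrableOn (fun t : ℝ => ‖Lf (1 / 2 + t * I)‖ * t ^ (-(1 + 2 * ε))) (Set.Ioi t₀) ∧
      ∫ t in Set.Ioi t₀, ‖Lf (1 / 2 + t * I)‖ * t ^ (-(1 + 2 * ε)) ≤ (Cg / c₁ * C) / ε := by
    intro ε hε hε1
    obtain ⟨hI, hle⟩ := hstar ε hε hε1
    have hI2 : IntegrableOn (fun t : ℝ => ‖Λ (1 / 2 + t * I)‖ / ‖Gamma (1 + ε + t * I)‖ ^ 2)
        (Set.Ioi t₀) := hI.mono_set (Set.Ioi_subset_Ioi h01)
    have hI3 : IntegrableOn (fun t : ℝ => Cg / c₁ *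
        (‖Λ (1 / 2 + t * I)‖ / ‖Gamma (1 + ε + t * I)‖ ^ 2)) (Set.Ioi t₀) :=
      Integrable.const_mul hI2 _
    have hI4 : IntegrableOn (fun t : ℝ => ‖Lf (1 / 2 + t * I)‖ * t ^ (-(1 + 2 * ε)))
        (Set.Ioi t₀) := by
      refine Integrable.mono' hI3 ?_ ?_
      · refine ContinuousOn.aestronglyMeasurable ?_ measurableSet_Ioi
        refine hcont.continuousOn.mul ?_
        exact continuousOn_id.rpow_const fun t ht => Or.inl (ht₀0.trans ht).ne'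
      · refine (ae_restrict_iff' measurableSet_Ioi).2 (ae_of_all _ fun t ht => ?_)
        have ht0 : 0 < t := ht₀0.trans ht
        rw [norm_mul, norm_norm, Real.norm_of_nonneg (Real.rpow_nonneg ht0.le _)]
        exact hpt ε t hε hε1 ht
    refine ⟨hI4, ?_⟩
    calc ∫ t in Set.Ioi t₀, ‖Lf (1 / 2 + t * I)‖ * t ^ (-(1 + 2 * ε))
        ≤ ∫ t in Set.Ioi t₀, Cg / c₁ * (‖Λ (1 / 2 + t * I)‖ / ‖Gamma (1 + ε + t * I)‖ ^ 2) :=
          setIntegral_mono_on hI4 hI3 measurableSet_Ioi fun t ht => hpt ε t hε hε1 ht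
      _ = Cg / c₁ * ∫ t in Set.Ioi t₀, ‖Λ (1 / 2 + t * I)‖ / ‖Gamma (1 + ε + t * I)‖ ^ 2 :=
          integral_const_mul _ _
      _ ≤ Cg / c₁ * (C / ε) := by
          refine mul_le_mul_of_nonneg_left (le_trans ?_ hle) (by positivity)
          refine setIntegral_mono_set hI (ae_of_all _ fun t => ?_)
            (Set.Ioi_subset_Ioi h01).eventuallyLE
          simp only [Pi.zero_apply]
          positivity
      _ = _ := by ring
  obtain ⟨C', hC'⟩ := moment_freq ht₀0 (fun t => norm_nonneg _) hcont.continuousOn hi hlog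
  refine ⟨t₀, C', ht₀0, fun δ₁ hδ₁ => ?_⟩
  obtain ⟨δ, h0, h1, h2⟩ := hC' δ₁ hδ₁
  exact ⟨δ, h0, h1, hi δ h0, h2⟩

end Pool.Agent.HB
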