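import Pool.Agent.Lib_helper98.H4F.LI
import Pool.Agent.Lib_helper98.H4F.SG
import Pool.Agent.Lib_helper99.HB.Defs
import Pool.Agent.Lib_helper99.HBF.LF
import Pool.Agent.Lib_helper99.HBF.MB

/-! Hardy's theorem over imaginary quadratic fields, block FX: `fun_bd` (by helper14, adapted from
Lib_helper98/H4F/FX.lean). Uses `l_exists` (LF) and `moment_bd` (MB). -/

namespace Pool.Agent.HB

open Complex MeasureTheory Filter Topology
open Pool.Agent.H4 (ml atl FunBd vcf)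

theorem fx_ne {ν : ℂ} (hν : Adm ν) {a : ℕ → ℂ} {Λ Lf : ℂ → ℂ} (ha : a 1 ≠ 0)
    {A q : ℝ} {c₀ : ℂ} (hq : 0 < q) (hc : c₀ ≠ 0) (hs : LSeriesSummable a A)
    (hLf : ∀ z : ℂ, A ≤ z.re → Lf z = LSeries a z)
    (hL : ∀ z : ℂ, 1 / 2 ≤ z.re → Λ z = c₀ * (q : ℂ) ^ z *
        (Gamma (z + ν / 2) * Gamma (z - ν / 2)) * Lf z) :
    ∃ s, Λ s ≠ 0 := by
  have h1 := LSeries.tendsto_atTop (f := a)
    (lt_of_le_of_lt hs.abscissaOfAbsConv_le (EReal.coe_lt_top _))
  have h2 : ∀ᶠ x : ℝ in atTop, LSeries a x ≠ 0 := h1.eventually_ne ha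
  obtain ⟨x, hx1, hx2, hx3⟩ :=
    (h2.and ((eventually_ge_atTop A).and (eventually_ge_atTop (1 : ℝ)))).exists
  have hre : |(ν / 2).re| < 1 := by
    have h3 : (ν / 2).re = ν.re / 2 := by
      rw [show (2 : ℂ) = ((2 : ℝ) : ℂ) by norm_num, Complex.div_ofReal_re]
    rw [h3]
    rcases hν with h | ⟨-, h⟩
    · rw [h]
      norm_num
    · rw [abs_lt] at h ⊢
      constructor <;> linarith [h.1, h.2]
  rw [abs_lt] at hre
  refine ⟨x, ?_⟩
  rw [hL x (by rw [ofReal_re]; linarith), hLf x (by simpa using hx2)]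
  refine mul_ne_zero (mul_ne_zero (mul_ne_zero hc ?_) (mul_ne_zero ?_ ?_)) hx1
  · rw [← norm_pos_iff, Complex.norm_cpow_eq_rpow_re_of_pos hq]
    positivity
  · apply Complex.Gamma_ne_zero_of_re_pos
    rw [add_re, ofReal_re]
    linarith [hre.1]
  · apply Complex.Gamma_ne_zero_of_re_pos
    rw [sub_re, ofReal_re]
    linarith [hre.2]

/-- the abstract last step -/
theorem fx_main {a : ℕ → ℂ} {Lf : ℂ → ℂ} (hLc : Continuous Lf) {t₀ C : ℝ} {δ : ℕ → ℝ}
    (hδ : ∀ m, 0 < δ m) (hδ0 : Tendsto δ atTop (𝓝 0))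
    (hm : ∀ m, IntegrableOn (fun t : ℝ => ‖Lf (1 / 2 + t * I)‖ * Real.exp (-(2 * δ m * t)))
        (Set.Ioi t₀) ∧
      δ m * ∫ t in Set.Ioi t₀, ‖Lf (1 / 2 + t * I)‖ * Real.exp (-(2 * δ m * t)) ≤ C)
    (hlim : ∀ r : ℝ, 0 < r → Tendsto (fun δ : ℝ => (δ : ℂ) * ∫ t in Set.Ioi t₀,
      Lf (1 / 2 + t * I) * cexp ((t * Real.log r : ℝ) * I) *
        ((Real.exp (-(2 * δ * t)) : ℝ) : ℂ)) (𝓝[>] 0) (𝓝 ((2 : ℂ)⁻¹ * atl a r))) :
    FunBd a (2 * C) := by
  intro ι _ b r B hb hr hB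
  -- the terms
  set F : ℕ → ι → ℝ → ℂ := fun m j t => b j * (Lf (1 / 2 + t * I) *
    cexp ((t * Real.log (r j) : ℝ) * I) * ((Real.exp (-(2 * δ m * t)) : ℝ) : ℂ)) with hF
  have hnorm : ∀ m, ∀ j, ∀ t : ℝ, ‖F m j t‖ =
      ‖b j‖ * (‖Lf (1 / 2 + t * I)‖ * Real.exp (-(2 * δ m * t))) := by
    intro m j t
    simp only [hF]
    rw [norm_mul, norm_mul, norm_mul, Complex.norm_real,
      Complex.norm_exp_ofReal_mul_I, Real.norm_of_nonneg (Real.exp_nonneg _), mul_one]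
  have hmeas : ∀ m, ∀ j, AEStronglyMeasurable (F m j) (volume.restrict (Set.Ioi t₀)) := by
    intro m j
    apply Continuous.aestronglyMeasurable
    simp only [hF]
    fun_prop
  have hint : ∀ m, ∀ j, Integrable (F m j) (volume.restrict (Set.Ioi t₀)) := by
    intro m j
    refine Integrable.mono' (((hm m).1).const_mul ‖b j‖) (hmeas m j) ?_
    exact Filter.Eventually.of_forall (fun t => (hnorm m j t).le)
  have hintn : ∀ m, ∀ j, ∫ t in Set.Ioi t₀, ‖F m j t‖ = ‖b j‖ *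
      ∫ t in Set.Ioi t₀, ‖Lf (1 / 2 + t * I)‖ * Real.exp (-(2 * δ m * t)) := by
    intro m j
    rw [← integral_const_mul]
    exact integral_congr_ae (Filter.Eventually.of_forall (fun t => hnorm m j t))
  have hI0 : ∀ m, 0 ≤ ∫ t in Set.Ioi t₀, ‖Lf (1 / 2 + t * I)‖ * Real.exp (-(2 * δ m * t)) :=
    fun m => integral_nonneg (fun t => by positivity)
  have hC0 : 0 ≤ C := (mul_nonneg (hδ 0).le (hI0 0)).trans (hm 0).2
  have hB0 : 0 ≤ B := (norm_nonneg _).trans (hB 0)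
  -- exchange of sum and integral
  have hswap : ∀ m, ∑' j, (δ m : ℂ) * ∫ t in Set.Ioi t₀, F m j t =
      (δ m : ℂ) * ∫ t in Set.Ioi t₀, ∑' j, F m j t := by
    intro m
    have h2 := hasSum_integral_of_summable_integral_norm (μ := volume.restrict (Set.Ioi t₀))
      (F := F m) (hint m) (by
        simp only [hintn]
        exact hb.mul_right _)
    rw [tsum_mul_left, h2.tsum_eq]
  have hbd : ∀ m, ‖∑' j, (δ m : ℂ) * ∫ t in Set.Ioi t₀, F m j t‖ ≤ B * C := by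
    intro m
    rw [hswap m, norm_mul, Complex.norm_real, Real.norm_of_nonneg (hδ m).le]
    have h3 : ‖∫ t in Set.Ioi t₀, ∑' j, F m j t‖ ≤ ∫ t in Set.Ioi t₀,
        B * (‖Lf (1 / 2 + t * I)‖ * Real.exp (-(2 * δ m * t))) := by
      refine norm_integral_le_of_norm_le (((hm m).1).const_mul B) ?_
      refine Filter.Eventually.of_forall (fun t => ?_)
      have h4 : ∑' j, F m j t = (Lf (1 / 2 + t * I) *
          ((Real.exp (-(2 * δ m * t)) : ℝ) : ℂ)) *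
            ∑' j, b j * cexp ((t * Real.log (r j) : ℝ) * I) := by
        rw [← tsum_mul_left]
        refine tsum_congr (fun j => ?_)
        simp only [hF]
        ring
      rw [h4, norm_mul, norm_mul, Complex.norm_real,
        Real.norm_of_nonneg (Real.exp_nonneg _), mul_comm]
      exact mul_le_mul_of_nonneg_right (hB t) (by positivity)
    rw [integral_const_mul] at h3
    calc δ m * ‖∫ t in Set.Ioi t₀, ∑' j, F m j t‖
        ≤ δ m * (B * ∫ t in Set.Ioi t₀, ‖Lf (1 / 2 + t * I)‖ *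
            Real.exp (-(2 * δ m * t))) := mul_le_mul_of_nonneg_left h3 (hδ m).le
      _ = B * (δ m * ∫ t in Set.Ioi t₀, ‖Lf (1 / 2 + t * I)‖ *
            Real.exp (-(2 * δ m * t))) := by ring
      _ ≤ B * C := mul_le_mul_of_nonneg_left (hm m).2 hB0
  -- the limit
  have hδ' : Tendsto δ atTop (𝓝[>] 0) :=
    tendsto_nhdsWithin_iff.2 ⟨hδ0, Filter.Eventually.of_forall hδ⟩
  have hlim2 : Tendsto (fun m : ℕ => ∑' j, (δ m : ℂ) * ∫ t in Set.Ioi t₀, F m j t) atTop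
      (𝓝 (∑' j, b j * ((2 : ℂ)⁻¹ * atl a (r j)))) := by
    refine tendsto_tsum_of_dominated_convergence (bound := fun j => ‖b j‖ * C)
      (hb.mul_right C) ?_ ?_
    · intro j
      have h3 := ((hlim (r j) (hr j)).comp hδ').const_mul (b j)
      refine h3.congr (fun m => ?_)
      simp only [hF, Function.comp_apply]
      rw [integral_const_mul]
      ring
    · refine Filter.Eventually.of_forall (fun m j => ?_)
      rw [norm_mul, Complex.norm_real, Real.norm_of_nonneg (hδ m).le]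
      calc δ m * ‖∫ t in Set.Ioi t₀, F m j t‖ ≤ δ m * ∫ t in Set.Ioi t₀, ‖F m j t‖ :=
            mul_le_mul_of_nonneg_left (norm_integral_le_integral_norm _) (hδ m).le
        _ = ‖b j‖ * (δ m * ∫ t in Set.Ioi t₀, ‖Lf (1 / 2 + t * I)‖ *
            Real.exp (-(2 * δ m * t))) := by
            rw [hintn]
            ring
        _ ≤ ‖b j‖ * C := mul_le_mul_of_nonneg_left (hm m).2 (norm_nonneg _)
  have hfin : ‖∑' j, b j * ((2 : ℂ)⁻¹ * atl a (r j))‖ ≤ B * C :=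
    le_of_tendsto hlim2.norm (Filter.Eventually.of_forall hbd)
  have hre : ∑' j, b j * ((2 : ℂ)⁻¹ * atl a (r j)) = (2 : ℂ)⁻¹ * ∑' j, b j * atl a (r j) := by
    rw [← tsum_mul_left]
    refine tsum_congr (fun j => ?_)
    ring
  rw [hre, norm_mul, norm_inv, Complex.norm_ofNat] at hfin
  linarith

theorem fun_bd {ν : ℂ} (hν : Adm ν) {a : ℕ → ℂ} {Λ : ℂ → ℂ} (h : Pk ν a Λ) (ha : a 1 ≠ 0)
    {T : ℝ} (hT : ∀ t : ℝ, T < t → ¬ Odd (analyticOrderNatAt Λ (1 / 2 + t * I))) :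
    ∃ C : ℝ, FunBd a C := by
  obtain ⟨Lf, A, q, c₀, hq, hc, hA, hd, hs, hLf, hL, hg⟩ := l_exists hν h
  obtain ⟨σ, hσ, hsig⟩ := Pool.Agent.H4.sign_const h.diff (fx_ne hν ha hq hc hs hLf hL)
    (one_ne_zero (α := ℂ)) (fun t => by rw [one_mul]; exact h.real t) hT
  have hsig' : ∀ t : ℝ, T < |t| → (‖Λ (1 / 2 + t * I)‖ : ℂ) = σ * Λ (1 / 2 + t * I) := by
    intro t ht
    rcases abs_cases t with ⟨h1, -⟩ | ⟨h1, -⟩
    · rw [h1] at ht
      exact hsig t ht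
    · rw [h1] at ht
      have h2 := hsig (-t) ht
      have h3 : Λ (1 / 2 + ((-t : ℝ) : ℂ) * I) = Λ (1 / 2 + t * I) := by
        rw [← h.even]
        congr 1
        push_cast
        ring
      rwa [h3] at h2
  obtain ⟨t₀, C, ht₀, hm⟩ := moment_bd hν h hq hc hd hL hg hσ hsig'
  choose δ hδ1 hδ2 hδ3 hδ4 using fun m : ℕ => hm (1 / ((m : ℝ) + 1)) (by positivity)
  have hδ0 : Tendsto δ atTop (𝓝 0) :=
    squeeze_zero (fun m => (hδ1 m).le) (fun m => (hδ2 m).le) tendsto_one_div_add_atTop_nhds_zero_nat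
  refine ⟨_, fx_main hd.continuous hδ1 hδ0 (fun m => ⟨hδ3 m, hδ4 m⟩) (fun r hr => ?_)⟩
  have h5 := Pool.Agent.H4.moment_lim (k := 1) le_rfl hd hA hs hLf hg ht₀ hr
  simpa using h5

end Pool.Agent.HB
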