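import Pool.Agent.Lib_helper99.HB.Defs

/-!
# Hardy over imaginary quadratic fields: block AC (helper99), the action
-/

namespace Pool.Agent.HB

open NumberField Complex MeasureTheory
open scoped MatrixGroups ENNReal

variable {K : Type} [Field K] [NumberField K]

/-- the Hermitian form `x H_P x^*` -/
noncomputable def ac_q (P : H3) (c d : ℂ) : ℝ :=
  (normSq (c * P.1.1 + d) + normSq c * P.1.2 ^ 2) / P.1.2

theorem ac_den (g : SL(2, ℂ)) (P : H3) : den g P = ac_q P (g 1 0) (g 1 1) * P.1.2 := by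
  have hP : P.1.2 ≠ 0 := P.2.ne'
  unfold den ac_q
  field_simp

theorem ac_y (g : SL(2, ℂ)) (P : H3) : (actC g P).1.2 = 1 / ac_q P (g 1 0) (g 1 1) := by
  have hP : P.1.2 ≠ 0 := P.2.ne'
  have h : (actC g P).1.2 = P.1.2 / den g P := rfl
  have hd := (den_pos g P).ne'
  have hq : ac_q P (g 1 0) (g 1 1) ≠ 0 := by
    intro h0
    apply hd
    rw [ac_den, h0, zero_mul]
  rw [h, ac_den]
  field_simp

theorem ac_key (a b c d z γ δ a' b' c' d' z' γ' δ' y : ℂ) (h : a * d - b * c = 1)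
    (h' : a' * d' - b' * c' = 1) :
    (γ * ((a * z + b) * (c' * z' + d') + a * c' * y ^ 2) +
        δ * ((c * z + d) * (c' * z' + d') + c * c' * y ^ 2)) *
      (γ' * ((a' * z' + b') * (c * z + d) + a' * c * y ^ 2) +
        δ' * ((c * z + d) * (c' * z' + d') + c * c' * y ^ 2)) + γ * γ' * y ^ 2 =
      ((c * z + d) * (c' * z' + d') + c * c' * y ^ 2) *
        (((γ * a + δ * c) * z + (γ * b + δ * d)) * ((γ' * a' + δ' * c') * z' + (γ' * b' + δ' * d')) +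
          (γ * a + δ * c) * (γ' * a' + δ' * c') * y ^ 2) := by
  linear_combination (-(γ * γ' * y ^ 2) * (a' * d' - b' * c')) * h - (γ * γ' * y ^ 2) * h'

theorem ac_act (g : SL(2, ℂ)) (P : H3) (c d : ℂ) : ac_q (actC g P) c d =
    ac_q P (c * g 0 0 + d * g 1 0) (c * g 0 1 + d * g 1 1) := by
  have hP : P.1.2 ≠ 0 := P.2.ne'
  have hd := (den_pos g P).ne'
  have hdet : g 0 0 * g 1 1 - g 0 1 * g 1 0 = 1 := by
    have h := g.det_coe
    rwa [Matrix.det_fin_two] at h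
  have hdet' : (starRingEnd ℂ) (g 0 0) * (starRingEnd ℂ) (g 1 1) -
      (starRingEnd ℂ) (g 0 1) * (starRingEnd ℂ) (g 1 0) = 1 := by
    rw [← map_mul, ← map_mul, ← map_sub, hdet, map_one]
  have hk := ac_key (g 0 0) (g 0 1) (g 1 0) (g 1 1) P.1.1 c d ((starRingEnd ℂ) (g 0 0))
    ((starRingEnd ℂ) (g 0 1)) ((starRingEnd ℂ) (g 1 0)) ((starRingEnd ℂ) (g 1 1))
    ((starRingEnd ℂ) P.1.1) ((starRingEnd ℂ) c) ((starRingEnd ℂ) d) (P.1.2 : ℂ) hdet hdet'
  have hden : ((den g P : ℝ) : ℂ) = (g 1 0 * P.1.1 + g 1 1) *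
      ((starRingEnd ℂ) (g 1 0) * (starRingEnd ℂ) P.1.1 + (starRingEnd ℂ) (g 1 1)) +
      g 1 0 * (starRingEnd ℂ) (g 1 0) * (P.1.2 : ℂ) ^ 2 := by
    unfold den
    push_cast
    rw [← Complex.mul_conj, ← Complex.mul_conj, map_add, map_mul]
  have hN : (starRingEnd ℂ) ((den g P : ℝ) : ℂ) = ((den g P : ℝ) : ℂ) := Complex.conj_ofReal _
  have hdC : ((den g P : ℝ) : ℂ) ≠ 0 := by exact_mod_cast hd
  have hPC : ((P.1.2 : ℝ) : ℂ) ≠ 0 := by exact_mod_cast hP
  have e1 : (actC g P).1.2 = P.1.2 / den g P := rfl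
  have e2 : (actC g P).1.1 = ((g 0 0 * P.1.1 + g 0 1) * (starRingEnd ℂ) (g 1 0 * P.1.1 + g 1 1) +
      g 0 0 * (starRingEnd ℂ) (g 1 0) * ((P.1.2 ^ 2 : ℝ) : ℂ)) / ((den g P : ℝ) : ℂ) := rfl
  have hcast : ((ac_q (actC g P) c d : ℝ) : ℂ) =
      ((ac_q P (c * g 0 0 + d * g 1 0) (c * g 0 1 + d * g 1 1) : ℝ) : ℂ) := by
    unfold ac_q
    rw [e1, e2]
    push_cast
    simp only [← Complex.mul_conj, map_add, map_mul, map_div₀, map_pow, Complex.conj_ofReal,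
      Complex.conj_conj]
    rw [← hden] at hk
    field_simp
    linear_combination hk
  exact_mod_cast hcast

theorem ac_inj {P P' : H3} (h : ∀ c d : ℂ, ac_q P c d = ac_q P' c d) : P = P' := by
  have hP : P.1.2 ≠ 0 := P.2.ne'
  have hP' : P'.1.2 ≠ 0 := P'.2.ne'
  have h1 := h 0 1
  unfold ac_q at h1
  simp only [zero_mul, zero_add, map_one, map_zero, add_zero] at h1
  have hy : P.1.2 = P'.1.2 := by
    field_simp at h1
    exact h1.symm
  have h2 := h 1 (-P.1.1)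
  unfold ac_q at h2
  simp only [one_mul, add_neg_cancel, map_zero, map_one, zero_add] at h2
  rw [← hy] at h2
  have h3 : normSq (P'.1.1 + -P.1.1) = 0 := by
    field_simp at h2
    linarith
  have h4 := Complex.normSq_eq_zero.1 h3
  have hz : P.1.1 = P'.1.1 := by linear_combination -h4
  exact Subtype.ext (Prod.ext hz hy)

theorem actC_mul (g g' : SL(2, ℂ)) (P : H3) : actC (g * g') P = actC g (actC g' P) := by
  refine ac_inj fun c d => ?_
  rw [ac_act, ac_act, ac_act]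
  have e : ∀ i j : Fin 2, (g * g') i j = g i 0 * g' 0 j + g i 1 * g' 1 j := by
    intro i j
    rw [Matrix.SpecialLinearGroup.coe_mul, Matrix.mul_apply, Fin.sum_univ_two]
  rw [e, e, e, e]
  congr 1 <;> ring

theorem act_mul (s : 𝓞 K →+* ℂ) (γ γ' : SL(2, 𝓞 K)) (P : H3) :
    act s (γ * γ') P = act s γ (act s γ' P) := by
  unfold act
  rw [map_mul, actC_mul]

theorem act_one (s : 𝓞 K →+* ℂ) (P : H3) : act s 1 P = P := by
  unfold act
  rw [map_one]
  refine ac_inj fun c d => ?_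
  rw [ac_act]
  congr 1 <;> simp

theorem ac_qq (s : 𝓞 K →+* ℂ) (P : H3) (x : 𝓞 K × 𝓞 K) : qq s P x = ac_q P (s x.1) (s x.2) := rfl

theorem ac_map (s : 𝓞 K →+* ℂ) (γ : SL(2, 𝓞 K)) (i j : Fin 2) :
    Matrix.SpecialLinearGroup.map s γ i j = s (γ i j) := rfl

theorem act_y (s : 𝓞 K →+* ℂ) (γ : SL(2, 𝓞 K)) (P : H3) :
    (act s γ P).1.2 = 1 / qq s P (γ 1 0, γ 1 1) := by
  unfold act
  rw [ac_y, ac_qq, ac_map, ac_map]

theorem qq_act (s : 𝓞 K →+* ℂ) (γ : SL(2, 𝓞 K)) (P : H3) (x : 𝓞 K × 𝓞 K) :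
    qq s (act s γ P) x = qq s P (x.1 * γ 0 0 + x.2 * γ 1 0, x.1 * γ 0 1 + x.2 * γ 1 1) := by
  rw [ac_qq, ac_qq]
  unfold act
  rw [ac_act, ac_map, ac_map, ac_map, ac_map]
  simp only [map_add, map_mul]

/-- the bijection `x ↦ x γ` of `𝓞 × 𝓞` -/
def ac_row (γ : SL(2, 𝓞 K)) : (𝓞 K × 𝓞 K) ≃ (𝓞 K × 𝓞 K) where
  toFun x := (x.1 * γ 0 0 + x.2 * γ 1 0, x.1 * γ 0 1 + x.2 * γ 1 1)
  invFun x := (x.1 * γ 1 1 - x.2 * γ 1 0, -(x.1 * γ 0 1) + x.2 * γ 0 0)
  left_inv x := by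
    have h := γ.det_coe
    rw [Matrix.det_fin_two] at h
    refine Prod.ext ?_ ?_
    · change (x.1 * γ 0 0 + x.2 * γ 1 0) * γ 1 1 - (x.1 * γ 0 1 + x.2 * γ 1 1) * γ 1 0 = x.1
      linear_combination x.1 * h
    · change -((x.1 * γ 0 0 + x.2 * γ 1 0) * γ 0 1) + (x.1 * γ 0 1 + x.2 * γ 1 1) * γ 0 0 = x.2
      linear_combination x.2 * h
  right_inv x := by
    have h := γ.det_coe
    rw [Matrix.det_fin_two] at h
    refine Prod.ext ?_ ?_
    · change (x.1 * γ 1 1 - x.2 * γ 1 0) * γ 0 0 + (-(x.1 * γ 0 1) + x.2 * γ 0 0) * γ 1 0 = x.1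
      linear_combination x.1 * h
    · change (x.1 * γ 1 1 - x.2 * γ 1 0) * γ 0 1 + (-(x.1 * γ 0 1) + x.2 * γ 0 0) * γ 1 1 = x.2
      linear_combination x.2 * h

theorem th_act (s : 𝓞 K →+* ℂ) (γ : SL(2, 𝓞 K)) (t : ℝ) (P : H3) :
    th s t (act s γ P) = th s t P := by
  unfold th
  rw [← (ac_row γ).tsum_eq (fun x => Real.exp (-(Real.pi * (t * qq s P x))))]
  refine tsum_congr fun x => ?_
  rw [qq_act]
  rfl

theorem box_meas (s : 𝓞 K →+* ℂ) (b : Fin 2 → 𝓞 K) : MeasurableSet (Box s b) := by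
  have h1 : Measurable (fun P : H3 => P.1.1.re) :=
    Complex.measurable_re.comp (measurable_fst.comp measurable_subtype_coe)
  have h2 : Measurable (fun P : H3 => P.1.1.im) :=
    Complex.measurable_im.comp (measurable_fst.comp measurable_subtype_coe)
  have hu : Measurable (cu s b) := by
    unfold cu
    exact ((h1.mul_const _).sub (h2.mul_const _)).div_const _
  have hv : Measurable (cv s b) := by
    unfold cv
    exact ((h2.mul_const _).sub (h1.mul_const _)).div_const _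
  exact (hu measurableSet_Ico).inter (hv measurableSet_Ico)

end Pool.Agent.HB
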