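import Pool.Agent.Lib_helper99.HB.Defs
import Pool.Agent.Lib_helper99.HBF.AC

/-!
# Hardy over imaginary quadratic fields: block AM (helper99), the invariance of the measure
-/

namespace Pool.Agent.HB

open NumberField Complex MeasureTheory
open scoped MatrixGroups ENNReal

variable {K : Type} [Field K] [NumberField K]

/-- coordinates -/
noncomputable def am_e : (ℂ × ℝ) ≃ₗ[ℝ] (Fin 3 → ℝ) where
  toFun p := ![p.1.re, p.1.im, p.2]
  map_add' p q := by
    ext i
    fin_cases i <;> simp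
  map_smul' r p := by
    ext i
    fin_cases i <;> simp
  invFun v := (⟨v 0, v 1⟩, v 2)
  left_inv p := by simp
  right_inv v := by
    ext i
    fin_cases i <;> simp

theorem am_det (f : (ℂ × ℝ) →L[ℝ] (ℂ × ℝ)) : f.det =
    Matrix.det !![(f (1, 0)).1.re, (f (I, 0)).1.re, (f (0, 1)).1.re;
      (f (1, 0)).1.im, (f (I, 0)).1.im, (f (0, 1)).1.im;
      (f (1, 0)).2, (f (I, 0)).2, (f (0, 1)).2] := by
  have h1 : f.det = LinearMap.det (f : (ℂ × ℝ) →ₗ[ℝ] (ℂ × ℝ)) := rfl
  rw [h1, ← LinearMap.det_conj _ am_e, ← LinearMap.det_toMatrix']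
  congr 1
  have e0 : am_e.symm (Pi.single 0 1) = (1, 0) := by
    apply am_e.injective
    rw [LinearEquiv.apply_symm_apply]
    ext i
    fin_cases i <;> simp [am_e]
  have e1 : am_e.symm (Pi.single 1 1) = (I, 0) := by
    apply am_e.injective
    rw [LinearEquiv.apply_symm_apply]
    ext i
    fin_cases i <;> simp [am_e]
  have e2 : am_e.symm (Pi.single 2 1) = (0, 1) := by
    apply am_e.injective
    rw [LinearEquiv.apply_symm_apply]
    ext i
    fin_cases i <;> simp [am_e]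
  ext i j
  rw [LinearMap.toMatrix'_apply]
  have hj : (fun j' => if j' = j then (1 : ℝ) else 0) = Pi.single j 1 := by
    ext k
    simp [Pi.single_apply]
  fin_cases j
  · fin_cases i <;> simp [LinearMap.comp_apply, e0] <;> simp [am_e]
  · fin_cases i <;> simp [LinearMap.comp_apply, e1] <;> simp [am_e]
  · fin_cases i <;> simp [LinearMap.comp_apply, e2] <;> simp [am_e]

/-- the density -/
noncomputable def am_w (p : ℂ × ℝ) : ℝ≥0∞ := ENNReal.ofReal (1 / p.2 ^ 3)

theorem am_wm : Measurable am_w := by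
  unfold am_w
  exact (measurable_const.div (measurable_snd.pow_const 3)).ennreal_ofReal

theorem am_U : MeasurableSet {p : ℂ × ℝ | 0 < p.2} :=
  measurableSet_lt measurable_const measurable_snd

theorem am_img {A : Set H3} (hA : MeasurableSet A) :
    MeasurableSet ((Subtype.val : H3 → ℂ × ℝ) '' A) :=
  (MeasurableEmbedding.subtype_coe am_U).measurableSet_image.2 hA

theorem am_set {A : Set H3} (hA : MeasurableSet A) :
    mu A = ∫⁻ p in (Subtype.val : H3 → ℂ × ℝ) '' A, am_w p := by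
  unfold mu
  rw [withDensity_apply _ hA, ← lintegral_indicator hA]
  have h1 : (fun P : H3 => A.indicator (fun P : H3 => ENNReal.ofReal (1 / P.1.2 ^ 3)) P) =
      fun P : H3 => (((Subtype.val : H3 → ℂ × ℝ) '' A).indicator am_w) P.1 := by
    funext P
    by_cases hP : P ∈ A
    · rw [Set.indicator_of_mem hP, Set.indicator_of_mem (Set.mem_image_of_mem _ hP)]
      rfl
    · rw [Set.indicator_of_notMem hP, Set.indicator_of_notMem]
      rintro ⟨Q, hQ, hQP⟩
      exact hP (Subtype.ext hQP ▸ hQ)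
  rw [h1]
  refine (lintegral_subtype_comap am_U
    (fun p => ((Subtype.val : H3 → ℂ × ℝ) '' A).indicator am_w p)).trans ?_
  rw [← lintegral_indicator am_U, ← lintegral_indicator (am_img hA)]
  refine lintegral_congr fun p => ?_
  by_cases hp : p ∈ (Subtype.val : H3 → ℂ × ℝ) '' A
  · have hU : p ∈ {p : ℂ × ℝ | 0 < p.2} := by
      obtain ⟨Q, hQ, rfl⟩ := hp
      exact Q.2
    rw [Set.indicator_of_mem hU]
  · rw [Set.indicator_of_notMem hp]
    by_cases hU : p ∈ {p : ℂ × ℝ | 0 < p.2}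
    · rw [Set.indicator_of_mem hU, Set.indicator_of_notMem hp]
    · rw [Set.indicator_of_notMem hU]

theorem am_gen {φ : ℂ × ℝ → ℂ × ℝ} {φ' : ℂ × ℝ → (ℂ × ℝ) →L[ℝ] (ℂ × ℝ)} {Φ : H3 → H3}
    (hm : Measurable Φ) (hΦ : ∀ P, (Φ P).1 = φ P.1) (hb : Function.Bijective Φ)
    (hd : ∀ p, 0 < p.2 → HasFDerivAt φ (φ' p) p)
    (hdet : ∀ p, 0 < p.2 → |(φ' p).det| = (φ p).2 ^ 3 / p.2 ^ 3) : MeasurePreserving Φ mu mu := by
  refine ⟨hm, ?_⟩
  ext A hA
  rw [Measure.map_apply hm hA, am_set (hm hA), am_set hA]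
  set s : Set (ℂ × ℝ) := (Subtype.val : H3 → ℂ × ℝ) '' (Φ ⁻¹' A) with hs
  have hsm : MeasurableSet s := am_img (hm hA)
  have hsU : ∀ p ∈ s, 0 < p.2 := by
    rintro p ⟨Q, hQ, rfl⟩
    exact Q.2
  have himg : φ '' s = (Subtype.val : H3 → ℂ × ℝ) '' A := by
    ext p
    constructor
    · rintro ⟨q, ⟨Q, hQ, rfl⟩, rfl⟩
      exact ⟨Φ Q, hQ, hΦ Q⟩
    · rintro ⟨Q, hQ, rfl⟩
      obtain ⟨R, rfl⟩ := hb.2 Q
      exact ⟨R.1, ⟨R, hQ, rfl⟩, (hΦ R).symm⟩
  have hinj : Set.InjOn φ s := by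
    rintro p ⟨P, hP, rfl⟩ q ⟨Q, hQ, rfl⟩ h
    have h1 : Φ P = Φ Q := Subtype.ext (by rw [hΦ, hΦ]; exact h)
    rw [hb.1 h1]
  have hH : (volume : Measure (ℂ × ℝ)).IsAddHaarMeasure :=
    inferInstanceAs ((volume : Measure ℂ).prod (volume : Measure ℝ)).IsAddHaarMeasure
  rw [← himg, lintegral_image_eq_lintegral_abs_det_fderiv_mul volume hsm
    (fun p hp => (hd p (hsU p hp)).hasFDerivWithinAt) hinj]
  refine setLIntegral_congr_fun hsm fun p hp => ?_
  have hp0 : 0 < p.2 := hsU p hp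
  have hq0 : 0 < (φ p).2 := by
    obtain ⟨Q, hQ, rfl⟩ := hp
    rw [← hΦ]
    exact (Φ Q).2
  unfold am_w
  rw [hdet p hp0, ← ENNReal.ofReal_mul (by positivity)]
  congr 1
  field_simp

/-! ### Upper triangular matrices -/

/-- the linear part of `(z, y) ↦ (a² z + β, |a|² y)` -/
noncomputable def am_lin (a : ℂ) : (ℂ × ℝ) →L[ℝ] (ℂ × ℝ) :=
  ((a ^ 2 • ContinuousLinearMap.id ℂ ℂ).restrictScalars ℝ).prodMap
    (normSq a • ContinuousLinearMap.id ℝ ℝ)

theorem am_lin_apply (a : ℂ) (p : ℂ × ℝ) : am_lin a p = (a ^ 2 * p.1, normSq a * p.2) := by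
  exact Prod.ext (by simp [am_lin]) (by simp [am_lin])

theorem am_lin_det (a : ℂ) : (am_lin a).det = normSq a ^ 3 := by
  rw [am_det, Matrix.det_fin_three]
  simp only [am_lin_apply, Matrix.of_apply, Matrix.cons_val', Matrix.cons_val_zero,
    Matrix.cons_val_one, Matrix.cons_val_two, Matrix.head_cons, Matrix.tail_cons,
    Matrix.head_fin_const, Matrix.empty_val', Matrix.cons_val_fin_one]
  simp [pow_two, normSq_apply]
  ring

theorem am_cont (g : SL(2, ℂ)) : Continuous (actC g) := by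
  have h1 : Continuous (fun P : H3 => P.1.1) := continuous_fst.comp continuous_subtype_val
  have h2 : Continuous (fun P : H3 => P.1.2) := continuous_snd.comp continuous_subtype_val
  have h3 : Continuous (fun P : H3 => den g P) := by
    unfold den
    exact (continuous_normSq.comp ((continuous_const.mul h1).add continuous_const)).add
      (continuous_const.mul (h2.pow 2))
  have h4 : ∀ P : H3, den g P ≠ 0 := fun P => (den_pos g P).ne'
  refine Continuous.subtype_mk (Continuous.prodMk ?_ (h2.div h3 h4)) _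
  refine Continuous.div ?_ (continuous_ofReal.comp h3) (fun P => ?_)
  · refine Continuous.add (Continuous.mul ?_ ?_) (Continuous.mul continuous_const ?_)
    · exact (continuous_const.mul h1).add continuous_const
    · exact continuous_conj.comp ((continuous_const.mul h1).add continuous_const)
    · exact continuous_ofReal.comp (h2.pow 2)
  · exact_mod_cast h4 P

theorem am_bij (g : SL(2, ℂ)) : Function.Bijective (actC g) := by
  have h1 : ∀ P : H3, actC 1 P = P := fun P => by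
    refine ac_inj fun c d => ?_
    rw [ac_act]
    congr 1 <;> simp
  refine Function.bijective_iff_has_inverse.2 ⟨actC g⁻¹, fun P => ?_, fun P => ?_⟩
  · rw [← actC_mul, inv_mul_cancel, h1]
  · rw [← actC_mul, mul_inv_cancel, h1]


theorem am_upper (g : SL(2, ℂ)) (h : g 1 0 = 0) : MeasurePreserving (actC g) mu mu := by
  have hdet : g 0 0 * g 1 1 = 1 := by
    have h1 := g.det_coe
    rw [Matrix.det_fin_two, h, mul_zero, sub_zero] at h1
    exact h1
  have ha : g 0 0 ≠ 0 := left_ne_zero_of_mul_eq_one hdet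
  have hd : g 1 1 ≠ 0 := right_ne_zero_of_mul_eq_one hdet
  have hn : normSq (g 0 0) * normSq (g 1 1) = 1 := by rw [← map_mul, hdet, map_one]
  have hna : normSq (g 0 0) ≠ 0 := left_ne_zero_of_mul_eq_one hn
  have hnd : normSq (g 1 1) ≠ 0 := right_ne_zero_of_mul_eq_one hn
  refine am_gen (φ := fun p => (g 0 0 ^ 2 * p.1 + g 0 0 * g 0 1, normSq (g 0 0) * p.2))
    (φ' := fun _ => am_lin (g 0 0)) (am_cont g).measurable (fun P => ?_) (am_bij g)
    (fun p hp => ?_) (fun p hp => ?_)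
  · have hden : den g P = normSq (g 1 1) := by
      unfold den
      rw [h]
      simp
    refine Prod.ext ?_ ?_
    · have e : (actC g P).1.1 = ((g 0 0 * P.1.1 + g 0 1) *
          (starRingEnd ℂ) (g 1 0 * P.1.1 + g 1 1) +
          g 0 0 * (starRingEnd ℂ) (g 1 0) * ((P.1.2 ^ 2 : ℝ) : ℂ)) / ((den g P : ℝ) : ℂ) := rfl
      rw [e, hden, h]
      have hc : (starRingEnd ℂ) (g 1 1) ≠ 0 := by
        rw [Ne, map_eq_zero]
        exact hd
      rw [← Complex.mul_conj, map_zero, mul_zero, zero_mul, zero_mul, zero_add, add_zero]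
      field_simp
      linear_combination (-(g 0 0 * P.1.1 + g 0 1)) * hdet
    · have e : (actC g P).1.2 = P.1.2 / den g P := rfl
      rw [e, hden]
      field_simp
      linear_combination (-P.1.2) * hn
  · have h1 := (am_lin (g 0 0)).hasFDerivAt (x := p)
    have h2 := h1.add_const ((g 0 0 * g 0 1, 0) : ℂ × ℝ)
    refine h2.congr_of_eventuallyEq (Filter.Eventually.of_forall fun q => ?_)
    change ((g 0 0 ^ 2 * q.1 + g 0 0 * g 0 1, normSq (g 0 0) * q.2) : ℂ × ℝ) =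
      am_lin (g 0 0) q + ((g 0 0 * g 0 1, 0) : ℂ × ℝ)
    rw [am_lin_apply]
    exact Prod.ext rfl (add_zero _).symm
  · rw [am_lin_det, abs_of_nonneg (pow_nonneg (normSq_nonneg _) 3), mul_pow]
    field_simp

/-! ### The inversion -/

/-- `|p|²` -/
noncomputable def am_N (p : ℂ × ℝ) : ℝ := p.1.re ^ 2 + p.1.im ^ 2 + p.2 ^ 2

/-- the derivative of `|p|²` -/
noncomputable def am_dN (p : ℂ × ℝ) : (ℂ × ℝ) →L[ℝ] ℝ :=
  (2 * p.1.re) • (reCLM.comp (ContinuousLinearMap.fst ℝ ℂ ℝ)) +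
    (2 * p.1.im) • (imCLM.comp (ContinuousLinearMap.fst ℝ ℂ ℝ)) +
    (2 * p.2) • (ContinuousLinearMap.snd ℝ ℂ ℝ)

theorem am_hN (p : ℂ × ℝ) : HasFDerivAt am_N (am_dN p) p := by
  have h1 : HasFDerivAt (fun q : ℂ × ℝ => q.1.re)
      (reCLM.comp (ContinuousLinearMap.fst ℝ ℂ ℝ)) p :=
    (reCLM.comp (ContinuousLinearMap.fst ℝ ℂ ℝ)).hasFDerivAt
  have h2 : HasFDerivAt (fun q : ℂ × ℝ => q.1.im)
      (imCLM.comp (ContinuousLinearMap.fst ℝ ℂ ℝ)) p :=
    (imCLM.comp (ContinuousLinearMap.fst ℝ ℂ ℝ)).hasFDerivAt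
  have h3 : HasFDerivAt (fun q : ℂ × ℝ => q.2) (ContinuousLinearMap.snd ℝ ℂ ℝ) p :=
    (ContinuousLinearMap.snd ℝ ℂ ℝ).hasFDerivAt
  have h4 := ((h1.pow 2).add (h2.pow 2)).add (h3.pow 2)
  have e : ∀ x : ℝ, (2 • x ^ (2 - 1) : ℝ) = 2 * x := by
    intro x
    simp
  rw [e, e, e] at h4
  exact h4

/-- `(z, y) ↦ (-z̄, y)` -/
noncomputable def am_J : (ℂ × ℝ) →L[ℝ] (ℂ × ℝ) :=
  (-(conjCLE : ℂ →L[ℝ] ℂ)).prodMap (ContinuousLinearMap.id ℝ ℝ)

theorem am_J_apply (p : ℂ × ℝ) : am_J p = (-(starRingEnd ℂ) p.1, p.2) := by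
  exact Prod.ext (by simp [am_J]) (by simp [am_J])

/-- the derivative of the inversion -/
noncomputable def am_dS (p : ℂ × ℝ) : (ℂ × ℝ) →L[ℝ] (ℂ × ℝ) :=
  (am_N p)⁻¹ • am_J + (-(am_N p ^ 2)⁻¹ • am_dN p).smulRight (am_J p)

theorem am_hS {p : ℂ × ℝ} (hp : am_N p ≠ 0) :
    HasFDerivAt (fun q : ℂ × ℝ => (am_N q)⁻¹ • am_J q) (am_dS p) p := by
  have h1 : HasFDerivAt (fun q : ℂ × ℝ => (am_N q)⁻¹) (-(am_N p ^ 2)⁻¹ • am_dN p) p := by
    have h2 := (hasDerivAt_inv hp).comp_hasFDerivAt p (am_hN p)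
    exact h2
  exact h1.smul am_J.hasFDerivAt

theorem am_dN_apply (p h : ℂ × ℝ) :
    am_dN p h = 2 * p.1.re * h.1.re + 2 * p.1.im * h.1.im + 2 * p.2 * h.2 := by
  simp [am_dN]

theorem am_dS_apply (p h : ℂ × ℝ) : am_dS p h = (am_N p)⁻¹ • am_J h +
    (-(am_N p ^ 2)⁻¹ * (am_dN p h)) • am_J p := by
  unfold am_dS
  simp only [_root_.add_apply, _root_.smul_apply,
    ContinuousLinearMap.smulRight_apply, smul_eq_mul]

theorem am_dS_re (p h : ℂ × ℝ) : (am_dS p h).1.re = (am_N p)⁻¹ * (-h.1.re) +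
    (-(am_N p ^ 2)⁻¹ * (am_dN p h)) * (-p.1.re) := by
  rw [am_dS_apply, am_J_apply, am_J_apply]
  simp only [Prod.fst_add, Prod.smul_fst, Complex.add_re, Complex.smul_re, Complex.neg_re,
    Complex.conj_re, smul_eq_mul]

theorem am_dS_im (p h : ℂ × ℝ) : (am_dS p h).1.im = (am_N p)⁻¹ * h.1.im +
    (-(am_N p ^ 2)⁻¹ * (am_dN p h)) * p.1.im := by
  rw [am_dS_apply, am_J_apply, am_J_apply]
  simp only [Prod.fst_add, Prod.smul_fst, Complex.add_im, Complex.smul_im, Complex.neg_im,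
    Complex.conj_im, smul_eq_mul, neg_neg]

theorem am_dS_2 (p h : ℂ × ℝ) : (am_dS p h).2 = (am_N p)⁻¹ * h.2 +
    (-(am_N p ^ 2)⁻¹ * (am_dN p h)) * p.2 := by
  rw [am_dS_apply, am_J_apply, am_J_apply]
  simp only [Prod.snd_add, Prod.smul_snd, smul_eq_mul]

theorem am_S_det {p : ℂ × ℝ} (hp : am_N p ≠ 0) : (am_dS p).det = (am_N p ^ 3)⁻¹ := by
  rw [am_det, Matrix.det_fin_three]
  simp only [Matrix.of_apply, Matrix.cons_val', Matrix.cons_val_zero,
    Matrix.cons_val_one, Matrix.cons_val_two, Matrix.head_cons, Matrix.tail_cons,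
    Matrix.head_fin_const, Matrix.empty_val', Matrix.cons_val_fin_one, am_dS_re, am_dS_im, am_dS_2,
    am_dN_apply, Complex.one_re, Complex.one_im, Complex.I_re, Complex.I_im, Complex.zero_re,
    Complex.zero_im, mul_zero, mul_one, neg_zero, add_zero, zero_add]
  have hN : am_N p = p.1.re ^ 2 + p.1.im ^ 2 + p.2 ^ 2 := rfl
  generalize p.1.re = x at *
  generalize p.1.im = w at *
  generalize p.2 = y at *
  generalize am_N p = N at *
  field_simp
  rw [hN]
  ring

theorem am_inv (g : SL(2, ℂ)) (h0 : g 0 0 = 0) (h1 : g 0 1 = -1) (h2 : g 1 0 = 1)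
    (h3 : g 1 1 = 0) : MeasurePreserving (actC g) mu mu := by
  have hpos : ∀ p : ℂ × ℝ, 0 < p.2 → 0 < am_N p := by
    intro p hp
    unfold am_N
    positivity
  refine am_gen (φ := fun p => (am_N p)⁻¹ • am_J p) (φ' := am_dS) (am_cont g).measurable
    (fun P => ?_) (am_bij g) (fun p hp => am_hS (hpos p hp).ne') (fun p hp => ?_)
  · have hden : den g P = am_N P.1 := by
      unfold den am_N
      rw [h2, h3]
      simp [normSq_apply]
      ring
    rw [am_J_apply]
    refine Prod.ext ?_ ?_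
    · have e : (actC g P).1.1 = ((g 0 0 * P.1.1 + g 0 1) *
          (starRingEnd ℂ) (g 1 0 * P.1.1 + g 1 1) +
          g 0 0 * (starRingEnd ℂ) (g 1 0) * ((P.1.2 ^ 2 : ℝ) : ℂ)) / ((den g P : ℝ) : ℂ) := rfl
      rw [e, hden, h0, h1, h2, h3]
      simp
      ring
    · have e : (actC g P).1.2 = P.1.2 / den g P := rfl
      rw [e, hden]
      simp
      ring
  · have h4 := (hpos p hp).ne'
    rw [am_S_det h4, am_J_apply]
    have h5 : 0 < am_N p := hpos p hp
    rw [abs_of_pos (by positivity)]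
    simp
    field_simp

theorem actC_mp (g : SL(2, ℂ)) : MeasurePreserving (actC g) mu mu := by
  by_cases hc : g 1 0 = 0
  · exact am_upper g hc
  · have hdet : g 0 0 * g 1 1 - g 0 1 * g 1 0 = 1 := by
      have h := g.det_coe
      rwa [Matrix.det_fin_two] at h
    let g1 : SL(2, ℂ) := ⟨!![1, g 0 0 / g 1 0; 0, 1], by simp⟩
    let g2 : SL(2, ℂ) := ⟨!![0, -1; 1, 0], by simp⟩
    let g3 : SL(2, ℂ) := ⟨!![g 1 0, g 1 1; 0, (g 1 0)⁻¹], by
      rw [Matrix.det_fin_two_of]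
      field_simp
      ring⟩
    have hg : g = g1 * (g2 * g3) := by
      apply Subtype.ext
      change g.1 = !![1, g 0 0 / g 1 0; 0, 1] *
        (!![0, -1; 1, 0] * !![g 1 0, g 1 1; 0, (g 1 0)⁻¹])
      ext i j
      fin_cases i <;> fin_cases j
      · simp [Matrix.mul_apply, Fin.sum_univ_two]
        field_simp
      · simp [Matrix.mul_apply, Fin.sum_univ_two]
        field_simp
        linear_combination -hdet
      · simp [Matrix.mul_apply, Fin.sum_univ_two]
      · simp [Matrix.mul_apply, Fin.sum_univ_two]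
    have e : actC g = actC g1 ∘ actC g2 ∘ actC g3 := by
      funext P
      rw [hg, actC_mul, actC_mul]
      rfl
    rw [e]
    exact (am_upper g1 rfl).comp ((am_inv g2 rfl rfl rfl rfl).comp (am_upper g3 rfl))

theorem act_mp (s : 𝓞 K →+* ℂ) (γ : SL(2, 𝓞 K)) : MeasurePreserving (act s γ) mu mu :=
  actC_mp _

end Pool.Agent.HB
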