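import Pool.Agent.Lib_helper99.HB.Defs
import Pool.Agent.Lib_helper99.HBF.KB
import Pool.Agent.Lib_helper99.HBF.KK

/-! Hardy over imaginary quadratic fields, block KQ: the function `kQ` -/

namespace Pool.Agent.HB

open Complex MeasureTheory Set Filter Topology

theorem kq_exp {y : ℝ} (hy : 0 < y) : Real.exp (-y) ≤ 6 / y ^ 3 := by
  have h := Real.pow_div_factorial_le_exp y hy.le 3
  rw [Real.exp_neg, inv_le_comm₀ (Real.exp_pos _) (by positivity)]
  have : (6 / y ^ 3)⁻¹ = y ^ 3 / (Nat.factorial 3 : ℝ) := by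
    rw [inv_div]
    norm_num [Nat.factorial]
  rw [this]
  exact h

/-- the domination -/
theorem kq_dom {ν : ℂ} (hν : Adm ν) {B₀ B : ℝ} (hB₀ : 0 < B₀) (hB : B₀ ≤ B) {x : ℝ} (hx : 0 < x) :
    ‖Kr ν x ^ 2 * x⁻¹ * Real.exp (-(Real.pi * B / x))‖ ≤
      24 / (Real.pi * B₀) ^ 3 * Real.exp (-1 * x) := by
  have hpi := Real.pi_pos
  have h1 : Kr ν x ^ 2 ≤ 4 / x ^ 2 * Real.exp (-1 * x) := by
    have h2 := kr_bd hν hx
    have h3 : Kr ν x ^ 2 ≤ (2 / x * Real.exp (-(x / 2))) ^ 2 := by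
      rw [← sq_abs]
      exact pow_le_pow_left₀ (abs_nonneg _) h2 2
    have h4 : (2 / x * Real.exp (-(x / 2))) ^ 2 = 4 / x ^ 2 * Real.exp (-1 * x) := by
      rw [mul_pow, ← Real.exp_nat_mul]
      have e1 : ((2 : ℕ) : ℝ) * -(x / 2) = -1 * x := by push_cast; ring
      rw [e1, div_pow]
      norm_num
    rw [← h4]
    exact h3
  have h5 : Real.exp (-(Real.pi * B / x)) ≤ 6 * x ^ 3 / (Real.pi * B₀) ^ 3 := by
    calc Real.exp (-(Real.pi * B / x)) ≤ Real.exp (-(Real.pi * B₀ / x)) := by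
          apply Real.exp_le_exp.mpr
          have : Real.pi * B₀ / x ≤ Real.pi * B / x := by
            apply div_le_div_of_nonneg_right _ hx.le
            exact mul_le_mul_of_nonneg_left hB hpi.le
          linarith
      _ ≤ 6 / (Real.pi * B₀ / x) ^ 3 := kq_exp (by positivity)
      _ = 6 * x ^ 3 / (Real.pi * B₀) ^ 3 := by
          rw [div_pow]
          field_simp
  rw [Real.norm_eq_abs, abs_of_nonneg (by positivity)]
  calc Kr ν x ^ 2 * x⁻¹ * Real.exp (-(Real.pi * B / x))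
      ≤ (4 / x ^ 2 * Real.exp (-1 * x)) * x⁻¹ * (6 * x ^ 3 / (Real.pi * B₀) ^ 3) := by
        apply mul_le_mul _ h5 (Real.exp_pos _).le (by positivity)
        exact mul_le_mul_of_nonneg_right h1 (by positivity)
    _ = 24 / (Real.pi * B₀) ^ 3 * Real.exp (-1 * x) := by
        field_simp
        ring

theorem kq_exp_int (c : ℝ) : IntegrableOn (fun u : ℝ => c * Real.exp (-1 * u)) (Ioi 0) :=
  (exp_neg_integrableOn_Ioi 0 one_pos).const_mul c

theorem kq_cts (ν : ℂ) (B : ℝ) : ContinuousOn (fun x : ℝ =>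
    Kr ν x ^ 2 * x⁻¹ * Real.exp (-(Real.pi * B / x))) (Ioi 0) := by
  have h1 := kr_cont ν
  have h2 : ContinuousOn (fun x : ℝ => x⁻¹) (Ioi 0) :=
    continuousOn_inv₀.mono fun x hx => (ne_of_gt hx : x ≠ 0)
  have h3 : ContinuousOn (fun x : ℝ => Real.exp (-(Real.pi * B / x))) (Ioi 0) := by
    apply Real.continuous_exp.comp_continuousOn
    apply ContinuousOn.neg
    exact continuousOn_const.div continuousOn_id fun x hx => (ne_of_gt hx : x ≠ 0)
  exact ((h1.pow 2).mul h2).mul h3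

theorem kQ_int {ν : ℂ} (hν : Adm ν) {B : ℝ} (hB : 0 < B) : IntegrableOn (fun x : ℝ =>
    Kr ν x ^ 2 * x⁻¹ * Real.exp (-(Real.pi * B / x))) (Ioi 0) := by
  refine Integrable.mono' (kq_exp_int (24 / (Real.pi * B) ^ 3))
    ((kq_cts ν B).aestronglyMeasurable measurableSet_Ioi) ?_
  rw [ae_restrict_iff' measurableSet_Ioi]
  exact Eventually.of_forall fun x hx => kq_dom hν hB le_rfl hx

theorem kQ_nonneg (ν : ℂ) (B : ℝ) : 0 ≤ kQ ν B := by
  unfold kQ
  apply setIntegral_nonneg measurableSet_Ioi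
  intro x hx
  have hx' : (0 : ℝ) < x := hx
  positivity

theorem kQ_cont {ν : ℂ} (hν : Adm ν) : ContinuousOn (kQ ν) (Ioi 0) := by
  intro B₀ hB₀
  have hB₀' : (0 : ℝ) < B₀ := hB₀
  apply ContinuousAt.continuousWithinAt
  unfold kQ
  refine continuousAt_of_dominated (bound := fun x : ℝ =>
    24 / (Real.pi * (B₀ / 2)) ^ 3 * Real.exp (-1 * x)) ?_ ?_ (kq_exp_int _) ?_
  · exact Eventually.of_forall fun B => (kq_cts ν B).aestronglyMeasurable measurableSet_Ioi
  · filter_upwards [eventually_ge_nhds (half_lt_self hB₀')] with B hB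
    rw [ae_restrict_iff' measurableSet_Ioi]
    exact Eventually.of_forall fun x hx => kq_dom hν (half_pos hB₀') hB hx
  · refine Eventually.of_forall fun u => ?_
    apply Continuous.continuousAt
    fun_prop

theorem kQ_scale {ν : ℂ} (hν : Adm ν) {A lam : ℝ} (hA : 0 < A) (hl : 0 < lam) :
    IntegrableOn (fun y : ℝ => (y * Kr ν (lam * y)) ^ 2 / y ^ 3 *
      Real.exp (-(Real.pi * (A / y)))) (Ioi 0) ∧
    ∫ y in Ioi (0 : ℝ), (y * Kr ν (lam * y)) ^ 2 / y ^ 3 * Real.exp (-(Real.pi * (A / y))) =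
      kQ ν (A * lam) := by
  set g : ℝ → ℝ := fun x => Kr ν x ^ 2 * x⁻¹ * Real.exp (-(Real.pi * (A * lam) / x)) with hg
  have hgi : IntegrableOn g (Ioi 0) := kQ_int hν (mul_pos hA hl)
  have he : ∀ y ∈ Ioi (0 : ℝ), lam * g (lam * y) = (y * Kr ν (lam * y)) ^ 2 / y ^ 3 *
      Real.exp (-(Real.pi * (A / y))) := by
    intro y hy
    have hy' : (0 : ℝ) < y := hy
    rw [hg]
    simp only
    have e1 : Real.pi * (A * lam) / (lam * y) = Real.pi * (A / y) := by field_simp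
    rw [e1]
    field_simp
  have hgl : IntegrableOn (fun y : ℝ => lam * g (lam * y)) (Ioi 0) := by
    have h := (integrableOn_Ioi_comp_mul_left_iff g 0 hl).mpr (by rw [mul_zero]; exact hgi)
    exact h.const_mul lam
  constructor
  · exact hgl.congr_fun he measurableSet_Ioi
  · rw [← setIntegral_congr_fun measurableSet_Ioi he, integral_const_mul,
      integral_comp_mul_left_Ioi g 0 hl, mul_zero, smul_eq_mul, ← mul_assoc,
      mul_inv_cancel₀ hl.ne', one_mul]
    rfl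

/-- the function on the product -/
noncomputable def kq_F (ν w : ℂ) (p : ℝ × ℝ) : ℂ :=
  (p.1 : ℂ) ^ (w - 1) * ((Kr ν p.2 ^ 2 * p.2⁻¹ * Real.exp (-(Real.pi * p.1 / p.2)) : ℝ) : ℂ)

theorem kq_F_cts (ν w : ℂ) : ContinuousOn (kq_F ν w) (Ioi (0 : ℝ) ×ˢ Ioi (0 : ℝ)) := by
  unfold kq_F
  have h1 : ContinuousOn (fun p : ℝ × ℝ => (p.1 : ℂ) ^ (w - 1)) (Ioi (0 : ℝ) ×ˢ Ioi (0 : ℝ)) := by
    apply ContinuousOn.cpow_const
    · exact (Complex.continuous_ofReal.comp continuous_fst).continuousOn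
    · rintro ⟨a, b⟩ ⟨ha, -⟩
      exact Or.inl (by simpa using ha)
  apply h1.mul
  apply Complex.continuous_ofReal.comp_continuousOn
  have h2 : ContinuousOn (fun p : ℝ × ℝ => Kr ν p.2) (Ioi (0 : ℝ) ×ˢ Ioi (0 : ℝ)) :=
    (kr_cont ν).comp continuous_snd.continuousOn fun p hp => hp.2
  have h3 : ContinuousOn (fun p : ℝ × ℝ => p.2⁻¹) (Ioi (0 : ℝ) ×ˢ Ioi (0 : ℝ)) :=
    ContinuousOn.inv₀ continuous_snd.continuousOn fun p hp => (ne_of_gt hp.2 : p.2 ≠ 0)
  have h4 : ContinuousOn (fun p : ℝ × ℝ => Real.exp (-(Real.pi * p.1 / p.2)))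
      (Ioi (0 : ℝ) ×ˢ Ioi (0 : ℝ)) := by
    apply Real.continuous_exp.comp_continuousOn
    apply ContinuousOn.neg
    exact (continuous_const.mul continuous_fst).continuousOn.div continuous_snd.continuousOn
      fun p hp => (ne_of_gt hp.2 : p.2 ≠ 0)
  exact ((h2.pow 2).mul h3).mul h4

theorem kq_norm {ν w : ℂ} {B x : ℝ} (hB : 0 < B) (hx : 0 < x) : ‖kq_F ν w (B, x)‖ =
    (Kr ν x ^ 2 * x⁻¹) * (B ^ (w.re - 1) * Real.exp (-(Real.pi / x * B))) := by
  unfold kq_F
  simp only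
  rw [norm_mul, Complex.norm_cpow_eq_rpow_re_of_pos hB, Complex.norm_real, Real.norm_eq_abs,
    abs_of_nonneg (by positivity), Complex.sub_re, Complex.one_re]
  have : Real.pi * B / x = Real.pi / x * B := by ring
  rw [this]
  ring

theorem kq_inner_int {s r : ℝ} (hs : 0 < s) (hr : 0 < r) :
    IntegrableOn (fun B : ℝ => B ^ (s - 1) * Real.exp (-(r * B))) (Ioi 0) := by
  have h := integrableOn_rpow_mul_exp_neg_mul_rpow (p := 1) (s := s - 1) (b := r)
    (by linarith) one_pos hr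
  refine h.congr_fun (fun B _ => ?_) measurableSet_Ioi
  simp only
  rw [Real.rpow_one, neg_mul]

theorem kq_rpow {x s : ℝ} (hx : 0 < x) :
    (1 / (Real.pi / x)) ^ s = Real.pi ^ (-s) * x ^ s := by
  have hpi := Real.pi_pos
  rw [one_div_div, Real.div_rpow hx.le hpi.le, Real.rpow_neg hpi.le]
  field_simp

theorem kq_cpow {x : ℝ} (hx : 0 < x) (w : ℂ) :
    (1 / ((Real.pi / x : ℝ) : ℂ)) ^ w = (Real.pi : ℂ) ^ (-w) * (x : ℂ) ^ w := by
  have hpi := Real.pi_pos
  have h1 : (1 / ((Real.pi / x : ℝ) : ℂ)) = ((Real.pi⁻¹ : ℝ) : ℂ) * (x : ℂ) := by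
    push_cast
    field_simp
  rw [h1, Complex.mul_cpow_ofReal_nonneg (by positivity) hx.le]
  congr 1
  rw [Complex.cpow_neg, Complex.ofReal_inv, Complex.inv_cpow]
  rw [Complex.arg_ofReal_of_nonneg hpi.le]
  exact hpi.ne

theorem kq_adm {ν : ℂ} (hν : Adm ν) : |ν.re| < 1 := by
  rcases hν with h | ⟨-, h⟩
  · rw [h]
    simp
  · exact h

theorem kq_F_int {ν : ℂ} (hν : Adm ν) {w : ℂ} (hw : 2 < w.re) :
    Integrable (kq_F ν w) ((volume.restrict (Ioi (0 : ℝ))).prod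
      (volume.restrict (Ioi (0 : ℝ)))) := by
  have hpi := Real.pi_pos
  have hm : AEStronglyMeasurable (kq_F ν w) ((volume.restrict (Ioi (0 : ℝ))).prod
      (volume.restrict (Ioi (0 : ℝ)))) := by
    rw [Measure.prod_restrict]
    exact (kq_F_cts ν w).aestronglyMeasurable (measurableSet_Ioi.prod measurableSet_Ioi)
  rw [integrable_prod_iff' hm]
  constructor
  · rw [ae_restrict_iff' measurableSet_Ioi]
    refine Eventually.of_forall fun x hx => ?_
    have hx' : (0 : ℝ) < x := hx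
    have h1 := (kq_inner_int (s := w.re) (r := Real.pi / x) (by linarith)
      (by positivity)).const_mul (Kr ν x ^ 2 * x⁻¹)
    have hc : ContinuousOn (fun B : ℝ => kq_F ν w (B, x)) (Ioi 0) :=
      (kq_F_cts ν w).comp (Continuous.prodMk_left x).continuousOn fun B hB => ⟨hB, hx⟩
    refine Integrable.mono' h1 (hc.aestronglyMeasurable measurableSet_Ioi) ?_
    rw [ae_restrict_iff' measurableSet_Ioi]
    exact Eventually.of_forall fun B hB => (kq_norm hB hx).le
  · have hk := (kk_mellin (μ₁ := ν) (μ₂ := ν) (W := w) (by have := kq_adm hν; linarith)).1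
    have h2 : ∀ x ∈ Ioi (0 : ℝ), (Real.pi ^ (-w.re) * Real.Gamma w.re) *
        (x ^ (w.re - 1) * (‖Kb ν x‖ * ‖Kb ν x‖)) =
        ∫ B, ‖kq_F ν w (B, x)‖ ∂(volume.restrict (Ioi (0 : ℝ))) := by
      intro x hx
      have hx' : (0 : ℝ) < x := hx
      have h3 : ∀ B ∈ Ioi (0 : ℝ), ‖kq_F ν w (B, x)‖ =
          (Kr ν x ^ 2 * x⁻¹) * (B ^ (w.re - 1) * Real.exp (-(Real.pi / x * B))) :=
        fun B hB => kq_norm hB hx
      rw [setIntegral_congr_fun measurableSet_Ioi h3, integral_const_mul,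
        Real.integral_rpow_mul_exp_neg_mul_Ioi (by linarith) (by positivity), kq_rpow hx',
        kb_real hν x, Complex.norm_real, Real.norm_eq_abs, ← pow_two, sq_abs,
        Real.rpow_sub_one hx'.ne']
      field_simp
    have h6 : IntegrableOn (fun x : ℝ => (Real.pi ^ (-w.re) * Real.Gamma w.re) *
        (x ^ (w.re - 1) * (‖Kb ν x‖ * ‖Kb ν x‖))) (Ioi 0) := hk.const_mul _
    exact h6.congr_fun h2 measurableSet_Ioi

theorem kQ_mellin {ν : ℂ} (hν : Adm ν) {w : ℂ} (hw : 2 < w.re) :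
    IntegrableOn (fun B : ℝ => B ^ (w.re - 1) * kQ ν B) (Ioi 0) ∧
      ∫ B in Ioi (0 : ℝ), (B : ℂ) ^ (w - 1) * ((kQ ν B : ℝ) : ℂ) =
        (Real.pi : ℂ) ^ (-w) * (2 : ℂ) ^ (w - 3) * (Gamma (w / 2) ^ 2 *
          (Gamma (w / 2 + ν) * Gamma (w / 2 - ν))) := by
  have hpi := Real.pi_pos
  have hF := kq_F_int hν hw
  have h1 : ∀ B : ℝ, ∫ x in Ioi (0 : ℝ), kq_F ν w (B, x) =
      (B : ℂ) ^ (w - 1) * ((kQ ν B : ℝ) : ℂ) := by
    intro B
    unfold kq_F kQ
    simp only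
    rw [integral_const_mul]
    congr 1
    exact integral_ofReal
  constructor
  · have h2 := hF.integral_prod_left.norm
    refine IntegrableOn.congr_fun h2 (fun B hB => ?_) measurableSet_Ioi
    have hB' : (0 : ℝ) < B := hB
    rw [h1, norm_mul, Complex.norm_cpow_eq_rpow_re_of_pos hB', Complex.norm_real,
      Real.norm_eq_abs, abs_of_nonneg (kQ_nonneg ν B), Complex.sub_re, Complex.one_re]
  · have h3 : ∫ B in Ioi (0 : ℝ), (B : ℂ) ^ (w - 1) * ((kQ ν B : ℝ) : ℂ) =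
        ∫ B in Ioi (0 : ℝ), ∫ x in Ioi (0 : ℝ), kq_F ν w (B, x) := by
      congr 1
      funext B
      rw [h1]
    rw [h3, integral_integral_swap (f := fun B x => kq_F ν w (B, x)) hF]
    have hk := (kk_mellin (μ₁ := ν) (μ₂ := ν) (W := w) (by have := kq_adm hν; linarith)).2
    have h4 : ∀ x ∈ Ioi (0 : ℝ), ∫ B in Ioi (0 : ℝ), kq_F ν w (B, x) =
        ((Real.pi : ℂ) ^ (-w) * Gamma w) * ((x : ℂ) ^ (w - 1) * (Kb ν x * Kb ν x)) := by
      intro x hx
      have hx' : (0 : ℝ) < x := hx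
      have h5 : ∀ B ∈ Ioi (0 : ℝ), kq_F ν w (B, x) = (((Kr ν x ^ 2 * x⁻¹ : ℝ) : ℂ)) *
          ((B : ℂ) ^ (w - 1) * cexp (-(((Real.pi / x : ℝ) : ℂ) * (B : ℂ)))) := by
        intro B _
        unfold kq_F
        simp only
        rw [Complex.ofReal_mul, Complex.ofReal_exp]
        have : ((-(Real.pi * B / x) : ℝ) : ℂ) = -(((Real.pi / x : ℝ) : ℂ) * (B : ℂ)) := by
          push_cast
          ring
        rw [this]
        ring
      rw [setIntegral_congr_fun measurableSet_Ioi h5, integral_const_mul,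
        Complex.integral_cpow_mul_exp_neg_mul_Ioi (by linarith) (by positivity), kq_cpow hx' w,
        kb_real hν x]
      have hxc : (x : ℂ) ≠ 0 := by exact_mod_cast hx'.ne'
      rw [Complex.cpow_sub _ _ hxc, Complex.cpow_one]
      push_cast
      field_simp
    rw [setIntegral_congr_fun measurableSet_Ioi h4, integral_const_mul, hk]
    have e1 : (w + ν + ν) / 2 = w / 2 + ν := by ring
    have e2 : (w + ν - ν) / 2 = w / 2 := by ring
    have e3 : (w - ν + ν) / 2 = w / 2 := by ring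
    have e4 : (w - ν - ν) / 2 = w / 2 - ν := by ring
    rw [e1, e2, e3, e4]
    have hG : Gamma w ≠ 0 := Complex.Gamma_ne_zero_of_re_pos (by linarith)
    field_simp

end Pool.Agent.HB
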