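import Pool.Agent.Lib_helper99.HB.Defs

/-!
# HB, block FB: elementary properties of the field data
-/

namespace Pool.Agent.HB

open NumberField Complex MeasureTheory
open scoped MatrixGroups ENNReal
open Pool.Agent.H4 (NI PI Hek blw Spl Inr tt uu p4 hh PP ml atl FunBd vcf)

variable {K : Type} [Field K] [NumberField K]
variable {s : 𝓞 K →+* ℂ} {κ : 𝓞 K} {τ : 𝓞 K ≃+* 𝓞 K} {b b' : Fin 2 → 𝓞 K}

theorem fb_kap (F : Fld s κ τ b b') : s κ ≠ 0 := fun h => F.kap (F.inj κ h)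

theorem DD_pos (F : Fld s κ τ b b') : 0 < DD s κ := normSq_pos.mpr (fb_kap F)

/-- the real part of a quotient -/
theorem fb_div (z w : ℂ) : (z / w).re = (z.re * w.re + z.im * w.im) / normSq w := by
  rw [Complex.div_re]
  ring

theorem fb_dl_mul (F : Fld s κ τ b b') : dl s b * dl s b' = -(DD s κ / 4) := by
  have hD := DD_pos F
  have hDe : DD s κ = (s κ).re * (s κ).re + (s κ).im * (s κ).im := by
    unfold DD
    rw [normSq_apply]
  have h00 := F.dual 0 0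
  have h01 := F.dual 0 1
  have h10 := F.dual 1 0
  have h11 := F.dual 1 1
  simp only [map_mul, if_true, zero_ne_one, one_ne_zero, if_false, Fin.isValue, fb_div,
    mul_re, mul_im] at h00 h01 h10 h11
  change 2 * (_ / DD s κ) = _ at h00
  change 2 * (_ / DD s κ) = _ at h01
  change 2 * (_ / DD s κ) = _ at h10
  change 2 * (_ / DD s κ) = _ at h11
  have hD0 := hD.ne'
  rw [← mul_div_assoc, div_eq_iff hD0] at h00 h01 h10 h11
  rw [one_mul] at h00 h11
  rw [zero_mul] at h01 h10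
  unfold dl
  have key : -4 * (((s (b 0)).re * (s (b 1)).im - (s (b 1)).re * (s (b 0)).im) *
      ((s (b' 0)).re * (s (b' 1)).im - (s (b' 1)).re * (s (b' 0)).im)) * DD s κ =
        DD s κ * DD s κ := by
    conv_rhs => rw [← sub_zero (DD s κ * DD s κ)]
    have e1 : DD s κ * DD s κ - 0 = (2 * (((s (b 0)).re * (s (b' 0)).re -
        (s (b 0)).im * (s (b' 0)).im) * (s κ).re + ((s (b 0)).re * (s (b' 0)).im +
        (s (b 0)).im * (s (b' 0)).re) * (s κ).im)) * (2 * (((s (b 1)).re * (s (b' 1)).re -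
        (s (b 1)).im * (s (b' 1)).im) * (s κ).re + ((s (b 1)).re * (s (b' 1)).im +
        (s (b 1)).im * (s (b' 1)).re) * (s κ).im)) - (2 * (((s (b 0)).re * (s (b' 1)).re -
        (s (b 0)).im * (s (b' 1)).im) * (s κ).re + ((s (b 0)).re * (s (b' 1)).im +
        (s (b 0)).im * (s (b' 1)).re) * (s κ).im)) * (2 * (((s (b 1)).re * (s (b' 0)).re -
        (s (b 1)).im * (s (b' 0)).im) * (s κ).re + ((s (b 1)).re * (s (b' 0)).im +
        (s (b 1)).im * (s (b' 0)).re) * (s κ).im)) := by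
      rw [h00, h01, h10, h11]
      ring
    rw [e1, hDe]
    ring
  have key2 := mul_right_cancel₀ hD0 key
  linarith

theorem fb_int (F : Fld s κ τ b b') : (∃ N : ℤ, dl s b = N * dl s b') ∧
    ∃ M : ℤ, dl s b' = M * dl s b := by
  constructor
  · obtain ⟨n, hn⟩ := F.bas' (b 0)
    obtain ⟨m, hm⟩ := F.bas' (b 1)
    refine ⟨n 0 * m 1 - n 1 * m 0, ?_⟩
    have e0 := congrArg s hn
    have e1 := congrArg s hm
    simp only [map_add, map_mul, map_intCast] at e0 e1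
    unfold dl
    rw [e0, e1]
    simp only [add_re, add_im, mul_re, mul_im, intCast_re, intCast_im]
    push_cast
    ring
  · obtain ⟨n, hn⟩ := F.bas (b' 0)
    obtain ⟨m, hm⟩ := F.bas (b' 1)
    refine ⟨n 0 * m 1 - n 1 * m 0, ?_⟩
    have e0 := congrArg s hn
    have e1 := congrArg s hm
    simp only [map_add, map_mul, map_intCast] at e0 e1
    unfold dl
    rw [e0, e1]
    simp only [add_re, add_im, mul_re, mul_im, intCast_re, intCast_im]
    push_cast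
    ring

theorem dl_sq (F : Fld s κ τ b b') : dl s b ^ 2 = DD s κ / 4 := by
  have h := fb_dl_mul F
  have hD := DD_pos F
  obtain ⟨⟨N, hN⟩, ⟨M, hM⟩⟩ := fb_int F
  have h0 : dl s b ≠ 0 := by
    intro h0
    rw [h0, zero_mul] at h
    linarith
  have h1 : (N : ℝ) * M = 1 := by
    have : dl s b * (N * M) = dl s b * 1 := by
      conv_rhs => rw [hN, hM]
      ring
    exact mul_left_cancel₀ h0 this
  have h2 : N * M = 1 := by exact_mod_cast h1
  have h3 : dl s b ^ 2 = -(N * (DD s κ / 4)) := by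
    rw [← mul_neg, ← h, sq]
    conv_lhs => rw [hN]
    conv_rhs => rw [hN]
    ring
  have h4 : 0 < dl s b ^ 2 := by positivity
  rcases Int.isUnit_iff.1 (IsUnit.of_mul_eq_one _ h2) with h5 | h5
  · rw [h3, h5] at h4
    push_cast at h4
    linarith
  · rw [h3, h5]
    push_cast
    ring

theorem dl_ne (F : Fld s κ τ b b') : dl s b ≠ 0 := by
  intro h
  have h1 := dl_sq F
  have h2 := DD_pos F
  rw [h] at h1
  norm_num at h1
  linarith

theorem gn_spec (F : Fld s κ τ b b') (𝔞 : Ideal (𝓞 K)) : 𝔞 = Ideal.span {gn 𝔞} ∧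
    (𝔞 ≠ ⊥ → gn 𝔞 ≠ 0) ∧ (Ideal.absNorm 𝔞 : ℝ) = normSq (s (gn 𝔞)) := by
  have h1 := F.gen 𝔞
  have h2 : 𝔞 = Ideal.span {gn 𝔞} := by
    unfold gn
    rw [dif_pos h1]
    exact h1.choose_spec
  refine ⟨h2, fun h h0 => h ?_, ?_⟩
  · rw [h2, h0]
    simp
  · rw [← F.norm]
    exact congrArg (fun I : Ideal (𝓞 K) => (Ideal.absNorm I : ℝ)) h2

theorem fb_pair (F : Fld s κ τ b b') (m n : Fin 2 → ℤ) (x y : 𝓞 K)
    (hx : x = m 0 * b 0 + m 1 * b 1) (hy : y = n 0 * b' 0 + n 1 * b' 1) :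
    2 * (s (x * y) / s κ).re = ((m 0 * n 0 + m 1 * n 1 : ℤ) : ℝ) := by
  have h00 := F.dual 0 0
  have h01 := F.dual 0 1
  have h10 := F.dual 1 0
  have h11 := F.dual 1 1
  simp only [if_true, zero_ne_one, one_ne_zero, if_false, Fin.isValue] at h00 h01 h10 h11
  have e : s (x * y) / s κ = ((m 0 * n 0 : ℝ) : ℂ) * (s (b 0 * b' 0) / s κ) +
      ((m 0 * n 1 : ℝ) : ℂ) * (s (b 0 * b' 1) / s κ) +
      ((m 1 * n 0 : ℝ) : ℂ) * (s (b 1 * b' 0) / s κ) +
      ((m 1 * n 1 : ℝ) : ℂ) * (s (b 1 * b' 1) / s κ) := by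
    rw [hx, hy]
    simp only [map_add, map_mul, map_intCast]
    push_cast
    ring
  rw [e]
  simp only [add_re, re_ofReal_mul]
  push_cast
  linear_combination (m 0 * n 0 : ℝ) * h00 + (m 0 * n 1 : ℝ) * h01 + (m 1 * n 0 : ℝ) * h10 +
    (m 1 * n 1 : ℝ) * h11

theorem pair_int (F : Fld s κ τ b b') (x y : 𝓞 K) :
    ∃ n : ℤ, 2 * (s (x * y) / s κ).re = n := by
  obtain ⟨n, hn⟩ := F.bas' (x * y)
  obtain ⟨m, hm⟩ := F.bas 1
  have h := fb_pair F m n 1 (x * y) hm hn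
  rw [one_mul] at h
  exact ⟨_, h⟩

/-- the map `(n, m) ↦ n b'_0 + m b'_1` -/
def fb_map (b' : Fin 2 → 𝓞 K) (p : ℤ × ℤ) : 𝓞 K := p.1 * b' 0 + p.2 * b' 1

theorem fb_coord (F : Fld s κ τ b b') (p : ℤ × ℤ) (u v : ℝ) :
    2 * (s (fb_map b' p) * (u * s (b 0) + v * s (b 1)) / s κ).re = p.1 * u + p.2 * v := by
  have h00 := F.dual 0 0
  have h01 := F.dual 0 1
  have h10 := F.dual 1 0
  have h11 := F.dual 1 1
  simp only [if_true, zero_ne_one, one_ne_zero, if_false, Fin.isValue] at h00 h01 h10 h11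
  have e : s (fb_map b' p) * (u * s (b 0) + v * s (b 1)) / s κ =
      ((p.1 * u : ℝ) : ℂ) * (s (b 0 * b' 0) / s κ) +
      ((p.2 * u : ℝ) : ℂ) * (s (b 0 * b' 1) / s κ) +
      ((p.1 * v : ℝ) : ℂ) * (s (b 1 * b' 0) / s κ) +
      ((p.2 * v : ℝ) : ℂ) * (s (b 1 * b' 1) / s κ) := by
    unfold fb_map
    simp only [map_add, map_mul, map_intCast]
    push_cast
    ring
  rw [e]
  simp only [add_re, re_ofReal_mul]
  linear_combination (p.1 * u : ℝ) * h00 + (p.2 * u : ℝ) * h01 + (p.1 * v : ℝ) * h10 +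
    (p.2 * v : ℝ) * h11

theorem fb_bij (F : Fld s κ τ b b') : Function.Bijective (fb_map b') := by
  constructor
  · intro p p' h
    have h1 := fb_coord F p 1 0
    have h2 := fb_coord F p 0 1
    have h1' := fb_coord F p' 1 0
    have h2' := fb_coord F p' 0 1
    rw [h] at h1 h2
    have e1 : (p.1 : ℝ) = p'.1 := by linarith
    have e2 : (p.2 : ℝ) = p'.2 := by linarith
    exact Prod.ext (by exact_mod_cast e1) (by exact_mod_cast e2)
  · intro x
    obtain ⟨n, hn⟩ := F.bas' x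
    exact ⟨(n 0, n 1), hn.symm⟩

theorem four_equiv (F : Fld s κ τ b b') : ∃ e : 𝓞 K ≃ ℤ × ℤ, ∀ (a : 𝓞 K) (u v : ℝ),
    2 * (s a * (u * s (b 0) + v * s (b 1)) / s κ).re = (e a).1 * u + (e a).2 * v := by
  refine ⟨(Equiv.ofBijective _ (fb_bij F)).symm, fun a u v => ?_⟩
  have h := fb_coord F ((Equiv.ofBijective _ (fb_bij F)).symm a) u v
  have h2 : fb_map b' ((Equiv.ofBijective _ (fb_bij F)).symm a) = a :=
    (Equiv.ofBijective _ (fb_bij F)).apply_symm_apply a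
  rw [h2] at h
  exact h

theorem unit_norm (F : Fld s κ τ b b') (u : (𝓞 K)ˣ) : ‖s (u : 𝓞 K)‖ = 1 := by
  have h := F.norm (u : 𝓞 K)
  rw [Ideal.span_singleton_eq_top.mpr u.isUnit, Ideal.absNorm_top, normSq_eq_norm_sq] at h
  push_cast at h
  have h0 := norm_nonneg (s (u : 𝓞 K))
  nlinarith

theorem one_le_norm (F : Fld s κ τ b b') {a : 𝓞 K} (ha : a ≠ 0) : 1 ≤ ‖s a‖ := by
  have h := F.norm a
  have h1 : 1 ≤ Ideal.absNorm (Ideal.span {a}) := by
    rw [Nat.one_le_iff_ne_zero]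
    intro h0
    rw [Ideal.absNorm_eq_zero_iff, Ideal.span_singleton_eq_bot] at h0
    exact ha h0
  have h2 : (1 : ℝ) ≤ ‖s a‖ ^ 2 := by
    rw [← normSq_eq_norm_sq, ← h]
    exact_mod_cast h1
  by_contra hc
  push Not at hc
  have h0 := norm_nonneg (s a)
  nlinarith

theorem units_finite (F : Fld s κ τ b b') : Finite (𝓞 K)ˣ := by
  obtain ⟨e, he⟩ := four_equiv F
  obtain ⟨N, hN⟩ := exists_nat_ge (2 * (‖s (b 0)‖ + ‖s (b 1)‖) / ‖s κ‖)
  have hb : ∀ (u : (𝓞 K)ˣ) (x y : ℝ), |2 * (s (u : 𝓞 K) * (x * s (b 0) + y * s (b 1)) / s κ).re| ≤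
      2 * (|x| * ‖s (b 0)‖ + |y| * ‖s (b 1)‖) / ‖s κ‖ := by
    intro u x y
    have h3 : ‖(x : ℂ) * s (b 0) + (y : ℂ) * s (b 1)‖ ≤ |x| * ‖s (b 0)‖ + |y| * ‖s (b 1)‖ := by
      refine (norm_add_le _ _).trans (le_of_eq ?_)
      rw [norm_mul, norm_mul, Complex.norm_real, Complex.norm_real, Real.norm_eq_abs,
        Real.norm_eq_abs]
    have h4 : |(s (u : 𝓞 K) * (x * s (b 0) + y * s (b 1)) / s κ).re| ≤
        (|x| * ‖s (b 0)‖ + |y| * ‖s (b 1)‖) / ‖s κ‖ := by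
      refine (Complex.abs_re_le_norm _).trans ?_
      rw [norm_div, norm_mul, unit_norm F u, one_mul]
      exact div_le_div_of_nonneg_right h3 (norm_nonneg _)
    rw [abs_mul, abs_two, mul_div_assoc 2 (|x| * ‖s (b 0)‖ + |y| * ‖s (b 1)‖)]
    linarith
  have hk : 0 ≤ ‖s κ‖ := norm_nonneg _
  have h1 : ∀ u : (𝓞 K)ˣ, (e (u : 𝓞 K)).1 ∈ Set.Icc (-(N : ℤ)) N := by
    intro u
    have h2 := he (u : 𝓞 K) 1 0
    have h3 := hb u 1 0
    rw [h2] at h3
    simp only [mul_one, mul_zero, add_zero, abs_one, abs_zero, one_mul, zero_mul] at h3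
    have h4 : |((e (u : 𝓞 K)).1 : ℝ)| ≤ N := by
      refine h3.trans (le_trans ?_ hN)
      gcongr
      linarith [norm_nonneg (s (b 1))]
    have h5 : |(e (u : 𝓞 K)).1| ≤ (N : ℤ) := by exact_mod_cast h4
    exact Set.mem_Icc.mpr (abs_le.mp h5)
  have h1' : ∀ u : (𝓞 K)ˣ, (e (u : 𝓞 K)).2 ∈ Set.Icc (-(N : ℤ)) N := by
    intro u
    have h2 := he (u : 𝓞 K) 0 1
    have h3 := hb u 0 1
    rw [h2] at h3
    simp only [mul_one, mul_zero, zero_add, abs_one, abs_zero, one_mul, zero_mul] at h3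
    have h4 : |((e (u : 𝓞 K)).2 : ℝ)| ≤ N := by
      refine h3.trans (le_trans ?_ hN)
      gcongr
      linarith [norm_nonneg (s (b 0))]
    have h5 : |(e (u : 𝓞 K)).2| ≤ (N : ℤ) := by exact_mod_cast h4
    exact Set.mem_Icc.mpr (abs_le.mp h5)
  let f : (𝓞 K)ˣ → Set.Icc (-(N : ℤ)) N × Set.Icc (-(N : ℤ)) N := fun u =>
    (⟨(e (u : 𝓞 K)).1, h1 u⟩, ⟨(e (u : 𝓞 K)).2, h1' u⟩)
  refine Finite.of_injective f fun u u' h => ?_
  have h5 := congrArg Prod.fst h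
  have h6 := congrArg Prod.snd h
  have h7 : e (u : 𝓞 K) = e (u' : 𝓞 K) :=
    Prod.ext (congrArg Subtype.val h5) (congrArg Subtype.val h6)
  exact Units.ext (e.injective h7)

end Pool.Agent.HB
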