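import Pool.Agent.Lib_helper99.HB.Defs
import Pool.Agent.Lib_helper99.HBF.FB

/-!
# HB, block BX: coordinates on the box
-/

namespace Pool.Agent.HB

open NumberField Complex MeasureTheory
open scoped MatrixGroups ENNReal NNReal

set_option linter.unusedSectionVars false

variable {K : Type} [Field K] [NumberField K]
variable {s : 𝓞 K →+* ℂ} {κ : 𝓞 K} {τ : 𝓞 K ≃+* 𝓞 K} {b b' : Fin 2 → 𝓞 K}

/-- `mk3` is measurable -/
theorem bx_mk3_meas : Measurable (fun p : ℂ × ℝ => mk3 p.1 p.2) := by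
  have hS : MeasurableSet {p : ℂ × ℝ | 0 < p.2} :=
    measurableSet_lt measurable_const measurable_snd
  have h1 : Measurable (fun p : ℂ × ℝ => ((mk3 p.1 p.2 : H3) : ℂ × ℝ)) := by
    have h : (fun p : ℂ × ℝ => ((mk3 p.1 p.2 : H3) : ℂ × ℝ)) =
        fun p : ℂ × ℝ => if 0 < p.2 then p else ((0, 1) : ℂ × ℝ) := by
      funext p
      unfold mk3
      split_ifs <;> rfl
    rw [h]
    exact Measurable.ite hS measurable_id measurable_const
  exact h1.subtype_mk (h := fun p => (mk3 p.1 p.2).2)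

theorem bx_mk3_val {y : ℝ} (hy : 0 < y) (z : ℂ) : mk3 z y = ⟨(z, y), hy⟩ := by
  unfold mk3
  rw [dif_pos hy]

/-- the density of `mu` -/
theorem bx_dens_meas : Measurable (fun P : H3 => ENNReal.ofReal (1 / P.1.2 ^ 3)) := by
  have h : Measurable (fun P : H3 => P.1.2) := measurable_snd.comp measurable_subtype_coe
  exact (measurable_const.div (h.pow_const 3)).ennreal_ofReal

theorem bx_cu_meas (s : 𝓞 K →+* ℂ) (b : Fin 2 → 𝓞 K) : Measurable (cu s b) := by
  have h : Measurable (fun P : H3 => P.1.1) := measurable_fst.comp measurable_subtype_coe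
  have hr := Complex.measurable_re.comp h
  have hi := Complex.measurable_im.comp h
  unfold cu
  exact ((hr.mul_const _).sub (hi.mul_const _)).div_const _

theorem bx_cv_meas (s : 𝓞 K →+* ℂ) (b : Fin 2 → 𝓞 K) : Measurable (cv s b) := by
  have h : Measurable (fun P : H3 => P.1.1) := measurable_fst.comp measurable_subtype_coe
  have hr := Complex.measurable_re.comp h
  have hi := Complex.measurable_im.comp h
  unfold cv
  exact ((hi.mul_const _).sub (hr.mul_const _)).div_const _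

theorem bx_box_meas (s : 𝓞 K →+* ℂ) (b : Fin 2 → 𝓞 K) : MeasurableSet (Box s b) :=
  (bx_cu_meas s b measurableSet_Ico).inter (bx_cv_meas s b measurableSet_Ico)

/-- the integral over `H3` in coordinates -/
theorem bx_lint1 {f : H3 → ℝ≥0∞} (hf : Measurable f) :
    ∫⁻ P, f P ∂mu = ∫⁻ y in Set.Ioi (0 : ℝ), ∫⁻ p : ℝ × ℝ, ENNReal.ofReal (1 / y ^ 3) *
      f (mk3 ((p.1 : ℂ) + p.2 * I) y) := by
  have hS : MeasurableSet {p : ℂ × ℝ | 0 < p.2} :=
    measurableSet_lt measurable_const measurable_snd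
  have hgm : Measurable (fun p : ℂ × ℝ => ENNReal.ofReal (1 / p.2 ^ 3) * f (mk3 p.1 p.2)) :=
    ((measurable_const.div (measurable_snd.pow_const 3)).ennreal_ofReal).mul
      (hf.comp bx_mk3_meas)
  have h1 : ∀ P : H3, ((fun P : H3 => ENNReal.ofReal (1 / P.1.2 ^ 3)) * f) P =
      (fun p : ℂ × ℝ => ENNReal.ofReal (1 / p.2 ^ 3) * f (mk3 p.1 p.2)) (P : ℂ × ℝ) := by
    intro P
    simp only [Pi.mul_apply]
    rw [bx_mk3_val P.2]
  have key : ∀ G : ℂ × ℝ → ℝ≥0∞, ∫⁻ P : H3, G (P : ℂ × ℝ)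
      ∂(Measure.comap Subtype.val (volume : Measure (ℂ × ℝ))) =
      ∫⁻ p in {p : ℂ × ℝ | 0 < p.2}, G p := fun G => lintegral_subtype_comap hS G
  unfold mu
  rw [lintegral_withDensity_eq_lintegral_mul _ bx_dens_meas hf, lintegral_congr h1,
    key (fun p : ℂ × ℝ => ENNReal.ofReal (1 / p.2 ^ 3) * f (mk3 p.1 p.2))]
  have hpre : {p : ℂ × ℝ | 0 < p.2} = Set.univ ×ˢ Set.Ioi (0 : ℝ) := by
    ext p
    simp
  rw [hpre, Measure.volume_eq_prod, ← Measure.prod_restrict, Measure.restrict_univ,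
    lintegral_prod_symm _ hgm.aemeasurable]
  refine lintegral_congr fun y => ?_
  rw [← (Complex.volume_preserving_equiv_real_prod.symm _).lintegral_comp_emb
      (Complex.measurableEquivRealProd.symm.measurableEmbedding)]
  refine lintegral_congr fun p => ?_
  have h3 : (Complex.measurableEquivRealProd.symm p : ℂ) = (p.1 : ℂ) + p.2 * I := by
    rw [Complex.measurableEquivRealProd_symm_apply]
    exact (Complex.mk_eq_add_mul_I p.1 p.2)
  rw [h3]

theorem bx_lin {m00 m01 m10 m11 : ℝ} (hd : m00 * m11 - m01 * m10 ≠ 0) {G : ℝ × ℝ → ℝ≥0∞}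
    (hG : Measurable G) :
    ∫⁻ p : ℝ × ℝ, G p = ENNReal.ofReal |m00 * m11 - m01 * m10| *
      ∫⁻ p : ℝ × ℝ, G (m00 * p.1 + m01 * p.2, m10 * p.1 + m11 * p.2) := by
  set M : Matrix (Fin 2) (Fin 2) ℝ := !![m00, m01; m10, m11] with hM
  have hdet : M.det = m00 * m11 - m01 * m10 := by rw [hM, Matrix.det_fin_two_of]
  have hdet0 : M.det ≠ 0 := by rw [hdet]; exact hd
  have hmap := Real.map_matrix_volume_pi_eq_smul_volume_pi hdet0
  have hE := volume_preserving_finTwoArrow ℝ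
  have h1 : ∀ H : ℝ × ℝ → ℝ≥0∞, ∫⁻ p : ℝ × ℝ, H p =
      ∫⁻ x : Fin 2 → ℝ, H (x 0, x 1) := by
    intro H
    rw [← hE.lintegral_comp_emb (MeasurableEquiv.finTwoArrow.measurableEmbedding)]
    rfl
  rw [h1, h1]
  have h2 : ∫⁻ x : Fin 2 → ℝ, G (m00 * x 0 + m01 * x 1, m10 * x 0 + m11 * x 1) =
      ENNReal.ofReal |(M.det)⁻¹| * ∫⁻ x : Fin 2 → ℝ, G (x 0, x 1) := by
    have hm : Measurable (fun x : Fin 2 → ℝ => G (x 0, x 1)) := by
      refine hG.comp ?_
      exact (measurable_pi_apply 0).prodMk (measurable_pi_apply 1)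
    have hlm : Measurable (Matrix.toLin' M) :=
      (LinearMap.continuous_of_finiteDimensional (Matrix.toLin' M)).measurable
    have h3 := lintegral_map hm hlm (μ := (volume : Measure (Fin 2 → ℝ)))
    rw [hmap, lintegral_smul_measure] at h3
    rw [smul_eq_mul] at h3
    rw [h3]
    refine lintegral_congr fun x => ?_
    congr 1
    simp [Matrix.toLin'_apply, hM, Matrix.mulVec, dotProduct, Fin.sum_univ_two]
  rw [h2, ← mul_assoc, ← ENNReal.ofReal_mul (abs_nonneg _), ← hdet, ← abs_mul,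
    mul_inv_cancel₀ hdet0]
  simp

theorem bx_mem (hd : dl s b ≠ 0) {u v y : ℝ} (hy : 0 < y) :
    mk3 (u * s (b 0) + v * s (b 1)) y ∈ Box s b ↔
      u ∈ Set.Ico (0 : ℝ) 1 ∧ v ∈ Set.Ico (0 : ℝ) 1 := by
  have e1 : cu s b (mk3 (u * s (b 0) + v * s (b 1)) y) = u := by
    rw [bx_mk3_val hy]
    unfold cu
    simp only [Complex.add_re, Complex.add_im, Complex.mul_re, Complex.mul_im, Complex.ofReal_re,
      Complex.ofReal_im]
    rw [div_eq_iff hd]
    unfold dl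
    ring
  have e2 : cv s b (mk3 (u * s (b 0) + v * s (b 1)) y) = v := by
    rw [bx_mk3_val hy]
    unfold cv
    simp only [Complex.add_re, Complex.add_im, Complex.mul_re, Complex.mul_im, Complex.ofReal_re,
      Complex.ofReal_im]
    rw [div_eq_iff hd]
    unfold dl
    ring
  unfold Box
  rw [Set.mem_ofPred_eq, e1, e2]

theorem bx_pt_meas (s : 𝓞 K →+* ℂ) (b : Fin 2 → 𝓞 K) :
    Measurable (fun q : ℝ × ℝ × ℝ => mk3 (q.2.1 * s (b 0) + q.2.2 * s (b 1)) q.1) := by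
  have h : Measurable (fun q : ℝ × ℝ × ℝ =>
      ((q.2.1 * s (b 0) + q.2.2 * s (b 1), q.1) : ℂ × ℝ)) := by
    fun_prop
  exact bx_mk3_meas.comp h

theorem box_lint (F : Fld s κ τ b b') {Ψ : H3 → ℝ≥0∞} (hΨ : Measurable Ψ) :
    ∫⁻ P in Box s b, Ψ P ∂mu = ∫⁻ y in Set.Ioi (0 : ℝ),
      ∫⁻ u in Set.Icc (0 : ℝ) 1, ∫⁻ v in Set.Icc (0 : ℝ) 1,
        ENNReal.ofReal (|dl s b| / y ^ 3) * Ψ (mk3 (u * s (b 0) + v * s (b 1)) y) := by
  have hd : dl s b ≠ 0 := dl_ne F
  have hB := bx_box_meas s b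
  have hΦm : Measurable ((Box s b).indicator Ψ) := hΨ.indicator hB
  rw [← lintegral_indicator hB, bx_lint1 hΦm]
  refine setLIntegral_congr_fun measurableSet_Ioi fun y (hy : 0 < y) => ?_
  have hm5 : Measurable (fun p : ℝ × ℝ => ENNReal.ofReal (1 / y ^ 3) *
      (Box s b).indicator Ψ (mk3 ((p.1 : ℂ) + p.2 * I) y)) := by
    refine Measurable.mul measurable_const (hΦm.comp ?_)
    have h : Measurable (fun p : ℝ × ℝ => (((p.1 : ℂ) + p.2 * I, y) : ℂ × ℝ)) := by fun_prop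
    exact bx_mk3_meas.comp h
  have hdl : (s (b 0)).re * (s (b 1)).im - (s (b 1)).re * (s (b 0)).im ≠ 0 := hd
  rw [bx_lin hdl hm5]
  have e3 : ∀ p : ℝ × ℝ, (fun p : ℝ × ℝ => ENNReal.ofReal (1 / y ^ 3) *
      (Box s b).indicator Ψ (mk3 ((p.1 : ℂ) + p.2 * I) y))
        ((s (b 0)).re * p.1 + (s (b 1)).re * p.2, (s (b 0)).im * p.1 + (s (b 1)).im * p.2) =
      (Set.Ico (0 : ℝ) 1 ×ˢ Set.Ico (0 : ℝ) 1).indicator (fun p =>
        ENNReal.ofReal (1 / y ^ 3) * Ψ (mk3 (p.1 * s (b 0) + p.2 * s (b 1)) y)) p := by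
    intro p
    have e4 : ((((s (b 0)).re * p.1 + (s (b 1)).re * p.2 : ℝ) : ℂ) +
        (((s (b 0)).im * p.1 + (s (b 1)).im * p.2 : ℝ) : ℂ) * I) =
        p.1 * s (b 0) + p.2 * s (b 1) := by
      apply Complex.ext
      · simp
        ring
      · simp
        ring
    simp only
    rw [e4]
    by_cases hu : p ∈ Set.Ico (0 : ℝ) 1 ×ˢ Set.Ico (0 : ℝ) 1
    · rw [Set.indicator_of_mem hu, Set.indicator_of_mem ((bx_mem hd hy).2 ⟨hu.1, hu.2⟩)]
    · rw [Set.indicator_of_notMem hu,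
        Set.indicator_of_notMem (fun h => hu ⟨((bx_mem hd hy).1 h).1,
          ((bx_mem hd hy).1 h).2⟩)]
      simp
  rw [lintegral_congr e3, lintegral_indicator (measurableSet_Ico.prod measurableSet_Ico),
    Measure.volume_eq_prod, ← Measure.prod_restrict, restrict_Ico_eq_restrict_Icc]
  have hm6 : Measurable (fun p : ℝ × ℝ => ENNReal.ofReal (1 / y ^ 3) *
      Ψ (mk3 (p.1 * s (b 0) + p.2 * s (b 1)) y)) := by
    refine Measurable.mul measurable_const (hΨ.comp ?_)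
    exact (bx_pt_meas s b).comp (measurable_prodMk_left (x := y))
  rw [lintegral_prod _ hm6.aemeasurable, ← lintegral_const_mul' _ _ ENNReal.ofReal_ne_top]
  refine lintegral_congr fun u => ?_
  rw [← lintegral_const_mul' _ _ ENNReal.ofReal_ne_top]
  refine lintegral_congr fun v => ?_
  rw [← mul_assoc, ← ENNReal.ofReal_mul (abs_nonneg _)]
  congr 2
  unfold dl
  field_simp

/-- the reference measure -/
noncomputable def bx_nu : Measure (ℝ × ℝ × ℝ) :=
  ((volume : Measure ℝ).restrict (Set.Ioi 0)).prod (((volume : Measure ℝ).restrict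
    (Set.Icc 0 1)).prod ((volume : Measure ℝ).restrict (Set.Icc 0 1)))

/-- the density -/
noncomputable def bx_d (s : 𝓞 K →+* ℂ) (b : Fin 2 → 𝓞 K) (q : ℝ × ℝ × ℝ) : ℝ≥0∞ :=
  ENNReal.ofReal (|dl s b| / q.1 ^ 3)

/-- the coordinate map -/
noncomputable def bx_T (s : 𝓞 K →+* ℂ) (b : Fin 2 → 𝓞 K) (q : ℝ × ℝ × ℝ) : H3 :=
  mk3 (q.2.1 * s (b 0) + q.2.2 * s (b 1)) q.1

theorem bx_T_meas (s : 𝓞 K →+* ℂ) (b : Fin 2 → 𝓞 K) : Measurable (bx_T s b) :=
  bx_pt_meas s b

theorem bx_d_meas (s : 𝓞 K →+* ℂ) (b : Fin 2 → 𝓞 K) : Measurable (bx_d s b) := by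
  unfold bx_d
  fun_prop

theorem bx_map (F : Fld s κ τ b b') :
    (mu : Measure H3).restrict (Box s b) = (bx_nu.withDensity (bx_d s b)).map (bx_T s b) := by
  refine Measure.ext_of_lintegral _ fun Ψ hΨ => ?_
  have hm : Measurable (fun q => bx_d s b q * Ψ (bx_T s b q)) :=
    (bx_d_meas s b).mul (hΨ.comp (bx_T_meas s b))
  have e0 : ∫⁻ a, Ψ (bx_T s b a) ∂bx_nu.withDensity (bx_d s b) =
      ∫⁻ a, bx_d s b a * Ψ (bx_T s b a) ∂bx_nu :=
    lintegral_withDensity_eq_lintegral_mul _ (bx_d_meas s b) (hΨ.comp (bx_T_meas s b))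
  rw [lintegral_map hΨ (bx_T_meas s b), e0, box_lint F hΨ]
  unfold bx_nu
  rw [lintegral_prod _ hm.aemeasurable]
  refine lintegral_congr fun y => ?_
  have hm1 : Measurable (fun q => bx_d s b (y, q) * Ψ (bx_T s b (y, q))) :=
    hm.comp measurable_prodMk_left
  rw [lintegral_prod _ hm1.aemeasurable]
  rfl

theorem box_int (F : Fld s κ τ b b') {Ψ : H3 → ℂ} (hΨ : IntegrableOn Ψ (Box s b) mu) :
    ∫ P in Box s b, Ψ P ∂mu = ∫ y in Set.Ioi (0 : ℝ),
      ∫ u in Set.Icc (0 : ℝ) 1, ∫ v in Set.Icc (0 : ℝ) 1,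
        ((|dl s b| / y ^ 3 : ℝ) : ℂ) * Ψ (mk3 (u * s (b 0) + v * s (b 1)) y) := by
  have hT := bx_T_meas s b
  have hd := bx_d_meas s b
  have hdt : ∀ᵐ q ∂bx_nu, bx_d s b q < ∞ :=
    Filter.Eventually.of_forall fun q => ENNReal.ofReal_lt_top
  unfold IntegrableOn at hΨ
  rw [bx_map F] at hΨ ⊢
  have h1 : Integrable (Ψ ∘ bx_T s b) (bx_nu.withDensity (bx_d s b)) :=
    hΨ.comp_measurable hT
  have h2 : Integrable (fun q => (bx_d s b q).toReal • (Ψ ∘ bx_T s b) q) bx_nu :=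
    (integrable_withDensity_iff_integrable_smul' hd hdt).1 h1
  have hae : ∀ᵐ q ∂bx_nu, 0 < q.1 := by
    have h := Measure.ae_prod_mem_iff_ae_ae_mem
      (μ := (volume : Measure ℝ).restrict (Set.Ioi 0))
      (ν := ((volume : Measure ℝ).restrict (Set.Icc 0 1)).prod
        ((volume : Measure ℝ).restrict (Set.Icc 0 1)))
      (s := {q : ℝ × ℝ × ℝ | 0 < q.1}) (measurableSet_lt measurable_const measurable_fst)
    refine h.2 ?_
    refine (ae_restrict_iff' measurableSet_Ioi).2 (Filter.Eventually.of_forall fun y hy => ?_)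
    exact Filter.Eventually.of_forall fun q => hy
  have h3 : ∀ᵐ q ∂bx_nu, (bx_d s b q).toReal • (Ψ ∘ bx_T s b) q =
      ((|dl s b| / q.1 ^ 3 : ℝ) : ℂ) * Ψ (bx_T s b q) := by
    filter_upwards [hae] with q hq
    unfold bx_d
    rw [ENNReal.toReal_ofReal (by positivity), Complex.real_smul]
    rfl
  rw [integral_map hT.aemeasurable hΨ.aestronglyMeasurable,
    integral_withDensity_eq_integral_toReal_smul hd hdt]
  have h4 : Integrable (fun q => ((|dl s b| / q.1 ^ 3 : ℝ) : ℂ) * Ψ (bx_T s b q)) bx_nu :=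
    h2.congr h3
  have h5 : ∫ q, (bx_d s b q).toReal • Ψ (bx_T s b q) ∂bx_nu =
      ∫ q, ((|dl s b| / q.1 ^ 3 : ℝ) : ℂ) * Ψ (bx_T s b q) ∂bx_nu :=
    integral_congr_ae h3
  rw [h5]
  unfold bx_nu at h4 ⊢
  rw [integral_prod _ h4]
  refine integral_congr_ae ?_
  filter_upwards [h4.prod_right_ae] with y hy
  rw [integral_prod _ hy]
  rfl

end Pool.Agent.HB
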