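import Pool.Agent.Lib_helper99.HB.Defs

/-!
# Project HB: block FN (norm and trace)
-/

namespace Pool.Agent.HB

open NumberField Complex MeasureTheory
open scoped MatrixGroups ENNReal

variable {K : Type} [Field K] [NumberField K]

/-- the two complex embeddings -/
noncomputable def fn_e (σ : K →+* ℂ) (i : Fin 2) : K →ₐ[ℚ] ℂ :=
  (if i = 0 then σ else (starRingEnd ℂ).comp σ).toRatAlgHom

theorem fn_e_zero (σ : K →+* ℂ) (x : K) : fn_e σ 0 x = σ x := rfl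

theorem fn_e_one (σ : K →+* ℂ) (x : K) : fn_e σ 1 x = (starRingEnd ℂ) (σ x) := rfl

theorem fn_bij (h2 : Module.finrank ℚ K = 2) (σ : K →+* ℂ) (hσ : ∃ x, (σ x).im ≠ 0) :
    Function.Bijective (fn_e σ) := by
  rw [Fintype.bijective_iff_injective_and_card]
  constructor
  · have h01 : fn_e σ 0 ≠ fn_e σ 1 := by
      intro h
      obtain ⟨x, hx⟩ := hσ
      have h1 := congrArg (fun f : K →ₐ[ℚ] ℂ => f x) h
      simp only [fn_e_zero, fn_e_one] at h1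
      exact hx (Complex.conj_eq_iff_im.1 h1.symm)
    intro i j hij
    fin_cases i <;> fin_cases j
    · rfl
    · exact absurd hij h01
    · exact absurd hij.symm h01
    · rfl
  · rw [AlgHom.card, h2, Fintype.card_fin]

theorem fld_trace (h2 : Module.finrank ℚ K = 2) (σ : K →+* ℂ) (hσ : ∃ x, (σ x).im ≠ 0) (x : K) :
    ((Algebra.trace ℚ K x : ℚ) : ℝ) = 2 * (σ x).re := by
  have h1 := trace_eq_sum_embeddings (K := ℚ) (L := K) ℂ (x := x)
  have h2 : ∑ f : K →ₐ[ℚ] ℂ, f x = ∑ i : Fin 2, fn_e σ i x :=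
    ((fn_bij h2 σ hσ).sum_comp (fun f : K →ₐ[ℚ] ℂ => f x)).symm
  rw [h2, Fin.sum_univ_two, fn_e_zero, fn_e_one, Complex.add_conj] at h1
  have h3 : (((Algebra.trace ℚ K x : ℚ) : ℝ) : ℂ) = ((2 * (σ x).re : ℝ) : ℂ) := by
    rw [← h1]
    simp
  exact_mod_cast h3

theorem fn_norm (h2 : Module.finrank ℚ K = 2) (σ : K →+* ℂ) (hσ : ∃ x, (σ x).im ≠ 0) (x : K) :
    ((Algebra.norm ℚ x : ℚ) : ℝ) = normSq (σ x) := by
  have h1 := Algebra.norm_eq_prod_embeddings ℚ ℂ (x := x)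
  have h2 : ∏ f : K →ₐ[ℚ] ℂ, f x = ∏ i : Fin 2, fn_e σ i x :=
    ((fn_bij h2 σ hσ).prod_comp (fun f : K →ₐ[ℚ] ℂ => f x)).symm
  rw [h2, Fin.prod_univ_two, fn_e_zero, fn_e_one, Complex.mul_conj] at h1
  have h3 : (((Algebra.norm ℚ x : ℚ) : ℝ) : ℂ) = ((normSq (σ x) : ℝ) : ℂ) := by
    rw [← h1]
    simp
  exact_mod_cast h3

theorem fld_norm (h2 : Module.finrank ℚ K = 2) (σ : K →+* ℂ) (hσ : ∃ x, (σ x).im ≠ 0) (x : 𝓞 K) :
    (Ideal.absNorm (Ideal.span {x}) : ℝ) = normSq (σ (algebraMap (𝓞 K) K x)) := by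
  have h0 : 0 ≤ normSq (σ (algebraMap (𝓞 K) K x)) := normSq_nonneg _
  rw [← abs_of_nonneg h0, ← fn_norm h2 σ hσ, Ideal.absNorm_span_singleton, ← Algebra.coe_norm_int,
    Nat.cast_natAbs]
  push_cast
  rfl

end Pool.Agent.HB
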