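import Pool.Agent.Lib_helper98.H4F.FD
import Pool.Agent.Lib_helper99.HB.Defs
import Pool.Agent.Lib_helper99.HBF.FN

/-!
# Block FD
-/

namespace Pool.Agent.HB

open NumberField Complex MeasureTheory
open scoped MatrixGroups ENNReal nonZeroDivisors
open Pool.Agent.H4 (NI PI Hek blw Spl Inr tt uu p4 hh PP ml atl FunBd vcf)
open Pool.Agent.H4 (fd_ne fd_mem fd_mem')

variable {K : Type} [Field K] [NumberField K]

theorem fld_dual (h2 : Module.finrank ℚ K = 2) (σ : K →+* ℂ) (hσ : ∃ x, (σ x).im ≠ 0) (κ : 𝓞 K)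
    (hκ : differentIdeal ℤ (𝓞 K) = Ideal.span {κ}) : κ ≠ 0 ∧ ∃ b b' : Fin 2 → 𝓞 K,
      (∀ x, ∃ n : Fin 2 → ℤ, x = n 0 * b 0 + n 1 * b 1) ∧
      (∀ x, ∃ n : Fin 2 → ℤ, x = n 0 * b' 0 + n 1 * b' 1) ∧
      ∀ i j, 2 * (σ (algebraMap (𝓞 K) K (b i * b' j)) / σ (algebraMap (𝓞 K) K κ)).re =
        if i = j then 1 else 0 := by
  have hK := h2
  have hκ0 : (κ : K) ≠ 0 := by
    intro h
    have h1 : κ = 0 := RingOfIntegers.coe_injective h
    apply fd_ne (K := K)
    rw [hκ, h1, Ideal.span_singleton_eq_bot]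
  have hcard : Fintype.card (Module.Free.ChooseBasisIndex ℤ (𝓞 K)) = 2 := by
    rw [← Module.finrank_eq_card_chooseBasisIndex, RingOfIntegers.rank, hK]
  let e : Module.Free.ChooseBasisIndex ℤ (𝓞 K) ≃ Fin 2 := Fintype.equivFinOfCardEq hcard
  let bz : Module.Basis (Fin 2) ℤ (𝓞 K) := (RingOfIntegers.basis K).reindex e
  let bq : Module.Basis (Fin 2) ℚ K := (integralBasis K).reindex e
  have hbq : ∀ i, bq i = (bz i : K) := by
    intro i
    simp [bq, bz, integralBasis_apply]
  have hexp : ∀ x : 𝓞 K, x = (bz.repr x 0 : ℤ) * bz 0 + (bz.repr x 1 : ℤ) * bz 1 := by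
    intro x
    have h := bz.sum_repr x
    rw [Fin.sum_univ_two] at h
    simp only [zsmul_eq_mul] at h
    exact h.symm
  let d : Module.Basis (Fin 2) ℚ K := bq.traceDual
  have hd : ∀ i j, Algebra.trace ℚ K (d i * bq j) = if i = j then 1 else 0 := by
    intro i j
    have h := Module.Basis.trace_traceDual_mul bq i j
    rw [h]
    simp [eq_comm]
  -- the second basis
  have hb' : ∀ j, ∃ z : 𝓞 K, (z : K) = κ * d j := by
    intro j
    have h1 : κ ∈ differentIdeal ℤ (𝓞 K) := by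
      rw [hκ]
      exact Ideal.mem_span_singleton_self κ
    apply fd_mem.1 h1
    intro a
    refine ⟨bz.repr a j, ?_⟩
    have h2 : (a : K) = ((bz.repr a 0 : ℤ) : K) * bq 0 + ((bz.repr a 1 : ℤ) : K) * bq 1 := by
      rw [hbq, hbq]
      conv_lhs => rw [hexp a]
      show algebraMap (𝓞 K) K _ = _
      rw [map_add, map_mul, map_mul, map_intCast, map_intCast]
    have h3 : d j * (a : K) = ((bz.repr a 0 : ℤ) : ℚ) • (d j * bq 0) +
        ((bz.repr a 1 : ℤ) : ℚ) • (d j * bq 1) := by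
      rw [h2, Algebra.smul_def, Algebra.smul_def]
      simp only [map_intCast]
      ring
    rw [h3, map_add, map_smul, map_smul, hd, hd]
    fin_cases j <;> simp
  choose b' hb' using hb'
  refine ⟨fun h => hκ0 (by rw [h]; exact map_zero _), bz, b', fun x => ⟨fun i => bz.repr x i, hexp x⟩, ?_, ?_⟩
  · intro x
    choose n hn using fun i : Fin 2 => fd_mem' hκ x (bz i)
    refine ⟨n, ?_⟩
    apply RingOfIntegers.coe_injective
    show algebraMap (𝓞 K) K x = algebraMap (𝓞 K) K _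
    have h1 := d.sum_repr ((x : K) / κ)
    rw [Fin.sum_univ_two] at h1
    have h2 : ∀ i, d.repr ((x : K) / κ) i = (n i : ℚ) := by
      intro i
      have h3 := Module.Basis.traceDual_repr_apply bq ((x : K) / κ) i
      rw [hn i, ← hbq i]
      exact h3
    rw [h2, h2] at h1
    have h4 : (x : K) = ((n 0 : ℚ) • d 0 + (n 1 : ℚ) • d 1) * κ := by
      rw [h1]
      field_simp
    rw [map_add, map_mul, map_mul, map_intCast, map_intCast]
    have h5 : algebraMap (𝓞 K) K x = (x : K) := rfl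
    have h6 : algebraMap (𝓞 K) K (b' 0) = κ * d 0 := hb' 0
    have h7 : algebraMap (𝓞 K) K (b' 1) = κ * d 1 := hb' 1
    rw [h5, h6, h7, h4, Algebra.smul_def, Algebra.smul_def]
    simp only [map_intCast]
    ring
  · intro i j
    have h1 : σ (algebraMap (𝓞 K) K (bz i * b' j)) / σ (algebraMap (𝓞 K) K κ) = σ (d j * bq i) := by
      have h2 : algebraMap (𝓞 K) K (bz i * b' j) = κ * (d j * bq i) := by
        rw [map_mul, hbq]
        have h7 : algebraMap (𝓞 K) K (b' j) = κ * d j := hb' j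
        rw [h7]
        ring
      have h3 : σ (algebraMap (𝓞 K) K κ) ≠ 0 := by
        rw [ne_eq, map_eq_zero]
        exact hκ0
      rw [h2, map_mul]
      field_simp
    have h4 := fld_trace h2 σ hσ (d j * bq i)
    rw [h1, ← h4, hd]
    by_cases h : i = j
    · simp [h]
    · simp [h, Ne.symm h]

end Pool.Agent.HB
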