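import Pool.Agent.Lib_helper99.HB.Defs

/-!
# Project HB: block FT (complex conjugation)
-/

namespace Pool.Agent.HB

open NumberField Complex MeasureTheory
open scoped MatrixGroups ENNReal

variable {K : Type} [Field K] [NumberField K]

theorem ft_two (hK : Module.finrank ℚ K = 2) (φ ψ χ : K →+* ℂ) (h : φ ≠ ψ) :
    χ = φ ∨ χ = ψ := by
  classical
  have hc : Fintype.card (K →+* ℂ) = 2 := by
    rw [← hK]; exact NumberField.Embeddings.card K ℂ
  have h1 : ({φ, ψ} : Finset (K →+* ℂ)) = Finset.univ := by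
    apply Finset.eq_univ_of_card
    rw [Finset.card_pair h, hc]
  have h2 : χ ∈ ({φ, ψ} : Finset (K →+* ℂ)) := by rw [h1]; exact Finset.mem_univ _
  simpa using h2

theorem fld_tau (h2 : Module.finrank ℚ K = 2) (σ : K →+* ℂ) (hσ : ∃ x, (σ x).im ≠ 0) :
    ∃ τ : 𝓞 K ≃+* 𝓞 K, ∀ x : 𝓞 K, σ (algebraMap (𝓞 K) K (τ x)) =
      (starRingEnd ℂ) (σ (algebraMap (𝓞 K) K x)) := by
  classical
  have : Algebra.IsQuadraticExtension ℚ K := ⟨h2⟩
  have : IsGalois ℚ K := inferInstance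
  have hc : Nat.card (K ≃ₐ[ℚ] K) = 2 := by
    rw [← h2]; exact IsGalois.card_aut_eq_finrank ℚ K
  have : Finite (K ≃ₐ[ℚ] K) := Nat.finite_of_card_ne_zero (by rw [hc]; norm_num)
  have : Nontrivial (K ≃ₐ[ℚ] K) := by
    rw [← Finite.one_lt_card_iff_nontrivial, hc]; norm_num
  obtain ⟨g, hg⟩ := exists_ne (1 : K ≃ₐ[ℚ] K)
  obtain ⟨x₀, hx₀⟩ : ∃ x₀, g x₀ ≠ x₀ := by
    by_contra hcon
    push Not at hcon
    apply hg
    ext x
    simpa using hcon x
  have hne : σ ≠ (starRingEnd ℂ).comp σ := by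
    intro h
    obtain ⟨x, hx⟩ := hσ
    have h1 := congrArg (fun f : K →+* ℂ => f x) h
    exact hx (Complex.conj_eq_iff_im.1 h1.symm)
  refine ⟨NumberField.RingOfIntegers.mapRingEquiv (g : K ≃+* K), fun x => ?_⟩
  have he : algebraMap (𝓞 K) K (NumberField.RingOfIntegers.mapRingEquiv (g : K ≃+* K) x) =
      g (algebraMap (𝓞 K) K x) := NumberField.RingOfIntegers.mapRingEquiv_apply _ _
  rw [he]
  rcases ft_two h2 σ ((starRingEnd ℂ).comp σ) (σ.comp ((g : K ≃+* K) : K →+* K)) hne with h | h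
  · exfalso
    apply hx₀
    have h3 := congrArg (fun f : K →+* ℂ => f x₀) h
    exact σ.injective h3
  · have h3 := congrArg (fun f : K →+* ℂ => f (algebraMap (𝓞 K) K x)) h
    exact h3

end Pool.Agent.HB
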