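import Pool.Agent.Lib_helper98.H4F.FD
import Pool.Agent.Lib_helper99.HB.Defs
import Pool.Agent.Lib_helper99.HBF.FD
import Pool.Agent.Lib_helper99.HBF.FN
import Pool.Agent.Lib_helper99.HBF.FT

/-! Hardy over imaginary quadratic fields, block FA: the field data exist -/

namespace Pool.Agent.HB

open NumberField Complex MeasureTheory
open scoped MatrixGroups ENNReal
open Pool.Agent.H4 (NI PI Hek blw Spl Inr tt uu p4 hh PP ml atl FunBd vcf)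

variable {K : Type} [Field K] [NumberField K]

theorem fld_kapt (h2 : Module.finrank ℚ K = 2) (σ : K →+* ℂ) (hσ : ∃ x, (σ x).im ≠ 0) (κ : 𝓞 K)
    (hκ : differentIdeal ℤ (𝓞 K) = Ideal.span {κ}) (τ : 𝓞 K ≃+* 𝓞 K)
    (hτ : ∀ x : 𝓞 K, σ (algebraMap (𝓞 K) K (τ x)) =
      (starRingEnd ℂ) (σ (algebraMap (𝓞 K) K x))) : ∃ u : (𝓞 K)ˣ, τ κ = u * κ := by
  obtain ⟨u, hu⟩ := Pool.Agent.H4.fld_kapt hκ τ
  refine ⟨u⁻¹, ?_⟩
  conv_rhs => rw [hu]
  rw [← mul_assoc, Units.inv_mul, one_mul]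

theorem fld_exists (h2 : Module.finrank ℚ K = 2) (σ : K →+* ℂ) (hσ : ∃ x, (σ x).im ≠ 0)
    (hcl : ∀ I : Ideal (𝓞 K), ∃ a, I = Ideal.span {a}) (κ : 𝓞 K)
    (hκ : differentIdeal ℤ (𝓞 K) = Ideal.span {κ}) :
    ∃ (τ : 𝓞 K ≃+* 𝓞 K) (b b' : Fin 2 → 𝓞 K), Fld (σ.comp (algebraMap (𝓞 K) K)) κ τ b b' := by
  obtain ⟨τ, hτ⟩ := fld_tau h2 σ hσ
  obtain ⟨hk0, b, b', hb, hb', hd⟩ := fld_dual h2 σ hσ κ hκ
  exact ⟨τ, b, b',
    { tau := fun x => hτ x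
      inj := fun x hx => by
        have h : σ (algebraMap (𝓞 K) K x) = 0 := hx
        have h3 : algebraMap (𝓞 K) K x = 0 := (map_eq_zero σ).mp h
        exact (map_eq_zero_iff _ (FaithfulSMul.algebraMap_injective (𝓞 K) K)).mp h3
      gen := hcl
      norm := fun x => fld_norm h2 σ hσ x
      kap := hk0
      kapt := fld_kapt h2 σ hσ κ hκ τ hτ
      bas := hb
      bas' := hb'
      dual := hd }⟩

end Pool.Agent.HB
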