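import Pool.Agent.Lib_helper99.HB.Defs

/-!
# Hardy over imaginary quadratic fields: block AN (helper99; after H4F/AN)
-/

namespace Pool.Agent.HB

open NumberField Complex MeasureTheory
open scoped MatrixGroups ENNReal
open Pool.Agent.H4 (NI PI Hek)

variable {K : Type} [Field K] [NumberField K]

theorem an_fin (lam : Ideal (𝓞 K) → ℝ) (n : ℕ) :
    an lam n = ∑ 𝔞 ∈ (Ideal.finite_setOfPred_absNorm_eq (S := 𝓞 K) n).toFinset,
      (lam 𝔞 : ℂ) := by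
  classical
  unfold an
  rw [tsum_eq_sum (s := (Ideal.finite_setOfPred_absNorm_eq (S := 𝓞 K) n).toFinset)]
  · refine Finset.sum_congr rfl fun 𝔞 h𝔞 => ?_
    rw [Set.Finite.mem_toFinset, Set.mem_ofPred_eq] at h𝔞
    rw [if_pos h𝔞]
  · intro 𝔞 h𝔞
    rw [Set.Finite.mem_toFinset, Set.mem_ofPred_eq] at h𝔞
    rw [if_neg h𝔞]

theorem an_one {lam : Ideal (𝓞 K) → ℝ} (h : Hek lam) : an lam 1 = 1 := by
  rw [an_fin]
  have : (Ideal.finite_setOfPred_absNorm_eq (S := 𝓞 K) 1).toFinset = {⊤} := by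
    ext 𝔞
    rw [Set.Finite.mem_toFinset, Finset.mem_singleton, Set.mem_ofPred_eq, Ideal.absNorm_eq_one_iff]
  rw [this, Finset.sum_singleton, h.one]
  simp

theorem an_coprime {𝔞 𝔟 : Ideal (𝓞 K)} {m n : ℕ} (hmn : m.Coprime n)
    (ha : Ideal.absNorm 𝔞 = m) (hb : Ideal.absNorm 𝔟 = n) : IsCoprime 𝔞 𝔟 := by
  have h1 : ((m : ℕ) : 𝓞 K) ∈ 𝔞 := by rw [← ha]; exact Ideal.absNorm_mem 𝔞
  have h2 : ((n : ℕ) : 𝓞 K) ∈ 𝔟 := by rw [← hb]; exact Ideal.absNorm_mem 𝔟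
  rw [Ideal.isCoprime_iff_exists]
  have h3 := (Nat.isCoprime_iff_coprime.2 hmn)
  obtain ⟨u, v, huv⟩ := h3
  refine ⟨(u : 𝓞 K) * (m : 𝓞 K), Ideal.mul_mem_left _ _ h1, (v : 𝓞 K) * (n : 𝓞 K),
    Ideal.mul_mem_left _ _ h2, ?_⟩
  have := congrArg (fun z : ℤ => (z : 𝓞 K)) huv
  push_cast at this
  exact this

theorem an_split_ideal {𝔠 : Ideal (𝓞 K)} {m n : ℕ} (hmn : m.Coprime n)
    (hc : Ideal.absNorm 𝔠 = m * n) :
    (𝔠 ⊔ Ideal.span {(m : 𝓞 K)}) * (𝔠 ⊔ Ideal.span {(n : 𝓞 K)}) = 𝔠 := by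
  apply le_antisymm
  · rw [Ideal.mul_le]
    intro x hx y hy
    rw [Submodule.mem_sup] at hx hy
    obtain ⟨x1, hx1, x2, hx2, rfl⟩ := hx
    obtain ⟨y1, hy1, y2, hy2, rfl⟩ := hy
    obtain ⟨p, rfl⟩ := Ideal.mem_span_singleton'.1 hx2
    obtain ⟨q, rfl⟩ := Ideal.mem_span_singleton'.1 hy2
    have h3 : ((m : 𝓞 K) * (n : 𝓞 K)) ∈ 𝔠 := by
      have := Ideal.absNorm_mem 𝔠
      rw [hc] at this
      push_cast at this
      exact this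
    have : (x1 + p * (m : 𝓞 K)) * (y1 + q * (n : 𝓞 K)) =
        (y1 + q * (n : 𝓞 K)) * x1 + (p * m) * y1 + (p * q) * ((m : 𝓞 K) * n) := by ring
    rw [this]
    exact 𝔠.add_mem (𝔠.add_mem (𝔠.mul_mem_left _ hx1) (𝔠.mul_mem_left _ hy1))
      (𝔠.mul_mem_left _ h3)
  · intro x hx
    obtain ⟨u, v, huv⟩ := (Nat.isCoprime_iff_coprime.2 hmn)
    have h := congrArg (fun z : ℤ => (z : 𝓞 K)) huv
    push_cast at h
    have : x = ((u : 𝓞 K) * (m : 𝓞 K)) * x + x * ((v : 𝓞 K) * (n : 𝓞 K)) := by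
      linear_combination -x * h
    rw [this]
    have m1 : x ∈ 𝔠 ⊔ Ideal.span {(m : 𝓞 K)} := Ideal.mem_sup_left hx
    have m2 : x ∈ 𝔠 ⊔ Ideal.span {(n : 𝓞 K)} := Ideal.mem_sup_left hx
    have m3 : (u : 𝓞 K) * (m : 𝓞 K) ∈ 𝔠 ⊔ Ideal.span {(m : 𝓞 K)} :=
      Ideal.mem_sup_right (Ideal.mem_span_singleton'.2 ⟨_, rfl⟩)
    have m4 : (v : 𝓞 K) * (n : 𝓞 K) ∈ 𝔠 ⊔ Ideal.span {(n : 𝓞 K)} :=
      Ideal.mem_sup_right (Ideal.mem_span_singleton'.2 ⟨_, rfl⟩)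
    exact Ideal.add_mem _ (Ideal.mul_mem_mul m3 m2) (Ideal.mul_mem_mul m1 m4)

theorem an_norm_dvd (𝔠 : Ideal (𝓞 K)) (m : ℕ) :
    Ideal.absNorm (𝔠 ⊔ Ideal.span {(m : 𝓞 K)}) ∣ m ^ Module.finrank ℤ (𝓞 K) := by
  have h1 : Ideal.absNorm (𝔠 ⊔ Ideal.span {(m : 𝓞 K)}) ∣
      Ideal.absNorm (Ideal.span {(m : 𝓞 K)}) := Ideal.absNorm_dvd_absNorm_of_le le_sup_right
  refine h1.trans ?_
  rw [Ideal.absNorm_span_singleton]
  have : (m : 𝓞 K) = algebraMap ℤ (𝓞 K) (m : ℤ) := by simp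
  rw [this, Algebra.norm_algebraMap]
  simp

theorem an_norm_eq {𝔠 : Ideal (𝓞 K)} {m n : ℕ} (hmn : m.Coprime n)
    (hc : Ideal.absNorm 𝔠 = m * n) :
    Ideal.absNorm (𝔠 ⊔ Ideal.span {(m : 𝓞 K)}) = m ∧
      Ideal.absNorm (𝔠 ⊔ Ideal.span {(n : 𝓞 K)}) = n := by
  set A := Ideal.absNorm (𝔠 ⊔ Ideal.span {(m : 𝓞 K)}) with hA
  set B := Ideal.absNorm (𝔠 ⊔ Ideal.span {(n : 𝓞 K)}) with hB
  have hAB : A * B = m * n := by
    rw [hA, hB, ← map_mul, an_split_ideal hmn hc, hc]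
  have hA1 : A ∣ m ^ Module.finrank ℤ (𝓞 K) := an_norm_dvd 𝔠 m
  have hB1 : B ∣ n ^ Module.finrank ℤ (𝓞 K) := an_norm_dvd 𝔠 n
  have hAn : A.Coprime n := Nat.Coprime.coprime_dvd_left hA1 (hmn.pow_left _)
  have hBm : B.Coprime m := Nat.Coprime.coprime_dvd_left hB1 (hmn.symm.pow_left _)
  have hAm : A ∣ m := by
    have : A ∣ m * n := ⟨B, hAB.symm⟩
    exact hAn.dvd_of_dvd_mul_right this
  have hBn : B ∣ n := by
    have : B ∣ m * n := ⟨A, by rw [← hAB, mul_comm] ⟩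
    exact hBm.dvd_of_dvd_mul_left this
  have hmA : m ∣ A := by
    have : m ∣ A * B := ⟨n, hAB⟩
    exact hBm.symm.dvd_of_dvd_mul_right this
  have hnB : n ∣ B := by
    have : n ∣ A * B := ⟨m, by rw [hAB, mul_comm]⟩
    exact hAn.symm.dvd_of_dvd_mul_left this
  exact ⟨Nat.dvd_antisymm hAm hmA, Nat.dvd_antisymm hBn hnB⟩

theorem an_mul {lam : Ideal (𝓞 K) → ℝ} (h : Hek lam) {m n : ℕ} (hmn : m.Coprime n) (hm : m ≠ 0)
    (hn : n ≠ 0) : an lam (m * n) = an lam m * an lam n := by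
  classical
  rw [an_fin, an_fin, an_fin, Finset.sum_mul_sum, ← Finset.sum_product']
  symm
  refine Finset.sum_bij (fun p _ => p.1 * p.2) ?_ ?_ ?_ ?_
  · intro p hp
    rw [Finset.mem_product, Set.Finite.mem_toFinset, Set.Finite.mem_toFinset] at hp
    rw [Set.Finite.mem_toFinset, Set.mem_ofPred_eq, map_mul, hp.1, hp.2]
  · intro p hp q hq hpq
    rw [Finset.mem_product, Set.Finite.mem_toFinset, Set.Finite.mem_toFinset] at hp hq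
    have c1 : IsCoprime p.1 q.2 := an_coprime hmn hp.1 hq.2
    have c2 : IsCoprime q.1 p.2 := an_coprime hmn hq.1 hp.2
    have d1 : p.1 ∣ q.1 := by
      apply c1.dvd_of_dvd_mul_right
      rw [← hpq]; exact dvd_mul_right _ _
    have d2 : q.1 ∣ p.1 := by
      apply c2.dvd_of_dvd_mul_right
      rw [hpq]; exact dvd_mul_right _ _
    have d3 : p.2 ∣ q.2 := by
      apply c2.symm.dvd_of_dvd_mul_left
      rw [← hpq]; exact dvd_mul_left _ _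
    have d4 : q.2 ∣ p.2 := by
      apply c1.symm.dvd_of_dvd_mul_left
      rw [hpq]; exact dvd_mul_left _ _
    exact Prod.ext (le_antisymm (Ideal.le_of_dvd d2) (Ideal.le_of_dvd d1))
      (le_antisymm (Ideal.le_of_dvd d4) (Ideal.le_of_dvd d3))
  · intro 𝔠 h𝔠
    rw [Set.Finite.mem_toFinset] at h𝔠
    obtain ⟨h1, h2⟩ := an_norm_eq hmn h𝔠
    refine ⟨(𝔠 ⊔ Ideal.span {(m : 𝓞 K)}, 𝔠 ⊔ Ideal.span {(n : 𝓞 K)}), ?_,
      an_split_ideal hmn h𝔠⟩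
    rw [Finset.mem_product, Set.Finite.mem_toFinset, Set.Finite.mem_toFinset]
    exact ⟨h1, h2⟩
  · intro p hp
    rw [Finset.mem_product, Set.Finite.mem_toFinset, Set.Finite.mem_toFinset] at hp
    have c : IsCoprime p.1 p.2 := an_coprime hmn hp.1 hp.2
    rw [h.mul _ _ c]
    push_cast
    ring

end Pool.Agent.HB
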