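import Pool.Agent.Lib_helper98.H4F.SP
import Pool.Agent.Lib_helper99.HB.Defs
import Pool.Agent.Lib_helper99.HBF.FB

/-!
# Hardy over imaginary quadratic fields: block SP (helper99; after H4F/SP), splitting of primes
-/

namespace Pool.Agent.HB

open NumberField Complex MeasureTheory
open scoped MatrixGroups ENNReal
open Pool.Agent.H4 (NI PI Hek blw Spl Inr blw_prime blw_finite sp_max sp_pow sp_map_span
  sp_map_prime sp_exists sp_mem)

variable {K : Type} [Field K] [NumberField K]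
variable {s : 𝓞 K →+* ℂ} {κ : 𝓞 K} {τ : 𝓞 K ≃+* 𝓞 K} {b b' : Fin 2 → 𝓞 K}

theorem sp_tau (F : Fld s κ τ b b') (x : 𝓞 K) : τ (τ x) = x := by
  have h : s (τ (τ x) - x) = 0 := by
    rw [map_sub, F.tau, F.tau, Complex.conj_conj, sub_self]
  exact sub_eq_zero.mp (F.inj _ h)

theorem sp_tt (F : Fld s κ τ b b') (𝔞 : Ideal (𝓞 K)) : (𝔞.map τ).map τ = 𝔞 := by
  ext x
  rw [Ideal.mem_map_of_equiv]
  constructor
  · rintro ⟨y, hy, rfl⟩
    rw [Ideal.mem_map_of_equiv] at hy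
    obtain ⟨z, hz, rfl⟩ := hy
    rw [sp_tau F]; exact hz
  · intro hx
    refine ⟨τ x, ?_, sp_tau F x⟩
    exact Ideal.mem_map_of_mem _ hx

theorem sp_nspan (F : Fld s κ τ b b') (a : 𝓞 K) :
    Ideal.absNorm (Ideal.span {τ a}) = Ideal.absNorm (Ideal.span {a}) := by
  have h1 := F.norm (τ a)
  have h2 := F.norm a
  rw [F.tau, normSq_conj] at h1
  have : (Ideal.absNorm (Ideal.span {τ a}) : ℝ) = Ideal.absNorm (Ideal.span {a}) := by
    rw [h1, h2]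
  exact_mod_cast this

theorem tau_tau (F : Fld s κ τ b b') (𝔞 : Ideal (𝓞 K)) : (𝔞.map τ).map τ = 𝔞 ∧
    Ideal.absNorm (𝔞.map τ) = Ideal.absNorm 𝔞 := by
  refine ⟨sp_tt F 𝔞, ?_⟩
  obtain ⟨a, ha⟩ := F.gen 𝔞
  rw [ha, sp_map_span, sp_nspan F]

theorem sp_map_ne (F : Fld s κ τ b b') {𝔞 : Ideal (𝓞 K)} (h : 𝔞 ≠ ⊥) : 𝔞.map τ ≠ ⊥ := by
  intro h'
  have := sp_tt F 𝔞
  rw [h', Ideal.map_bot] at this
  exact h this.symm

/-- the norm of a prime ideal above `p` is `p` or `p²` -/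
theorem sp_norm (F : Fld s κ τ b b') (𝔭 : PI K) :
    Ideal.absNorm (Ideal.span {((blw 𝔭.1 : ℕ) : 𝓞 K)}) = blw 𝔭.1 ^ 2 ∧
      (Ideal.absNorm 𝔭.1 = blw 𝔭.1 ∨ Ideal.absNorm 𝔭.1 = blw 𝔭.1 ^ 2) := by
  have h1 : Ideal.absNorm (Ideal.span {((blw 𝔭.1 : ℕ) : 𝓞 K)}) = blw 𝔭.1 ^ 2 := by
    have h := F.norm ((blw 𝔭.1 : ℕ) : 𝓞 K)
    rw [map_natCast, normSq_natCast, ← sq] at h
    exact_mod_cast h
  refine ⟨h1, ?_⟩
  obtain ⟨n, hn, hm, hp, h⟩ := sp_pow 𝔭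
  have h2 : Ideal.span {((blw 𝔭.1 : ℕ) : 𝓞 K)} ≤ 𝔭.1 := by
    rw [Ideal.span_singleton_le_iff_mem]; exact hm
  have h3 := Ideal.absNorm_dvd_absNorm_of_le h2
  rw [h1, h, Nat.pow_dvd_pow_iff_le_right hp.one_lt] at h3
  rw [h]
  interval_cases n
  · left; simp
  · right; rfl

theorem sp_ne (F : Fld s κ τ b b') : ∃ x : 𝓞 K, τ x ≠ x := by
  by_contra hcon
  push Not at hcon
  have h : ∀ x, (s x).im = 0 := by
    intro x
    have := F.tau x
    rw [hcon x] at this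
    have h1 := congrArg Complex.im this
    rw [Complex.conj_im] at h1
    linarith
  apply dl_ne F
  unfold dl
  rw [h (b 0), h (b 1)]
  ring

theorem sp_fix (F : Fld s κ τ b b') (𝔭 : PI K) (hN : Ideal.absNorm 𝔭.1 = blw 𝔭.1)
    (hf : 𝔭.1.map τ = 𝔭.1) (x : 𝓞 K) : τ x - x ∈ 𝔭.1 := by
  have := sp_max 𝔭
  have hp := blw_prime 𝔭
  have hcard : Nat.card (𝓞 K ⧸ 𝔭.1) = blw 𝔭.1 := by
    rw [← hN]; rfl
  have := Fact.mk hp
  have : Nontrivial (𝓞 K ⧸ 𝔭.1) := Ideal.Quotient.nontrivial_iff.mpr 𝔭.2.1.ne_top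
  have hg := mem_zmultiples_of_prime_card (G := 𝓞 K ⧸ 𝔭.1) hcard (g := 1)
    (g' := Ideal.Quotient.mk _ x) one_ne_zero
  obtain ⟨n, hn⟩ := AddSubgroup.mem_zmultiples_iff.mp hg
  have h1 : x - (n : 𝓞 K) ∈ 𝔭.1 := by
    rw [← Ideal.Quotient.eq_zero_iff_mem, map_sub, ← hn]
    simp
  have h2 : τ (x - (n : 𝓞 K)) ∈ 𝔭.1.map τ := Ideal.mem_map_of_mem _ h1
  rw [hf, map_sub, map_intCast] at h2
  have h3 := Ideal.sub_mem _ h2 h1
  have h4 : τ x - (n : 𝓞 K) - (x - n) = τ x - x := by ring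
  rwa [h4] at h3

theorem split_inert (F : Fld s κ τ b b') : ∃ B : Finset ℕ, ∀ p : ℕ, p.Prime → p ∉ B →
    (∃ 𝔭 : PI K, Spl τ p 𝔭) ∨ ∃ 𝔭 : PI K, Inr τ p 𝔭 := by
  obtain ⟨x, hx⟩ := sp_ne F
  refine ⟨(Ideal.absNorm (Ideal.span {τ x - x})).primeFactors, fun p hp hpB => ?_⟩
  obtain ⟨𝔭, h𝔭⟩ := sp_exists (K := K) hp
  obtain ⟨h0, h1 | h1⟩ := sp_norm F 𝔭
  · left
    rw [h𝔭] at h0 h1
    obtain ⟨π, hs⟩ := F.gen 𝔭.1
    have hprod : π * τ π = (p : 𝓞 K) := by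
      have h2 := F.norm π
      rw [← hs, h1] at h2
      have : s (π * τ π - (p : 𝓞 K)) = 0 := by
        rw [map_sub, map_mul, F.tau, map_natCast, Complex.mul_conj, ← h2]
        simp
      exact sub_eq_zero.mp (F.inj _ this)
    have hnorm : Ideal.absNorm (𝔭.1.map τ) = p := by rw [(tau_tau F 𝔭.1).2, h1]
    refine ⟨𝔭, h1, ?_, ?_⟩
    · intro hf
      apply hpB
      have h3 := sp_fix F 𝔭 (by rw [h1, h𝔭]) hf x
      have h4 : Ideal.span {τ x - x} ≤ 𝔭.1 := by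
        rw [Ideal.span_singleton_le_iff_mem]; exact h3
      have h5 := Ideal.absNorm_dvd_absNorm_of_le h4
      rw [h1] at h5
      rw [Nat.mem_primeFactors]
      refine ⟨hp, h5, ?_⟩
      rw [Ne, Ideal.absNorm_eq_zero_iff, Ideal.span_singleton_eq_bot, sub_eq_zero]
      exact hx
    · intro 𝔮
      constructor
      · intro hq
        have h6 := sp_mem 𝔮
        rw [hq, ← hprod] at h6
        have hmax' : (𝔭.1.map τ).IsMaximal :=
          (sp_map_prime 𝔭.1 𝔭.2.1).isMaximal (sp_map_ne F 𝔭.2.2)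
        rcases 𝔮.2.1.mem_or_mem h6 with h7 | h7
        · left
          have h8 : 𝔭.1 ≤ 𝔮.1 := by
            rw [hs, Ideal.span_singleton_le_iff_mem]; exact h7
          exact ((sp_max 𝔭).eq_of_le 𝔮.2.1.ne_top h8).symm
        · right
          have h8 : 𝔭.1.map τ ≤ 𝔮.1 := by
            rw [hs, sp_map_span, Ideal.span_singleton_le_iff_mem]; exact h7
          exact (hmax'.eq_of_le 𝔮.2.1.ne_top h8).symm
      · rintro (h6 | h6)
        · rw [h6]; exact h𝔭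
        · rw [h6]
          unfold blw
          rw [hnorm, hp.minFac_eq]
  · right
    rw [h𝔭] at h0 h1
    have hmem := sp_mem 𝔭
    rw [h𝔭] at hmem
    have h2 : Ideal.span {(p : 𝓞 K)} ≤ 𝔭.1 := by
      rw [Ideal.span_singleton_le_iff_mem]; exact hmem
    have h3 : 𝔭.1 = Ideal.span {(p : 𝓞 K)} := by
      obtain ⟨𝔠, hc⟩ := Ideal.dvd_iff_le.mpr h2
      have h4 := congrArg Ideal.absNorm hc
      rw [map_mul, h0, h1] at h4
      have h5 : Ideal.absNorm 𝔠 = 1 := by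
        have : 0 < p ^ 2 := pow_pos hp.pos _
        exact (Nat.eq_of_mul_eq_mul_left this (by rw [mul_one]; exact h4)).symm
      rw [Ideal.absNorm_eq_one_iff] at h5
      rw [h5, Ideal.mul_top] at hc
      exact hc.symm
    refine ⟨𝔭, h3, h1, ?_, ?_⟩
    · rw [h3, sp_map_span, map_natCast]
    · intro 𝔮
      constructor
      · intro hq
        have h6 := sp_mem 𝔮
        rw [hq] at h6
        have h8 : 𝔭.1 ≤ 𝔮.1 := by
          rw [h3, Ideal.span_singleton_le_iff_mem]; exact h6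
        exact ((sp_max 𝔭).eq_of_le 𝔮.2.1.ne_top h8).symm
      · intro hq
        rw [hq]; exact h𝔭

end Pool.Agent.HB
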