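import Pool.Agent.Lib_helper98.H4F.LI2
import Pool.Agent.Lib_helper98.H4F.SP
import Pool.Agent.Lib_helper99.HB.Defs
import Pool.Agent.Lib_helper99.HBF.SP

/-!
# Hardy's theorem over imaginary quadratic fields, block H0: divergence of `H` at `0`
(adapted from the real quadratic case, Lib_helper98/H4F/H0.lean)
-/

namespace Pool.Agent.HB

open NumberField Complex MeasureTheory
open scoped MatrixGroups ENNReal
open Pool.Agent.H4 (NI PI Hek blw Spl Inr tt uu p4 hh PP ml atl FunBd vcf loc_low)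

variable {K : Type} [Field K] [NumberField K]
variable {s : 𝓞 K →+* ℂ} {κ : 𝓞 K} {τ : 𝓞 K ≃+* 𝓞 K} {b b' : Fin 2 → 𝓞 K}

theorem h_zero (F : Fld s κ τ b b') {lam : Ideal (𝓞 K) → ℝ} (B : Finset ℕ) :
    ¬ Summable (SB τ lam B) := by
  classical
  intro hsum
  obtain ⟨B', hB'⟩ := split_inert F
  -- for all but finitely many primes there is a prime ideal above it
  have hex : ∀ p : ℕ, p.Prime → p ∉ B ∪ B' → ∃ 𝔭 : PI K, blw 𝔭.1 = p := by
    intro p hp hpB
    have hpB' : p ∉ B' := fun h => hpB (Finset.mem_union_right _ h)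
    rcases hB' p hp hpB' with ⟨𝔭, h𝔭⟩ | ⟨𝔭, h𝔭⟩
    · exact ⟨𝔭, (h𝔭.2.2 𝔭).2 (Or.inl rfl)⟩
    · exact ⟨𝔭, (h𝔭.2.2.2 𝔭).2 rfl⟩
  let S : Set ℕ := {p | p.Prime} \ ((B ∪ B' : Finset ℕ) : Set ℕ)
  have hS : S.Infinite := Nat.infinite_setOfPred_prime.sdiff (Finset.finite_toSet _)
  have hch : ∀ p : S, ∃ 𝔭 : PI K, blw 𝔭.1 = (p : ℕ) := fun p =>
    hex p.1 p.2.1 (fun h => p.2.2 (Finset.mem_coe.2 h))
  choose P hP using hch
  have hinj : Function.Injective (fun q : S × Fin 4 => ((P q.1, (q.2 : ℕ)) : PI K × ℕ)) := by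
    rintro ⟨p, i⟩ ⟨p', i'⟩ h
    simp only [Prod.mk.injEq] at h
    obtain ⟨h1, h2⟩ := h
    have : (p : ℕ) = p' := by rw [← hP p, ← hP p', h1]
    exact Prod.ext (Subtype.ext this) (Fin.ext h2)
  have h1 := hsum.comp_injective hinj
  have h2 : Summable (fun p : S => ∑' i : Fin 4, SB τ lam B (P p, (i : ℕ))) := h1.prod
  have h3 : ∀ p : S, (1 / 8 : ℝ) ≤ ∑' i : Fin 4, SB τ lam B (P p, (i : ℕ)) := by
    intro p
    rw [tsum_fintype]
    have hnB : blw (P p).1 ∉ B := by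
      rw [hP p]
      exact fun h => p.2.2 (Finset.mem_coe.2 (Finset.mem_union_left _ h))
    have e : ∀ i : Fin 4, SB τ lam B (P p, (i : ℕ)) = Sv τ lam (P p, (i : ℕ)) := by
      intro i
      unfold SB
      rw [if_neg hnB]
    rw [Finset.sum_congr rfl (fun i _ => e i)]
    have hl := loc_low (lam (P p).1) (lam ((P p).1.map τ)) (ω := 1) norm_one
    have e2 : ∑ i : Fin 4, Sv τ lam (P p, (i : ℕ)) =
        (1 / 2) * ∑ j ∈ Finset.range 4, ‖PP (lam (P p).1) (lam ((P p).1.map τ))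
          1 (j + 1)‖ ^ 2 / ((j : ℝ) + 1) := by
      rw [Fin.sum_univ_eq_sum_range (fun i => Sv τ lam (P p, i)) 4, Finset.mul_sum]
      refine Finset.sum_congr rfl (fun j _ => ?_)
      unfold Sv
      have hj : (0 : ℝ) < (j : ℝ) + 1 := by positivity
      field_simp
    rw [e2]
    linarith
  have hSi : Infinite S := hS.to_subtype
  have h4 := h2.tendsto_cofinite_zero
  have h5 := (h4.eventually (gt_mem_nhds (show (0 : ℝ) < 1 / 8 by norm_num)))
  obtain ⟨p, hp⟩ := h5.exists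
  exact absurd (h3 p) (not_le.2 hp)

end Pool.Agent.HB
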