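import Pool.Agent.Lib_helper98.H4F.CH
import Pool.Agent.Lib_helper99.HB.Defs
import Pool.Agent.Lib_helper99.HBF.SP

/-!
# Hardy's theorem over imaginary quadratic fields, block AI: the coefficients at prime powers
(adapted from the real quadratic case, Lib_helper98/H4F/AI.lean)
-/

namespace Pool.Agent.HB

open NumberField Complex MeasureTheory
open scoped MatrixGroups ENNReal
open Pool.Agent.H4 (NI PI Hek blw Spl Inr tt uu p4 hh PP ml atl FunBd vcf lam_uu)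

variable {K : Type} [Field K] [NumberField K]
variable {s : 𝓞 K →+* ℂ} {κ : 𝓞 K} {τ : 𝓞 K ≃+* 𝓞 K} {b b' : Fin 2 → 𝓞 K}

/-- ideals of prime power norm -/
theorem ai_fact {p : ℕ} (hp : p.Prime) (𝔭₁ 𝔭₂ : Ideal (𝓞 K))
    (h : ∀ 𝔮 : PI K, blw 𝔮.1 = p → 𝔮.1 = 𝔭₁ ∨ 𝔮.1 = 𝔭₂) :
    ∀ (i : ℕ) (𝔞 : Ideal (𝓞 K)), Ideal.absNorm 𝔞 = p ^ i → ∃ j l : ℕ, 𝔞 = 𝔭₁ ^ j * 𝔭₂ ^ l := by
  intro i
  induction i using Nat.strong_induction_on with
  | _ i ih =>
    intro 𝔞 ha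
    by_cases htop : 𝔞 = ⊤
    · exact ⟨0, 0, by rw [htop, pow_zero, pow_zero, mul_one, Ideal.one_eq_top]⟩
    · obtain ⟨𝔮, hq, hle⟩ := Ideal.exists_le_maximal 𝔞 htop
      have hane : 𝔞 ≠ ⊥ := by
        rintro rfl
        rw [Ideal.absNorm_bot] at ha
        exact (pow_ne_zero _ hp.ne_zero) ha.symm
      have hqne : 𝔮 ≠ ⊥ := by
        rintro rfl
        exact hane (le_bot_iff.1 hle)
      obtain ⟨𝔟, rfl⟩ := Ideal.dvd_iff_le.2 hle
      rw [map_mul] at ha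
      have hN : Ideal.absNorm 𝔮 ∣ p ^ i := ⟨_, ha.symm⟩
      obtain ⟨f, hf, hqf⟩ := (Nat.dvd_prime_pow hp).1 hN
      have hf0 : f ≠ 0 := by
        rintro rfl
        rw [pow_zero, Ideal.absNorm_eq_one_iff] at hqf
        exact hq.ne_top hqf
      have hb : blw 𝔮 = p := by
        unfold blw
        rw [hqf, Nat.Prime.pow_minFac hp hf0]
      rw [hqf] at ha
      have hb' : Ideal.absNorm 𝔟 = p ^ (i - f) := by
        have h1 : p ^ i = p ^ f * p ^ (i - f) := by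
          rw [← pow_add, Nat.add_sub_cancel' hf]
        rw [h1] at ha
        exact Nat.eq_of_mul_eq_mul_left (pow_pos hp.pos f) ha
      obtain ⟨j, l, hjl⟩ := ih (i - f) (by omega) 𝔟 hb'
      rcases h ⟨𝔮, hq.isPrime, hqne⟩ hb with h1 | h1
      · refine ⟨j + 1, l, ?_⟩
        rw [hjl]
        simp only at h1
        rw [h1, pow_succ]
        ring
      · refine ⟨j, l + 1, ?_⟩
        rw [hjl]
        simp only at h1
        rw [h1, pow_succ]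
        ring

theorem an_split (F : Fld s κ τ b b') {lam : Ideal (𝓞 K) → ℝ} (h : Hek lam)
    {p : ℕ} (hp : p.Prime) {𝔭 : PI K} (hs : Spl τ p 𝔭) (i : ℕ) :
    an lam (p ^ i) = hh (lam 𝔭.1) (lam (𝔭.1.map τ)) 1 i := by
  classical
  obtain ⟨hN, hne, hab⟩ := hs
  have hN' : Ideal.absNorm (𝔭.1.map τ) = p := by rw [(tau_tau F 𝔭.1).2, hN]
  have hprime' : (𝔭.1.map τ).IsPrime := by
    have := 𝔭.2.1
    exact Ideal.map_isPrime_of_equiv τ
  have hbot' : 𝔭.1.map τ ≠ ⊥ := by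
    intro h0
    rw [h0, Ideal.absNorm_bot] at hN'
    exact hp.ne_zero hN'.symm
  have hmax : 𝔭.1.IsMaximal := 𝔭.2.1.isMaximal 𝔭.2.2
  have hmax' : (𝔭.1.map τ).IsMaximal := hprime'.isMaximal hbot'
  have hcop : IsCoprime 𝔭.1 (𝔭.1.map τ) := by
    rw [Ideal.isCoprime_iff_sup_eq]
    exact hmax.coprime_of_ne hmax' (Ne.symm hne)
  have hnorm : ∀ j l : ℕ, Ideal.absNorm (𝔭.1 ^ j * 𝔭.1.map τ ^ l) = p ^ (j + l) := by
    intro j l
    rw [map_mul, map_pow, map_pow, hN, hN', pow_add]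
  have hinj : Set.InjOn (fun j : ℕ => 𝔭.1 ^ j * 𝔭.1.map τ ^ (i - j))
      (Finset.range (i + 1) : Set ℕ) := by
    have key : ∀ j ∈ Finset.range (i + 1), ∀ j' ∈ Finset.range (i + 1), j < j' →
        𝔭.1 ^ j * 𝔭.1.map τ ^ (i - j) ≠ 𝔭.1 ^ j' * 𝔭.1.map τ ^ (i - j') := by
      intro j hj j' hj' hlt heq
      have e1 : 𝔭.1 ^ j' = 𝔭.1 ^ j * 𝔭.1 ^ (j' - j) := by
        rw [← pow_add, Nat.add_sub_cancel' hlt.le]
      rw [e1, mul_assoc] at heq
      have h1 := mul_left_cancel₀ (pow_ne_zero j (show 𝔭.1 ≠ 0 from 𝔭.2.2)) heq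
      have h2 : 𝔭.1 ∣ 𝔭.1.map τ ^ (i - j) := by
        rw [h1]
        exact Dvd.dvd.mul_right (dvd_pow_self _ (by omega)) _
      have h3 : IsCoprime 𝔭.1 (𝔭.1.map τ ^ (i - j)) := hcop.pow_right
      have h4 : IsUnit 𝔭.1 := h3.isUnit_of_dvd' dvd_rfl h2
      rw [Ideal.isUnit_iff] at h4
      exact hmax.ne_top h4
    intro j hj j' hj' heq
    rcases lt_trichotomy j j' with h1 | h1 | h1
    · exact absurd heq (key j hj j' hj' h1)
    · exact h1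
    · exact absurd heq.symm (key j' hj' j hj h1)
  have hprime : ∀ j : ℕ, lam (𝔭.1 ^ j) = uu (lam 𝔭.1) j := fun j => lam_uu h 𝔭 j
  have hprime2 : ∀ j : ℕ, lam (𝔭.1.map τ ^ j) = uu (lam (𝔭.1.map τ)) j := fun j =>
    lam_uu h ⟨𝔭.1.map τ, hprime', hbot'⟩ j
  unfold an hh
  rw [tsum_eq_sum (s := (Finset.range (i + 1)).image fun j : ℕ => 𝔭.1 ^ j * 𝔭.1.map τ ^ (i - j)),
    Finset.sum_image hinj]
  · refine Finset.sum_congr rfl fun j hj => ?_
    have hj' : j ≤ i := Nat.lt_succ_iff.1 (Finset.mem_range.1 hj)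
    rw [if_pos (by rw [hnorm, Nat.add_sub_cancel' hj']), h.mul _ _ (hcop.pow), hprime, hprime2,
      map_one, one_pow, one_pow, one_mul, one_mul]
    push_cast
    ring
  · intro 𝔞 ha
    rw [if_neg]
    intro hna
    apply ha
    obtain ⟨j, l, hjl⟩ := ai_fact hp 𝔭.1 (𝔭.1.map τ) (fun 𝔮 hq => (hab 𝔮).1 hq) i 𝔞 hna
    have h1 : j + l = i := by
      rw [hjl, hnorm] at hna
      exact Nat.pow_right_injective hp.two_le hna
    rw [Finset.mem_image]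
    refine ⟨j, Finset.mem_range.2 (by omega), ?_⟩
    rw [hjl]
    congr 2
    omega

theorem an_inert (F : Fld s κ τ b b') {lam : Ideal (𝓞 K) → ℝ} (h : Hek lam)
    {p : ℕ} (hp : p.Prime) {𝔭 : PI K} (hs : Inr τ p 𝔭) (i : ℕ) :
    an lam (p ^ (2 * i)) = uu (lam 𝔭.1) i := by
  classical
  obtain ⟨hsp, hN, -, hab⟩ := hs
  unfold an
  rw [tsum_eq_single (𝔭.1 ^ i)]
  · rw [if_pos (by rw [map_pow, hN, ← pow_mul]), lam_uu h 𝔭 i]
  · intro 𝔞 ha
    rw [if_neg]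
    intro hna
    apply ha
    obtain ⟨j, l, hjl⟩ := ai_fact hp 𝔭.1 𝔭.1 (fun 𝔮 hq => Or.inl ((hab 𝔮).1 hq)) (2 * i) 𝔞 hna
    rw [← pow_add] at hjl
    have h1 : j + l = i := by
      rw [hjl, map_pow, hN, ← pow_mul] at hna
      have := Nat.pow_right_injective hp.two_le hna
      omega
    rw [hjl, h1]

end Pool.Agent.HB
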