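import Pool.Agent.Lib_helper98.H4F.LC
import Pool.Agent.Lib_helper98.H4F.LI2
import Pool.Agent.Lib_helper98.H4F.SP
import Pool.Agent.Lib_helper99.HB.Defs
import Pool.Agent.Lib_helper99.HBF.AI
import Pool.Agent.Lib_helper99.HBF.SP

/-!
# Hardy's theorem over imaginary quadratic fields, block H1: convergence of `H` at `1`
-/

namespace Pool.Agent.HB

open NumberField Complex MeasureTheory
open scoped MatrixGroups ENNReal
open Pool.Agent.H4 (NI PI Hek blw Spl Inr tt uu p4 hh PP ml atl FunBd vcf loc_split loc_inert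
  blw_prime)

variable {K : Type} [Field K] [NumberField K]
variable {s : 𝓞 K →+* ℂ} {κ : 𝓞 K} {τ : 𝓞 K ≃+* 𝓞 K} {b b' : Fin 2 → 𝓞 K}

theorem h1_fib {α β : Type} (g : α → β) (G : β → ℝ) (hG : ∀ b, 0 ≤ G b) (hs : Summable G)
    (n : ℕ) (hc : ∀ b, G b ≠ 0 → ∀ S : Finset α, (∀ a ∈ S, g a = b) → S.card ≤ n) :
    Summable (fun a => G (g a)) := by
  classical
  refine summable_of_sum_le (c := n * ∑' b, G b) (fun a => hG _) fun S => ?_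
  rw [Finset.sum_comp (f := G) (g := g)]
  calc ∑ b ∈ S.image g, (S.filter (fun a => g a = b)).card • G b
      ≤ ∑ b ∈ S.image g, (n : ℝ) * G b := by
        refine Finset.sum_le_sum fun b _ => ?_
        rw [nsmul_eq_mul]
        by_cases h : G b = 0
        · rw [h]; simp
        · refine mul_le_mul_of_nonneg_right ?_ (hG b)
          have := hc b h (S.filter (fun a => g a = b)) (fun a ha => (Finset.mem_filter.mp ha).2)
          exact_mod_cast this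
    _ = n * ∑ b ∈ S.image g, G b := by rw [Finset.mul_sum]
    _ ≤ n * ∑' b, G b := by
        refine mul_le_mul_of_nonneg_left ?_ (Nat.cast_nonneg n)
        exact hs.sum_le_tsum _ (fun b _ => hG b)

/-- `p^{-1/2}` -/
noncomputable def h1r (p : ℕ) : ℝ := (p : ℝ) ^ (-(1 / 2) : ℝ)

theorem h1r_pos {p : ℕ} (hp : p.Prime) : 0 < h1r p := Real.rpow_pos_of_pos (by exact_mod_cast hp.pos) _

theorem h1r_le {p : ℕ} (hp : p.Prime) : h1r p ≤ 1 :=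
  Real.rpow_le_one_of_one_le_of_nonpos (by exact_mod_cast hp.one_lt.le) (by norm_num)

theorem h1r_pow {p : ℕ} (hp : p.Prime) (i : ℕ) : (p : ℝ) ^ (-((i : ℝ) / 2)) = h1r p ^ i := by
  unfold h1r
  rw [← Real.rpow_natCast, ← Real.rpow_mul (Nat.cast_nonneg p)]
  congr 1; ring

theorem h1r_sq {p : ℕ} (hp : p.Prime) : h1r p ^ 2 = (p : ℝ)⁻¹ := by
  rw [← h1r_pow hp, ← Real.rpow_neg_one]
  congr 1; norm_num

theorem h1r_four {p : ℕ} (hp : p.Prime) : h1r p ^ 4 = ((p : ℝ) ^ 2)⁻¹ := by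
  rw [show (4 : ℕ) = 2 * 2 from rfl, pow_mul, h1r_sq hp, inv_pow]

/-- the conclusion of `loc_split` -/
def H1S (μ C : ℝ) : Prop := ∀ (x y r : ℝ) (ω : ℂ), ‖ω‖ = 1 → 0 < r → r ≤ 1 →
    (∀ i ∈ Finset.Icc 1 4, ‖hh x y ω i‖ * r ^ i ≤ μ) →
    Summable (fun j : ℕ => ‖PP x y ω (j + 1)‖ ^ 2 * (r ^ 2) ^ (j + 1) / (j + 1)) ∧
      ∑' j : ℕ, ‖PP x y ω (j + 1)‖ ^ 2 * (r ^ 2) ^ (j + 1) / (j + 1) ≤
        C * ∑ i ∈ Finset.Icc 1 4, (‖hh x y ω i‖ * r ^ i) ^ 2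

/-- the conclusion of `loc_inert` -/
def H1I (μ C : ℝ) : Prop := ∀ x r : ℝ, 0 < r → r ≤ 1 →
    |uu x 1| * r ^ 2 ≤ μ → |uu x 2| * r ^ 4 ≤ μ →
    Summable (fun j : ℕ => (2 * tt x (j + 1)) ^ 2 * (r ^ 4) ^ (j + 1) / (2 * (j + 1))) ∧
      ∑' j : ℕ, (2 * tt x (j + 1)) ^ 2 * (r ^ 4) ^ (j + 1) / (2 * (j + 1)) ≤
        C * ((|uu x 1| * r ^ 2) ^ 2 + (|uu x 2| * r ^ 4) ^ 2)

theorem h1_split (F : Fld s κ τ b b') {lam : Ideal (𝓞 K) → ℝ} (h : Hek lam) {p : ℕ} (hp : p.Prime) {𝔮 : PI K}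
    (hs : Spl τ p 𝔮) {μ C : ℝ} (hS : H1S μ C)
    (hsm : ∀ i ∈ Finset.Icc 1 4, ‖an lam (p ^ i)‖ * h1r p ^ i ≤ μ) (𝔭 : PI K)
    (h𝔭 : 𝔭.1 = 𝔮.1 ∨ 𝔭.1 = 𝔮.1.map τ) :
    Summable (fun j : ℕ => Sv τ lam (𝔭, j) * (((Ideal.absNorm 𝔭.1) ^ (j + 1) : ℕ) : ℝ)⁻¹) ∧
      ∑' j : ℕ, Sv τ lam (𝔭, j) * (((Ideal.absNorm 𝔭.1) ^ (j + 1) : ℕ) : ℝ)⁻¹ ≤
        |C| * ∑ i ∈ Finset.Icc 1 4, (‖an lam (p ^ i)‖ * h1r p ^ i) ^ 2 := by
  have han : ∀ i, an lam (p ^ i) = hh (lam 𝔮.1) (lam (𝔮.1.map τ)) 1 i :=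
    fun i => an_split F h hp hs i
  obtain ⟨h1, h2⟩ := hS (lam 𝔮.1) (lam (𝔮.1.map τ)) (h1r p) 1
    norm_one (h1r_pos hp) (h1r_le hp)
    (fun i hi => by rw [← han]; exact hsm i hi)
  have hN : Ideal.absNorm 𝔭.1 = p := by
    rcases h𝔭 with h | h
    · rw [h]; exact hs.1
    · rw [h, (tau_tau F 𝔮.1).2]; exact hs.1
  have hPP : ∀ j, PP (lam 𝔭.1) (lam (𝔭.1.map τ)) 1 j =
      PP (lam 𝔮.1) (lam (𝔮.1.map τ)) 1 j := by
    intro j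
    rcases h𝔭 with h | h
    · rw [h]
    · rw [h, (tau_tau F 𝔮.1).1]
      unfold PP
      rw [map_one]; ring
  have hterm : ∀ j : ℕ, Sv τ lam (𝔭, j) * (((Ideal.absNorm 𝔭.1) ^ (j + 1) : ℕ) : ℝ)⁻¹ =
      (1 / 2) * (‖PP (lam 𝔮.1) (lam (𝔮.1.map τ)) 1 (j + 1)‖ ^ 2 *
        (h1r p ^ 2) ^ (j + 1) / (j + 1)) := by
    intro j
    unfold Sv
    simp only
    rw [hPP, hN, h1r_sq hp, Nat.cast_pow, inv_pow]
    have : (j : ℝ) + 1 ≠ 0 := by positivity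
    field_simp
  simp_rw [hterm]
  refine ⟨h1.mul_left _, ?_⟩
  rw [tsum_mul_left]
  have hnn : 0 ≤ ∑' j : ℕ, ‖PP (lam 𝔮.1) (lam (𝔮.1.map τ)) 1 (j + 1)‖ ^ 2 *
        (h1r p ^ 2) ^ (j + 1) / (j + 1) := tsum_nonneg fun j => by positivity
  have hsn : 0 ≤ ∑ i ∈ Finset.Icc 1 4,
      (‖hh (lam 𝔮.1) (lam (𝔮.1.map τ)) 1 i‖ * h1r p ^ i) ^ 2 :=
    Finset.sum_nonneg fun i _ => sq_nonneg _
  simp_rw [han]
  calc _ ≤ 1 * ∑' j : ℕ, ‖PP (lam 𝔮.1) (lam (𝔮.1.map τ)) 1 (j + 1)‖ ^ 2 *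
        (h1r p ^ 2) ^ (j + 1) / (j + 1) := by
        refine mul_le_mul_of_nonneg_right (by norm_num) hnn
    _ ≤ C * ∑ i ∈ Finset.Icc 1 4,
      (‖hh (lam 𝔮.1) (lam (𝔮.1.map τ)) 1 i‖ * h1r p ^ i) ^ 2 := by
        rw [one_mul]; exact h2
    _ ≤ _ := mul_le_mul_of_nonneg_right (le_abs_self C) hsn

theorem h1_inert (F : Fld s κ τ b b') {lam : Ideal (𝓞 K) → ℝ} (h : Hek lam) {p : ℕ} (hp : p.Prime) {𝔭 : PI K}
    (hs : Inr τ p 𝔭) {μ C : ℝ} (hS : H1I μ C)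
    (hsm : ∀ i ∈ Finset.Icc 1 4, ‖an lam (p ^ i)‖ * h1r p ^ i ≤ μ) :
    Summable (fun j : ℕ => Sv τ lam (𝔭, j) * (((Ideal.absNorm 𝔭.1) ^ (j + 1) : ℕ) : ℝ)⁻¹) ∧
      ∑' j : ℕ, Sv τ lam (𝔭, j) * (((Ideal.absNorm 𝔭.1) ^ (j + 1) : ℕ) : ℝ)⁻¹ ≤
        |C| * ∑ i ∈ Finset.Icc 1 4, (‖an lam (p ^ i)‖ * h1r p ^ i) ^ 2 := by
  have han : ∀ i, ‖an lam (p ^ (2 * i))‖ = |uu (lam 𝔭.1) i| := by
    intro i
    rw [an_inert F h hp hs i, Complex.norm_real, Real.norm_eq_abs]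
  have e1 : ‖an lam (p ^ 2)‖ = |uu (lam 𝔭.1) 1| := han 1
  have e2 : ‖an lam (p ^ 4)‖ = |uu (lam 𝔭.1) 2| := han 2
  obtain ⟨h1, h2⟩ := hS (lam 𝔭.1) (h1r p) (h1r_pos hp) (h1r_le hp)
    (by rw [← e1]; exact hsm 2 (by decide)) (by rw [← e2]; exact hsm 4 (by decide))
  have hterm : ∀ j : ℕ, Sv τ lam (𝔭, j) * (((Ideal.absNorm 𝔭.1) ^ (j + 1) : ℕ) : ℝ)⁻¹ =
      (2 * tt (lam 𝔭.1) (j + 1)) ^ 2 * (h1r p ^ 4) ^ (j + 1) / (2 * (j + 1)) := by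
    intro j
    unfold Sv
    simp only
    rw [hs.2.2.1, hs.2.1, h1r_four hp, Nat.cast_pow, Nat.cast_pow, inv_pow]
    have : PP (lam 𝔭.1) (lam 𝔭.1) 1 (j + 1) = ((2 * tt (lam 𝔭.1) (j + 1) : ℝ) : ℂ) := by
      unfold PP
      rw [map_one, one_pow, Complex.ofReal_mul, Complex.ofReal_ofNat]; ring
    rw [this, Complex.norm_real, Real.norm_eq_abs, sq_abs]
    ring
  simp_rw [hterm]
  refine ⟨h1, h2.trans ?_⟩
  have hsn : 0 ≤ (|uu (lam 𝔭.1) 1| * h1r p ^ 2) ^ 2 + (|uu (lam 𝔭.1) 2| * h1r p ^ 4) ^ 2 := by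
    positivity
  refine (mul_le_mul_of_nonneg_right (le_abs_self C) hsn).trans ?_
  refine mul_le_mul_of_nonneg_left ?_ (abs_nonneg C)
  rw [← e1, ← e2]
  have : Finset.Icc 1 4 = ({1, 2, 3, 4} : Finset ℕ) := by decide
  rw [this, Finset.sum_insert (by decide), Finset.sum_insert (by decide),
    Finset.sum_insert (by decide), Finset.sum_singleton]
  nlinarith [sq_nonneg (‖an lam (p ^ 1)‖ * h1r p ^ 1),
    sq_nonneg (‖an lam (p ^ 3)‖ * h1r p ^ 3)]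

theorem h1_small {μ : ℝ} (hμ : 0 < μ) (hμ1 : μ ≤ 1) {L : ℝ} (hL : 0 ≤ L)
    (h : ¬ μ ^ 2 ≤ (min 1 L) ^ 2) : L ≤ μ ∧ (min 1 L) ^ 2 = L ^ 2 := by
  have h1 : min 1 L < μ := by
    by_contra hcon
    exact h (pow_le_pow_left₀ hμ.le (not_lt.mp hcon) 2)
  have h2 : L < μ := by
    rcases min_lt_iff.mp h1 with h3 | h3
    · linarith
    · exact h3
  exact ⟨h2.le, by rw [min_eq_right (h2.le.trans hμ1)]⟩

theorem h_one (F : Fld s κ τ b b') {lam : Ideal (𝓞 K) → ℝ} (h : Hek lam)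
    (hm : ∀ i ∈ Finset.Icc 1 4, Summable (fun p : Nat.Primes => ml (an lam) i p)) :
    ∃ B : Finset ℕ, Summable (fun q : PI K × ℕ => SB τ lam B q *
      (((Ideal.absNorm q.1.1) ^ (q.2 + 1) : ℕ) : ℝ)⁻¹) := by
  classical
  obtain ⟨μ₁, C₁, hμ₁, hμ₁', hS⟩ := loc_split
  obtain ⟨μ₂, C₂, hμ₂, hμ₂', hI⟩ := loc_inert
  obtain ⟨B₀, hB₀⟩ := split_inert F
  set μ := min μ₁ μ₂ with hμdef
  have hμ : 0 < μ := lt_min hμ₁ hμ₂
  have hμ' : μ ≤ 1 := (min_le_left _ _).trans hμ₁'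
  -- the exceptional primes
  have hfin : ∀ i ∈ Finset.Icc 1 4, {p : Nat.Primes | μ ^ 2 ≤ ml (an lam) i p}.Finite := by
    intro i hi
    have h1 := (hm i hi).tendsto_cofinite_zero
    have h2 := h1.eventually (gt_mem_nhds (show (0 : ℝ) < μ ^ 2 by positivity))
    rw [Filter.eventually_cofinite] at h2
    refine h2.subset fun p hp => ?_
    simpa using hp
  have hfin' : (⋃ i ∈ Finset.Icc 1 4, {p : Nat.Primes | μ ^ 2 ≤ ml (an lam) i p}).Finite :=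
    Set.Finite.biUnion (Finset.finite_toSet _) hfin
  set E : Finset ℕ := hfin'.toFinset.image (fun p : Nat.Primes => (p : ℕ)) with hE
  set B := B₀ ∪ E with hB
  have hgood : ∀ p : Nat.Primes, (p : ℕ) ∉ B → ∀ i ∈ Finset.Icc 1 4,
      ‖an lam ((p : ℕ) ^ i)‖ * h1r p ^ i ≤ μ ∧
        ml (an lam) i p = (‖an lam ((p : ℕ) ^ i)‖ * h1r p ^ i) ^ 2 := by
    intro p hp i hi
    have hp1 : (p : ℕ) ∉ E := fun h' => hp (Finset.mem_union_right _ h')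
    have hp2 : ¬ μ ^ 2 ≤ ml (an lam) i p := by
      intro h'
      apply hp1
      rw [hE, Finset.mem_image]
      refine ⟨p, ?_, rfl⟩
      rw [Set.Finite.mem_toFinset]
      simp only [Set.mem_iUnion]
      exact ⟨i, hi, h'⟩
    have e : ml (an lam) i p = (min 1 (‖an lam ((p : ℕ) ^ i)‖ * h1r p ^ i)) ^ 2 := by
      unfold ml
      rw [h1r_pow p.2]
    rw [e] at hp2 ⊢
    have hr := h1r_pos p.2
    exact h1_small hμ hμ' (by positivity) hp2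
  -- the local estimate
  have hloc : ∀ 𝔭 : PI K, blw 𝔭.1 ∉ B →
      Summable (fun j : ℕ => Sv τ lam (𝔭, j) *
        (((Ideal.absNorm 𝔭.1) ^ (j + 1) : ℕ) : ℝ)⁻¹) ∧
      ∑' j : ℕ, Sv τ lam (𝔭, j) * (((Ideal.absNorm 𝔭.1) ^ (j + 1) : ℕ) : ℝ)⁻¹ ≤
        (|C₁| + |C₂|) * ∑ i ∈ Finset.Icc 1 4, ml (an lam) i (blw 𝔭.1) := by
    intro 𝔭 h𝔭
    have hp := blw_prime 𝔭
    have hg := hgood ⟨blw 𝔭.1, hp⟩ h𝔭
    have hsum : ∑ i ∈ Finset.Icc 1 4, ml (an lam) i (blw 𝔭.1) =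
        ∑ i ∈ Finset.Icc 1 4, (‖an lam ((blw 𝔭.1) ^ i)‖ * h1r (blw 𝔭.1) ^ i) ^ 2 :=
      Finset.sum_congr rfl fun i hi => (hg i hi).2
    have hnn : 0 ≤ ∑ i ∈ Finset.Icc 1 4,
        (‖an lam ((blw 𝔭.1) ^ i)‖ * h1r (blw 𝔭.1) ^ i) ^ 2 :=
      Finset.sum_nonneg fun i _ => sq_nonneg _
    rw [hsum]
    rcases hB₀ (blw 𝔭.1) hp (fun h' => h𝔭 (Finset.mem_union_left _ h')) with ⟨𝔮, hs⟩ | ⟨𝔮, hs⟩
    · obtain ⟨a1, a2⟩ := h1_split F h hp hs hS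
        (fun i hi => (hg i hi).1.trans (min_le_left _ _)) 𝔭 ((hs.2.2 𝔭).mp rfl)
      refine ⟨a1, a2.trans (mul_le_mul_of_nonneg_right ?_ hnn)⟩
      linarith [abs_nonneg C₂]
    · have he : 𝔭 = 𝔮 := Subtype.ext ((hs.2.2.2 𝔭).mp rfl)
      have hs' : Inr τ (blw 𝔭.1) 𝔭 := by
        rw [← he] at hs; exact hs
      obtain ⟨a1, a2⟩ := h1_inert F h hp hs' hI
        (fun i hi => (hg i hi).1.trans (min_le_right _ _))
      refine ⟨a1, a2.trans (mul_le_mul_of_nonneg_right ?_ hnn)⟩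
      linarith [abs_nonneg C₁]
  refine ⟨B, ?_⟩
  have hSv : ∀ q : PI K × ℕ, 0 ≤ Sv τ lam q := fun q => by unfold Sv; positivity
  have hSB : ∀ q : PI K × ℕ, 0 ≤ SB τ lam B q := by
    intro q
    unfold SB
    split_ifs
    · exact le_rfl
    · exact hSv q
  have hnn : (0 : PI K × ℕ → ℝ) ≤ fun q : PI K × ℕ => SB τ lam B q *
      (((Ideal.absNorm q.1.1) ^ (q.2 + 1) : ℕ) : ℝ)⁻¹ := by
    intro q
    have := hSB q
    simp only [Pi.zero_apply]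
    positivity
  rw [summable_prod_of_nonneg hnn]
  have hin : ∀ 𝔭 : PI K, blw 𝔭.1 ∈ B → ∀ j : ℕ, SB τ lam B (𝔭, j) *
      (((Ideal.absNorm 𝔭.1) ^ (j + 1) : ℕ) : ℝ)⁻¹ = 0 := by
    intro 𝔭 h𝔭 j
    unfold SB
    rw [if_pos h𝔭, zero_mul]
  have hout : ∀ 𝔭 : PI K, blw 𝔭.1 ∉ B → ∀ j : ℕ, SB τ lam B (𝔭, j) *
      (((Ideal.absNorm 𝔭.1) ^ (j + 1) : ℕ) : ℝ)⁻¹ = Sv τ lam (𝔭, j) *
      (((Ideal.absNorm 𝔭.1) ^ (j + 1) : ℕ) : ℝ)⁻¹ := by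
    intro 𝔭 h𝔭 j
    unfold SB
    rw [if_neg h𝔭]
  constructor
  · intro 𝔭
    by_cases h𝔭 : blw 𝔭.1 ∈ B
    · simp_rw [hin 𝔭 h𝔭]; exact summable_zero
    · simp_rw [hout 𝔭 h𝔭]; exact (hloc 𝔭 h𝔭).1
  · -- comparison
    set G : Nat.Primes → ℝ := fun p => if (p : ℕ) ∈ B then 0 else
      (|C₁| + |C₂|) * ∑ i ∈ Finset.Icc 1 4, ml (an lam) i p with hG
    have hml : ∀ (i : ℕ) (p : ℕ), 0 ≤ ml (an lam) i p := fun i p => by unfold ml; positivity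
    have hG0 : ∀ p, 0 ≤ G p := by
      intro p
      simp only [hG]
      split_ifs
      · exact le_rfl
      · exact mul_nonneg (by positivity) (Finset.sum_nonneg fun i _ => hml i p)
    have hGs : Summable G := by
      have h1 : Summable (fun p : Nat.Primes =>
          (|C₁| + |C₂|) * ∑ i ∈ Finset.Icc 1 4, ml (an lam) i p) :=
        (summable_sum hm).mul_left _
      refine Summable.of_nonneg_of_le hG0 (fun p => ?_) h1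
      simp only [hG]
      split_ifs
      · exact mul_nonneg (by positivity) (Finset.sum_nonneg fun i _ => hml i p)
      · exact le_rfl
    have hfib := h1_fib (fun 𝔭 : PI K => (⟨blw 𝔭.1, blw_prime 𝔭⟩ : Nat.Primes)) G hG0 hGs 2 ?_
    · refine Summable.of_nonneg_of_le (fun 𝔭 => tsum_nonneg fun j => hnn (𝔭, j)) (fun 𝔭 => ?_) hfib
      by_cases h𝔭 : blw 𝔭.1 ∈ B
      · simp_rw [hin 𝔭 h𝔭]
        rw [tsum_zero]; exact hG0 _
      · simp_rw [hout 𝔭 h𝔭]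
        simp only [hG]
        rw [if_neg h𝔭]
        exact (hloc 𝔭 h𝔭).2
    · intro p hp S hS'
      have hpB : (p : ℕ) ∉ B := by
        intro h'
        apply hp
        simp only [hG]
        rw [if_pos h']
      have hS'' : ∀ 𝔭 ∈ S, blw 𝔭.1 = (p : ℕ) := by
        intro 𝔭 h𝔭
        have := hS' 𝔭 h𝔭
        exact congrArg Subtype.val this
      rcases hB₀ p p.2 (fun h' => hpB (Finset.mem_union_left _ h')) with ⟨𝔮, hs⟩ | ⟨𝔮, hs⟩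
      · have h1 : S.image Subtype.val ⊆ {𝔮.1, 𝔮.1.map τ} := by
          intro I hI
          rw [Finset.mem_image] at hI
          obtain ⟨𝔭, h𝔭, rfl⟩ := hI
          rw [Finset.mem_insert, Finset.mem_singleton]
          exact (hs.2.2 𝔭).mp (hS'' 𝔭 h𝔭)
        have h2 := Finset.card_le_card h1
        rw [Finset.card_image_of_injective _ Subtype.val_injective] at h2
        exact h2.trans (Finset.card_le_two)
      · have h1 : S.image Subtype.val ⊆ {𝔮.1} := by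
          intro I hI
          rw [Finset.mem_image] at hI
          obtain ⟨𝔭, h𝔭, rfl⟩ := hI
          rw [Finset.mem_singleton]
          exact (hs.2.2.2 𝔭).mp (hS'' 𝔭 h𝔭)
        have h2 := Finset.card_le_card h1
        rw [Finset.card_image_of_injective _ Subtype.val_injective, Finset.card_singleton] at h2
        exact h2.trans (by norm_num)

end Pool.Agent.HB
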