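import Pool.Agent.Lib_helper99.HB.Defs

/-!
# Hardy's theorem over imaginary quadratic fields, block CC: the coefficients of a Hecke system
-/

namespace Pool.Agent.HB

open NumberField Complex MeasureTheory
open scoped MatrixGroups ENNReal
open Pool.Agent.H4 (NI PI Hek blw Spl Inr tt uu p4 hh PP ml atl FunBd vcf)

variable {K : Type} [Field K] [NumberField K]
variable {s : 𝓞 K →+* ℂ} {κ : 𝓞 K} {τ : 𝓞 K ≃+* 𝓞 K} {b b' : Fin 2 → 𝓞 K}

theorem cf_gn (F : Fld s κ τ b b') (lam : Ideal (𝓞 K) → ℝ) (𝔞 : NI K) :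
    cf lam (gn 𝔞.1) = lam 𝔞.1 := by
  have hg : ∃ a, 𝔞.1 = Ideal.span {a} := F.gen 𝔞.1
  have h1 : 𝔞.1 = Ideal.span {gn 𝔞.1} := by
    unfold gn
    rw [dif_pos hg]
    exact hg.choose_spec
  have h2 : gn 𝔞.1 ≠ 0 := by
    intro h0
    rw [h0] at h1
    exact 𝔞.2 (h1.trans (by simp))
  unfold cf
  rw [if_neg h2, ← h1]

theorem cc_norm (F : Fld s κ τ b b') (a : 𝓞 K) :
    (Ideal.absNorm (Ideal.span {a}) : ℝ) = ‖s a‖ ^ 2 := by
  rw [F.norm, Complex.normSq_eq_norm_sq]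

theorem cf_af (F : Fld s κ τ b b') {ν : ℂ} {lam : Ideal (𝓞 K) → ℝ} (h : Hek lam)
    (hm : ∀ (γ : SL(2, 𝓞 K)) (P : H3), fser s κ ν (cf lam) (act s γ P).1 =
      fser s κ ν (cf lam) P.1) : AF s κ ν (cf lam) := by
  refine ⟨by simp [cf], fun a u => ?_, ?_, hm⟩
  · unfold cf
    have e : Ideal.span {(u : 𝓞 K) * a} = Ideal.span {a} :=
      Ideal.span_singleton_mul_left_unit u.isUnit a
    by_cases ha : a = 0
    · simp [ha]
    · rw [if_neg (mul_ne_zero u.ne_zero ha), if_neg ha, e]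
  · obtain ⟨C, A, hC⟩ := h.grow
    refine ⟨|C|, 2 * max A 0, abs_nonneg C, by positivity, fun a => ?_⟩
    unfold cf
    by_cases ha : a = 0
    · rw [if_pos ha, abs_zero]
      positivity
    · rw [if_neg ha]
      have hb : Ideal.span {a} ≠ ⊥ := by
        rw [Ne, Ideal.span_singleton_eq_bot]
        exact ha
      have h1 := hC _ hb
      have hN : (1 : ℝ) ≤ (Ideal.absNorm (Ideal.span {a}) : ℝ) := by
        exact_mod_cast Nat.one_le_iff_ne_zero.2 (mt Ideal.absNorm_eq_zero_iff.1 hb)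
      have h2 : (Ideal.absNorm (Ideal.span {a}) : ℝ) ^ A ≤
          (Ideal.absNorm (Ideal.span {a}) : ℝ) ^ (max A 0) :=
        Real.rpow_le_rpow_of_exponent_le hN (le_max_left _ _)
      have h3 : (Ideal.absNorm (Ideal.span {a}) : ℝ) ^ (max A 0) = ‖s a‖ ^ (2 * max A 0) := by
        rw [cc_norm F, ← Real.rpow_natCast, ← Real.rpow_mul (norm_nonneg _)]
        norm_num
      rw [← h3]
      calc |lam (Ideal.span {a})| ≤ C * (Ideal.absNorm (Ideal.span {a}) : ℝ) ^ A := h1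
        _ ≤ |C| * (Ideal.absNorm (Ideal.span {a}) : ℝ) ^ A := by
          have := le_abs_self C
          gcongr
        _ ≤ _ := by gcongr

theorem cf_swap (τ : 𝓞 K ≃+* 𝓞 K) (lam : Ideal (𝓞 K) → ℝ) :
    (fun a => cf lam (τ a)) = cf (fun 𝔞 => lam (𝔞.map τ)) := by
  funext a
  unfold cf
  by_cases ha : a = 0
  · simp [ha]
  · have h1 : τ a ≠ 0 := fun h => ha (by simpa using h)
    rw [if_neg h1, if_neg ha]
    simp only [Ideal.map_span, Set.image_singleton]

end Pool.Agent.HB
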