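import Pool.Agent.Lib_helper41.HZF.SUM
import Pool.Agent.Lib_helper99.HB.Defs
import Pool.Agent.Lib_helper99.HBF.FB

/-! HB, block LS: lattice sums -/

namespace Pool.Agent.HB

open NumberField Complex MeasureTheory
open scoped MatrixGroups ENNReal
open Pool.Agent.H4 (NI PI Hek blw Spl Inr tt uu p4 hh PP ml atl FunBd vcf)

variable {K : Type} [Field K] [NumberField K]
variable {s : 𝓞 K →+* ℂ} {κ : 𝓞 K} {τ : 𝓞 K ≃+* 𝓞 K} {b b' : Fin 2 → 𝓞 K}

theorem ls_low (F : Fld s κ τ b b') : ∃ (e : 𝓞 K ≃ (Fin 2 → ℤ)) (C : ℝ), 0 < C ∧ e 0 = 0 ∧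
    ∀ a, ‖e a‖ ≤ C * ‖s a‖ := by
  obtain ⟨e, he⟩ := four_equiv F
  set C := 2 * (‖s (b 0)‖ + ‖s (b 1)‖ + 1) / ‖s κ‖ with hC
  have hκ : 0 < ‖s κ‖ := norm_pos_iff.mpr fun h => F.kap (F.inj _ h)
  have hC0 : 0 < C := by positivity
  refine ⟨e.trans (finTwoArrowEquiv ℤ).symm, C, hC0, ?_, fun a => ?_⟩
  · have h1 := he 0 1 0
    have h2 := he 0 0 1
    simp at h1 h2
    funext i
    fin_cases i
    · simp [finTwoArrowEquiv]
      exact_mod_cast h1.symm
    · simp [finTwoArrowEquiv]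
      exact_mod_cast h2.symm
  · have key : ∀ w : ℂ, ‖w‖ ≤ ‖s (b 0)‖ + ‖s (b 1)‖ + 1 → |2 * (s a * w / s κ).re| ≤ C * ‖s a‖ := by
      intro w hw
      rw [abs_mul, abs_two]
      have h1 : |(s a * w / s κ).re| ≤ ‖s a‖ * ‖w‖ / ‖s κ‖ := by
        refine (Complex.abs_re_le_norm _).trans (le_of_eq ?_)
        rw [norm_div, norm_mul]
      calc 2 * |(s a * w / s κ).re| ≤ 2 * (‖s a‖ * ‖w‖ / ‖s κ‖) := by linarith
        _ ≤ 2 * (‖s a‖ * (‖s (b 0)‖ + ‖s (b 1)‖ + 1) / ‖s κ‖) := by gcongr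
        _ = C * ‖s a‖ := by rw [hC]; ring
    have h0 := he a 1 0
    have h1 := he a 0 1
    simp only [Complex.ofReal_one, Complex.ofReal_zero, one_mul, zero_mul, add_zero, zero_add, mul_one,
      mul_zero] at h0 h1
    rw [pi_norm_le_iff_of_nonneg (by positivity)]
    intro i
    fin_cases i
    · simp only [Equiv.trans_apply, finTwoArrowEquiv]
      change ‖(e a).1‖ ≤ _
      rw [Int.norm_eq_abs, ← h0]
      exact key _ (by linarith [norm_nonneg (s (b 1))])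
    · simp only [Equiv.trans_apply, finTwoArrowEquiv]
      change ‖(e a).2‖ ≤ _
      rw [Int.norm_eq_abs, ← h1]
      exact key _ (by linarith [norm_nonneg (s (b 0))])

theorem lat_zeta (F : Fld s κ τ b b') {x : ℝ} (hx : 2 < x) :
    Summable (fun a : 𝓞 K => ‖s a‖ ^ (-x)) := by
  obtain ⟨e, C, hC, he0, he⟩ := ls_low F
  have hs : Summable fun v : Fin 2 → ℤ => ‖v‖ ^ (-x) := EisensteinSeries.summable_one_div_norm_rpow hx
  have hs2 : Summable fun a : 𝓞 K => C ^ x * ‖e a‖ ^ (-x) := (e.summable_iff.mpr hs).mul_left _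
  refine Summable.of_nonneg_of_le (fun a => by positivity) (fun a => ?_) hs2
  by_cases ha : a = 0
  · subst ha
    rw [map_zero, norm_zero, Real.zero_rpow (by linarith)]
    positivity
  · have h1 : 0 < ‖s a‖ := norm_pos_iff.mpr fun h => ha (F.inj _ h)
    have h2 : 0 < ‖e a‖ := norm_pos_iff.mpr fun h => ha (e.injective (h.trans he0.symm))
    calc ‖s a‖ ^ (-x) = C ^ x * (C * ‖s a‖) ^ (-x) := by
          rw [Real.mul_rpow hC.le h1.le, ← mul_assoc, ← Real.rpow_add hC]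
          simp
      _ ≤ C ^ x * ‖e a‖ ^ (-x) := by
          refine mul_le_mul_of_nonneg_left ?_ (by positivity)
          exact Real.rpow_le_rpow_of_nonpos h2 (he a) (by linarith)

theorem ls_bdd (B : ℝ) (hB : 0 ≤ B) {t : ℝ} (ht : 0 < t) : ∃ M : ℝ, 0 ≤ M ∧ ∀ r : ℝ, 0 ≤ r →
    r ^ B * Real.exp (-(t * r)) ≤ M := by
  have h := tendsto_rpow_mul_exp_neg_mul_atTop_nhds_zero B t ht
  have h1 : ∀ᶠ r in Filter.atTop, r ^ B * Real.exp (-t * r) < 1 := h.eventually_lt_const one_pos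
  obtain ⟨R, hR⟩ := Filter.eventually_atTop.mp h1
  refine ⟨max 1 (|R| ^ B), by positivity, fun r hr => ?_⟩
  by_cases hc : R ≤ r
  · have := hR r hc
    rw [neg_mul] at this
    exact this.le.trans (le_max_left _ _)
  · refine le_trans ?_ (le_max_right _ _)
    have h3 : r ^ B ≤ |R| ^ B := Real.rpow_le_rpow hr ((le_of_lt (not_le.mp hc)).trans (le_abs_self R)) hB
    have h4 : Real.exp (-(t * r)) ≤ 1 := by
      rw [Real.exp_le_one_iff]
      have : 0 ≤ t * r := by positivity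
      linarith
    calc r ^ B * Real.exp (-(t * r)) ≤ |R| ^ B * 1 :=
          mul_le_mul h3 h4 (Real.exp_pos _).le (by positivity)
      _ = _ := mul_one _

theorem lat_exp (F : Fld s κ τ b b') {A : ℝ} (hA : 0 ≤ A) {t : ℝ} (ht : 0 < t) :
    Summable (fun a : 𝓞 K => ‖s a‖ ^ A * Real.exp (-(t * ‖s a‖))) := by
  classical
  obtain ⟨M, hM, hMb⟩ := ls_bdd (A + 3) (by linarith) ht
  have hs := (lat_zeta F (x := 3) (by norm_num)).mul_left M
  have hs0 : Summable fun a : 𝓞 K => if a = 0 then (1 : ℝ) else 0 :=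
    summable_of_hasFiniteSupport (Set.Finite.subset (Set.finite_singleton (0 : 𝓞 K)) (by
      intro a ha
      by_contra hne
      exact ha (if_neg hne)))
  refine Summable.of_nonneg_of_le (fun a => by positivity) (fun a => ?_) (hs.add hs0)
  by_cases ha : a = 0
  · subst ha
    rw [map_zero, norm_zero, mul_zero, neg_zero, Real.exp_zero, mul_one, if_pos rfl]
    have h1 : (0 : ℝ) ^ A ≤ 1 := Real.rpow_le_one le_rfl zero_le_one hA
    have h2 : 0 ≤ M * (0 : ℝ) ^ (-3 : ℝ) := by positivity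
    linarith
  · rw [if_neg ha, add_zero]
    have h1 : 0 < ‖s a‖ := norm_pos_iff.mpr fun h => ha (F.inj _ h)
    have h2 := hMb _ h1.le
    rw [Real.rpow_add h1] at h2
    calc ‖s a‖ ^ A * Real.exp (-(t * ‖s a‖)) =
        (‖s a‖ ^ A * ‖s a‖ ^ (3 : ℝ) * Real.exp (-(t * ‖s a‖))) * ‖s a‖ ^ (-3 : ℝ) := by
          rw [Real.rpow_neg h1.le]
          field_simp
      _ ≤ M * ‖s a‖ ^ (-3 : ℝ) := mul_le_mul_of_nonneg_right h2 (by positivity)

theorem ideal_sum {x : ℝ} (hx : 1 < x) :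
    Summable (fun 𝔞 : NI K => (Ideal.absNorm 𝔞.1 : ℝ) ^ (-x)) :=
  (Pool.Agent.HZ.ideal_summable (K := K) hx).comp_injective Subtype.val_injective

example : type_of% @lat_zeta := @lat_zeta
example : type_of% @lat_exp := @lat_exp
example : type_of% @ideal_sum := @ideal_sum

end Pool.Agent.HB
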