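import Pool.Agent.Lib_helper99.HB.Defs
import Pool.Agent.Lib_helper99.HBF.FB
import Pool.Agent.Lib_helper99.HBF.KB
import Pool.Agent.Lib_helper99.HBF.LS

/-!
# HB, block FS: basic properties of the Fourier series
-/

namespace Pool.Agent.HB

open NumberField Complex MeasureTheory
open scoped MatrixGroups ENNReal
open Pool.Agent.H4 (NI PI Hek blw Spl Inr tt uu p4 hh PP ml atl FunBd vcf)

variable {K : Type} [Field K] [NumberField K]
variable {s : 𝓞 K →+* ℂ} {κ : 𝓞 K} {τ : 𝓞 K ≃+* 𝓞 K} {b b' : Fin 2 → 𝓞 K}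

theorem fs_phase (x : ℝ) : ‖cexp (2 * Real.pi * I * (x : ℂ))‖ = 1 := by
  have e : 2 * (Real.pi : ℂ) * I * (x : ℂ) = ((2 * Real.pi * x : ℝ) : ℂ) * I := by
    push_cast
    ring
  rw [e, Complex.norm_exp_ofReal_mul_I]

theorem ft_norm (s : 𝓞 K →+* ℂ) (κ : 𝓞 K) (ν : ℂ) (c : 𝓞 K → ℝ) {p : ℂ × ℝ} (hp : 0 < p.2)
    (a : 𝓞 K) : ‖ft s κ ν c p a‖ = |c a| * (p.2 * |Kr ν (ca s κ a * p.2)|) := by
  unfold ft
  rw [norm_mul, Complex.norm_real, Real.norm_eq_abs, fs_phase, mul_one, abs_mul, abs_mul,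
    abs_of_pos hp]

theorem fs_zero {ν : ℂ} {c : 𝓞 K → ℝ} (hc : AF s κ ν c) (p : ℂ × ℝ) : ft s κ ν c p 0 = 0 := by
  unfold ft
  rw [hc.zero]
  simp

theorem fs_kap (F : Fld s κ τ b b') : 0 < ‖s κ‖ :=
  norm_pos_iff.mpr (fun h => F.kap (F.inj κ h))

theorem fs_ca (F : Fld s κ τ b b') {a : 𝓞 K} (ha : a ≠ 0) : 4 * Real.pi / ‖s κ‖ ≤ ca s κ a := by
  unfold ca
  have h1 := one_le_norm F ha
  have h2 := fs_kap F
  have h3 := Real.pi_pos
  rw [div_le_div_iff_of_pos_right h2]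
  nlinarith

/-- the uniform bound -/
theorem fs_bound (F : Fld s κ τ b b') {ν : ℂ} (hν : Adm ν) {c : 𝓞 K → ℝ} (hc : AF s κ ν c) :
    ∃ (C A m : ℝ), 0 ≤ C ∧ 0 ≤ A ∧ 0 < m ∧ ∀ (p : ℂ × ℝ) (a : 𝓞 K), 0 < p.2 →
      ‖ft s κ ν c p a‖ ≤ C * (‖s a‖ ^ A * Real.exp (-(m * p.2 * ‖s a‖))) := by
  obtain ⟨C, A, hC, hA, hCA⟩ := hc.grow
  have hk := fs_kap F
  have hπ := Real.pi_pos
  refine ⟨C * (2 / (4 * Real.pi / ‖s κ‖)), A, 2 * Real.pi / ‖s κ‖, by positivity, hA,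
    by positivity, fun p a hp => ?_⟩
  by_cases ha : a = 0
  · rw [ha, fs_zero hc, norm_zero]
    have : 0 ≤ ‖s (0 : 𝓞 K)‖ ^ A := Real.rpow_nonneg (norm_nonneg _) _
    positivity
  · rw [ft_norm s κ ν c hp]
    have h1 := fs_ca F ha
    have h2 : 0 < 4 * Real.pi / ‖s κ‖ := by positivity
    have h3 : 0 < ca s κ a := lt_of_lt_of_le h2 h1
    have h4 := kr_bd hν (x := ca s κ a * p.2) (by positivity)
    have h5 : p.2 * |Kr ν (ca s κ a * p.2)| ≤ 2 / (4 * Real.pi / ‖s κ‖) *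
        Real.exp (-(2 * Real.pi / ‖s κ‖ * p.2 * ‖s a‖)) := by
      calc p.2 * |Kr ν (ca s κ a * p.2)| ≤ p.2 * (2 / (ca s κ a * p.2) *
            Real.exp (-(ca s κ a * p.2 / 2))) := mul_le_mul_of_nonneg_left h4 hp.le
        _ = 2 / ca s κ a * Real.exp (-(ca s κ a * p.2 / 2)) := by field_simp
        _ = 2 / ca s κ a * Real.exp (-(2 * Real.pi / ‖s κ‖ * p.2 * ‖s a‖)) := by
            congr 3
            unfold ca
            ring
        _ ≤ _ := by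
            refine mul_le_mul_of_nonneg_right ?_ (Real.exp_pos _).le
            exact div_le_div_of_nonneg_left (by norm_num) h2 h1
    calc |c a| * (p.2 * |Kr ν (ca s κ a * p.2)|) ≤ (C * ‖s a‖ ^ A) *
          (2 / (4 * Real.pi / ‖s κ‖) * Real.exp (-(2 * Real.pi / ‖s κ‖ * p.2 * ‖s a‖))) :=
          mul_le_mul (hCA a) h5 (by positivity)
            (mul_nonneg hC (Real.rpow_nonneg (norm_nonneg _) _))
      _ = _ := by ring

theorem ft_summable (F : Fld s κ τ b b') {ν : ℂ} (hν : Adm ν) {c : 𝓞 K → ℝ}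
    (hc : AF s κ ν c) {p : ℂ × ℝ} (hp : 0 < p.2) : Summable (fun a => ‖ft s κ ν c p a‖) := by
  obtain ⟨C, A, m, hC, hA, hm, hb⟩ := fs_bound F hν hc
  refine Summable.of_nonneg_of_le (fun a => norm_nonneg _) (fun a => hb p a hp) ?_
  exact (lat_exp F hA (mul_pos hm hp)).mul_left C

theorem fs_cont (F : Fld s κ τ b b') {ν : ℂ} {c : 𝓞 K → ℝ}
    (hc : AF s κ ν c) (a : 𝓞 K) : ContinuousOn (fun p : ℂ × ℝ => ft s κ ν c p a) {p | 0 < p.2} := by
  by_cases ha : a = 0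
  · subst ha
    simp only [fs_zero hc]
    exact continuousOn_const
  · have hca : 0 < ca s κ a := by
      have hk := fs_kap F
      have hπ := Real.pi_pos
      exact lt_of_lt_of_le (by positivity) (fs_ca F ha)
    have h1 : ContinuousOn (fun p : ℂ × ℝ => Kr ν (ca s κ a * p.2)) {p | 0 < p.2} := by
      refine (kr_cont ν).comp (by fun_prop) ?_
      intro p hp
      exact mul_pos hca hp
    unfold ft
    refine ContinuousOn.mul ?_ (by fun_prop)
    refine Complex.continuous_ofReal.comp_continuousOn ?_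
    exact continuousOn_const.mul (continuous_snd.continuousOn.mul h1)

theorem fser_cont (F : Fld s κ τ b b') {ν : ℂ} (hν : Adm ν) {c : 𝓞 K → ℝ}
    (hc : AF s κ ν c) : ContinuousOn (fser s κ ν c) {p | 0 < p.2} := by
  obtain ⟨C, A, m, hC, hA, hm, hb⟩ := fs_bound F hν hc
  intro w hw
  have hw0 : 0 < w.2 := hw
  have hδ : 0 < w.2 / 2 := half_pos hw0
  have hU : IsOpen {p : ℂ × ℝ | w.2 / 2 < p.2} := isOpen_lt continuous_const continuous_snd
  have hwU : w ∈ {p : ℂ × ℝ | w.2 / 2 < p.2} := by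
    show w.2 / 2 < w.2
    linarith
  have hcont : ContinuousOn (fser s κ ν c) {p : ℂ × ℝ | w.2 / 2 < p.2} := by
    unfold fser
    refine continuousOn_tsum (u := fun a => C * (‖s a‖ ^ A *
      Real.exp (-(m * (w.2 / 2) * ‖s a‖)))) ?_ ?_ ?_
    · intro a
      refine (fs_cont F hc a).mono fun p hp => ?_
      exact lt_trans hδ hp
    · exact (lat_exp F hA (mul_pos hm hδ)).mul_left C
    · intro a p hp
      have hp' : w.2 / 2 < p.2 := hp
      refine (hb p a (lt_trans hδ hp')).trans ?_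
      refine mul_le_mul_of_nonneg_left (mul_le_mul_of_nonneg_left ?_
        (Real.rpow_nonneg (norm_nonneg _) _)) hC
      apply Real.exp_le_exp.mpr
      apply neg_le_neg
      exact mul_le_mul_of_nonneg_right (mul_le_mul_of_nonneg_left hp'.le hm.le) (norm_nonneg _)
  exact (hcont.continuousAt (hU.mem_nhds hwU)).continuousWithinAt

theorem fser_decay (F : Fld s κ τ b b') {ν : ℂ} (hν : Adm ν) {c : 𝓞 K → ℝ}
    (hc : AF s κ ν c) {ρ₀ : ℝ} (hρ : 0 < ρ₀) : ∃ C c₀ : ℝ, 0 < c₀ ∧ ∀ p : ℂ × ℝ, ρ₀ ≤ p.2 →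
      ‖fser s κ ν c p‖ ≤ C * Real.exp (-(c₀ * p.2)) := by
  obtain ⟨C, A, m, hC, hA, hm, hb⟩ := fs_bound F hν hc
  have hsum := lat_exp F hA (mul_pos hm hρ)
  refine ⟨C * (∑' a : 𝓞 K, ‖s a‖ ^ A * Real.exp (-(m * ρ₀ * ‖s a‖))) * Real.exp (m * ρ₀), m, hm,
    fun p hp => ?_⟩
  have hp0 : 0 < p.2 := lt_of_lt_of_le hρ hp
  have hs := ft_summable F hν hc hp0
  have hle : ∀ a, ‖ft s κ ν c p a‖ ≤ C * Real.exp (-(m * (p.2 - ρ₀))) *
      (‖s a‖ ^ A * Real.exp (-(m * ρ₀ * ‖s a‖))) := by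
    intro a
    have hr : 0 ≤ ‖s a‖ ^ A := Real.rpow_nonneg (norm_nonneg _) _
    by_cases ha : a = 0
    · rw [ha, fs_zero hc, norm_zero]
      have : 0 ≤ ‖s (0 : 𝓞 K)‖ ^ A := Real.rpow_nonneg (norm_nonneg _) _
      positivity
    · refine (hb p a hp0).trans ?_
      rw [mul_assoc C (Real.exp _)]
      refine mul_le_mul_of_nonneg_left ?_ hC
      rw [mul_left_comm]
      refine mul_le_mul_of_nonneg_left ?_ hr
      rw [← Real.exp_add]
      apply Real.exp_le_exp.mpr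
      have h1 := one_le_norm F ha
      have h2 : m * (p.2 - ρ₀) * 1 ≤ m * (p.2 - ρ₀) * ‖s a‖ :=
        mul_le_mul_of_nonneg_left h1 (mul_nonneg hm.le (by linarith))
      nlinarith
  calc ‖fser s κ ν c p‖ ≤ ∑' a, ‖ft s κ ν c p a‖ := norm_tsum_le_tsum_norm hs
    _ ≤ ∑' a : 𝓞 K, C * Real.exp (-(m * (p.2 - ρ₀))) *
      (‖s a‖ ^ A * Real.exp (-(m * ρ₀ * ‖s a‖))) := hs.tsum_le_tsum hle (hsum.mul_left _)
    _ = _ := by
        rw [tsum_mul_left]
        have : Real.exp (-(m * (p.2 - ρ₀))) = Real.exp (m * ρ₀) * Real.exp (-(m * p.2)) := by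
          rw [← Real.exp_add]
          congr 1
          ring
        rw [this]
        ring

theorem fser_real (F : Fld s κ τ b b') {ν : ℂ} {c : 𝓞 K → ℝ} (hc : AF s κ ν c)
    (p : ℂ × ℝ) : (starRingEnd ℂ) (fser s κ ν c p) = fser s κ ν c p := by
  unfold fser
  rw [Complex.conj_tsum, ← Equiv.tsum_eq (Equiv.neg (𝓞 K)) (ft s κ ν c p)]
  refine tsum_congr fun a => ?_
  have h1 : c (-a) = c a := by
    have := hc.unit a (-1)
    rwa [Units.val_neg, Units.val_one, neg_one_mul] at this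
  have h2 : ca s κ (-a) = ca s κ a := by
    unfold ca
    rw [map_neg, norm_neg]
  rw [Equiv.neg_apply]
  unfold ft
  rw [h1, h2, map_mul, Complex.conj_ofReal, ← Complex.exp_conj]
  congr 2
  simp only [map_mul, Complex.conj_ofReal, Complex.conj_I, map_ofNat]
  have h3 : (s (-a) * p.1 / s κ).re = -(s a * p.1 / s κ).re := by
    rw [map_neg, neg_mul, neg_div, neg_re]
  rw [h3]
  push_cast
  ring

end Pool.Agent.HB
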