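import Pool.Agent.Lib_helper99.HB.Defs
import Pool.Agent.Lib_helper99.HBF.AC
import Pool.Agent.Lib_helper99.HBF.FB

/-! HB, block RW: rows and group elements (after H4F/RW of helper37) -/

namespace Pool.Agent.HB

open NumberField Complex MeasureTheory
open scoped MatrixGroups ENNReal
open Pool.Agent.H4 (NI PI Hek blw Spl Inr tt uu p4 hh PP ml atl FunBd vcf)

variable {K : Type} [Field K] [NumberField K]
variable {s : 𝓞 K →+* ℂ} {κ : 𝓞 K} {τ : 𝓞 K ≃+* 𝓞 K} {b b' : Fin 2 → 𝓞 K}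

/-- translations -/
def rw_T (β : 𝓞 K) : SL(2, 𝓞 K) := ⟨!![1, β; 0, 1], by simp [Matrix.det_fin_two]⟩

theorem rw_coe (s : 𝓞 K →+* ℂ) (β : 𝓞 K) (P : H3) :
    (act s (rw_T β) P).1.1 = P.1.1 + s β := by
  have h00 : (Matrix.SpecialLinearGroup.map s (rw_T β)) 0 0 = 1 := map_one s
  have h01 : (Matrix.SpecialLinearGroup.map s (rw_T β)) 0 1 = s β := rfl
  have h10 : (Matrix.SpecialLinearGroup.map s (rw_T β)) 1 0 = 0 := map_zero s
  have h11 : (Matrix.SpecialLinearGroup.map s (rw_T β)) 1 1 = 1 := map_one s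
  have hd : den (Matrix.SpecialLinearGroup.map s (rw_T β)) P = 1 := by
    unfold den
    rw [h10, h11]
    simp
  unfold act actC
  simp only [hd, h00, h01, h10, h11]
  simp

theorem rw_cu (F : Fld s κ τ b b') (n : Fin 2 → ℤ) (w : H3) :
    cu s b (act s (rw_T (n 0 * b 0 + n 1 * b 1)) w) = cu s b w + n 0 ∧
      cv s b (act s (rw_T (n 0 * b 0 + n 1 * b 1)) w) = cv s b w + n 1 := by
  have hdl := dl_ne F
  have h0 : s (n 0 * b 0 + n 1 * b 1) = n 0 * s (b 0) + n 1 * s (b 1) := by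
    rw [map_add, map_mul, map_mul, map_intCast, map_intCast]
  have h1 : (act s (rw_T (n 0 * b 0 + n 1 * b 1)) w).1.1.re =
      w.1.1.re + (n 0 * (s (b 0)).re + n 1 * (s (b 1)).re) := by
    rw [rw_coe, h0]
    simp
  have h2 : (act s (rw_T (n 0 * b 0 + n 1 * b 1)) w).1.1.im =
      w.1.1.im + (n 0 * (s (b 0)).im + n 1 * (s (b 1)).im) := by
    rw [rw_coe, h0]
    simp
  constructor
  · unfold cu
    rw [h1, h2, div_add' _ _ _ hdl]
    congr 1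
    unfold dl
    ring
  · unfold cv
    rw [h1, h2, div_add' _ _ _ hdl]
    congr 1
    unfold dl
    ring

theorem rw_int {x : ℝ} {n : ℤ} (h1 : x ∈ Set.Ico (0 : ℝ) 1) (h2 : x + n ∈ Set.Ico (0 : ℝ) 1) :
    n = 0 := by
  have h3 : (n : ℝ) < 1 := by linarith [h1.1, h2.2]
  have h4 : (-1 : ℝ) < n := by linarith [h1.2, h2.1]
  have h5 : n < 1 := by exact_mod_cast h3
  have h6 : -1 < n := by exact_mod_cast h4
  omega

theorem row_unique (F : Fld s κ τ b b') {c d : 𝓞 K} (h : IsCoprime c d) (P : H3) :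
    ∃! γ : SL(2, 𝓞 K), γ 1 0 = c ∧ γ 1 1 = d ∧ act s γ P ∈ Box s b := by
  obtain ⟨u, v, huv⟩ := h
  set γ₀ : SL(2, 𝓞 K) := ⟨!![v, -u; c, d], by rw [Matrix.det_fin_two_of]; linear_combination huv⟩
    with hγ₀
  set w := act s γ₀ P with hw
  set n : Fin 2 → ℤ := ![-⌊cu s b w⌋, -⌊cv s b w⌋] with hn
  set β : 𝓞 K := n 0 * b 0 + n 1 * b 1 with hβ
  have g1 : (rw_T β * γ₀) 1 0 = c := by
    show (!![1, β; 0, 1] * !![v, -u; c, d] : Matrix (Fin 2) (Fin 2) (𝓞 K)) 1 0 = c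
    simp [Matrix.mul_apply, Fin.sum_univ_two]
  have g2 : (rw_T β * γ₀) 1 1 = d := by
    show (!![1, β; 0, 1] * !![v, -u; c, d] : Matrix (Fin 2) (Fin 2) (𝓞 K)) 1 1 = d
    simp [Matrix.mul_apply, Fin.sum_univ_two]
  have g3 : act s (rw_T β * γ₀) P ∈ Box s b := by
    rw [act_mul, ← hw]
    obtain ⟨h1, h2⟩ := rw_cu F n w
    have h3 : ((n 0 : ℤ) : ℝ) = -(⌊cu s b w⌋ : ℝ) := by
      rw [hn]; simp
    have h4 : ((n 1 : ℤ) : ℝ) = -(⌊cv s b w⌋ : ℝ) := by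
      rw [hn]; simp
    refine ⟨?_, ?_⟩
    · rw [← hβ] at h1
      rw [h1, h3]
      exact ⟨by linarith [Int.floor_le (cu s b w)], by linarith [Int.lt_floor_add_one (cu s b w)]⟩
    · rw [← hβ] at h2
      rw [h2, h4]
      exact ⟨by linarith [Int.floor_le (cv s b w)], by linarith [Int.lt_floor_add_one (cv s b w)]⟩
  have key : ∀ γ γ' : SL(2, 𝓞 K), γ 1 0 = c → γ 1 1 = d → act s γ P ∈ Box s b →
      γ' 1 0 = c → γ' 1 1 = d → act s γ' P ∈ Box s b → γ' = γ := by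
    intro γ γ' h1 h2 h3 h1' h2' h3'
    have hd : γ 0 0 * d - γ 0 1 * c = 1 := by
      have := γ.det_coe
      rw [Matrix.det_fin_two, h1, h2] at this
      exact this
    have hd' : γ' 0 0 * d - γ' 0 1 * c = 1 := by
      have := γ'.det_coe
      rw [Matrix.det_fin_two, h1', h2'] at this
      exact this
    obtain ⟨m, hm⟩ := F.bas (γ' 0 1 * γ 0 0 - γ' 0 0 * γ 0 1)
    have hT : γ' = rw_T ((m 0 : 𝓞 K) * b 0 + (m 1 : 𝓞 K) * b 1) * γ := by
      rw [← hm]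
      apply Matrix.SpecialLinearGroup.ext
      intro i j
      show γ' i j = (!![1, γ' 0 1 * γ 0 0 - γ' 0 0 * γ 0 1; 0, 1] *
        (γ : Matrix (Fin 2) (Fin 2) (𝓞 K))) i j
      rw [Matrix.mul_apply, Fin.sum_univ_two]
      fin_cases i <;> fin_cases j
      · show γ' 0 0 = 1 * γ 0 0 + (γ' 0 1 * γ 0 0 - γ' 0 0 * γ 0 1) * γ 1 0
        rw [h1]
        linear_combination (-γ' 0 0) * hd + γ 0 0 * hd'
      · show γ' 0 1 = 1 * γ 0 1 + (γ' 0 1 * γ 0 0 - γ' 0 0 * γ 0 1) * γ 1 1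
        rw [h2]
        linear_combination (-γ' 0 1) * hd + γ 0 1 * hd'
      · show γ' 1 0 = 0 * γ 0 0 + 1 * γ 1 0
        rw [h1, h1']
        ring
      · show γ' 1 1 = 0 * γ 0 1 + 1 * γ 1 1
        rw [h2, h2']
        ring
    rw [hT, act_mul] at h3'
    obtain ⟨k1, k2⟩ := rw_cu F m (act s γ P)
    have k3 := h3'.1
    have k4 := h3'.2
    rw [k1] at k3
    rw [k2] at k4
    have m0 := rw_int h3.1 k3
    have m1 := rw_int h3.2 k4
    rw [hT, m0, m1]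
    have hT0 : rw_T ((((0 : ℤ)) : 𝓞 K) * b 0 + ((0 : ℤ) : 𝓞 K) * b 1) = 1 := by
      apply Matrix.SpecialLinearGroup.ext
      intro i j
      show (!![1, (((0 : ℤ)) : 𝓞 K) * b 0 + ((0 : ℤ) : 𝓞 K) * b 1; 0, 1] :
        Matrix (Fin 2) (Fin 2) (𝓞 K)) i j = (1 : Matrix (Fin 2) (Fin 2) (𝓞 K)) i j
      fin_cases i <;> fin_cases j <;> simp
    rw [hT0, one_mul]
  exact ⟨rw_T β * γ₀, ⟨g1, g2, g3⟩, fun γ' ⟨h1', h2', h3'⟩ => key _ _ g1 g2 g3 h1' h2' h3'⟩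

example : type_of% @row_unique := @row_unique

end Pool.Agent.HB
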