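import Pool.Agent.Lib_helper98.H4F.GP
import Pool.Agent.Lib_helper99.HB.Defs
import Pool.Agent.Lib_helper99.HBF.FB

/-!
# HB, block GP: Poisson summation for a Gaussian over the integers of `K`
-/

namespace Pool.Agent.HB

open NumberField Complex MeasureTheory
open scoped MatrixGroups ENNReal
open Pool.Agent.H4 (NI PI Hek blw Spl Inr tt uu p4 hh PP ml atl FunBd vcf)

variable {K : Type} [Field K] [NumberField K]
variable {s : 𝓞 K →+* ℂ} {κ : 𝓞 K} {τ : 𝓞 K ≃+* 𝓞 K} {b b' : Fin 2 → 𝓞 K}

/-- the duality in real coordinates -/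
theorem gp_dual (F : Fld s κ τ b b') (i j : Fin 2) :
    (s (b i)).re * (2 * (s (b' j) / s κ).re) + (s (b i)).im * (-(2 * (s (b' j) / s κ).im)) =
      if i = j then 1 else 0 := by
  rw [← F.dual i j, map_mul, mul_div_assoc, mul_re]
  ring

theorem gp_inj (F : Fld s κ τ b b') :
    Function.Bijective (fun n : Fin 2 → ℤ => (n 0 : 𝓞 K) * b 0 + n 1 * b 1) := by
  have h00 := gp_dual F 0 0
  have h01 := gp_dual F 0 1
  have h10 := gp_dual F 1 0
  have h11 := gp_dual F 1 1
  simp only [if_true, zero_ne_one, one_ne_zero, if_false, Fin.isValue] at h00 h01 h10 h11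
  constructor
  · intro n m h
    have h1 := congrArg s h
    simp only [map_add, map_mul, map_intCast] at h1
    have h2 := congrArg Complex.re h1
    have h3 := congrArg Complex.im h1
    simp only [add_re, add_im, mul_re, mul_im, intCast_re, intCast_im, zero_mul, sub_zero,
      add_zero] at h2 h3
    have e0 : (n 0 : ℝ) = m 0 := by
      linear_combination (2 * (s (b' 0) / s κ).re) * h2 - (2 * (s (b' 0) / s κ).im) * h3 -
        (n 0 : ℝ) * h00 - (n 1 : ℝ) * h10 + (m 0 : ℝ) * h00 + (m 1 : ℝ) * h10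
    have e1 : (n 1 : ℝ) = m 1 := by
      linear_combination (2 * (s (b' 1) / s κ).re) * h2 - (2 * (s (b' 1) / s κ).im) * h3 -
        (n 0 : ℝ) * h01 - (n 1 : ℝ) * h11 + (m 0 : ℝ) * h01 + (m 1 : ℝ) * h11
    funext i
    fin_cases i
    · exact_mod_cast e0
    · exact_mod_cast e1
  · intro x
    obtain ⟨n, hn⟩ := F.bas x
    exact ⟨n, hn.symm⟩

theorem gp_inj' (F : Fld s κ τ b b') :
    Function.Bijective (fun n : Fin 2 → ℤ => (n 0 : 𝓞 K) * b' 0 + n 1 * b' 1) := by
  have h00 := F.dual 0 0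
  have h01 := F.dual 0 1
  have h10 := F.dual 1 0
  have h11 := F.dual 1 1
  simp only [if_true, zero_ne_one, one_ne_zero, if_false, Fin.isValue] at h00 h01 h10 h11
  have key : ∀ (n : Fin 2 → ℤ) (i : Fin 2), 2 * (s (b i * ((n 0 : 𝓞 K) * b' 0 + n 1 * b' 1)) /
      s κ).re = n 0 * (2 * (s (b i * b' 0) / s κ).re) + n 1 * (2 * (s (b i * b' 1) / s κ).re) := by
    intro n i
    have e : s (b i * ((n 0 : 𝓞 K) * b' 0 + n 1 * b' 1)) / s κ =
        ((n 0 : ℝ) : ℂ) * (s (b i * b' 0) / s κ) + ((n 1 : ℝ) : ℂ) * (s (b i * b' 1) / s κ) := by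
      simp only [map_add, map_mul, map_intCast]
      push_cast
      ring
    rw [e, add_re, re_ofReal_mul, re_ofReal_mul]
    ring
  constructor
  · intro n m h
    simp only at h
    have k0 := key n 0
    have k1 := key n 1
    have k0' := key m 0
    have k1' := key m 1
    rw [h] at k0 k1
    rw [h00, h01] at k0 k0'
    rw [h10, h11] at k1 k1'
    have e0 : (n 0 : ℝ) = m 0 := by linarith
    have e1 : (n 1 : ℝ) = m 1 := by linarith
    funext i
    fin_cases i
    · exact_mod_cast e0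
    · exact_mod_cast e1
  · intro x
    obtain ⟨n, hn⟩ := F.bas' x
    exact ⟨n, hn.symm⟩

theorem gauss_poisson (F : Fld s κ τ b b') {A : ℝ} (hA : 0 < A) (x : ℂ) :
    Summable (fun d : 𝓞 K => Real.exp (-(Real.pi * (A * normSq (x + s d))))) ∧
    ((∑' d : 𝓞 K, Real.exp (-(Real.pi * (A * normSq (x + s d)))) : ℝ) : ℂ) =
      ((2 / (A * √(DD s κ)) : ℝ) : ℂ) *
      ∑' m : 𝓞 K, ((Real.exp (-(Real.pi * (4 * normSq (s m) / (DD s κ * A)))) : ℝ) : ℂ) *
          cexp (2 * Real.pi * I * ((2 * (s m * x / s κ).re : ℝ) : ℂ)) := by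
  have hD := DD_pos F
  have hκ : s κ ≠ 0 := fun h => F.kap (F.inj κ h)
  have h00 := gp_dual F 0 0
  have h01 := gp_dual F 0 1
  have h10 := gp_dual F 1 0
  have h11 := gp_dual F 1 1
  simp only [if_true, zero_ne_one, one_ne_zero, if_false, Fin.isValue] at h00 h01 h10 h11
  set p := (s (b 0)).re with hp
  set q := (s (b 1)).re with hq
  set r := (s (b 0)).im with hr
  set w := (s (b 1)).im with hw
  set p' := 2 * (s (b' 0) / s κ).re with hp'
  set q' := 2 * (s (b' 1) / s κ).re with hq'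
  set r' := -(2 * (s (b' 0) / s κ).im) with hr'
  set w' := -(2 * (s (b' 1) / s κ).im) with hw'
  have hprod : (p * w - q * r) * (p' * w' - q' * r') = 1 := by
    have : (p * w - q * r) * (p' * w' - q' * r') =
        (p * p' + r * r') * (q * q' + w * w') - (p * q' + r * w') * (q * p' + w * r') := by ring
    rw [this, h00, h01, h10, h11]
    ring
  have hd : p * w - q * r ≠ 0 := left_ne_zero_of_mul_eq_one hprod
  have hd' : p' * w' - q' * r' ≠ 0 := right_ne_zero_of_mul_eq_one hprod
  have hdl : dl s b = p * w - q * r := by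
    unfold dl
    rw [hp, hq, hr, hw]
  have H := Pool.Agent.H4.gp_poisson hA hA hd hd' one_pos one_pos
    (by rw [div_one, div_one]; exact h00) (by rw [div_one, div_one]; exact h01)
    (by rw [div_one, div_one]; exact h10) (by rw [div_one, div_one]; exact h11) x.re x.im
  obtain ⟨H1, H2⟩ := H
  set e := Equiv.ofBijective _ (gp_inj F) with he
  set e' := Equiv.ofBijective _ (gp_inj' F) with he'
  have hse : ∀ n : Fin 2 → ℤ, s (e n) = (n 0 : ℂ) * s (b 0) + n 1 * s (b 1) := by
    intro n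
    rw [he]
    simp only [Equiv.ofBijective_apply, map_add, map_mul, map_intCast]
  have hse' : ∀ n : Fin 2 → ℤ, s (e' n) = (n 0 : ℂ) * s (b' 0) + n 1 * s (b' 1) := by
    intro n
    rw [he']
    simp only [Equiv.ofBijective_apply, map_add, map_mul, map_intCast]
  have h1 : ∀ n : Fin 2 → ℤ, Real.exp (-(Real.pi * (A * normSq (x + s (e n))))) =
      Real.exp (-(Real.pi * (A * (x.re + (p * n 0 + q * n 1)) ^ 2 +
      A * (x.im + (r * n 0 + w * n 1)) ^ 2))) := by
    intro n
    rw [hse n, normSq_apply]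
    simp only [add_re, add_im, mul_re, mul_im, intCast_re, intCast_im, zero_mul, sub_zero,
      add_zero]
    congr 1
    rw [hp, hq, hr, hw]
    ring
  have h2 : ∀ m : Fin 2 → ℤ, s (e' m) / s κ =
      ((((p' * m 0 + q' * m 1) / 2 : ℝ) : ℂ) - ((((r' * m 0 + w' * m 1) / 2 : ℝ)) : ℂ) * I) := by
    intro m
    rw [hse' m]
    have e0 : s (b' 0) / s κ = ((p' / 2 : ℝ) : ℂ) - ((r' / 2 : ℝ) : ℂ) * I := by
      apply Complex.ext
      · simp only [sub_re, ofReal_re, mul_re, I_re, ofReal_im, I_im]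
        rw [hp']
        ring
      · simp only [sub_im, ofReal_im, mul_im, I_re, ofReal_re, I_im]
        rw [hr']
        ring
    have e1 : s (b' 1) / s κ = ((q' / 2 : ℝ) : ℂ) - ((w' / 2 : ℝ) : ℂ) * I := by
      apply Complex.ext
      · simp only [sub_re, ofReal_re, mul_re, I_re, ofReal_im, I_im]
        rw [hq']
        ring
      · simp only [sub_im, ofReal_im, mul_im, I_re, ofReal_re, I_im]
        rw [hw']
        ring
    rw [add_div, mul_div_assoc, mul_div_assoc, e0, e1]
    push_cast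
    ring
  have h3 : ∀ m : Fin 2 → ℤ, 4 * normSq (s (e' m)) / (DD s κ * A) =
      (p' * m 0 + q' * m 1) ^ 2 / (1 ^ 2 * A) + (r' * m 0 + w' * m 1) ^ 2 / (1 ^ 2 * A) := by
    intro m
    have e0 : normSq (s (e' m)) / DD s κ = normSq (s (e' m) / s κ) := by
      rw [normSq_div]
      rfl
    have e1 : normSq (s (e' m) / s κ) = ((p' * m 0 + q' * m 1) / 2) ^ 2 +
        ((r' * m 0 + w' * m 1) / 2) ^ 2 := by
      rw [h2 m, normSq_apply]
      simp only [sub_re, sub_im, ofReal_re, ofReal_im, mul_re, mul_im, I_re, I_im]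
      ring
    calc 4 * normSq (s (e' m)) / (DD s κ * A) = 4 * (normSq (s (e' m)) / DD s κ) / A := by
          field_simp
      _ = _ := by
          rw [e0, e1]
          field_simp
          ring
  have h4 : ∀ m : Fin 2 → ℤ, 2 * (s (e' m) * x / s κ).re =
      (p' * m 0 + q' * m 1) * x.re / 1 + (r' * m 0 + w' * m 1) * x.im / 1 := by
    intro m
    have e0 : s (e' m) * x / s κ = s (e' m) / s κ * x := by ring
    rw [e0, h2 m, mul_re]
    simp only [sub_re, sub_im, ofReal_re, ofReal_im, mul_re, mul_im, I_re, I_im]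
    ring
  constructor
  · rw [← e.summable_iff]
    refine H1.congr fun n => ?_
    exact (h1 n).symm
  · rw [← e.tsum_eq, tsum_congr h1, H2]
    have h5 : (1 / (|p * w - q * r| * √(A * A)) : ℝ) = 2 / (A * √(DD s κ)) := by
      have e0 : √(A * A) = A := Real.sqrt_mul_self hA.le
      have e1 : |p * w - q * r| = √(DD s κ) / 2 := by
        rw [← hdl]
        have e2 : √(dl s b ^ 2) = √(DD s κ / 4) := by rw [dl_sq F]
        rw [Real.sqrt_sq_eq_abs, Real.sqrt_div hD.le] at e2
        rw [e2]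
        congr 1
        rw [show (4 : ℝ) = 2 ^ 2 by norm_num, Real.sqrt_sq (by norm_num)]
      rw [e0, e1]
      have e3 : 0 < √(DD s κ) := Real.sqrt_pos.mpr hD
      field_simp
    rw [h5]
    congr 1
    rw [← e'.tsum_eq]
    refine tsum_congr fun m => ?_
    rw [h3 m, h4 m]

end Pool.Agent.HB
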