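import Pool.Agent.Lib_helper98.H4F.FB
import Pool.Agent.Lib_helper99.HB.Defs
import Pool.Agent.Lib_helper99.HBF.LS

/-!
# Block TS: the theta series
-/

namespace Pool.Agent.HB

open NumberField Complex MeasureTheory
open scoped MatrixGroups ENNReal
open Pool.Agent.H4 (countable_int)

variable {K : Type} [Field K] [NumberField K]
variable {s : 𝓞 K →+* ℂ} {κ : 𝓞 K} {τ : 𝓞 K ≃+* 𝓞 K} {b b' : Fin 2 → 𝓞 K}

theorem ts_low (P : H3) : ∃ δ : ℝ, 0 < δ ∧ ∀ c d : ℂ,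
    δ * (‖c‖ ^ 2 + ‖d‖ ^ 2) ≤ (normSq (c * P.1.1 + d) + normSq c * P.1.2 ^ 2) / P.1.2 := by
  have hy : 0 < P.1.2 := P.2
  set y : ℝ := P.1.2 with hyd
  set z : ℂ := P.1.1 with hz
  refine ⟨1 / ((2 + (2 * ‖z‖ ^ 2 + 1) / y ^ 2) * y), by positivity, fun c d => ?_⟩
  rw [le_div_iff₀ hy, normSq_eq_norm_sq, normSq_eq_norm_sq]
  have h0 : ‖d‖ ^ 2 ≤ 2 * ‖c * z + d‖ ^ 2 + 2 * (‖c‖ ^ 2 * ‖z‖ ^ 2) := by
    have e1 : ‖d‖ ≤ ‖c * z + d‖ + ‖c‖ * ‖z‖ := by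
      have : d = (c * z + d) - c * z := by ring
      calc ‖d‖ = ‖(c * z + d) - c * z‖ := by rw [← this]
        _ ≤ ‖c * z + d‖ + ‖c * z‖ := norm_sub_le _ _
        _ = _ := by rw [norm_mul]
    have e2 : 0 ≤ ‖d‖ := norm_nonneg _
    have e3 : ‖d‖ ^ 2 ≤ (‖c * z + d‖ + ‖c‖ * ‖z‖) ^ 2 := pow_le_pow_left₀ e2 e1 2
    nlinarith [sq_nonneg (‖c * z + d‖ - ‖c‖ * ‖z‖)]
  have h1 : ‖c‖ ^ 2 + ‖d‖ ^ 2 ≤ (2 + (2 * ‖z‖ ^ 2 + 1) / y ^ 2) *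
      (‖c * z + d‖ ^ 2 + ‖c‖ ^ 2 * y ^ 2) := by
    have h2 : (2 * ‖z‖ ^ 2 + 1) / y ^ 2 * (‖c‖ ^ 2 * y ^ 2) = (2 * ‖z‖ ^ 2 + 1) * ‖c‖ ^ 2 := by
      field_simp
    have h3 : 0 ≤ (2 * ‖z‖ ^ 2 + 1) / y ^ 2 * ‖c * z + d‖ ^ 2 := by positivity
    have h4 : 0 ≤ ‖c‖ ^ 2 * y ^ 2 := by positivity
    nlinarith
  have h5 : 0 < 2 + (2 * ‖z‖ ^ 2 + 1) / y ^ 2 := by positivity
  calc 1 / ((2 + (2 * ‖z‖ ^ 2 + 1) / y ^ 2) * y) * (‖c‖ ^ 2 + ‖d‖ ^ 2) * y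
      = (‖c‖ ^ 2 + ‖d‖ ^ 2) / (2 + (2 * ‖z‖ ^ 2 + 1) / y ^ 2) := by
        field_simp
    _ ≤ ‖c * z + d‖ ^ 2 + ‖c‖ ^ 2 * y ^ 2 := by
        rw [div_le_iff₀ h5]
        linarith

theorem ts_nonneg (P : H3) (x : 𝓞 K × 𝓞 K) : 0 ≤ qq s P x :=
  div_nonneg (add_nonneg (normSq_nonneg _) (mul_nonneg (normSq_nonneg _) (sq_nonneg _))) P.2.le

theorem ts_lat (F : Fld s κ τ b b') {δ : ℝ} (hδ : 0 < δ) :
    Summable (fun a : 𝓞 K => Real.exp (-(δ * ‖s a‖ ^ 2))) := by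
  refine Summable.of_nonneg_of_le (fun _ => Real.exp_nonneg _) (fun a => ?_)
    ((lat_exp F le_rfl hδ).mul_left (Real.exp (δ / 4)))
  rw [Real.rpow_zero, one_mul, ← Real.exp_add]
  apply Real.exp_le_exp.2
  have h0 : ‖s a‖ - 1 / 4 ≤ ‖s a‖ ^ 2 := by
    nlinarith [sq_nonneg (‖s a‖ - 1 / 2)]
  nlinarith

theorem qq_pos (F : Fld s κ τ b b') (P : H3) {x : 𝓞 K × 𝓞 K} (hx : x ≠ 0) :
    0 < qq s P x := by
  obtain ⟨δ, hδ, h⟩ := ts_low P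
  refine lt_of_lt_of_le ?_ (h (s x.1) (s x.2))
  apply mul_pos hδ
  by_contra hcon
  have h1 : ‖s x.1‖ ^ 2 + ‖s x.2‖ ^ 2 ≤ 0 := not_lt.1 hcon
  have h2 : ‖s x.1‖ ^ 2 = 0 := by nlinarith [sq_nonneg ‖s x.1‖, sq_nonneg ‖s x.2‖]
  have h3 : ‖s x.2‖ ^ 2 = 0 := by nlinarith [sq_nonneg ‖s x.1‖, sq_nonneg ‖s x.2‖]
  apply hx
  ext1
  · exact F.inj _ (norm_eq_zero.1 (pow_eq_zero_iff two_ne_zero |>.1 h2))
  · exact F.inj _ (norm_eq_zero.1 (pow_eq_zero_iff two_ne_zero |>.1 h3))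

theorem th_summable (F : Fld s κ τ b b') {t : ℝ} (ht : 0 < t) (P : H3) :
    Summable (fun x : 𝓞 K × 𝓞 K => Real.exp (-(Real.pi * (t * qq s P x)))) := by
  obtain ⟨δ, hδ, hq⟩ := ts_low P
  have hpi := Real.pi_pos
  have hδp : 0 < Real.pi * (t * δ) := by positivity
  have hS := (ts_lat F hδp).mul_of_nonneg (ts_lat F hδp) (fun _ => Real.exp_nonneg _)
    (fun _ => Real.exp_nonneg _)
  refine Summable.of_nonneg_of_le (fun _ => Real.exp_nonneg _) (fun x => ?_) hS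
  rw [← Real.exp_add]
  apply Real.exp_le_exp.2
  have e0 : δ * (‖s x.1‖ ^ 2 + ‖s x.2‖ ^ 2) ≤ qq s P x := hq _ _
  have e4 := mul_le_mul_of_nonneg_left (mul_le_mul_of_nonneg_left e0 ht.le) hpi.le
  linarith

theorem th_one_le (F : Fld s κ τ b b') {t : ℝ} (ht : 0 < t) (P : H3) : 1 ≤ th s t P := by
  have h3 := (th_summable F ht P).le_tsum (0 : 𝓞 K × 𝓞 K) (fun _ _ => Real.exp_nonneg _)
  have h4 : qq s P (0 : 𝓞 K × 𝓞 K) = 0 := by simp [qq]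
  rw [h4] at h3
  unfold th
  simpa using h3

theorem th_mono (F : Fld s κ τ b b') {t t' : ℝ} (ht : 0 < t) (h : t ≤ t') (P : H3) :
    th s t' P ≤ th s t P := by
  refine (th_summable F (ht.trans_le h) P).tsum_le_tsum (fun x => ?_)
    (th_summable F ht P)
  apply Real.exp_le_exp.2
  have h3 := mul_le_mul_of_nonneg_right h (ts_nonneg (s := s) P x)
  have h5 := mul_le_mul_of_nonneg_left h3 Real.pi_pos.le
  linarith

theorem th_meas (F : Fld s κ τ b b') : Measurable (fun p : ℝ × H3 => th s p.1 p.2) := by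
  have hcount : Countable (𝓞 K) := countable_int
  have h1 : (fun p : ℝ × H3 => th s p.1 p.2) = fun p =>
      (∑' x : 𝓞 K × 𝓞 K, ENNReal.ofReal
        (Real.exp (-(Real.pi * (p.1 * qq s p.2 x))))).toReal := by
    funext p
    rw [ENNReal.tsum_toReal_eq (fun _ => ENNReal.ofReal_ne_top)]
    unfold th
    refine tsum_congr (fun x => ?_)
    rw [ENNReal.toReal_ofReal (Real.exp_nonneg _)]
  rw [h1]
  refine ENNReal.measurable_toReal.comp (Measurable.ennreal_tsum (fun x => ?_))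
  refine ENNReal.measurable_ofReal.comp (Continuous.measurable ?_)
  have hv : Continuous (fun p : ℝ × H3 => (p.2 : ℂ × ℝ)) :=
    continuous_subtype_val.comp continuous_snd
  have hq0 : Continuous (fun p : ℝ × H3 => qq s p.2 x) := by
    unfold qq
    refine Continuous.div ?_ (continuous_snd.comp hv) (fun p => p.2.2.ne')
    exact (continuous_normSq.comp ((continuous_const.mul
        (continuous_fst.comp hv)).add continuous_const)).add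
        (continuous_const.mul ((continuous_snd.comp hv).pow 2))
  fun_prop

end Pool.Agent.HB
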