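import Pool.Agent.Lib_helper99.HB.Defs
import Pool.Agent.Lib_helper99.HBF.FB
import Pool.Agent.Lib_helper99.HBF.GP
import Pool.Agent.Lib_helper99.HBF.TS

/-!
# HB, block TF: the functional equation of the theta series
-/

namespace Pool.Agent.HB

open NumberField Complex MeasureTheory
open scoped MatrixGroups ENNReal
open Pool.Agent.H4 (NI PI Hek blw Spl Inr tt uu p4 hh PP ml atl FunBd vcf)

variable {K : Type} [Field K] [NumberField K]
variable {s : 𝓞 K →+* ℂ} {κ : 𝓞 K} {τ : 𝓞 K ≃+* 𝓞 K} {b b' : Fin 2 → 𝓞 K}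

/-- the double series -/
noncomputable def tf_G (s : 𝓞 K →+* ℂ) (κ : 𝓞 K) (t : ℝ) (P : H3) (c m : 𝓞 K) : ℂ :=
  ((Real.exp (-(Real.pi * (t * normSq (s c) * P.1.2 +
    4 * normSq (s m) * P.1.2 / (DD s κ * t)))) : ℝ) : ℂ) *
  cexp (2 * Real.pi * I * ((2 * (s m * (s c * P.1.1) / s κ).re : ℝ) : ℂ))

theorem tf_term (t : ℝ) (P : H3) (c d : 𝓞 K) :
    Real.exp (-(Real.pi * (t * qq s P (c, d)))) =
      Real.exp (-(Real.pi * (t * normSq (s c) * P.1.2))) *
      Real.exp (-(Real.pi * (t / P.1.2 * normSq (s c * P.1.1 + s d)))) := by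
  have h0 : P.1.2 ≠ 0 := P.2.ne'
  rw [← Real.exp_add]
  congr 1
  unfold qq
  simp only
  field_simp
  ring

theorem tf_main (F : Fld s κ τ b b') {t : ℝ} (ht : 0 < t) (P : H3) :
    ((th s t P : ℝ) : ℂ) = ((2 / (t / P.1.2 * √(DD s κ)) : ℝ) : ℂ) *
      ∑' c : 𝓞 K, ∑' m : 𝓞 K, tf_G s κ t P c m := by
  have hy := P.2
  have hD := DD_pos F
  have hDe := hD.ne'
  unfold th
  rw [(th_summable F ht P).tsum_prod, Complex.ofReal_tsum, ← tsum_mul_left]
  refine tsum_congr fun c => ?_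
  have hp := (gauss_poisson F (div_pos ht hy) (s c * P.1.1)).2
  have e1 : ∑' d : 𝓞 K, Real.exp (-(Real.pi * (t * qq s P (c, d)))) =
      Real.exp (-(Real.pi * (t * normSq (s c) * P.1.2))) *
      ∑' d : 𝓞 K, Real.exp (-(Real.pi * (t / P.1.2 * normSq (s c * P.1.1 + s d)))) := by
    rw [← tsum_mul_left]
    exact tsum_congr fun d => tf_term t P c d
  rw [e1, Complex.ofReal_mul, hp, mul_left_comm, ← tsum_mul_left]
  congr 1
  refine tsum_congr fun m => ?_
  unfold tf_G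
  rw [← mul_assoc, ← Complex.ofReal_mul, ← Real.exp_add]
  congr 3
  field_simp
  ring

theorem tf_summable (F : Fld s κ τ b b') {t : ℝ} (ht : 0 < t) (P : H3) :
    Summable (fun x : 𝓞 K × 𝓞 K => tf_G s κ t P x.1 x.2) := by
  have hy := P.2
  have hD := DD_pos F
  have ha := (gauss_poisson F (A := t * P.1.2) (by positivity) 0).1
  have hb := (gauss_poisson F (A := 4 * P.1.2 / (DD s κ * t)) (by positivity) 0).1
  have hab := ha.mul_of_nonneg hb (fun _ => (Real.exp_pos _).le) (fun _ => (Real.exp_pos _).le)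
  refine Summable.of_norm (hab.congr fun x => ?_)
  unfold tf_G
  rw [norm_mul, Complex.norm_real, Real.norm_of_nonneg (Real.exp_pos _).le]
  have : ‖cexp (2 * Real.pi * I * ((2 * (s x.2 * (s x.1 * P.1.1) / s κ).re : ℝ) : ℂ))‖ = 1 := by
    have e : 2 * (Real.pi : ℂ) * I * ((2 * (s x.2 * (s x.1 * P.1.1) / s κ).re : ℝ) : ℂ) =
        ((2 * Real.pi * (2 * (s x.2 * (s x.1 * P.1.1) / s κ).re) : ℝ) : ℂ) * I := by
      push_cast
      ring
    rw [e, Complex.norm_exp_ofReal_mul_I]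
  rw [this, mul_one, ← Real.exp_add]
  congr 1
  simp only [zero_add]
  ring

theorem tf_swap (F : Fld s κ τ b b') {t : ℝ} (ht : 0 < t) (P : H3) (c m : 𝓞 K) :
    tf_G s κ (4 / (DD s κ * t)) P c m = tf_G s κ t P m c := by
  have hD := (DD_pos F).ne'
  have ht' := ht.ne'
  unfold tf_G
  have e1 : -(Real.pi * (4 / (DD s κ * t) * normSq (s c) * P.1.2 +
      4 * normSq (s m) * P.1.2 / (DD s κ * (4 / (DD s κ * t))))) =
      -(Real.pi * (t * normSq (s m) * P.1.2 + 4 * normSq (s c) * P.1.2 / (DD s κ * t))) := by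
    field_simp
    ring
  have e2 : s m * (s c * P.1.1) / s κ = s c * (s m * P.1.1) / s κ := by ring
  rw [e1, e2]

theorem th_fe (F : Fld s κ τ b b') {t : ℝ} (ht : 0 < t) (P : H3) :
    th s t P = 4 / (DD s κ * t ^ 2) * th s (4 / (DD s κ * t)) P := by
  have hy := P.2
  have hD := DD_pos F
  have ht' : 0 < 4 / (DD s κ * t) := by positivity
  have m1 := tf_main F ht P
  have m2 := tf_main F ht' P
  have hS : ∑' c : 𝓞 K, ∑' m : 𝓞 K, tf_G s κ (4 / (DD s κ * t)) P c m =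
      ∑' c : 𝓞 K, ∑' m : 𝓞 K, tf_G s κ t P c m := by
    simp only [tf_swap F ht P]
    exact Summable.tsum_comm (f := tf_G s κ t P) (tf_summable F ht P)
  rw [hS] at m2
  have key : 2 / (t / P.1.2 * √(DD s κ)) = 4 / (DD s κ * t ^ 2) *
      (2 / (4 / (DD s κ * t) / P.1.2 * √(DD s κ))) := by
    have hs : 0 < √(DD s κ) := Real.sqrt_pos.2 hD
    have hy' := hy.ne'
    field_simp
  have : ((th s t P : ℝ) : ℂ) = ((4 / (DD s κ * t ^ 2) *
      th s (4 / (DD s κ * t)) P : ℝ) : ℂ) := by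
    rw [Complex.ofReal_mul, m2, m1, key, Complex.ofReal_mul, mul_assoc]
  exact_mod_cast this

theorem th_two_le (F : Fld s κ τ b b') {t : ℝ} (ht : 0 < t) (h : DD s κ * t ^ 2 ≤ 2)
    (P : H3) : 2 ≤ th s t P := by
  have hD := DD_pos F
  rw [th_fe F ht P]
  have h3 := th_one_le F (t := 4 / (DD s κ * t)) (by positivity) P
  have hP : 0 < DD s κ * t ^ 2 := by positivity
  have h4 : 2 ≤ 4 / (DD s κ * t ^ 2) := by
    rw [le_div_iff₀ hP]
    linarith
  nlinarith

end Pool.Agent.HB
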