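import Pool.Agent.Lib_helper99.HB.Defs
import Pool.Agent.Lib_helper99.HBF.AC
import Pool.Agent.Lib_helper99.HBF.FB
import Pool.Agent.Lib_helper99.HBF.RW
import Pool.Agent.Lib_helper99.HBF.TF
import Pool.Agent.Lib_helper99.HBF.TS

/-! # HB, block RD: reduction theory (helper47) -/

set_option autoImplicit false

namespace Pool.Agent.HB

open NumberField Complex MeasureTheory
open scoped MatrixGroups ENNReal

variable {K : Type} [Field K] [NumberField K]
variable {s : 𝓞 K →+* ℂ} {κ : 𝓞 K} {τ : 𝓞 K ≃+* 𝓞 K} {b b' : Fin 2 → 𝓞 K}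

theorem rd_qq_nonneg (s : 𝓞 K →+* ℂ) (P : H3) (x : 𝓞 K × 𝓞 K) : 0 ≤ qq s P x := by
  unfold qq
  have hP : 0 < P.1.2 := P.2
  exact div_nonneg (add_nonneg (normSq_nonneg _) (mul_nonneg (normSq_nonneg _) (sq_nonneg _))) hP.le

theorem rd_qq_zero (s : 𝓞 K →+* ℂ) (P : H3) : qq s P 0 = 0 := by
  unfold qq
  simp

theorem rd_qq_mul (s : 𝓞 K →+* ℂ) (P : H3) (g c d : 𝓞 K) :
    qq s P (g * c, g * d) = normSq (s g) * qq s P (c, d) := by
  unfold qq
  have : s (g * c, g * d).1 * P.1.1 + s (g * c, g * d).2 = s g * (s c * P.1.1 + s d) := by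
    simp only [map_mul]
    ring
  rw [this, normSq_mul]
  simp only [map_mul, normSq_mul]
  ring

theorem small_row (F : Fld s κ τ b b') : ∃ B : ℝ, 0 < B ∧ ∀ P : H3,
    ∃ x : 𝓞 K × 𝓞 K, x ≠ 0 ∧ qq s P x ≤ B := by
  have hpi := Real.pi_pos
  have hD0 := DD_pos F
  set D : ℝ := DD s κ with hD
  set T : ℝ := √(2 / D) with hT
  have hT0 : 0 < T := Real.sqrt_pos.2 (by positivity)
  have hDT : D * T ^ 2 = 2 := by
    rw [hT, Real.sq_sqrt (by positivity)]
    field_simp
  set t : ℝ := T / 2 with ht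
  have ht0 : 0 < t := by positivity
  set X : ℝ := 15 / (Real.pi * (T - t)) with hX
  have hTt : 0 < T - t := by
    rw [ht]
    linarith
  have hX0 : 0 < X := by positivity
  set del : ℝ := Real.exp (-(Real.pi * (T - t) * X)) with hdel
  have hdel0 : 0 < del := Real.exp_pos _
  have hXe : Real.pi * (T - t) * X = 15 := by
    rw [hX]
    field_simp
  have hdel1 : del ≤ 1 / 16 := by
    rw [hdel, hXe, Real.exp_neg, ← one_div]
    refine one_div_le_one_div_of_le (by norm_num) ?_
    have := Real.add_one_le_exp (15 : ℝ)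
    linarith
  refine ⟨X, hX0, fun P => ?_⟩
  by_contra hcon
  push Not at hcon
  have hsT := th_summable F hT0 P
  have hst := th_summable F ht0 P
  classical
  have hcmp : th s T P ≤ del * th s t P + (1 - del) := by
    have h1 : Summable (fun x : 𝓞 K × 𝓞 K =>
        del * Real.exp (-(Real.pi * (t * qq s P x)))) := hst.mul_left _
    have h2 : HasSum (fun x : 𝓞 K × 𝓞 K => if x = 0 then (1 - del) else 0) (1 - del) :=
      hasSum_ite_eq 0 (1 - del)
    have h3 : ∀ x : 𝓞 K × 𝓞 K, Real.exp (-(Real.pi * (T * qq s P x))) ≤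
        del * Real.exp (-(Real.pi * (t * qq s P x))) + (if x = 0 then (1 - del) else 0) := by
      intro x
      by_cases hx : x = 0
      · subst hx
        rw [rd_qq_zero]
        simp
      · rw [if_neg hx, add_zero, hdel, ← Real.exp_add]
        refine Real.exp_le_exp.2 ?_
        have h4 := hcon x hx
        have h7 : Real.pi * (T - t) * X ≤ Real.pi * (T - t) * qq s P x :=
          mul_le_mul_of_nonneg_left h4.le (by positivity)
        nlinarith
    have h8 := Summable.tsum_le_tsum h3 hsT (h1.add h2.summable)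
    rw [Summable.tsum_add h1 h2.summable, tsum_mul_left, h2.tsum_eq] at h8
    exact h8
  have hfe := th_fe F ht0 P
  have hT4 : T ≤ 4 / (D * t) := by
    rw [le_div_iff₀ (by positivity), ht]
    nlinarith
  have hmono := th_mono F hT0 hT4 P
  have h2le := th_two_le F hT0 hDT.le P
  have h9 : th s t P ≤ 8 * th s T P := by
    have e : 4 / (D * t ^ 2) = 8 := by
      rw [div_eq_iff (by positivity), ht]
      nlinarith
    rw [hfe, e]
    linarith
  have h10 : del * th s t P ≤ 1 / 16 * (8 * th s T P) :=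
    mul_le_mul hdel1 h9 (by linarith [th_one_le F ht0 P]) (by norm_num)
  linarith

theorem reduce (F : Fld s κ τ b b') : ∃ ρ₀ : ℝ, 0 < ρ₀ ∧ ∀ P : H3, ∃ γ : SL(2, 𝓞 K),
    ρ₀ ≤ (act s γ P).1.2 := by
  obtain ⟨B, hB, hrow⟩ := small_row F
  refine ⟨1 / B, by positivity, fun P => ?_⟩
  obtain ⟨⟨c, d⟩, hx, hq⟩ := hrow P
  -- the ideal generated by `c, d`
  have hI : (Ideal.span {c, d} : Ideal (𝓞 K)) ≠ ⊥ := by
    intro h
    rw [Ideal.span_eq_bot] at h
    exact hx (Prod.ext (h c (by simp)) (h d (by simp)))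
  obtain ⟨hg1, hg0', -⟩ := gn_spec F (Ideal.span {c, d} : Ideal (𝓞 K))
  have hg0 := hg0' hI
  set g := gn (Ideal.span {c, d} : Ideal (𝓞 K)) with hgdef
  have hc : c ∈ (Ideal.span {g} : Ideal (𝓞 K)) := by
    rw [← hg1]; exact Ideal.subset_span (by simp)
  have hd : d ∈ (Ideal.span {g} : Ideal (𝓞 K)) := by
    rw [← hg1]; exact Ideal.subset_span (by simp)
  obtain ⟨c', hc'⟩ := Ideal.mem_span_singleton'.1 hc
  obtain ⟨d', hd'⟩ := Ideal.mem_span_singleton'.1 hd
  have hgm : g ∈ (Ideal.span {c, d} : Ideal (𝓞 K)) := by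
    rw [hg1]; exact Ideal.mem_span_singleton_self g
  obtain ⟨u, v, huv⟩ := Ideal.mem_span_pair.1 hgm
  have hcop : IsCoprime c' d' := by
    refine ⟨u, v, ?_⟩
    have : g * (u * c' + v * d') = g * 1 := by
      rw [← hc', ← hd'] at huv
      linear_combination huv
    exact mul_left_cancel₀ hg0 this
  obtain ⟨γ, ⟨hγ0, hγ1, -⟩, -⟩ := row_unique F hcop P
  refine ⟨γ, ?_⟩
  have i1 := act_y s γ P
  rw [hγ0, hγ1] at i1
  have hq' : qq s P (c', d') ≤ B := by
    rw [← hc', ← hd', mul_comm c' g, mul_comm d' g, rd_qq_mul] at hq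
    have h1 : 1 ≤ normSq (s g) := by
      rw [Complex.normSq_eq_norm_sq]
      exact one_le_pow₀ (one_le_norm F hg0)
    have := rd_qq_nonneg s P (c', d')
    nlinarith
  have hp : 0 < qq s P (c', d') := by
    have := (act s γ P).2
    rw [i1] at this
    exact one_div_pos.1 this
  rw [i1]
  exact one_div_le_one_div_of_le hp hq'

end Pool.Agent.HB
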