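import Pool.Agent.Lib_helper99.HB.Defs
import Pool.Agent.Lib_helper99.HBF.FB
import Pool.Agent.Lib_helper99.HBF.FS
import Pool.Agent.Lib_helper99.HBF.KH
import Pool.Agent.Lib_helper99.HBF.RD

/-!
# Hardy's theorem over imaginary quadratic fields: block BD
-/

namespace Pool.Agent.HB

open NumberField Complex MeasureTheory
open scoped MatrixGroups ENNReal

variable {K : Type} [Field K] [NumberField K]
variable {s : 𝓞 K →+* ℂ} {κ : 𝓞 K} {τ : 𝓞 K ≃+* 𝓞 K} {b b' : Fin 2 → 𝓞 K}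

theorem af_bdd (F : Fld s κ τ b b') {ν : ℂ} (hν : Adm ν) {c : 𝓞 K → ℝ} (hc : AF s κ ν c) :
    ∃ C : ℝ, 0 ≤ C ∧ ∀ p : ℂ × ℝ, 0 < p.2 → ‖fser s κ ν c p‖ ≤ C := by
  obtain ⟨ρ₀, hρ, hred⟩ := reduce F
  obtain ⟨C, c₀, hc₀, h⟩ := fser_decay F hν hc hρ
  refine ⟨|C|, abs_nonneg _, fun p hp => ?_⟩
  obtain ⟨γ, hγ⟩ := hred ⟨p, hp⟩
  have h1 := hc.mod γ ⟨p, hp⟩
  have h2 : fser s κ ν c p = fser s κ ν c (act s γ ⟨p, hp⟩).1 := h1.symm
  rw [h2]
  refine (h _ hγ).trans ?_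
  have h3 : Real.exp (-(c₀ * (act s γ ⟨p, hp⟩).1.2)) ≤ 1 := by
    apply Real.exp_le_one_iff.2
    have := (act s γ ⟨p, hp⟩).2
    have : 0 < c₀ * (act s γ ⟨p, hp⟩).1.2 := mul_pos hc₀ this
    linarith
  calc C * Real.exp (-(c₀ * (act s γ ⟨p, hp⟩).1.2)) ≤
        |C| * Real.exp (-(c₀ * (act s γ ⟨p, hp⟩).1.2)) :=
        mul_le_mul_of_nonneg_right (le_abs_self C) (Real.exp_pos _).le
    _ ≤ |C| * 1 := mul_le_mul_of_nonneg_left h3 (abs_nonneg _)
    _ = |C| := mul_one _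

theorem bd_int (n : ℤ) : ∫ v in Set.Icc (0 : ℝ) 1,
    cexp (2 * Real.pi * I * ((n * v : ℝ) : ℂ)) = if n = 0 then 1 else 0 := by
  rw [integral_Icc_eq_integral_Ioc, ← intervalIntegral.integral_of_le zero_le_one]
  split_ifs with hn
  · subst hn
    simp
  · have hc : (2 * Real.pi * I * (n : ℂ)) ≠ 0 := by
      apply mul_ne_zero Complex.two_pi_I_ne_zero
      exact_mod_cast hn
    have h1 : (fun v : ℝ => cexp (2 * Real.pi * I * ((n * v : ℝ) : ℂ))) =
        fun v : ℝ => cexp ((2 * Real.pi * I * (n : ℂ)) * v) := by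
      funext v
      congr 1
      push_cast
      ring
    rw [h1, integral_exp_mul_complex hc]
    have h2 : (2 * Real.pi * I * (n : ℂ)) * ((1 : ℝ) : ℂ) = n * (2 * Real.pi * I) := by
      push_cast
      ring
    rw [h2, Complex.exp_int_mul_two_pi_mul_I]
    simp

theorem bd_int_tsum {ι : Type} [Countable ι] {f : ι → ℝ → ℂ} (g : ι → ℝ) (hg : Summable g)
    (hc : ∀ i, Continuous (f i)) (hb : ∀ i v, ‖f i v‖ ≤ g i) :
    ∫ v in Set.Icc (0 : ℝ) 1, ∑' i, f i v = ∑' i, ∫ v in Set.Icc (0 : ℝ) 1, f i v := by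
  symm
  have hint : ∀ i, Integrable (f i) (volume.restrict (Set.Icc (0 : ℝ) 1)) := fun i =>
    (hc i).continuousOn.integrableOn_Icc
  apply integral_tsum_of_summable_integral_norm hint
  refine Summable.of_nonneg_of_le (fun i => integral_nonneg fun _ => norm_nonneg _)
    (fun i => ?_) hg
  calc ∫ v in Set.Icc (0 : ℝ) 1, ‖f i v‖ ≤ ∫ _v in Set.Icc (0 : ℝ) 1, g i := by
        apply integral_mono (hint i).norm (integrable_const _)
        intro v
        exact hb i v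
    _ = g i := by simp

theorem bd_norm (x : ℝ) : ‖cexp (2 * Real.pi * I * (x : ℂ))‖ = 1 := by
  have : 2 * Real.pi * I * (x : ℂ) = ((2 * Real.pi * x : ℝ) : ℂ) * I := by
    push_cast
    ring
  rw [this, Complex.norm_exp_ofReal_mul_I]

theorem bd_neg {c : 𝓞 K → ℝ} {ν : ℂ} (hc : AF s κ ν c) (a : 𝓞 K) : c (-a) = c a := by
  have h := hc.unit a (-1)
  rw [← h]
  congr 1
  simp

theorem bd_ca_neg (a : 𝓞 K) : ca s κ (-a) = ca s κ a := by
  unfold ca
  rw [map_neg, norm_neg]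

/-- Parseval on the box at height `y` (absolutely convergent double series). -/
theorem box_four (F : Fld s κ τ b b') {ν : ℂ} (hν : Adm ν) {c c' : 𝓞 K → ℝ} (hc : AF s κ ν c)
    (hc' : AF s κ ν c') {y : ℝ} (hy : 0 < y) :
    Summable (fun a : 𝓞 K => |c a * c' a| * (y * Kr ν (ca s κ a * y)) ^ 2) ∧
    ∫ u in Set.Icc (0 : ℝ) 1, ∫ v in Set.Icc (0 : ℝ) 1,
      FF s κ ν c c' (mk3 (u * s (b 0) + v * s (b 1)) y) =
      ((∑' a : 𝓞 K, c a * c' a * (y * Kr ν (ca s κ a * y)) ^ 2 : ℝ) : ℂ) := by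
  classical
  obtain ⟨e, he⟩ := four_equiv F
  have hcount : Countable (𝓞 K) := Countable.of_equiv _ e.symm
  have he1 : ∀ a, ((e a).1 : ℝ) = 2 * (s a * s (b 0) / s κ).re := by
    intro a
    have := he a 1 0
    simpa using this.symm
  have he2 : ∀ a, ((e a).2 : ℝ) = 2 * (s a * s (b 1) / s κ).re := by
    intro a
    have := he a 0 1
    simpa using this.symm
  have heneg : ∀ a, (e (-a)).1 = -(e a).1 ∧ (e (-a)).2 = -(e a).2 := by
    intro a
    have h1 : ((e (-a)).1 : ℝ) = -((e a).1 : ℝ) := by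
      rw [he1, he1, map_neg, neg_mul, neg_div, Complex.neg_re]
      ring
    have h2 : ((e (-a)).2 : ℝ) = -((e a).2 : ℝ) := by
      rw [he2, he2, map_neg, neg_mul, neg_div, Complex.neg_re]
      ring
    exact ⟨by exact_mod_cast h1, by exact_mod_cast h2⟩
  set E : 𝓞 K → ℝ := fun a => y * Kr ν (ca s κ a * y) with hE
  have hEneg : ∀ a, E (-a) = E a := by
    intro a
    rw [hE]
    simp only [bd_ca_neg]
  have hft : ∀ (d : 𝓞 K → ℝ) (u v : ℝ) (a : 𝓞 K),
      ft s κ ν d ((u * s (b 0) + v * s (b 1) : ℂ), y) a = ((d a * E a : ℝ) : ℂ) *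
        cexp (2 * Real.pi * I * ((((e a).1 : ℝ) * u + ((e a).2 : ℝ) * v : ℝ) : ℂ)) := by
    intro d u v a
    unfold ft
    simp only
    rw [he a u v]
  have hsum : ∀ {d : 𝓞 K → ℝ}, AF s κ ν d → Summable (fun a => |d a * E a|) := by
    intro d hd
    have h2 := ft_summable F hν hd (p := (((0 : ℝ) * s (b 0) + (0 : ℝ) * s (b 1) : ℂ), y)) hy
    refine h2.congr fun a => ?_
    rw [hft d 0 0 a, norm_mul, bd_norm, mul_one, Complex.norm_real, Real.norm_eq_abs]
  have hS := hsum hc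
  have hS' := hsum hc'
  set G : 𝓞 K × 𝓞 K → ℂ := fun p => ((c p.1 * E p.1 : ℝ) : ℂ) * ((c' p.2 * E p.2 : ℝ) : ℂ) with hG
  have hGs : Summable (fun p => ‖G p‖) := by
    have h2 : Summable (fun p : 𝓞 K × 𝓞 K => |c p.1 * E p.1| * |c' p.2 * E p.2|) :=
      hS.mul_of_nonneg hS' (fun _ => abs_nonneg _) (fun _ => abs_nonneg _)
    refine h2.congr fun p => ?_
    rw [hG]
    simp only
    rw [norm_mul, Complex.norm_real, Complex.norm_real, Real.norm_eq_abs, Real.norm_eq_abs]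
  have hGd : ∀ a, G (a, -a) = ((c a * c' a * (E a) ^ 2 : ℝ) : ℂ) := by
    intro a
    rw [hG]
    simp only
    rw [hEneg, bd_neg hc', ← Complex.ofReal_mul]
    congr 1
    ring
  have hinj : Function.Injective (fun a : 𝓞 K => ((a, -a) : 𝓞 K × 𝓞 K)) := by
    intro x z h
    exact (Prod.ext_iff.1 h).1
  refine ⟨?_, ?_⟩
  · refine (hGs.comp_injective hinj).congr fun a => ?_
    simp only [Function.comp]
    rw [hGd, Complex.norm_real, Real.norm_eq_abs, abs_mul, abs_of_nonneg (sq_nonneg (E a))]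
  set m : 𝓞 K × 𝓞 K → ℤ := fun p => (e p.1).1 + (e p.2).1 with hm
  set n : 𝓞 K × 𝓞 K → ℤ := fun p => (e p.1).2 + (e p.2).2 with hn
  have hprod : ∀ u v : ℝ, FF s κ ν c c' (mk3 (u * s (b 0) + v * s (b 1)) y) =
      ∑' p : 𝓞 K × 𝓞 K, G p * cexp (2 * Real.pi * I * ((m p * u : ℝ) : ℂ)) *
        cexp (2 * Real.pi * I * ((n p * v : ℝ) : ℂ)) := by
    intro u v
    have hf : ∀ d : 𝓞 K → ℝ, fser s κ ν d ((u * s (b 0) + v * s (b 1) : ℂ), y) =
        ∑' a : 𝓞 K, ((d a * E a : ℝ) : ℂ) *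
          cexp (2 * Real.pi * I * ((((e a).1 : ℝ) * u + ((e a).2 : ℝ) * v : ℝ) : ℂ)) := by
      intro d
      unfold fser
      exact tsum_congr fun a => hft d u v a
    have hfs : ∀ {d : 𝓞 K → ℝ}, Summable (fun a => |d a * E a|) → Summable (fun a : 𝓞 K =>
        ‖((d a * E a : ℝ) : ℂ) *
          cexp (2 * Real.pi * I * ((((e a).1 : ℝ) * u + ((e a).2 : ℝ) * v : ℝ) : ℂ))‖) := by
      intro d hd
      refine hd.congr fun a => ?_
      rw [norm_mul, bd_norm, mul_one, Complex.norm_real, Real.norm_eq_abs]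
    have hmk : (mk3 (u * s (b 0) + v * s (b 1)) y).1 = ((u * s (b 0) + v * s (b 1) : ℂ), y) := by
      unfold mk3
      rw [dif_pos hy]
    unfold FF
    rw [hmk, hf c, hf c', tsum_mul_tsum_of_summable_norm (hfs hS) (hfs hS')]
    refine tsum_congr fun p => ?_
    have hx : ∀ A B X Y : ℂ, A * cexp X * (B * cexp Y) = A * B * cexp (X + Y) := by
      intro A B X Y
      rw [Complex.exp_add]
      ring
    have hy : ∀ A X Y : ℂ, A * cexp X * cexp Y = A * cexp (X + Y) := by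
      intro A X Y
      rw [Complex.exp_add]
      ring
    rw [hx, hy, hG, hm, hn]
    simp only
    congr 2
    push_cast
    ring
  have hGb : ∀ (p : 𝓞 K × 𝓞 K) (x y : ℝ), ‖G p * cexp (2 * Real.pi * I * (x : ℂ)) *
      cexp (2 * Real.pi * I * (y : ℂ))‖ ≤ ‖G p‖ := by
    intro p x y
    rw [norm_mul, norm_mul, bd_norm, bd_norm, mul_one, mul_one]
  have hin : ∀ u : ℝ, ∫ v in Set.Icc (0 : ℝ) 1, ∑' p : 𝓞 K × 𝓞 K,
      G p * cexp (2 * Real.pi * I * ((m p * u : ℝ) : ℂ)) *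
        cexp (2 * Real.pi * I * ((n p * v : ℝ) : ℂ)) =
      ∑' p : 𝓞 K × 𝓞 K, (G p * if n p = 0 then 1 else 0) *
        cexp (2 * Real.pi * I * ((m p * u : ℝ) : ℂ)) := by
    intro u
    rw [bd_int_tsum (fun p => ‖G p‖) hGs (fun p => by fun_prop) (fun p v => hGb p _ _)]
    refine tsum_congr fun p => ?_
    rw [integral_const_mul, bd_int]
    ring
  have hmain : ∫ u in Set.Icc (0 : ℝ) 1, ∑' p : 𝓞 K × 𝓞 K, (G p * if n p = 0 then 1 else 0) *
        cexp (2 * Real.pi * I * ((m p * u : ℝ) : ℂ)) =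
      ∑' p : 𝓞 K × 𝓞 K, (G p * if n p = 0 then 1 else 0) * if m p = 0 then 1 else 0 := by
    rw [bd_int_tsum (fun p => ‖G p‖) hGs (fun p => by fun_prop) (fun p u => ?_)]
    · refine tsum_congr fun p => ?_
      rw [integral_const_mul, bd_int]
    · have h2 := hGb p (m p * u) 0
      have h3 : cexp (2 * Real.pi * I * (((0 : ℝ)) : ℂ)) = 1 := by simp
      rw [h3, mul_one] at h2
      split_ifs
      · rw [mul_one]
        exact h2
      · simp
  simp_rw [hprod, hin]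
  rw [hmain]
  have hdiag : ∀ p : 𝓞 K × 𝓞 K, ((G p * if n p = 0 then 1 else 0) * if m p = 0 then 1 else 0) =
      if p.2 = -p.1 then G (p.1, -p.1) else 0 := by
    intro p
    by_cases hp : p.2 = -p.1
    · have h2 : m p = 0 := by rw [hm]; simp only [hp]; rw [(heneg p.1).1]; ring
      have h3 : n p = 0 := by rw [hn]; simp only [hp]; rw [(heneg p.1).2]; ring
      rw [if_pos h2, if_pos h3, if_pos hp, mul_one, mul_one]
      congr 1
      exact Prod.ext rfl hp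
    · rw [if_neg hp]
      by_cases h2 : m p = 0
      · by_cases h3 : n p = 0
        · exfalso
          apply hp
          apply e.injective
          rw [hm] at h2
          rw [hn] at h3
          simp only at h2 h3
          refine Prod.ext ?_ ?_
          · rw [(heneg p.1).1]; omega
          · rw [(heneg p.1).2]; omega
        · rw [if_neg h3]
          simp
      · rw [if_neg h2]
        simp
  have hsd : Summable (fun p : 𝓞 K × 𝓞 K => if p.2 = -p.1 then G (p.1, -p.1) else 0) := by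
    refine Summable.of_norm_bounded hGs fun p => ?_
    split_ifs with hp
    · rw [show (p.1, -p.1) = p from Prod.ext rfl hp.symm]
    · simp
  rw [tsum_congr hdiag, hsd.tsum_prod, Complex.ofReal_tsum]
  refine tsum_congr fun a => ?_
  simp only
  rw [tsum_ite_eq, hGd]

theorem bd_coef (F : Fld s κ τ b b') {ν : ℂ} (hν : Adm ν) {c : 𝓞 K → ℝ} (hc : AF s κ ν c) :
    ∃ C : ℝ, 0 ≤ C ∧ ∀ (a : 𝓞 K) (y : ℝ), 0 < y → |c a| * (y * |Kr ν (ca s κ a * y)|) ≤ C := by
  obtain ⟨C, hC, h⟩ := af_bdd F hν hc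
  refine ⟨C, hC, fun a y hy => ?_⟩
  obtain ⟨hs, hi⟩ := box_four F hν hc hc hy
  have h1 : ‖∫ u in Set.Icc (0 : ℝ) 1, ∫ v in Set.Icc (0 : ℝ) 1,
      FF s κ ν c c (mk3 (u * s (b 0) + v * s (b 1)) y)‖ ≤ C ^ 2 := by
    have hF : ∀ u v : ℝ, ‖FF s κ ν c c (mk3 (u * s (b 0) + v * s (b 1)) y)‖ ≤ C ^ 2 := by
      intro u v
      unfold FF
      rw [norm_mul, sq]
      have h2 := h _ (mk3 (u * s (b 0) + v * s (b 1)) y).2
      exact mul_le_mul h2 h2 (norm_nonneg _) hC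
    have h3 : ∀ u : ℝ, ‖∫ v in Set.Icc (0 : ℝ) 1,
        FF s κ ν c c (mk3 (u * s (b 0) + v * s (b 1)) y)‖ ≤ C ^ 2 := by
      intro u
      have := norm_setIntegral_le_of_norm_le_const (μ := volume) (s := Set.Icc (0 : ℝ) 1)
        (f := fun v : ℝ => FF s κ ν c c (mk3 (u * s (b 0) + v * s (b 1)) y)) (C := C ^ 2)
        (by simp) (fun v _ => hF u v)
      simpa using this
    have := norm_setIntegral_le_of_norm_le_const (μ := volume) (s := Set.Icc (0 : ℝ) 1)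
      (f := fun u : ℝ => ∫ v in Set.Icc (0 : ℝ) 1,
        FF s κ ν c c (mk3 (u * s (b 0) + v * s (b 1)) y)) (C := C ^ 2)
      (by simp) (fun u _ => h3 u)
    simpa using this
  rw [hi, Complex.norm_real, Real.norm_eq_abs] at h1
  have h4 : c a * c a * (y * Kr ν (ca s κ a * y)) ^ 2 ≤ C ^ 2 := by
    have h5 : Summable (fun a : 𝓞 K => c a * c a * (y * Kr ν (ca s κ a * y)) ^ 2) := by
      refine hs.congr fun a => ?_
      rw [abs_of_nonneg (mul_self_nonneg _)]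
    have h6 := h5.le_tsum a (fun j _ => mul_nonneg (mul_self_nonneg _) (sq_nonneg _))
    exact h6.trans ((le_abs_self _).trans h1)
  have h7 : (|c a| * (y * |Kr ν (ca s κ a * y)|)) ^ 2 ≤ C ^ 2 := by
    rw [mul_pow, mul_pow, sq_abs, sq_abs]
    calc c a ^ 2 * (y ^ 2 * Kr ν (ca s κ a * y) ^ 2) = c a * c a * (y * Kr ν (ca s κ a * y)) ^ 2 := by
          ring
      _ ≤ C ^ 2 := h4
  exact (pow_le_pow_iff_left₀ (by positivity) hC (by norm_num)).1 h7

theorem af_grow (F : Fld s κ τ b b') {ν : ℂ} (hν : Adm ν) {c : 𝓞 K → ℝ} (hc : AF s κ ν c) :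
    ∃ C : ℝ, 0 ≤ C ∧ ∀ a : 𝓞 K, |c a| ≤ C * ‖s a‖ := by
  obtain ⟨C, hC, h⟩ := bd_coef F hν hc
  obtain ⟨x₀, hx₀, hK⟩ := kr_ne hν
  have hk : 0 < |Kr ν x₀| := abs_pos.2 hK
  have hκ : 0 < ‖s κ‖ := by
    rw [norm_pos_iff]
    exact fun h => F.kap (F.inj κ h)
  refine ⟨C * (4 * Real.pi) / (‖s κ‖ * (x₀ * |Kr ν x₀|)), by positivity, fun a => ?_⟩
  by_cases ha : a = 0
  · rw [ha, hc.zero]
    simp
  · have hsa : 0 < ‖s a‖ := by
      rw [norm_pos_iff]
      exact fun h => ha (F.inj a h)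
    have hca : 0 < ca s κ a := by
      unfold ca
      positivity
    have h1 := h a (x₀ / ca s κ a) (by positivity)
    rw [mul_div_cancel₀ x₀ hca.ne'] at h1
    have h2 : |c a| ≤ C * ca s κ a / (x₀ * |Kr ν x₀|) := by
      rw [le_div_iff₀ (by positivity)]
      have h3 : |c a| * (x₀ / ca s κ a * |Kr ν x₀|) * ca s κ a = |c a| * (x₀ * |Kr ν x₀|) := by
        field_simp
      rw [← h3]
      exact mul_le_mul_of_nonneg_right h1 hca.le
    refine h2.trans (le_of_eq ?_)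
    unfold ca
    field_simp

end Pool.Agent.HB
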