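import Pool.Agent.Lib_helper99.HB.Defs
import Pool.Agent.Lib_helper99.HBF.BD
import Pool.Agent.Lib_helper99.HBF.FS

namespace Pool.Agent.HB

open NumberField Complex MeasureTheory
open scoped MatrixGroups ENNReal
open Pool.Agent.H4 (NI PI Hek blw Spl Inr tt uu p4 hh PP ml atl FunBd vcf)

variable {K : Type} [Field K] [NumberField K]
variable {s : 𝓞 K →+* ℂ} {κ : 𝓞 K} {τ : 𝓞 K ≃+* 𝓞 K} {b b' : Fin 2 → 𝓞 K}

theorem FF_inv {ν : ℂ} {c c' : 𝓞 K → ℝ} (hc : AF s κ ν c) (hc' : AF s κ ν c')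
    (γ : SL(2, 𝓞 K)) (P : H3) : FF s κ ν c c' (act s γ P) = FF s κ ν c c' P := by
  unfold FF
  rw [hc.mod, hc'.mod]

theorem FF_bdd (F : Fld s κ τ b b') {ν : ℂ} (hν : Adm ν) {c c' : 𝓞 K → ℝ} (hc : AF s κ ν c)
    (hc' : AF s κ ν c') : ∃ C : ℝ, ∀ P : H3, ‖FF s κ ν c c' P‖ ≤ C := by
  obtain ⟨C, hC0, hC⟩ := af_bdd F hν hc
  obtain ⟨C', hC0', hC'⟩ := af_bdd F hν hc'
  refine ⟨C * C', fun P => ?_⟩
  unfold FF
  rw [norm_mul]
  exact mul_le_mul (hC P.1 P.2) (hC' P.1 P.2) (norm_nonneg _) hC0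

theorem FF_cont (F : Fld s κ τ b b') {ν : ℂ} (hν : Adm ν) {c c' : 𝓞 K → ℝ}
    (hc : AF s κ ν c) (hc' : AF s κ ν c') : Continuous (FF s κ ν c c') := by
  have h1 : Continuous (fun P : H3 => fser s κ ν c P.1) :=
    (fser_cont F hν hc).comp_continuous continuous_subtype_val (fun P => P.2)
  have h2 : Continuous (fun P : H3 => fser s κ ν c' P.1) :=
    (fser_cont F hν hc').comp_continuous continuous_subtype_val (fun P => P.2)
  exact h1.mul h2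

end Pool.Agent.HB
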