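import Pool.Agent.Lib_helper98.H4F.FB
import Pool.Agent.Lib_helper99.HB.Defs
import Pool.Agent.Lib_helper99.HBF.BX
import Pool.Agent.Lib_helper99.HBF.FB
import Pool.Agent.Lib_helper99.HBF.LS
import Pool.Agent.Lib_helper99.HBF.TF

/-!
# Hardy's theorem over imaginary quadratic fields: block MM
-/

namespace Pool.Agent.HB

open NumberField Complex MeasureTheory
open scoped MatrixGroups ENNReal
open Pool.Agent.H4 (NI PI Hek blw Spl Inr tt uu p4 hh PP ml atl FunBd vcf)

variable {K : Type} [Field K] [NumberField K]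
variable {s : 𝓞 K →+* ℂ} {κ : 𝓞 K} {τ : 𝓞 K ≃+* 𝓞 K} {b b' : Fin 2 → 𝓞 K}

theorem mm_one {A : ℝ} (hA : 0 < A) :
    ∫⁻ y in Set.Ioi (0 : ℝ), ENNReal.ofReal (1 / y ^ 3 * Real.exp (-(Real.pi * (A / y)))) =
      ENNReal.ofReal (1 / (Real.pi * A) ^ 2) := by
  have hpA : 0 < Real.pi * A := by positivity
  have h0 : ∀ t ∈ Set.Ioi (0 : ℝ), t ^ ((2 : ℝ) - 1) * Real.exp (-(Real.pi * A * t)) =
      t * Real.exp (-(Real.pi * A * t)) := by
    intro t ht
    rw [show (2 : ℝ) - 1 = 1 by norm_num, Real.rpow_one]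
  have h1 : IntegrableOn (fun t : ℝ => t * Real.exp (-(Real.pi * A * t))) (Set.Ioi 0) := by
    have h := integrableOn_rpow_mul_exp_neg_mul_rpow (p := 1) (s := 1) (by norm_num) (by norm_num) hpA
    refine h.congr_fun (fun t ht => ?_) measurableSet_Ioi
    simp only [Real.rpow_one]
    ring_nf
  have h2 : ∫ t in Set.Ioi (0 : ℝ), t * Real.exp (-(Real.pi * A * t)) =
      1 / (Real.pi * A) ^ 2 := by
    rw [← setIntegral_congr_fun measurableSet_Ioi h0,
      Real.integral_rpow_mul_exp_neg_mul_Ioi (by norm_num) hpA]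
    rw [Real.Gamma_two, mul_one, show (2 : ℝ) = ((2 : ℕ) : ℝ) by norm_num, Real.rpow_natCast,
      div_pow, one_pow]
  have h3 := integral_comp_rpow_Ioi (fun t : ℝ => t * Real.exp (-(Real.pi * A * t)))
    (p := -1) (by norm_num)
  have h4 := (integrableOn_Ioi_comp_rpow_iff (fun t : ℝ => t * Real.exp (-(Real.pi * A * t)))
    (p := -1) (by norm_num)).2 h1
  have h5 : ∀ y ∈ Set.Ioi (0 : ℝ), (|(-1 : ℝ)| * y ^ ((-1 : ℝ) - 1)) •
      (y ^ (-1 : ℝ) * Real.exp (-(Real.pi * A * y ^ (-1 : ℝ)))) =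
      1 / y ^ 3 * Real.exp (-(Real.pi * (A / y))) := by
    intro y hy
    have hy0 : (0 : ℝ) < y := hy
    have e1 : y ^ ((-1 : ℝ) - 1) = 1 / y ^ 2 := by
      rw [show (-1 : ℝ) - 1 = -((2 : ℕ) : ℝ) by norm_num, Real.rpow_neg hy0.le,
        Real.rpow_natCast, one_div]
    have e2 : y ^ (-1 : ℝ) = y⁻¹ := by
      rw [Real.rpow_neg hy0.le, Real.rpow_one]
    rw [e1, e2, smul_eq_mul, abs_neg, abs_one, one_mul]
    rw [← mul_assoc]
    congr 1
    · field_simp
    · congr 1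
      field_simp
  have h6 : IntegrableOn (fun y : ℝ => 1 / y ^ 3 * Real.exp (-(Real.pi * (A / y))))
      (Set.Ioi 0) := h4.congr_fun h5 measurableSet_Ioi
  have h7 : ∫ y in Set.Ioi (0 : ℝ), 1 / y ^ 3 * Real.exp (-(Real.pi * (A / y))) =
      1 / (Real.pi * A) ^ 2 := by
    rw [← h2, ← h3]
    exact (setIntegral_congr_fun measurableSet_Ioi h5).symm
  rw [← h7, ofReal_integral_eq_lintegral_ofReal h6]
  filter_upwards [ae_restrict_mem measurableSet_Ioi] with y hy
  have hy0 : (0 : ℝ) < y := hy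
  positivity

theorem mm_y (z : ℂ) {y : ℝ} (h : 0 < y) : (mk3 z y).1.2 = y := by
  unfold mk3
  rw [dif_pos h]

theorem mm_measy : Measurable (fun P : H3 => P.1.2) :=
  measurable_snd.comp measurable_subtype_coe

theorem box_exp (F : Fld s κ τ b b') {A : ℝ} (hA : 0 < A) :
    ∫⁻ P in Box s b, ENNReal.ofReal (Real.exp (-(Real.pi * (A / P.1.2)))) ∂mu =
      ENNReal.ofReal (|dl s b| / (Real.pi * A) ^ 2) := by
  have hm : Measurable (fun P : H3 => ENNReal.ofReal (Real.exp (-(Real.pi * (A / P.1.2))))) := by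
    have i1 := mm_measy
    fun_prop
  rw [box_lint F hm]
  have e1 : ∀ y ∈ Set.Ioi (0 : ℝ),
      ∫⁻ u in Set.Icc (0 : ℝ) 1, ∫⁻ v in Set.Icc (0 : ℝ) 1,
        ENNReal.ofReal (|dl s b| / y ^ 3) *
          ENNReal.ofReal (Real.exp (-(Real.pi * (A / (mk3 (u * s (b 0) + v * s (b 1)) y).1.2)))) =
      ENNReal.ofReal (|dl s b|) *
        ENNReal.ofReal (1 / y ^ 3 * Real.exp (-(Real.pi * (A / y)))) := by
    intro y hy
    have hy' : (0 : ℝ) < y := hy
    simp only [mm_y _ hy']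
    rw [lintegral_const, lintegral_const]
    simp only [MeasurableSet.univ, Measure.restrict_apply, Set.univ_inter, Real.volume_Icc,
      sub_zero, ENNReal.ofReal_one, mul_one]
    rw [← ENNReal.ofReal_mul (by positivity), ← ENNReal.ofReal_mul (by positivity)]
    congr 1
    field_simp
  rw [setLIntegral_congr_fun measurableSet_Ioi e1, lintegral_const_mul' _ _ ENNReal.ofReal_ne_top,
    mm_one hA, ← ENNReal.ofReal_mul (by positivity)]
  congr 1
  field_simp

theorem mm_countable (F : Fld s κ τ b b') : Countable (NI K) := by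
  have hc : Countable (𝓞 K) := Pool.Agent.H4.countable_int
  refine Function.Injective.countable (f := fun 𝔞 : NI K => gn 𝔞.1) ?_
  intro 𝔞 𝔟 h
  simp only at h
  apply Subtype.ext
  rw [(gn_spec F 𝔞.1).1, (gn_spec F 𝔟.1).1, h]

theorem mm_pos (𝔞 : NI K) : 0 < (Ideal.absNorm 𝔞.1 : ℝ) := by
  have h1 : Ideal.absNorm 𝔞.1 ≠ 0 := by
    rw [Ne, Ideal.absNorm_eq_zero_iff]
    exact 𝔞.2
  exact_mod_cast Nat.pos_of_ne_zero h1

theorem bt_box (F : Fld s κ τ b b') {t : ℝ} (ht : 0 < t) :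
    ∫⁻ P in Box s b, bt K t P ∂mu < ∞ := by
  have hcn := mm_countable F
  unfold bt
  rw [lintegral_tsum]
  · have e1 : ∀ 𝔞 : NI K, ∫⁻ P in Box s b, ENNReal.ofReal (Real.exp (-(Real.pi *
        (t * (Ideal.absNorm 𝔞.1 : ℝ) / P.1.2)))) ∂mu =
        ENNReal.ofReal (|dl s b| / (Real.pi * t) ^ 2 *
          (Ideal.absNorm 𝔞.1 : ℝ) ^ (-(2 : ℝ))) := by
      intro 𝔞
      have h1 := mm_pos 𝔞
      rw [box_exp F (by positivity)]
      congr 1
      rw [Real.rpow_neg (by positivity), show (2 : ℝ) = ((2 : ℕ) : ℝ) by norm_num,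
        Real.rpow_natCast]
      field_simp
    rw [tsum_congr e1]
    have hs := (ideal_sum (K := K) (x := 2) (by norm_num)).mul_left (|dl s b| / (Real.pi * t) ^ 2)
    rw [← ENNReal.ofReal_tsum_of_nonneg _ hs]
    · exact ENNReal.ofReal_lt_top
    · intro 𝔞
      positivity
  · intro 𝔞
    have i1 := mm_measy
    apply Measurable.aemeasurable
    fun_prop

theorem mm_finite (F : Fld s κ τ b b') {t : ℝ} (ht : 0 < t) (h : DD s κ * t ^ 2 ≤ 2) :
    IsFiniteMeasure (mm s b t) := by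
  unfold mm
  apply isFiniteMeasure_withDensity
  apply ne_of_lt
  refine lt_of_le_of_lt ?_ (bt_box F ht)
  apply lintegral_mono
  intro P
  have h3 := th_two_le F ht h P
  have h4 : (1 : ℝ≥0∞) ≤ ENNReal.ofReal (th s t P - 1) := by
    rw [ENNReal.one_le_ofReal]
    linarith
  calc bt K t P / ENNReal.ofReal (th s t P - 1) ≤ bt K t P / 1 := by gcongr
    _ = bt K t P := by simp

example : type_of% @box_exp := @box_exp
example : type_of% @bt_box := @bt_box
example : type_of% @mm_finite := @mm_finite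

end Pool.Agent.HB
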