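import Pool.Agent.Lib_helper98.H4F.FB
import Pool.Agent.Lib_helper99.HB.Defs
import Pool.Agent.Lib_helper99.HBF.AC
import Pool.Agent.Lib_helper99.HBF.AM

/-!
# Hardy over imaginary quadratic fields: block SY (helper99; after H4F/SY), the symmetric identity
-/

namespace Pool.Agent.HB

open NumberField Complex MeasureTheory
open scoped MatrixGroups ENNReal

variable {K : Type} [Field K] [NumberField K]

theorem sy_inv_act (s : 𝓞 K →+* ℂ) (γ : SL(2, 𝓞 K)) (z : H3) :
    act s γ⁻¹ (act s γ z) = z := by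
  rw [← act_mul, inv_mul_cancel, act_one]

/-- the average as a sum of indicators -/
theorem sy_avg (s : 𝓞 K →+* ℂ) (b : Fin 2 → 𝓞 K) (a : H3 → ℝ≥0∞) (z : H3) :
    avg s b a z = ∑' γ : SL(2, 𝓞 K), (Box s b).indicator a (act s γ z) := by
  classical
  unfold avg
  refine tsum_congr fun γ => ?_
  rw [Set.indicator_apply]

theorem sy_lint (s : 𝓞 K →+* ℂ) (b : Fin 2 → 𝓞 K) {G a a' : H3 → ℝ≥0∞}
    (hG : Measurable G) (ha : Measurable a) (ha' : Measurable a') :
    ∫⁻ z in Box s b, G z * a z * avg s b a' z ∂mu =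
      ∑' γ : SL(2, 𝓞 K), ∫⁻ z, (G z * (Box s b).indicator a z) *
        (Box s b).indicator a' (act s γ z) ∂mu := by
  have h0 : Countable (𝓞 K) := Pool.Agent.H4.countable_int
  have h1 : Countable (Matrix (Fin 2) (Fin 2) (𝓞 K)) :=
    inferInstanceAs (Countable (Fin 2 → Fin 2 → 𝓞 K))
  have h2 : Countable (SL(2, 𝓞 K)) := Subtype.countable
  have hB := box_meas s b
  have hm : ∀ γ : SL(2, 𝓞 K), Measurable (fun z : H3 =>
      (G z * (Box s b).indicator a z) * (Box s b).indicator a' (act s γ z)) := fun γ =>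
    (hG.mul (ha.indicator hB)).mul ((ha'.indicator hB).comp (act_mp s γ).measurable)
  rw [← lintegral_tsum (fun γ => (hm γ).aemeasurable), ← lintegral_indicator hB]
  refine lintegral_congr fun z => ?_
  by_cases hz : z ∈ Box s b
  · rw [Set.indicator_of_mem hz, sy_avg, ENNReal.tsum_mul_left]
    rw [Set.indicator_of_mem hz]
  · rw [Set.indicator_of_notMem hz]
    simp only [Set.indicator_of_notMem hz, mul_zero, zero_mul, tsum_zero]

theorem sym_unfold (s : 𝓞 K →+* ℂ) (b : Fin 2 → 𝓞 K) {G a a' : H3 → ℝ≥0∞}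
    (hG : Measurable G) (ha : Measurable a) (ha' : Measurable a')
    (hi : ∀ (γ : SL(2, 𝓞 K)) (P : H3), G (act s γ P) = G P) :
    ∫⁻ P in Box s b, G P * a P * avg s b a' P ∂mu =
      ∫⁻ P in Box s b, G P * a' P * avg s b a P ∂mu := by
  rw [sy_lint s b hG ha ha', sy_lint s b hG ha' ha, ← (Equiv.inv (SL(2, 𝓞 K))).tsum_eq]
  refine tsum_congr fun γ => ?_
  have hB := box_meas s b
  have hm : Measurable (fun z : H3 =>
      (G z * (Box s b).indicator a z) * (Box s b).indicator a' (act s γ⁻¹ z)) :=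
    (hG.mul (ha.indicator hB)).mul ((ha'.indicator hB).comp (act_mp s γ⁻¹).measurable)
  have h1 := (act_mp s γ).lintegral_comp hm
  simp only [Equiv.inv_apply]
  rw [← h1]
  refine lintegral_congr fun z => ?_
  rw [sy_inv_act, hi]
  ring

end Pool.Agent.HB
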