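import Pool.Agent.Lib_helper99.HB.Defs
import Pool.Agent.Lib_helper99.HBF.FB
import Pool.Agent.Lib_helper99.HBF.RW

/-! Hardy's theorem over imaginary quadratic fields, block RQ: `row_equiv` (by helper14, adapted from
Lib_helper98/H4F/RQ.lean). Uses `row_unique` (RW) and `gn_spec` (FB). -/

set_option linter.unusedSectionVars false

namespace Pool.Agent.HB

open NumberField Complex MeasureTheory
open scoped MatrixGroups ENNReal
open Pool.Agent.H4 (NI)

variable {K : Type} [Field K] [NumberField K]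
variable {s : 𝓞 K →+* ℂ} {κ : 𝓞 K} {τ : 𝓞 K ≃+* 𝓞 K} {b b' : Fin 2 → 𝓞 K}

theorem rq_coprime (γ : SL(2, 𝓞 K)) : IsCoprime (γ 1 0) (γ 1 1) := by
  have h := γ.det_coe
  rw [Matrix.det_fin_two] at h
  refine ⟨-(γ 0 1), γ 0 0, ?_⟩
  linear_combination h

theorem rq_span {c d g : 𝓞 K} (h : IsCoprime c d) :
    Ideal.span {g * c, g * d} = Ideal.span {g} := by
  apply le_antisymm
  · rw [Ideal.span_le]
    intro x hx
    rcases hx with rfl | rfl
    · exact Ideal.mul_mem_right _ _ (Ideal.mem_span_singleton_self g)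
    · exact Ideal.mul_mem_right _ _ (Ideal.mem_span_singleton_self g)
  · rw [Ideal.span_le]
    intro x hx
    rw [Set.mem_singleton_iff] at hx
    subst hx
    obtain ⟨u, v, huv⟩ := h
    have : x = u * (x * c) + v * (x * d) := by linear_combination (-x) * huv
    rw [SetLike.mem_coe, Ideal.mem_span_pair]
    exact ⟨u, v, this.symm⟩

/-- The nonzero pairs are the `g_𝔞 (c, d)`, `(c, d)` the bottom row of a `γ` with `γP` in the
box. -/
theorem row_equiv (F : Fld s κ τ b b') (P : H3) :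
    ∃ e : NI K × {γ : SL(2, 𝓞 K) // act s γ P ∈ Box s b} ≃ {x : 𝓞 K × 𝓞 K // x ≠ 0},
      ∀ p, (e p : 𝓞 K × 𝓞 K) = (gn p.1.1 * p.2.1 1 0, gn p.1.1 * p.2.1 1 1) := by
  have hne : ∀ p : NI K × {γ : SL(2, 𝓞 K) // act s γ P ∈ Box s b},
      ((gn p.1.1 * p.2.1 1 0, gn p.1.1 * p.2.1 1 1) : 𝓞 K × 𝓞 K) ≠ 0 := by
    intro p h0
    have hg := (gn_spec F p.1.1).2.1 p.1.2
    rw [Prod.mk_eq_zero] at h0
    have h1 : p.2.1 1 0 = 0 := (mul_eq_zero.1 h0.1).resolve_left hg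
    have h2 : p.2.1 1 1 = 0 := (mul_eq_zero.1 h0.2).resolve_left hg
    obtain ⟨u, v, huv⟩ := rq_coprime p.2.1
    rw [h1, h2, mul_zero, mul_zero, add_zero] at huv
    exact zero_ne_one huv
  let f : NI K × {γ : SL(2, 𝓞 K) // act s γ P ∈ Box s b} → {x : 𝓞 K × 𝓞 K // x ≠ 0} :=
    fun p => ⟨(gn p.1.1 * p.2.1 1 0, gn p.1.1 * p.2.1 1 1), hne p⟩
  have hinj : Function.Injective f := by
    intro p p' hpp
    have h0 : ((gn p.1.1 * p.2.1 1 0, gn p.1.1 * p.2.1 1 1) : 𝓞 K × 𝓞 K) =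
        (gn p'.1.1 * p'.2.1 1 0, gn p'.1.1 * p'.2.1 1 1) := congrArg Subtype.val hpp
    rw [Prod.mk.injEq] at h0
    have hI : p.1.1 = p'.1.1 := by
      have e1 := rq_span (g := gn p.1.1) (rq_coprime p.2.1)
      have e2 := rq_span (g := gn p'.1.1) (rq_coprime p'.2.1)
      rw [h0.1, h0.2, e2] at e1
      rw [(gn_spec F p.1.1).1, (gn_spec F p'.1.1).1]
      exact e1.symm
    have hg := (gn_spec F p'.1.1).2.1 p'.1.2
    rw [hI] at h0
    have h1 : p.2.1 1 0 = p'.2.1 1 0 := mul_left_cancel₀ hg h0.1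
    have h2 : p.2.1 1 1 = p'.2.1 1 1 := mul_left_cancel₀ hg h0.2
    obtain ⟨γ, -, hu⟩ := row_unique F (rq_coprime p.2.1) P
    have h3 : p.2.1 = γ := hu _ ⟨rfl, rfl, p.2.2⟩
    have h4 : p'.2.1 = γ := hu _ ⟨h1.symm, h2.symm, p'.2.2⟩
    exact Prod.ext (Subtype.ext hI) (Subtype.ext (h3.trans h4.symm))
  have hsurj : Function.Surjective f := by
    rintro ⟨⟨c, d⟩, hx⟩
    have hI : Ideal.span {c, d} ≠ (⊥ : Ideal (𝓞 K)) := by
      intro h0
      rw [Ideal.span_eq_bot] at h0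
      exact hx (Prod.ext (h0 c (by simp)) (h0 d (by simp)))
    have hs := (gn_spec F (Ideal.span {c, d})).1
    have hg := (gn_spec F (Ideal.span {c, d})).2.1 hI
    set g := gn (Ideal.span {c, d}) with hgdef
    have hc : c ∈ Ideal.span {g} := by
      rw [← hs]
      exact Ideal.subset_span (by simp)
    have hd : d ∈ Ideal.span {g} := by
      rw [← hs]
      exact Ideal.subset_span (by simp)
    obtain ⟨c', hc'⟩ := Ideal.mem_span_singleton'.1 hc
    obtain ⟨d', hd'⟩ := Ideal.mem_span_singleton'.1 hd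
    have hgm : g ∈ Ideal.span {c, d} := by
      rw [hs]
      exact Ideal.mem_span_singleton_self g
    obtain ⟨u, v, huv⟩ := Ideal.mem_span_pair.1 hgm
    have hcop : IsCoprime c' d' := by
      refine ⟨u, v, mul_left_cancel₀ hg ?_⟩
      rw [mul_one]
      calc g * (u * c' + v * d') = u * (c' * g) + v * (d' * g) := by ring
        _ = g := by rw [hc', hd', huv]
    obtain ⟨γ, ⟨h1, h2, h3⟩, -⟩ := row_unique F hcop P
    refine ⟨⟨⟨Ideal.span {c, d}, hI⟩, ⟨γ, h3⟩⟩, ?_⟩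
    apply Subtype.ext
    show ((g * γ 1 0, g * γ 1 1) : 𝓞 K × 𝓞 K) = (c, d)
    rw [h1, h2, mul_comm g c', mul_comm g d', hc', hd']
  exact ⟨Equiv.ofBijective f ⟨hinj, hsurj⟩, fun p => rfl⟩

end Pool.Agent.HB
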