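import Pool.Agent.Lib_helper98.H4F.FB
import Pool.Agent.Lib_helper99.HB.Defs
import Pool.Agent.Lib_helper99.HBF.AC
import Pool.Agent.Lib_helper99.HBF.FB
import Pool.Agent.Lib_helper99.HBF.RQ
import Pool.Agent.Lib_helper99.HBF.TS

/-! Hardy's theorem over imaginary quadratic fields, block UF: `bt_meas`, `theta_unfold`. -/

namespace Pool.Agent.HB

open NumberField Complex MeasureTheory
open scoped MatrixGroups ENNReal
open Pool.Agent.H4 (NI PI Hek blw Spl Inr tt uu p4 hh PP ml atl FunBd vcf)

variable {K : Type} [Field K] [NumberField K]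
variable {s : 𝓞 K →+* ℂ} {κ : 𝓞 K} {τ : 𝓞 K ≃+* 𝓞 K} {b b' : Fin 2 → 𝓞 K}

theorem uf_countable_ideal : Countable (NI K) := by
  haveI : Countable (𝓞 K) := Pool.Agent.H4.countable_int
  -- every ideal is finitely generated
  have hinj : Function.Injective (fun I : Ideal (𝓞 K) =>
      (IsNoetherian.noetherian I).choose) := by
    intro I J h
    have h1 := (IsNoetherian.noetherian I).choose_spec
    have h2 := (IsNoetherian.noetherian J).choose_spec
    simp only at h
    rw [h] at h1
    exact h1.symm.trans h2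
  haveI : Countable (Ideal (𝓞 K)) := hinj.countable
  infer_instance

theorem uf_meas_y : Measurable (fun P : H3 => P.1.2) :=
  measurable_snd.comp measurable_subtype_coe

theorem bt_meas (K : Type) [Field K] [NumberField K] (t : ℝ) : Measurable (bt K t) := by
  haveI : Countable (NI K) := uf_countable_ideal
  unfold bt
  refine Measurable.ennreal_tsum fun 𝔞 => ?_
  refine ENNReal.measurable_ofReal.comp ?_
  refine Real.measurable_exp.comp ?_
  refine Measurable.neg ?_
  refine Measurable.const_mul ?_ _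
  exact measurable_const.div uf_meas_y

theorem uf_qq_mul (s : 𝓞 K →+* ℂ) (P : H3) (g c d : 𝓞 K) :
    qq s P (g * c, g * d) = normSq (s g) * qq s P (c, d) := by
  unfold qq
  have : (s (g * c) * P.1.1 + s (g * d)) = s g * (s c * P.1.1 + s d) := by
    rw [map_mul, map_mul]
    ring
  simp only
  rw [this, map_mul, map_mul, map_mul]
  ring

theorem uf_qq_zero (s : 𝓞 K →+* ℂ) (P : H3) : qq s P 0 = 0 := by
  simp [qq]

theorem theta_unfold (F : Fld s κ τ b b') {t : ℝ} (ht : 0 < t) (P : H3) :
    ENNReal.ofReal (th s t P - 1) = avg s b (bt K t) P := by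
  classical
  haveI : Countable (NI K) := uf_countable_ideal
  have hsum := th_summable F ht P
  set φ : 𝓞 K × 𝓞 K → ℝ :=
    fun x => Real.exp (-(Real.pi * (t * qq s P x))) with hφ
  have hφ0 : φ 0 = 1 := by
    simp only [hφ]
    rw [uf_qq_zero s P]
    simp
  -- the sum over the nonzero pairs
  have hsub : Summable (fun x : {x : 𝓞 K × 𝓞 K // x ≠ 0} => φ x) := hsum.subtype _
  have hth : th s t P - 1 = ∑' x : {x : 𝓞 K × 𝓞 K // x ≠ 0}, φ x := by
    have h3 : ∑' x, φ x = φ 0 + ∑' x, (if x = 0 then 0 else φ x) := hsum.tsum_eq_add_tsum_ite 0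
    have h4 : ∑' x : {x : 𝓞 K × 𝓞 K // x ≠ 0}, φ x =
        ∑' x, Set.indicator {x : 𝓞 K × 𝓞 K | x ≠ 0} φ x := tsum_subtype _ φ
    have h5 : ∀ x, Set.indicator {x : 𝓞 K × 𝓞 K | x ≠ 0} φ x = if x = 0 then 0 else φ x := by
      intro x
      by_cases hx : x = 0
      · simp [hx]
      · rw [Set.indicator_of_mem (show x ∈ {x : 𝓞 K × 𝓞 K | x ≠ 0} from hx), if_neg hx]
    rw [h4]
    simp_rw [h5]
    unfold th
    rw [h3, hφ0]
    ring
  obtain ⟨e, he⟩ := row_equiv F P
  rw [hth, ENNReal.ofReal_tsum_of_nonneg (fun x => (Real.exp_pos _).le) hsub]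
  rw [← e.tsum_eq (fun x : {x : 𝓞 K × 𝓞 K // x ≠ 0} => ENNReal.ofReal (φ x))]
  rw [ENNReal.tsum_prod', ENNReal.tsum_comm]
  unfold avg
  rw [← tsum_subtype_eq_of_support_subset (s := {γ : SL(2, 𝓞 K) | act s γ P ∈ Box s b})
    (f := fun γ => if act s γ P ∈ Box s b then bt K t (act s γ P) else 0)]
  · refine tsum_congr fun γ => ?_
    have hγ : act s γ.1 P ∈ Box s b := γ.2
    rw [if_pos hγ]
    unfold bt
    refine tsum_congr fun 𝔞 => ?_
    congr 1
    simp only [hφ]
    rw [he, uf_qq_mul, act_y s γ.1 P, (gn_spec F 𝔞.1).2.2]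
    congr 2
    simp only [div_div_eq_mul_div, div_one, one_div, div_inv_eq_mul]
    ring
  · intro γ hγ
    by_contra h
    apply hγ
    exact if_neg h

example : type_of% @bt_meas := @bt_meas
example : type_of% @theta_unfold := @theta_unfold

end Pool.Agent.HB
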