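import Pool.Agent.Lib_helper99.HB.Defs
import Pool.Agent.Lib_helper99.HBF.AC
import Pool.Agent.Lib_helper99.HBF.MM
import Pool.Agent.Lib_helper99.HBF.SY
import Pool.Agent.Lib_helper99.HBF.TF
import Pool.Agent.Lib_helper99.HBF.TS
import Pool.Agent.Lib_helper99.HBF.UF

/-!
# Hardy's theorem over imaginary quadratic fields: block MU (unfolding with respect to the measure mm)
-/

namespace Pool.Agent.HB

open NumberField Complex MeasureTheory
open scoped MatrixGroups ENNReal
open Pool.Agent.H4 (NI PI Hek blw Spl Inr tt uu p4 hh PP ml atl FunBd vcf)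

variable {K : Type} [Field K] [NumberField K]
variable {s : 𝓞 K →+* ℂ} {κ : 𝓞 K} {τ : 𝓞 K ≃+* 𝓞 K} {b b' : Fin 2 → 𝓞 K}

theorem mu_th_meas (F : Fld s κ τ b b') (t : ℝ) : Measurable (fun P : H3 => th s t P) :=
  (th_meas F).comp measurable_prodMk_left

theorem mm_unfold (F : Fld s κ τ b b') {t t' : ℝ} (ht : 0 < t) (h : DD s κ * t ^ 2 ≤ 2)
    (ht' : 0 < t') {G : H3 → ℝ≥0∞} (hG : Measurable G)
    (hi : ∀ (γ : SL(2, 𝓞 K)) (P : H3), G (act s γ P) = G P) :
    ∫⁻ P, G P * ENNReal.ofReal (th s t' P - 1) ∂(mm s b t) =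
      ∫⁻ P in Box s b, G P * bt K t' P ∂mu := by
  have hth := mu_th_meas F t
  have hth' := mu_th_meas F t'
  have hm : Measurable (fun z : H3 => ENNReal.ofReal (th s t z - 1)) :=
    ENNReal.measurable_ofReal.comp (hth.sub_const 1)
  have hm' : Measurable (fun z : H3 => ENNReal.ofReal (th s t' z - 1)) :=
    ENNReal.measurable_ofReal.comp (hth'.sub_const 1)
  have hne : ∀ z, ENNReal.ofReal (th s t z - 1) ≠ 0 := by
    intro z
    have := th_two_le F ht h z
    rw [Ne, ENNReal.ofReal_eq_zero, not_le]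
    linarith
  have hdm : Measurable (fun z => bt K t z / ENNReal.ofReal (th s t z - 1)) :=
    (bt_meas K t).div hm
  unfold mm
  refine (lintegral_withDensity_eq_lintegral_mul _ hdm (hG.mul hm')).trans ?_
  set G' : H3 → ℝ≥0∞ := fun z => G z / ENNReal.ofReal (th s t z - 1) with hG'
  have hG'm : Measurable G' := hG.div hm
  have hG'i : ∀ (γ : SL(2, 𝓞 K)) (z : H3), G' (act s γ z) = G' z := by
    intro γ z
    simp only [hG', hi, th_act]
  have e1 : ∫⁻ z in Box s b, ((fun z => bt K t z / ENNReal.ofReal (th s t z - 1)) *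
      (G * fun z => ENNReal.ofReal (th s t' z - 1))) z ∂mu =
      ∫⁻ z in Box s b, G' z * bt K t z * avg s b (bt K t') z ∂mu := by
    refine lintegral_congr fun z => ?_
    simp only [Pi.mul_apply, hG']
    rw [theta_unfold F ht' z]
    simp only [div_eq_mul_inv]
    ring
  have e2 : ∫⁻ z in Box s b, G' z * bt K t' z * avg s b (bt K t) z ∂mu =
      ∫⁻ z in Box s b, G z * bt K t' z ∂mu := by
    refine lintegral_congr fun z => ?_
    rw [← theta_unfold F ht z]
    simp only [hG', div_eq_mul_inv]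
    calc G z * (ENNReal.ofReal (th s t z - 1))⁻¹ * bt K t' z * ENNReal.ofReal (th s t z - 1)
        = G z * bt K t' z * ((ENNReal.ofReal (th s t z - 1))⁻¹ *
          ENNReal.ofReal (th s t z - 1)) := by ring
      _ = G z * bt K t' z := by
          rw [ENNReal.inv_mul_cancel (hne z) ENNReal.ofReal_ne_top, mul_one]
  rw [← e2, ← sym_unfold s b hG'm (bt_meas K t) (bt_meas K t') hG'i, ← e1]

/-- the real nonnegative case -/
theorem mu_real (F : Fld s κ τ b b') {t t' : ℝ} (ht : 0 < t) (h : DD s κ * t ^ 2 ≤ 2)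
    (ht' : 0 < t') {g : H3 → ℝ}
    (hg : Measurable g) (h0 : ∀ z, 0 ≤ g z) {C : ℝ} (hC : ∀ z, g z ≤ C)
    (hi : ∀ (γ : SL(2, 𝓞 K)) (z : H3), g (act s γ z) = g z) :
    Integrable (fun z => g z * (th s t' z - 1)) (mm s b t) ∧
      IntegrableOn (fun z => g z * (bt K t' z).toReal) (Box s b) mu ∧
      ∫ z, g z * (th s t' z - 1) ∂(mm s b t) = ∫ z in Box s b, g z * (bt K t' z).toReal ∂mu := by
  have hth' := mu_th_meas F t'
  have hGm : Measurable (fun z => ENNReal.ofReal (g z)) := ENNReal.measurable_ofReal.comp hg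
  have key := mm_unfold F ht h ht' hGm (fun γ z => by rw [hi])
  have hthn : ∀ z, 0 ≤ th s t' z - 1 := fun z => by
    have := th_one_le F ht' z
    linarith
  have hbox := bt_box F ht'
  have hCm : ∫⁻ z in Box s b, ENNReal.ofReal (g z) * bt K t' z ∂mu < ∞ := by
    calc ∫⁻ z in Box s b, ENNReal.ofReal (g z) * bt K t' z ∂mu
        ≤ ∫⁻ z in Box s b, ENNReal.ofReal C * bt K t' z ∂mu := by
          refine lintegral_mono fun z => ?_
          exact mul_le_mul_left (ENNReal.ofReal_le_ofReal (hC z)) _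
      _ = ENNReal.ofReal C * ∫⁻ z in Box s b, bt K t' z ∂mu :=
          lintegral_const_mul _ (bt_meas K t')
      _ < ∞ := ENNReal.mul_lt_top ENNReal.ofReal_lt_top hbox
  have hfin : ∀ᵐ z ∂(mu.restrict (Box s b)), bt K t' z < ∞ :=
    ae_lt_top (bt_meas K t') hbox.ne
  have m1 : AEStronglyMeasurable (fun z => g z * (th s t' z - 1)) (mm s b t) :=
    (hg.mul (hth'.sub_const 1)).aestronglyMeasurable
  have m2 : AEStronglyMeasurable (fun z => g z * (bt K t' z).toReal)
      (mu.restrict (Box s b)) :=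
    (hg.mul (bt_meas K t').ennreal_toReal).aestronglyMeasurable
  have l1 : ∫⁻ z, ENNReal.ofReal (g z * (th s t' z - 1)) ∂(mm s b t) =
      ∫⁻ z in Box s b, ENNReal.ofReal (g z) * bt K t' z ∂mu := by
    rw [← key]
    refine lintegral_congr fun z => ?_
    rw [ENNReal.ofReal_mul (h0 z)]
  have l2 : ∫⁻ z in Box s b, ENNReal.ofReal (g z * (bt K t' z).toReal) ∂mu =
      ∫⁻ z in Box s b, ENNReal.ofReal (g z) * bt K t' z ∂mu := by
    refine lintegral_congr_ae ?_
    filter_upwards [hfin] with z hz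
    rw [ENNReal.ofReal_mul (h0 z), ENNReal.ofReal_toReal hz.ne]
  have n1 : 0 ≤ᵐ[mm s b t] fun z => g z * (th s t' z - 1) :=
    Filter.Eventually.of_forall fun z => mul_nonneg (h0 z) (hthn z)
  have n2 : 0 ≤ᵐ[mu.restrict (Box s b)] fun z => g z * (bt K t' z).toReal :=
    Filter.Eventually.of_forall fun z => mul_nonneg (h0 z) ENNReal.toReal_nonneg
  have i1 : Integrable (fun z => g z * (th s t' z - 1)) (mm s b t) := by
    refine ⟨m1, ?_⟩
    rw [hasFiniteIntegral_iff_ofReal n1, l1]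
    exact hCm
  have i2 : IntegrableOn (fun z => g z * (bt K t' z).toReal) (Box s b) mu := by
    refine ⟨m2, ?_⟩
    rw [hasFiniteIntegral_iff_ofReal n2, l2]
    exact hCm
  refine ⟨i1, i2, ?_⟩
  rw [integral_eq_lintegral_of_nonneg_ae n1 m1, integral_eq_lintegral_of_nonneg_ae n2 m2, l1, l2]

/-- the real bounded case -/
theorem mu_real' (F : Fld s κ τ b b') {t t' : ℝ} (ht : 0 < t) (h : DD s κ * t ^ 2 ≤ 2)
    (ht' : 0 < t') {g : H3 → ℝ}
    (hg : Measurable g) {C : ℝ} (hC : ∀ z, |g z| ≤ C)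
    (hi : ∀ (γ : SL(2, 𝓞 K)) (z : H3), g (act s γ z) = g z) :
    Integrable (fun z => g z * (th s t' z - 1)) (mm s b t) ∧
      IntegrableOn (fun z => g z * (bt K t' z).toReal) (Box s b) mu ∧
      ∫ z, g z * (th s t' z - 1) ∂(mm s b t) = ∫ z in Box s b, g z * (bt K t' z).toReal ∂mu := by
  have hC0 : ∀ z : H3, 0 ≤ C := fun z => (abs_nonneg _).trans (hC z)
  obtain ⟨a1, a2, a3⟩ := mu_real (g := fun z => g z + C) (C := 2 * C) F ht h ht'
    (hg.add_const C) (fun z => by have := (abs_le.1 (hC z)).1; linarith)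
    (fun z => by have := (abs_le.1 (hC z)).2; linarith) (fun γ z => by simp only [hi])
  obtain ⟨b1, b2, b3⟩ := mu_real (g := fun z => C) (C := C) F ht h ht'
    measurable_const hC0 (fun z => le_rfl) (fun γ z => rfl)
  have e1 : (fun z => g z * (th s t' z - 1)) =
      fun z => (g z + C) * (th s t' z - 1) - C * (th s t' z - 1) := by
    funext z; ring
  have e2 : (fun z => g z * (bt K t' z).toReal) =
      fun z => (g z + C) * (bt K t' z).toReal - C * (bt K t' z).toReal := by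
    funext z; ring
  rw [e1, e2]
  refine ⟨a1.sub b1, a2.sub b2, ?_⟩
  rw [integral_sub a1 b1, integral_sub a2 b2, a3, b3]

theorem mm_unfold_c (F : Fld s κ τ b b') {t t' : ℝ} (ht : 0 < t) (h : DD s κ * t ^ 2 ≤ 2)
    (ht' : 0 < t') {G : H3 → ℂ} (hG : Measurable G) (hb : ∃ C : ℝ, ∀ P, ‖G P‖ ≤ C)
    (hi : ∀ (γ : SL(2, 𝓞 K)) (P : H3), G (act s γ P) = G P) :
    Integrable (fun P => G P * ((th s t' P - 1 : ℝ) : ℂ)) (mm s b t) ∧
      IntegrableOn (fun P => G P * ((bt K t' P).toReal : ℂ)) (Box s b) mu ∧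
      ∫ P, G P * ((th s t' P - 1 : ℝ) : ℂ) ∂(mm s b t) =
        ∫ P in Box s b, G P * ((bt K t' P).toReal : ℂ) ∂mu := by
  obtain ⟨C, hC⟩ := hb
  obtain ⟨a1, a2, a3⟩ := mu_real' (g := fun z => (G z).re) (C := C) F ht h ht'
    (measurable_re.comp hG) (fun z => (abs_re_le_norm _).trans (hC z))
    (fun γ z => by simp only [hi])
  obtain ⟨b1, b2, b3⟩ := mu_real' (g := fun z => (G z).im) (C := C) F ht h ht'
    (measurable_im.comp hG) (fun z => (abs_im_le_norm _).trans (hC z))
    (fun γ z => by simp only [hi])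
  have e : ∀ (r : H3 → ℝ), (fun z => G z * ((r z : ℝ) : ℂ)) =
      fun z => (((G z).re * r z : ℝ) : ℂ) + (((G z).im * r z : ℝ) : ℂ) * I := by
    intro r
    funext z
    conv_lhs => rw [← re_add_im (G z)]
    push_cast
    ring
  rw [e (fun z => th s t' z - 1), e (fun z => (bt K t' z).toReal)]
  have i1 : Integrable (fun z => (((G z).re * (th s t' z - 1) : ℝ) : ℂ)) (mm s b t) :=
    a1.ofReal
  have i2 : Integrable (fun z => (((G z).im * (th s t' z - 1) : ℝ) : ℂ) * I) (mm s b t) :=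
    (b1.ofReal (𝕜 := ℂ)).mul_const I
  have j1 : Integrable (fun z => (((G z).re * (bt K t' z).toReal : ℝ) : ℂ))
      (mu.restrict (Box s b)) := Integrable.ofReal a2
  have j2 : Integrable (fun z => (((G z).im * (bt K t' z).toReal : ℝ) : ℂ) * I)
      (mu.restrict (Box s b)) := (Integrable.ofReal (𝕜 := ℂ) b2).mul_const I
  refine ⟨i1.add i2, j1.add j2, ?_⟩
  rw [integral_add i1 i2, integral_add j1 j2, integral_mul_const, integral_mul_const]
  congr 1
  · exact (integral_ofReal (𝕜 := ℂ)).trans ((congrArg _ a3).trans (integral_ofReal (𝕜 := ℂ)).symm)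
  · congr 1
    exact (integral_ofReal (𝕜 := ℂ)).trans ((congrArg _ b3).trans (integral_ofReal (𝕜 := ℂ)).symm)

end Pool.Agent.HB
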