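import Pool.Agent.Lib_helper99.HB.Defs
import Pool.Agent.Lib_helper99.HBF.FB
import Pool.Agent.Lib_helper99.HBF.FF
import Pool.Agent.Lib_helper99.HBF.MM
import Pool.Agent.Lib_helper99.HBF.MU
import Pool.Agent.Lib_helper99.HBF.TF
import Pool.Agent.Lib_helper99.HBF.UF

/-!
# HB, block JC: functional equation and continuity of `J`
-/

namespace Pool.Agent.HB

open NumberField Complex MeasureTheory
open scoped MatrixGroups ENNReal
open Pool.Agent.H4 (NI PI Hek blw Spl Inr tt uu p4 hh PP ml atl FunBd vcf)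

variable {K : Type} [Field K] [NumberField K]
variable {s : 𝓞 K →+* ℂ} {κ : 𝓞 K} {τ : 𝓞 K ≃+* 𝓞 K} {b b' : Fin 2 → 𝓞 K}

theorem jc_unf (F : Fld s κ τ b b') {ν : ℂ} (hν : Adm ν) {c c' : 𝓞 K → ℝ} (hc : AF s κ ν c)
    (hc' : AF s κ ν c') {t₀ t : ℝ} (h0 : 0 < t₀) (h : DD s κ * t₀ ^ 2 ≤ 2) (ht : 0 < t) :
    Integrable (fun P => FF s κ ν c c' P * ((th s t P - 1 : ℝ) : ℂ)) (mm s b t₀) ∧
      ∫ P, FF s κ ν c c' P * ((th s t P - 1 : ℝ) : ℂ) ∂(mm s b t₀) = Jt s κ b ν c c' t := by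
  have hG : Measurable (FF s κ ν c c') := (FF_cont F hν hc hc').measurable
  obtain ⟨e1, _, e3⟩ := mm_unfold_c F h0 h ht hG (FF_bdd F hν hc hc')
    (fun γ P => FF_inv hc hc' γ P)
  exact ⟨e1, e3⟩

theorem jc_sum (F : Fld s κ τ b b') {ν : ℂ} (hν : Adm ν) {c c' : 𝓞 K → ℝ} (hc : AF s κ ν c)
    (hc' : AF s κ ν c') {t₀ t : ℝ} (h0 : 0 < t₀) (h : DD s κ * t₀ ^ 2 ≤ 2) (ht : 0 < t) :
    Jt s κ b ν c c' t + J0 s κ b ν c c' t₀ =
      ∫ P, FF s κ ν c c' P * ((th s t P : ℝ) : ℂ) ∂(mm s b t₀) := by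
  obtain ⟨e1, e2⟩ := jc_unf F hν hc hc' h0 h ht
  have hfin := mm_finite F h0 h
  have hG : Measurable (FF s κ ν c c') := (FF_cont F hν hc hc').measurable
  obtain ⟨C, hC⟩ := FF_bdd F hν hc hc'
  have e4 : Integrable (FF s κ ν c c') (mm s b t₀) := by
    apply Integrable.of_bound hG.aestronglyMeasurable C
    exact Filter.Eventually.of_forall hC
  rw [← e2, J0, ← integral_add e1 e4]
  congr 1
  funext P
  push_cast
  ring

theorem jt_fe (F : Fld s κ τ b b') {ν : ℂ} (hν : Adm ν) {c c' : 𝓞 K → ℝ} (hc : AF s κ ν c)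
    (hc' : AF s κ ν c') {t₀ t : ℝ} (h0 : 0 < t₀) (h : DD s κ * t₀ ^ 2 ≤ 2) (ht : 0 < t) :
    Jt s κ b ν c c' t + J0 s κ b ν c c' t₀ = ((4 / (DD s κ * t ^ 2) : ℝ) : ℂ) *
      (Jt s κ b ν c c' (4 / (DD s κ * t)) + J0 s κ b ν c c' t₀) := by
  have hD := DD_pos F
  have p1 : 0 < 4 / (DD s κ * t) := by positivity
  rw [jc_sum F hν hc hc' h0 h ht, jc_sum F hν hc hc' h0 h p1, ← integral_const_mul]
  congr 1
  funext P
  rw [th_fe F ht P]
  push_cast
  ring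

/-- the terms of `bt` -/
noncomputable def jc_f (P : H3) (𝔞 : NI K) (t : ℝ) : ℝ :=
  Real.exp (-(Real.pi * (t * (Ideal.absNorm 𝔞.1 : ℝ) / P.1.2)))

theorem jc_f_nonneg (P : H3) (𝔞 : NI K) (t : ℝ) : 0 ≤ jc_f P 𝔞 t := by
  unfold jc_f
  exact (Real.exp_pos _).le

theorem jc_f_mono (P : H3) (𝔞 : NI K) {t t' : ℝ} (h : t ≤ t') :
    jc_f P 𝔞 t' ≤ jc_f P 𝔞 t := by
  unfold jc_f
  apply Real.exp_le_exp.mpr
  apply neg_le_neg
  apply mul_le_mul_of_nonneg_left _ Real.pi_pos.le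
  have y1 := P.2
  apply div_le_div_of_nonneg_right _ y1.le
  exact mul_le_mul_of_nonneg_right h (Nat.cast_nonneg _)

theorem jc_f_cont (P : H3) (𝔞 : NI K) : Continuous (jc_f P 𝔞) := by
  unfold jc_f
  fun_prop

theorem jc_bt_mono (P : H3) {t t' : ℝ} (h : t ≤ t') : bt K t' P ≤ bt K t P := by
  unfold bt
  apply ENNReal.tsum_le_tsum
  intro 𝔞
  apply ENNReal.ofReal_le_ofReal
  exact jc_f_mono P 𝔞 h

theorem jc_bt_summable (P : H3) {t : ℝ} (h : bt K t P ≠ ∞) :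
    Summable (fun 𝔞 : NI K => jc_f P 𝔞 t) := by
  have h2 : ∑' 𝔞 : NI K, ENNReal.ofReal (jc_f P 𝔞 t) ≠ ∞ := h
  have h3 := ENNReal.summable_toReal h2
  refine h3.congr fun 𝔞 => ?_
  rw [ENNReal.toReal_ofReal (jc_f_nonneg _ _ _)]

theorem jc_bt_real (P : H3) (t : ℝ) :
    (bt K t P).toReal = ∑' 𝔞 : NI K, jc_f P 𝔞 t := by
  have h2 : bt K t P = ∑' 𝔞 : NI K, ENNReal.ofReal (jc_f P 𝔞 t) := rfl
  rw [h2, ENNReal.tsum_toReal_eq (fun _ => ENNReal.ofReal_ne_top)]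
  refine tsum_congr fun 𝔞 => ?_
  rw [ENNReal.toReal_ofReal (jc_f_nonneg _ _ _)]

theorem jc_bt_cont (P : H3) {t₁ t : ℝ} (h1 : t₁ < t)
    (h : bt K t₁ P ≠ ∞) : ContinuousAt (fun t => (bt K t P).toReal) t := by
  have e : (fun t : ℝ => (bt K t P).toReal) = fun t => ∑' 𝔞 : NI K, jc_f P 𝔞 t := by
    funext t
    exact jc_bt_real P t
  rw [e]
  unfold ContinuousAt
  apply tendsto_tsum_of_dominated_convergence (jc_bt_summable P h)
  · intro 𝔞
    exact (jc_f_cont P 𝔞).continuousAt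
  · filter_upwards [lt_mem_nhds h1] with x hx1 𝔞
    rw [Real.norm_eq_abs, abs_of_pos (by unfold jc_f; exact Real.exp_pos _)]
    exact jc_f_mono P 𝔞 (le_of_lt hx1)

theorem jt_cont (F : Fld s κ τ b b') {ν : ℂ} (hν : Adm ν) {c c' : 𝓞 K → ℝ}
    (hc : AF s κ ν c) (hc' : AF s κ ν c') : ContinuousOn (Jt s κ b ν c c') (Set.Ioi 0) := by
  intro t ht
  apply ContinuousAt.continuousWithinAt
  have ht0 : 0 < t := ht
  obtain ⟨C, hC⟩ := FF_bdd F hν hc hc'
  have hG : Measurable (FF s κ ν c c') := (FF_cont F hν hc hc').measurable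
  have p1 : 0 < t / 2 := by positivity
  have q1 : t / 2 < t := by linarith
  have hbox := bt_box F p1
  have hmeas : ∀ x : ℝ, Measurable (fun P : H3 => ((bt K x P).toReal : ℂ)) := fun x =>
    Complex.measurable_ofReal.comp (bt_meas K x).ennreal_toReal
  have hae : ∀ᵐ P ∂(mu.restrict (Box s b)), bt K (t / 2) P ≠ ∞ := by
    have := ae_lt_top (bt_meas K (t / 2)) hbox.ne
    filter_upwards [this] with P hP
    exact hP.ne
  have hC0 : 0 ≤ C := le_trans (norm_nonneg _) (hC ⟨(0, 1), one_pos⟩)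
  unfold Jt
  apply MeasureTheory.continuousAt_of_dominated
    (bound := fun P => C * (bt K (t / 2) P).toReal)
  · exact Filter.Eventually.of_forall fun x => (hG.mul (hmeas x)).aestronglyMeasurable
  · filter_upwards [lt_mem_nhds q1] with x hx1
    filter_upwards [hae] with P hP
    rw [norm_mul, Complex.norm_real, Real.norm_eq_abs, abs_of_nonneg ENNReal.toReal_nonneg]
    apply mul_le_mul (hC P) _ ENNReal.toReal_nonneg hC0
    exact ENNReal.toReal_mono hP (jc_bt_mono P (le_of_lt hx1))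
  · apply Integrable.const_mul
    exact integrable_toReal_of_lintegral_ne_top (bt_meas K (t / 2)).aemeasurable hbox.ne
  · filter_upwards [hae] with P hP
    apply ContinuousAt.mul continuousAt_const
    exact Complex.continuous_ofReal.continuousAt.comp (jc_bt_cont P q1 hP)

end Pool.Agent.HB
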