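import Pool.Agent.Lib_helper99.HB.Defs
import Pool.Agent.Lib_helper99.HBF.FB

/-!
# HB, block FE: elements and ideals
-/

namespace Pool.Agent.HB

open NumberField Complex MeasureTheory
open scoped MatrixGroups ENNReal
open Pool.Agent.H4 (NI PI Hek blw Spl Inr tt uu p4 hh PP ml atl FunBd vcf)

variable {K : Type} [Field K] [NumberField K]
variable {s : 𝓞 K →+* ℂ} {κ : 𝓞 K} {τ : 𝓞 K ≃+* 𝓞 K} {b b' : Fin 2 → 𝓞 K}

theorem fe_inj (F : Fld s κ τ b b') :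
    Function.Injective (fun p : NI K × (𝓞 K)ˣ => (p.2 : 𝓞 K) * gn p.1.1) := by
  rintro ⟨⟨I, hI⟩, u⟩ ⟨⟨J, hJ⟩, v⟩ h
  simp only at h
  have hIJ : I = J := by
    rw [(gn_spec F I).1, (gn_spec F J).1]
    rw [← Ideal.span_singleton_mul_left_unit u.isUnit (gn I),
      ← Ideal.span_singleton_mul_left_unit v.isUnit (gn J), h]
  subst hIJ
  have h0 : gn I ≠ 0 := (gn_spec F I).2.1 hI
  have huv : u = v := Units.ext (mul_right_cancel₀ h0 h)
  rw [huv]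

theorem fe_ne (F : Fld s κ τ b b') (p : NI K × (𝓞 K)ˣ) : (p.2 : 𝓞 K) * gn p.1.1 ≠ 0 :=
  mul_ne_zero p.2.ne_zero ((gn_spec F p.1.1).2.1 p.1.2)

theorem fe_surj (F : Fld s κ τ b b') {a : 𝓞 K} (ha : a ≠ 0) :
    ∃ p : NI K × (𝓞 K)ˣ, (p.2 : 𝓞 K) * gn p.1.1 = a := by
  have hI : (Ideal.span {a} : Ideal (𝓞 K)) ≠ ⊥ := by
    rw [ne_eq, Ideal.span_singleton_eq_bot]
    exact ha
  have h1 := (gn_spec F (Ideal.span {a})).1
  obtain ⟨u, hu⟩ := Ideal.span_singleton_eq_span_singleton.1 h1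
  refine ⟨⟨⟨Ideal.span {a}, hI⟩, u⁻¹⟩, ?_⟩
  simp only
  rw [← hu, mul_comm, mul_assoc, Units.mul_inv, mul_one]

theorem un_equiv (F : Fld s κ τ b b') : ∃ e : NI K × (𝓞 K)ˣ ≃ {a : 𝓞 K // a ≠ 0},
    ∀ p, (e p : 𝓞 K) = p.2 * gn p.1.1 := by
  refine ⟨Equiv.ofBijective (fun p => ⟨(p.2 : 𝓞 K) * gn p.1.1, fe_ne F p⟩) ⟨?_, ?_⟩, ?_⟩
  · intro p q h
    exact fe_inj F (Subtype.ext_iff.1 h)
  · rintro ⟨a, ha⟩
    obtain ⟨p, hp⟩ := fe_surj F ha
    exact ⟨p, Subtype.ext hp⟩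
  · intro p
    rfl

theorem un_tsum (F : Fld s κ τ b b') {g : 𝓞 K → ℂ} (h0 : g 0 = 0)
    (hu : ∀ (a : 𝓞 K) (u : (𝓞 K)ˣ), g (u * a) = g a) :
    (Summable (fun a : 𝓞 K => ‖g a‖) ↔ Summable (fun 𝔞 : NI K => ‖g (gn 𝔞.1)‖)) ∧
      ∑' a : 𝓞 K, g a = (Nat.card (𝓞 K)ˣ : ℂ) * ∑' 𝔞 : NI K, g (gn 𝔞.1) := by
  have hfin : Finite (𝓞 K)ˣ := units_finite F
  have hinj := fe_inj F
  have hrange : ∀ a : 𝓞 K, a ∉ Set.range (fun p : NI K × (𝓞 K)ˣ => (p.2 : 𝓞 K) * gn p.1.1) →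
      a = 0 := by
    intro a ha
    by_contra hne
    exact ha (fe_surj F hne)
  have hval : ∀ p : NI K × (𝓞 K)ˣ, g ((p.2 : 𝓞 K) * gn p.1.1) = g (gn p.1.1) :=
    fun p => hu _ _
  have hiff : Summable (fun a : 𝓞 K => ‖g a‖) ↔ Summable (fun 𝔞 : NI K => ‖g (gn 𝔞.1)‖) := by
    have h1 : Summable (fun a : 𝓞 K => ‖g a‖) ↔
        Summable (fun p : NI K × (𝓞 K)ˣ => ‖g (gn p.1.1)‖) := by
      have h2 := hinj.summable_iff (f := fun a : 𝓞 K => ‖g a‖) (fun a ha => by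
        rw [hrange a ha, h0, norm_zero])
      rw [← h2]
      refine summable_congr fun p => ?_
      simp only [Function.comp_apply]
      rw [hval]
    rw [h1]
    constructor
    · intro h
      have h3 : Function.Injective (fun 𝔞 : NI K => ((𝔞, 1) : NI K × (𝓞 K)ˣ)) :=
        fun a b hab => (Prod.ext_iff.1 hab).1
      exact h.comp_injective h3
    · intro h
      have h4 : Summable (fun _ : (𝓞 K)ˣ => (1 : ℝ)) := Summable.of_finite
      have h5 := h.mul_of_nonneg h4 (fun _ => norm_nonneg _) (fun _ => zero_le_one)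
      refine h5.congr fun p => ?_
      rw [mul_one]
  refine ⟨hiff, ?_⟩
  have h6 : ∑' a : 𝓞 K, g a = ∑' p : NI K × (𝓞 K)ˣ, g (gn p.1.1) := by
    have h7 := hinj.tsum_eq (f := g) (by
      intro a ha
      by_contra hcon
      rw [Function.mem_support] at ha
      apply ha
      rw [hrange a hcon, h0])
    rw [← h7]
    exact tsum_congr fun p => hval p
  by_cases hs : Summable (fun 𝔞 : NI K => ‖g (gn 𝔞.1)‖)
  · have h8 : Summable (fun p : NI K × (𝓞 K)ˣ => g (gn p.1.1)) := by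
      apply Summable.of_norm
      have h4 : Summable (fun _ : (𝓞 K)ˣ => (1 : ℝ)) := Summable.of_finite
      have h5 := hs.mul_of_nonneg h4 (fun _ => norm_nonneg _) (fun _ => zero_le_one)
      refine h5.congr fun p => ?_
      rw [mul_one]
    rw [h6, h8.tsum_prod, ← tsum_mul_left]
    refine tsum_congr fun 𝔞 => ?_
    simp only
    rw [tsum_const, nsmul_eq_mul]
  · have h9 : ¬ Summable (fun 𝔞 : NI K => g (gn 𝔞.1)) := fun h => hs h.norm
    have h10 : ¬ Summable g := fun h => hs (hiff.1 h.norm)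
    rw [tsum_eq_zero_of_not_summable h9, tsum_eq_zero_of_not_summable h10, mul_zero]

end Pool.Agent.HB
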