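import Pool.Agent.Lib_helper99.HB.Defs
import Pool.Agent.Lib_helper99.HBF.BD
import Pool.Agent.Lib_helper99.HBF.BX
import Pool.Agent.Lib_helper99.HBF.FB
import Pool.Agent.Lib_helper99.HBF.FF
import Pool.Agent.Lib_helper99.HBF.KQ
import Pool.Agent.Lib_helper99.HBF.MM

/-!
# Hardy's theorem over imaginary quadratic fields: block JF
-/

namespace Pool.Agent.HB

open NumberField Complex MeasureTheory
open scoped MatrixGroups ENNReal

variable {K : Type} [Field K] [NumberField K]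
variable {s : 𝓞 K →+* ℂ} {κ : 𝓞 K} {τ : 𝓞 K ≃+* 𝓞 K} {b b' : Fin 2 → 𝓞 K}

open scoped Classical in
/-- the function of one variable -/
noncomputable def jf_g (s : 𝓞 K →+* ℂ) (κ : 𝓞 K) (ν : ℂ) (A : ℝ) (a : 𝓞 K) (y : ℝ) : ℝ :=
  if a = 0 then 0 else
    (y * Kr ν (ca s κ a * y)) ^ 2 / y ^ 3 * Real.exp (-(Real.pi * (A / y)))

theorem jf_g_nonneg (ν : ℂ) (A : ℝ) (a : 𝓞 K) {y : ℝ} (hy : 0 < y) : 0 ≤ jf_g s κ ν A a y := by
  unfold jf_g
  split_ifs
  · exact le_rfl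
  · positivity

theorem jf_g_ae (ν : ℂ) (A : ℝ) (a : 𝓞 K) :
    0 ≤ᵐ[volume.restrict (Set.Ioi (0 : ℝ))] jf_g s κ ν A a := by
  filter_upwards [ae_restrict_mem measurableSet_Ioi] with y hy
  exact jf_g_nonneg ν A a hy

theorem jf_ca (F : Fld s κ τ b b') {a : 𝓞 K} (ha : a ≠ 0) : 0 < ca s κ a := by
  have h1 : 0 < ‖s a‖ := by
    rw [norm_pos_iff]
    exact fun h => ha (F.inj a h)
  have h2 : 0 < ‖s κ‖ := by
    rw [norm_pos_iff]
    exact fun h => F.kap (F.inj κ h)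
  unfold ca
  positivity

theorem jf_g_int (F : Fld s κ τ b b') {ν : ℂ} (hν : Adm ν) {A : ℝ} (hA : 0 < A) (a : 𝓞 K) :
    Integrable (jf_g s κ ν A a) (volume.restrict (Set.Ioi (0 : ℝ))) := by
  by_cases h : a = 0
  · have e : jf_g s κ ν A a = fun _ => 0 := by
      funext y
      unfold jf_g
      rw [if_pos h]
    rw [e]
    exact integrable_zero _ _ _
  · have e : jf_g s κ ν A a = fun y => (y * Kr ν (ca s κ a * y)) ^ 2 / y ^ 3 *
        Real.exp (-(Real.pi * (A / y))) := by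
      funext y
      unfold jf_g
      rw [if_neg h]
    rw [e]
    exact (kQ_scale hν hA (jf_ca F h)).1

theorem jf_g_val (F : Fld s κ τ b b') {ν : ℂ} (hν : Adm ν) {A : ℝ} (hA : 0 < A) {a : 𝓞 K}
    (h : a ≠ 0) : ∫ y in Set.Ioi (0 : ℝ), jf_g s κ ν A a y = kQ ν (A * ca s κ a) := by
  rw [← (kQ_scale hν hA (jf_ca F h)).2]
  apply integral_congr_ae
  apply Filter.Eventually.of_forall
  intro y
  simp only [jf_g, if_neg h]

theorem jf_mk (z : ℂ) {y : ℝ} (hy : 0 < y) : (mk3 z y).1 = (z, y) := by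
  unfold mk3
  rw [dif_pos hy]

theorem jf_exp_meas (A : ℝ) : Measurable (fun P : H3 => Real.exp (-(Real.pi * (A / P.1.2)))) := by
  apply Real.measurable_exp.comp
  have m1 : Measurable (fun P : H3 => P.1.2) := measurable_snd.comp measurable_subtype_coe
  exact ((m1.const_div _).const_mul _).neg

theorem jf_sq (F : Fld s κ τ b b') {ν : ℂ} (hν : Adm ν) {c : 𝓞 K → ℝ} (hc : AF s κ ν c)
    {A : ℝ} (hA : 0 < A) : Summable (fun a : 𝓞 K => c a * c a * kQ ν (A * ca s κ a)) := by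
  classical
  have hcount : Countable (𝓞 K) := by
    obtain ⟨e, _⟩ := four_equiv F
    exact Countable.of_equiv _ e.symm
  obtain ⟨C, hC⟩ := FF_bdd F hν hc hc
  have hC0 : 0 ≤ C := le_trans (norm_nonneg _) (hC ⟨(0, 1), one_pos⟩)
  set Ψ : H3 → ℝ≥0∞ := fun P => ENNReal.ofReal (‖FF s κ ν c c P‖ *
    Real.exp (-(Real.pi * (A / P.1.2)))) with hΨ
  have hΨm : Measurable Ψ :=
    ((FF_cont F hν hc hc).measurable.norm.mul (jf_exp_meas A)).ennreal_ofReal
  have hfin : ∫⁻ P in Box s b, Ψ P ∂mu ≠ ∞ := by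
    have h2 : ∫⁻ P in Box s b, Ψ P ∂mu ≤ ∫⁻ P in Box s b, ENNReal.ofReal C *
        ENNReal.ofReal (Real.exp (-(Real.pi * (A / P.1.2)))) ∂mu := by
      apply lintegral_mono
      intro z
      simp only [hΨ]
      rw [← ENNReal.ofReal_mul hC0]
      apply ENNReal.ofReal_le_ofReal
      exact mul_le_mul_of_nonneg_right (hC z) (Real.exp_pos _).le
    rw [lintegral_const_mul' _ _ ENNReal.ofReal_ne_top, box_exp F hA] at h2
    exact ne_top_of_le_ne_top (ENNReal.mul_ne_top ENNReal.ofReal_ne_top ENNReal.ofReal_ne_top) h2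
  have hdl : 0 < |dl s b| := abs_pos.mpr (dl_ne F)
  -- lower bound for the inner integrals
  have hlow : ∀ y ∈ Set.Ioi (0 : ℝ),
      ∑' a : 𝓞 K, ENNReal.ofReal (|dl s b| * (c a * c a)) * ENNReal.ofReal (jf_g s κ ν A a y) ≤
      ∫⁻ u in Set.Icc (0 : ℝ) 1, ∫⁻ v in Set.Icc (0 : ℝ) 1,
        ENNReal.ofReal (|dl s b| / y ^ 3) * Ψ (mk3 (u * s (b 0) + v * s (b 1)) y) := by
    intro y hy
    have p0 : (0 : ℝ) < y := hy
    set W : ℝ := |dl s b| / y ^ 3 * Real.exp (-(Real.pi * (A / y))) with hW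
    have hW0 : 0 ≤ W := by positivity
    set g : ℝ → ℝ → ℂ := fun u v => FF s κ ν c c (mk3 (u * s (b 0) + v * s (b 1)) y) with hg
    have e1 : ∀ u v : ℝ, ENNReal.ofReal (|dl s b| / y ^ 3) *
        Ψ (mk3 (u * s (b 0) + v * s (b 1)) y) = ENNReal.ofReal W * ‖g u v‖ₑ := by
      intro u v
      simp only [hΨ]
      rw [← ENNReal.ofReal_mul (by positivity), ← ofReal_norm, ← ENNReal.ofReal_mul hW0]
      congr 1
      rw [jf_mk _ p0]
      simp only [hW, hg]
      ring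
    have e2 : ∫⁻ u in Set.Icc (0 : ℝ) 1, ∫⁻ v in Set.Icc (0 : ℝ) 1,
        ENNReal.ofReal (|dl s b| / y ^ 3) * Ψ (mk3 (u * s (b 0) + v * s (b 1)) y) =
        ENNReal.ofReal W * ∫⁻ u in Set.Icc (0 : ℝ) 1, ∫⁻ v in Set.Icc (0 : ℝ) 1, ‖g u v‖ₑ := by
      rw [← lintegral_const_mul' _ _ ENNReal.ofReal_ne_top]
      apply lintegral_congr
      intro u
      rw [← lintegral_const_mul' _ _ ENNReal.ofReal_ne_top]
      apply lintegral_congr
      intro v
      exact e1 u v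
    have e3 : ‖∫ u in Set.Icc (0 : ℝ) 1, ∫ v in Set.Icc (0 : ℝ) 1, g u v‖ₑ ≤
        ∫⁻ u in Set.Icc (0 : ℝ) 1, ∫⁻ v in Set.Icc (0 : ℝ) 1, ‖g u v‖ₑ := by
      refine le_trans (enorm_integral_le_lintegral_enorm _) ?_
      apply lintegral_mono
      intro u
      exact enorm_integral_le_lintegral_enorm _
    obtain ⟨hsum', e4⟩ := box_four F hν hc hc p0
    have hsum : Summable (fun a : 𝓞 K => c a * c a * (y * Kr ν (ca s κ a * y)) ^ 2) := by
      refine hsum'.congr fun a => ?_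
      rw [abs_of_nonneg (mul_self_nonneg _)]
    rw [e2]
    refine le_trans ?_ (mul_le_mul_right e3 (ENNReal.ofReal W))
    simp only [hg]
    have habs : |∑' a : 𝓞 K, c a * c a * (y * Kr ν (ca s κ a * y)) ^ 2| =
        ∑' a : 𝓞 K, c a * c a * (y * Kr ν (ca s κ a * y)) ^ 2 :=
      abs_of_nonneg (tsum_nonneg fun a => mul_nonneg (mul_self_nonneg _) (sq_nonneg _))
    rw [e4, ← ofReal_norm, Complex.norm_real, Real.norm_eq_abs, habs,
      ← ENNReal.ofReal_mul hW0, ← tsum_mul_left, ENNReal.ofReal_tsum_of_nonneg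
      (fun a => mul_nonneg hW0 (mul_nonneg (mul_self_nonneg _) (sq_nonneg _)))
      (hsum.mul_left W)]
    apply ENNReal.tsum_le_tsum
    intro a
    rw [← ENNReal.ofReal_mul (mul_nonneg hdl.le (mul_self_nonneg _))]
    apply ENNReal.ofReal_le_ofReal
    apply le_of_eq
    unfold jf_g
    by_cases ha : a = 0
    · rw [if_pos ha, ha, hc.zero]
      ring
    · rw [if_neg ha, hW]
      ring
  have hbox := box_lint F hΨm
  have hle : ∫⁻ y in Set.Ioi (0 : ℝ),
      ∑' a : 𝓞 K, ENNReal.ofReal (|dl s b| * (c a * c a)) * ENNReal.ofReal (jf_g s κ ν A a y) ≤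
      ∫⁻ P in Box s b, Ψ P ∂mu := by
    rw [hbox]
    apply setLIntegral_mono' measurableSet_Ioi
    intro y hy
    exact hlow y hy
  have m0 : ∀ a, AEMeasurable (fun y => ENNReal.ofReal (jf_g s κ ν A a y))
      (volume.restrict (Set.Ioi (0 : ℝ))) := fun a =>
    (jf_g_int F hν hA a).aemeasurable.ennreal_ofReal
  have v0 : ∀ a, ∫⁻ y in Set.Ioi (0 : ℝ), ENNReal.ofReal (jf_g s κ ν A a y) =
      ENNReal.ofReal (∫ y in Set.Ioi (0 : ℝ), jf_g s κ ν A a y) := fun a =>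
    (ofReal_integral_eq_lintegral_ofReal (jf_g_int F hν hA a) (jf_g_ae ν A a)).symm
  have i2 : ∫⁻ y in Set.Ioi (0 : ℝ),
      ∑' a : 𝓞 K, ENNReal.ofReal (|dl s b| * (c a * c a)) * ENNReal.ofReal (jf_g s κ ν A a y) =
      ∑' a : 𝓞 K, ENNReal.ofReal (|dl s b| * (c a * c a) *
        ∫ y in Set.Ioi (0 : ℝ), jf_g s κ ν A a y) := by
    rw [lintegral_tsum (fun a => (m0 a).const_mul _)]
    refine tsum_congr fun a => ?_
    rw [lintegral_const_mul' _ _ ENNReal.ofReal_ne_top, v0]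
    rw [← ENNReal.ofReal_mul (mul_nonneg hdl.le (mul_self_nonneg _))]
  rw [i2] at hle
  have hne := ne_top_of_le_ne_top hfin hle
  have hS := ENNReal.summable_toReal hne
  have hS2 : Summable (fun a : 𝓞 K => |dl s b| * (c a * c a * kQ ν (A * ca s κ a))) := by
    refine hS.congr fun a => ?_
    have n0 : 0 ≤ ∫ y in Set.Ioi (0 : ℝ), jf_g s κ ν A a y :=
      integral_nonneg_of_ae (jf_g_ae ν A a)
    rw [ENNReal.toReal_ofReal (mul_nonneg (mul_nonneg hdl.le (mul_self_nonneg _)) n0)]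
    by_cases ha : a = 0
    · rw [ha, hc.zero]
      ring
    · rw [jf_g_val F hν hA ha]
      ring
  have hS3 := hS2.mul_left (|dl s b|)⁻¹
  refine hS3.congr fun a => ?_
  rw [← mul_assoc, inv_mul_cancel₀ hdl.ne', one_mul]

theorem jform (F : Fld s κ τ b b') {ν : ℂ} (hν : Adm ν) {c c' : 𝓞 K → ℝ} (hc : AF s κ ν c)
    (hc' : AF s κ ν c') {A : ℝ} (hA : 0 < A) :
    Summable (fun a : 𝓞 K => |c a * c' a| * kQ ν (A * ca s κ a)) ∧
    IntegrableOn (fun P : H3 => FF s κ ν c c' P *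
      ((Real.exp (-(Real.pi * (A / P.1.2))) : ℝ) : ℂ)) (Box s b) mu ∧
    ∫ P in Box s b, FF s κ ν c c' P * ((Real.exp (-(Real.pi * (A / P.1.2))) : ℝ) : ℂ) ∂mu =
      ((|dl s b| * ∑' a : 𝓞 K, c a * c' a * kQ ν (A * ca s κ a) : ℝ) : ℂ) := by
  classical
  have hcount : Countable (𝓞 K) := by
    obtain ⟨e, _⟩ := four_equiv F
    exact Countable.of_equiv _ e.symm
  have hsum : Summable (fun a : 𝓞 K => |c a * c' a| * kQ ν (A * ca s κ a)) := by
    have e1 := jf_sq F hν hc hA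
    have e2 := jf_sq F hν hc' hA
    refine Summable.of_nonneg_of_le (fun a => mul_nonneg (abs_nonneg _)
      (kQ_nonneg _ _)) (fun a => ?_) (e1.add e2)
    have e3 : |c a * c' a| ≤ c a * c a + c' a * c' a := by
      rw [abs_le]
      constructor <;> nlinarith [sq_nonneg (c a - c' a), sq_nonneg (c a + c' a),
        mul_self_nonneg (c a), mul_self_nonneg (c' a)]
    calc |c a * c' a| * kQ ν (A * ca s κ a)
        ≤ (c a * c a + c' a * c' a) * kQ ν (A * ca s κ a) :=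
          mul_le_mul_of_nonneg_right e3 (kQ_nonneg _ _)
      _ = _ := by ring
  obtain ⟨C, hC⟩ := FF_bdd F hν hc hc'
  have hexpi : Integrable (fun P : H3 =>
      Real.exp (-(Real.pi * (A / P.1.2)))) (mu.restrict (Box s b)) := by
    refine ⟨(jf_exp_meas A).aestronglyMeasurable, ?_⟩
    rw [hasFiniteIntegral_iff_ofReal (Filter.Eventually.of_forall fun z => (Real.exp_pos _).le),
      box_exp F hA]
    exact ENNReal.ofReal_lt_top
  have hint : IntegrableOn (fun P : H3 => FF s κ ν c c' P *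
      ((Real.exp (-(Real.pi * (A / P.1.2))) : ℝ) : ℂ)) (Box s b) mu := by
    have hG : Measurable (FF s κ ν c c') := (FF_cont F hν hc hc').measurable
    exact hexpi.ofReal.bdd_mul hG.aestronglyMeasurable (Filter.Eventually.of_forall hC)
  refine ⟨hsum, hint, ?_⟩
  rw [box_int F hint]
  have hin : ∀ y ∈ Set.Ioi (0 : ℝ),
      ∫ u in Set.Icc (0 : ℝ) 1, ∫ v in Set.Icc (0 : ℝ) 1,
        ((|dl s b| / y ^ 3 : ℝ) : ℂ) * (FF s κ ν c c' (mk3 (u * s (b 0) + v * s (b 1)) y) *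
          ((Real.exp (-(Real.pi * (A / (mk3 (u * s (b 0) + v * s (b 1)) y).1.2))) : ℝ) : ℂ)) =
      ∑' a : 𝓞 K, ((|dl s b| * (c a * c' a) : ℝ) : ℂ) * ((jf_g s κ ν A a y : ℝ) : ℂ) := by
    intro y hy
    have p0 : (0 : ℝ) < y := hy
    set W : ℝ := |dl s b| / y ^ 3 * Real.exp (-(Real.pi * (A / y))) with hW
    have e1 : ∀ u v : ℝ, ((|dl s b| / y ^ 3 : ℝ) : ℂ) *
        (FF s κ ν c c' (mk3 (u * s (b 0) + v * s (b 1)) y) *
          ((Real.exp (-(Real.pi * (A / (mk3 (u * s (b 0) + v * s (b 1)) y).1.2))) : ℝ) : ℂ)) =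
        (W : ℂ) * FF s κ ν c c' (mk3 (u * s (b 0) + v * s (b 1)) y) := by
      intro u v
      rw [jf_mk _ p0]
      simp only [hW]
      push_cast
      ring
    simp only [e1]
    simp only [integral_const_mul]
    rw [(box_four F hν hc hc' p0).2, Complex.ofReal_tsum, ← tsum_mul_left]
    refine tsum_congr fun a => ?_
    rw [← Complex.ofReal_mul, ← Complex.ofReal_mul]
    congr 1
    unfold jf_g
    by_cases ha : a = 0
    · rw [if_pos ha, ha, hc.zero]
      ring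
    · rw [if_neg ha, hW]
      ring
  rw [setIntegral_congr_fun measurableSet_Ioi hin]
  have f1 : ∀ a : 𝓞 K, Integrable (fun y => ((|dl s b| * (c a * c' a) : ℝ) : ℂ) *
      ((jf_g s κ ν A a y : ℝ) : ℂ)) (volume.restrict (Set.Ioi (0 : ℝ))) :=
    fun a => ((jf_g_int F hν hA a).ofReal).const_mul _
  have f2 : ∀ a : 𝓞 K, ∫ y in Set.Ioi (0 : ℝ), ‖((|dl s b| * (c a * c' a) : ℝ) : ℂ) *
      ((jf_g s κ ν A a y : ℝ) : ℂ)‖ = |dl s b| * (|c a * c' a| * kQ ν (A * ca s κ a)) := by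
    intro a
    have e : ∀ᵐ y ∂(volume.restrict (Set.Ioi (0 : ℝ))), ‖((|dl s b| * (c a * c' a) : ℝ) : ℂ) *
        ((jf_g s κ ν A a y : ℝ) : ℂ)‖ = (|dl s b| * |c a * c' a|) * jf_g s κ ν A a y := by
      filter_upwards [jf_g_ae (s := s) (κ := κ) ν A a] with y hy
      rw [norm_mul, Complex.norm_real, Complex.norm_real, Real.norm_eq_abs,
        Real.norm_eq_abs, abs_of_nonneg hy, abs_mul, abs_abs]
    rw [integral_congr_ae e, integral_const_mul]
    by_cases ha : a = 0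
    · rw [ha, hc.zero]
      simp
    · rw [jf_g_val F hν hA ha]
      ring
  have f3 : Summable (fun a : 𝓞 K => ∫ y in Set.Ioi (0 : ℝ), ‖((|dl s b| * (c a * c' a) : ℝ) : ℂ) *
      ((jf_g s κ ν A a y : ℝ) : ℂ)‖) := by
    refine (hsum.mul_left |dl s b|).congr fun a => ?_
    rw [f2]
  rw [← integral_tsum_of_summable_integral_norm f1 f3, ← tsum_mul_left, Complex.ofReal_tsum]
  refine tsum_congr fun a => ?_
  rw [integral_const_mul]
  have e5 : ∫ y in Set.Ioi (0 : ℝ), ((jf_g s κ ν A a y : ℝ) : ℂ) =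
      ((∫ y in Set.Ioi (0 : ℝ), jf_g s κ ν A a y : ℝ) : ℂ) := integral_ofReal
  rw [e5, ← Complex.ofReal_mul]
  congr 1
  by_cases ha : a = 0
  · rw [ha, hc.zero]
    ring
  · rw [jf_g_val F hν hA ha]
    ring

end Pool.Agent.HB
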