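import Pool.Agent.Lib_helper99.HB.Defs
import Pool.Agent.Lib_helper99.HBF.FB
import Pool.Agent.Lib_helper99.HBF.FF
import Pool.Agent.Lib_helper99.HBF.JF
import Pool.Agent.Lib_helper99.HBF.KQ
import Pool.Agent.Lib_helper99.HBF.MM

/-! HB block JT: the integral `J(t)` as a sum over ideals and integers. -/

namespace Pool.Agent.HB

open NumberField Complex MeasureTheory
open scoped MatrixGroups ENNReal
open Pool.Agent.H4 (NI PI Hek blw Spl Inr tt uu p4 hh PP ml atl FunBd vcf)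

variable {K : Type} [Field K] [NumberField K]
variable {s : 𝓞 K →+* ℂ} {κ : 𝓞 K} {τ : 𝓞 K ≃+* 𝓞 K} {b b' : Fin 2 → 𝓞 K}

theorem jt_countable (F : Fld s κ τ b b') : Countable (NI K) := by
  obtain ⟨e, _⟩ := four_equiv F
  have hc : Countable (𝓞 K) := e.injective.countable
  apply Function.Injective.countable (f := fun I : NI K => gn I.1)
  intro I J h
  have h1 := (gn_spec F I.1).1
  have h2 := (gn_spec F J.1).1
  have h3 : gn I.1 = gn J.1 := h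
  apply Subtype.ext
  rw [h1, h2, h3]

/-- the exponential factor -/
noncomputable def jt_f (A : ℝ) (P : H3) : ℝ :=
  Real.exp (-(Real.pi * (A / P.1.2)))

theorem jt_f_pos (A : ℝ) (P : H3) : 0 < jt_f A P := Real.exp_pos _

theorem jt_f_meas (A : ℝ) : Measurable (jt_f A) := by
  unfold jt_f
  apply Real.measurable_exp.comp
  have m1 : Measurable (fun P : H3 => P.1.2) := measurable_snd.comp measurable_subtype_coe
  exact ((m1.const_div _).const_mul _).neg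

theorem jt_f_int (F : Fld s κ τ b b') {A : ℝ} (h0 : 0 < A) :
    Integrable (jt_f A) (mu.restrict (Box s b)) := by
  refine ⟨(jt_f_meas A).aestronglyMeasurable, ?_⟩
  rw [hasFiniteIntegral_iff_ofReal (Filter.Eventually.of_forall fun z => (jt_f_pos _ _).le)]
  have := box_exp F h0
  unfold jt_f
  rw [this]
  exact ENNReal.ofReal_lt_top

/-- the terms of `bt` -/
theorem jt_bt (t : ℝ) (P : H3) : bt K t P = ∑' 𝔞 : NI K,
    ENNReal.ofReal (jt_f (t * (Ideal.absNorm 𝔞.1 : ℝ)) P) := rfl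

theorem jt_bt_real (t : ℝ) (P : H3) : (bt K t P).toReal = ∑' 𝔞 : NI K,
    jt_f (t * (Ideal.absNorm 𝔞.1 : ℝ)) P := by
  rw [jt_bt, ENNReal.tsum_toReal_eq (fun _ => ENNReal.ofReal_ne_top)]
  refine tsum_congr fun 𝔞 => ?_
  rw [ENNReal.toReal_ofReal (jt_f_pos _ _).le]

theorem jt_A {t : ℝ} (ht : 0 < t) (𝔞 : NI K) :
    0 < t * (Ideal.absNorm 𝔞.1 : ℝ) := by
  have h : Ideal.absNorm 𝔞.1 ≠ 0 := by
    rw [Ne, Ideal.absNorm_eq_zero_iff]
    exact 𝔞.2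
  have : (0 : ℝ) < (Ideal.absNorm 𝔞.1 : ℝ) := by exact_mod_cast Nat.pos_of_ne_zero h
  positivity

theorem jt_f_sum (F : Fld s κ τ b b') {t : ℝ} (ht : 0 < t) :
    Summable (fun 𝔞 : NI K => ∫ P in Box s b,
      jt_f (t * (Ideal.absNorm 𝔞.1 : ℝ)) P ∂mu) := by
  have hcount := jt_countable F
  have h3 := (bt_box F ht).ne
  have e1 : ∫⁻ P in Box s b, bt K t P ∂mu = ∑' 𝔞 : NI K, ∫⁻ P in Box s b, ENNReal.ofReal
      (jt_f (t * (Ideal.absNorm 𝔞.1 : ℝ)) P) ∂mu := by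
    rw [← lintegral_tsum (fun 𝔞 => (jt_f_meas _).ennreal_ofReal.aemeasurable)]
    rfl
  rw [e1] at h3
  have h4 := ENNReal.summable_toReal h3
  refine h4.congr fun 𝔞 => ?_
  have p0 := jt_A ht 𝔞
  rw [← ofReal_integral_eq_lintegral_ofReal (jt_f_int F p0)
    (Filter.Eventually.of_forall fun z => (jt_f_pos _ _).le),
    ENNReal.toReal_ofReal (integral_nonneg fun z => (jt_f_pos _ _).le)]

theorem jt_FF_int (F : Fld s κ τ b b') {ν : ℂ} (hν : Adm ν) {c c' : 𝓞 K → ℝ}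
    (hc : AF s κ ν c) (hc' : AF s κ ν c') {A : ℝ} (h0 : 0 < A) :
    Integrable (fun P => FF s κ ν c c' P * ((jt_f A P : ℝ) : ℂ))
      (mu.restrict (Box s b)) := by
  obtain ⟨C, hC⟩ := FF_bdd F hν hc hc'
  have hG : Measurable (FF s κ ν c c') := (FF_cont F hν hc hc').measurable
  exact (jt_f_int F h0).ofReal.bdd_mul hG.aestronglyMeasurable
    (Filter.Eventually.of_forall hC)

theorem jt_FF_norm (F : Fld s κ τ b b') {ν : ℂ} (hν : Adm ν) {c c' : 𝓞 K → ℝ}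
    (hc : AF s κ ν c) (hc' : AF s κ ν c') : ∃ C : ℝ, 0 ≤ C ∧ ∀ A : ℝ, 0 < A →
      ∫ P in Box s b, ‖FF s κ ν c c' P * ((jt_f A P : ℝ) : ℂ)‖ ∂mu ≤
        C * ∫ P in Box s b, jt_f A P ∂mu := by
  obtain ⟨C, hC⟩ := FF_bdd F hν hc hc'
  have hC0 : 0 ≤ C := le_trans (norm_nonneg _) (hC ⟨(0, 1), one_pos⟩)
  refine ⟨C, hC0, fun A h0 => ?_⟩
  rw [← integral_const_mul]
  apply integral_mono (jt_FF_int F hν hc hc' h0).norm ((jt_f_int F h0).const_mul C)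
  intro z
  simp only
  rw [norm_mul, Complex.norm_real, Real.norm_eq_abs, abs_of_pos (jt_f_pos _ _)]
  exact mul_le_mul_of_nonneg_right (hC z) (jt_f_pos _ _).le

theorem jt_dl (F : Fld s κ τ b b') : 0 < |dl s b| := abs_pos.mpr (dl_ne F)

/-- summability over the ideals `𝔞` of the diagonal sums -/
theorem jt_sq (F : Fld s κ τ b b') {ν : ℂ} (hν : Adm ν) {c : 𝓞 K → ℝ} (hc : AF s κ ν c)
    {t : ℝ} (ht : 0 < t) :
    Summable (fun 𝔞 : NI K => ∑' a : 𝓞 K, c a * c a *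
      kQ ν (t * (Ideal.absNorm 𝔞.1 : ℝ) * ca s κ a)) := by
  obtain ⟨C, hC0, hC⟩ := jt_FF_norm F hν hc hc
  have hd := jt_dl F
  refine Summable.of_nonneg_of_le (fun 𝔞 => tsum_nonneg fun a => mul_nonneg (mul_self_nonneg _)
    (kQ_nonneg _ _)) (fun 𝔞 => ?_)
    ((jt_f_sum F ht).mul_left (|dl s b|⁻¹ * C))
  have p0 := jt_A ht 𝔞
  have e1 := (jform F hν hc hc p0).2.2
  have e2 := hC _ p0
  have e3 := norm_integral_le_integral_norm (μ := mu.restrict (Box s b))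
    (fun P => FF s κ ν c c P *
      ((jt_f (t * (Ideal.absNorm 𝔞.1 : ℝ)) P : ℝ) : ℂ))
  have e4 : ∫ P in Box s b, FF s κ ν c c P *
      ((jt_f (t * (Ideal.absNorm 𝔞.1 : ℝ)) P : ℝ) : ℂ) ∂mu =
      ((|dl s b| * ∑' a : 𝓞 K, c a * c a *
        kQ ν (t * (Ideal.absNorm 𝔞.1 : ℝ) * ca s κ a) : ℝ) : ℂ) := e1
  rw [e4, Complex.norm_real, Real.norm_eq_abs, abs_of_nonneg (mul_nonneg hd.le
    (tsum_nonneg fun a => mul_nonneg (mul_self_nonneg _) (kQ_nonneg _ _)))] at e3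
  have e5 := le_trans e3 e2
  have e6 := mul_le_mul_of_nonneg_left e5 (inv_nonneg.mpr hd.le)
  rw [← mul_assoc, inv_mul_cancel₀ hd.ne', one_mul] at e6
  calc _ ≤ _ := e6
    _ = _ := by ring

theorem jt_form (F : Fld s κ τ b b') {ν : ℂ} (hν : Adm ν) {c c' : 𝓞 K → ℝ} (hc : AF s κ ν c)
    (hc' : AF s κ ν c') {t : ℝ} (ht : 0 < t) :
    Summable (fun p : NI K × 𝓞 K => |c p.2 * c' p.2| *
      kQ ν (t * ((Ideal.absNorm p.1.1 : ℝ) * ca s κ p.2))) ∧
    Jt s κ b ν c c' t = ((|dl s b| * ∑' p : NI K × 𝓞 K, c p.2 * c' p.2 *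
      kQ ν (t * ((Ideal.absNorm p.1.1 : ℝ) * ca s κ p.2)) : ℝ) : ℂ) := by
  have hcount := jt_countable F
  have hd := jt_dl F
  obtain ⟨C, hC0, hC⟩ := jt_FF_norm F hν hc hc'
  set P : NI K → ℝ := fun 𝔞 => t * (Ideal.absNorm 𝔞.1 : ℝ) with hP
  have hPQ : ∀ 𝔞, 0 < P 𝔞 := fun 𝔞 => jt_A ht 𝔞
  have hass : ∀ p : NI K × 𝓞 K, t * ((Ideal.absNorm p.1.1 : ℝ) * ca s κ p.2) =
      P p.1 * ca s κ p.2 := by
    intro p
    simp only [hP]
    ring
  -- summability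
  have s3 : Summable (fun p : NI K × 𝓞 K => |c p.2 * c' p.2| *
      kQ ν (P p.1 * ca s κ p.2)) := by
    rw [summable_prod_of_nonneg (fun r => mul_nonneg (abs_nonneg _) (kQ_nonneg _ _))]
    refine ⟨fun 𝔞 => (jform F hν hc hc' (hPQ 𝔞)).1, ?_⟩
    refine Summable.of_nonneg_of_le (fun 𝔞 => tsum_nonneg fun a => mul_nonneg (abs_nonneg _)
      (kQ_nonneg _ _)) (fun 𝔞 => ?_)
      ((jt_sq F hν hc ht).add (jt_sq F hν hc' ht))
    have g0 := (jform F hν hc hc' (hPQ 𝔞)).1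
    have g1 := (jform F hν hc hc (hPQ 𝔞)).1
    have g2 := (jform F hν hc' hc' (hPQ 𝔞)).1
    have g1' : Summable (fun a : 𝓞 K => c a * c a * kQ ν (P 𝔞 * ca s κ a)) := by
      refine g1.congr fun a => ?_
      rw [abs_of_nonneg (mul_self_nonneg _)]
    have g2' : Summable (fun a : 𝓞 K => c' a * c' a * kQ ν (P 𝔞 * ca s κ a)) := by
      refine g2.congr fun a => ?_
      rw [abs_of_nonneg (mul_self_nonneg _)]
    have g3 : (∑' a : 𝓞 K, c a * c a * kQ ν (t * (Ideal.absNorm 𝔞.1 : ℝ) * ca s κ a)) +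
        (∑' a : 𝓞 K, c' a * c' a * kQ ν (t * (Ideal.absNorm 𝔞.1 : ℝ) * ca s κ a)) =
        ∑' a : 𝓞 K, (c a * c a * kQ ν (P 𝔞 * ca s κ a) +
          c' a * c' a * kQ ν (P 𝔞 * ca s κ a)) := (g1'.tsum_add g2').symm
    rw [g3]
    refine g0.tsum_le_tsum (fun a => ?_) (g1'.add g2')
    have e3 : |c a * c' a| ≤ c a * c a + c' a * c' a := by
      rw [abs_le]
      constructor <;> nlinarith [sq_nonneg (c a - c' a), sq_nonneg (c a + c' a),
        mul_self_nonneg (c a), mul_self_nonneg (c' a)]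
    calc |c a * c' a| * kQ ν (P 𝔞 * ca s κ a)
        ≤ (c a * c a + c' a * c' a) * kQ ν (P 𝔞 * ca s κ a) :=
          mul_le_mul_of_nonneg_right e3 (kQ_nonneg _ _)
      _ = _ := by ring
  refine ⟨s3.congr fun p => by rw [hass p], ?_⟩
  -- step 1: sum over the ideals
  have s1 : Jt s κ b ν c c' t =
      ∑' 𝔞 : NI K, ∫ z in Box s b, FF s κ ν c c' z * ((jt_f (P 𝔞) z : ℝ) : ℂ) ∂mu := by
    unfold Jt
    rw [integral_tsum_of_summable_integral_norm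
      (fun 𝔞 => jt_FF_int F hν hc hc' (hPQ 𝔞))]
    · congr 1
      funext z
      rw [jt_bt_real, Complex.ofReal_tsum, tsum_mul_left]
    · refine Summable.of_nonneg_of_le (fun 𝔞 => integral_nonneg fun z => norm_nonneg _)
        (fun 𝔞 => hC _ (hPQ 𝔞)) ((jt_f_sum F ht).mul_left C)
  -- step 2: each integral
  have s2 : ∀ 𝔞 : NI K, ∫ z in Box s b, FF s κ ν c c' z * ((jt_f (P 𝔞) z : ℝ) : ℂ) ∂mu =
      ((∑' a : 𝓞 K, |dl s b| * (c a * c' a * kQ ν (P 𝔞 * ca s κ a)) : ℝ) : ℂ) := by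
    intro 𝔞
    rw [tsum_mul_left]
    exact (jform F hν hc hc' (hPQ 𝔞)).2.2
  have s4 : Summable (fun p : NI K × 𝓞 K => |dl s b| * (c p.2 * c' p.2 *
      kQ ν (P p.1 * ca s κ p.2))) := by
    apply Summable.mul_left
    apply Summable.of_norm
    refine s3.congr fun p => ?_
    rw [Real.norm_eq_abs, abs_mul (c p.2 * c' p.2), abs_of_nonneg (kQ_nonneg _ _)]
  rw [s1, tsum_congr s2, ← Complex.ofReal_tsum, ← s4.tsum_prod, tsum_mul_left]
  congr 2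
  refine tsum_congr fun p => ?_
  rw [hass p]

end Pool.Agent.HB
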