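import Pool.Agent.Lib_helper41.HZF.UNF1
import Pool.Agent.Lib_helper98.H4F.FB
import Pool.Agent.Lib_helper99.HB.Defs
import Pool.Agent.Lib_helper99.HBF.BD
import Pool.Agent.Lib_helper99.HBF.FB
import Pool.Agent.Lib_helper99.HBF.FE
import Pool.Agent.Lib_helper99.HBF.JT
import Pool.Agent.Lib_helper99.HBF.KQ
import Pool.Agent.Lib_helper99.HBF.LS

/-!
# HB, block MT: the Mellin transform of `J`
-/

namespace Pool.Agent.HB

open NumberField Complex MeasureTheory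
open scoped MatrixGroups ENNReal
open Pool.Agent.H4 (NI PI Hek blw Spl Inr tt uu p4 hh PP ml atl FunBd vcf)

variable {K : Type} [Field K] [NumberField K]
variable {s : 𝓞 K →+* ℂ} {κ : 𝓞 K} {τ : 𝓞 K ≃+* 𝓞 K} {b b' : Fin 2 → 𝓞 K}

theorem mt_cpow {x : ℝ} (hx : 0 < x) (z : ℂ) : (x : ℂ) ^ z = cexp ((Real.log x : ℂ) * z) := by
  rw [Complex.cpow_def_of_ne_zero (by exact_mod_cast hx.ne'), Complex.ofReal_log hx.le]

theorem mt_countable (F : Fld s κ τ b b') : Countable (NI K) := by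
  have := Pool.Agent.H4.countable_int (K := K)
  refine Function.Injective.countable (f := fun 𝔞 : NI K => gn 𝔞.1) fun 𝔞 𝔟 h => ?_
  apply Subtype.ext
  rw [(gn_spec F 𝔞.1).1, (gn_spec F 𝔟.1).1]
  simp only at h
  rw [h]

theorem mt_gn_ne (F : Fld s κ τ b b') (𝔞 : NI K) : gn 𝔞.1 ≠ 0 := (gn_spec F 𝔞.1).2.1 𝔞.2

theorem mt_kne (F : Fld s κ τ b b') : s κ ≠ 0 := fun h => F.kap (F.inj κ h)

theorem mt_kpos (F : Fld s κ τ b b') : 0 < ‖s κ‖ := norm_pos_iff.2 (mt_kne F)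

theorem mt_Npos (F : Fld s κ τ b b') (𝔞 : NI K) : 0 < (Ideal.absNorm 𝔞.1 : ℝ) := by
  rw [(gn_spec F 𝔞.1).2.2]
  exact normSq_pos.2 fun h => mt_gn_ne F 𝔞 (F.inj _ h)

theorem mt_capos (F : Fld s κ τ b b') {a : 𝓞 K} (ha : a ≠ 0) : 0 < ca s κ a := by
  unfold ca
  have h1 : 0 < ‖s a‖ := norm_pos_iff.2 fun h => ha (F.inj a h)
  have h2 := mt_kpos F
  have := Real.pi_pos
  positivity

theorem mt_ca_gn (F : Fld s κ τ b b') (𝔞 : NI K) (w : ℂ) :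
    ((ca s κ (gn 𝔞.1) : ℝ) : ℂ) ^ (-(2 * w)) =
      ((16 * Real.pi ^ 2 / DD s κ : ℝ) : ℂ) ^ (-w) * (Ideal.absNorm 𝔞.1 : ℂ) ^ (-w) := by
  have hN := mt_Npos F 𝔞
  have hD := DD_pos F
  have hπ := Real.pi_pos
  have h1 : ca s κ (gn 𝔞.1) ^ 2 = 16 * Real.pi ^ 2 / DD s κ * (Ideal.absNorm 𝔞.1 : ℝ) := by
    unfold ca DD
    rw [(gn_spec F 𝔞.1).2.2, Complex.normSq_eq_norm_sq, Complex.normSq_eq_norm_sq]
    have := mt_kpos F
    field_simp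
    ring
  have h2 := mt_capos F (mt_gn_ne F 𝔞)
  have h3 : 2 * Real.log (ca s κ (gn 𝔞.1)) = Real.log (16 * Real.pi ^ 2 / DD s κ) +
      Real.log (Ideal.absNorm 𝔞.1 : ℝ) := by
    rw [← Real.log_mul (by positivity) hN.ne', ← h1, Real.log_pow]
    push_cast
    ring
  have h4 : (Ideal.absNorm 𝔞.1 : ℂ) = (((Ideal.absNorm 𝔞.1 : ℝ) : ℝ) : ℂ) := by push_cast; rfl
  rw [h4, mt_cpow h2, mt_cpow hN, mt_cpow (by positivity), ← Complex.exp_add]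
  congr 1
  have h5 : (2 : ℂ) * ((Real.log (ca s κ (gn 𝔞.1)) : ℝ) : ℂ) =
      ((Real.log (16 * Real.pi ^ 2 / DD s κ) : ℝ) : ℂ) +
      ((Real.log (Ideal.absNorm 𝔞.1 : ℝ) : ℝ) : ℂ) := by
    exact_mod_cast h3
  linear_combination (-w) * h5

/-- the Mellin transform of `kQ (t L)` -/
theorem mt_scale {ν : ℂ} (hν : Adm ν) {L : ℝ} (hL : 0 < L) {w : ℂ} (hw : 1 < w.re) :
    IntegrableOn (fun t : ℝ => t ^ (2 * w.re - 1) * kQ ν (t * L)) (Set.Ioi 0) ∧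
    ∫ t in Set.Ioi (0 : ℝ), (t : ℂ) ^ (2 * w - 1) * ((kQ ν (t * L) : ℝ) : ℂ) =
      (L : ℂ) ^ (-(2 * w)) * ((Real.pi : ℂ) ^ (-(2 * w)) * (2 : ℂ) ^ (2 * w - 3) *
        (Gamma w ^ 2 * (Gamma (w + ν) * Gamma (w - ν)))) := by
  have h2w : 2 < (2 * w).re := by simp; linarith
  obtain ⟨h1, h2⟩ := kQ_mellin hν h2w
  have e1 : 2 * w / 2 = w := by ring
  rw [e1] at h2
  have e2 : (2 * w).re = 2 * w.re := by simp
  rw [e2] at h1
  constructor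
  · have h3 := (integrableOn_Ioi_comp_mul_right_iff
      (fun B : ℝ => B ^ (2 * w.re - 1) * kQ ν B) 0 hL).2 (by rw [zero_mul]; exact h1)
    refine IntegrableOn.congr_fun (h3.const_mul ((L ^ (2 * w.re - 1))⁻¹)) (fun t ht => ?_)
      measurableSet_Ioi
    have ht0 : (0 : ℝ) < t := ht
    rw [Real.mul_rpow ht0.le hL.le]
    have : L ^ (2 * w.re - 1) ≠ 0 := (Real.rpow_pos_of_pos hL _).ne'
    field_simp
  · rw [← h2]
    have h3 := integral_comp_mul_right_Ioi' (fun B : ℝ => (B : ℂ) ^ (2 * w - 1) *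
      ((kQ ν B : ℝ) : ℂ)) 0 hL
    rw [zero_mul] at h3
    rw [← h3, Complex.real_smul, ← integral_const_mul, ← integral_const_mul]
    refine setIntegral_congr_fun measurableSet_Ioi fun t ht => ?_
    have ht0 : (0 : ℝ) < t := ht
    rw [mt_cpow (mul_pos ht0 hL), mt_cpow ht0, mt_cpow hL, Real.log_mul ht0.ne' hL.ne']
    have e3 : (L : ℂ) = cexp ((Real.log L : ℝ) : ℂ) := by
      rw [← Complex.ofReal_exp, Real.exp_log hL]
    have e4 : cexp (((Real.log L : ℝ) : ℂ) * (-(2 * w))) * ((L : ℂ) *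
        cexp (((Real.log t + Real.log L : ℝ) : ℂ) * (2 * w - 1))) =
        cexp (((Real.log t : ℝ) : ℂ) * (2 * w - 1)) := by
      nth_rewrite 1 [e3]
      rw [← Complex.exp_add, ← Complex.exp_add]
      congr 1
      push_cast
      ring
    rw [← e4]
    ring

/-- the constant `Q(2w)` -/
noncomputable def mtQ (ν w : ℂ) : ℂ := (Real.pi : ℂ) ^ (-(2 * w)) * (2 : ℂ) ^ (2 * w - 3) *
        (Gamma w ^ 2 * (Gamma (w + ν) * Gamma (w - ν)))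

theorem mt_scale_real {ν : ℂ} (hν : Adm ν) {L : ℝ} (hL : 0 < L) {x : ℝ} (hx : 1 < x) :
    ((∫ t in Set.Ioi (0 : ℝ), t ^ (2 * x - 1) * kQ ν (t * L) : ℝ) : ℂ) =
      ((L ^ (-(2 * x)) : ℝ) : ℂ) * mtQ ν x := by
  have h := (mt_scale hν hL (w := (x : ℂ)) (by simpa using hx)).2
  have h2 : ((L ^ (-(2 * x)) : ℝ) : ℂ) = (L : ℂ) ^ (-(2 * (x : ℂ))) := by
    rw [Complex.ofReal_cpow hL.le]
    push_cast
    rfl
  unfold mtQ
  rw [h2, ← h, ← integral_complex_ofReal]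
  refine setIntegral_congr_fun measurableSet_Ioi fun t ht => ?_
  have ht0 : (0 : ℝ) < t := ht
  rw [Complex.ofReal_mul, Complex.ofReal_cpow ht0.le]
  push_cast
  rfl

theorem mt_scale_norm {ν : ℂ} (hν : Adm ν) {L : ℝ} (hL : 0 < L) {x : ℝ} (hx : 1 < x) :
    ∫ t in Set.Ioi (0 : ℝ), t ^ (2 * x - 1) * kQ ν (t * L) =
      L ^ (-(2 * x)) * ‖mtQ ν x‖ := by
  have h := congrArg norm (mt_scale_real hν hL hx)
  rw [norm_mul, Complex.norm_real, Complex.norm_real, Real.norm_of_nonneg,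
    Real.norm_of_nonneg (Real.rpow_nonneg hL.le _)] at h
  · exact h
  · exact setIntegral_nonneg measurableSet_Ioi fun t ht =>
      mul_nonneg (Real.rpow_nonneg (le_of_lt ht) _) (kQ_nonneg ν _)

/-- the terms of the double series -/
noncomputable def mtT (s : 𝓞 K →+* ℂ) (κ : 𝓞 K) (ν : ℂ) (c c' : 𝓞 K → ℝ) (w : ℂ)
    (p : NI K × 𝓞 K) (t : ℝ) : ℂ :=
  ((c p.2 * c' p.2 : ℝ) : ℂ) * ((t : ℂ) ^ (2 * w - 1) *
    ((kQ ν (t * ((Ideal.absNorm p.1.1 : ℝ) * ca s κ p.2)) : ℝ) : ℂ))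

theorem mtT_zero {ν : ℂ} {c : 𝓞 K → ℝ} (hc : AF s κ ν c) (c' : 𝓞 K → ℝ) (w : ℂ) (𝔞 : NI K)
    (t : ℝ) : mtT s κ ν c c' w (𝔞, 0) t = 0 := by
  unfold mtT
  simp only
  rw [hc.zero, zero_mul]
  simp

theorem mtT_norm {ν : ℂ} (c c' : 𝓞 K → ℝ) (w : ℂ) (p : NI K × 𝓞 K) {t : ℝ} (ht : 0 < t) :
    ‖mtT s κ ν c c' w p t‖ = |c p.2 * c' p.2| * (t ^ (2 * w.re - 1) *
      kQ ν (t * ((Ideal.absNorm p.1.1 : ℝ) * ca s κ p.2))) := by
  unfold mtT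
  rw [norm_mul, norm_mul, Complex.norm_real, Complex.norm_real, Real.norm_eq_abs,
    Complex.norm_cpow_eq_rpow_re_of_pos ht, Real.norm_of_nonneg (kQ_nonneg ν _)]
  simp

theorem mtT_int (F : Fld s κ τ b b') {ν : ℂ} (hν : Adm ν) {c : 𝓞 K → ℝ} (hc : AF s κ ν c)
    (c' : 𝓞 K → ℝ) {w : ℂ} (hw : 1 < w.re) (p : NI K × 𝓞 K) :
    IntegrableOn (mtT s κ ν c c' w p) (Set.Ioi 0) := by
  obtain ⟨𝔞, a⟩ := p
  by_cases ha : a = 0
  · subst ha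
    have : mtT s κ ν c c' w (𝔞, 0) = fun _ => 0 := by
      funext t
      exact mtT_zero hc c' w 𝔞 t
    rw [this]
    exact integrableOn_zero
  · have hL : 0 < (Ideal.absNorm 𝔞.1 : ℝ) * ca s κ a := mul_pos (mt_Npos F 𝔞) (mt_capos F ha)
    have h := (mt_scale hν hL hw).1
    have hm : AEStronglyMeasurable (mtT s κ ν c c' w (𝔞, a)) (volume.restrict (Set.Ioi 0)) := by
      have hq : ContinuousOn (fun t : ℝ => kQ ν (t * ((Ideal.absNorm 𝔞.1 : ℝ) * ca s κ a)))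
          (Set.Ioi 0) := (kQ_cont hν).comp (by fun_prop) fun t ht => mul_pos ht hL
      have hc1 : ContinuousOn (mtT s κ ν c c' w (𝔞, a)) (Set.Ioi 0) := by
        unfold mtT
        refine continuousOn_const.mul (ContinuousOn.mul ?_ ?_)
        · intro t ht
          exact (continuousAt_ofReal_cpow_const t (2 * w - 1)
            (Or.inr (ne_of_gt ht))).continuousWithinAt
        · exact Complex.continuous_ofReal.comp_continuousOn hq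
      exact hc1.aestronglyMeasurable measurableSet_Ioi
    refine Integrable.mono' (h.const_mul |c a * c' a|) hm ?_
    refine (ae_restrict_iff' measurableSet_Ioi).2 (Filter.Eventually.of_forall fun t ht => ?_)
    rw [mtT_norm c c' w (𝔞, a) ht]

theorem mtT_normint (F : Fld s κ τ b b') {ν : ℂ} (hν : Adm ν) {c : 𝓞 K → ℝ} (hc : AF s κ ν c)
    (c' : 𝓞 K → ℝ) {w : ℂ} (hw : 1 < w.re) (p : NI K × 𝓞 K) :
    ∫ t in Set.Ioi (0 : ℝ), ‖mtT s κ ν c c' w p t‖ = (Ideal.absNorm p.1.1 : ℝ) ^ (-(2 * w.re)) *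
      (|c p.2 * c' p.2| * ca s κ p.2 ^ (-(2 * w.re)) * ‖mtQ ν w.re‖) := by
  obtain ⟨𝔞, a⟩ := p
  by_cases ha : a = 0
  · subst ha
    have : ∀ t, mtT s κ ν c c' w (𝔞, 0) t = 0 := mtT_zero hc c' w 𝔞
    simp only [this, norm_zero, integral_zero, hc.zero]
    simp
  · have hL : 0 < (Ideal.absNorm 𝔞.1 : ℝ) * ca s κ a := mul_pos (mt_Npos F 𝔞) (mt_capos F ha)
    rw [setIntegral_congr_fun measurableSet_Ioi (fun t ht => mtT_norm c c' w (𝔞, a) ht),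
      integral_const_mul, mt_scale_norm hν hL hw,
      Real.mul_rpow (mt_Npos F 𝔞).le (mt_capos F ha).le]
    ring

theorem mtT_val (F : Fld s κ τ b b') {ν : ℂ} (hν : Adm ν) {c : 𝓞 K → ℝ} (hc : AF s κ ν c)
    (c' : 𝓞 K → ℝ) {w : ℂ} (hw : 1 < w.re) (p : NI K × 𝓞 K) :
    ∫ t in Set.Ioi (0 : ℝ), mtT s κ ν c c' w p t = mtQ ν w *
      ((Ideal.absNorm p.1.1 : ℂ) ^ (-(2 * w)) *
      (((c p.2 * c' p.2 : ℝ) : ℂ) * ((ca s κ p.2 : ℝ) : ℂ) ^ (-(2 * w)))) := by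
  obtain ⟨𝔞, a⟩ := p
  by_cases ha : a = 0
  · subst ha
    have : ∀ t, mtT s κ ν c c' w (𝔞, 0) t = 0 := mtT_zero hc c' w 𝔞
    simp only [this, integral_zero, hc.zero]
    simp
  · have hL : 0 < (Ideal.absNorm 𝔞.1 : ℝ) * ca s κ a := mul_pos (mt_Npos F 𝔞) (mt_capos F ha)
    unfold mtT
    simp only
    rw [integral_const_mul, (mt_scale hν hL hw).2]
    unfold mtQ
    have e : ((((Ideal.absNorm 𝔞.1 : ℝ) * ca s κ a : ℝ) : ℝ) : ℂ) ^ (-(2 * w)) =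
        (Ideal.absNorm 𝔞.1 : ℂ) ^ (-(2 * w)) * ((ca s κ a : ℝ) : ℂ) ^ (-(2 * w)) := by
      rw [Complex.ofReal_mul, Complex.mul_cpow_ofReal_nonneg (mt_Npos F 𝔞).le
        (mt_capos F ha).le]
      push_cast
      rfl
    rw [e]
    push_cast
    ring

theorem mt_bound (F : Fld s κ τ b b') {ν : ℂ} (hν : Adm ν) {c c' : 𝓞 K → ℝ} (hc : AF s κ ν c)
    (hc' : AF s κ ν c') : ∃ C : ℝ, 0 ≤ C ∧ ∀ a : 𝓞 K, |c a * c' a| ≤ C * ‖s a‖ ^ 2 := by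
  obtain ⟨C1, h1, h1'⟩ := af_grow F hν hc
  obtain ⟨C2, h2, h2'⟩ := af_grow F hν hc'
  refine ⟨C1 * C2, by positivity, fun a => ?_⟩
  rw [abs_mul]
  calc |c a| * |c' a| ≤ (C1 * ‖s a‖) * (C2 * ‖s a‖) :=
        mul_le_mul (h1' a) (h2' a) (abs_nonneg _) (by positivity)
    _ = C1 * C2 * ‖s a‖ ^ 2 := by ring

theorem mt_suma (F : Fld s κ τ b b') {ν : ℂ} (hν : Adm ν) {c c' : 𝓞 K → ℝ} (hc : AF s κ ν c)
    (hc' : AF s κ ν c') {x : ℝ} (hx : 2 < x) :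
    Summable (fun a : 𝓞 K => |c a * c' a| * ca s κ a ^ (-(2 * x))) := by
  obtain ⟨C, hC, h⟩ := mt_bound F hν hc hc'
  have hz := (lat_zeta F (x := 2 * x - 2) (by linarith)).mul_left
    (C * (4 * Real.pi / ‖s κ‖) ^ (-(2 * x)))
  refine Summable.of_nonneg_of_le (fun a => ?_) (fun a => ?_) hz
  · have : 0 ≤ ca s κ a := by unfold ca; positivity
    positivity
  · by_cases ha : a = 0
    · subst ha
      rw [hc.zero, zero_mul, abs_zero, zero_mul]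
      positivity
    · have hsa : 0 < ‖s a‖ := norm_pos_iff.2 fun h => ha (F.inj a h)
      have hk := mt_kpos F
      have e1 : ca s κ a = 4 * Real.pi / ‖s κ‖ * ‖s a‖ := by unfold ca; ring
      have hπ := Real.pi_pos
      rw [e1, Real.mul_rpow (by positivity) hsa.le]
      have e2 : ‖s a‖ ^ (-(2 * x - 2)) = ‖s a‖ ^ 2 * ‖s a‖ ^ (-(2 * x)) := by
        rw [show -(2 * x - 2) = 2 + -(2 * x) by ring, Real.rpow_add hsa, Real.rpow_two]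
      rw [e2]
      have h3 : 0 ≤ (4 * Real.pi / ‖s κ‖) ^ (-(2 * x)) * ‖s a‖ ^ (-(2 * x)) := by positivity
      calc |c a * c' a| * ((4 * Real.pi / ‖s κ‖) ^ (-(2 * x)) * ‖s a‖ ^ (-(2 * x))) ≤
          (C * ‖s a‖ ^ 2) * ((4 * Real.pi / ‖s κ‖) ^ (-(2 * x)) * ‖s a‖ ^ (-(2 * x))) :=
            mul_le_mul_of_nonneg_right (h a) h3
        _ = _ := by ring

theorem mt_sumI (F : Fld s κ τ b b') {ν : ℂ} (hν : Adm ν) {c c' : 𝓞 K → ℝ} (hc : AF s κ ν c)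
    (hc' : AF s κ ν c') {w : ℂ} (hw : 2 < w.re) :
    Summable (fun 𝔞 : NI K => ‖((c (gn 𝔞.1) * c' (gn 𝔞.1) : ℝ) : ℂ) *
        (Ideal.absNorm 𝔞.1 : ℂ) ^ (-w)‖) := by
  obtain ⟨C, hC, h⟩ := mt_bound F hν hc hc'
  have hz := (ideal_sum (K := K) (x := w.re - 1) (by linarith)).mul_left C
  refine Summable.of_nonneg_of_le (fun _ => norm_nonneg _) (fun 𝔞 => ?_) hz
  have hN := mt_Npos F 𝔞
  rw [norm_mul, Complex.norm_real, Real.norm_eq_abs,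
    Complex.norm_natCast_cpow_of_pos (by exact_mod_cast hN)]
  have e2 : (Ideal.absNorm 𝔞.1 : ℝ) ^ (-(w.re - 1)) =
      (Ideal.absNorm 𝔞.1 : ℝ) * (Ideal.absNorm 𝔞.1 : ℝ) ^ (-w.re) := by
    rw [show -(w.re - 1) = 1 + -w.re by ring, Real.rpow_add hN, Real.rpow_one]
  rw [e2, Complex.neg_re, ← mul_assoc]
  refine mul_le_mul_of_nonneg_right ?_ (Real.rpow_nonneg hN.le _)
  have h3 := h (gn 𝔞.1)
  rw [← Complex.normSq_eq_norm_sq, ← (gn_spec F 𝔞.1).2.2] at h3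
  exact h3

theorem mt_sumN (F : Fld s κ τ b b') {w : ℂ} (hw : 1 < w.re) :
    Summable (fun 𝔞 : NI K => ‖(Ideal.absNorm 𝔞.1 : ℂ) ^ (-(2 * w))‖) := by
  refine (ideal_sum (K := K) (x := 2 * w.re) (by linarith)).congr fun 𝔞 => ?_
  rw [Complex.norm_natCast_cpow_of_pos (by exact_mod_cast mt_Npos F 𝔞)]
  simp

theorem mt_const (F : Fld s κ τ b b') (ν w : ℂ) :
    mtQ ν w * ((16 * Real.pi ^ 2 / DD s κ : ℝ) : ℂ) ^ (-w) = (1 / 8 : ℂ) *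
      (((DD s κ / (4 * Real.pi ^ 4) : ℝ) : ℂ) ^ w *
        (Gamma w ^ 2 * (Gamma (w + ν) * Gamma (w - ν)))) := by
  have hD := DD_pos F
  have hπ := Real.pi_pos
  unfold mtQ
  have h1 : (Real.pi : ℂ) ^ (-(2 * w)) * (2 : ℂ) ^ (2 * w - 3) *
      ((16 * Real.pi ^ 2 / DD s κ : ℝ) : ℂ) ^ (-w) = (1 / 8 : ℂ) *
      ((DD s κ / (4 * Real.pi ^ 4) : ℝ) : ℂ) ^ w := by
    have e2 : (2 : ℂ) = ((2 : ℝ) : ℂ) := by norm_num
    have e3 : (1 / 8 : ℂ) = cexp ((Real.log 2 : ℂ) * (-3)) := by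
      have h8 : (1 / 8 : ℝ) = Real.exp (Real.log 2 * (-3)) := by
        rw [← Real.rpow_def_of_pos (by norm_num), show (-3 : ℝ) = ((-3 : ℤ) : ℝ) by norm_num,
          Real.rpow_intCast]
        norm_num
      have h9 := congrArg (fun x : ℝ => (x : ℂ)) h8
      simp only [Complex.ofReal_exp] at h9
      push_cast at h9
      exact h9
    rw [e3, mt_cpow hπ, mt_cpow (by positivity : 0 < 16 * Real.pi ^ 2 / DD s κ),
      mt_cpow (by positivity : 0 < DD s κ / (4 * Real.pi ^ 4))]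
    nth_rewrite 2 [e2]
    rw [mt_cpow (by norm_num : (0 : ℝ) < 2)]
    simp only [← Complex.exp_add]
    congr 1
    rw [Real.log_div (by positivity) hD.ne', Real.log_div hD.ne' (by positivity),
      Real.log_mul (by norm_num) (by positivity), Real.log_mul (by norm_num) (by positivity),
      Real.log_pow, Real.log_pow, show (16 : ℝ) = 2 ^ 4 by norm_num,
      show (4 : ℝ) = 2 ^ 2 by norm_num, Real.log_pow, Real.log_pow]
    push_cast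
    ring
  linear_combination (Gamma w ^ 2 * (Gamma (w + ν) * Gamma (w - ν))) * h1

theorem jt_mellin (F : Fld s κ τ b b') {ν : ℂ} (hν : Adm ν) {c c' : 𝓞 K → ℝ} (hc : AF s κ ν c)
    (hc' : AF s κ ν c') :
    ∃ A : ℝ, 1 ≤ A ∧ ∀ w : ℂ, A < w.re →
      IntegrableOn (fun t : ℝ => t ^ (2 * w.re - 1) * ‖Jt s κ b ν c c' t‖) (Set.Ioi 0) ∧
      Summable (fun 𝔞 : NI K => ‖(Ideal.absNorm 𝔞.1 : ℂ) ^ (-(2 * w))‖) ∧
      Summable (fun 𝔞 : NI K => ‖((c (gn 𝔞.1) * c' (gn 𝔞.1) : ℝ) : ℂ) *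
        (Ideal.absNorm 𝔞.1 : ℂ) ^ (-w)‖) ∧
      ∫ t in Set.Ioi (0 : ℝ), (t : ℂ) ^ (2 * w - 1) * Jt s κ b ν c c' t =
      ((|dl s b| * Nat.card (𝓞 K)ˣ / 8 : ℝ) : ℂ) *
        (((DD s κ / (4 * Real.pi ^ 4) : ℝ) : ℂ) ^ w *
        (Gamma w ^ 2 * (Gamma (w + ν) * Gamma (w - ν)))) *
        ((∑' 𝔞 : NI K, (Ideal.absNorm 𝔞.1 : ℂ) ^ (-(2 * w))) *
          ∑' 𝔞 : NI K, ((c (gn 𝔞.1) * c' (gn 𝔞.1) : ℝ) : ℂ) *
            (Ideal.absNorm 𝔞.1 : ℂ) ^ (-w)) := by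
  refine ⟨2, by norm_num, fun w hw => ?_⟩
  have hw1 : 1 < w.re := by linarith
  have hcI := mt_countable F
  have hcO : Countable (𝓞 K) := Pool.Agent.H4.countable_int
  have hJ : ∀ t : ℝ, 0 < t → (t : ℂ) ^ (2 * w - 1) * Jt s κ b ν c c' t =
      ((|dl s b| : ℝ) : ℂ) * ∑' p : NI K × 𝓞 K, mtT s κ ν c c' w p t := by
    intro t ht
    rw [(jt_form F hν hc hc' ht).2, Complex.ofReal_mul, Complex.ofReal_tsum, mul_left_comm,
      ← tsum_mul_left]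
    congr 1
    refine tsum_congr fun p => ?_
    unfold mtT
    push_cast
    ring
  have hFint : ∀ p : NI K × 𝓞 K, Integrable (mtT s κ ν c c' w p)
      (volume.restrict (Set.Ioi 0)) := fun p => mtT_int F hν hc c' hw1 p
  have hsumN := mt_sumN F hw1
  have hsumN' : Summable (fun 𝔞 : NI K => (Ideal.absNorm 𝔞.1 : ℝ) ^ (-(2 * w.re))) :=
    ideal_sum (by linarith)
  have hsuma := mt_suma F hν hc hc' hw
  have hFs : Summable fun p : NI K × 𝓞 K =>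
      ∫ t, ‖mtT s κ ν c c' w p t‖ ∂(volume.restrict (Set.Ioi 0)) := by
    have h1 := hsumN'.mul_of_nonneg (hsuma.mul_right ‖mtQ ν w.re‖)
      (fun 𝔞 => Real.rpow_nonneg (mt_Npos F 𝔞).le _) (fun a => by
        have : 0 ≤ ca s κ a := by unfold ca; positivity
        positivity)
    refine h1.congr fun p => ?_
    exact (mtT_normint F hν hc c' hw1 p).symm
  have hI1 := Pool.Agent.HZ.unf_integrable_tsum hFint hFs
  have hI2 : ∑' p : NI K × 𝓞 K, ∫ t in Set.Ioi (0 : ℝ), mtT s κ ν c c' w p t =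
      ∫ t in Set.Ioi (0 : ℝ), ∑' p : NI K × 𝓞 K, mtT s κ ν c c' w p t :=
    integral_tsum_of_summable_integral_norm hFint hFs
  refine ⟨?_, hsumN, mt_sumI F hν hc hc' hw, ?_⟩
  · have h1 : IntegrableOn (fun t : ℝ => ‖((|dl s b| : ℝ) : ℂ) *
        ∑' p : NI K × 𝓞 K, mtT s κ ν c c' w p t‖) (Set.Ioi 0) := (hI1.const_mul _).norm
    refine h1.congr_fun (fun t ht => ?_) measurableSet_Ioi
    simp only
    rw [← hJ t ht, norm_mul, Complex.norm_cpow_eq_rpow_re_of_pos ht]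
    simp
  · rw [setIntegral_congr_fun measurableSet_Ioi (fun t ht => hJ t ht), integral_const_mul,
      ← hI2, tsum_congr (fun p => mtT_val F hν hc c' hw1 p), tsum_mul_left]
    have hg0 : ((c 0 * c' 0 : ℝ) : ℂ) * ((ca s κ 0 : ℝ) : ℂ) ^ (-(2 * w)) = 0 := by
      rw [hc.zero]; simp
    have hgu : ∀ (a : 𝓞 K) (u : (𝓞 K)ˣ), ((c (u * a) * c' (u * a) : ℝ) : ℂ) *
        ((ca s κ (u * a) : ℝ) : ℂ) ^ (-(2 * w)) = ((c a * c' a : ℝ) : ℂ) *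
        ((ca s κ a : ℝ) : ℂ) ^ (-(2 * w)) := by
      intro a u
      rw [hc.unit, hc'.unit]
      congr 3
      unfold ca
      rw [map_mul, norm_mul, unit_norm F, one_mul]
    have hga : Summable (fun a : 𝓞 K => ‖((c a * c' a : ℝ) : ℂ) *
        ((ca s κ a : ℝ) : ℂ) ^ (-(2 * w))‖) := by
      refine hsuma.congr fun a => ?_
      by_cases ha : a = 0
      · subst ha
        rw [hg0, norm_zero, hc.zero, zero_mul, abs_zero, zero_mul]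
      · rw [norm_mul, Complex.norm_real, Real.norm_eq_abs,
          Complex.norm_cpow_eq_rpow_re_of_pos (mt_capos F ha)]
        simp
    have hprod : (∑' p : NI K × 𝓞 K, (Ideal.absNorm p.1.1 : ℂ) ^ (-(2 * w)) *
        (((c p.2 * c' p.2 : ℝ) : ℂ) * ((ca s κ p.2 : ℝ) : ℂ) ^ (-(2 * w)))) =
        (∑' 𝔞 : NI K, (Ideal.absNorm 𝔞.1 : ℂ) ^ (-(2 * w))) *
          ∑' a : 𝓞 K, ((c a * c' a : ℝ) : ℂ) * ((ca s κ a : ℝ) : ℂ) ^ (-(2 * w)) :=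
      (tsum_mul_tsum_of_summable_norm hsumN hga).symm
    rw [hprod, (un_tsum F (g := fun a => ((c a * c' a : ℝ) : ℂ) *
      ((ca s κ a : ℝ) : ℂ) ^ (-(2 * w))) hg0 hgu).2]
    have hgn : ∀ 𝔞 : NI K, ((c (gn 𝔞.1) * c' (gn 𝔞.1) : ℝ) : ℂ) *
        ((ca s κ (gn 𝔞.1) : ℝ) : ℂ) ^ (-(2 * w)) =
        ((16 * Real.pi ^ 2 / DD s κ : ℝ) : ℂ) ^ (-w) *
        (((c (gn 𝔞.1) * c' (gn 𝔞.1) : ℝ) : ℂ) * (Ideal.absNorm 𝔞.1 : ℂ) ^ (-w)) := by
      intro 𝔞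
      rw [mt_ca_gn F 𝔞 w]
      ring
    simp only [hgn]
    rw [tsum_mul_left]
    have hcst := mt_const F ν w
    have e9 : ((|dl s b| * Nat.card (𝓞 K)ˣ / 8 : ℝ) : ℂ) = ((|dl s b| : ℝ) : ℂ) *
        (Nat.card (𝓞 K)ˣ : ℂ) * (1 / 8) := by
      push_cast
      ring
    rw [e9]
    linear_combination (((|dl s b| : ℝ) : ℂ) * (Nat.card (𝓞 K)ˣ : ℂ) *
      ((∑' 𝔞 : NI K, (Ideal.absNorm 𝔞.1 : ℂ) ^ (-(2 * w))) *
          ∑' 𝔞 : NI K, ((c (gn 𝔞.1) * c' (gn 𝔞.1) : ℝ) : ℂ) *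
            (Ideal.absNorm 𝔞.1 : ℂ) ^ (-w))) * hcst

end Pool.Agent.HB
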