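import Pool.Agent.Lib_helper99.HB.Defs
import Pool.Agent.Lib_helper99.HBF.FF
import Pool.Agent.Lib_helper99.HBF.FS
import Pool.Agent.Lib_helper99.HBF.MM
import Pool.Agent.Lib_helper99.HBF.MT
import Pool.Agent.Lib_helper99.HBF.MU
import Pool.Agent.Lib_helper99.HBF.UF

/-! Hardy's theorem over imaginary quadratic fields, block JD: decay of the Rankin-Selberg
integral. Cited: jt_mellin (MT), mm_unfold_c (MU), bt_box (MM), bt_meas (UF), FF_inv, FF_bdd, FF_cont (FF),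
fser_real (FS). -/

namespace Pool.Agent.HB

open NumberField Complex MeasureTheory
open scoped MatrixGroups ENNReal
open Pool.Agent.H4 (NI PI Hek blw Spl Inr tt uu p4 hh PP ml atl FunBd vcf)

variable {K : Type} [Field K] [NumberField K]
variable {s : 𝓞 K →+* ℂ} {κ : 𝓞 K} {τ : 𝓞 K ≃+* 𝓞 K} {b b' : Fin 2 → 𝓞 K}

/-- the density `|f|²` -/
noncomputable def jd_R (s : 𝓞 K →+* ℂ) (κ : 𝓞 K) (ν : ℂ) (c : 𝓞 K → ℝ) (P : H3) : ℝ :=
  ‖fser s κ ν c P.1‖ ^ 2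

/-- the diagonal integral -/
noncomputable def jd_J (s : 𝓞 K →+* ℂ) (κ : 𝓞 K) (b : Fin 2 → 𝓞 K) (ν : ℂ)
    (c : 𝓞 K → ℝ) (t : ℝ) : ℝ :=
  ∫ P in Box s b, jd_R s κ ν c P * (bt K t P).toReal ∂mu

theorem jd_R_nonneg (ν : ℂ) (c : 𝓞 K → ℝ) (P : H3) : 0 ≤ jd_R s κ ν c P := by
  unfold jd_R
  positivity

theorem jd_FF (F : Fld s κ τ b b') {ν : ℂ} {c : 𝓞 K → ℝ} (hc : AF s κ ν c) (P : H3) :
    FF s κ ν c c P = (jd_R s κ ν c P : ℂ) := by
  unfold FF jd_R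
  have h := fser_real F hc P.1
  calc fser s κ ν c P.1 * fser s κ ν c P.1 =
        fser s κ ν c P.1 * (starRingEnd ℂ) (fser s κ ν c P.1) := by rw [h]
    _ = _ := by rw [Complex.mul_conj, Complex.normSq_eq_norm_sq]

theorem jd_le (ν : ℂ) (c c' : 𝓞 K → ℝ) (P : H3) :
    ‖FF s κ ν c c' P‖ ≤ (jd_R s κ ν c P + jd_R s κ ν c' P) / 2 := by
  unfold FF jd_R
  rw [norm_mul]
  nlinarith [sq_nonneg (‖fser s κ ν c P.1‖ - ‖fser s κ ν c' P.1‖)]

theorem jd_t0 (s : 𝓞 K →+* ℂ) (κ : 𝓞 K) : ∃ t : ℝ, 0 < t ∧ DD s κ * t ^ 2 ≤ 2 := by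
  have hD : 0 ≤ DD s κ := normSq_nonneg _
  refine ⟨1 / (1 + DD s κ), by positivity, ?_⟩
  rw [div_pow, one_pow, mul_one_div, div_le_iff₀ (by positivity)]
  nlinarith

theorem jd_integrable_c (F : Fld s κ τ b b') {ν : ℂ} (hν : Adm ν) {c c' : 𝓞 K → ℝ}
    (hc : AF s κ ν c) (hc' : AF s κ ν c') {t : ℝ} (ht : 0 < t) :
    IntegrableOn (fun P => FF s κ ν c c' P * ((bt K t P).toReal : ℂ)) (Box s b) mu := by
  obtain ⟨t0, a1, a3⟩ := jd_t0 s κ
  exact (mm_unfold_c F a1 a3 ht (FF_cont F hν hc hc').measurable (FF_bdd F hν hc hc')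
    (fun γ P => FF_inv hc hc' γ P)).2.1

theorem jd_integrable (F : Fld s κ τ b b') {ν : ℂ} (hν : Adm ν) {c : 𝓞 K → ℝ}
    (hc : AF s κ ν c) {t : ℝ} (ht : 0 < t) :
    IntegrableOn (fun P => jd_R s κ ν c P * (bt K t P).toReal) (Box s b) mu := by
  have h := (jd_integrable_c F hν hc hc ht).re
  refine h.congr (Filter.Eventually.of_forall fun P => ?_)
  simp only [jd_FF F hc]
  rw [← Complex.ofReal_mul]
  rfl

theorem jd_Jt (F : Fld s κ τ b b') {ν : ℂ} {c : 𝓞 K → ℝ} (hc : AF s κ ν c) (t : ℝ) :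
    Jt s κ b ν c c t = (jd_J s κ b ν c t : ℂ) := by
  unfold Jt jd_J
  rw [← integral_complex_ofReal]
  refine integral_congr_ae (Filter.Eventually.of_forall fun P => ?_)
  simp only [jd_FF F hc]
  push_cast
  rfl

theorem jd_nonneg (ν : ℂ) (c : 𝓞 K → ℝ) (t : ℝ) : 0 ≤ jd_J s κ b ν c t :=
  integral_nonneg fun P => mul_nonneg (jd_R_nonneg ν c P) ENNReal.toReal_nonneg

theorem jd_norm_le (F : Fld s κ τ b b') {ν : ℂ} (hν : Adm ν) {c c' : 𝓞 K → ℝ}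
    (hc : AF s κ ν c) (hc' : AF s κ ν c') {t : ℝ} (ht : 0 < t) :
    ‖Jt s κ b ν c c' t‖ ≤ (jd_J s κ b ν c t + jd_J s κ b ν c' t) / 2 := by
  unfold Jt jd_J
  refine (norm_integral_le_integral_norm _).trans ?_
  rw [← integral_add (jd_integrable F hν hc ht) (jd_integrable F hν hc' ht), ← integral_div]
  refine integral_mono (jd_integrable_c F hν hc hc' ht).norm
    (((jd_integrable F hν hc ht).add (jd_integrable F hν hc' ht)).div_const 2) fun P => ?_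
  have h3 := jd_le (s := s) (κ := κ) ν c c' P
  have h4 : 0 ≤ (bt K t P).toReal := ENNReal.toReal_nonneg
  simp only [Pi.add_apply]
  rw [norm_mul, Complex.norm_real, Real.norm_eq_abs, abs_of_nonneg h4]
  nlinarith [mul_le_mul_of_nonneg_right h3 h4]

theorem jd_bt_anti {t t' : ℝ} (h1 : t ≤ t') (P : H3) :
    bt K t' P ≤ bt K t P := by
  unfold bt
  refine ENNReal.tsum_le_tsum fun 𝔞 => ENNReal.ofReal_le_ofReal (Real.exp_le_exp.2 ?_)
  have h3 : 0 < P.1.2 := P.2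
  have h5 : t * (Ideal.absNorm 𝔞.1 : ℝ) / P.1.2 ≤ t' * (Ideal.absNorm 𝔞.1 : ℝ) / P.1.2 := by
    gcongr
  have hpi := Real.pi_pos
  nlinarith

theorem jd_anti (F : Fld s κ τ b b') {ν : ℂ} (hν : Adm ν) {c : 𝓞 K → ℝ} (hc : AF s κ ν c)
    {t t' : ℝ} (ht : 0 < t) (h3 : t ≤ t') :
    jd_J s κ b ν c t' ≤ jd_J s κ b ν c t := by
  unfold jd_J
  have h5 : ∀ᵐ P ∂(mu.restrict (Box s b)), bt K t P < ∞ :=
    ae_lt_top (bt_meas K t) (bt_box F ht).ne
  refine integral_mono_ae (jd_integrable F hν hc (ht.trans_le h3))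
    (jd_integrable F hν hc ht) ?_
  filter_upwards [h5] with P hP
  exact mul_le_mul_of_nonneg_left (ENNReal.toReal_mono hP.ne (jd_bt_anti h3 P))
    (jd_R_nonneg ν c P)

theorem jd_main (F : Fld s κ τ b b') {ν : ℂ} (hν : Adm ν) {c : 𝓞 K → ℝ} (hc : AF s κ ν c)
    (x : ℝ) : ∃ C : ℝ, 0 ≤ C ∧ ∀ r : ℝ, 1 ≤ r → jd_J s κ b ν c r ≤ C * r ^ x := by
  obtain ⟨A, hA0, hA⟩ := jt_mellin F hν hc hc
  set w : ℝ := A + 1 + |x| with hw
  have hx := abs_nonneg x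
  have hx' := neg_abs_le x
  have hwA : A < ((w : ℝ) : ℂ).re := by
    rw [Complex.ofReal_re]
    linarith
  have hint := (hA _ hwA).1
  have hcongr : ∀ r ∈ Set.Ioi (0 : ℝ), r ^ (2 * ((w : ℝ) : ℂ).re - 1) *
      ‖Jt s κ b ν c c r‖ = r ^ (2 * w - 1) * jd_J s κ b ν c r := by
    intro r _
    rw [jd_Jt F hc, Complex.norm_real, Real.norm_eq_abs, abs_of_nonneg (jd_nonneg ν c r),
      Complex.ofReal_re]
  have hint' : IntegrableOn (fun r : ℝ => r ^ (2 * w - 1) * jd_J s κ b ν c r)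
      (Set.Ioi 0) := (integrableOn_congr_fun hcongr measurableSet_Ioi).1 hint
  set M := ∫ r in Set.Ioi (0 : ℝ), r ^ (2 * w - 1) * jd_J s κ b ν c r with hM
  have hnn : ∀ r ∈ Set.Ioi (0 : ℝ), 0 ≤ r ^ (2 * w - 1) * jd_J s κ b ν c r :=
    fun r hr => mul_nonneg (Real.rpow_nonneg (le_of_lt hr) _) (jd_nonneg ν c r)
  have hM0 : 0 ≤ M := setIntegral_nonneg measurableSet_Ioi hnn
  refine ⟨M * 2 ^ (2 * w), by positivity, ?_⟩
  intro r hr
  have hr0 : 0 < r := by linarith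
  have hsub : Set.Ioc (r / 2) r ⊆ Set.Ioi (0 : ℝ) := fun y hy => lt_trans (by linarith) hy.1
  have h1 : ∫ y in Set.Ioc (r / 2) r, y ^ (2 * w - 1) * jd_J s κ b ν c y ≤ M :=
    setIntegral_mono_set hint' ((ae_restrict_iff' measurableSet_Ioi).2
      (Filter.Eventually.of_forall hnn)) (Filter.Eventually.of_forall hsub)
  have h2 : ∫ y in Set.Ioc (r / 2) r, (r / 2) ^ (2 * w - 1) * jd_J s κ b ν c r ≤
      ∫ y in Set.Ioc (r / 2) r, y ^ (2 * w - 1) * jd_J s κ b ν c y := by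
    refine setIntegral_mono_on ?_ (hint'.mono_set hsub) measurableSet_Ioc fun y hy => ?_
    · exact integrableOn_const (by simp) enorm_ne_top
    · have hy0 : 0 < y := hsub hy
      refine mul_le_mul ?_ (jd_anti F hν hc hy0 hy.2) (jd_nonneg ν c r)
        (Real.rpow_nonneg hy0.le _)
      exact Real.rpow_le_rpow (by linarith) hy.1.le (by linarith)
  rw [setIntegral_const] at h2
  have h3 : (volume.real (Set.Ioc (r / 2) r)) = r / 2 := by
    rw [Real.volume_real_Ioc_of_le (by linarith)]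
    ring
  rw [h3, smul_eq_mul] at h2
  have h4 : r / 2 * ((r / 2) ^ (2 * w - 1) * jd_J s κ b ν c r) =
      (r / 2) ^ (2 * w) * jd_J s κ b ν c r := by
    have h5 : (r / 2) ^ (2 * w) = (r / 2) * (r / 2) ^ (2 * w - 1) := by
      have h6 : (2 * w : ℝ) = 1 + (2 * w - 1) := by ring
      conv_lhs => rw [h6]
      rw [Real.rpow_add (by linarith), Real.rpow_one]
    rw [h5]
    ring
  have h7 : (r / 2) ^ (2 * w) * jd_J s κ b ν c r ≤ M := by
    rw [← h4]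
    exact h2.trans h1
  rw [Real.div_rpow hr0.le (by norm_num)] at h7
  have h8 : 0 < (2 : ℝ) ^ (2 * w) := by positivity
  have h9 : 0 < r ^ (2 * w) := by positivity
  have h10 : jd_J s κ b ν c r ≤ M * 2 ^ (2 * w) * (r ^ (2 * w))⁻¹ := by
    have h11 : jd_J s κ b ν c r = (r ^ (2 * w) / 2 ^ (2 * w) *
        jd_J s κ b ν c r) * (2 ^ (2 * w) * (r ^ (2 * w))⁻¹) := by
      field_simp
    rw [h11]
    calc (r ^ (2 * w) / 2 ^ (2 * w) * jd_J s κ b ν c r) *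
          (2 ^ (2 * w) * (r ^ (2 * w))⁻¹) ≤ M * (2 ^ (2 * w) * (r ^ (2 * w))⁻¹) :=
          mul_le_mul_of_nonneg_right h7 (by positivity)
      _ = M * 2 ^ (2 * w) * (r ^ (2 * w))⁻¹ := by ring
  refine h10.trans (mul_le_mul_of_nonneg_left ?_ (by positivity))
  rw [← Real.rpow_neg hr0.le]
  exact Real.rpow_le_rpow_of_exponent_le hr (by linarith)

theorem jt_decay (F : Fld s κ τ b b') {ν : ℂ} (hν : Adm ν) {c c' : 𝓞 K → ℝ} (hc : AF s κ ν c)
    (hc' : AF s κ ν c') (x : ℝ) : ∃ C : ℝ, ∀ t : ℝ, 1 ≤ t →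
      ‖Jt s κ b ν c c' t‖ ≤ C * t ^ x := by
  obtain ⟨C, hC0, hC⟩ := jd_main F hν hc x
  obtain ⟨C', hC0', hC'⟩ := jd_main F hν hc' x
  refine ⟨(C + C') / 2, fun r hr => ?_⟩
  have hr0 : 0 < r := by linarith
  have h1 := jd_norm_le F hν hc hc' hr0
  have h3 := hC r hr
  have h4 := hC' r hr
  calc _ ≤ _ := h1
    _ ≤ (C * r ^ x + C' * r ^ x) / 2 := by linarith
    _ = (C + C') / 2 * r ^ x := by ring

end Pool.Agent.HB
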