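import Pool.Agent.Lib_helper99.HB.Defs
import Pool.Agent.Lib_helper99.HBF.FB
import Pool.Agent.Lib_helper99.HBF.JC
import Pool.Agent.Lib_helper99.HBF.JD
import Pool.Agent.Lib_helper99.HBF.MT

/-!
# Hardy's theorem over imaginary quadratic fields: block RE (helper6)
The Rankin-Selberg function is entire up to a simple pole.
-/

namespace Pool.Agent.HB

open NumberField Complex MeasureTheory Filter Topology Asymptotics
open scoped MatrixGroups ENNReal
open Pool.Agent.H4 (NI PI Hek blw Spl Inr tt uu p4 hh PP ml atl FunBd vcf)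

/-- the Mellin transform of a function with a functional equation -/
theorem re_mellin {J : ℝ → ℂ} {J0 : ℂ} {D : ℝ} (hD : 0 < D)
    (hc : ContinuousOn J (Set.Ioi 0))
    (hfe : ∀ t : ℝ, 0 < t → J t + J0 = ((4 / (D * t ^ 2) : ℝ) : ℂ) * (J (4 / (D * t)) + J0))
    (hd : ∀ x : ℝ, ∃ C : ℝ, ∀ t : ℝ, 1 ≤ t → ‖J t‖ ≤ C * t ^ x) :
    ∃ (Λ₀ : ℂ → ℂ) (a : ℝ), 0 < a ∧ Differentiable ℂ Λ₀ ∧
      ∀ w : ℂ, 1 < w.re → (w - 1) * (∫ r in Set.Ioi (0 : ℝ), (r : ℂ) ^ (2 * w - 1) * J r) =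
        (a : ℂ) ^ (2 * w) * ((w - 1) * Λ₀ (2 * w) - (w - 1) / (2 * w) * J0 + J0 / 2) := by
  obtain ⟨a, ha, haD⟩ : ∃ a : ℝ, 0 < a ∧ a ^ 2 = 4 / D :=
    ⟨√(4 / D), by positivity, Real.sq_sqrt (by positivity)⟩
  have hbig : ∀ x : ℝ, (fun r : ℝ => J (a * r)) =O[atTop] (fun r : ℝ => r ^ x) := by
    intro x
    obtain ⟨C, hC⟩ := hd x
    refine IsBigO.of_bound (C * a ^ x) ?_
    filter_upwards [eventually_ge_atTop (1 / a), eventually_gt_atTop 0] with r hr hr0
    have h1 : 1 ≤ a * r := by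
      rw [div_le_iff₀ ha] at hr
      linarith
    refine (hC _ h1).trans (le_of_eq ?_)
    rw [Real.norm_eq_abs, abs_of_pos (Real.rpow_pos_of_pos hr0 x), Real.mul_rpow ha.le hr0.le]
    ring
  have hloc : LocallyIntegrableOn (fun x : ℝ => J (a * x) + J0) (Set.Ioi 0) := by
    refine ContinuousOn.locallyIntegrableOn ?_ measurableSet_Ioi
    refine ContinuousOn.add ?_ continuousOn_const
    refine hc.comp (by fun_prop) fun x hx => ?_
    exact mul_pos ha hx
  let P : WeakFEPair ℂ :=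
    { f := fun x => J (a * x) + J0
      g := fun x => J (a * x) + J0
      k := 2
      ε := 1
      f₀ := J0
      g₀ := J0
      hf_int := hloc
      hg_int := hloc
      hk := two_pos
      hε := one_ne_zero
      h_feq := by
        intro x hx
        have hx0 : (0 : ℝ) < x := hx
        have h1 := hfe (a * (1 / x)) (by positivity)
        rw [h1, smul_eq_mul]
        have h2 : 4 / (D * (a * (1 / x)) ^ 2) = x ^ (2 : ℝ) := by
          have : (a * (1 / x)) ^ 2 = 4 / D * (1 / x) ^ 2 := by rw [mul_pow, haD]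
          rw [this, Real.rpow_two]
          field_simp
        have h3 : 4 / (D * (a * (1 / x))) = a * x := by
          have h4 : D * (a * a) = 4 := by
            rw [← pow_two, haD]
            field_simp
          rw [div_eq_iff (by positivity)]
          field_simp
          linarith
        rw [h2, h3, one_mul]
      hf_top := by
        intro r
        refine (hbig r).congr_left fun x => ?_
        ring
      hg_top := by
        intro r
        refine (hbig r).congr_left fun x => ?_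
        ring }
  refine ⟨P.Λ₀, a, ha, P.differentiable_Λ₀, fun w hw => ?_⟩
  have hk2 : P.k < (2 * w).re := by
    show (2 : ℝ) < (2 * w).re
    simp only [mul_re, re_ofNat, im_ofNat, zero_mul, sub_zero]
    linarith
  have h1 := (P.hasMellin hk2).2
  have h2 : (fun x => P.f x - P.f₀) = fun x => J (a * x) := by
    funext x
    show J (a * x) + J0 - J0 = _
    ring
  rw [h2, mellin_comp_mul_left J _ ha] at h1
  have hane : (a : ℂ) ≠ 0 := by exact_mod_cast ha.ne'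
  have h3 : mellin J (2 * w) = (a : ℂ) ^ (2 * w) * P.Λ (2 * w) := by
    rw [← h1, smul_eq_mul, ← mul_assoc, ← Complex.cpow_add _ _ hane]
    simp
  have h4 : (∫ r in Set.Ioi (0 : ℝ), (r : ℂ) ^ (2 * w - 1) * J r) = mellin J (2 * w) := by
    unfold mellin
    simp only [smul_eq_mul]
  rw [h4, h3]
  have hw0 : w ≠ 0 := by
    intro h
    rw [h] at hw
    simp at hw
    linarith
  have hw1 : w - 1 ≠ 0 := by
    intro h
    rw [sub_eq_zero.1 h] at hw
    simp at hw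
  have hPk : (P.k : ℂ) = 2 := by
    show (((2 : ℝ)) : ℂ) = 2
    norm_num
  have hPe : P.ε = 1 := rfl
  have hPf : P.f₀ = J0 := rfl
  have hPg : P.g₀ = J0 := rfl
  unfold WeakFEPair.Λ
  rw [hPk, smul_eq_mul, smul_eq_mul, hPe, hPf, hPg]
  have h5 : (1 : ℂ) / (2 - 2 * w) = -(1 / 2 / (w - 1)) := by
    have h6 : (2 : ℂ) - 2 * w = -(2 * (w - 1)) := by ring
    rw [h6, div_neg, div_div]
  rw [h5]
  generalize P.Λ₀ (2 * w) = X
  field_simp
  ring

variable {K : Type} [Field K] [NumberField K]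
variable {s : 𝓞 K →+* ℂ} {κ : 𝓞 K} {τ : 𝓞 K ≃+* 𝓞 K} {b b' : Fin 2 → 𝓞 K}

theorem rs_entire (F : Fld s κ τ b b') {ν : ℂ} (hν : Adm ν) {c c' : 𝓞 K → ℝ} (hc : AF s κ ν c)
    (hc' : AF s κ ν c') :
    ∃ (E : ℂ → ℂ) (A : ℝ), Differentiable ℂ E ∧ ∀ w : ℂ, A < w.re →
      E w = (w - 1) * ((∑' 𝔞 : NI K, (Ideal.absNorm 𝔞.1 : ℂ) ^ (-(2 * w))) *
        ∑' 𝔞 : NI K, ((c (gn 𝔞.1) * c' (gn 𝔞.1) : ℝ) : ℂ) *
          (Ideal.absNorm 𝔞.1 : ℂ) ^ (-w)) := by
  have hD : 0 < DD s κ := DD_pos F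
  have hdl : dl s b ≠ 0 := dl_ne F
  have : Finite (𝓞 K)ˣ := units_finite F
  have hU : (Nat.card (𝓞 K)ˣ : ℝ) ≠ 0 := by
    have : Nat.card (𝓞 K)ˣ ≠ 0 := Nat.card_pos.ne'
    exact_mod_cast this
  have ht0 : 0 < √(2 / DD s κ) := by positivity
  have ht1 : DD s κ * √(2 / DD s κ) ^ 2 ≤ 2 := by
    rw [Real.sq_sqrt (by positivity)]
    exact le_of_eq (by field_simp)
  obtain ⟨Λ₀, a, ha, hΛ, hM⟩ := re_mellin (J := Jt s κ b ν c c')
    (J0 := J0 s κ b ν c c' (√(2 / DD s κ))) hD (jt_cont F hν hc hc')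
    (fun t ht => jt_fe F hν hc hc' ht0 ht1 ht) (jt_decay F hν hc hc')
  set f₀ := J0 s κ b ν c c' (√(2 / DD s κ)) with hf₀
  obtain ⟨A, hA0, hA⟩ := jt_mellin F hν hc hc'
  have hq : (0 : ℝ) < DD s κ / (4 * Real.pi ^ 4) := by positivity
  have hqc : ((DD s κ / (4 * Real.pi ^ 4) : ℝ) : ℂ) ≠ 0 := by exact_mod_cast hq.ne'
  have hac : (a : ℂ) ≠ 0 := by exact_mod_cast ha.ne'
  set C : ℂ → ℂ := fun w => ((|dl s b| * Nat.card (𝓞 K)ˣ / 8 : ℝ) : ℂ) *
    ((DD s κ / (4 * Real.pi ^ 4) : ℝ) : ℂ) ^ w with hC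
  have hdlc : ((|dl s b| * Nat.card (𝓞 K)ˣ / 8 : ℝ) : ℂ) ≠ 0 := by
    have : |dl s b| * Nat.card (𝓞 K)ˣ / 8 ≠ 0 :=
      div_ne_zero (mul_ne_zero (abs_ne_zero.2 hdl) hU) (by norm_num)
    exact_mod_cast this
  have hCne : ∀ w, C w ≠ 0 := by
    intro w
    rw [hC]
    simp only
    refine mul_ne_zero hdlc ?_
    rw [Complex.cpow_def_of_ne_zero hqc]
    exact Complex.exp_ne_zero _
  have hCd : Differentiable ℂ C := by
    rw [hC]
    refine Differentiable.mul (differentiable_const _) ?_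
    exact Differentiable.const_cpow (by fun_prop) (Or.inl hqc)
  have hG : Differentiable ℂ fun z : ℂ => (Gamma z)⁻¹ := differentiable_one_div_Gamma
  refine ⟨fun w => (a : ℂ) ^ (2 * w) * (((w - 1) * Λ₀ (2 * w) + f₀ / 2) *
    ((Gamma w)⁻¹ * (Gamma w)⁻¹) - (w - 1) / 2 * f₀ * ((Gamma (w + 1))⁻¹ * (Gamma w)⁻¹)) *
    ((Gamma (w + ν))⁻¹ * (Gamma (w - ν))⁻¹) * (C w)⁻¹,
    max A 2, ?_, fun w hw => ?_⟩
  · refine Differentiable.mul (Differentiable.mul (Differentiable.mul ?_ (Differentiable.sub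
      (Differentiable.mul ?_ (Differentiable.mul hG hG)) (Differentiable.mul ?_
        (Differentiable.mul ?_ hG)))) (Differentiable.mul ?_ ?_)) (hCd.inv hCne)
    · exact Differentiable.const_cpow (by fun_prop) (Or.inl hac)
    · exact ((differentiable_id.sub_const _).mul (hΛ.comp (differentiable_id.const_mul 2))).add_const _
    · fun_prop
    · exact hG.comp (differentiable_id.add_const _)
    · exact hG.comp (differentiable_id.add_const _)
    · exact hG.comp (differentiable_id.sub_const _)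
  · have hwA : A < w.re := (le_max_left _ _).trans_lt hw
    have hw2 : 2 < w.re := (le_max_right _ _).trans_lt hw
    have hw1 : 1 < w.re := by linarith
    obtain ⟨-, -, -, h1⟩ := hA w hwA
    have h2 := hM w hw1
    rw [h1] at h2
    set R := (∑' 𝔞 : NI K, (Ideal.absNorm 𝔞.1 : ℂ) ^ (-(2 * w))) *
        ∑' 𝔞 : NI K, ((c (gn 𝔞.1) * c' (gn 𝔞.1) : ℝ) : ℂ) *
          (Ideal.absNorm 𝔞.1 : ℂ) ^ (-w) with hR
    have hw0 : w ≠ 0 := by
      intro h
      rw [h] at hw1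
      simp at hw1
      linarith
    have hνre : |ν.re| ≤ 1 := by
      rcases hν with h | ⟨_, h⟩
      · rw [h]; simp
      · exact h.le
    have hν2 := abs_le.1 hνre
    have g1 : Gamma w ≠ 0 := Gamma_ne_zero_of_re_pos (by linarith)
    have g2 : Gamma (w + ν) ≠ 0 := Gamma_ne_zero_of_re_pos (by rw [add_re]; linarith)
    have g3 : Gamma (w - ν) ≠ 0 := Gamma_ne_zero_of_re_pos (by rw [sub_re]; linarith)
    have key : ((w - 1) * Λ₀ (2 * w) + f₀ / 2) * ((Gamma w)⁻¹ * (Gamma w)⁻¹) -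
        (w - 1) / 2 * f₀ * ((Gamma (w + 1))⁻¹ * (Gamma w)⁻¹) =
        ((w - 1) * Λ₀ (2 * w) - (w - 1) / (2 * w) * f₀ + f₀ / 2) *
          ((Gamma w)⁻¹ * (Gamma w)⁻¹) := by
      rw [Gamma_add_one w hw0]
      field_simp
      ring
    simp only
    rw [key]
    have h3 : C w * (Gamma w ^ 2 * (Gamma (w + ν) * Gamma (w - ν))) * ((w - 1) * R) =
        (a : ℂ) ^ (2 * w) * ((w - 1) * Λ₀ (2 * w) - (w - 1) / (2 * w) * f₀ + f₀ / 2) := by
      rw [← h2, hC]
      ring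
    have hCw := hCne w
    set X := (a : ℂ) ^ (2 * w) * ((w - 1) * Λ₀ (2 * w) - (w - 1) / (2 * w) * f₀ + f₀ / 2) with hX
    have h4 : (a : ℂ) ^ (2 * w) * (((w - 1) * Λ₀ (2 * w) - (w - 1) / (2 * w) * f₀ + f₀ / 2) *
          ((Gamma w)⁻¹ * (Gamma w)⁻¹)) * ((Gamma (w + ν))⁻¹ * (Gamma (w - ν))⁻¹) *
          (C w)⁻¹ = X * (((Gamma w)⁻¹ * (Gamma w)⁻¹) *
        ((Gamma (w + ν))⁻¹ * (Gamma (w - ν))⁻¹) * (C w)⁻¹) := by
      rw [hX]; ring
    rw [h4, ← h3]
    generalize C w = Cw at hCw ⊢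
    field_simp

example : type_of% @rs_entire := @rs_entire

end Pool.Agent.HB
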