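import Pool.Agent.Lib_helper98.H4F.CH
import Pool.Agent.Lib_helper98.H4F.EU
import Pool.Agent.Lib_helper99.HB.Defs
import Pool.Agent.Lib_helper99.HBF.LS

/-!
# Hardy's theorem over imaginary quadratic fields, block RX: the Euler product of the
Rankin-Selberg function
-/

namespace Pool.Agent.HB

open NumberField Complex MeasureTheory
open scoped MatrixGroups ENNReal
open Pool.Agent.H4 (NI PI Hek blw Spl Inr tt uu p4 hh PP ml atl FunBd vcf ideal_euler tt_prod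
  uu_gen p4_exp tt_bd lam_uu)

variable {K : Type} [Field K] [NumberField K]

theorem rx_norm_pos {𝔞 : Ideal (𝓞 K)} (h : 𝔞 ≠ ⊥) : 1 ≤ Ideal.absNorm 𝔞 :=
  Nat.one_le_iff_ne_zero.2 (mt Ideal.absNorm_eq_zero_iff.1 h)

theorem rx_norm_two (𝔭 : PI K) : 2 ≤ Ideal.absNorm 𝔭.1 := by
  have h1 := rx_norm_pos 𝔭.2.2
  have h2 : Ideal.absNorm 𝔭.1 ≠ 1 := by
    intro h
    rw [Ideal.absNorm_eq_one_iff] at h
    exact 𝔭.2.1.ne_top h
  omega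

theorem rx_norm_cpow {n : ℕ} (hn : 1 ≤ n) (w : ℂ) : ‖(n : ℂ) ^ (-w)‖ = (n : ℝ) ^ (-w.re) := by
  rw [Complex.norm_natCast_cpow_of_pos (by omega)]
  simp

theorem rx_cpow_pow (n j : ℕ) (w : ℂ) : ((n ^ j : ℕ) : ℂ) ^ w = ((n : ℂ) ^ w) ^ j := by
  induction j with
  | zero => simp
  | succ j ih =>
    rw [pow_succ, pow_succ, Nat.cast_mul, Complex.natCast_mul_natCast_cpow, ih]

theorem rx_two (z w : ℂ) : z ^ (-(2 * w)) = (z ^ (-w)) ^ 2 := by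
  have h := Complex.cpow_nat_mul z 2 (-w)
  push_cast at h
  rw [← h]
  congr 1
  ring

theorem rx_grow {lam : Ideal (𝓞 K) → ℝ} (h : Hek lam) : ∃ B : ℝ, 0 ≤ B ∧ ∀ 𝔭 : PI K,
    |lam 𝔭.1| + 1 ≤ (Ideal.absNorm 𝔭.1 : ℝ) ^ B := by
  obtain ⟨C, A, hA⟩ := h.grow
  set C1 : ℝ := max C 0 + 1 with hC1
  have hC0 : 0 ≤ max C 0 := le_max_right _ _
  have h1 : 1 ≤ C1 := by linarith
  have h2 : 0 ≤ Real.logb 2 C1 := Real.logb_nonneg (by norm_num) h1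
  refine ⟨Real.logb 2 C1 + max A 0, add_nonneg h2 (le_max_right _ _), fun 𝔭 => ?_⟩
  have hN : (2 : ℝ) ≤ (Ideal.absNorm 𝔭.1 : ℝ) := by exact_mod_cast rx_norm_two 𝔭
  have hN1 : (1 : ℝ) ≤ (Ideal.absNorm 𝔭.1 : ℝ) := by linarith
  have hN0 : (0 : ℝ) < (Ideal.absNorm 𝔭.1 : ℝ) := by linarith
  have e1 := hA 𝔭.1 𝔭.2.2
  have e2 : (Ideal.absNorm 𝔭.1 : ℝ) ^ A ≤ (Ideal.absNorm 𝔭.1 : ℝ) ^ (max A 0) :=
    Real.rpow_le_rpow_of_exponent_le hN1 (le_max_left _ _)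
  have e3 : 1 ≤ (Ideal.absNorm 𝔭.1 : ℝ) ^ (max A 0) :=
    Real.one_le_rpow hN1 (le_max_right _ _)
  have e4 : C1 ≤ (Ideal.absNorm 𝔭.1 : ℝ) ^ (Real.logb 2 C1) := by
    calc C1 = (2 : ℝ) ^ (Real.logb 2 C1) := by
          rw [Real.rpow_logb (by norm_num) (by norm_num) (by linarith)]
      _ ≤ _ := Real.rpow_le_rpow (by norm_num) hN h2
  rw [Real.rpow_add hN0]
  have e5 : |lam 𝔭.1| ≤ max C 0 * (Ideal.absNorm 𝔭.1 : ℝ) ^ (max A 0) :=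
    e1.trans (mul_le_mul (le_max_left _ _) e2 (by positivity) hC0)
  calc |lam 𝔭.1| + 1 ≤ max C 0 * (Ideal.absNorm 𝔭.1 : ℝ) ^ (max A 0) +
        (Ideal.absNorm 𝔭.1 : ℝ) ^ (max A 0) := by linarith
    _ = C1 * (Ideal.absNorm 𝔭.1 : ℝ) ^ (max A 0) := by rw [hC1]; ring
    _ ≤ _ := by gcongr

/-- the local factor -/
theorem rx_loc {x y : ℝ} {Y : ℂ} (hY : ‖Y‖ * ((|x| + 1) * (|y| + 1)) < 1) :
    (∑' j : ℕ, (Y ^ 2) ^ j) * (∑' j : ℕ, ((uu x j * uu y j : ℝ) : ℂ) * Y ^ j) =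
      cexp (∑' j : ℕ, ((tt x (j + 1) * tt y (j + 1) : ℝ) : ℂ) * Y ^ (j + 1) / (j + 1)) ∧
    p4 x y Y =
      cexp (-(∑' j : ℕ, ((tt x (j + 1) * tt y (j + 1) : ℝ) : ℂ) * Y ^ (j + 1) / (j + 1))) := by
  have h1 : ‖Y‖ < 1 := by
    refine lt_of_le_of_lt ?_ hY
    apply le_mul_of_one_le_right (norm_nonneg _)
    have e1 : 1 ≤ |x| + 1 := by linarith [abs_nonneg x]
    have e2 : 1 ≤ |y| + 1 := by linarith [abs_nonneg y]
    nlinarith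
  have h2 : ‖Y ^ 2‖ < 1 := by
    rw [norm_pow]
    exact pow_lt_one₀ (norm_nonneg _) h1 (by norm_num)
  have h3 : (1 : ℂ) - Y ^ 2 ≠ 0 := by
    intro h
    have : Y ^ 2 = 1 := by linear_combination -h
    rw [this, norm_one] at h2
    exact lt_irrefl _ h2
  obtain ⟨_, h4⟩ := uu_gen hY
  obtain ⟨_, h5⟩ := p4_exp hY
  rw [tsum_geometric_of_norm_lt_one h2]
  have h6 : p4 x y Y ≠ 0 := left_ne_zero_of_mul_eq_one h5
  constructor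
  · apply mul_left_cancel₀ h6
    rw [h5, mul_left_comm, h4, inv_mul_cancel₀ h3]
  · rw [Complex.exp_neg]
    exact eq_inv_of_mul_eq_one_left h5

theorem rx_summable {ι : Type} {f : ι × ℕ → ℂ} {g : ι → ℝ} (hg : Summable g)
    (hg0 : ∀ i, 0 ≤ g i) (h : ∀ i j, ‖f (i, j)‖ ≤ g i * (1 / 2 : ℝ) ^ j) :
    Summable fun q => ‖f q‖ := by
  have h1 : Summable fun q : ι × ℕ => g q.1 * (1 / 2 : ℝ) ^ q.2 :=
    hg.mul_of_nonneg (summable_geometric_of_lt_one (by norm_num) (by norm_num)) hg0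
      (fun j => by positivity)
  exact Summable.of_nonneg_of_le (fun _ => norm_nonneg _) (fun q => h q.1 q.2) h1

theorem rx_assemble {ι : Type} (S : Finset ι) {t : ι × ℕ → ℂ} (ht : Summable fun q => ‖t q‖)
    {P : ℂ} (hP : HasProd (fun i => cexp (∑' j, t (i, j))) P) :
    P * ∏ i ∈ S, cexp (-∑' j, t (i, j)) =
      cexp (∑' q : ι × ℕ, open scoped Classical in if q.1 ∈ S then 0 else t q) := by
  classical
  have hts : Summable t := ht.of_norm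
  have hT : Summable fun i => ∑' j, t (i, j) := hts.prod
  have h1 : P = cexp (∑' i, ∑' j, t (i, j)) := hP.unique hT.hasSum.cexp
  have h2 : Summable fun q : ι × ℕ => if q.1 ∈ S then (0 : ℂ) else t q := by
    refine Summable.of_norm_bounded ht fun q => ?_
    split_ifs
    · simp
    · exact le_rfl
  rw [h1, ← Complex.exp_sum, ← Complex.exp_add]
  congr 1
  have h3 : (∑' q : ι × ℕ, if q.1 ∈ S then (0 : ℂ) else t q) =
      ∑' i, ∑' j, if i ∈ S then (0 : ℂ) else t (i, j) := h2.tsum_prod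
  have h4 : ∀ i, (∑' j, if i ∈ S then (0 : ℂ) else t (i, j)) =
      (∑' j, t (i, j)) - if i ∈ S then ∑' j, t (i, j) else 0 := by
    intro i
    by_cases hi : i ∈ S
    · simp [hi]
    · simp [hi]
  have h5 : Summable fun i => if i ∈ S then ∑' j, t (i, j) else 0 :=
    summable_of_ne_finset_zero (s := S) fun i hi => by simp [hi]
  have h6 : (∑' i, if i ∈ S then ∑' j, t (i, j) else 0) = ∑ i ∈ S, ∑' j, t (i, j) := by
    rw [tsum_eq_sum (s := S) fun i hi => by simp [hi]]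
    exact Finset.sum_congr rfl fun i hi => by simp [hi]
  have h7 : (∑' q : ι × ℕ, if q.1 ∈ S then (0 : ℂ) else t q) =
      (∑' i, ∑' j, t (i, j)) - ∑ i ∈ S, ∑' j, t (i, j) := by
    rw [h3, tsum_congr h4, hT.tsum_sub h5, h6]
  rw [Finset.sum_neg_distrib, ← sub_eq_add_neg]
  convert h7.symm using 1

theorem rs_euler {lam lam' : Ideal (𝓞 K) → ℝ} (h : Hek lam) (h' : Hek lam')
    (S : Finset (PI K)) :
    ∃ A : ℝ, ∀ w : ℂ, A < w.re →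
      Summable (fun q : PI K × ℕ => ‖((tt (lam q.1.1) (q.2 + 1) * tt (lam' q.1.1) (q.2 + 1) : ℝ) :
        ℂ) * ((Ideal.absNorm q.1.1 : ℂ) ^ (-w)) ^ (q.2 + 1) / (q.2 + 1)‖) ∧
      ((∑' 𝔞 : NI K, (Ideal.absNorm 𝔞.1 : ℂ) ^ (-(2 * w))) *
        ∑' 𝔞 : NI K, ((lam 𝔞.1 * lam' 𝔞.1 : ℝ) : ℂ) * (Ideal.absNorm 𝔞.1 : ℂ) ^ (-w)) *
        ∏ 𝔭 ∈ S, p4 (lam 𝔭.1) (lam' 𝔭.1) ((Ideal.absNorm 𝔭.1 : ℂ) ^ (-w)) =
      cexp (∑' q : PI K × ℕ, open scoped Classical in if q.1 ∈ S then 0 else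
        ((tt (lam q.1.1) (q.2 + 1) * tt (lam' q.1.1) (q.2 + 1) : ℝ) : ℂ) *
          ((Ideal.absNorm q.1.1 : ℂ) ^ (-w)) ^ (q.2 + 1) / (q.2 + 1)) := by
  obtain ⟨B1, hB1, hg1⟩ := rx_grow h
  obtain ⟨B2, hB2, hg2⟩ := rx_grow h'
  obtain ⟨C1, A1, hC1⟩ := h.grow
  obtain ⟨C2, A2, hC2⟩ := h'.grow
  refine ⟨max (max (B1 + B2 + 2) (A1 + A2 + 1)) 1, fun w hw => ?_⟩
  have hw1 : B1 + B2 + 2 < w.re :=
    lt_of_le_of_lt ((le_max_left _ _).trans (le_max_left _ _)) hw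
  have hw2 : A1 + A2 + 1 < w.re :=
    lt_of_le_of_lt ((le_max_right _ _).trans (le_max_left _ _)) hw
  have hw3 : 1 < w.re := lt_of_le_of_lt (le_max_right _ _) hw
  -- the local variable
  set X : PI K → ℂ := fun 𝔭 => (Ideal.absNorm 𝔭.1 : ℂ) ^ (-w) with hX
  set c : ℝ := w.re - B1 - B2 with hc
  have hc2 : 2 < c := by rw [hc]; linarith
  have hN : ∀ 𝔭 : PI K, (2 : ℝ) ≤ (Ideal.absNorm 𝔭.1 : ℝ) := fun 𝔭 => by
    exact_mod_cast rx_norm_two 𝔭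
  have hN0 : ∀ 𝔭 : PI K, (0 : ℝ) < (Ideal.absNorm 𝔭.1 : ℝ) := fun 𝔭 => by linarith [hN 𝔭]
  have hXn : ∀ 𝔭 : PI K, ‖X 𝔭‖ = (Ideal.absNorm 𝔭.1 : ℝ) ^ (-w.re) := by
    intro 𝔭
    rw [hX]
    simp only
    rw [rx_norm_cpow (rx_norm_pos 𝔭.2.2)]
  have hXb : ∀ 𝔭 : PI K, ‖X 𝔭‖ * ((|lam 𝔭.1| + 1) * (|lam' 𝔭.1| + 1)) ≤
      (Ideal.absNorm 𝔭.1 : ℝ) ^ (-c) := by
    intro 𝔭
    have e1 : (Ideal.absNorm 𝔭.1 : ℝ) ^ (-c) = (Ideal.absNorm 𝔭.1 : ℝ) ^ (-w.re) *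
        ((Ideal.absNorm 𝔭.1 : ℝ) ^ B1 * (Ideal.absNorm 𝔭.1 : ℝ) ^ B2) := by
      rw [← Real.rpow_add (hN0 𝔭), ← Real.rpow_add (hN0 𝔭), hc]
      congr 1
      ring
    rw [e1, hXn]
    have e2 := hg1 𝔭
    have e3 := hg2 𝔭
    gcongr
  have hNc : ∀ 𝔭 : PI K, (Ideal.absNorm 𝔭.1 : ℝ) ^ (-c) ≤ 1 / 2 := by
    intro 𝔭
    calc (Ideal.absNorm 𝔭.1 : ℝ) ^ (-c) ≤ (Ideal.absNorm 𝔭.1 : ℝ) ^ (-(1 : ℝ)) :=
          Real.rpow_le_rpow_of_exponent_le (by linarith [hN 𝔭]) (by linarith)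
      _ = (Ideal.absNorm 𝔭.1 : ℝ)⁻¹ := Real.rpow_neg_one _
      _ ≤ 1 / 2 := by
          rw [one_div]
          exact inv_anti₀ (by norm_num) (hN 𝔭)
  have hY : ∀ 𝔭 : PI K, ‖X 𝔭‖ * ((|lam 𝔭.1| + 1) * (|lam' 𝔭.1| + 1)) < 1 := fun 𝔭 =>
    lt_of_le_of_lt ((hXb 𝔭).trans (hNc 𝔭)) (by norm_num)
  -- summability of the logarithms
  have hinj : Function.Injective (fun 𝔭 : PI K => (⟨𝔭.1, 𝔭.2.2⟩ : NI K)) := by
    intro p q hpq
    have := congrArg Subtype.val hpq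
    exact Subtype.ext this
  have hS1 : Summable fun 𝔭 : PI K => 4 * (Ideal.absNorm 𝔭.1 : ℝ) ^ (-c) :=
    (((ideal_sum (K := K) (x := c) (by linarith)).comp_injective hinj)).mul_left 4
  have hsum : Summable (fun q : PI K × ℕ => ‖((tt (lam q.1.1) (q.2 + 1) *
      tt (lam' q.1.1) (q.2 + 1) : ℝ) : ℂ) * (X q.1) ^ (q.2 + 1) / (q.2 + 1)‖) := by
    refine rx_summable (f := fun q : PI K × ℕ => ((tt (lam q.1.1) (q.2 + 1) *
      tt (lam' q.1.1) (q.2 + 1) : ℝ) : ℂ) * (X q.1) ^ (q.2 + 1) / (q.2 + 1)) hS1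
      (fun 𝔭 => by positivity) fun 𝔭 j => ?_
    have e1 := tt_bd (lam 𝔭.1) (j + 1)
    have e2 := tt_bd (lam' 𝔭.1) (j + 1)
    have e3 : ‖((j : ℂ) + 1)‖ = (j : ℝ) + 1 := by
      have : ((j : ℂ) + 1) = (((j : ℝ) + 1 : ℝ) : ℂ) := by push_cast; ring
      rw [this, Complex.norm_real, Real.norm_of_nonneg (by positivity)]
    simp only
    rw [norm_div, norm_mul, norm_pow, e3, Complex.norm_real, Real.norm_eq_abs, abs_mul]
    have e4 : |tt (lam 𝔭.1) (j + 1)| * |tt (lam' 𝔭.1) (j + 1)| * ‖X 𝔭‖ ^ (j + 1) ≤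
        4 * (Ideal.absNorm 𝔭.1 : ℝ) ^ (-c) * (1 / 2) ^ j := by
      calc |tt (lam 𝔭.1) (j + 1)| * |tt (lam' 𝔭.1) (j + 1)| * ‖X 𝔭‖ ^ (j + 1)
          ≤ (2 * (|lam 𝔭.1| + 1) ^ (j + 1)) * (2 * (|lam' 𝔭.1| + 1) ^ (j + 1)) *
            ‖X 𝔭‖ ^ (j + 1) := by gcongr
        _ = 4 * (‖X 𝔭‖ * ((|lam 𝔭.1| + 1) * (|lam' 𝔭.1| + 1))) ^ (j + 1) := by
            rw [mul_pow, mul_pow]; ring
        _ ≤ 4 * ((Ideal.absNorm 𝔭.1 : ℝ) ^ (-c)) ^ (j + 1) := by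
            gcongr
            exact hXb 𝔭
        _ = 4 * (Ideal.absNorm 𝔭.1 : ℝ) ^ (-c) * ((Ideal.absNorm 𝔭.1 : ℝ) ^ (-c)) ^ j := by
            rw [pow_succ]; ring
        _ ≤ _ := by
            gcongr
            exact hNc 𝔭
    refine (div_le_self (by positivity) ?_).trans e4
    have : (0 : ℝ) ≤ j := Nat.cast_nonneg j
    linarith
  refine ⟨hsum, ?_⟩
  -- the two Euler products
  have hP1 : HasProd (fun 𝔭 : PI K => ∑' j : ℕ, (X 𝔭 ^ 2) ^ j)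
      (∑' 𝔞 : NI K, (Ideal.absNorm 𝔞.1 : ℂ) ^ (-(2 * w))) := by
    have hE := ideal_euler (K := K)
      (g := fun 𝔞 => (Ideal.absNorm 𝔞 : ℂ) ^ (-(2 * w)))
      (by
        rw [Ideal.absNorm_top]
        simp)
      (by
        intro 𝔞 𝔟 _
        rw [map_mul, Nat.cast_mul, Complex.natCast_mul_natCast_cpow])
      (by
        have e1 := ideal_sum (K := K) (x := 2 * w.re) (by linarith)
        refine e1.congr fun 𝔞 => ?_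
        rw [rx_norm_cpow (rx_norm_pos 𝔞.2)]
        congr 1
        simp)
    convert hE using 1
    funext 𝔭
    refine tsum_congr fun j => ?_
    rw [map_pow, rx_cpow_pow, rx_two, hX]
  have hP2 : HasProd (fun 𝔭 : PI K => ∑' j : ℕ, ((uu (lam 𝔭.1) j * uu (lam' 𝔭.1) j : ℝ) : ℂ) *
      X 𝔭 ^ j) (∑' 𝔞 : NI K, ((lam 𝔞.1 * lam' 𝔞.1 : ℝ) : ℂ) *
          (Ideal.absNorm 𝔞.1 : ℂ) ^ (-w)) := by
    have hE := ideal_euler (K := K)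
      (g := fun 𝔞 => ((lam 𝔞 * lam' 𝔞 : ℝ) : ℂ) * (Ideal.absNorm 𝔞 : ℂ) ^ (-w))
      (by
        rw [Ideal.absNorm_top, h.one, h'.one]
        simp)
      (by
        intro 𝔞 𝔟 hab
        rw [map_mul, Nat.cast_mul, Complex.natCast_mul_natCast_cpow,
          h.mul _ _ hab, h'.mul _ _ hab]
        push_cast
        ring)
      (by
        have e1 := (ideal_sum (K := K) (x := w.re - A1 - A2) (by linarith)).mul_left (|C1| * |C2|)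
        refine Summable.of_nonneg_of_le (fun _ => norm_nonneg _) (fun 𝔞 => ?_) e1
        have hn0 : (0 : ℝ) < (Ideal.absNorm 𝔞.1 : ℝ) := by
          exact_mod_cast rx_norm_pos 𝔞.2
        rw [norm_mul, rx_norm_cpow (rx_norm_pos 𝔞.2),
          Complex.norm_real, Real.norm_eq_abs, abs_mul]
        have e2 := hC1 𝔞.1 𝔞.2
        have e3 := hC2 𝔞.1 𝔞.2
        have e4 : C1 ≤ |C1| := le_abs_self _
        have e5 : C2 ≤ |C2| := le_abs_self _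
        have e6 : |lam 𝔞.1| ≤ |C1| * (Ideal.absNorm 𝔞.1 : ℝ) ^ A1 := e2.trans (by gcongr)
        have e7 : |lam' 𝔞.1| ≤ |C2| * (Ideal.absNorm 𝔞.1 : ℝ) ^ A2 := e3.trans (by gcongr)
        calc |lam 𝔞.1| * |lam' 𝔞.1| * (Ideal.absNorm 𝔞.1 : ℝ) ^ (-w.re)
            ≤ (|C1| * (Ideal.absNorm 𝔞.1 : ℝ) ^ A1) * (|C2| * (Ideal.absNorm 𝔞.1 : ℝ) ^ A2) *
              (Ideal.absNorm 𝔞.1 : ℝ) ^ (-w.re) := by gcongr
          _ = |C1| * |C2| * (((Ideal.absNorm 𝔞.1 : ℝ) ^ A1 * (Ideal.absNorm 𝔞.1 : ℝ) ^ A2) *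
              (Ideal.absNorm 𝔞.1 : ℝ) ^ (-w.re)) := by ring
          _ = _ := by
            rw [← Real.rpow_add hn0, ← Real.rpow_add hn0]
            congr 2
            ring)
    convert hE using 1
    funext 𝔭
    refine tsum_congr fun j => ?_
    rw [map_pow, rx_cpow_pow, lam_uu h, lam_uu h', hX]
  have hP := hP1.mul hP2
  have hfun : (fun 𝔭 : PI K => (∑' j : ℕ, (X 𝔭 ^ 2) ^ j) *
      ∑' j : ℕ, ((uu (lam 𝔭.1) j * uu (lam' 𝔭.1) j : ℝ) : ℂ) * X 𝔭 ^ j) =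
      fun 𝔭 : PI K => cexp (∑' j : ℕ, ((tt (lam 𝔭.1) (j + 1) *
        tt (lam' 𝔭.1) (j + 1) : ℝ) : ℂ) * (X 𝔭) ^ (j + 1) / (j + 1)) :=
    funext fun 𝔭 => (rx_loc (hY 𝔭)).1
  rw [hfun] at hP
  have hA := rx_assemble S (t := fun q : PI K × ℕ => ((tt (lam q.1.1) (q.2 + 1) *
      tt (lam' q.1.1) (q.2 + 1) : ℝ) : ℂ) * (X q.1) ^ (q.2 + 1) / (q.2 + 1)) hsum hP
  refine (Eq.trans ?_ hA).trans ?_
  · congr 1
    refine Finset.prod_congr rfl fun 𝔭 _ => ?_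
    exact (rx_loc (hY 𝔭)).2
  · congr 1
    refine tsum_congr fun q => ?_
    by_cases hq : q.1 ∈ S
    · rw [if_pos hq, if_pos hq]
    · rw [if_neg hq, if_neg hq]

end Pool.Agent.HB

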