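import Pool.Agent.Lib_helper99.HB.Defs

/-! Hardy's theorem over imaginary quadratic fields, block SW: the conjugate form. -/

namespace Pool.Agent.HB

open NumberField Complex MeasureTheory
open scoped MatrixGroups ENNReal
open Pool.Agent.H4 (NI PI Hek blw Spl Inr tt uu p4 hh PP ml atl FunBd vcf)

variable {K : Type} [Field K] [NumberField K]
variable {s : 𝓞 K →+* ℂ} {κ : 𝓞 K} {τ : 𝓞 K ≃+* 𝓞 K} {b b' : Fin 2 → 𝓞 K}

theorem sw_invol (F : Fld s κ τ b b') (a : 𝓞 K) : τ (τ a) = a := by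
  have h : s (τ (τ a) - a) = 0 := by
    rw [map_sub, F.tau, F.tau, Complex.conj_conj, sub_self]
  exact sub_eq_zero.mp (F.inj _ h)

theorem sw_norm (F : Fld s κ τ b b') (a : 𝓞 K) : ‖s (τ a)‖ = ‖s a‖ := by
  rw [F.tau]
  exact Complex.norm_conj _

theorem sw_fser (F : Fld s κ τ b b') {ν : ℂ} {c : 𝓞 K → ℝ} (hc : AF s κ ν c) (z : ℂ) (y : ℝ) :
    fser s κ ν (fun a => c (τ a)) (z, y) = fser s κ ν c ((starRingEnd ℂ) z, y) := by
  obtain ⟨u, hu⟩ := F.kapt
  have hk : s κ ≠ 0 := fun h => F.kap (F.inj _ h)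
  have hkc : (starRingEnd ℂ) (s κ) = s (u : 𝓞 K) * s κ := by
    have h := congrArg s hu
    rw [map_mul, F.tau] at h
    exact h
  have hu0 : s (u : 𝓞 K) ≠ 0 := by
    intro h
    rw [h, zero_mul] at hkc
    exact hk ((map_eq_zero _).1 hkc)
  have hu1 : ‖s (u : 𝓞 K)‖ = 1 := by
    have h := congrArg norm hkc
    rw [norm_mul, Complex.norm_conj] at h
    have hkn : ‖s κ‖ ≠ 0 := norm_ne_zero_iff.2 hk
    have h2 : ‖s (u : 𝓞 K)‖ * ‖s κ‖ = 1 * ‖s κ‖ := by rw [one_mul]; exact h.symm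
    exact mul_right_cancel₀ hkn h2
  let e : 𝓞 K ≃ 𝓞 K := (Units.mulLeft u).trans τ.toEquiv
  have he : ∀ a, e a = τ (u * a) := fun a => rfl
  unfold fser
  rw [← e.tsum_eq]
  refine tsum_congr fun a => ?_
  unfold ft
  simp only [he, sw_invol F]
  have hca : ca s κ (τ (u * a)) = ca s κ a := by
    unfold ca
    rw [sw_norm F, map_mul, norm_mul, hu1, one_mul]
  have hre : (s (τ (u * a)) * z / s κ).re = (s a * (starRingEnd ℂ) z / s κ).re := by
    have h1 : (starRingEnd ℂ) (s (τ (u * a)) * z / s κ) = s a * (starRingEnd ℂ) z / s κ := by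
      rw [map_div₀, map_mul, F.tau, Complex.conj_conj, hkc, map_mul]
      field_simp
    rw [← h1, Complex.conj_re]
  rw [hc.unit, hca, hre]

/-- complex conjugation on `H3` -/
noncomputable def sw_cj (P : H3) : H3 := ⟨((starRingEnd ℂ) P.1.1, P.1.2), P.2⟩

theorem sw_v1 (g : SL(2, ℂ)) (P : H3) : (actC g P).1.1 =
    ((g 0 0 * P.1.1 + g 0 1) * (starRingEnd ℂ) (g 1 0 * P.1.1 + g 1 1) +
      g 0 0 * (starRingEnd ℂ) (g 1 0) * ((P.1.2 ^ 2 : ℝ) : ℂ)) / ((den g P : ℝ) : ℂ) := rfl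

theorem sw_v2 (g : SL(2, ℂ)) (P : H3) : (actC g P).1.2 = P.1.2 / den g P := rfl

theorem sw_act (F : Fld s κ τ b b') (γ : SL(2, 𝓞 K)) (P : H3) :
    (act s (Matrix.SpecialLinearGroup.map (τ : 𝓞 K →+* 𝓞 K) γ) (sw_cj P)).1 =
      ((starRingEnd ℂ) (act s γ P).1.1, (act s γ P).1.2) := by
  have e : ∀ i j, (Matrix.SpecialLinearGroup.map s
      (Matrix.SpecialLinearGroup.map (τ : 𝓞 K →+* 𝓞 K) γ)) i j =
        (starRingEnd ℂ) (Matrix.SpecialLinearGroup.map s γ i j) := by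
    intro i j
    show s (τ (γ i j)) = (starRingEnd ℂ) (s (γ i j))
    exact F.tau _
  have hden : den (Matrix.SpecialLinearGroup.map s
      (Matrix.SpecialLinearGroup.map (τ : 𝓞 K →+* 𝓞 K) γ)) (sw_cj P) =
        den (Matrix.SpecialLinearGroup.map s γ) P := by
    unfold den sw_cj
    simp only [e]
    rw [← map_mul, ← map_add, Complex.normSq_conj, Complex.normSq_conj]
  refine Prod.ext ?_ ?_
  · show (actC (Matrix.SpecialLinearGroup.map s
      (Matrix.SpecialLinearGroup.map (τ : 𝓞 K →+* 𝓞 K) γ)) (sw_cj P)).1.1 =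
        (starRingEnd ℂ) (actC (Matrix.SpecialLinearGroup.map s γ) P).1.1
    rw [sw_v1, sw_v1, hden]
    simp only [e, sw_cj]
    simp only [map_div₀, map_add, map_mul, Complex.conj_ofReal, Complex.conj_conj]
  · show (actC (Matrix.SpecialLinearGroup.map s
      (Matrix.SpecialLinearGroup.map (τ : 𝓞 K →+* 𝓞 K) γ)) (sw_cj P)).1.2 =
        (actC (Matrix.SpecialLinearGroup.map s γ) P).1.2
    rw [sw_v2, sw_v2, hden]
    rfl

theorem af_swap (F : Fld s κ τ b b') {ν : ℂ} {c : 𝓞 K → ℝ} (hc : AF s κ ν c) :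
    AF s κ ν (fun a => c (τ a)) := by
  refine ⟨?_, ?_, ?_, ?_⟩
  · show c (τ 0) = 0
    rw [map_zero]
    exact hc.zero
  · intro a u
    show c (τ (u * a)) = c (τ a)
    rw [map_mul]
    exact hc.unit (τ a) (Units.map (τ : 𝓞 K →* 𝓞 K) u)
  · obtain ⟨C, A, hC, hA, h⟩ := hc.grow
    refine ⟨C, A, hC, hA, fun a => ?_⟩
    have h2 := h (τ a)
    rw [sw_norm F] at h2
    exact h2
  · intro γ P
    have h1 : fser s κ ν (fun a => c (τ a)) (act s γ P).1 =
        fser s κ ν c ((starRingEnd ℂ) (act s γ P).1.1, (act s γ P).1.2) :=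
      sw_fser F hc (act s γ P).1.1 (act s γ P).1.2
    have h2 : fser s κ ν (fun a => c (τ a)) P.1 = fser s κ ν c (sw_cj P).1 :=
      sw_fser F hc P.1.1 P.1.2
    rw [h1, h2, ← sw_act F γ P]
    exact hc.mod _ _

example : type_of% @af_swap := @af_swap

end Pool.Agent.HB
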