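import Pool.Agent.Lib_helper98.H4F.HE
import Pool.Agent.Lib_helper99.HB.Defs
import Pool.Agent.Lib_helper99.HBF.CC
import Pool.Agent.Lib_helper99.HBF.RE
import Pool.Agent.Lib_helper99.HBF.RX
import Pool.Agent.Lib_helper99.HBF.SP
import Pool.Agent.Lib_helper99.HBF.SW

/-!
# Hardy's theorem over imaginary quadratic fields, block HE (helper99)
-/

namespace Pool.Agent.HB

open NumberField Complex MeasureTheory
open scoped MatrixGroups ENNReal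
open Pool.Agent.H4 (NI PI Hek blw Spl Inr tt uu p4 hh PP ml atl FunBd vcf he_pow he_norm_pos he_PP he_half hek_swap blw_finite)

variable {K : Type} [Field K] [NumberField K]
variable {s : 𝓞 K →+* ℂ} {κ : 𝓞 K} {τ : 𝓞 K ≃+* 𝓞 K} {b b' : Fin 2 → 𝓞 K}

/-- the automorphism on the prime ideals -/
def he_sw (F : Fld s κ τ b b') : PI K ≃ PI K where
  toFun 𝔭 := ⟨𝔭.1.map τ, by
    have := 𝔭.2.1
    exact Ideal.map_isPrime_of_equiv τ, by
    intro h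
    have h1 := (tau_tau F 𝔭.1).1
    rw [h, Ideal.map_bot] at h1
    exact 𝔭.2.2 h1.symm⟩
  invFun 𝔭 := ⟨𝔭.1.map τ, by
    have := 𝔭.2.1
    exact Ideal.map_isPrime_of_equiv τ, by
    intro h
    have h1 := (tau_tau F 𝔭.1).1
    rw [h, Ideal.map_bot] at h1
    exact 𝔭.2.2 h1.symm⟩
  left_inv 𝔭 := Subtype.ext (tau_tau F 𝔭.1).1
  right_inv 𝔭 := Subtype.ext (tau_tau F 𝔭.1).1

theorem he_sw_val (F : Fld s κ τ b b') (𝔭 : PI K) : (he_sw F 𝔭).1 = 𝔭.1.map τ := rfl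

theorem he_sum (F : Fld s κ τ b b') (lam lam' : Ideal (𝓞 K) → ℝ) (w : ℂ) :
    ∑' 𝔞 : NI K, ((cf lam (gn 𝔞.1) * cf lam' (gn 𝔞.1) : ℝ) : ℂ) *
      (Ideal.absNorm 𝔞.1 : ℂ) ^ (-w) =
    ∑' 𝔞 : NI K, ((lam 𝔞.1 * lam' 𝔞.1 : ℝ) : ℂ) *
      (Ideal.absNorm 𝔞.1 : ℂ) ^ (-w) :=
  tsum_congr fun 𝔞 => by rw [cf_gn F lam 𝔞, cf_gn F lam' 𝔞]

/-- the term of the exponent -/
noncomputable def he_T (lam lam' : Ideal (𝓞 K) → ℝ) (w : ℂ)
    (q : PI K × ℕ) : ℂ :=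
  ((tt (lam q.1.1) (q.2 + 1) * tt (lam' q.1.1) (q.2 + 1) : ℝ) : ℂ) *
    ((Ideal.absNorm q.1.1 : ℂ) ^ (-w)) ^ (q.2 + 1) / (q.2 + 1)

/-- h_exp -/
theorem h_exp (F : Fld s κ τ b b') {ν : ℂ} (hν : Adm ν) {lam : Ideal (𝓞 K) → ℝ} (h : Hek lam)
    (hc : AF s κ ν (cf lam)) (B : Finset ℕ) : ∃ (f : ℂ → ℂ) (A : ℝ), Differentiable ℂ f ∧ ∀ w : ℂ, A < w.re →
      f w = (w - 1) ^ 2 * cexp (∑' q : PI K × ℕ, (SB τ lam B q : ℂ) *
        (((Ideal.absNorm q.1.1) ^ (q.2 + 1) : ℕ) : ℂ) ^ (-w)) := by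
  classical
  set lamt : Ideal (𝓞 K) → ℝ := fun 𝔞 => lam (𝔞.map τ) with hlt
  have ht : Hek lamt := hek_swap h τ
  have hct : AF s κ ν (cf lamt) := by
    have h1 := af_swap F hc
    rwa [cf_swap τ lam] at h1
  obtain ⟨E1, A1, hE1, hE1'⟩ := rs_entire F hν hc hc
  obtain ⟨E2, A2, hE2, hE2'⟩ := rs_entire F hν hc hct
  -- the exceptional set
  have hfin : {𝔭 : PI K | blw 𝔭.1 ∈ B}.Finite := by
    have h1 : {𝔭 : PI K | blw 𝔭.1 ∈ B} = ⋃ p ∈ B, {𝔭 : PI K | blw 𝔭.1 = p} := by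
      ext 𝔭
      simp
    rw [h1]
    exact Set.Finite.biUnion B.finite_toSet fun p _ => blw_finite p
  set S : Finset (PI K) := hfin.toFinset with hS
  have hmem : ∀ 𝔭 : PI K, 𝔭 ∈ S ↔ blw 𝔭.1 ∈ B := by
    intro 𝔭
    rw [hS, Set.Finite.mem_toFinset]
    exact Iff.rfl
  obtain ⟨A3, hA3⟩ := rs_euler h h S
  obtain ⟨A4, hA4⟩ := rs_euler h ht S
  have hp4 : ∀ (x y : ℝ) (𝔭 : PI K), Differentiable ℂ
      fun w : ℂ => p4 x y ((Ideal.absNorm 𝔭.1 : ℂ) ^ (-w)) := by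
    intro x y 𝔭
    have hN : (Ideal.absNorm 𝔭.1 : ℂ) ≠ 0 := by exact_mod_cast (he_norm_pos 𝔭.2.2).ne'
    have h1 : Differentiable ℂ fun w : ℂ => (Ideal.absNorm 𝔭.1 : ℂ) ^ (-w) :=
      Differentiable.const_cpow (by fun_prop) (Or.inl hN)
    unfold p4
    fun_prop
  refine ⟨fun w => E1 w * E2 w *
    ((∏ 𝔭 ∈ S, p4 (lam 𝔭.1) (lam 𝔭.1) ((Ideal.absNorm 𝔭.1 : ℂ) ^ (-w))) *
      ∏ 𝔭 ∈ S, p4 (lam 𝔭.1) (lamt 𝔭.1) ((Ideal.absNorm 𝔭.1 : ℂ) ^ (-w))),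
    max (max A1 A2) (max A3 A4), ?_, fun w hw => ?_⟩
  · refine (hE1.mul hE2).mul (Differentiable.mul ?_ ?_)
    · exact Differentiable.fun_finsetProd fun 𝔭 _ => hp4 _ _ 𝔭
    · exact Differentiable.fun_finsetProd fun 𝔭 _ => hp4 _ _ 𝔭
  · have w1 : A1 < w.re := ((le_max_left _ _).trans (le_max_left _ _)).trans_lt hw
    have w2 : A2 < w.re := ((le_max_right _ _).trans (le_max_left _ _)).trans_lt hw
    have w3 : A3 < w.re := ((le_max_left _ _).trans (le_max_right _ _)).trans_lt hw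
    have w4 : A4 < w.re := ((le_max_right _ _).trans (le_max_right _ _)).trans_lt hw
    obtain ⟨s3, e3⟩ := hA3 w w3
    obtain ⟨s4, e4⟩ := hA4 w w4
    have e1 := hE1' w w1
    have e2 := hE2' w w2
    rw [he_sum F lam lam w] at e1
    rw [he_sum F lam lamt w] at e2
    simp only
    rw [e1, e2]
    set T1 : PI K × ℕ → ℂ := fun q => if q.1 ∈ S then 0 else he_T lam lam w q with hT1
    set T2 : PI K × ℕ → ℂ := fun q => if q.1 ∈ S then 0 else he_T lam lamt w q with hT2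
    have e3' : ((∑' 𝔞 : NI K, (Ideal.absNorm 𝔞.1 : ℂ) ^ (-(2 * w))) *
        ∑' 𝔞 : NI K, ((lam 𝔞.1 * lam 𝔞.1 : ℝ) : ℂ) *
          (Ideal.absNorm 𝔞.1 : ℂ) ^ (-w)) *
        ∏ 𝔭 ∈ S, p4 (lam 𝔭.1) (lam 𝔭.1) ((Ideal.absNorm 𝔭.1 : ℂ) ^ (-w)) =
        cexp (∑' q, T1 q) := by
      rw [e3]
      congr 1
    have e4' : ((∑' 𝔞 : NI K, (Ideal.absNorm 𝔞.1 : ℂ) ^ (-(2 * w))) *
        ∑' 𝔞 : NI K, ((lam 𝔞.1 * lamt 𝔞.1 : ℝ) : ℂ) *
          (Ideal.absNorm 𝔞.1 : ℂ) ^ (-w)) *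
        ∏ 𝔭 ∈ S, p4 (lam 𝔭.1) (lamt 𝔭.1) ((Ideal.absNorm 𝔭.1 : ℂ) ^ (-w)) = cexp (∑' q, T2 q) := by
      rw [e4]
      congr 1
    have S1 : Summable T1 := by
      refine Summable.of_norm_bounded s3 fun q => ?_
      rw [hT1]
      simp only
      split_ifs
      · rw [norm_zero]; exact norm_nonneg _
      · exact le_of_eq rfl
    have S2 : Summable T2 := by
      refine Summable.of_norm_bounded s4 fun q => ?_
      rw [hT2]
      simp only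
      split_ifs
      · rw [norm_zero]; exact norm_nonneg _
      · exact le_of_eq rfl
    set σ : PI K × ℕ ≃ PI K × ℕ := (he_sw F).prodCongr (Equiv.refl ℕ) with hσ
    have hmain : ∑' q, T1 q + ∑' q, T2 q = ∑' q : PI K × ℕ, (SB τ lam B q : ℂ) *
        (((Ideal.absNorm q.1.1) ^ (q.2 + 1) : ℕ) : ℂ) ^ (-w) := by
      rw [he_half σ S1 S2]
      refine tsum_congr fun q => ?_
      have hσq : σ q = (he_sw F q.1, q.2) := rfl
      have hblw : blw (he_sw F q.1).1 = blw q.1.1 := by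
        unfold blw
        rw [he_sw_val, (tau_tau F q.1.1).2]
      have hS' : he_sw F q.1 ∈ S ↔ q.1 ∈ S := by
        rw [hmem, hmem, hblw]
      unfold SB
      by_cases hq : q.1 ∈ S
      · have hq' : he_sw F q.1 ∈ S := hS'.2 hq
        rw [hT1, hT2]
        simp only [hσq]
        rw [if_pos hq, if_pos hq', if_pos hq, if_pos hq', if_pos ((hmem _).1 hq)]
        simp
      · have hq' : he_sw F q.1 ∉ S := fun h' => hq (hS'.1 h')
        rw [hT1, hT2]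
        simp only [hσq]
        rw [if_neg hq, if_neg hq', if_neg hq, if_neg hq', if_neg (fun h' => hq ((hmem _).2 h'))]
        have hn' : Ideal.absNorm (he_sw F q.1).1 = Ideal.absNorm q.1.1 := by
          rw [he_sw_val, (tau_tau F q.1.1).2]
        have l1 : lam (he_sw F q.1).1 = lamt q.1.1 := rfl
        have l2 : lamt (he_sw F q.1).1 = lam q.1.1 := by
          rw [hlt]
          simp only
          rw [he_sw_val, (tau_tau F q.1.1).1]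
        have hω : ‖(1 : ℂ)‖ = 1 := norm_one
        have hPP := he_PP (x := lam q.1.1) (y := lamt q.1.1) hω (q.2 + 1)
        unfold he_T Sv
        simp only
        rw [hn', l1, l2, he_pow]
        have hJ : ((q.2 : ℂ) + 1) ≠ 0 := by exact_mod_cast Nat.succ_ne_zero q.2
        have hsv : (((‖PP (lam q.1.1) (lam (q.1.1.map τ)) 1 (q.2 + 1)‖ ^ 2 /
            (2 * (q.2 + 1)) : ℝ)) : ℂ) = ((‖PP (lam q.1.1) (lamt q.1.1) 1
              (q.2 + 1)‖ ^ 2 : ℝ) : ℂ) / (2 * ((q.2 : ℂ) + 1)) := by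
          push_cast
          rfl
        rw [hsv, hPP]
        simp only [map_one, one_pow]
        push_cast
        field_simp
    rw [← hmain, Complex.exp_add, ← e3', ← e4']
    ring

end Pool.Agent.HB
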