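import Pool.Agent.Lib_helper98.H4F.FB
import Pool.Agent.Lib_helper98.H4F.LD
import Pool.Agent.Lib_helper99.HB.Defs
import Pool.Agent.Lib_helper99.HBF.H0
import Pool.Agent.Lib_helper99.HBF.H1
import Pool.Agent.Lib_helper99.HBF.HE

/-!
# Hardy's theorem over imaginary quadratic fields, block CT (helper99)
-/

namespace Pool.Agent.HB

open NumberField Complex MeasureTheory
open scoped MatrixGroups ENNReal
open Pool.Agent.H4 (NI PI Hek blw Spl Inr tt uu p4 hh PP ml atl FunBd vcf countable_int landau_exp)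

variable {K : Type} [Field K] [NumberField K]
variable {s : 𝓞 K →+* ℂ} {κ : 𝓞 K} {τ : 𝓞 K ≃+* 𝓞 K} {b b' : Fin 2 → 𝓞 K}

theorem ct_sb_nonneg (τ : 𝓞 K ≃+* 𝓞 K)
    (lam : Ideal (𝓞 K) → ℝ) (B : Finset ℕ) (q : PI K × ℕ) : 0 ≤ SB τ lam B q := by
  unfold SB
  split_ifs
  · exact le_rfl
  · unfold Sv
    positivity

theorem ml_not_summable (F : Fld s κ τ b b') {ν : ℂ} (hν : Adm ν) {lam : Ideal (𝓞 K) → ℝ}
    (h : Hek lam) (hc : AF s κ ν (cf lam)) :
    ¬ ∀ i ∈ Finset.Icc 1 4, Summable (fun p : Nat.Primes => ml (an lam) i p) := by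
  intro hm
  obtain ⟨B, hB⟩ := h_one F h hm
  obtain ⟨f, A, hf, hfA⟩ := h_exp F hν h hc B
  have : Countable (Ideal (𝓞 K)) := by
    have := countable_int (K := K)
    have hc : ∀ 𝔞 : Ideal (𝓞 K), ∃ t : Finset (𝓞 K), Ideal.span (t : Set (𝓞 K)) = 𝔞 := by
      intro 𝔞
      exact (isNoetherian_def.mp inferInstance) 𝔞
    choose g hg using hc
    exact Function.Injective.countable (f := g) (fun a a' haa => by rw [← hg a, ← hg a', haa])
  have : Countable (PI K) := inferInstance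
  refine h_zero F (lam := lam) B (landau_exp (ct_sb_nonneg τ lam B)
    (N := fun q : PI K × ℕ => (Ideal.absNorm q.1.1) ^ (q.2 + 1)) ?_ ?_ hf (A := A) ?_)
  · intro q
    have : Ideal.absNorm q.1.1 ≠ 0 := by
      rw [Ne, Ideal.absNorm_eq_zero_iff]
      exact q.1.2.2
    exact Nat.one_le_iff_ne_zero.mpr (pow_ne_zero _ this)
  · exact hB
  · exact hfA

end Pool.Agent.HB
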