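import Pool.Agent.Lib_helper99.HB.Defs
import Pool.Agent.Lib_helper99.HBF.BD
import Pool.Agent.Lib_helper99.HBF.FB
import Pool.Agent.Lib_helper99.HBF.FE
import Pool.Agent.Lib_helper99.HBF.KB
import Pool.Agent.Lib_helper99.HBF.KH
import Pool.Agent.Lib_helper99.HBF.LS

/-! # HB, block LE: evaluation of the completed L-function (helper47) -/

set_option autoImplicit false

namespace Pool.Agent.HB

open NumberField Complex MeasureTheory Filter Topology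
open scoped MatrixGroups ENNReal
open Pool.Agent.H4 (NI PI Hek blw Spl Inr tt uu p4 hh PP ml atl FunBd vcf)

variable {K : Type} [Field K] [NumberField K]
variable {s : 𝓞 K →+* ℂ} {κ : 𝓞 K} {τ : 𝓞 K ≃+* 𝓞 K} {b b' : Fin 2 → 𝓞 K}

theorem le_countable (F : Fld s κ τ b b') : Countable (𝓞 K) := by
  have hs : Function.Surjective (fun n : Fin 2 → ℤ =>
      ((n 0 : ℤ) : 𝓞 K) * b 0 + ((n 1 : ℤ) : 𝓞 K) * b 1) := by
    intro x
    obtain ⟨n, hn⟩ := F.bas x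
    exact ⟨n, hn.symm⟩
  exact hs.countable

theorem le_kap (F : Fld s κ τ b b') : 0 < ‖s κ‖ := by
  have h := DD_pos F
  unfold DD at h
  exact norm_pos_iff.2 (Complex.normSq_pos.1 h)

theorem le_ca_pos (F : Fld s κ τ b b') {a : 𝓞 K} (ha : a ≠ 0) : 0 < ca s κ a := by
  have h1 := one_le_norm F ha
  have h2 := le_kap F
  unfold ca
  positivity

theorem le_ca_nonneg (s : 𝓞 K →+* ℂ) (κ a : 𝓞 K) : 0 ≤ ca s κ a := by
  unfold ca
  positivity

theorem le_sum (F : Fld s κ τ b b') {ν : ℂ} (hν : Adm ν) {c : 𝓞 K → ℝ} (hc : AF s κ ν c)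
    {σ : ℝ} (hz : 3 / 2 < σ) :
    Summable (fun a : 𝓞 K => |c a| * ca s κ a ^ (-(2 * σ))) := by
  obtain ⟨C, hC, hcb⟩ := af_grow F hν hc
  have hk := le_kap F
  have h := (lat_zeta F (x := 2 * σ - 1) (by linarith)).mul_left
    (C * (4 * Real.pi / ‖s κ‖) ^ (-(2 * σ)))
  refine h.of_nonneg_of_le (fun a => mul_nonneg (abs_nonneg _)
    (Real.rpow_nonneg (le_ca_nonneg s κ a) _)) (fun a => ?_)
  by_cases ha : a = 0
  · subst ha
    rw [hc.zero, abs_zero, zero_mul]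
    positivity
  · have h1 : 0 < ‖s a‖ := lt_of_lt_of_le one_pos (one_le_norm F ha)
    have e1 : ca s κ a = (4 * Real.pi / ‖s κ‖) * ‖s a‖ := by
      unfold ca
      ring
    rw [e1, Real.mul_rpow (by positivity) h1.le]
    have e2 : ‖s a‖ ^ (-(2 * σ - 1)) = ‖s a‖ * ‖s a‖ ^ (-(2 * σ)) := by
      rw [← Real.rpow_one_add' h1.le (by linarith)]
      congr 1
      ring
    rw [e2]
    have h3 := hcb a
    calc |c a| * ((4 * Real.pi / ‖s κ‖) ^ (-(2 * σ)) * ‖s a‖ ^ (-(2 * σ))) ≤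
        (C * ‖s a‖) * ((4 * Real.pi / ‖s κ‖) ^ (-(2 * σ)) * ‖s a‖ ^ (-(2 * σ))) :=
          mul_le_mul_of_nonneg_right h3 (by positivity)
      _ = _ := by ring

theorem le_kb_conv {ν z : ℂ} (hz : |ν.re| / 2 < z.re) : MellinConvergent (Kb ν) (2 * z) := by
  obtain ⟨h1, -⟩ := kb_mellin hz
  unfold MellinConvergent
  refine Integrable.mono' h1 ?_ ?_
  · refine ContinuousOn.aestronglyMeasurable ?_ measurableSet_Ioi
    refine ContinuousOn.smul (f := fun x : ℝ => (x : ℂ) ^ (2 * z - 1)) (g := Kb ν) ?_ (kb_cont ν)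
    intro x hx
    refine ContinuousAt.continuousWithinAt ?_
    exact Complex.continuousAt_ofReal_cpow_const x _ (Or.inr (ne_of_gt hx))
  · refine (ae_restrict_iff' measurableSet_Ioi).2 (Eventually.of_forall fun x hx => ?_)
    rw [norm_smul, Complex.norm_cpow_eq_rpow_re_of_pos hx]
    apply le_of_eq
    congr 2
    simp

theorem le_norm_int {ν : ℂ} {σ : ℝ} {k : ℝ} (hk : 0 < k) :
    ∫ y in Set.Ioi (0 : ℝ), y ^ (2 * σ - 1) * ‖Kb ν (k * y)‖ =
      k ^ (-(2 * σ)) * ∫ x in Set.Ioi (0 : ℝ), x ^ (2 * σ - 1) * ‖Kb ν x‖ := by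
  have h := integral_comp_mul_left_Ioi (fun x : ℝ => x ^ (2 * σ - 1) * ‖Kb ν x‖) 0 hk
  rw [mul_zero] at h
  have e : k ^ (-(2 * σ)) = k ^ (-(2 * σ - 1)) * k⁻¹ := by
    rw [← Real.rpow_neg_one, ← Real.rpow_add hk]
    congr 1
    ring
  rw [e, mul_assoc, ← smul_eq_mul (a := k⁻¹), ← h, ← integral_const_mul]
  refine setIntegral_congr_fun measurableSet_Ioi fun y hy => ?_
  rw [Real.mul_rpow hk.le (le_of_lt hy), ← mul_assoc, ← mul_assoc, ← Real.rpow_add hk,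
    neg_add_cancel, Real.rpow_zero, one_mul]

theorem le_ft {ν : ℂ} (hν : Adm ν) (c : 𝓞 K → ℝ) {z : ℂ} {y : ℝ} (hy : 0 < y) (a : 𝓞 K) :
    (y : ℂ) ^ (2 * z - 1 - 1) • ft s κ ν c (0, y) a =
      (c a : ℂ) * ((y : ℂ) ^ (2 * z - 1) • Kb ν (ca s κ a * y)) := by
  have hy0 : (y : ℂ) ≠ 0 := ofReal_ne_zero.2 hy.ne'
  unfold ft
  simp only [mul_zero, zero_div, Complex.zero_re, Complex.ofReal_zero, Complex.exp_zero, mul_one,
    smul_eq_mul]
  rw [kb_real hν]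
  have e : (y : ℂ) ^ (2 * z - 1) = (y : ℂ) ^ (2 * z - 1 - 1) * y := by
    rw [Complex.cpow_sub (2 * z - 1) 1 hy0, Complex.cpow_one, div_mul_cancel₀ _ hy0]
  rw [e]
  push_cast
  ring

theorem lz_eval' (F : Fld s κ τ b b') {ν : ℂ} (hν : Adm ν) {c : 𝓞 K → ℝ} (hc : AF s κ ν c)
    {z : ℂ} (hz : 3 / 2 < z.re) :
    Summable (fun a : 𝓞 K => |c a| * ca s κ a ^ (-(2 * z.re))) ∧
    Lz s κ ν c z = (2 : ℂ) ^ (2 * z - 2) * (Gamma (z + ν / 2) * Gamma (z - ν / 2)) *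
        ∑' a : 𝓞 K, ((c a : ℝ) : ℂ) * ((ca s κ a : ℝ) : ℂ) ^ (-(2 * z)) := by
  have hS := le_sum F hν hc hz
  refine ⟨hS, ?_⟩
  have hνz : |ν.re| / 2 < z.re := by
    rcases hν with h | h
    · rw [h, abs_zero]
      linarith
    · have := h.2
      linarith
  obtain ⟨hm1, hm2⟩ := kb_mellin hνz
  have hconv := le_kb_conv hνz
  have := le_countable F
  set M0 : ℝ := ∫ x in Set.Ioi (0 : ℝ), x ^ (2 * z.re - 1) * ‖Kb ν x‖ with hM0
  -- the terms
  have hcv : ∀ a : 𝓞 K, a ≠ 0 → MellinConvergent (fun y => Kb ν (ca s κ a * y)) (2 * z) :=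
    fun a ha => (MellinConvergent.comp_mul_left (le_ca_pos F ha)).2 hconv
  have hI : ∀ a : 𝓞 K, IntegrableOn (fun y : ℝ => (c a : ℂ) * ((y : ℂ) ^ (2 * z - 1) •
      Kb ν (ca s κ a * y))) (Set.Ioi 0) := by
    intro a
    by_cases ha : a = 0
    · subst ha
      simp only [hc.zero, Complex.ofReal_zero, zero_mul]
      exact integrable_zero _ _ _
    · exact (hcv a ha).const_mul _
  have hN : ∀ a : 𝓞 K, ∫ y in Set.Ioi (0 : ℝ), ‖(c a : ℂ) * ((y : ℂ) ^ (2 * z - 1) •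
      Kb ν (ca s κ a * y))‖ = |c a| * ca s κ a ^ (-(2 * z.re)) * M0 := by
    intro a
    by_cases ha : a = 0
    · subst ha
      simp [hc.zero]
    · rw [mul_assoc, hM0, ← le_norm_int (le_ca_pos F ha), ← integral_const_mul]
      refine setIntegral_congr_fun measurableSet_Ioi fun y hy => ?_
      rw [norm_mul, norm_smul, Complex.norm_cpow_eq_rpow_re_of_pos hy, Complex.norm_real,
        Real.norm_eq_abs]
      congr 3
      simp
  have hV : ∀ a : 𝓞 K, ∫ y in Set.Ioi (0 : ℝ), (c a : ℂ) * ((y : ℂ) ^ (2 * z - 1) •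
      Kb ν (ca s κ a * y)) = (2 : ℂ) ^ (2 * z - 2) * (Gamma (z + ν / 2) * Gamma (z - ν / 2)) *
        (((c a : ℝ) : ℂ) * ((ca s κ a : ℝ) : ℂ) ^ (-(2 * z))) := by
    intro a
    by_cases ha : a = 0
    · subst ha
      simp [hc.zero]
    · rw [integral_const_mul]
      have h := mellin_comp_mul_left (Kb ν) (2 * z) (le_ca_pos F ha)
      have h' : mellin (Kb ν) (2 * z) =
          (2 : ℂ) ^ (2 * z - 2) * (Gamma (z + ν / 2) * Gamma (z - ν / 2)) := by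
        rw [← hm2]
        rfl
      rw [h'] at h
      have h'' : ∫ y in Set.Ioi (0 : ℝ), ((y : ℂ) ^ (2 * z - 1) • Kb ν (ca s κ a * y)) =
          mellin (fun t => Kb ν (ca s κ a * t)) (2 * z) := rfl
      rw [h'', h, smul_eq_mul]
      ring
  have hT := integral_tsum_of_summable_integral_norm (μ := volume.restrict (Set.Ioi (0 : ℝ)))
    (F := fun (a : 𝓞 K) (y : ℝ) => (c a : ℂ) * ((y : ℂ) ^ (2 * z - 1) • Kb ν (ca s κ a * y)))
    hI (by
      simp_rw [hN]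
      exact hS.mul_right _)
  rw [tsum_congr hV, tsum_mul_left] at hT
  rw [hT]
  unfold Lz mellin
  refine setIntegral_congr_fun measurableSet_Ioi fun y hy => ?_
  simp only
  unfold fser
  rw [smul_eq_mul, ← tsum_mul_left]
  refine tsum_congr fun a => ?_
  rw [← smul_eq_mul]
  exact le_ft hν c hy a

theorem lz_eval (F : Fld s κ τ b b') {ν : ℂ} (hν : Adm ν) {c : 𝓞 K → ℝ} (hc : AF s κ ν c)
    {z : ℂ} (hz : 3 / 2 < z.re) :
    Summable (fun 𝔞 : NI K => ‖((c (gn 𝔞.1) : ℝ) : ℂ) * (Ideal.absNorm 𝔞.1 : ℂ) ^ (-z)‖) ∧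
    Lz s κ ν c z = (Nat.card (𝓞 K)ˣ : ℂ) / 4 *
      ((DD s κ / (2 * Real.pi) ^ 2 : ℝ) : ℂ) ^ z * (Gamma (z + ν / 2) * Gamma (z - ν / 2)) *
        ∑' 𝔞 : NI K, ((c (gn 𝔞.1) : ℝ) : ℂ) * (Ideal.absNorm 𝔞.1 : ℂ) ^ (-z) := by
  obtain ⟨hS, hE⟩ := lz_eval' F hν hc hz
  have hD := DD_pos F
  have hκ := le_kap F
  set g : 𝓞 K → ℂ := fun a => ((c a : ℝ) : ℂ) * ((ca s κ a : ℝ) : ℂ) ^ (-(2 * z)) with hg
  have hg0 : g 0 = 0 := by
    simp [hg, hc.zero]
  have hgu : ∀ (a : 𝓞 K) (u : (𝓞 K)ˣ), g (u * a) = g a := by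
    intro a u
    have e : ca s κ (u * a) = ca s κ a := by
      unfold ca
      rw [map_mul, norm_mul, unit_norm F u, one_mul]
    simp only [hg, hc.unit a u, e]
  obtain ⟨hun1, hun2⟩ := un_tsum F hg0 hgu
  -- the value at a generator
  set D' : ℝ := DD s κ / (16 * Real.pi ^ 2) with hD'
  have hD'0 : 0 < D' := by positivity
  have hgn : ∀ 𝔞 : NI K, g (gn 𝔞.1) = (D' : ℂ) ^ z *
      (((c (gn 𝔞.1) : ℝ) : ℂ) * (Ideal.absNorm 𝔞.1 : ℂ) ^ (-z)) := by
    intro 𝔞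
    obtain ⟨-, h2, h3⟩ := gn_spec F 𝔞.1
    have h0 := h2 𝔞.2
    have hp := le_ca_pos F h0
    have hNp : (0 : ℝ) < (Ideal.absNorm 𝔞.1 : ℝ) := by
      rw [h3, Complex.normSq_eq_norm_sq]
      have := one_le_norm F h0
      positivity
    have e1 : ca s κ (gn 𝔞.1) ^ 2 = D'⁻¹ * (Ideal.absNorm 𝔞.1 : ℝ) := by
      rw [h3, hD']
      unfold ca DD
      rw [Complex.normSq_eq_norm_sq, Complex.normSq_eq_norm_sq]
      field_simp
      ring
    have e2 : ((ca s κ (gn 𝔞.1) : ℝ) : ℂ) ^ (-(2 * z)) =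
        (((ca s κ (gn 𝔞.1)) ^ 2 : ℝ) : ℂ) ^ (-z) := by
      rw [Complex.ofReal_pow, ← Complex.cpow_natCast, ← Complex.cpow_mul]
      · congr 1
        push_cast
        ring
      · rw [← Complex.ofReal_log hp.le]
        simp [Real.pi_pos]
      · rw [← Complex.ofReal_log hp.le]
        simp [Real.pi_pos.le]
    have e3 : ((D'⁻¹ * (Ideal.absNorm 𝔞.1 : ℝ) : ℝ) : ℂ) ^ (-z) =
        (D' : ℂ) ^ z * (Ideal.absNorm 𝔞.1 : ℂ) ^ (-z) := by
      rw [Complex.ofReal_mul, Complex.mul_cpow_ofReal_nonneg (by positivity) hNp.le]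
      congr 1
      rw [Complex.ofReal_inv, Complex.inv_cpow, Complex.cpow_neg, inv_inv]
      rw [Complex.arg_ofReal_of_nonneg hD'0.le]
      exact Real.pi_pos.ne
    simp only [hg]
    rw [e2, e1, e3]
    ring
  have hD'c : (D' : ℂ) ^ z ≠ 0 := by
    rw [Ne, Complex.cpow_eq_zero_iff]
    intro h
    exact hD'0.ne' (by exact_mod_cast h.1)
  have hSn : Summable (fun a : 𝓞 K => ‖g a‖) := by
    refine hS.congr fun a => ?_
    by_cases ha : a = 0
    · subst ha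
      simp [hg, hc.zero]
    · simp only [hg]
      rw [norm_mul, Complex.norm_real, Real.norm_eq_abs,
        Complex.norm_cpow_eq_rpow_re_of_pos (le_ca_pos F ha)]
      congr 2
      simp
  refine ⟨?_, ?_⟩
  · have h := (hun1.1 hSn).mul_left ‖(D' : ℂ) ^ z‖⁻¹
    refine h.congr fun 𝔞 => ?_
    rw [hgn, norm_mul ((D' : ℂ) ^ z), ← mul_assoc, inv_mul_cancel₀ (norm_ne_zero_iff.2 hD'c),
      one_mul]
  · rw [hE, hun2, tsum_congr hgn, tsum_mul_left]
    have e4 : (2 : ℂ) ^ (2 * z - 2) * (D' : ℂ) ^ z =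
        1 / 4 * ((DD s κ / (2 * Real.pi) ^ 2 : ℝ) : ℂ) ^ z := by
      have h1 : (2 : ℂ) ^ (2 * z - 2) = ((4 : ℝ) : ℂ) ^ z / 4 := by
        rw [Complex.cpow_sub _ _ two_ne_zero]
        have h2 : (2 : ℂ) ^ (2 : ℂ) = 4 := by
          rw [show (2 : ℂ) = ((2 : ℕ) : ℂ) by norm_num, Complex.cpow_natCast]
          norm_num
        have h3 : (2 : ℂ) ^ (2 * z) = ((4 : ℝ) : ℂ) ^ z := by
          rw [show (4 : ℝ) = 2 * 2 by norm_num, Complex.ofReal_mul,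
            Complex.mul_cpow_ofReal_nonneg (by norm_num) (by norm_num), two_mul,
            Complex.cpow_add _ _ two_ne_zero]
          norm_num
        rw [h2, h3]
      have h4 : (DD s κ / (2 * Real.pi) ^ 2 : ℝ) = 4 * D' := by
        rw [hD']
        field_simp
        ring
      rw [h1, h4, Complex.ofReal_mul,
        Complex.mul_cpow_ofReal_nonneg (by norm_num) hD'0.le]
      ring
    linear_combination ((Gamma (z + ν / 2) * Gamma (z - ν / 2)) * (Nat.card (𝓞 K)ˣ : ℂ) *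
      ∑' 𝔞 : NI K, ((c (gn 𝔞.1) : ℝ) : ℂ) * (Ideal.absNorm 𝔞.1 : ℂ) ^ (-z)) * e4

end Pool.Agent.HB
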