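import Pool.Agent.Lib_helper99.HB.Defs
import Pool.Agent.Lib_helper99.HBF.BD
import Pool.Agent.Lib_helper99.HBF.FS

/-!
# Hardy's theorem over imaginary quadratic fields: block RB
-/

namespace Pool.Agent.HB

open NumberField Complex MeasureTheory Filter Topology
open scoped MatrixGroups ENNReal

variable {K : Type} [Field K] [NumberField K]
variable {s : 𝓞 K →+* ℂ} {κ : 𝓞 K} {τ : 𝓞 K ≃+* 𝓞 K} {b b' : Fin 2 → 𝓞 K}

/-- the inversion in `SL₂(𝓞)` -/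
def rb_w (K : Type) [Field K] [NumberField K] : SL(2, 𝓞 K) :=
  ⟨!![0, -1; 1, 0], by simp [Matrix.det_fin_two_of]⟩

theorem rb_act (s : 𝓞 K →+* ℂ) (z : ℂ) {y : ℝ} (hy : 0 < y) :
    (act s (rb_w K) ⟨(z, y), hy⟩).1 =
      (-(starRingEnd ℂ) z / ((normSq z + y ^ 2 : ℝ) : ℂ), y / (normSq z + y ^ 2)) := by
  unfold act actC den rb_w
  simp [Matrix.SpecialLinearGroup.map_apply_coe]

theorem ry_inv {ν : ℂ} {c : 𝓞 K → ℝ} (hc : AF s κ ν c) (v : ℂ) {y : ℝ} (hy : 0 < y) :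
    ry s κ ν c v y = ry s κ ν c (-(starRingEnd ℂ) v) (y * (1 + normSq v))⁻¹ := by
  have h := hc.mod (rb_w K) ⟨((y : ℂ) * v, y), hy⟩
  rw [rb_act s ((y : ℂ) * v) hy] at h
  unfold ry
  rw [← h]
  have hN : 0 < 1 + normSq v := by
    have := normSq_nonneg v
    linarith
  have e : normSq ((y : ℂ) * v) + y ^ 2 = y * (y * (1 + normSq v)) := by
    rw [map_mul, Complex.normSq_ofReal]
    ring
  congr 1
  rw [e]
  have hyc : (y : ℂ) ≠ 0 := by exact_mod_cast hy.ne'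
  have hNc : ((1 + normSq v : ℝ) : ℂ) ≠ 0 := by exact_mod_cast hN.ne'
  apply Prod.ext
  · simp only [map_mul, Complex.conj_ofReal, Complex.ofReal_mul, Complex.ofReal_inv]
    field_simp
  · simp only
    field_simp

theorem ry_cont (F : Fld s κ τ b b') {ν : ℂ} (hν : Adm ν) {c : 𝓞 K → ℝ} (hc : AF s κ ν c) :
    ContinuousOn (fun p : ℂ × ℝ => ry s κ ν c p.1 p.2) {p | 0 < p.2} := by
  have h := fser_cont F hν hc
  unfold ry
  refine h.comp (f := fun p : ℂ × ℝ => (((p.2 : ℂ) * p.1, p.2) : ℂ × ℝ)) ?_ ?_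
  · exact Continuous.continuousOn (by fun_prop)
  · intro p hp
    exact hp

theorem ry_bd (F : Fld s κ τ b b') {ν : ℂ} (hν : Adm ν) {c : 𝓞 K → ℝ} (hc : AF s κ ν c) :
    ∃ C c₀ : ℝ, 0 ≤ C ∧ 0 < c₀ ∧ ∀ (v : ℂ) (y : ℝ), 0 < y →
      ‖ry s κ ν c v y‖ ≤ C * Real.exp (-(c₀ * y)) ∧
      ‖ry s κ ν c v y‖ ≤ C * Real.exp (-(c₀ / (y * (1 + normSq v)))) := by
  obtain ⟨C₁, c₀, hc₀, h1⟩ := fser_decay F hν hc one_pos
  obtain ⟨C₂, hC₂, h2⟩ := af_bdd F hν hc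
  have hmain : ∀ (v : ℂ) (y : ℝ), 0 < y →
      ‖ry s κ ν c v y‖ ≤ (|C₁| + C₂ * Real.exp c₀) * Real.exp (-(c₀ * y)) := by
    intro v y hy
    unfold ry
    rcases le_total 1 y with h | h
    · have h3 := h1 ((y : ℂ) * v, y) h
      simp only at h3
      refine h3.trans (mul_le_mul_of_nonneg_right ?_ (Real.exp_pos _).le)
      have := le_abs_self C₁
      have : 0 ≤ C₂ * Real.exp c₀ := by positivity
      linarith
    · have h3 := h2 ((y : ℂ) * v, y) hy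
      have h4 : (1 : ℝ) ≤ Real.exp c₀ * Real.exp (-(c₀ * y)) := by
        rw [← Real.exp_add]
        apply Real.one_le_exp
        nlinarith
      calc ‖fser s κ ν c ((y : ℂ) * v, y)‖ ≤ C₂ * 1 := by rw [mul_one]; exact h3
        _ ≤ C₂ * (Real.exp c₀ * Real.exp (-(c₀ * y))) := mul_le_mul_of_nonneg_left h4 hC₂
        _ ≤ (|C₁| + C₂ * Real.exp c₀) * Real.exp (-(c₀ * y)) := by
            have : 0 ≤ |C₁| * Real.exp (-(c₀ * y)) := by positivity
            linarith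
  refine ⟨|C₁| + C₂ * Real.exp c₀, c₀, by positivity, hc₀, fun v y hy => ⟨hmain v y hy, ?_⟩⟩
  have hN : 0 < 1 + normSq v := by
    have := normSq_nonneg v
    linarith
  rw [ry_inv hc v hy]
  have h5 := hmain (-(starRingEnd ℂ) v) (y * (1 + normSq v))⁻¹ (by positivity)
  rw [div_eq_mul_inv]
  exact h5

end Pool.Agent.HB
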