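import Pool.Agent.Lib_helper99.HB.Defs
import Pool.Agent.Lib_helper99.HBF.FS
import Pool.Agent.Lib_helper99.HBF.RB

/-!
# Hardy's theorem over imaginary quadratic fields: block LZ, the completed L-function
-/

namespace Pool.Agent.HB

open NumberField Complex MeasureTheory Filter Topology
open scoped MatrixGroups ENNReal
open Pool.Agent.H4 (NI PI Hek blw Spl Inr tt uu p4 hh PP ml atl FunBd vcf)

variable {K : Type} [Field K] [NumberField K]
variable {s : 𝓞 K →+* ℂ} {κ : 𝓞 K} {τ : 𝓞 K ≃+* 𝓞 K} {b b' : Fin 2 → 𝓞 K}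

theorem lzb_ry (s : 𝓞 K →+* ℂ) (κ : 𝓞 K) (ν : ℂ) (c : 𝓞 K → ℝ) (y : ℝ) :
    ry s κ ν c 0 y = fser s κ ν c (0, y) := by
  simp [ry]

theorem lzb_inv {ν : ℂ} {c : 𝓞 K → ℝ} (hc : AF s κ ν c) {y : ℝ} (hy : 0 < y) :
    fser s κ ν c (0, y⁻¹) = fser s κ ν c (0, y) := by
  have h := ry_inv hc 0 hy
  simp only [map_zero, neg_zero, add_zero, mul_one, lzb_ry] at h
  exact h.symm

theorem lzb_bd (F : Fld s κ τ b b') {ν : ℂ} (hν : Adm ν) {c : 𝓞 K → ℝ} (hc : AF s κ ν c) :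
    ∃ C c₀ : ℝ, 0 ≤ C ∧ 0 < c₀ ∧ ∀ (y : ℝ), 0 < y →
      ‖fser s κ ν c (0, y)‖ ≤ C * Real.exp (-(c₀ * y)) ∧
      ‖fser s κ ν c (0, y)‖ ≤ C * Real.exp (-(c₀ * y⁻¹)) := by
  obtain ⟨C, c₀, hC, h0, h⟩ := ry_bd F hν hc
  refine ⟨C, c₀, hC, h0, fun y hy => ?_⟩
  have h1 := h 0 y hy
  simp only [lzb_ry, map_zero, add_zero, mul_one] at h1
  exact ⟨h1.1, by simpa [div_eq_mul_inv] using h1.2⟩

theorem lzb_loc (F : Fld s κ τ b b') {ν : ℂ} (hν : Adm ν) {c : 𝓞 K → ℝ} (hc : AF s κ ν c) :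
    LocallyIntegrableOn (fun y : ℝ => fser s κ ν c (0, y)) (Set.Ioi 0) := by
  refine ContinuousOn.locallyIntegrableOn ?_ measurableSet_Ioi
  exact (fser_cont F hν hc).comp (by fun_prop) (fun y hy => hy)

theorem lzb_top (F : Fld s κ τ b b') {ν : ℂ} (hν : Adm ν) {c : 𝓞 K → ℝ} (hc : AF s κ ν c)
    (a : ℝ) : (fun y : ℝ => fser s κ ν c (0, y)) =O[atTop] (fun y : ℝ => y ^ (-a)) := by
  obtain ⟨C, c₀, hC, h0, h⟩ := lzb_bd F hν hc
  have h1 : (fun y : ℝ => fser s κ ν c (0, y)) =O[atTop] (fun y : ℝ => Real.exp (-c₀ * y)) := by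
    refine Asymptotics.IsBigO.of_bound C ?_
    filter_upwards [eventually_gt_atTop 0] with y hy
    have := (h y hy).1
    rw [Real.norm_eq_abs, abs_of_pos (Real.exp_pos _)]
    simpa [neg_mul] using this
  exact h1.trans (isLittleO_exp_neg_mul_rpow_atTop h0 _).isBigO

theorem lzb_bot (F : Fld s κ τ b b') {ν : ℂ} (hν : Adm ν) {c : 𝓞 K → ℝ} (hc : AF s κ ν c)
    (a : ℝ) : (fun y : ℝ => fser s κ ν c (0, y)) =O[𝓝[>] 0] (fun y : ℝ => y ^ (-a)) := by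
  have h1 := (lzb_top F hν hc (-a)).comp_tendsto tendsto_inv_nhdsGT_zero
  refine (h1.congr' ?_ ?_)
  · filter_upwards [self_mem_nhdsWithin] with y hy
    exact lzb_inv hc hy
  · filter_upwards [self_mem_nhdsWithin] with y hy
    simp only [Function.comp, neg_neg]
    rw [Real.inv_rpow (le_of_lt hy), ← Real.rpow_neg (le_of_lt hy)]

theorem lz_diff (F : Fld s κ τ b b') {ν : ℂ} (hν : Adm ν) {c : 𝓞 K → ℝ} (hc : AF s κ ν c) :
    Differentiable ℂ (Lz s κ ν c) := by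
  intro z
  have h : DifferentiableAt ℂ (mellin (fun y : ℝ => fser s κ ν c (0, y))) (2 * z - 1) :=
    mellin_differentiableAt_of_isBigO_rpow (a := (2 * z - 1).re + 1) (b := (2 * z - 1).re - 1)
      (lzb_loc F hν hc) (lzb_top F hν hc _) (by linarith) (lzb_bot F hν hc _) (by linarith)
  have h2 : DifferentiableAt ℂ (fun z : ℂ => 2 * z - 1) z := by fun_prop
  exact h.comp z h2

theorem lz_fe (F : Fld s κ τ b b') {ν : ℂ} (hν : Adm ν) {c : 𝓞 K → ℝ} (hc : AF s κ ν c)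
    (z : ℂ) : Lz s κ ν c (1 - z) = Lz s κ ν c z := by
  unfold Lz
  have e : (2 * (1 - z) - 1 : ℂ) = -(2 * z - 1) := by ring
  rw [e, ← mellin_comp_inv]
  unfold mellin
  refine setIntegral_congr_fun measurableSet_Ioi (fun y hy => ?_)
  simp only [lzb_inv hc hy]

theorem lzb_conj (F : Fld s κ τ b b') {ν : ℂ} {c : 𝓞 K → ℝ} (hc : AF s κ ν c) (z : ℂ) :
    (starRingEnd ℂ) (Lz s κ ν c z) = Lz s κ ν c ((starRingEnd ℂ) z) := by
  unfold Lz mellin
  rw [← integral_conj]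
  refine setIntegral_congr_fun measurableSet_Ioi (fun y hy => ?_)
  simp only [smul_eq_mul, map_mul, fser_real F hc]
  congr 1
  have hy' : (0 : ℝ) < y := hy
  have harg : ((y : ℂ)).arg ≠ Real.pi := by
    rw [Complex.arg_ofReal_of_nonneg hy'.le]
    exact Real.pi_ne_zero.symm
  have h := Complex.cpow_conj (y : ℂ) (2 * z - 1 - 1) harg
  rw [Complex.conj_ofReal] at h
  rw [← h]
  congr 1
  simp only [map_sub, map_mul, map_one, map_ofNat]

theorem lz_real (F : Fld s κ τ b b') {ν : ℂ} (hν : Adm ν) {c : 𝓞 K → ℝ} (hc : AF s κ ν c)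
    (t : ℝ) : (Lz s κ ν c (1 / 2 + t * I)).im = 0 := by
  have h1 := lzb_conj F hc (1 / 2 + t * I)
  have h2 : (starRingEnd ℂ) (1 / 2 + t * I : ℂ) = 1 - (1 / 2 + t * I) := by
    simp only [map_add, map_mul, conj_I, conj_ofReal, map_div₀, map_one, map_ofNat]
    ring
  rw [h2, lz_fe F hν hc] at h1
  exact Complex.conj_eq_iff_im.1 h1

end Pool.Agent.HB
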