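import Pool.Agent.Lib_helper99.HB.Defs
import Pool.Agent.Lib_helper99.HBF.RB

/-! HB, block MI: absolute convergence of `M` -/

namespace Pool.Agent.HB

open NumberField Complex MeasureTheory Filter Topology
open scoped MatrixGroups ENNReal
open Pool.Agent.H4 (NI PI Hek blw Spl Inr tt uu p4 hh PP ml atl FunBd vcf)

variable {K : Type} [Field K] [NumberField K]
variable {s : 𝓞 K →+* ℂ} {κ : 𝓞 K} {τ : 𝓞 K ≃+* 𝓞 K} {b b' : Fin 2 → 𝓞 K}

/-- the product measure of the rays -/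
noncomputable def miMu : Measure (ℂ × ℝ) :=
  (volume : Measure ℂ).prod (volume.restrict (Set.Ioi (0 : ℝ)))

theorem mi_mu : miMu = (volume : Measure (ℂ × ℝ)).restrict (Set.univ ×ˢ Set.Ioi (0 : ℝ)) := by
  unfold miMu
  rw [Measure.volume_eq_prod, ← Measure.prod_restrict, Measure.restrict_univ]

theorem mi_exp {c₀ : ℝ} (hc : 0 < c₀) {e : ℝ} (he : 0 < e) {w : ℝ} (hw : 0 < w) :
    Real.exp (-(c₀ / w / 2)) ≤ (2 * e / c₀) ^ e * w ^ e := by
  have h1 : c₀ / w / 2 / e ≤ Real.exp (c₀ / w / 2 / e) := by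
    have := Real.add_one_le_exp (c₀ / w / 2 / e)
    linarith
  have h0 : 0 < c₀ / w / 2 / e := by positivity
  have h2 : (c₀ / w / 2 / e) ^ e ≤ Real.exp (c₀ / w / 2) := by
    calc (c₀ / w / 2 / e) ^ e ≤ (Real.exp (c₀ / w / 2 / e)) ^ e :=
          Real.rpow_le_rpow h0.le h1 he.le
      _ = Real.exp (c₀ / w / 2) := by
          rw [← Real.exp_mul]
          congr 1
          field_simp
  have h3 : (2 * e / c₀) ^ e * w ^ e = ((c₀ / w / 2 / e) ^ e)⁻¹ := by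
    rw [← Real.mul_rpow (by positivity) hw.le, ← Real.inv_rpow h0.le]
    congr 1
    field_simp
  rw [h3, Real.exp_neg]
  exact inv_anti₀ (by positivity) h2

theorem mi_pow {L A t : ℝ} (hL : 0 < L) (ht : |t| ≤ A) : L ^ t ≤ L ^ A + L ^ (-A) := by
  have h := abs_le.1 ht
  rcases le_total 1 L with h1 | h1
  · have h2 := Real.rpow_le_rpow_of_exponent_le h1 h.2
    have h3 : 0 < L ^ (-A) := Real.rpow_pos_of_pos hL _
    linarith
  · have h2 := Real.rpow_le_rpow_of_exponent_ge hL h1 h.1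
    have h3 : 0 < L ^ A := Real.rpow_pos_of_pos hL _
    linarith

/-- the dominating function -/
noncomputable def miD (c₀ A δ : ℝ) (p : ℂ × ℝ) : ℝ :=
  (1 + ‖p.1‖ ^ 2) ^ (-(2 + 2 * δ) / 2) *
    (p.2 ^ (2 * A + δ - 1) * Real.exp (-(c₀ / 2) * p.2 ^ (1 : ℝ)) +
      p.2 ^ (δ - 1) * Real.exp (-(c₀ / 2) * p.2 ^ (1 : ℝ)))

theorem miD_int {c₀ A δ : ℝ} (hc : 0 < c₀) (hA : 0 ≤ A) (hδ : 0 < δ) :
    Integrable (miD c₀ A δ) miMu := by
  have h1 : Integrable (fun v : ℂ => (1 + ‖v‖ ^ 2) ^ (-(2 + 2 * δ) / 2)) :=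
    integrable_rpow_neg_one_add_norm_sq (by
      rw [Complex.finrank_real_complex]; push_cast; linarith)
  have h2 : IntegrableOn (fun y : ℝ => y ^ (2 * A + δ - 1) * Real.exp (-(c₀ / 2) * y ^ (1 : ℝ)))
      (Set.Ioi 0) :=
    integrableOn_rpow_mul_exp_neg_mul_rpow (by linarith) one_pos (by linarith)
  have h3 : IntegrableOn (fun y : ℝ => y ^ (δ - 1) * Real.exp (-(c₀ / 2) * y ^ (1 : ℝ)))
      (Set.Ioi 0) :=
    integrableOn_rpow_mul_exp_neg_mul_rpow (by linarith) one_pos (by linarith)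
  exact h1.mul_prod (h2.add h3)

theorem mi_point {ν : ℂ} {c : 𝓞 K → ℝ} {C c₀ : ℝ} (hC : 0 ≤ C) (hc₀ : 0 < c₀)
    (hb : ∀ (v : ℂ) (y : ℝ), 0 < y →
      ‖ry s κ ν c v y‖ ≤ C * Real.exp (-(c₀ * y)) ∧
      ‖ry s κ ν c v y‖ ≤ C * Real.exp (-(c₀ / (y * (1 + normSq v)))))
    {A δ : ℝ} (hA : 0 ≤ A) (hδ : 0 < δ) {σ z : ℂ} (hσ : σ.re = A + 1 + 2 * δ)
    (hz : |z.re - 1 / 2| ≤ A) {p : ℂ × ℝ} (hp : 0 < p.2) :
    ‖mf s κ ν c σ z p‖ ≤ (C * ((2 * δ / c₀) ^ δ + (2 * (2 * A + δ) / c₀) ^ (2 * A + δ))) *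
      miD c₀ A δ p := by
  obtain ⟨v, y⟩ := p
  simp only at hp
  have hq : 0 < 1 + normSq v := by have := normSq_nonneg v; linarith
  set q := 1 + normSq v with hqd
  have hqn : 1 + ‖v‖ ^ 2 = q := by rw [hqd, normSq_eq_norm_sq]
  obtain ⟨hb1, hb2⟩ := hb v y hp
  rw [← hqd] at hb2
  -- the ray
  have hry : ‖ry s κ ν c v y‖ ≤ C * (Real.exp (-(c₀ / 2) * y) * Real.exp (-(c₀ / (y * q) / 2))) := by
    rw [← Real.exp_add]
    rcases le_total (c₀ * y) (c₀ / (y * q)) with h | h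
    · refine hb2.trans (mul_le_mul_of_nonneg_left (Real.exp_le_exp.2 ?_) hC)
      linarith
    · refine hb1.trans (mul_le_mul_of_nonneg_left (Real.exp_le_exp.2 ?_) hC)
      linarith
  have hnorm : ‖mf s κ ν c σ z (v, y)‖ = ‖ry s κ ν c v y‖ *
      (q ^ ((z.re - 1 / 2) - σ.re) * y ^ (2 * (z.re - 1 / 2) - 1)) := by
    unfold mf
    rw [norm_mul, norm_mul, Complex.norm_cpow_eq_rpow_re_of_pos hq,
      Complex.norm_cpow_eq_rpow_re_of_pos hp]
    congr 3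
    · simp
    · simp; ring
  set t := z.re - 1 / 2 with ht
  set E := Real.exp (-(c₀ / 2) * y) with hE
  set W := Real.exp (-(c₀ / (y * q) / 2)) with hW
  have hL : q ^ (t - σ.re) * y ^ (2 * t - 1) = (y ^ 2 * q) ^ t * (y ^ (-1 : ℝ) * q ^ (-σ.re)) := by
    rw [Real.rpow_def_of_pos hq, Real.rpow_def_of_pos hp, Real.rpow_def_of_pos (by positivity),
      Real.rpow_def_of_pos hp, Real.rpow_def_of_pos hq, Real.log_mul (by positivity) hq.ne',
      Real.log_pow, ← Real.exp_add, ← Real.exp_add, ← Real.exp_add]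
    congr 1
    push_cast
    ring
  have hyq : 0 < y * q := by positivity
  have hW1 := mi_exp hc₀ hδ hyq
  have hW2 := mi_exp hc₀ (e := 2 * A + δ) (by linarith) hyq
  have h1 : W * ((y ^ 2 * q) ^ t * (y ^ (-1 : ℝ) * q ^ (-σ.re))) ≤
      (2 * δ / c₀) ^ δ * (q ^ (-(2 + 2 * δ) / 2) * y ^ (2 * A + δ - 1)) +
      (2 * (2 * A + δ) / c₀) ^ (2 * A + δ) * (q ^ (-(2 + 2 * δ) / 2) * y ^ (δ - 1)) := by
    have h2 := mi_pow (L := y ^ 2 * q) (by positivity) hz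
    have h3 : 0 < y ^ (-1 : ℝ) * q ^ (-σ.re) := by positivity
    calc W * ((y ^ 2 * q) ^ t * (y ^ (-1 : ℝ) * q ^ (-σ.re)))
        ≤ W * (((y ^ 2 * q) ^ A + (y ^ 2 * q) ^ (-A)) * (y ^ (-1 : ℝ) * q ^ (-σ.re))) := by
          gcongr
      _ = W * ((y ^ 2 * q) ^ A * (y ^ (-1 : ℝ) * q ^ (-σ.re))) +
          W * ((y ^ 2 * q) ^ (-A) * (y ^ (-1 : ℝ) * q ^ (-σ.re))) := by ring
      _ ≤ ((2 * δ / c₀) ^ δ * (y * q) ^ δ) * ((y ^ 2 * q) ^ A * (y ^ (-1 : ℝ) * q ^ (-σ.re))) +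
          ((2 * (2 * A + δ) / c₀) ^ (2 * A + δ) * (y * q) ^ (2 * A + δ)) *
            ((y ^ 2 * q) ^ (-A) * (y ^ (-1 : ℝ) * q ^ (-σ.re))) := by
          gcongr
      _ = (2 * δ / c₀) ^ δ * ((y * q) ^ δ * ((y ^ 2 * q) ^ A * (y ^ (-1 : ℝ) * q ^ (-σ.re)))) +
          (2 * (2 * A + δ) / c₀) ^ (2 * A + δ) * ((y * q) ^ (2 * A + δ) *
            ((y ^ 2 * q) ^ (-A) * (y ^ (-1 : ℝ) * q ^ (-σ.re)))) := by ring
      _ = _ := by
          have e1 : (y * q) ^ δ * ((y ^ 2 * q) ^ A * (y ^ (-1 : ℝ) * q ^ (-σ.re))) =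
              q ^ (-(2 + 2 * δ) / 2) * y ^ (2 * A + δ - 1) := by
            rw [Real.rpow_def_of_pos hyq, Real.rpow_def_of_pos (by positivity : 0 < y ^ 2 * q),
              Real.rpow_def_of_pos hp, Real.rpow_def_of_pos hq, Real.rpow_def_of_pos hq,
              Real.rpow_def_of_pos hp, Real.log_mul (by positivity : y ^ 2 ≠ 0) hq.ne', Real.log_mul hp.ne' hq.ne',
              Real.log_pow, ← Real.exp_add, ← Real.exp_add, ← Real.exp_add, ← Real.exp_add, hσ]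
            congr 1
            push_cast
            ring
          have e2 : (y * q) ^ (2 * A + δ) * ((y ^ 2 * q) ^ (-A) * (y ^ (-1 : ℝ) * q ^ (-σ.re))) =
              q ^ (-(2 + 2 * δ) / 2) * y ^ (δ - 1) := by
            rw [Real.rpow_def_of_pos hyq, Real.rpow_def_of_pos (by positivity : 0 < y ^ 2 * q),
              Real.rpow_def_of_pos hp, Real.rpow_def_of_pos hq, Real.rpow_def_of_pos hq,
              Real.rpow_def_of_pos hp, Real.log_mul (by positivity : y ^ 2 ≠ 0) hq.ne', Real.log_mul hp.ne' hq.ne',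
              Real.log_pow, ← Real.exp_add, ← Real.exp_add, ← Real.exp_add, ← Real.exp_add, hσ]
            congr 1
            push_cast
            ring
          rw [e1, e2]
  rw [hnorm, hL]
  set P := (y ^ 2 * q) ^ t * (y ^ (-1 : ℝ) * q ^ (-σ.re)) with hP
  have hP0 : 0 ≤ P := by positivity
  set a1 := (2 * δ / c₀) ^ δ with ha1
  set a2 := (2 * (2 * A + δ) / c₀) ^ (2 * A + δ) with ha2
  have ha10 : 0 ≤ a1 := by positivity
  have ha20 : 0 ≤ a2 := by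
    rw [ha2]; apply Real.rpow_nonneg; apply div_nonneg _ hc₀.le; linarith
  unfold miD
  simp only
  rw [hqn, Real.rpow_one, ← hE]
  set Q := q ^ (-(2 + 2 * δ) / 2) with hQ
  set y1 := y ^ (2 * A + δ - 1) with hy1
  set y2 := y ^ (δ - 1) with hy2
  have hE0 : 0 < E := Real.exp_pos _
  have hQ0 : 0 ≤ Q := by positivity
  have hy10 : 0 ≤ y1 := by positivity
  have hy20 : 0 ≤ y2 := by positivity
  calc ‖ry s κ ν c v y‖ * P ≤ (C * (E * W)) * P := mul_le_mul_of_nonneg_right hry hP0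
    _ = (C * E) * (W * P) := by ring
    _ ≤ (C * E) * (a1 * (Q * y1) + a2 * (Q * y2)) :=
        mul_le_mul_of_nonneg_left h1 (by positivity)
    _ ≤ (C * (a1 + a2)) * (Q * (y1 * E + y2 * E)) := by
        have h5 : 0 ≤ C * E * Q * (a2 * y1 + a1 * y2) := by positivity
        nlinarith

theorem mi_meas (F : Fld s κ τ b b') {ν : ℂ} (hν : Adm ν) {c : 𝓞 K → ℝ} (hc : AF s κ ν c)
    (σ z : ℂ) : AEStronglyMeasurable (mf s κ ν c σ z) miMu := by
  rw [mi_mu]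
  have hs : (Set.univ ×ˢ Set.Ioi (0 : ℝ) : Set (ℂ × ℝ)) = {p : ℂ × ℝ | 0 < p.2} := by
    ext p; simp
  rw [hs]
  apply ContinuousOn.aestronglyMeasurable _ (measurableSet_lt measurable_const measurable_snd)
  unfold mf
  apply (ry_cont F hν hc).mul
  apply ContinuousOn.mul
  · intro p _
    apply ContinuousAt.continuousWithinAt
    apply ContinuousAt.cpow
    · apply Continuous.continuousAt
      exact Complex.continuous_ofReal.comp (continuous_const.add (continuous_normSq.comp continuous_fst))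
    · exact continuousAt_const
    · left
      show 0 < ((1 + normSq p.1 : ℝ) : ℂ).re
      rw [ofReal_re]
      have := normSq_nonneg p.1
      linarith
  · intro p hp
    apply ContinuousAt.continuousWithinAt
    apply ContinuousAt.cpow
    · exact (Complex.continuous_ofReal.comp continuous_snd).continuousAt
    · exact continuousAt_const
    · left
      show 0 < ((p.2 : ℝ) : ℂ).re
      rw [ofReal_re]
      exact hp

theorem mi_ae : ∀ᵐ p ∂miMu, 0 < p.2 := by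
  rw [mi_mu]
  refine (ae_restrict_iff' (MeasurableSet.univ.prod measurableSet_Ioi)).2 ?_
  exact Eventually.of_forall fun p hp => hp.2

theorem mz_int (F : Fld s κ τ b b') {ν : ℂ} (hν : Adm ν) {c : 𝓞 K → ℝ} (hc : AF s κ ν c)
    {σ z : ℂ} (h : |z.re - 1 / 2| < σ.re - 1) : Integrable (mf s κ ν c σ z)
      ((volume : Measure ℂ).prod (volume.restrict (Set.Ioi (0 : ℝ)))) := by
  obtain ⟨C, c₀, hC, hc₀, hb⟩ := ry_bd F hν hc
  set A := |z.re - 1 / 2| with hA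
  have hδ : 0 < (σ.re - 1 - A) / 2 := by linarith
  refine Integrable.mono' ((miD_int hc₀ (abs_nonneg _ : 0 ≤ A) hδ).const_mul
    (C * ((2 * ((σ.re - 1 - A) / 2) / c₀) ^ ((σ.re - 1 - A) / 2) +
      (2 * (2 * A + (σ.re - 1 - A) / 2) / c₀) ^ (2 * A + (σ.re - 1 - A) / 2)))) (mi_meas F hν hc σ z) ?_
  filter_upwards [mi_ae] with p hp
  exact mi_point hC hc₀ hb (abs_nonneg _) hδ (by ring) le_rfl hp

theorem mz_bd (F : Fld s κ τ b b') {ν : ℂ} (hν : Adm ν) {c : 𝓞 K → ℝ} (hc : AF s κ ν c)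
    {σ x y : ℝ} (hx : |x - 1 / 2| < σ - 1) (hy : |y - 1 / 2| < σ - 1) : ∃ C : ℝ, ∀ z : ℂ,
      x ≤ z.re → z.re ≤ y → ‖Mz s κ ν c σ z‖ ≤ C := by
  obtain ⟨C, c₀, hC, hc₀, hb⟩ := ry_bd F hν hc
  set A := max |x - 1 / 2| |y - 1 / 2| with hA
  have hA0 : 0 ≤ A := le_max_of_le_left (abs_nonneg _)
  have hAσ : A < σ - 1 := max_lt hx hy
  have hδ : 0 < (σ - 1 - A) / 2 := by linarith
  set M := C * ((2 * ((σ - 1 - A) / 2) / c₀) ^ ((σ - 1 - A) / 2) +
      (2 * (2 * A + (σ - 1 - A) / 2) / c₀) ^ (2 * A + (σ - 1 - A) / 2)) with hM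
  refine ⟨∫ p, M * miD c₀ A ((σ - 1 - A) / 2) p ∂miMu, fun z hz1 hz2 => ?_⟩
  unfold Mz
  refine norm_integral_le_of_norm_le ((miD_int hc₀ hA0 hδ).const_mul M) ?_
  have h := mi_ae
  unfold miMu at h
  filter_upwards [h] with p hp
  refine mi_point hC hc₀ hb hA0 hδ ?_ ?_ hp
  · rw [ofReal_re]; ring
  · rw [abs_le]
    have h1 : -(A) ≤ x - 1 / 2 := by
      have := neg_abs_le (x - 1 / 2)
      have h2 : |x - 1 / 2| ≤ A := le_max_left _ _
      linarith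
    have h3 : y - 1 / 2 ≤ A := (le_abs_self _).trans (le_max_right _ _)
    constructor <;> linarith

end Pool.Agent.HB
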