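import Pool.Agent.Lib_helper99.HB.Defs
import Pool.Agent.Lib_helper99.HBF.MI

/-!
# Hardy's theorem over imaginary quadratic fields: block MH
-/

namespace Pool.Agent.HB

open NumberField Complex MeasureTheory Filter Topology
open scoped MatrixGroups ENNReal

theorem mh_conv {a b x ℓ : ℝ} (h1 : a ≤ x) (h2 : x ≤ b) :
    Real.exp (x * ℓ) ≤ Real.exp (a * ℓ) + Real.exp (b * ℓ) := by
  rcases le_total 0 ℓ with h | h
  · have : Real.exp (x * ℓ) ≤ Real.exp (b * ℓ) :=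
      Real.exp_le_exp.2 (mul_le_mul_of_nonneg_right h2 h)
    have := Real.exp_pos (a * ℓ)
    linarith
  · have : Real.exp (x * ℓ) ≤ Real.exp (a * ℓ) :=
      Real.exp_le_exp.2 (mul_le_mul_of_nonpos_right h1 h)
    have := Real.exp_pos (b * ℓ)
    linarith

theorem mh_abs {a x ℓ : ℝ} (ha : 0 < a) (h1 : a / 2 ≤ x) (h2 : x ≤ 3 * a / 2) :
    |ℓ| * Real.exp (x * ℓ) ≤ 4 / a * (1 + Real.exp (2 * a * ℓ)) := by
  have e1 : |ℓ| ≤ 2 / a * (Real.exp (a / 2 * ℓ) + Real.exp (-(a / 2 * ℓ))) := by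
    have h3 : |a / 2 * ℓ| ≤ Real.exp (a / 2 * ℓ) + Real.exp (-(a / 2 * ℓ)) := by
      rcases abs_cases (a / 2 * ℓ) with ⟨h, _⟩ | ⟨h, _⟩
      · rw [h]
        have := Real.add_one_le_exp (a / 2 * ℓ)
        have := Real.exp_pos (-(a / 2 * ℓ))
        linarith
      · rw [h]
        have := Real.add_one_le_exp (-(a / 2 * ℓ))
        have := Real.exp_pos (a / 2 * ℓ)
        linarith
    rw [abs_mul, abs_of_pos (by positivity : 0 < a / 2)] at h3
    have h4 : |ℓ| = 2 / a * (a / 2 * |ℓ|) := by field_simp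
    rw [h4]
    exact mul_le_mul_of_nonneg_left h3 (by positivity)
  have e2 := mh_conv (ℓ := ℓ) (show 0 ≤ x + a / 2 by linarith) (show x + a / 2 ≤ 2 * a by linarith)
  have e3 := mh_conv (ℓ := ℓ) (show 0 ≤ x - a / 2 by linarith) (show x - a / 2 ≤ 2 * a by linarith)
  rw [zero_mul, Real.exp_zero] at e2 e3
  calc |ℓ| * Real.exp (x * ℓ) ≤ 2 / a * (Real.exp (a / 2 * ℓ) + Real.exp (-(a / 2 * ℓ))) *
        Real.exp (x * ℓ) := mul_le_mul_of_nonneg_right e1 (Real.exp_pos _).le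
    _ = 2 / a * (Real.exp ((x + a / 2) * ℓ) + Real.exp ((x - a / 2) * ℓ)) := by
        rw [mul_assoc, add_mul, ← Real.exp_add, ← Real.exp_add]
        congr 3 <;> ring
    _ ≤ 2 / a * ((1 + Real.exp (2 * a * ℓ)) + (1 + Real.exp (2 * a * ℓ))) :=
        mul_le_mul_of_nonneg_left (add_le_add e2 e3) (by positivity)
    _ = 4 / a * (1 + Real.exp (2 * a * ℓ)) := by ring

section

variable {α : Type} [MeasurableSpace α] {μ : Measure α} {g : α → ℂ} {ℓ : α → ℝ}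

theorem mh_int (hℓ : AEStronglyMeasurable ℓ μ)
    (hi : ∀ x : ℝ, 0 ≤ x → Integrable (fun p => g p * cexp ((x : ℂ) * (ℓ p : ℂ))) μ) {u : ℂ}
    (hu : 0 ≤ u.re) : Integrable (fun p => g p * cexp (u * (ℓ p : ℂ))) μ := by
  have hg : AEStronglyMeasurable g μ := by
    have := (hi 0 le_rfl).1
    simpa using this
  have hm : AEStronglyMeasurable (fun p => g p * cexp (u * (ℓ p : ℂ))) μ :=
    hg.mul (Complex.continuous_exp.comp_aestronglyMeasurable
      ((Complex.continuous_ofReal.comp_aestronglyMeasurable hℓ).const_mul u))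
  refine (hi u.re hu).mono hm (Eventually.of_forall fun p => ?_)
  rw [norm_mul, norm_mul, Complex.norm_exp, Complex.norm_exp]
  simp

theorem mh_deriv (hℓ : AEStronglyMeasurable ℓ μ)
    (hi : ∀ x : ℝ, 0 ≤ x → Integrable (fun p => g p * cexp ((x : ℂ) * (ℓ p : ℂ))) μ) :
    DifferentiableOn ℂ (fun u : ℂ => ∫ p, g p * cexp (u * (ℓ p : ℂ)) ∂μ) {u | 0 < u.re} := by
  intro u₀ hu₀
  rw [Set.mem_ofPred_eq] at hu₀
  have hg : AEStronglyMeasurable g μ := by
    have := (hi 0 le_rfl).1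
    simpa using this
  have hexp : ∀ u : ℂ, AEStronglyMeasurable (fun p => cexp (u * (ℓ p : ℂ))) μ := fun u =>
    Complex.continuous_exp.comp_aestronglyMeasurable
      ((Complex.continuous_ofReal.comp_aestronglyMeasurable hℓ).const_mul u)
  have hball : Metric.ball u₀ (u₀.re / 2) ∈ 𝓝 u₀ := Metric.ball_mem_nhds _ (by linarith)
  have hre : ∀ u ∈ Metric.ball u₀ (u₀.re / 2), u₀.re / 2 ≤ u.re ∧ u.re ≤ 3 * u₀.re / 2 := by
    intro u hu
    rw [Metric.mem_ball, dist_eq_norm] at hu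
    have h1 := Complex.abs_re_le_norm (u - u₀)
    rw [Complex.sub_re, abs_le] at h1
    constructor <;> linarith [h1.1, h1.2]
  have hbound : Integrable (fun p => 4 / u₀.re * (‖g p * cexp (((0 : ℝ) : ℂ) * (ℓ p : ℂ))‖ +
      ‖g p * cexp (((2 * u₀.re : ℝ) : ℂ) * (ℓ p : ℂ))‖)) μ :=
    ((hi 0 le_rfl).norm.add (hi (2 * u₀.re) (by linarith)).norm).const_mul _
  have key := hasDerivAt_integral_of_dominated_loc_of_deriv_le (μ := μ)
    (F := fun (u : ℂ) p => g p * cexp (u * (ℓ p : ℂ)))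
    (F' := fun (u : ℂ) p => g p * ((ℓ p : ℂ) * cexp (u * (ℓ p : ℂ)))) (x₀ := u₀)
    (bound := fun p => 4 / u₀.re * (‖g p * cexp (((0 : ℝ) : ℂ) * (ℓ p : ℂ))‖ +
      ‖g p * cexp (((2 * u₀.re : ℝ) : ℂ) * (ℓ p : ℂ))‖))
    hball (Eventually.of_forall fun u => hg.mul (hexp u)) (mh_int hℓ hi hu₀.le)
    (hg.mul ((Complex.continuous_ofReal.comp_aestronglyMeasurable hℓ).mul (hexp u₀))) ?_ hbound ?_
  · exact key.2.differentiableAt.differentiableWithinAt
  · refine Eventually.of_forall fun p u hu => ?_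
    obtain ⟨h1, h2⟩ := hre u hu
    have h3 := mh_abs (ℓ := ℓ p) hu₀ h1 h2
    simp only [norm_mul, Complex.norm_exp, Complex.norm_real, Complex.re_mul_ofReal,
      Complex.ofReal_re, Real.norm_eq_abs, zero_mul, Real.exp_zero, mul_one]
    calc ‖g p‖ * (|ℓ p| * Real.exp (u.re * ℓ p)) ≤
          ‖g p‖ * (4 / u₀.re * (1 + Real.exp (2 * u₀.re * ℓ p))) :=
          mul_le_mul_of_nonneg_left h3 (norm_nonneg _)
      _ = 4 / u₀.re * (‖g p‖ + ‖g p‖ * Real.exp (2 * u₀.re * ℓ p)) := by ring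
  · refine Eventually.of_forall fun p u _ => ?_
    have h1 : HasDerivAt (fun u : ℂ => u * (ℓ p : ℂ)) (ℓ p : ℂ) u := by
      simpa using (hasDerivAt_id u).mul_const (ℓ p : ℂ)
    have h2 := (h1.cexp).const_mul (g p)
    have h3 : g p * ((ℓ p : ℂ) * cexp (u * (ℓ p : ℂ))) = g p * (cexp (u * (ℓ p : ℂ)) * (ℓ p : ℂ)) := by
      ring
    simp only [h3]
    exact h2

theorem mh_tend (hℓ : AEStronglyMeasurable ℓ μ)
    (hi : ∀ x : ℝ, 0 ≤ x → Integrable (fun p => g p * cexp ((x : ℂ) * (ℓ p : ℂ))) μ) :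
    Tendsto (fun u : ℝ => ∫ p, g p * cexp ((u : ℂ) * (ℓ p : ℂ)) ∂μ) (𝓝[>] 0)
      (𝓝 (∫ p, g p ∂μ)) := by
  have hg : AEStronglyMeasurable g μ := by
    have := (hi 0 le_rfl).1
    simpa using this
  refine tendsto_integral_filter_of_dominated_convergence
    (fun p => ‖g p * cexp (((0 : ℝ) : ℂ) * (ℓ p : ℂ))‖ + ‖g p * cexp (((1 : ℝ) : ℂ) * (ℓ p : ℂ))‖)
    ?_ ?_ ((hi 0 le_rfl).norm.add (hi 1 zero_le_one).norm) ?_
  · exact Eventually.of_forall fun u => hg.mul (Complex.continuous_exp.comp_aestronglyMeasurable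
      ((Complex.continuous_ofReal.comp_aestronglyMeasurable hℓ).const_mul (u : ℂ)))
  · have h1 : Set.Ioc (0 : ℝ) 1 ∈ 𝓝[>] (0 : ℝ) := Ioc_mem_nhdsGT one_pos
    filter_upwards [h1] with u hu
    refine Eventually.of_forall fun p => ?_
    have h3 := mh_conv (ℓ := ℓ p) hu.1.le hu.2
    rw [zero_mul, Real.exp_zero, one_mul] at h3
    simp only [norm_mul, Complex.norm_exp, Complex.re_mul_ofReal,
      Complex.ofReal_re, zero_mul, Real.exp_zero, mul_one, one_mul]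
    calc ‖g p‖ * Real.exp (u * ℓ p) ≤ ‖g p‖ * (1 + Real.exp (ℓ p)) :=
          mul_le_mul_of_nonneg_left h3 (norm_nonneg _)
      _ = ‖g p‖ + ‖g p‖ * Real.exp (ℓ p) := by ring
  · refine Eventually.of_forall fun p => ?_
    have h1 : Continuous (fun u : ℝ => g p * cexp ((u : ℂ) * (ℓ p : ℂ))) := by fun_prop
    have h2 := h1.tendsto 0
    simp only [Complex.ofReal_zero, zero_mul, Complex.exp_zero, mul_one] at h2
    exact h2.mono_left nhdsWithin_le_nhds

end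

variable {K : Type} [Field K] [NumberField K]
variable {s : 𝓞 K →+* ℂ} {κ : 𝓞 K} {τ : 𝓞 K ≃+* 𝓞 K} {b b' : Fin 2 → 𝓞 K}

/-- the exponent -/
noncomputable def mh_l (p : ℂ × ℝ) : ℝ := Real.log p.2 - 1 / 2 * Real.log (1 + normSq p.1)

theorem mh_l_meas : Measurable mh_l := by
  unfold mh_l
  exact (Real.measurable_log.comp measurable_snd).sub
    (((Real.measurable_log.comp (measurable_const.add
      (Complex.continuous_normSq.measurable.comp measurable_fst)))).const_mul _)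

theorem mh_ae : ∀ᵐ p : ℂ × ℝ ∂((volume : Measure ℂ).prod (volume.restrict (Set.Ioi (0 : ℝ)))),
    0 < p.2 := by
  have e : (volume : Measure ℂ).prod (volume.restrict (Set.Ioi (0 : ℝ))) =
      ((volume : Measure ℂ).prod (volume : Measure ℝ)).restrict (Set.univ ×ˢ Set.Ioi (0 : ℝ)) := by
    rw [← Measure.prod_restrict, Measure.restrict_univ]
  rw [e]
  filter_upwards [ae_restrict_mem (MeasurableSet.univ.prod measurableSet_Ioi)] with p hp
  exact hp.2

theorem mh_mf (ν : ℂ) (c : 𝓞 K → ℝ) (σ z u : ℂ) (p : ℂ × ℝ) (hp : 0 < p.2) :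
    mf s κ ν c (σ + u) (z + u / 2) p = mf s κ ν c σ z p * cexp (u * (mh_l p : ℂ)) := by
  unfold mf mh_l
  have h1 : 0 < 1 + normSq p.1 := by
    have := normSq_nonneg p.1
    linarith
  have h2 : ((1 + normSq p.1 : ℝ) : ℂ) ≠ 0 := by exact_mod_cast h1.ne'
  have h3 : (p.2 : ℂ) ≠ 0 := by exact_mod_cast hp.ne'
  rw [Complex.cpow_def_of_ne_zero h2, Complex.cpow_def_of_ne_zero h2, Complex.cpow_def_of_ne_zero h3,
    Complex.cpow_def_of_ne_zero h3, ← Complex.ofReal_log h1.le, ← Complex.ofReal_log hp.le,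
    mul_assoc, ← Complex.exp_add, ← Complex.exp_add, ← Complex.exp_add]
  congr 2
  push_cast
  ring

theorem mh_hi (F : Fld s κ τ b b') {ν : ℂ} (hν : Adm ν) {c : 𝓞 K → ℝ} (hc : AF s κ ν c)
    {σ : ℝ} {z : ℂ} (h1 : 1 / 2 ≤ z.re) (h2 : z.re < σ - 1 / 2) (x : ℝ) (hx : 0 ≤ x) :
    Integrable (fun p => mf s κ ν c σ z p * cexp ((x : ℂ) * (mh_l p : ℂ)))
      ((volume : Measure ℂ).prod (volume.restrict (Set.Ioi (0 : ℝ)))) := by
  have h := mz_int F hν hc (σ := (σ : ℂ) + (x : ℂ)) (z := z + (x : ℂ) / 2) (by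
    have e1 : (z + (x : ℂ) / 2).re = z.re + x / 2 := by
      rw [Complex.add_re]
      congr 1
      rw [show ((x : ℂ) / 2) = ((x / 2 : ℝ) : ℂ) by push_cast; ring]
      exact Complex.ofReal_re _
    have e2 : ((σ : ℂ) + (x : ℂ)).re = σ + x := by simp
    rw [e1, e2, abs_of_nonneg (by linarith)]
    linarith)
  refine h.congr ?_
  filter_upwards [mh_ae] with p hp
  exact mh_mf ν c σ z x p hp

theorem mz_hol (F : Fld s κ τ b b') {ν : ℂ} (hν : Adm ν) {c : 𝓞 K → ℝ} (hc : AF s κ ν c)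
    {σ : ℝ} {z : ℂ} (h1 : 1 / 2 ≤ z.re) (h2 : z.re < σ - 1 / 2) :
    DifferentiableOn ℂ (fun u : ℂ => Mz s κ ν c (σ + u) (z + u / 2)) {u | 0 < u.re} := by
  have h := mh_deriv mh_l_meas.aestronglyMeasurable (mh_hi F hν hc h1 h2)
  refine h.congr fun u _ => ?_
  unfold Mz
  refine integral_congr_ae ?_
  filter_upwards [mh_ae] with p hp
  exact mh_mf ν c σ z u p hp

theorem mz_lim (F : Fld s κ τ b b') {ν : ℂ} (hν : Adm ν) {c : 𝓞 K → ℝ} (hc : AF s κ ν c)
    {σ : ℝ} {z : ℂ} (h1 : 1 / 2 ≤ z.re) (h2 : z.re < σ - 1 / 2) :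
    Tendsto (fun u : ℝ => Mz s κ ν c (σ + u) (z + u / 2)) (𝓝[>] 0) (𝓝 (Mz s κ ν c σ z)) := by
  have h := mh_tend mh_l_meas.aestronglyMeasurable (mh_hi F hν hc h1 h2)
  refine (h.congr fun u => ?_)
  unfold Mz
  refine integral_congr_ae ?_
  filter_upwards [mh_ae] with p hp
  exact (mh_mf ν c σ z u p hp).symm

end Pool.Agent.HB
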