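import Pool.Agent.Lib_helper99.HB.Defs
import Pool.Agent.Lib_helper99.HBF.LE
import Pool.Agent.Lib_helper99.HBF.XI

/-!
# Hardy's theorem over imaginary quadratic fields: block MX, evaluation of `M`
-/

namespace Pool.Agent.HB

open NumberField Complex MeasureTheory Filter Topology
open scoped MatrixGroups ENNReal
open Pool.Agent.H4 (NI PI Hek blw Spl Inr tt uu p4 hh PP ml atl FunBd vcf)

variable {K : Type} [Field K] [NumberField K]
variable {s : 𝓞 K →+* ℂ} {κ : 𝓞 K} {τ : 𝓞 K ≃+* 𝓞 K} {b b' : Fin 2 → 𝓞 K}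

/-- the integrand of `xint` -/
noncomputable def mxH (ν : ℂ) (σ : ℝ) (z ω : ℂ) (p : ℂ × ℝ) : ℂ :=
  ((1 + normSq p.1 : ℝ) : ℂ) ^ (z - 1 / 2 - σ) *
      ((p.2 : ℂ) ^ (2 * z - 1) * ((Kr ν p.2 : ℝ) : ℂ) *
        cexp (I * ((p.2 * (ω * p.1).re : ℝ) : ℂ)))

/-- the measure on `ℂ × (0, ∞)` -/
noncomputable def mxm : Measure (ℂ × ℝ) :=
  (volume : Measure ℂ).prod (volume.restrict (Set.Ioi (0 : ℝ)))

theorem mx_map {l : ℝ} (hl : 0 < l) :
    Measure.map (Prod.map id (fun y : ℝ => l * y)) mxm = ENNReal.ofReal l⁻¹ • mxm := by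
  unfold mxm
  have h1 : Measure.map (fun y : ℝ => l * y) (volume.restrict (Set.Ioi (0 : ℝ))) =
      ENNReal.ofReal l⁻¹ • volume.restrict (Set.Ioi (0 : ℝ)) := by
    have h2 : (fun y : ℝ => l * y) ⁻¹' Set.Ioi (0 : ℝ) = Set.Ioi (0 : ℝ) := by
      ext y
      simp [hl]
    have h3 := Measure.restrict_map (μ := (volume : Measure ℝ)) (f := fun y : ℝ => l * y)
      (by fun_prop) (measurableSet_Ioi (a := (0 : ℝ)))
    rw [h2] at h3
    rw [← h3, Real.map_volume_mul_left hl.ne', abs_of_pos (inv_pos.2 hl), Measure.restrict_smul]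
  rw [← Measure.map_prod_map _ _ measurable_id (by fun_prop), h1, Measure.map_id]
  rw [Measure.prod_smul_right]

theorem mx_scale {l : ℝ} (hl : 0 < l) {E : Type*} [NormedAddCommGroup E] [NormedSpace ℝ E]
    {H : ℂ × ℝ → E} (hH : Integrable H mxm) :
    Integrable (fun p : ℂ × ℝ => H (p.1, l * p.2)) mxm ∧
      ∫ p, H (p.1, l * p.2) ∂mxm = l⁻¹ • ∫ p, H p ∂mxm := by
  have hm : Measurable (Prod.map (id : ℂ → ℂ) (fun y : ℝ => l * y)) := by fun_prop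
  have h1 : Integrable H (Measure.map (Prod.map id (fun y : ℝ => l * y)) mxm) := by
    rw [mx_map hl]
    exact hH.smul_measure ENNReal.ofReal_ne_top
  have h2 := (integrable_map_measure h1.aestronglyMeasurable hm.aemeasurable).1 h1
  refine ⟨h2, ?_⟩
  have h3 := integral_map hm.aemeasurable h1.aestronglyMeasurable
  rw [mx_map hl, integral_smul_measure, ENNReal.toReal_ofReal (inv_pos.2 hl).le] at h3
  exact h3.symm

/-- the terms of the integrand -/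
noncomputable def mxG (s : 𝓞 K →+* ℂ) (κ : 𝓞 K) (ν : ℂ) (c : 𝓞 K → ℝ) (σ : ℝ) (z : ℂ) (a : 𝓞 K)
    (p : ℂ × ℝ) : ℂ :=
  ft s κ ν c ((p.2 : ℂ) * p.1, p.2) a *
    (((1 + normSq p.1 : ℝ) : ℂ) ^ (z - 1 / 2 - σ) * (p.2 : ℂ) ^ (2 * z - 2))

theorem mx_G (s : 𝓞 K →+* ℂ) (κ : 𝓞 K) (ν : ℂ) (c : 𝓞 K → ℝ) (σ : ℝ) (z : ℂ) {a : 𝓞 K}
    (hl : 0 < ca s κ a) (p : ℂ × ℝ) (hp : 0 < p.2) :
    mxG s κ ν c σ z a p = ((c a : ℝ) : ℂ) * ((ca s κ a : ℝ) : ℂ) ^ (-(2 * z - 1)) *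
      mxH ν σ z ((s a / s κ) / (‖s a / s κ‖ : ℂ)) (p.1, ca s κ a * p.2) := by
  have hs : ‖s a / s κ‖ ≠ 0 := by
    intro h
    rw [norm_div] at h
    unfold ca at hl
    rw [mul_div_assoc, h, mul_zero] at hl
    exact lt_irrefl _ hl
  have hcn : (ca s κ a : ℝ) = 4 * Real.pi * ‖s a / s κ‖ := by
    unfold ca
    rw [norm_div]
    ring
  unfold mxG mxH ft
  have e1 : (2 * Real.pi * I * ((2 * (s a * ((p.2 : ℂ) * p.1) / s κ).re : ℝ) : ℂ) : ℂ) =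
      I * ((ca s κ a * p.2 * ((s a / s κ) / (‖s a / s κ‖ : ℂ) * p.1).re : ℝ) : ℂ) := by
    have e2 : (s a * ((p.2 : ℂ) * p.1) / s κ).re = p.2 * (s a / s κ * p.1).re := by
      rw [← Complex.re_ofReal_mul]
      congr 1
      ring
    have e3 : ((s a / s κ) / (‖s a / s κ‖ : ℂ) * p.1).re = (s a / s κ * p.1).re / ‖s a / s κ‖ := by
      rw [← Complex.div_ofReal_re]
      congr 1
      ring
    rw [e2, e3, hcn]
    push_cast
    have hs' : ((‖s a / s κ‖ : ℝ) : ℂ) ≠ 0 := by exact_mod_cast hs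
    field_simp
    ring
  rw [e1]
  have e4 : (((ca s κ a * p.2 : ℝ) : ℂ)) ^ (2 * z - 1) =
      ((ca s κ a : ℝ) : ℂ) ^ (2 * z - 1) * (p.2 : ℂ) ^ (2 * z - 1) := by
    rw [Complex.ofReal_mul, Complex.mul_cpow_ofReal_nonneg hl.le hp.le]
  have e5 : (p.2 : ℂ) ^ (2 * z - 1) = (p.2 : ℂ) ^ (2 * z - 2) * (p.2 : ℂ) := by
    have hp' : (p.2 : ℂ) ≠ 0 := by exact_mod_cast hp.ne'
    have h := Complex.cpow_add (2 * z - 2) 1 hp'
    rw [Complex.cpow_one] at h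
    rw [← h]
    congr 1
    ring
  have hl' : ((ca s κ a : ℝ) : ℂ) ≠ 0 := by exact_mod_cast hl.ne'
  have e6 : ((ca s κ a : ℝ) : ℂ) ^ (-(2 * z - 1)) * ((ca s κ a : ℝ) : ℂ) ^ (2 * z - 1) = 1 := by
    rw [← Complex.cpow_add _ _ hl', neg_add_cancel, Complex.cpow_zero]
  simp only
  rw [e4, e5]
  push_cast
  linear_combination (-((c a : ℝ) : ℂ) * ((1 + normSq p.1 : ℂ)) ^ (z - 1 / 2 - σ) *
    (p.2 : ℂ) ^ (2 * z - 2) * (p.2 : ℂ) * ((Kr ν (ca s κ a * p.2) : ℝ) : ℂ) *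
    cexp (I * ((ca s κ a : ℂ) * p.2 * (((s a / s κ) / (‖s a / s κ‖ : ℂ) * p.1).re : ℂ)))) * e6

theorem mx_ae : ∀ᵐ p : ℂ × ℝ ∂mxm, 0 < p.2 := by
  have h := Measure.prod_restrict (μ := (volume : Measure ℂ)) (ν := (volume : Measure ℝ))
    Set.univ (Set.Ioi 0)
  rw [Measure.restrict_univ] at h
  unfold mxm
  rw [h]
  filter_upwards [ae_restrict_mem (MeasurableSet.univ.prod measurableSet_Ioi)] with p hp
  exact hp.2

theorem mx_Hnorm (ν : ℂ) (σ : ℝ) (z ω : ℂ) (p : ℂ × ℝ) :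
    ‖mxH ν σ z ω p‖ = ‖mxH ν σ z 1 p‖ := by
  unfold mxH
  simp only [norm_mul, Complex.norm_exp_I_mul_ofReal]

theorem mx_ca (F : Fld s κ τ b b') {a : 𝓞 K} (ha : a ≠ 0) : 0 < ca s κ a := by
  have h1 : s a ≠ 0 := fun h => ha (F.inj a h)
  have h2 : s κ ≠ 0 := fun h => F.kap (F.inj κ h)
  unfold ca
  have := norm_pos_iff.2 h1
  have := norm_pos_iff.2 h2
  have := Real.pi_pos
  positivity

theorem mx_term (F : Fld s κ τ b b') {ν : ℂ} (hν : Adm ν) {c : 𝓞 K → ℝ} (hc : AF s κ ν c)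
    {σ : ℝ} {z : ℂ} (h1 : 1 / 2 < z.re) (h2 : z.re < σ - 1 / 2) (a : 𝓞 K) :
    Integrable (mxG s κ ν c σ z a) mxm ∧
      ∫ p, ‖mxG s κ ν c σ z a p‖ ∂mxm =
        |c a| * ca s κ a ^ (-(2 * z.re)) * ∫ p, ‖mxH ν σ z 1 p‖ ∂mxm ∧
      ∫ p, mxG s κ ν c σ z a p ∂mxm = ((c a : ℝ) : ℂ) * ((ca s κ a : ℝ) : ℂ) ^ (-(2 * z)) *
        (Real.pi * (2 : ℂ) ^ (2 * z - 2) * (Gamma (z + ν / 2) * Gamma (z - ν / 2)) *
        (Gs ν σ / (Gamma (σ + 1 / 2 - z) * Gamma (σ - 1 / 2 + z)))) := by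
  by_cases ha : a = 0
  · subst ha
    have h0 : mxG s κ ν c σ z 0 = fun _ => 0 := by
      ext p
      unfold mxG ft
      simp [hc.zero]
    rw [h0]
    simp [hc.zero]
  · have hl := mx_ca F ha
    set l := ca s κ a with hldef
    set ω : ℂ := (s a / s κ) / (‖s a / s κ‖ : ℂ) with hω
    have hω1 : ‖ω‖ = 1 := by
      have h1 : s a ≠ 0 := fun h => ha (F.inj a h)
      have h2 : s κ ≠ 0 := fun h => F.kap (F.inj κ h)
      have h3 : ‖s a / s κ‖ ≠ 0 := norm_ne_zero_iff.2 (div_ne_zero h1 h2)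
      rw [hω, norm_div, Complex.norm_real, norm_norm, div_self h3]
    have hl' : (l : ℂ) ≠ 0 := by exact_mod_cast hl.ne'
    obtain ⟨hx1, hx2⟩ := xint hν h1 h2 hω1
    have hx1' : Integrable (mxH ν σ z ω) mxm := hx1
    have hx2' : ∫ p, mxH ν σ z ω p ∂mxm = Real.pi * (2 : ℂ) ^ (2 * z - 2) *
      (Gamma (z + ν / 2) * Gamma (z - ν / 2)) *
        (Gs ν σ / (Gamma (σ + 1 / 2 - z) * Gamma (σ - 1 / 2 + z))) := hx2
    obtain ⟨hs1, hs2⟩ := mx_scale hl hx1'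
    obtain ⟨hs3, hs4⟩ := mx_scale hl hx1'.norm
    have hae : mxG s κ ν c σ z a =ᵐ[mxm] fun p => ((c a : ℝ) : ℂ) * (l : ℂ) ^ (-(2 * z - 1)) *
        mxH ν σ z ω (p.1, l * p.2) := by
      filter_upwards [mx_ae] with p hp
      exact mx_G s κ ν c σ z hl p hp
    refine ⟨(hs1.const_mul _).congr hae.symm, ?_, ?_⟩
    · have e1 : ∫ p, ‖mxG s κ ν c σ z a p‖ ∂mxm = ∫ p, (|c a| * l ^ (-(2 * z.re - 1))) *
          ‖mxH ν σ z ω (p.1, l * p.2)‖ ∂mxm := by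
        refine integral_congr_ae ?_
        filter_upwards [hae] with p hp
        rw [hp, norm_mul, norm_mul, Complex.norm_real, Real.norm_eq_abs,
          Complex.norm_cpow_eq_rpow_re_of_pos hl]
        congr 3
        simp
      rw [e1, integral_const_mul, hs4]
      have e2 : ∫ p, ‖mxH ν σ z ω p‖ ∂mxm = ∫ p, ‖mxH ν σ z 1 p‖ ∂mxm :=
        integral_congr_ae (Eventually.of_forall fun p => mx_Hnorm ν σ z ω p)
      rw [e2, smul_eq_mul]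
      have e3 : l ^ (-(2 * z.re - 1)) * l⁻¹ = l ^ (-(2 * z.re)) := by
        rw [← Real.rpow_neg_one l, ← Real.rpow_add hl]
        congr 1
        ring
      rw [← e3]
      ring
    · rw [integral_congr_ae hae, integral_const_mul, hs2, hx2']
      have e3 : (l : ℂ) ^ (-(2 * z - 1)) * (l : ℂ)⁻¹ = (l : ℂ) ^ (-(2 * z)) := by
        rw [← Complex.cpow_neg_one (l : ℂ), ← Complex.cpow_add _ _ hl']
        congr 1
        ring
      rw [← e3, Complex.real_smul, Complex.ofReal_inv]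
      ring

theorem mz_eval (F : Fld s κ τ b b') {ν : ℂ} (hν : Adm ν) {c : 𝓞 K → ℝ} (hc : AF s κ ν c)
    {σ : ℝ} {z : ℂ} (h1 : 3 / 2 < z.re) (h2 : z.re < σ - 1 / 2) :
    Mz s κ ν c σ z = Real.pi * (Gs ν σ / (Gamma (σ + 1 / 2 - z) * Gamma (σ - 1 / 2 + z))) *
      Lz s κ ν c z := by
  have hcount : Countable (𝓞 K) := (NumberField.RingOfIntegers.basis K).equivFun.injective.countable
  obtain ⟨hl1, hl2⟩ := lz_eval' F hν hc h1
  have h0 : 1 / 2 < z.re := by linarith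
  have hsum : Summable (fun a : 𝓞 K => ∫ p, ‖mxG s κ ν c σ z a p‖ ∂mxm) := by
    refine (hl1.mul_right (∫ p, ‖mxH ν σ z 1 p‖ ∂mxm)).congr fun a => ?_
    exact ((mx_term F hν hc h0 h2 a).2.1).symm
  have h3 := integral_tsum_of_summable_integral_norm
    (fun a => (mx_term F hν hc h0 h2 a).1) hsum
  have h4 : Mz s κ ν c σ z = ∫ p, ∑' a, mxG s κ ν c σ z a p ∂mxm := by
    unfold Mz mxm
    refine integral_congr_ae (Eventually.of_forall fun p => ?_)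
    simp only [mf, ry, fser, mxG]
    rw [tsum_mul_right]
  rw [h4, ← h3, hl2]
  rw [tsum_congr fun a => (mx_term F hν hc h0 h2 a).2.2, tsum_mul_right]
  ring

end Pool.Agent.HB
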