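import Pool.Agent.Lib_helper98.H4F.GG
import Pool.Agent.Lib_helper99.HB.Defs
import Pool.Agent.Lib_helper99.HBF.LZ
import Pool.Agent.Lib_helper99.HBF.MH
import Pool.Agent.Lib_helper99.HBF.MI
import Pool.Agent.Lib_helper99.HBF.MX

/-!
# Hardy's theorem over imaginary quadratic fields: block MZ
-/

namespace Pool.Agent.HB

open NumberField Complex MeasureTheory Filter Topology
open scoped MatrixGroups ENNReal
open Pool.Agent.H4 (NI PI Hek blw Spl Inr tt uu p4 hh PP ml atl FunBd vcf)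

variable {K : Type} [Field K] [NumberField K]
variable {s : 𝓞 K →+* ℂ} {κ : 𝓞 K} {τ : 𝓞 K ≃+* 𝓞 K} {b b' : Fin 2 → 𝓞 K}

theorem mz_adm {ν : ℂ} (hν : Adm ν) : |ν.re| < 1 := by
  rcases hν with h | h
  · rw [h]; simp
  · exact h.2

theorem mz_Gamma_diff {w : ℂ} (h : 0 < w.re) : DifferentiableAt ℂ Gamma w := by
  apply Complex.differentiableAt_Gamma
  intro m hm
  rw [hm] at h
  simp only [neg_re, natCast_re] at h
  have : (0 : ℝ) ≤ m := Nat.cast_nonneg m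
  linarith

theorem mz_Gs_diff {ν : ℂ} (hν : Adm ν) {w : ℂ} (h : 1 ≤ w.re) :
    DifferentiableAt ℂ (Gs ν) w := by
  have h1 := abs_lt.1 (mz_adm hν)
  unfold Gs
  refine DifferentiableAt.mul ?_ ?_
  · refine DifferentiableAt.comp (g := Gamma) (f := fun σ : ℂ => σ - 1 / 2 + ν / 2) w ?_ (by fun_prop)
    apply mz_Gamma_diff
    have : (w - 1 / 2 + ν / 2).re = w.re - 1 / 2 + ν.re / 2 := by simp
    rw [this]
    linarith [h1.1]
  · refine DifferentiableAt.comp (g := Gamma) (f := fun σ : ℂ => σ - 1 / 2 - ν / 2) w ?_ (by fun_prop)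
    apply mz_Gamma_diff
    have : (w - 1 / 2 - ν / 2).re = w.re - 1 / 2 - ν.re / 2 := by simp
    rw [this]
    linarith [h1.2]

theorem mz_Gs_ne {ν : ℂ} (hν : Adm ν) {w : ℂ} (h : 1 ≤ w.re) : Gs ν w ≠ 0 := by
  have h1 := abs_lt.1 (mz_adm hν)
  unfold Gs
  refine mul_ne_zero ?_ ?_
  · apply Gamma_ne_zero_of_re_pos
    have : (w - 1 / 2 + ν / 2).re = w.re - 1 / 2 + ν.re / 2 := by simp
    rw [this]
    linarith [h1.1]
  · apply Gamma_ne_zero_of_re_pos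
    have : (w - 1 / 2 - ν / 2).re = w.re - 1 / 2 - ν.re / 2 := by simp
    rw [this]
    linarith [h1.2]

/-- the right hand side of the identity along the line `(σ + u, z + u/2)` -/
noncomputable def mzR (s : 𝓞 K →+* ℂ) (κ : 𝓞 K) (ν : ℂ) (c : 𝓞 K → ℝ) (σ z u : ℂ) : ℂ :=
  Real.pi * (Gs ν (σ + u) / (Gamma (σ + u + 1 / 2 - (z + u / 2)) *
    Gamma (σ + u - 1 / 2 + (z + u / 2)))) * Lz s κ ν c (z + u / 2)

theorem mz_R_diff (F : Fld s κ τ b b') {ν : ℂ} (hν : Adm ν) {c : 𝓞 K → ℝ} (hc : AF s κ ν c)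
    {σ : ℝ} {z : ℂ} (h1 : 1 / 2 ≤ z.re) (h2 : z.re < σ - 1 / 2) {u : ℂ} (hu : 0 ≤ u.re) :
    DifferentiableAt ℂ (mzR s κ ν c σ z) u := by
  have hA : 0 < ((σ : ℂ) + u + 1 / 2 - (z + u / 2)).re := by
    have : ((σ : ℂ) + u + 1 / 2 - (z + u / 2)).re = σ + u.re + 1 / 2 - (z.re + u.re / 2) := by simp
    rw [this]
    linarith
  have hB : 0 < ((σ : ℂ) + u - 1 / 2 + (z + u / 2)).re := by
    have : ((σ : ℂ) + u - 1 / 2 + (z + u / 2)).re = σ + u.re - 1 / 2 + (z.re + u.re / 2) := by simp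
    rw [this]
    linarith
  unfold mzR
  refine DifferentiableAt.mul (DifferentiableAt.mul (by fun_prop) (DifferentiableAt.div ?_
    (DifferentiableAt.mul ?_ ?_) ?_)) ?_
  · refine DifferentiableAt.comp (g := Gs ν) (f := fun u : ℂ => (σ : ℂ) + u) u ?_ (by fun_prop)
    apply mz_Gs_diff hν
    have : ((σ : ℂ) + u).re = σ + u.re := by simp
    rw [this]
    linarith
  · refine DifferentiableAt.comp (g := Gamma)
      (f := fun u : ℂ => (σ : ℂ) + u + 1 / 2 - (z + u / 2)) u (mz_Gamma_diff hA) (by fun_prop)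
  · refine DifferentiableAt.comp (g := Gamma)
      (f := fun u : ℂ => (σ : ℂ) + u - 1 / 2 + (z + u / 2)) u (mz_Gamma_diff hB) (by fun_prop)
  · exact mul_ne_zero (Gamma_ne_zero_of_re_pos hA) (Gamma_ne_zero_of_re_pos hB)
  · exact DifferentiableAt.comp (g := Lz s κ ν c) (f := fun u : ℂ => z + u / 2) u
      (lz_diff F hν hc _) (by fun_prop)

theorem mz_all (F : Fld s κ τ b b') {ν : ℂ} (hν : Adm ν) {c : 𝓞 K → ℝ} (hc : AF s κ ν c)
    {σ : ℝ} {z : ℂ} (h1 : 1 / 2 ≤ z.re) (h2 : z.re < σ - 1 / 2) :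
    Mz s κ ν c σ z = Real.pi * (Gs ν σ / (Gamma (σ + 1 / 2 - z) * Gamma (σ - 1 / 2 + z))) *
      Lz s κ ν c z := by
  have hopen : IsOpen {u : ℂ | 0 < u.re} := isOpen_lt continuous_const continuous_re
  have hf : AnalyticOnNhd ℂ (fun u : ℂ => Mz s κ ν c (σ + u) (z + u / 2)) {u : ℂ | 0 < u.re} :=
    (mz_hol F hν hc h1 h2).analyticOnNhd hopen
  have hg : AnalyticOnNhd ℂ (mzR s κ ν c σ z) {u : ℂ | 0 < u.re} := by
    refine DifferentiableOn.analyticOnNhd (fun u hu => ?_) hopen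
    exact (mz_R_diff F hν hc h1 h2 (le_of_lt hu)).differentiableWithinAt
  have hreal : ∀ r : ℝ, 2 < r → Mz s κ ν c ((σ : ℂ) + (r : ℂ)) (z + (r : ℂ) / 2) =
      mzR s κ ν c σ z (r : ℂ) := by
    intro r hr
    have hzre : (z + (r : ℂ) / 2).re = z.re + r / 2 := by simp
    have h3 := mz_eval F hν hc (σ := σ + r) (z := z + (r : ℂ) / 2)
      (by rw [hzre]; linarith) (by rw [hzre]; linarith)
    rw [ofReal_add] at h3
    rw [h3]
    rfl
  have htend : Tendsto (fun r : ℝ => (r : ℂ)) (𝓝[≠] (3 : ℝ)) (𝓝[≠] (3 : ℂ)) := by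
    apply tendsto_nhdsWithin_of_tendsto_nhds_of_eventually_within
    · have := (continuous_ofReal.tendsto (3 : ℝ)).mono_left
        (nhdsWithin_le_nhds (s := {(3 : ℝ)}ᶜ))
      simpa using this
    · filter_upwards [self_mem_nhdsWithin] with r hr
      intro h
      apply hr
      have h' : (r : ℂ) = 3 := h
      have h'' : r = 3 := by exact_mod_cast h'
      exact h''
  have hev : ∀ᶠ r : ℝ in 𝓝[≠] (3 : ℝ), Mz s κ ν c ((σ : ℂ) + (r : ℂ)) (z + (r : ℂ) / 2) =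
      mzR s κ ν c σ z (r : ℂ) := by
    have : ∀ᶠ r : ℝ in 𝓝 (3 : ℝ), 2 < r := lt_mem_nhds (by norm_num)
    filter_upwards [nhdsWithin_le_nhds this] with r hr
    exact hreal r hr
  have hfreq : ∃ᶠ u : ℂ in 𝓝[≠] (3 : ℂ), Mz s κ ν c ((σ : ℂ) + u) (z + u / 2) =
      mzR s κ ν c σ z u := htend.frequently hev.frequently
  have heq := hf.eqOn_of_preconnected_of_frequently_eq hg
    (convex_halfSpace_re_gt 0).isPreconnected
    (show (3 : ℂ) ∈ {u : ℂ | 0 < u.re} by simp) hfreq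
  have hl1 := mz_lim F hν hc h1 h2
  have hl2 : Tendsto (fun u : ℝ => mzR s κ ν c σ z (u : ℂ)) (𝓝[>] 0)
      (𝓝 (mzR s κ ν c σ z 0)) := by
    have hcont := (mz_R_diff F hν hc h1 h2 (u := 0) (by simp)).continuousAt
    have h4 : Tendsto (fun u : ℝ => (u : ℂ)) (𝓝[>] 0) (𝓝 (0 : ℂ)) := by
      have := (continuous_ofReal.tendsto (0 : ℝ)).mono_left (nhdsWithin_le_nhds (s := Set.Ioi 0))
      simpa using this
    exact hcont.tendsto.comp h4
  have hl3 : Tendsto (fun u : ℝ => Mz s κ ν c ((σ : ℂ) + (u : ℂ)) (z + (u : ℂ) / 2)) (𝓝[>] 0)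
      (𝓝 (mzR s κ ν c σ z 0)) := by
    refine hl2.congr' ?_
    filter_upwards [self_mem_nhdsWithin] with u hu
    have hu' : (0 : ℝ) < u := hu
    exact (heq (show (u : ℂ) ∈ {u : ℂ | 0 < u.re} by simpa using hu')).symm
  have h5 := tendsto_nhds_unique hl1 hl3
  rw [h5]
  unfold mzR
  simp only [add_zero, zero_div]

theorem mz_Gamma_bd {θ : ℝ} (h0 : 0 ≤ θ) (hθ : θ < Real.pi / 2) {x y : ℝ} (hx : 0 < x) :
    ∃ C : ℝ, 0 ≤ C ∧ ∀ w : ℂ, x ≤ w.re → w.re ≤ y → ‖Gamma w‖ ≤ C * Real.exp (-(θ * |w.im|)) := by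
  have hcos : 0 < Real.cos θ := Real.cos_pos_of_mem_Ioo ⟨by linarith [Real.pi_pos], hθ⟩
  have hcont : ContinuousOn (fun t : ℝ => Real.Gamma t * (Real.cos θ) ^ (-t)) (Set.Icc x y) := by
    refine ContinuousOn.mul ?_ ?_
    · intro t ht
      refine (Real.differentiableAt_Gamma (fun m hm => ?_)).continuousAt.continuousWithinAt
      have h1 : 0 < t := lt_of_lt_of_le hx ht.1
      rw [hm] at h1
      have : (0 : ℝ) ≤ m := Nat.cast_nonneg m
      linarith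
    · refine Continuous.continuousOn ?_
      exact Continuous.rpow continuous_const (by fun_prop) (fun t => Or.inl hcos.ne')
  obtain ⟨C, hC⟩ := isCompact_Icc.exists_bound_of_continuousOn hcont
  refine ⟨max C 0, le_max_right _ _, fun w h1 h2 => ?_⟩
  have hw : (w.re : ℂ) + (w.im : ℂ) * I = w := re_add_im w
  have hre : 0 < w.re := lt_of_lt_of_le hx h1
  have h3 := hC w.re ⟨h1, h2⟩
  rw [Real.norm_eq_abs] at h3
  have h4 : Real.Gamma w.re * (Real.cos θ) ^ (-w.re) ≤ max C 0 :=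
    (le_abs_self _).trans (h3.trans (le_max_left _ _))
  rcases le_total 0 w.im with him | him
  · have h5 := Pool.Agent.H4.norm_Gamma_rot (x := w.re) (y := w.im) (θ := θ) hre
      (by rw [abs_of_nonneg h0]; exact hθ)
    rw [hw] at h5
    rw [abs_of_nonneg him]
    calc ‖Gamma w‖ ≤ Real.exp (-(θ * w.im)) * Real.Gamma w.re * Real.cos θ ^ (-w.re) := h5
      _ = (Real.Gamma w.re * Real.cos θ ^ (-w.re)) * Real.exp (-(θ * w.im)) := by ring
      _ ≤ _ := mul_le_mul_of_nonneg_right h4 (Real.exp_pos _).le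
  · have h5 := Pool.Agent.H4.norm_Gamma_rot (x := w.re) (y := w.im) (θ := -θ) hre
      (by rw [abs_neg, abs_of_nonneg h0]; exact hθ)
    rw [hw, Real.cos_neg] at h5
    rw [abs_of_nonpos him]
    calc ‖Gamma w‖ ≤ Real.exp (-(-θ * w.im)) * Real.Gamma w.re * Real.cos θ ^ (-w.re) := h5
      _ = (Real.Gamma w.re * Real.cos θ ^ (-w.re)) * Real.exp (-(θ * -w.im)) := by
          rw [show -(-θ * w.im) = -(θ * -w.im) by ring]; ring
      _ ≤ _ := mul_le_mul_of_nonneg_right h4 (Real.exp_pos _).le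

theorem mz_dec_right (F : Fld s κ τ b b') {ν : ℂ} (hν : Adm ν) {c : 𝓞 K → ℝ} (hc : AF s κ ν c)
    {θ : ℝ} (h0 : 0 ≤ θ) (hθ : θ < Real.pi / 2) {Y : ℝ} (hY : 1 ≤ Y) : ∃ C : ℝ, ∀ z : ℂ,
      1 / 2 ≤ z.re → z.re ≤ Y → ‖Lz s κ ν c z‖ ≤ C * Real.exp (-(2 * θ * |z.im|)) := by
  obtain ⟨C₁, hC₁0, hC₁⟩ := mz_Gamma_bd h0 hθ (x := 1) (y := Y + 1) one_pos
  obtain ⟨C₂, hC₂0, hC₂⟩ := mz_Gamma_bd h0 hθ (x := 1) (y := 2 * Y + 1) one_pos
  obtain ⟨M, hM⟩ := mz_bd F hν hc (σ := Y + 1) (x := 1 / 2) (y := Y)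
    (by rw [sub_self, abs_zero]; linarith) (by rw [abs_of_nonneg (by linarith)]; linarith)
  have hne : Gs ν ((Y + 1 : ℝ) : ℂ) ≠ 0 := mz_Gs_ne hν (by rw [ofReal_re]; linarith)
  have hnorm : 0 < Real.pi * ‖Gs ν ((Y + 1 : ℝ) : ℂ)‖ :=
    mul_pos Real.pi_pos (norm_pos_iff.2 hne)
  refine ⟨M * (C₁ * C₂) / (Real.pi * ‖Gs ν ((Y + 1 : ℝ) : ℂ)‖), fun z hz1 hz2 => ?_⟩
  have h1 := mz_all F hν hc (σ := Y + 1) (z := z) hz1 (by linarith)
  set A : ℂ := Gamma (((Y + 1 : ℝ) : ℂ) + 1 / 2 - z) with hA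
  set B : ℂ := Gamma (((Y + 1 : ℝ) : ℂ) - 1 / 2 + z) with hB
  set g : ℂ := Gs ν ((Y + 1 : ℝ) : ℂ) with hg
  have reA : (((Y + 1 : ℝ) : ℂ) + 1 / 2 - z).re = Y + 1 + 1 / 2 - z.re := by simp
  have imA : (((Y + 1 : ℝ) : ℂ) + 1 / 2 - z).im = -z.im := by simp
  have reB : (((Y + 1 : ℝ) : ℂ) - 1 / 2 + z).re = Y + 1 - 1 / 2 + z.re := by simp
  have imB : (((Y + 1 : ℝ) : ℂ) - 1 / 2 + z).im = z.im := by simp
  have hA0 : A ≠ 0 := Gamma_ne_zero_of_re_pos (by rw [reA]; linarith)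
  have hB0 : B ≠ 0 := Gamma_ne_zero_of_re_pos (by rw [reB]; linarith)
  have hA1 := hC₁ (((Y + 1 : ℝ) : ℂ) + 1 / 2 - z) (by rw [reA]; linarith) (by rw [reA]; linarith)
  have hB1 := hC₂ (((Y + 1 : ℝ) : ℂ) - 1 / 2 + z) (by rw [reB]; linarith) (by rw [reB]; linarith)
  rw [imA, abs_neg, ← hA] at hA1
  rw [imB, ← hB] at hB1
  have hpi : (Real.pi : ℂ) ≠ 0 := by exact_mod_cast Real.pi_ne_zero
  have h2 : Lz s κ ν c z * (Real.pi * g) = Mz s κ ν c ((Y + 1 : ℝ) : ℂ) z * (A * B) := by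
    rw [h1]
    field_simp
  have h3 : ‖Lz s κ ν c z‖ * (Real.pi * ‖g‖) = ‖Mz s κ ν c ((Y + 1 : ℝ) : ℂ) z‖ * (‖A‖ * ‖B‖) := by
    have := congrArg norm h2
    rwa [norm_mul, norm_mul, norm_mul, norm_mul, norm_real, Real.norm_of_nonneg Real.pi_pos.le]
      at this
  have hM1 := hM z hz1 hz2
  have hM0 : 0 ≤ M := (norm_nonneg _).trans hM1
  have h4 : ‖A‖ * ‖B‖ ≤ (C₁ * C₂) * Real.exp (-(2 * θ * |z.im|)) := by
    calc ‖A‖ * ‖B‖ ≤ (C₁ * Real.exp (-(θ * |z.im|))) * (C₂ * Real.exp (-(θ * |z.im|))) :=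
          mul_le_mul hA1 hB1 (norm_nonneg _) (mul_nonneg hC₁0 (Real.exp_pos _).le)
      _ = (C₁ * C₂) * (Real.exp (-(θ * |z.im|)) * Real.exp (-(θ * |z.im|))) := by ring
      _ = _ := by
          rw [← Real.exp_add]
          congr 2
          ring
  have h5 : ‖Lz s κ ν c z‖ * (Real.pi * ‖g‖) ≤
      M * ((C₁ * C₂) * Real.exp (-(2 * θ * |z.im|))) := by
    rw [h3]
    exact mul_le_mul hM1 h4 (mul_nonneg (norm_nonneg _) (norm_nonneg _)) hM0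
  rw [div_mul_eq_mul_div, le_div_iff₀ hnorm]
  calc ‖Lz s κ ν c z‖ * (Real.pi * ‖g‖) ≤ _ := h5
    _ = _ := by ring

theorem lz_dec (F : Fld s κ τ b b') {ν : ℂ} (hν : Adm ν) {c : 𝓞 K → ℝ} (hc : AF s κ ν c)
    {θ : ℝ} (h0 : 0 ≤ θ) (hθ : θ < Real.pi / 2) (x y : ℝ) : ∃ C : ℝ, ∀ z : ℂ,
      x ≤ z.re → z.re ≤ y → ‖Lz s κ ν c z‖ ≤ C * Real.exp (-(2 * θ * |z.im|)) := by
  obtain ⟨C, hC⟩ := mz_dec_right F hν hc h0 hθ (Y := max 1 (max y (1 - x))) (le_max_left _ _)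
  refine ⟨C, fun z hx hy => ?_⟩
  rcases le_total (1 / 2) z.re with hz | hz
  · exact hC z hz (hy.trans ((le_max_left _ _).trans (le_max_right _ _)))
  · have hre : (1 - z).re = 1 - z.re := by simp
    have him : (1 - z).im = -z.im := by simp
    have h1 := hC (1 - z) (by rw [hre]; linarith)
      (by rw [hre]; exact le_trans (by linarith) ((le_max_right _ _).trans (le_max_right _ _)))
    rw [him, abs_neg, lz_fe F hν hc] at h1
    exact h1

end Pool.Agent.HB
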