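import Pool.Agent.Lib_helper99.HB.Defs
import Pool.Agent.Lib_helper99.HBF.MI
import Pool.Agent.Lib_helper99.HBF.RB

/-! HB, block MG: the Gaussian average -/

namespace Pool.Agent.HB

open NumberField Complex MeasureTheory Filter Topology
open scoped MatrixGroups ENNReal
open Pool.Agent.H4 (NI PI Hek blw Spl Inr tt uu p4 hh PP ml atl FunBd vcf)

variable {K : Type} [Field K] [NumberField K]
variable {s : 𝓞 K →+* ℂ} {κ : 𝓞 K} {τ : 𝓞 K ≃+* 𝓞 K} {b b' : Fin 2 → 𝓞 K}

/-- the product measure of the rays -/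
noncomputable def mgMu : Measure (ℂ × ℝ) :=
  (volume : Measure ℂ).prod (volume.restrict (Set.Ioi (0 : ℝ)))

theorem mg_mu : mgMu = (volume : Measure (ℂ × ℝ)).restrict (Set.univ ×ˢ Set.Ioi (0 : ℝ)) := by
  unfold mgMu
  rw [Measure.volume_eq_prod, ← Measure.prod_restrict, Measure.restrict_univ]

theorem mg_sf : SFinite mgMu := by unfold mgMu; infer_instance

theorem mg_ae : ∀ᵐ p ∂mgMu, 0 < p.2 := by
  rw [mg_mu]
  refine (ae_restrict_iff' (MeasurableSet.univ.prod measurableSet_Ioi)).2 ?_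
  exact Eventually.of_forall fun p hp => hp.2

/-- the integral over `y` -/
theorem mg_y {η : ℝ} (hη : 0 < η) (a : ℝ) :
    IntegrableOn (fun y : ℝ => y⁻¹ * (√(Real.pi / η) *
      Real.exp (-((a + 2 * Real.log y) ^ 2 / (4 * η))))) (Set.Ioi 0) ∧
    ∫ y in Set.Ioi (0 : ℝ), y⁻¹ * (√(Real.pi / η) *
      Real.exp (-((a + 2 * Real.log y) ^ 2 / (4 * η)))) = Real.pi := by
  have himg : Real.exp '' Set.univ = Set.Ioi 0 := by rw [Set.image_univ, Real.range_exp]
  have hder : ∀ x ∈ (Set.univ : Set ℝ), HasDerivWithinAt Real.exp (Real.exp x) Set.univ x :=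
    fun x _ => (Real.hasDerivAt_exp x).hasDerivWithinAt
  have hinj : Set.InjOn Real.exp Set.univ := Real.exp_injective.injOn
  set g : ℝ → ℝ := fun y => y⁻¹ * (√(Real.pi / η) *
      Real.exp (-((a + 2 * Real.log y) ^ 2 / (4 * η)))) with hg
  have hfun : (fun x : ℝ => |Real.exp x| • g (Real.exp x)) =
      fun x : ℝ => √(Real.pi / η) * Real.exp (-(1 / η) * (x + a / 2) ^ 2) := by
    funext x
    rw [hg, abs_of_pos (Real.exp_pos x)]
    simp only [Real.log_exp, smul_eq_mul]
    rw [← mul_assoc, mul_inv_cancel₀ (Real.exp_pos x).ne', one_mul]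
    congr 2
    field_simp
    ring
  have h1 : Integrable (fun x : ℝ => Real.exp (-(1 / η) * x ^ 2)) :=
    integrable_exp_neg_mul_sq (by positivity)
  have h2 : Integrable (fun x : ℝ => √(Real.pi / η) * Real.exp (-(1 / η) * (x + a / 2) ^ 2)) :=
    (h1.comp_add_right (a / 2)).const_mul _
  constructor
  · rw [← himg, integrableOn_image_iff_integrableOn_abs_deriv_smul MeasurableSet.univ hder hinj,
      hfun, integrableOn_univ]
    exact h2
  · rw [← himg, integral_image_eq_integral_abs_deriv_smul MeasurableSet.univ hder hinj, hfun,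
      setIntegral_univ, integral_const_mul,
      integral_add_right_eq_self (fun x : ℝ => Real.exp (-(1 / η) * x ^ 2)) (a / 2),
      integral_gaussian, ← Real.sqrt_mul (by positivity)]
    have e : Real.pi / η * (Real.pi / (1 / η)) = Real.pi ^ 2 := by field_simp
    rw [e, Real.sqrt_sq Real.pi_pos.le]

/-- the integral over `v` -/
theorem mg_v {σ : ℝ} (hσ : 1 < σ) :
    Integrable (fun v : ℂ => (1 + normSq v) ^ (-σ)) ∧
    ∫ v : ℂ, (1 + normSq v) ^ (-σ) = Real.pi / (σ - 1) := by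
  have e : (fun v : ℂ => (1 + normSq v) ^ (-σ)) = fun v : ℂ => (1 + ‖v‖ ^ 2) ^ (-(2 * σ) / 2) := by
    funext v
    rw [normSq_eq_norm_sq]
    congr 1
    ring
  constructor
  · rw [e]
    exact integrable_rpow_neg_one_add_norm_sq (by
      rw [Complex.finrank_real_complex]; push_cast; linarith)
  · have e2 : (fun v : ℂ => (1 + normSq v) ^ (-σ)) =
        fun v : ℂ => (fun r : ℝ => (1 + r ^ 2) ^ (-σ)) ‖v‖ := by
      funext v
      rw [normSq_eq_norm_sq]
    rw [e2, integral_fun_norm_addHaar (volume : Measure ℂ) (fun r : ℝ => (1 + r ^ 2) ^ (-σ)),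
      Complex.finrank_real_complex]
    have hvol : (volume : Measure ℂ).real (Metric.ball 0 1) = Real.pi := by
      rw [Measure.real, Complex.volume_ball]
      simp
    rw [hvol]
    have h1 : ∫ y in Set.Ioi (0 : ℝ), y ^ (2 - 1) • (1 + y ^ 2) ^ (-σ) = 1 / (2 * (σ - 1)) := by
      have hσ1 : σ - 1 ≠ 0 := by linarith
      have h2 := integral_Ioi_of_hasDerivAt_of_nonneg'
        (g := fun y : ℝ => -((1 + y ^ 2) ^ (-(σ - 1)) / (2 * (σ - 1))))
        (g' := fun y : ℝ => y ^ (2 - 1) • (1 + y ^ 2) ^ (-σ)) (a := 0) (l := 0)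
        (fun y _ => by
          have h3 : HasDerivAt (fun y : ℝ => 1 + y ^ 2) (2 * y) y := by
            simpa using (hasDerivAt_pow 2 y).const_add 1
          have hpos : 0 < 1 + y ^ 2 := by positivity
          have h4 := ((h3.rpow_const (p := -(σ - 1)) (Or.inl hpos.ne')).div_const (2 * (σ - 1))).neg
          refine h4.congr_deriv ?_
          have e3 : -(σ - 1) - 1 = -σ := by ring
          rw [e3]
          simp only [smul_eq_mul]
          field_simp
          norm_num)
        (fun y hy => by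
          have : (0 : ℝ) < y := hy
          simp only [smul_eq_mul]
          positivity)
        (by
          have h5 : Tendsto (fun y : ℝ => 1 + y ^ 2) atTop atTop :=
            tendsto_atTop_add_const_left _ _ (tendsto_pow_atTop (by norm_num))
          have h6 := (tendsto_rpow_neg_atTop (y := σ - 1) (by linarith)).comp h5
          have h7 := (h6.div_const (2 * (σ - 1))).neg
          simpa using h7)
      rw [h2]
      simp
    rw [h1]
    simp only [nsmul_eq_mul, smul_eq_mul]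
    have hσ1 : σ - 1 ≠ 0 := by linarith
    push_cast
    field_simp

/-- `log ((1 + |v|²) y²)` -/
noncomputable def mgL (p : ℂ × ℝ) : ℝ := Real.log (1 + normSq p.1) + 2 * Real.log p.2

theorem mgL_meas : Measurable mgL := by
  unfold mgL
  exact (Real.measurable_log.comp (measurable_const.add
    (continuous_normSq.measurable.comp measurable_fst))).add
      (measurable_const.mul (Real.measurable_log.comp measurable_snd))

/-- the dominating function -/
noncomputable def mgD (σ η : ℝ) (p : ℂ × ℝ) : ℝ :=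
  (1 + normSq p.1) ^ (-σ) * (p.2⁻¹ * (√(Real.pi / η) * Real.exp (-(mgL p ^ 2 / (4 * η)))))

theorem mgD_meas (σ η : ℝ) : Measurable (mgD σ η) := by
  unfold mgD
  apply Measurable.mul
  · exact (measurable_const.add (continuous_normSq.measurable.comp measurable_fst)).pow_const _
  · apply Measurable.mul measurable_snd.inv
    apply Measurable.mul measurable_const
    exact Real.measurable_exp.comp ((mgL_meas.pow_const 2).div_const _).neg

theorem mgD_int {σ η : ℝ} (hσ : 1 < σ) (hη : 0 < η) :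
    Integrable (mgD σ η) mgMu ∧ ∫ p, mgD σ η p ∂mgMu = Real.pi ^ 2 / (σ - 1) := by
  have := mg_sf
  have hy : ∀ v : ℂ, IntegrableOn (fun y : ℝ => mgD σ η (v, y)) (Set.Ioi 0) ∧
      ∫ y in Set.Ioi (0 : ℝ), mgD σ η (v, y) = (1 + normSq v) ^ (-σ) * Real.pi := by
    intro v
    have h := mg_y hη (Real.log (1 + normSq v))
    constructor
    · have h1 := h.1.const_mul ((1 + normSq v) ^ (-σ))
      exact h1
    · have e : (fun y : ℝ => mgD σ η (v, y)) = fun y : ℝ => (1 + normSq v) ^ (-σ) *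
        (y⁻¹ * (√(Real.pi / η) * Real.exp (-((Real.log (1 + normSq v) + 2 * Real.log y) ^ 2 / (4 * η))))) := rfl
      rw [e, integral_const_mul, h.2]
  have hv := mg_v hσ
  have hint : Integrable (mgD σ η) mgMu := by
    unfold mgMu
    rw [integrable_prod_iff (mgD_meas σ η).aestronglyMeasurable]
    refine ⟨Eventually.of_forall fun v => (hy v).1, ?_⟩
    have e : (fun v : ℂ => ∫ y, ‖mgD σ η (v, y)‖ ∂(volume.restrict (Set.Ioi (0 : ℝ)))) =
        fun v : ℂ => (1 + normSq v) ^ (-σ) * Real.pi := by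
      funext v
      rw [← (hy v).2]
      refine setIntegral_congr_fun measurableSet_Ioi fun y hy' => ?_
      have hy0 : (0 : ℝ) < y := hy'
      have hq : 0 < 1 + normSq v := by have := normSq_nonneg v; linarith
      rw [Real.norm_of_nonneg]
      unfold mgD
      simp only
      positivity
    rw [e]
    exact hv.1.mul_const _
  refine ⟨hint, ?_⟩
  unfold mgMu at hint ⊢
  rw [integral_prod _ hint]
  have e : (fun v : ℂ => ∫ y, mgD σ η (v, y) ∂(volume.restrict (Set.Ioi (0 : ℝ)))) =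
      fun v : ℂ => (1 + normSq v) ^ (-σ) * Real.pi := funext fun v => (hy v).2
  rw [e, integral_mul_const, hv.2]
  ring

theorem mg_mf {ν : ℂ} {c : 𝓞 K → ℝ} (σ t : ℝ) {p : ℂ × ℝ} (hp : 0 < p.2) :
    mf s κ ν c σ (1 / 2 + t * I) p =
      mf s κ ν c σ (1 / 2) p * cexp (I * (mgL p : ℂ) * t) := by
  have hq : 0 < 1 + normSq p.1 := by have := normSq_nonneg p.1; linarith
  have hq' : ((1 + normSq p.1 : ℝ) : ℂ) ≠ 0 := by exact_mod_cast hq.ne'
  have hp' : ((p.2 : ℝ) : ℂ) ≠ 0 := by exact_mod_cast hp.ne'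
  unfold mf
  rw [mul_assoc]
  congr 1
  rw [Complex.cpow_def_of_ne_zero hq', Complex.cpow_def_of_ne_zero hp',
    Complex.cpow_def_of_ne_zero hq', Complex.cpow_def_of_ne_zero hp', ← Complex.exp_add,
    ← Complex.exp_add, ← Complex.exp_add, ← Complex.ofReal_log hq.le, ← Complex.ofReal_log hp.le]
  congr 1
  unfold mgL
  push_cast
  ring

theorem mg_norm {ν : ℂ} {c : 𝓞 K → ℝ} {C : ℝ}
    (hb : ∀ (v : ℂ) (y : ℝ), 0 < y → ‖ry s κ ν c v y‖ ≤ C) (σ : ℝ) {p : ℂ × ℝ} (hp : 0 < p.2) :
    ‖mf s κ ν c σ (1 / 2) p‖ ≤ C * ((1 + normSq p.1) ^ (-σ) * p.2⁻¹) := by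
  have hq : 0 < 1 + normSq p.1 := by have := normSq_nonneg p.1; linarith
  unfold mf
  rw [norm_mul, norm_mul, Complex.norm_cpow_eq_rpow_re_of_pos hq,
    Complex.norm_cpow_eq_rpow_re_of_pos hp]
  have e1 : ((1 / 2 : ℂ) - 1 / 2 - σ).re = -σ := by simp
  have e2 : (2 * (1 / 2 : ℂ) - 2).re = -1 := by norm_num
  rw [e1, e2, Real.rpow_neg_one]
  exact mul_le_mul_of_nonneg_right (hb _ _ hp) (by positivity)

theorem mz_gauss (F : Fld s κ τ b b') {ν : ℂ} (hν : Adm ν) {c : 𝓞 K → ℝ} (hc : AF s κ ν c) :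
    ∃ C : ℝ, ∀ σ η : ℝ, 1 < σ → 0 < η →
      ‖∫ t : ℝ, Mz s κ ν c σ (1 / 2 + t * I) * ((Real.exp (-(η * t ^ 2)) : ℝ) : ℂ)‖ ≤
        C / (σ - 1) := by
  obtain ⟨C, c₀, hC, hc₀, hb⟩ := ry_bd F hν hc
  have hb' : ∀ (v : ℂ) (y : ℝ), 0 < y → ‖ry s κ ν c v y‖ ≤ C := by
    intro v y hy
    refine (hb v y hy).1.trans ?_
    have h1 : Real.exp (-(c₀ * y)) ≤ 1 := Real.exp_le_one_iff.2 (by nlinarith)
    nlinarith
  refine ⟨C * Real.pi ^ 2, fun σ η hσ hη => ?_⟩
  have hmf : Integrable (mf s κ ν c σ (1 / 2)) mgMu := by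
    apply mz_int F hν hc
    rw [ofReal_re]
    have e : ((1 / 2 : ℂ)).re - 1 / 2 = 0 := by norm_num
    rw [e, abs_zero]
    linarith
  have := mg_sf
  -- the joint function
  set Φ : ℝ × (ℂ × ℝ) → ℂ := fun x => cexp (I * (mgL x.2 : ℂ) * x.1) *
    (((Real.exp (-η * x.1 ^ 2) : ℝ) : ℂ) * mf s κ ν c σ (1 / 2) x.2) with hΦ
  have hg : Integrable (fun t : ℝ => ((Real.exp (-η * t ^ 2) : ℝ) : ℂ)) :=
    (integrable_exp_neg_mul_sq hη).ofReal
  have hΦi : Integrable Φ ((volume : Measure ℝ).prod mgMu) := by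
    refine Integrable.bdd_mul (c := 1) (hg.mul_prod hmf) ?_ ?_
    · apply Measurable.aestronglyMeasurable
      apply Complex.measurable_exp.comp
      exact (measurable_const.mul (Complex.measurable_ofReal.comp
        (mgL_meas.comp measurable_snd))).mul (Complex.measurable_ofReal.comp measurable_fst)
    · refine Eventually.of_forall fun x => ?_
      have e : I * (mgL x.2 : ℂ) * x.1 = ((mgL x.2 * x.1 : ℝ) : ℂ) * I := by push_cast; ring
      rw [e, Complex.norm_exp_ofReal_mul_I]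
  have h1 : ∀ t : ℝ, Mz s κ ν c σ (1 / 2 + t * I) * ((Real.exp (-(η * t ^ 2)) : ℝ) : ℂ) =
      ∫ p, Φ (t, p) ∂mgMu := by
    intro t
    unfold Mz
    rw [← integral_mul_const]
    apply integral_congr_ae
    have h := mg_ae
    unfold mgMu at h
    filter_upwards [h] with p hp
    rw [mg_mf σ t hp, hΦ]
    simp only
    rw [← neg_mul]
    ring
  simp_rw [h1]
  rw [integral_integral_swap (f := fun t p => Φ (t, p)) hΦi]
  have h2 : ∀ p : ℂ × ℝ, ∫ t : ℝ, Φ (t, p) = mf s κ ν c σ (1 / 2) p *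
      ((√(Real.pi / η) * Real.exp (-(mgL p ^ 2 / (4 * η))) : ℝ) : ℂ) := by
    intro p
    have h3 := fourierIntegral_gaussian (b := (η : ℂ)) (by rw [ofReal_re]; exact hη) (mgL p : ℂ)
    have e : (fun t : ℝ => Φ (t, p)) = fun t : ℝ => mf s κ ν c σ (1 / 2) p *
        (cexp (I * (mgL p : ℂ) * t) * cexp (-(η : ℂ) * (t : ℂ) ^ 2)) := by
      funext t
      rw [hΦ]
      simp only
      push_cast
      ring
    rw [e, integral_const_mul, h3]
    congr 1
    push_cast
    congr 1
    · rw [Real.sqrt_eq_rpow, Complex.ofReal_cpow (by positivity)]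
      push_cast
      rfl
    · congr 1
      ring
  simp_rw [h2]
  refine (norm_integral_le_of_norm_le ((mgD_int hσ hη).1.const_mul C) ?_).trans ?_
  · filter_upwards [mg_ae] with p hp
    rw [norm_mul, Complex.norm_real, Real.norm_of_nonneg (by positivity)]
    calc ‖mf s κ ν c σ (1 / 2) p‖ * (√(Real.pi / η) * Real.exp (-(mgL p ^ 2 / (4 * η))))
        ≤ (C * ((1 + normSq p.1) ^ (-σ) * p.2⁻¹)) *
          (√(Real.pi / η) * Real.exp (-(mgL p ^ 2 / (4 * η)))) :=
          mul_le_mul_of_nonneg_right (mg_norm hb' σ hp) (by positivity)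
      _ = C * mgD σ η p := by unfold mgD; ring
  · rw [integral_const_mul, (mgD_int hσ hη).2]
    apply le_of_eq
    ring

end Pool.Agent.HB
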