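import Pool.Agent.Lib_helper99.HB.Defs
import Pool.Agent.Lib_helper99.HBF.LZ
import Pool.Agent.Lib_helper99.HBF.MG
import Pool.Agent.Lib_helper99.HBF.MI
import Pool.Agent.Lib_helper99.HBF.MZ

/-!
# Hardy's theorem over imaginary quadratic fields: block ST
-/

namespace Pool.Agent.HB

open NumberField Complex MeasureTheory Filter Topology
open scoped MatrixGroups ENNReal
open Pool.Agent.H4 (NI PI Hek blw Spl Inr tt uu p4 hh PP ml atl FunBd vcf)

variable {K : Type} [Field K] [NumberField K]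
variable {s : 𝓞 K →+* ℂ} {κ : 𝓞 K} {τ : 𝓞 K ≃+* 𝓞 K} {b b' : Fin 2 → 𝓞 K}

theorem st_pos {ν : ℂ} (hν : Adm ν) {e : ℝ} (he : 0 ≤ e) :
    (Gs ν (1 + e)).im = 0 ∧ 0 < (Gs ν (1 + e)).re := by
  rcases hν with h | ⟨h, h'⟩
  · have hw : (1 + (e : ℂ) - 1 / 2 - ν / 2) = (starRingEnd ℂ) (1 + (e : ℂ) - 1 / 2 + ν / 2) := by
      have hcν : (starRingEnd ℂ) ν = -ν := by
        apply Complex.ext
        · simp [h]
        · simp
      simp only [map_add, map_sub, map_one, map_div₀, conj_ofReal, hcν, map_ofNat]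
      ring
    have hre : 0 < (1 + (e : ℂ) - 1 / 2 + ν / 2).re := by
      have : (1 + (e : ℂ) - 1 / 2 + ν / 2).re = 1 + e - 1 / 2 + ν.re / 2 := by simp
      rw [this, h]
      linarith
    have hg : Gs ν (1 + e) = ((normSq (Gamma (1 + (e : ℂ) - 1 / 2 + ν / 2)) : ℝ) : ℂ) := by
      unfold Gs
      rw [hw, Gamma_conj, mul_conj]
    rw [hg]
    exact ⟨ofReal_im _, by
      rw [ofReal_re]
      exact normSq_pos.2 (Gamma_ne_zero_of_re_pos hre)⟩
  · have hν' : ν = (ν.re : ℂ) := by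
      apply Complex.ext
      · simp
      · simp [h]
    have hab := abs_lt.1 h'
    have hg : Gs ν (1 + e) = ((Real.Gamma (1 + e - 1 / 2 + ν.re / 2) *
        Real.Gamma (1 + e - 1 / 2 - ν.re / 2) : ℝ) : ℂ) := by
      unfold Gs
      rw [hν', ofReal_mul, ← Gamma_ofReal, ← Gamma_ofReal]
      simp only [ofReal_re]
      push_cast
      rfl
    rw [hg]
    refine ⟨ofReal_im _, ?_⟩
    rw [ofReal_re]
    exact mul_pos (Real.Gamma_pos_of_pos (by linarith [hab.1]))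
      (Real.Gamma_pos_of_pos (by linarith [hab.2]))

theorem st_cont {ν : ℂ} (hν : Adm ν) {e : ℝ} (he : 0 ≤ e) :
    ContinuousAt (fun e : ℝ => (Gs ν (1 + e)).re) e := by
  have h1 : ContinuousAt (Gs ν) (1 + (e : ℂ)) := by
    apply (mz_Gs_diff hν _).continuousAt
    have : (1 + (e : ℂ)).re = 1 + e := by simp
    rw [this]
    linarith
  have h2 : ContinuousAt (fun e : ℝ => (1 + (e : ℂ))) e := by fun_prop
  have h3 : ContinuousAt (fun e : ℝ => Gs ν (1 + (e : ℂ))) e :=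
    ContinuousAt.comp (g := Gs ν) (f := fun e : ℝ => (1 + (e : ℂ))) h1 h2
  exact continuous_re.continuousAt.comp h3

theorem gs_pos {ν : ℂ} (hν : Adm ν) : ∃ c : ℝ, 0 < c ∧ ∀ ε : ℝ, 0 < ε → ε ≤ 1 / 2 →
    (Gs ν (1 + ε)).im = 0 ∧ c ≤ (Gs ν (1 + ε)).re := by
  have hc : ContinuousOn (fun e : ℝ => (Gs ν (1 + e)).re) (Set.Icc 0 (1 / 2)) :=
    fun e he => (st_cont hν he.1).continuousWithinAt
  obtain ⟨e₀, he₀, hmin⟩ := isCompact_Icc.exists_isMinOn
    (Set.nonempty_Icc.2 (by norm_num : (0 : ℝ) ≤ 1 / 2)) hc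
  refine ⟨(Gs ν (1 + e₀)).re, (st_pos hν he₀.1).2, fun ε h0 h1 => ⟨(st_pos hν h0.le).1, ?_⟩⟩
  exact hmin ⟨h0.le, h1⟩

theorem st_G_ne {e t : ℝ} (he : 0 ≤ e) : Gamma (1 + (e : ℂ) + t * I) ≠ 0 := by
  apply Gamma_ne_zero_of_re_pos
  have : (1 + (e : ℂ) + t * I).re = 1 + e := by simp
  rw [this]
  linarith

theorem st_G_cont : ContinuousOn (fun p : ℝ × ℝ => Gamma (1 + (p.1 : ℂ) + p.2 * I))
    {p | 0 ≤ p.1} := by
  intro p hp
  have hp' : 0 ≤ p.1 := hp
  refine ContinuousAt.continuousWithinAt ?_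
  refine ContinuousAt.comp (g := Gamma) (f := fun p : ℝ × ℝ => 1 + (p.1 : ℂ) + p.2 * I)
    (mz_Gamma_diff ?_).continuousAt (by fun_prop)
  have : (1 + (p.1 : ℂ) + p.2 * I).re = 1 + p.1 := by simp
  rw [this]
  linarith

theorem st_formula (F : Fld s κ τ b b') {ν : ℂ} (hν : Adm ν) {c : 𝓞 K → ℝ} (hc : AF s κ ν c)
    {ε : ℝ} (he : 0 < ε) (t : ℝ) :
    Mz s κ ν c ((1 + ε : ℝ) : ℂ) (1 / 2 + t * I) =
      ((Real.pi * ((Gs ν (1 + ε)).re / ‖Gamma (1 + ε + t * I)‖ ^ 2) : ℝ) : ℂ) *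
        Lz s κ ν c (1 / 2 + t * I) := by
  have hre : ((1 / 2 : ℂ) + t * I).re = 1 / 2 := by simp
  rw [mz_all F hν hc (σ := 1 + ε) (z := 1 / 2 + t * I) (by rw [hre]) (by rw [hre]; linarith)]
  have h1 : (((1 + ε : ℝ) : ℂ) + 1 / 2 - (1 / 2 + t * I)) =
      (starRingEnd ℂ) (1 + (ε : ℂ) + t * I) := by
    apply Complex.ext <;> simp
  have h2 : (((1 + ε : ℝ) : ℂ) - 1 / 2 + (1 / 2 + t * I)) = 1 + (ε : ℂ) + t * I := by
    push_cast
    ring
  have h3 : Gs ν ((1 + ε : ℝ) : ℂ) = (((Gs ν (1 + ε)).re : ℝ) : ℂ) := by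
    apply Complex.ext
    · rw [ofReal_re]
      push_cast
      rfl
    · rw [ofReal_im]
      have := (st_pos hν he.le).1
      push_cast
      exact this
  rw [h1, h2, Gamma_conj, h3, mul_comm ((starRingEnd ℂ) _), mul_conj, normSq_eq_norm_sq]
  push_cast
  ring

theorem st_L_cont (F : Fld s κ τ b b') {ν : ℂ} (hν : Adm ν) {c : 𝓞 K → ℝ} (hc : AF s κ ν c) :
    Continuous (fun t : ℝ => Lz s κ ν c (1 / 2 + t * I)) :=
  (lz_diff F hν hc).continuous.comp (by fun_prop)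

theorem st_phi_cont (F : Fld s κ τ b b') {ν : ℂ} (hν : Adm ν) {c : 𝓞 K → ℝ} (hc : AF s κ ν c)
    {ε : ℝ} (he : 0 ≤ ε) :
    Continuous (fun t : ℝ => ‖Lz s κ ν c (1 / 2 + t * I)‖ / ‖Gamma (1 + ε + t * I)‖ ^ 2) := by
  refine Continuous.div (st_L_cont F hν hc).norm ?_ ?_
  · refine Continuous.pow (Continuous.norm ?_) 2
    have h1 : Continuous (fun t : ℝ => ((ε, t) : ℝ × ℝ)) := by fun_prop
    have h2 : ContinuousOn (fun t : ℝ => Gamma (1 + (ε : ℂ) + t * I)) Set.univ :=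
      st_G_cont.comp (g := fun p : ℝ × ℝ => Gamma (1 + (p.1 : ℂ) + p.2 * I)) h1.continuousOn
        (fun t _ => he)
    exact continuousOn_univ.1 h2
  · intro t
    exact pow_ne_zero 2 (norm_ne_zero_iff.2 (st_G_ne he))

/-- from the Gaussian averages to the integral -/
theorem st_lim {φ : ℝ → ℝ} (hφ : Continuous φ) (h0 : ∀ t, 0 ≤ φ t) {t₀ D : ℝ}
    (h : ∀ η : ℝ, 0 < η → IntegrableOn (fun t => φ t * Real.exp (-(η * t ^ 2))) (Set.Ioi t₀) ∧
      ∫ t in Set.Ioi t₀, φ t * Real.exp (-(η * t ^ 2)) ≤ D) (ht₀ : 0 < t₀) :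
    IntegrableOn φ (Set.Ioi t₀) ∧ ∫ t in Set.Ioi t₀, φ t ≤ D := by
  have hR : ∀ R : ℝ, t₀ ≤ R → ∫ t in t₀..R, φ t ≤ D := by
    intro R hR
    have h1 : ∀ η : ℝ, 0 < η → ∫ t in t₀..R, φ t ≤ Real.exp (η * R ^ 2) * D := by
      intro η hη
      obtain ⟨hi, hb⟩ := h η hη
      have h2 : ∫ t in t₀..R, φ t ≤
          ∫ t in t₀..R, Real.exp (η * R ^ 2) * (φ t * Real.exp (-(η * t ^ 2))) := by
        apply intervalIntegral.integral_mono_on hR (hφ.intervalIntegrable _ _)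
        · apply Continuous.intervalIntegrable
          fun_prop
        · intro t ht
          have h3 : 1 ≤ Real.exp (η * R ^ 2) * Real.exp (-(η * t ^ 2)) := by
            rw [← Real.exp_add]
            apply Real.one_le_exp
            have h4 : t ^ 2 ≤ R ^ 2 := by
              apply pow_le_pow_left₀ (by linarith [ht.1]) ht.2
            nlinarith
          calc φ t = φ t * 1 := (mul_one _).symm
            _ ≤ φ t * (Real.exp (η * R ^ 2) * Real.exp (-(η * t ^ 2))) :=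
                mul_le_mul_of_nonneg_left h3 (h0 t)
            _ = _ := by ring
      rw [intervalIntegral.integral_const_mul] at h2
      refine h2.trans (mul_le_mul_of_nonneg_left ?_ (Real.exp_pos _).le)
      rw [intervalIntegral.integral_of_le hR]
      refine le_trans (setIntegral_mono_set hi ?_ ?_) hb
      · exact Eventually.of_forall (fun t => mul_nonneg (h0 t) (Real.exp_pos _).le)
      · exact (Set.Ioc_subset_Ioi_self).eventuallyLE
    have h5 : Tendsto (fun η : ℝ => Real.exp (η * R ^ 2) * D) (𝓝[>] 0) (𝓝 D) := by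
      have h6 : Continuous (fun η : ℝ => Real.exp (η * R ^ 2) * D) := by fun_prop
      have h7 := (h6.tendsto 0).mono_left (nhdsWithin_le_nhds (s := Set.Ioi (0 : ℝ)))
      simpa using h7
    refine ge_of_tendsto h5 ?_
    filter_upwards [self_mem_nhdsWithin] with η hη
    exact h1 η hη
  have hint : IntegrableOn φ (Set.Ioi t₀) := by
    refine integrableOn_Ioi_of_intervalIntegral_norm_bounded D t₀ (b := fun R : ℝ => R)
      (l := atTop) (fun R => hφ.integrableOn_Ioc) tendsto_id ?_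
    filter_upwards [eventually_ge_atTop t₀] with R hRR
    have : ∫ t in t₀..R, ‖φ t‖ = ∫ t in t₀..R, φ t := by
      apply intervalIntegral.integral_congr
      intro t _
      exact Real.norm_of_nonneg (h0 t)
    rw [this]
    exact hR R hRR
  refine ⟨hint, ?_⟩
  have h8 := intervalIntegral_tendsto_integral_Ioi t₀ hint (b := fun R : ℝ => R) tendsto_id
  refine le_of_tendsto h8 ?_
  filter_upwards [eventually_ge_atTop t₀] with R hRR
  exact hR R hRR

/-- the splitting of the Gaussian average -/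
theorem st_split {k : ℝ → ℝ} {L : ℝ → ℂ} (hk : Continuous k) (hL : Continuous L)
    (hk0 : ∀ t, 0 ≤ k t) {B : ℝ} (hB : ∀ t, k t * ‖L t‖ ≤ B) {t₀ M E : ℝ} (ht₀ : 0 < t₀)
    (hM : ∀ t, |t| ≤ t₀ → k t * ‖L t‖ ≤ M) {w : ℂ} (hw : ‖w‖ = 1)
    (hT : ∀ t, t₀ < |t| → (‖L t‖ : ℂ) = w * L t) {η : ℝ} (hη : 0 < η)
    (hE : ‖∫ t : ℝ, ((k t : ℝ) : ℂ) * L t * ((Real.exp (-(η * t ^ 2)) : ℝ) : ℂ)‖ ≤ E) :
    IntegrableOn (fun t => k t * ‖L t‖ * Real.exp (-(η * t ^ 2))) (Set.Ioi t₀) ∧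
      ∫ t in Set.Ioi t₀, k t * ‖L t‖ * Real.exp (-(η * t ^ 2)) ≤ E + 2 * t₀ * M := by
  have hgauss : Integrable (fun t : ℝ => B * Real.exp (-(η * t ^ 2))) := by
    have := (integrable_exp_neg_mul_sq hη).const_mul B
    simpa [neg_mul] using this
  have hreal : Integrable (fun t : ℝ => k t * ‖L t‖ * Real.exp (-(η * t ^ 2))) := by
    refine hgauss.mono' (Continuous.aestronglyMeasurable (by fun_prop)) ?_
    refine Eventually.of_forall (fun t => ?_)
    rw [Real.norm_of_nonneg (mul_nonneg (mul_nonneg (hk0 t) (norm_nonneg _))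
      (Real.exp_pos _).le)]
    exact mul_le_mul_of_nonneg_right (hB t) (Real.exp_pos _).le
  have hcx : Integrable (fun t : ℝ => ((k t : ℝ) : ℂ) * L t *
      ((Real.exp (-(η * t ^ 2)) : ℝ) : ℂ)) := by
    refine hreal.mono' (Continuous.aestronglyMeasurable (by fun_prop)) ?_
    refine Eventually.of_forall (fun t => le_of_eq ?_)
    rw [norm_mul, norm_mul, norm_real, norm_real, Real.norm_of_nonneg (hk0 t),
      Real.norm_of_nonneg (Real.exp_pos _).le]
  set S : Set ℝ := {t | |t| ≤ t₀} with hS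
  have hSm : MeasurableSet S := measurableSet_le (by fun_prop) (by fun_prop)
  have hSvol : volume S = ENNReal.ofReal (2 * t₀) := by
    have : S = Set.Icc (-t₀) t₀ := by
      ext t
      show |t| ≤ t₀ ↔ -t₀ ≤ t ∧ t ≤ t₀
      exact abs_le
    rw [this, Real.volume_Icc]
    congr 1
    ring
  have h1 : w * ∫ t : ℝ, ((k t : ℝ) : ℂ) * L t * ((Real.exp (-(η * t ^ 2)) : ℝ) : ℂ) =
      (∫ t in S, w * (((k t : ℝ) : ℂ) * L t * ((Real.exp (-(η * t ^ 2)) : ℝ) : ℂ))) +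
      ((∫ t in Sᶜ, k t * ‖L t‖ * Real.exp (-(η * t ^ 2)) : ℝ) : ℂ) := by
    rw [← integral_const_mul, ← integral_add_compl hSm (hcx.const_mul w)]
    congr 1
    rw [← integral_complex_ofReal]
    apply setIntegral_congr_fun hSm.compl
    intro t ht
    have ht' : t₀ < |t| := by
      have : ¬ |t| ≤ t₀ := ht
      linarith
    have h2 := hT t ht'
    show w * (((k t : ℝ) : ℂ) * L t * ((Real.exp (-(η * t ^ 2)) : ℝ) : ℂ)) =
      ((k t * ‖L t‖ * Real.exp (-(η * t ^ 2)) : ℝ) : ℂ)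
    rw [ofReal_mul, ofReal_mul, h2]
    ring
  have h3 : ‖∫ t in S, w * (((k t : ℝ) : ℂ) * L t * ((Real.exp (-(η * t ^ 2)) : ℝ) : ℂ))‖ ≤
      M * (2 * t₀) := by
    have h4 := norm_setIntegral_le_of_norm_le_const (μ := volume) (s := S) (C := M)
      (f := fun t => w * (((k t : ℝ) : ℂ) * L t * ((Real.exp (-(η * t ^ 2)) : ℝ) : ℂ)))
      (by rw [hSvol]; exact ENNReal.ofReal_lt_top) (by
        intro t ht
        rw [norm_mul, norm_mul, norm_mul, norm_real, norm_real, Real.norm_of_nonneg (hk0 t),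
          Real.norm_of_nonneg (Real.exp_pos _).le, hw, one_mul]
        have h5 : Real.exp (-(η * t ^ 2)) ≤ 1 := by
          apply Real.exp_le_one_iff.2
          have := mul_nonneg hη.le (sq_nonneg t)
          linarith
        calc k t * ‖L t‖ * Real.exp (-(η * t ^ 2)) ≤ k t * ‖L t‖ * 1 :=
              mul_le_mul_of_nonneg_left h5 (mul_nonneg (hk0 t) (norm_nonneg _))
          _ ≤ M := by rw [mul_one]; exact hM t ht)
    refine h4.trans (le_of_eq ?_)
    rw [Measure.real, hSvol, ENNReal.toReal_ofReal (by linarith)]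
  have h6 : ∫ t in Sᶜ, k t * ‖L t‖ * Real.exp (-(η * t ^ 2)) ≤ E + M * (2 * t₀) := by
    have h7 : ‖((∫ t in Sᶜ, k t * ‖L t‖ * Real.exp (-(η * t ^ 2)) : ℝ) : ℂ)‖ ≤
        E + M * (2 * t₀) := by
      have h8 := eq_sub_of_add_eq' h1.symm
      rw [h8]
      refine (norm_sub_le _ _).trans (add_le_add ?_ h3)
      rw [norm_mul, hw, one_mul]
      exact hE
    rw [norm_real] at h7
    exact (le_abs_self _).trans h7
  refine ⟨hreal.integrableOn, ?_⟩
  have h9 : ∫ t in Set.Ioi t₀, k t * ‖L t‖ * Real.exp (-(η * t ^ 2)) ≤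
      ∫ t in Sᶜ, k t * ‖L t‖ * Real.exp (-(η * t ^ 2)) := by
    refine setIntegral_mono_set hreal.integrableOn ?_ ?_
    · exact Eventually.of_forall (fun t => mul_nonneg (mul_nonneg (hk0 t) (norm_nonneg _))
        (Real.exp_pos _).le)
    · refine HasSubset.Subset.eventuallyLE ?_
      intro t ht
      have ht' : t₀ < t := ht
      show ¬ |t| ≤ t₀
      rw [abs_of_pos (by linarith)]
      linarith
  linarith

theorem lz_star (F : Fld s κ τ b b') {ν : ℂ} (hν : Adm ν) {c : 𝓞 K → ℝ} (hc : AF s κ ν c)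
    (T : ℝ) (w : ℂ) (hw : ‖w‖ = 1) (hT : ∀ t : ℝ, T < |t| →
      (‖Lz s κ ν c (1 / 2 + t * I)‖ : ℂ) = w * Lz s κ ν c (1 / 2 + t * I)) :
    ∃ C t₀ : ℝ, 0 < t₀ ∧ ∀ ε : ℝ, 0 < ε → ε ≤ 1 / 2 →
      IntegrableOn (fun t : ℝ => ‖Lz s κ ν c (1 / 2 + t * I)‖ / ‖Gamma (1 + ε + t * I)‖ ^ 2)
        (Set.Ioi t₀) ∧
      ∫ t in Set.Ioi t₀, ‖Lz s κ ν c (1 / 2 + t * I)‖ / ‖Gamma (1 + ε + t * I)‖ ^ 2 ≤ C / ε := by
  obtain ⟨cG, hcG, hG⟩ := gs_pos hν
  obtain ⟨C, hC⟩ := mz_gauss F hν hc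
  set t₀ : ℝ := |T| + 1 with ht₀
  have ht₀p : 0 < t₀ := by
    have := abs_nonneg T
    linarith
  -- the bound on the compact set
  obtain ⟨M, hM⟩ : ∃ M : ℝ, ∀ e t : ℝ, 0 ≤ e → e ≤ 1 / 2 → |t| ≤ t₀ →
      (Gs ν (1 + e)).re / ‖Gamma (1 + e + t * I)‖ ^ 2 * ‖Lz s κ ν c (1 / 2 + t * I)‖ ≤ M := by
    have hK : IsCompact (Set.Icc (0 : ℝ) (1 / 2) ×ˢ Set.Icc (-t₀) t₀) :=
      isCompact_Icc.prod isCompact_Icc
    have hcont : ContinuousOn (fun p : ℝ × ℝ => (Gs ν (1 + p.1)).re /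
        ‖Gamma (1 + p.1 + p.2 * I)‖ ^ 2 * ‖Lz s κ ν c (1 / 2 + p.2 * I)‖)
        (Set.Icc (0 : ℝ) (1 / 2) ×ˢ Set.Icc (-t₀) t₀) := by
      refine ContinuousOn.mul (ContinuousOn.div ?_ ?_ ?_) ?_
      · intro p hp
        refine ContinuousAt.continuousWithinAt ?_
        exact ContinuousAt.comp (g := fun e : ℝ => (Gs ν (1 + e)).re) (f := fun p : ℝ × ℝ => p.1)
          (st_cont hν hp.1.1) continuous_fst.continuousAt
      · refine ContinuousOn.pow (ContinuousOn.norm ?_) 2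
        exact st_G_cont.mono (fun p hp => hp.1.1)
      · intro p hp
        exact pow_ne_zero 2 (norm_ne_zero_iff.2 (st_G_ne hp.1.1))
      · refine Continuous.continuousOn ?_
        exact ((st_L_cont F hν hc).comp continuous_snd).norm
    obtain ⟨M, hM⟩ := hK.exists_bound_of_continuousOn hcont
    refine ⟨M, fun e t h0 h1 h2 => (le_abs_self _).trans ?_⟩
    exact hM (e, t) ⟨⟨h0, h1⟩, abs_le.1 h2⟩
  have hM0 : 0 ≤ M := by
    have h1 := hM 0 0 le_rfl (by norm_num) (by rw [abs_zero]; exact ht₀p.le)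
    refine le_trans (mul_nonneg (div_nonneg ?_ (by positivity)) (norm_nonneg _)) h1
    have := (st_pos hν (e := 0) le_rfl).2
    simpa using this.le
  refine ⟨(|C| + t₀ * (Real.pi * M)) / (Real.pi * cG), t₀, ht₀p, fun ε he0 he1 => ?_⟩
  obtain ⟨hGim, hGre⟩ := hG ε he0 he1
  set G : ℝ := (Gs ν (1 + ε)).re with hGdef
  have hGp : 0 < G := lt_of_lt_of_le hcG hGre
  set L : ℝ → ℂ := fun t => Lz s κ ν c (1 / 2 + t * I) with hL
  set k : ℝ → ℝ := fun t => Real.pi * (G / ‖Gamma (1 + ε + t * I)‖ ^ 2) with hk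
  have hLc : Continuous L := st_L_cont F hν hc
  have hkc : Continuous k := by
    rw [hk]
    refine Continuous.mul continuous_const (Continuous.div continuous_const ?_ ?_)
    · refine Continuous.pow (Continuous.norm ?_) 2
      have h1 : Continuous (fun t : ℝ => ((ε, t) : ℝ × ℝ)) := by fun_prop
      have h2 : ContinuousOn (fun t : ℝ => Gamma (1 + (ε : ℂ) + t * I)) Set.univ :=
        st_G_cont.comp (g := fun p : ℝ × ℝ => Gamma (1 + (p.1 : ℂ) + p.2 * I)) h1.continuousOn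
          (fun t _ => he0.le)
      exact continuousOn_univ.1 h2
    · intro t
      exact pow_ne_zero 2 (norm_ne_zero_iff.2 (st_G_ne he0.le))
  have hk0 : ∀ t, 0 ≤ k t := fun t =>
    mul_nonneg Real.pi_pos.le (div_nonneg hGp.le (by positivity))
  have hform : ∀ t : ℝ, Mz s κ ν c ((1 + ε : ℝ) : ℂ) (1 / 2 + t * I) = ((k t : ℝ) : ℂ) * L t :=
    fun t => st_formula F hν hc he0 t
  obtain ⟨B, hB⟩ := mz_bd F hν hc (σ := 1 + ε) (x := 1 / 2) (y := 1 / 2)
    (by rw [sub_self, abs_zero]; linarith) (by rw [sub_self, abs_zero]; linarith)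
  have hB' : ∀ t, k t * ‖L t‖ ≤ B := by
    intro t
    have hre : ((1 / 2 : ℂ) + t * I).re = 1 / 2 := by simp
    have h1 := hB (1 / 2 + t * I) (by rw [hre]) (by rw [hre])
    rw [hform t, norm_mul, norm_real, Real.norm_of_nonneg (hk0 t)] at h1
    exact h1
  have hM' : ∀ t, |t| ≤ t₀ → k t * ‖L t‖ ≤ Real.pi * M := by
    intro t ht
    have h1 := hM ε t he0.le he1 ht
    calc k t * ‖L t‖ = Real.pi * (G / ‖Gamma (1 + ε + t * I)‖ ^ 2 * ‖L t‖) := by
          rw [hk]; ring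
      _ ≤ Real.pi * M := mul_le_mul_of_nonneg_left h1 Real.pi_pos.le
  have hT' : ∀ t, t₀ < |t| → (‖L t‖ : ℂ) = w * L t := by
    intro t ht
    apply hT t
    have := le_abs_self T
    linarith
  have hmain : ∀ η : ℝ, 0 < η →
      IntegrableOn (fun t => k t * ‖L t‖ * Real.exp (-(η * t ^ 2))) (Set.Ioi t₀) ∧
      ∫ t in Set.Ioi t₀, k t * ‖L t‖ * Real.exp (-(η * t ^ 2)) ≤
        C / ε + 2 * t₀ * (Real.pi * M) := by
    intro η hη
    refine st_split hkc hLc hk0 hB' ht₀p hM' hw hT' hη ?_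
    have h1 := hC (1 + ε) η (by linarith) hη
    rw [show (1 + ε - 1 : ℝ) = ε by ring] at h1
    simp_rw [hform] at h1
    exact h1
  have h2 := st_lim (φ := fun t => k t * ‖L t‖) (by fun_prop)
    (fun t => mul_nonneg (hk0 t) (norm_nonneg _)) hmain ht₀p
  have hπG : Real.pi * G ≠ 0 := (mul_pos Real.pi_pos hGp).ne'
  have hφ : (fun t : ℝ => ‖Lz s κ ν c (1 / 2 + t * I)‖ / ‖Gamma (1 + ε + t * I)‖ ^ 2) =
      fun t => (Real.pi * G)⁻¹ * (k t * ‖L t‖) := by
    funext t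
    rw [hk, hL]
    field_simp
  rw [hφ]
  refine ⟨h2.1.const_mul _, ?_⟩
  rw [integral_const_mul]
  have h3 : 0 ≤ ∫ t in Set.Ioi t₀, k t * ‖L t‖ :=
    setIntegral_nonneg measurableSet_Ioi (fun t _ => mul_nonneg (hk0 t) (norm_nonneg _))
  have h4 : C / ε + 2 * t₀ * (Real.pi * M) ≤ (|C| + t₀ * (Real.pi * M)) / ε := by
    rw [add_div]
    apply add_le_add
    · exact div_le_div_of_nonneg_right (le_abs_self C) he0.le
    · rw [le_div_iff₀ he0]
      have h5 : 0 ≤ t₀ * (Real.pi * M) := mul_nonneg ht₀p.le (mul_nonneg Real.pi_pos.le hM0)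
      nlinarith
  have h6 : 0 ≤ |C| + t₀ * (Real.pi * M) := by
    have h5 : 0 ≤ t₀ * (Real.pi * M) := mul_nonneg ht₀p.le (mul_nonneg Real.pi_pos.le hM0)
    have := abs_nonneg C
    linarith
  calc (Real.pi * G)⁻¹ * ∫ t in Set.Ioi t₀, k t * ‖L t‖ ≤
        (Real.pi * cG)⁻¹ * ((|C| + t₀ * (Real.pi * M)) / ε) := by
          apply mul_le_mul _ (h2.2.trans h4) h3 (inv_nonneg.2 (mul_pos Real.pi_pos hcG).le)
          apply inv_anti₀ (mul_pos Real.pi_pos hcG)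
          exact mul_le_mul_of_nonneg_left hGre Real.pi_pos.le
    _ = _ := by
          rw [div_div, inv_mul_eq_div, div_div, mul_comm ε]

end Pool.Agent.HB
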