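import Pool.Agent.Lib_helper99.HB.Defs
import Pool.Agent.Lib_helper99.HBF.CC
import Pool.Agent.Lib_helper99.HBF.FB
import Pool.Agent.Lib_helper99.HBF.LE
import Pool.Agent.Lib_helper99.HBF.LZ
import Pool.Agent.Lib_helper99.HBF.MZ
import Pool.Agent.Lib_helper99.HBF.ST

/-!
# Hardy's theorem over imaginary quadratic fields: block PK (helper6)
-/

namespace Pool.Agent.HB

open NumberField Complex MeasureTheory
open scoped MatrixGroups ENNReal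
open Pool.Agent.H4 (NI PI Hek blw Spl Inr tt uu p4 hh PP ml atl FunBd vcf)

variable {K : Type} [Field K] [NumberField K]
variable {s : 𝓞 K →+* ℂ} {κ : 𝓞 K} {τ : 𝓞 K ≃+* 𝓞 K} {b b' : Fin 2 → 𝓞 K}

theorem pk_an (lam : Ideal (𝓞 K) → ℝ) (n : ℕ) :
    an lam n = ∑' 𝔞 : ((fun 𝔞 : Ideal (𝓞 K) => Ideal.absNorm 𝔞) ⁻¹' {n} : Set (Ideal (𝓞 K))),
      (lam 𝔞.1 : ℂ) := by
  unfold an
  rw [tsum_subtype ((fun 𝔞 : Ideal (𝓞 K) => Ideal.absNorm 𝔞) ⁻¹' {n} : Set (Ideal (𝓞 K)))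
    (fun 𝔞 : Ideal (𝓞 K) => (lam 𝔞 : ℂ))]
  refine tsum_congr fun 𝔞 => ?_
  by_cases h : Ideal.absNorm 𝔞 = n
  · rw [if_pos h, Set.indicator_of_mem]
    exact h
  · rw [if_neg h, Set.indicator_of_notMem]
    exact h

theorem an_series {lam : Ideal (𝓞 K) → ℝ} {z : ℂ}
    (hs : Summable (fun 𝔞 : NI K => ‖(lam 𝔞.1 : ℂ) * (Ideal.absNorm 𝔞.1 : ℂ) ^ (-z)‖)) :
    LSeriesSummable (an lam) z ∧
      LSeries (an lam) z = ∑' 𝔞 : NI K, (lam 𝔞.1 : ℂ) * (Ideal.absNorm 𝔞.1 : ℂ) ^ (-z) := by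
  classical
  set g : Ideal (𝓞 K) → ℂ := fun 𝔞 => if 𝔞 = ⊥ then 0 else
    (lam 𝔞 : ℂ) * (Ideal.absNorm 𝔞 : ℂ) ^ (-z) with hg
  have hgN : ∀ 𝔞 : NI K, g 𝔞.1 = (lam 𝔞.1 : ℂ) * (Ideal.absNorm 𝔞.1 : ℂ) ^ (-z) := by
    intro 𝔞
    simp only [hg]
    rw [if_neg 𝔞.2]
  have hG : Summable (fun 𝔞 : NI K => g 𝔞.1) := by
    simp only [hgN]
    exact hs.of_norm
  have hinj : Function.Injective (Subtype.val : NI K → Ideal (𝓞 K)) := Subtype.val_injective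
  have hzero : ∀ 𝔞 : Ideal (𝓞 K), 𝔞 ∉ Set.range (Subtype.val : NI K → Ideal (𝓞 K)) →
      g 𝔞 = 0 := by
    intro 𝔞 h
    have : 𝔞 = ⊥ := by
      by_contra h2
      exact h ⟨⟨𝔞, h2⟩, rfl⟩
    simp only [hg]
    rw [if_pos this]
  have hGs : Summable g := (hinj.summable_iff hzero).1 hG
  have hT : ∑' 𝔞 : NI K, (lam 𝔞.1 : ℂ) * (Ideal.absNorm 𝔞.1 : ℂ) ^ (-z) =
      ∑' 𝔞 : Ideal (𝓞 K), g 𝔞 := by
    rw [← hinj.tsum_eq (f := g) ?_]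
    · exact tsum_congr fun 𝔞 => (hgN 𝔞).symm
    · intro 𝔞 h
      by_contra h2
      exact h (hzero 𝔞 h2)
  have hf := hGs.hasSum.tsum_fiberwise (fun 𝔞 : Ideal (𝓞 K) => Ideal.absNorm 𝔞)
  have hterm : (fun n : ℕ => ∑' 𝔞 : ((fun 𝔞 : Ideal (𝓞 K) => Ideal.absNorm 𝔞) ⁻¹' {n} :
      Set (Ideal (𝓞 K))), g 𝔞.1) = LSeries.term (an lam) z := by
    funext n
    rcases Nat.eq_zero_or_pos n with h | h
    · rw [h, LSeries.term_zero]
      have : ∀ 𝔞 : ((fun 𝔞 : Ideal (𝓞 K) => Ideal.absNorm 𝔞) ⁻¹' {0} : Set (Ideal (𝓞 K))),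
          g 𝔞.1 = 0 := by
        intro 𝔞
        have h0 : Ideal.absNorm 𝔞.1 = 0 := 𝔞.2
        have h1 : 𝔞.1 = ⊥ := Ideal.absNorm_eq_zero_iff.1 h0
        simp only [hg]
        rw [if_pos h1]
      simp only [this, tsum_zero]
    · rw [LSeries.term_of_ne_zero h.ne', pk_an, div_eq_mul_inv, ← tsum_mul_right]
      refine tsum_congr fun 𝔞 => ?_
      have h0 : Ideal.absNorm 𝔞.1 = n := 𝔞.2
      have h1 : 𝔞.1 ≠ ⊥ := by
        intro hb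
        rw [hb, Ideal.absNorm_bot] at h0
        exact h.ne h0
      simp only [hg]
      rw [if_neg h1, h0, Complex.cpow_neg]
  rw [hterm] at hf
  refine ⟨hf.summable, ?_⟩
  rw [hT]
  exact hf.tsum_eq

theorem lam_pk (F : Fld s κ τ b b') {ν : ℂ} (hν : Adm ν) {lam : Ideal (𝓞 K) → ℝ} (h : Hek lam)
    (hc : AF s κ ν (cf lam)) : Pk ν (an lam) (Lz s κ ν (cf lam)) := by
  have hD : 0 < DD s κ := DD_pos F
  have : Finite (𝓞 K)ˣ := units_finite F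
  have hU : (Nat.card (𝓞 K)ˣ : ℂ) ≠ 0 := by
    have : Nat.card (𝓞 K)ˣ ≠ 0 := Nat.card_pos.ne'
    exact_mod_cast this
  refine ⟨lz_diff F hν hc, lz_fe F hν hc, lz_real F hν hc, ?_,
    fun θ x y h0 hθ => lz_dec F hν hc h0 hθ x y, fun T w hw hT => lz_star F hν hc T w hw hT⟩
  have hser : ∀ z : ℂ, 3 / 2 < z.re →
      Summable (fun 𝔞 : NI K => ‖(lam 𝔞.1 : ℂ) * (Ideal.absNorm 𝔞.1 : ℂ) ^ (-z)‖) := by
    intro z hz
    have h1 := (lz_eval F hν hc hz).1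
    simp only [cf_gn F] at h1
    exact h1
  refine ⟨2, DD s κ / (2 * Real.pi) ^ 2, (Nat.card (𝓞 K)ˣ : ℂ) / 4, by positivity,
    div_ne_zero hU (by norm_num), ?_, fun z hz => ?_⟩
  · exact (an_series (hser ((2 : ℝ) : ℂ) (by norm_num))).1
  · have hz' : 3 / 2 < z.re := by linarith
    rw [(lz_eval F hν hc hz').2, (an_series (hser z hz')).2]
    simp only [cf_gn F]

example : type_of% @an_series := @an_series
example : type_of% @lam_pk := @lam_pk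

end Pool.Agent.HB
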