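import Pool.Agent.Lib_helper98.H4F.EP
import Pool.Agent.Lib_helper99.HB.Defs
import Pool.Agent.Lib_helper99.HBF.AN
import Pool.Agent.Lib_helper99.HBF.CT
import Pool.Agent.Lib_helper99.HBF.FX
import Pool.Agent.Lib_helper99.HBF.PK

/-!
# Hardy's theorem over imaginary quadratic fields: block HA
-/

namespace Pool.Agent.HB

open NumberField Complex MeasureTheory
open scoped MatrixGroups ENNReal
open Pool.Agent.H4 (NI PI Hek blw Spl Inr tt uu p4 hh PP ml atl FunBd vcf)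

variable {K : Type} [Field K] [NumberField K]
variable {s : 𝓞 K →+* ℂ} {κ : 𝓞 K} {τ : 𝓞 K ≃+* 𝓞 K} {b b' : Fin 2 → 𝓞 K}

theorem ha_up (F : Fld s κ τ b b') {ν : ℂ} (hν : Adm ν) {lam : Ideal (𝓞 K) → ℝ}
    (h : Hek lam) (hc : AF s κ ν (cf lam)) (T : ℝ) : ∃ t : ℝ, T < t ∧
      Odd (analyticOrderNatAt (Lz s κ ν (cf lam)) (1 / 2 + t * I)) := by
  by_contra hcon
  push Not at hcon
  have h1 : an lam 1 = 1 := an_one h
  obtain ⟨C, hC⟩ := fun_bd hν (lam_pk F hν h hc) (by rw [h1]; exact one_ne_zero)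
    (T := T) (fun t ht => Nat.not_odd_iff_even.2 (by simpa using hcon t ht))
  refine ml_not_summable F hν h hc fun i hi => ?_
  have hi1 : 1 ≤ i := (Finset.mem_Icc.mp hi).1
  refine Pool.Agent.H4.ml_summable hC h1 hi1 fun p m hp hpm => ?_
  refine an_mul h ?_ (pow_ne_zero _ hp.ne_zero) ?_
  · exact Nat.Coprime.pow_left i ((Nat.Prime.coprime_iff_not_dvd hp).mpr hpm)
  · rintro rfl
    exact hpm (dvd_zero p)

theorem ha_order {f : ℂ → ℂ} (hf : ∀ z, f (1 - z) = f z) (z : ℂ) :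
    analyticOrderNatAt f (1 - z) = analyticOrderNatAt f z := by
  unfold analyticOrderNatAt
  congr 1
  have h1 : AnalyticAt ℂ (fun w : ℂ => 1 - w) z := by fun_prop
  have h3 : deriv (fun w : ℂ => 1 - w) z ≠ 0 := by
    rw [deriv_const_sub, deriv_id'']
    norm_num
  have h4 := analyticOrderAt_comp_of_deriv_ne_zero (f := f) (g := fun w : ℂ => 1 - w)
    (z₀ := z) h1 h3
  have h5 : f ∘ (fun w : ℂ => 1 - w) = f := by
    funext w
    simp [hf]
  rw [← h4, h5]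

theorem hardy_data (F : Fld s κ τ b b') {ν : ℂ} (hν : Adm ν) {lam : Ideal (𝓞 K) → ℝ}
    (h : Hek lam) (hc : AF s κ ν (cf lam)) :
    (∀ T : ℝ, ∃ t : ℝ, T < t ∧
      Odd (analyticOrderNatAt (Lz s κ ν (cf lam)) (1 / 2 + t * I))) ∧
    (∀ T : ℝ, ∃ t : ℝ, t < T ∧
      Odd (analyticOrderNatAt (Lz s κ ν (cf lam)) (1 / 2 + t * I))) := by
  refine ⟨ha_up F hν h hc, fun T => ?_⟩
  obtain ⟨t, ht, hodd⟩ := ha_up F hν h hc (-T)
  have hP := lam_pk F hν h hc
  refine ⟨-t, by linarith, ?_⟩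
  have h1 := ha_order hP.even (1 / 2 + t * I)
  have h2 : (1 : ℂ) - (1 / 2 + t * I) = 1 / 2 + ((-t : ℝ) : ℂ) * I := by
    push_cast
    ring
  rw [h2] at h1
  rw [h1]
  exact hodd

example : type_of% @hardy_data := @hardy_data

end Pool.Agent.HB
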